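import Mathlib

set_option autoImplicit false

namespace Pool.Agent.Helper601

theorem cone_abel (c : ℕ → ℝ) (A : ℝ) (hA : 0 ≤ A) (M : ℕ)
    (hN : ∀ j, 1 ≤ j → j ≤ M → ∑ k ∈ Finset.Icc 1 j, c k ≤ A * (j : ℝ) ^ 2) :
    ∑ k ∈ Finset.Icc 1 M, c k * (1 / (k : ℝ)) ≤ 2 * A * M := by
  have key : ∀ n : ℕ, 1 ≤ n → n ≤ M →
      ∑ k ∈ Finset.Icc 1 n, c k * (1 / (k : ℝ)) - (∑ k ∈ Finset.Icc 1 n, c k) / n ≤ A * n := by
    intro n hn
    induction n, hn using Nat.le_induction with
    | base =>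
      intro _
      simp
      exact hA
    | succ n hn ih =>
      intro hnM
      have ih' := ih (by omega)
      have h1 := hN n hn (by omega)
      rw [Finset.sum_Icc_succ_top (by omega), Finset.sum_Icc_succ_top (by omega)]
      have hn0 : (0 : ℝ) < n := by exact_mod_cast hn
      set S := ∑ k ∈ Finset.Icc 1 n, c k * (1 / (k : ℝ)) with hS
      set T := ∑ k ∈ Finset.Icc 1 n, c k with hT
      push_cast
      have h2 : S + c (n + 1) * (1 / ((n : ℝ) + 1)) - (T + c (n + 1)) / ((n : ℝ) + 1)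
          = (S - T / n) + T / (n * (n + 1)) := by
        field_simp
        ring
      rw [h2]
      have h3 : T / (n * (n + 1)) ≤ A := by
        rw [div_le_iff₀ (by positivity)]
        calc T ≤ A * (n : ℝ) ^ 2 := h1
          _ ≤ A * (n * (n + 1)) := by
            apply mul_le_mul_of_nonneg_left _ hA
            nlinarith
      nlinarith
  rcases Nat.eq_zero_or_pos M with h0 | hpos
  · subst h0; simp
  · have h1 := key M hpos le_rfl
    have h2 := hN M hpos le_rfl
    have hM0 : (0 : ℝ) < M := by exact_mod_cast hpos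
    have h3 : (∑ k ∈ Finset.Icc 1 M, c k) / M ≤ A * M := by
      rw [div_le_iff₀ hM0]
      calc _ ≤ _ := h2
        _ = A * M * M := by ring
    linarith

/-- the cone -/
def Cone (m y t K : ℕ) (k k' : ℕ) : Prop :=
  1 ≤ k' ∧ k' < k ∧ |(m : ℤ) * (k' : ℤ) - (y : ℤ) * (k : ℤ)| ≤ (K : ℤ) * t * k

theorem cone_coprime (m y t K a c : ℕ) (hac : Cone m y t K a c)
    (hmin : ∀ k k', k < a → ¬ Cone m y t K k k') : Nat.Coprime a c := by
  by_contra hg
  obtain ⟨h1, h2, h3⟩ := hac
  set g := Nat.gcd a c with hgdef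
  have hgpos : 0 < g := Nat.gcd_pos_of_pos_right _ (by omega)
  have hg1 : g ≠ 1 := hg
  obtain ⟨a', ha'⟩ := Nat.gcd_dvd_left a c
  obtain ⟨c', hc'⟩ := Nat.gcd_dvd_right a c
  rw [← hgdef] at ha' hc'
  have hc'pos : 1 ≤ c' := by
    rcases Nat.eq_zero_or_pos c' with h | h
    · subst h; simp at hc'; omega
    · exact h
  have hlt : c' < a' := by
    rw [ha', hc'] at h2
    exact lt_of_mul_lt_mul_left h2 (Nat.zero_le _)
  have ha'lt : a' < a := by
    rw [ha']
    have : 2 ≤ g := by omega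
    nlinarith
  refine hmin a' c' ha'lt ⟨hc'pos, hlt, ?_⟩
  rw [ha', hc'] at h3
  push_cast at h3
  have hgz : (0 : ℤ) < g := by exact_mod_cast hgpos
  have e1 : (m : ℤ) * ((g : ℤ) * c') - y * ((g : ℤ) * a') = g * (m * c' - y * a') := by ring
  rw [e1, abs_mul, abs_of_pos hgz] at h3
  have e2 : (K : ℤ) * t * (g * a') = g * (K * t * a') := by ring
  rw [e2] at h3
  exact le_of_mul_le_mul_left h3 hgz

theorem cone_count (m y t K M a c : ℕ) (hm : 0 < m) (hac : Cone m y t K a c)
    (hmin : ∀ k k', k < a → ¬ Cone m y t K k k') (j : ℕ) (P : Finset (ℕ × ℕ))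
    (hP : ∀ p ∈ P, p.1 ≤ j ∧ Cone m y t K p.1 p.2 ∧ ¬ a ∣ p.1) :
    (P.card : ℝ) ≤ 8 * K * t / m * (j : ℝ) ^ 2 := by
  classical
  have hco := cone_coprime m y t K a c hac hmin
  obtain ⟨hc1, hca, hcone⟩ := hac
  have ha0 : 0 < a := by omega
  have hm' : (0 : ℝ) < m := by exact_mod_cast hm
  rcases lt_or_ge j a with hja | hja
  · have : P = ∅ := by
      rw [Finset.eq_empty_iff_forall_notMem]
      intro p hp
      obtain ⟨h1, h2, _⟩ := hP p hp
      exact hmin _ _ (lt_of_le_of_lt h1 hja) h2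
    rw [this]
    simp only [Finset.card_empty, Nat.cast_zero]
    positivity
  set L : ℕ := (2 * K * t * a * j) / m with hL
  let f : ℕ × ℕ → ℤ × ℕ := fun p => ((a : ℤ) * p.2 - c * p.1, p.1 / a)
  have hmaps : ∀ p ∈ P, f p ∈ ((Finset.Icc (-(L : ℤ)) L).erase 0) ×ˢ (Finset.range (j / a + 1)) := by
    intro p hp
    obtain ⟨h1, ⟨h2, h3, h4⟩, h5⟩ := hP p hp
    have hne : (a : ℤ) * p.2 - c * p.1 ≠ 0 := by
      intro h
      apply h5
      have h6 : (a : ℤ) ∣ c * p.1 := ⟨p.2, by linarith⟩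
      have h7 : a ∣ c * p.1 := by exact_mod_cast h6
      exact hco.dvd_of_dvd_mul_left h7
    have hb : (m : ℤ) * |(a : ℤ) * p.2 - c * p.1| ≤ 2 * K * t * a * j := by
      have e : (m : ℤ) * ((a : ℤ) * p.2 - c * p.1) =
          a * (m * p.2 - y * p.1) - p.1 * (m * c - y * a) := by ring
      have hmz : (0 : ℤ) ≤ m := by positivity
      have : (m : ℤ) * |(a : ℤ) * p.2 - c * p.1| =
          |(a : ℤ) * (m * p.2 - y * p.1) - p.1 * (m * c - y * a)| := by
        rw [← e, abs_mul, abs_of_nonneg hmz]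
      rw [this]
      have haz : (0 : ℤ) ≤ a := by positivity
      have hpz : (0 : ℤ) ≤ p.1 := by positivity
      calc |(a : ℤ) * (m * p.2 - y * p.1) - p.1 * (m * c - y * a)|
          ≤ |(a : ℤ) * (m * p.2 - y * p.1)| + |(p.1 : ℤ) * (m * c - y * a)| := abs_sub ((a : ℤ) * (m * p.2 - y * p.1)) ((p.1 : ℤ) * (m * c - y * a))
        _ = a * |(m : ℤ) * p.2 - y * p.1| + p.1 * |(m : ℤ) * c - y * a| := by
            rw [abs_mul, abs_mul, abs_of_nonneg haz, abs_of_nonneg hpz]
        _ ≤ a * ((K : ℤ) * t * p.1) + p.1 * ((K : ℤ) * t * a) := by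
            have u1 := mul_le_mul_of_nonneg_left h4 haz
            have u2 := mul_le_mul_of_nonneg_left hcone hpz
            linarith
        _ = 2 * K * t * a * p.1 := by ring
        _ ≤ 2 * K * t * a * j := by
            apply mul_le_mul_of_nonneg_left
            · exact_mod_cast h1
            · positivity
    have hLb : ((a : ℤ) * p.2 - c * p.1).natAbs ≤ L := by
      rw [hL, Nat.le_div_iff_mul_le hm]
      have : ((((a : ℤ) * p.2 - c * p.1).natAbs * m : ℕ) : ℤ) ≤ ((2 * K * t * a * j : ℕ) : ℤ) := by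
        push_cast
        linarith
      exact_mod_cast this
    simp only [f, Finset.mem_product, Finset.mem_erase, Finset.mem_Icc, Finset.mem_range]
    refine ⟨⟨hne, ?_, ?_⟩, ?_⟩
    · omega
    · omega
    · exact Nat.lt_succ_of_le (Nat.div_le_div_right h1)
  have hinj : Set.InjOn f P := by
    intro p hp q hq hpq
    simp only [f, Prod.mk.injEq] at hpq
    obtain ⟨e1, e2⟩ := hpq
    -- k mod a agree
    have hmod : p.1 % a = q.1 % a := by
      have h1 : ((c : ℤ) * p.1) ≡ (c : ℤ) * q.1 [ZMOD a] := by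
        have : (c : ℤ) * q.1 - c * p.1 = a * (q.2 - p.2) := by linarith
        exact (Int.modEq_iff_dvd).2 ⟨_, this⟩
      have h2 : (c * p.1) ≡ (c * q.1) [MOD a] := by
        rw [← Int.natCast_modEq_iff]; push_cast; exact h1
      exact Nat.ModEq.cancel_left_of_coprime hco h2
    have hk : p.1 = q.1 := by
      rw [← Nat.div_add_mod p.1 a, ← Nat.div_add_mod q.1 a, e2, hmod]
    have hk' : p.2 = q.2 := by
      rw [hk] at e1
      have : (a : ℤ) * p.2 = a * q.2 := by linarith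
      have := mul_left_cancel₀ (by exact_mod_cast ha0.ne') this
      exact_mod_cast this
    exact Prod.ext hk hk'
  have hcard := Finset.card_le_card_of_injOn f hmaps hinj
  rw [Finset.card_product, Finset.card_range, Finset.card_erase_of_mem
    (by simp), Int.card_Icc] at hcard
  have e3 : ((L : ℤ) + 1 - -(L : ℤ)).toNat - 1 = 2 * L := by omega
  rw [e3] at hcard
  have hcard' : (P.card : ℝ) ≤ 2 * (L : ℝ) * ((j / a : ℕ) + 1) := by exact_mod_cast hcard
  have hL' : (L : ℝ) ≤ 2 * K * t * a * j / m := by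
    rw [hL]
    refine (Nat.cast_div_le).trans ?_
    push_cast
    exact le_rfl
  have ha' : (0 : ℝ) < a := by exact_mod_cast ha0
  have hja' : ((j / a : ℕ) : ℝ) + 1 ≤ 2 * j / a := by
    have h1 : ((j / a : ℕ) : ℝ) ≤ (j : ℝ) / a := Nat.cast_div_le
    have h2 : (1 : ℝ) ≤ (j : ℝ) / a := by
      rw [le_div_iff₀ ha', one_mul]; exact_mod_cast hja
    have h3 : 2 * (j : ℝ) / a = (j : ℝ) / a + (j : ℝ) / a := by ring
    linarith
  calc (P.card : ℝ) ≤ 2 * (L : ℝ) * ((j / a : ℕ) + 1) := hcard'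
    _ ≤ 2 * (2 * K * t * a * j / m) * (2 * j / a) := by
        apply mul_le_mul _ hja' (by positivity) (by positivity)
        linarith
    _ = 8 * K * t / m * (j : ℝ) ^ 2 := by
        field_simp
        ring

/-- Lattice points in a thin cone, apart from multiples of one `d`, have small log-mass. -/
theorem cone_lemma (m y t K M : ℕ) (hm : 0 < m) (ht : 0 < t) (hK : 0 < K) (hM : M * t ≤ m) :
    ∃ d : ℕ, 2 ≤ d ∧ d ≤ M + 2 ∧
      ∑ k ∈ Finset.Icc 1 M,
        ∑ _k' ∈ (Finset.Icc 1 (k - 1)).filter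
          (fun k' : ℕ => |(m : ℤ) * (k' : ℤ) - (y : ℤ) * (k : ℤ)| ≤ (K : ℤ) * t * k),
          (if d ∣ k then (0 : ℝ) else 1 / (k : ℝ)) ≤ 16 * K := by
  classical
  by_cases hex : ∃ k, k ≤ M ∧ ∃ k', Cone m y t K k k'
  · have hspec := Nat.find_spec hex
    have hmin0 := fun k (hk : k < Nat.find hex) => Nat.find_min hex hk
    set a := Nat.find hex with ha
    obtain ⟨haM, c, hac⟩ := hspec
    have hmin : ∀ k k', k < a → ¬ Cone m y t K k k' := by
      intro k k' hk hc
      exact hmin0 k hk ⟨by omega, k', hc⟩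
    have hc1 := hac.1
    have hc2 := hac.2.1
    refine ⟨a, by omega, by omega, ?_⟩
    let cf : ℕ → ℝ := fun k => if a ∣ k then 0 else
      (((Finset.Icc 1 (k - 1)).filter
          (fun k' : ℕ => |(m : ℤ) * (k' : ℤ) - (y : ℤ) * (k : ℤ)| ≤ (K : ℤ) * t * k)).card : ℝ)
    have e1 : ∀ k ∈ Finset.Icc 1 M, ∑ _k' ∈ (Finset.Icc 1 (k - 1)).filter
          (fun k' : ℕ => |(m : ℤ) * (k' : ℤ) - (y : ℤ) * (k : ℤ)| ≤ (K : ℤ) * t * k),
          (if a ∣ k then (0 : ℝ) else 1 / (k : ℝ)) = cf k * (1 / (k : ℝ)) := by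
      intro k _
      rw [Finset.sum_const, nsmul_eq_mul]
      simp only [cf]
      split_ifs <;> simp
    rw [Finset.sum_congr rfl e1]
    have hmR : (0 : ℝ) < m := by exact_mod_cast hm
    have habel := cone_abel cf (8 * K * t / m) (by positivity) M ?_
    · refine habel.trans ?_
      have hMt : (M : ℝ) * t ≤ m := by exact_mod_cast hM
      have : 2 * (8 * (K : ℝ) * t / m) * M = 16 * K * ((M * t) / m) := by
        field_simp
        ring
      rw [this]
      have h2 : (M : ℝ) * t / m ≤ 1 := by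
        rw [div_le_one hmR]; exact hMt
      have h3 : (0 : ℝ) ≤ 16 * K := by positivity
      nlinarith
    · intro j hj1 hjM
      let P : Finset (ℕ × ℕ) := (((Finset.Icc 1 j).filter (fun k => ¬ a ∣ k)).sigma
        (fun k => (Finset.Icc 1 (k - 1)).filter
          (fun k' : ℕ => |(m : ℤ) * (k' : ℤ) - (y : ℤ) * (k : ℤ)| ≤ (K : ℤ) * t * k))).map
          (Equiv.sigmaEquivProd ℕ ℕ).toEmbedding
      have hPc : ∑ k ∈ Finset.Icc 1 j, cf k = (P.card : ℝ) := by
        simp only [P, Finset.card_map, Finset.card_sigma]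
        push_cast
        rw [Finset.sum_filter]
        apply Finset.sum_congr rfl
        intro k _
        simp only [cf]
        by_cases h : a ∣ k
        · simp [h]
        · simp [h]
      rw [hPc]
      refine cone_count m y t K M a c hm hac hmin j P ?_
      intro p hp
      simp only [P, Finset.mem_map, Finset.mem_sigma, Finset.mem_filter, Finset.mem_Icc,
        Equiv.coe_toEmbedding, Equiv.sigmaEquivProd_apply] at hp
      obtain ⟨⟨k, k'⟩, ⟨⟨⟨h1, h2⟩, h3⟩, ⟨h4, h5⟩, h6⟩, rfl⟩ := hp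
      simp only at h1 h2 h3 h4 h5 h6 ⊢
      exact ⟨h2, ⟨h4, by omega, h6⟩, h3⟩
  · refine ⟨2, le_rfl, by omega, ?_⟩
    have : ∑ k ∈ Finset.Icc 1 M,
        ∑ _k' ∈ (Finset.Icc 1 (k - 1)).filter
          (fun k' : ℕ => |(m : ℤ) * (k' : ℤ) - (y : ℤ) * (k : ℤ)| ≤ (K : ℤ) * t * k),
          (if 2 ∣ k then (0 : ℝ) else 1 / (k : ℝ)) = 0 := by
      apply Finset.sum_eq_zero
      intro k hk
      rw [Finset.mem_Icc] at hk
      apply Finset.sum_eq_zero
      intro k' hk'
      rw [Finset.mem_filter, Finset.mem_Icc] at hk'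
      exact absurd ⟨k, hk.2, k', hk'.1.1, by omega, hk'.2⟩ hex
    rw [this]
    positivity

end Pool.Agent.Helper601
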