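import Mathlib
import Pool.Agent.Helper601.BT
import Pool.Agent.Helper601.PNT
import Pool.Agent.Helper601.Mertens
import Pool.Agent.Helper601.Cone

set_option autoImplicit false

namespace Pool.Agent.Helper601

open Finset

/-- primes in a half-open interval -/
abbrev PI (A B : ℕ) : Finset ℕ := (Finset.Ioc A B).filter Nat.Prime

theorem div_le_div_add (A X k : ℕ) (hk : 0 < k) : (A + X) / k < A / k + X / k + 2 := by
  rw [Nat.div_lt_iff_lt_mul hk]
  have h1 := Nat.lt_mul_div_succ A hk
  have h2 := Nat.lt_mul_div_succ X hk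
  nlinarith

theorem window_count (δ : ℝ) (hδ : 0 < δ) : ∃ C : ℝ, 1 ≤ C ∧ ∀ m A B k : ℕ, 2 ≤ m → A ≤ B →
    1 ≤ k → (m : ℝ) ^ δ * k ≤ (B : ℝ) - A →
    ((PI (A / k) (B / k)).card : ℝ) ≤ C * ((B : ℝ) - A) / (k * Real.log m) := by
  obtain ⟨C, hC1, hC⟩ := brun_titchmarsh
  refine ⟨3 * C / δ + 1, ?_, ?_⟩
  · have : 0 ≤ 3 * C / δ := by positivity
    linarith
  intro m A B k hm hAB hk hlen
  have hm' : (2 : ℝ) ≤ m := by exact_mod_cast hm
  have hlogm : 0 < Real.log m := Real.log_pos (by linarith)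
  have hk' : (1 : ℝ) ≤ k := by exact_mod_cast hk
  have hmd : (1 : ℝ) ≤ (m : ℝ) ^ δ := Real.one_le_rpow (by linarith) hδ.le
  set N := (B - A) / k + 2 with hN
  have h1 := hC (A / k + 1) 1 N (Nat.le_add_left 2 _) (Or.inl rfl)
  have h2 : (PI (A / k) (B / k)).card ≤
      ((range N).filter (fun j => (A / k + 1 + j * 1).Prime)).card := by
    apply Finset.card_le_card_of_injOn (fun P => P - (A / k + 1))
    · intro P hP
      simp only [Finset.coe_filter, Set.mem_ofPred_eq, Finset.mem_Ioc] at hP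
      simp only [Finset.coe_filter, Set.mem_ofPred_eq, Finset.mem_range]
      have h3 := div_le_div_add A (B - A) k (by omega)
      rw [show A + (B - A) = B by omega] at h3
      refine ⟨by omega, ?_⟩
      rw [show A / k + 1 + (P - (A / k + 1)) * 1 = P by omega]
      exact hP.2
    · intro P hP Q hQ hPQ
      simp only [Finset.coe_filter, Set.mem_ofPred_eq, Finset.mem_Ioc] at hP hQ
      simp only at hPQ
      omega
  have h3 : ((PI (A / k) (B / k)).card : ℝ) ≤ C * N / Real.log N := by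
    refine le_trans ?_ h1
    exact_mod_cast h2
  have hX : (m : ℝ) ^ δ ≤ ((B : ℝ) - A) / k := by
    rw [le_div_iff₀ (by linarith)]
    exact hlen
  have hcast : ((B - A : ℕ) : ℝ) = (B : ℝ) - A := by
    rw [Nat.cast_sub hAB]
  have hNup : (N : ℝ) ≤ 3 * (((B : ℝ) - A) / k) := by
    rw [hN]
    push_cast
    have h4 : (((B - A) / k : ℕ) : ℝ) ≤ ((B : ℝ) - A) / k := by
      rw [← hcast]
      exact Nat.cast_div_le
    linarith
  have hNlo : (m : ℝ) ^ δ ≤ N := by
    refine hX.trans ?_
    rw [hN]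
    push_cast
    have h4 : ((B : ℝ) - A) / k < (((B - A) / k : ℕ) : ℝ) + 1 := by
      rw [← hcast, ← Nat.floor_div_eq_div (K := ℝ)]
      exact Nat.lt_floor_add_one _
    linarith
  have hlogN : δ * Real.log m ≤ Real.log N := by
    rw [← Real.log_rpow (by linarith)]
    exact Real.log_le_log (by linarith) hNlo
  have hpos : 0 < δ * Real.log m := by positivity
  calc ((PI (A / k) (B / k)).card : ℝ) ≤ C * N / Real.log N := h3
    _ ≤ C * (3 * (((B : ℝ) - A) / k)) / (δ * Real.log m) := by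
        apply div_le_div₀
        · have : 0 ≤ ((B : ℝ) - A) / k := by linarith
          positivity
        · exact mul_le_mul_of_nonneg_left hNup (by linarith)
        · exact hpos
        · exact hlogN
    _ = (3 * C / δ) * ((B : ℝ) - A) / (k * Real.log m) := by
        field_simp
    _ ≤ (3 * C / δ + 1) * ((B : ℝ) - A) / (k * Real.log m) := by
        have h5 : 0 ≤ (B : ℝ) - A := by
          rw [← hcast]; positivity
        apply div_le_div_of_nonneg_right _ (by positivity)
        nlinarith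

theorem theta_eq_sum (N : ℕ) : Chebyshev.theta (N : ℝ) = ∑ p ∈ Mertens.PP N, Real.log p := by
  rw [Chebyshev.theta, Nat.floor_natCast]
  rfl

theorem theta_sub_le (A B : ℕ) (hAB : A ≤ B) :
    Chebyshev.theta (B : ℝ) - Chebyshev.theta (A : ℝ) ≤ (PI A B).card * Real.log B := by
  rw [theta_eq_sum, theta_eq_sum]
  have h1 : Mertens.PP B = Mertens.PP A ∪ PI A B := by
    ext p
    simp only [Finset.mem_filter, Finset.mem_union, Finset.mem_Icc, Finset.mem_Ioc]
    constructor
    · rintro ⟨h1, h2⟩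
      by_cases h : p ≤ A
      · left; exact ⟨⟨h1.1, h⟩, h2⟩
      · right; exact ⟨⟨by omega, h1.2⟩, h2⟩
    · rintro (⟨h1, h2⟩ | ⟨h1, h2⟩)
      · exact ⟨⟨h1.1, by omega⟩, h2⟩
      · exact ⟨⟨h2.one_lt.le, h1.2⟩, h2⟩
  have h2 : Disjoint (Mertens.PP A) (PI A B) := by
    rw [Finset.disjoint_left]
    intro p hp hq
    simp only [Finset.mem_filter, Finset.mem_Icc, Finset.mem_Ioc] at hp hq
    omega
  rw [h1, Finset.sum_union h2]
  have h3 : ∑ p ∈ PI A B, Real.log (p : ℝ) ≤ ∑ _p ∈ PI A B, Real.log (B : ℝ) := by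
    apply Finset.sum_le_sum
    intro p hp
    simp only [Finset.mem_filter, Finset.mem_Ioc] at hp
    apply Real.log_le_log
    · exact_mod_cast hp.2.pos
    · exact_mod_cast hp.1.2
  rw [Finset.sum_const, nsmul_eq_mul] at h3
  linarith

theorem pnt_count (ε₀ : ℝ) (hε : 0 < ε₀) : ∃ x₀ : ℕ, ∀ A B : ℕ, x₀ ≤ B →
    (A : ℝ) ≤ (1 - ε₀) * B →
    ((B : ℝ) - A) / 2 ≤ (PI A B).card * Real.log B := by
  have h1 := PNT.theta_div_tendsto
  rw [Metric.tendsto_atTop] at h1
  obtain ⟨x₁, hx₁⟩ := h1 (ε₀ / 8) (by positivity)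
  have hth0 : 0 ≤ Chebyshev.theta (max x₁ 1) := Chebyshev.theta_nonneg _
  refine ⟨⌈max (max x₁ 1) (8 * Chebyshev.theta (max x₁ 1) / ε₀)⌉₊ + 1, ?_⟩
  intro A B hB hAB
  have hBr : max (max x₁ 1) (8 * Chebyshev.theta (max x₁ 1) / ε₀) ≤ B := by
    refine (Nat.le_ceil _).trans ?_
    exact_mod_cast (by omega : ⌈max (max x₁ 1) (8 * Chebyshev.theta (max x₁ 1) / ε₀)⌉₊ ≤ B)
  have hB1 : max x₁ 1 ≤ (B : ℝ) := (le_max_left _ _).trans hBr
  have hBx : x₁ ≤ (B : ℝ) := (le_max_left _ _).trans hB1
  have hB0 : (1 : ℝ) ≤ (B : ℝ) := (le_max_right _ _).trans hB1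
  have hB2 : 8 * Chebyshev.theta (max x₁ 1) / ε₀ ≤ B := (le_max_right _ _).trans hBr
  have hA0 : (0 : ℝ) ≤ A := Nat.cast_nonneg _
  have hBth := hx₁ B hBx
  rw [Real.dist_eq, abs_lt] at hBth
  have hBlo : (1 - ε₀ / 8) * B ≤ Chebyshev.theta (B : ℝ) := by
    have h2 : 1 - ε₀ / 8 < Chebyshev.theta (B : ℝ) / B := by linarith [hBth.1]
    rw [lt_div_iff₀ (by linarith)] at h2
    exact h2.le
  have hAup : Chebyshev.theta (A : ℝ) ≤ (1 + ε₀ / 8) * A + ε₀ / 8 * B := by
    by_cases h : max x₁ 1 ≤ (A : ℝ)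
    · have hAth := hx₁ A ((le_max_left _ _).trans h)
      rw [Real.dist_eq, abs_lt] at hAth
      have h2 : Chebyshev.theta (A : ℝ) / A < 1 + ε₀ / 8 := by linarith [hAth.2]
      have hA1 : (1 : ℝ) ≤ (A : ℝ) := (le_max_right _ _).trans h
      rw [div_lt_iff₀ (by linarith)] at h2
      have : 0 ≤ ε₀ / 8 * (B : ℝ) := by positivity
      linarith
    · push Not at h
      have h2 : Chebyshev.theta (A : ℝ) ≤ Chebyshev.theta (max x₁ 1) :=
        Chebyshev.theta_mono h.le
      rw [div_le_iff₀ hε] at hB2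
      have : 0 ≤ (1 + ε₀ / 8) * (A : ℝ) := by positivity
      linarith
  have hABn : A ≤ B := by
    have : (A : ℝ) ≤ B := by nlinarith
    exact_mod_cast this
  refine le_trans ?_ (theta_sub_le A B hABn)
  have h4 : ε₀ * A ≤ ε₀ * B := mul_le_mul_of_nonneg_left (by exact_mod_cast hABn) hε.le
  have h5 : ε₀ * B ≤ B - A := by linarith
  have h6 : (A : ℝ) ≤ B := by exact_mod_cast hABn
  linarith

/-- first Mertens-type bounds for valuations -/
theorem factorization_diff_ge (A B P : ℕ) (hP : P.Prime) (hAB : A ≤ B) :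
    A.factorial.factorization P + (B / P - A / P) ≤ B.factorial.factorization P := by
  by_cases hPB : B < P
  · rw [Nat.div_eq_of_lt hPB]
    have h1 := (Nat.factorization_le_iff_dvd (Nat.factorial_ne_zero A)
      (Nat.factorial_ne_zero B)).2 (Nat.factorial_dvd_factorial hAB)
    have := h1 P
    rw [Nat.zero_sub]
    omega
  push Not at hPB
  have hb1 : Nat.log P A < Nat.log P B + 1 := by
    have := Nat.log_mono_right (b := P) hAB
    omega
  rw [Nat.factorization_factorial hP hb1,
    Nat.factorization_factorial hP (Nat.lt_succ_self (Nat.log P B))]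
  have h1 : 1 ≤ Nat.log P B := Nat.log_pos hP.one_lt hPB
  have h2 : ∀ f : ℕ → ℕ, ∑ i ∈ Finset.Ico 1 (Nat.log P B + 1), f i =
      f 1 + ∑ i ∈ Finset.Ico 2 (Nat.log P B + 1), f i := by
    intro f
    rw [Finset.sum_eq_sum_Ico_succ_bot (by omega)]
  rw [Nat.succ_eq_add_one, h2, h2, pow_one]
  have h3 : ∑ i ∈ Finset.Ico 2 (Nat.log P B + 1), A / P ^ i ≤
      ∑ i ∈ Finset.Ico 2 (Nat.log P B + 1), B / P ^ i :=
    Finset.sum_le_sum fun i _ => Nat.div_le_div_right hAB
  have h4 : A / P ≤ B / P := Nat.div_le_div_right hAB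
  omega

theorem factorization_diff_le (A B P : ℕ) (hP : P.Prime) (hAB : A ≤ B) :
    B.factorial.factorization P ≤ A.factorial.factorization P + (B - A) / (P - 1) +
      Nat.log P B := by
  have hb1 : Nat.log P A < Nat.log P B + 1 := by
    have := Nat.log_mono_right (b := P) hAB
    omega
  have hb2 : Nat.log P (B - A) < Nat.log P B + 1 := by
    have := Nat.log_mono_right (b := P) (Nat.sub_le B A)
    omega
  have h0 := Nat.factorization_factorial_le_div_pred hP (B - A)
  have h1 : B.factorial.factorization P ≤ A.factorial.factorization P +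
      (B - A).factorial.factorization P + Nat.log P B := by
    rw [Nat.factorization_factorial hP hb1, Nat.factorization_factorial hP hb2,
      Nat.factorization_factorial hP (Nat.lt_succ_self (Nat.log P B)), Nat.succ_eq_add_one]
    rw [← Finset.sum_add_distrib]
    have h3 : ∑ i ∈ Finset.Ico 1 (Nat.log P B + 1), (A / P ^ i + (B - A) / P ^ i) + Nat.log P B =
        ∑ i ∈ Finset.Ico 1 (Nat.log P B + 1), ((A / P ^ i + (B - A) / P ^ i) + 1) := by
      rw [Finset.sum_add_distrib (g := fun _ => 1)]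
      simp
    rw [h3]
    apply Finset.sum_le_sum
    intro i _
    have := div_le_div_add A (B - A) (P ^ i) (pow_pos hP.pos i)
    rw [show A + (B - A) = B by omega] at this
    omega
  omega

theorem factorization_eq_of_sq (B P : ℕ) (hP : P.Prime) (h : B < P ^ 2) :
    B.factorial.factorization P = B / P := by
  have h1 : Nat.log P B < 2 := Nat.log_lt_of_lt_pow' (by norm_num) h
  rw [Nat.factorization_factorial hP h1]
  simp

theorem log_factorial_eq' (N M : ℕ) (h : N ≤ M) :
    Real.log (N.factorial : ℝ) =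
      ∑ p ∈ Mertens.PP M, (N.factorial.factorization p : ℝ) * Real.log p := by
  rw [Mertens.log_factorial_eq N]
  apply Finset.sum_subset
  · intro p hp
    simp only [Finset.mem_filter, Finset.mem_Icc] at hp ⊢
    exact ⟨⟨hp.1.1, by omega⟩, hp.2⟩
  · intro p hp hp2
    simp only [Finset.mem_filter, Finset.mem_Icc] at hp hp2
    have : N < p := by
      by_contra hc
      exact hp2 ⟨⟨hp.1.1, by omega⟩, hp.2⟩
    rw [Nat.factorization_eq_zero_of_not_dvd, Nat.cast_zero, zero_mul]
    rw [hp.2.dvd_factorial]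
    omega

theorem card_PP_le : ∃ C : ℝ, 1 ≤ C ∧ ∀ z : ℕ, 2 ≤ z →
    ((Mertens.PP z).card : ℝ) * Real.log z ≤ C * z := by
  obtain ⟨C, hC1, hC⟩ := brun_titchmarsh
  refine ⟨2 * C, by linarith, ?_⟩
  intro z hz
  have hz' : (2 : ℝ) ≤ z := by exact_mod_cast hz
  have h1 := hC 0 1 (z + 1) (by omega) (Or.inl rfl)
  have h2 : (Mertens.PP z).card ≤ ((range (z + 1)).filter (fun k => (0 + k * 1).Prime)).card := by
    apply Finset.card_le_card
    intro p hp
    simp only [Finset.mem_filter, Finset.mem_Icc] at hp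
    simp only [Finset.mem_filter, Finset.mem_range]
    refine ⟨by omega, ?_⟩
    rw [zero_add, mul_one]
    exact hp.2
  have h3 : ((Mertens.PP z).card : ℝ) ≤ C * ((z + 1 : ℕ) : ℝ) / Real.log ((z + 1 : ℕ) : ℝ) := by
    refine le_trans ?_ h1
    exact_mod_cast h2
  have hlz : 0 < Real.log z := Real.log_pos (by linarith)
  have hlz1 : Real.log z ≤ Real.log ((z + 1 : ℕ) : ℝ) := by
    apply Real.log_le_log (by linarith)
    push_cast
    linarith
  rw [le_div_iff₀ (by linarith)] at h3
  have h4 : (0 : ℝ) ≤ (Mertens.PP z).card := Nat.cast_nonneg _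
  calc ((Mertens.PP z).card : ℝ) * Real.log z ≤ (Mertens.PP z).card * Real.log ((z + 1 : ℕ) : ℝ) :=
        mul_le_mul_of_nonneg_left hlz1 h4
    _ ≤ C * ((z + 1 : ℕ) : ℝ) := h3
    _ ≤ 2 * C * z := by
        push_cast
        nlinarith

theorem log_fac_diff_lower (A B : ℕ) (hAB : A ≤ B) (h2 : B ≤ 2 * A + 1) (hB : 1 ≤ B) :
    ((B : ℝ) - A) * (Real.log B - Real.log 2) ≤
      Real.log (B.factorial : ℝ) - Real.log (A.factorial : ℝ) := by
  have h1 : A.factorial * (A + 1) ^ (B - A) ≤ B.factorial := by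
    have := @Nat.factorial_mul_pow_le_factorial A (B - A)
    rwa [show A + (B - A) = B by omega] at this
  have hA0 : (0 : ℝ) < A.factorial := by exact_mod_cast A.factorial_pos
  have hA1 : (0 : ℝ) < (A : ℝ) + 1 := by positivity
  have h3 : Real.log ((A.factorial : ℝ) * ((A : ℝ) + 1) ^ (B - A)) ≤ Real.log (B.factorial : ℝ) := by
    apply Real.log_le_log (by positivity)
    exact_mod_cast h1
  rw [Real.log_mul hA0.ne' (by positivity), Real.log_pow, Nat.cast_sub hAB] at h3
  have hB0 : (0 : ℝ) < B := by exact_mod_cast hB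
  have h4 : Real.log B - Real.log 2 ≤ Real.log ((A : ℝ) + 1) := by
    rw [← Real.log_div hB0.ne' (by norm_num)]
    apply Real.log_le_log (by positivity)
    rw [div_le_iff₀ (by norm_num)]
    have : (B : ℝ) ≤ 2 * A + 1 := by exact_mod_cast h2
    linarith
  have h5 : (0 : ℝ) ≤ (B : ℝ) - A := by
    have : (A : ℝ) ≤ B := by exact_mod_cast hAB
    linarith
  nlinarith [mul_le_mul_of_nonneg_left h4 h5]

theorem log_fac_diff_upper (A B : ℕ) (hAB : A ≤ B) :
    Real.log (B.factorial : ℝ) - Real.log (A.factorial : ℝ) ≤ ((B : ℝ) - A) * Real.log B := by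
  have h1 : B.factorial ≤ A.factorial * B ^ (B - A) := by
    have h2 := Nat.factorial_mul_descFactorial (n := B) (k := B - A) (by omega)
    rw [show B - (B - A) = A by omega] at h2
    rw [← h2]
    exact Nat.mul_le_mul_left _ (Nat.descFactorial_le_pow _ _)
  have hA0 : (0 : ℝ) < A.factorial := by exact_mod_cast A.factorial_pos
  rcases Nat.eq_zero_or_pos B with hB | hB
  · subst hB
    have : A = 0 := by omega
    subst this
    simp
  have hB0 : (0 : ℝ) < B := by exact_mod_cast hB
  have h3 : Real.log (B.factorial : ℝ) ≤ Real.log ((A.factorial : ℝ) * (B : ℝ) ^ (B - A)) := by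
    apply Real.log_le_log (by exact_mod_cast B.factorial_pos)
    exact_mod_cast h1
  rw [Real.log_mul hA0.ne' (by positivity), Real.log_pow, Nat.cast_sub hAB] at h3
  linarith

theorem sum_log_div_pred : ∃ C : ℝ, 1 ≤ C ∧ ∀ z : ℕ, 1 ≤ z →
    ∑ P ∈ Mertens.PP z, Real.log P / ((P : ℝ) - 1) ≤ Real.log z + C := by
  obtain ⟨C, hC⟩ := Mertens.mertens_log
  obtain ⟨C', hC'0, hC'⟩ := Mertens.sum_small_bound
  refine ⟨|C| + C' + 1, by have := abs_nonneg C; linarith, ?_⟩
  intro z hz
  have h1 := hC z hz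
  rw [abs_le] at h1
  have h2 := hC' z
  have h3 : ∑ P ∈ Mertens.PP z, Real.log P / ((P : ℝ) - 1) =
      ∑ P ∈ Mertens.PP z, Real.log P / (P : ℝ) +
      ∑ P ∈ Mertens.PP z, Real.log P / ((P : ℝ) * ((P : ℝ) - 1)) := by
    rw [← Finset.sum_add_distrib]
    apply Finset.sum_congr rfl
    intro P hP
    rw [Finset.mem_filter] at hP
    have h2' : (2 : ℝ) ≤ P := by exact_mod_cast hP.2.two_le
    have : (P : ℝ) ≠ 0 := by linarith
    have : (P : ℝ) - 1 ≠ 0 := by linarith
    field_simp
    ring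
  rw [h3]
  have := le_abs_self C
  linarith [h1.2]

theorem sum_log_div_ge : ∃ C : ℝ, 1 ≤ C ∧ ∀ z : ℕ, 1 ≤ z →
    Real.log z - C ≤ ∑ P ∈ Mertens.PP z, Real.log P / (P : ℝ) := by
  obtain ⟨C, hC⟩ := Mertens.mertens_log
  refine ⟨|C| + 1, by have := abs_nonneg C; linarith, ?_⟩
  intro z hz
  have h1 := hC z hz
  rw [abs_le] at h1
  have := le_abs_self C
  linarith [h1.1]

/-- lower bound for the weighted number of large primes hitting a block -/
theorem block_lower : ∃ C : ℝ, 1 ≤ C ∧ ∀ A B z : ℕ, A ≤ B → B ≤ 2 * A + 1 → 2 ≤ z →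
    B < (z + 1) ^ 2 →
    ((B : ℝ) - A) * (Real.log B - Real.log z) - C * ((B : ℝ) - A) - C * z ≤
      ∑ P ∈ (Mertens.PP B).filter (fun P => z < P), Real.log P * ((B / P - A / P : ℕ) : ℝ) := by
  obtain ⟨C₁, hC₁1, hC₁⟩ := sum_log_div_pred
  obtain ⟨C₂, hC₂1, hC₂⟩ := card_PP_le
  refine ⟨C₁ + 4 * C₂ + 1, by linarith, ?_⟩
  intro A B z hAB h2 hz hBz
  rcases Nat.eq_zero_or_pos B with hB | hB
  · subst hB
    have : A = 0 := by omega
    subst this
    simp
    positivity
  have hz' : (2 : ℝ) ≤ z := by exact_mod_cast hz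
  have hAB' : (0 : ℝ) ≤ (B : ℝ) - A := by
    have : (A : ℝ) ≤ B := by exact_mod_cast hAB
    linarith
  have hlow := log_fac_diff_lower A B hAB h2 hB
  rw [log_factorial_eq' B B le_rfl, log_factorial_eq' A B hAB, ← Finset.sum_sub_distrib] at hlow
  rw [← Finset.sum_filter_add_sum_filter_not (Mertens.PP B) (fun P => z < P)] at hlow
  have hbig : ∑ P ∈ (Mertens.PP B).filter (fun P => z < P),
      ((B.factorial.factorization P : ℝ) * Real.log P - (A.factorial.factorization P : ℝ) * Real.log P) =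
      ∑ P ∈ (Mertens.PP B).filter (fun P => z < P), Real.log P * ((B / P - A / P : ℕ) : ℝ) := by
    apply Finset.sum_congr rfl
    intro P hP
    simp only [Finset.mem_filter, Finset.mem_Icc] at hP
    have hP2 : B < P ^ 2 := lt_of_lt_of_le hBz (Nat.pow_le_pow_left hP.2 2)
    rw [factorization_eq_of_sq B P hP.1.2 hP2,
      factorization_eq_of_sq A P hP.1.2 (lt_of_le_of_lt hAB hP2)]
    rw [Nat.cast_sub (Nat.div_le_div_right hAB)]
    ring
  have hlogB : Real.log B ≤ 4 * Real.log z := by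
    have h3 : Real.log B ≤ Real.log (((z : ℝ) + 1) ^ 2) := by
      apply Real.log_le_log (by exact_mod_cast hB)
      exact_mod_cast hBz.le
    rw [Real.log_pow] at h3
    have h4 : Real.log ((z : ℝ) + 1) ≤ Real.log ((z : ℝ) ^ 2) := by
      apply Real.log_le_log (by linarith)
      nlinarith
    rw [Real.log_pow] at h4
    push_cast at h3 h4
    linarith
  have hsmall : ∑ P ∈ (Mertens.PP B).filter (fun P => ¬ z < P),
      ((B.factorial.factorization P : ℝ) * Real.log P - (A.factorial.factorization P : ℝ) * Real.log P) ≤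
      ((B : ℝ) - A) * (Real.log z + C₁) + 4 * C₂ * z := by
    have h3 : ∑ P ∈ (Mertens.PP B).filter (fun P => ¬ z < P),
      ((B.factorial.factorization P : ℝ) * Real.log P - (A.factorial.factorization P : ℝ) * Real.log P) ≤
      ∑ P ∈ (Mertens.PP B).filter (fun P => ¬ z < P),
        (((B : ℝ) - A) * (Real.log P / ((P : ℝ) - 1)) + Real.log B) := by
      apply Finset.sum_le_sum
      intro P hP
      simp only [Finset.mem_filter, Finset.mem_Icc] at hP
      have hPp := hP.1.2
      have h4 := factorization_diff_le A B P hPp hAB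
      have h4' : (B.factorial.factorization P : ℝ) ≤ (A.factorial.factorization P : ℝ) +
          (((B - A) / (P - 1) : ℕ) : ℝ) + (Nat.log P B : ℝ) := by exact_mod_cast h4
      have h5 : (((B - A) / (P - 1) : ℕ) : ℝ) ≤ ((B : ℝ) - A) / ((P : ℝ) - 1) := by
        have h6 : ((P - 1 : ℕ) : ℝ) = (P : ℝ) - 1 := by
          rw [Nat.cast_sub hPp.one_lt.le]; norm_num
        rw [← h6, ← Nat.cast_sub hAB]
        exact Nat.cast_div_le
      have hP2 : (2 : ℝ) ≤ P := by exact_mod_cast hPp.two_le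
      have hlogP : 0 ≤ Real.log P := Real.log_nonneg (by linarith)
      have h6 : (Nat.log P B : ℝ) * Real.log P ≤ Real.log B := by
        rw [← Real.log_pow]
        apply Real.log_le_log (by positivity)
        exact_mod_cast Nat.pow_log_le_self P (by omega)
      calc (B.factorial.factorization P : ℝ) * Real.log P - (A.factorial.factorization P : ℝ) * Real.log P
          = ((B.factorial.factorization P : ℝ) - (A.factorial.factorization P : ℝ)) * Real.log P := by ring
        _ ≤ (((B : ℝ) - A) / ((P : ℝ) - 1) + (Nat.log P B : ℝ)) * Real.log P := by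
            apply mul_le_mul_of_nonneg_right _ hlogP
            linarith
        _ = ((B : ℝ) - A) * (Real.log P / ((P : ℝ) - 1)) + (Nat.log P B : ℝ) * Real.log P := by ring
        _ ≤ _ := by linarith
    refine h3.trans ?_
    rw [Finset.sum_add_distrib, ← Finset.mul_sum, Finset.sum_const, nsmul_eq_mul]
    have hsub : (Mertens.PP B).filter (fun P => ¬ z < P) ⊆ Mertens.PP z := by
      intro P hP
      simp only [Finset.mem_filter, Finset.mem_Icc] at hP ⊢
      exact ⟨⟨hP.1.1.1, by omega⟩, hP.1.2⟩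
    have h7 : ∑ P ∈ (Mertens.PP B).filter (fun P => ¬ z < P), Real.log P / ((P : ℝ) - 1) ≤
        Real.log z + C₁ := by
      refine le_trans (Finset.sum_le_sum_of_subset_of_nonneg hsub ?_) (hC₁ z (by omega))
      intro P hP _
      simp only [Finset.mem_filter, Finset.mem_Icc] at hP
      have hP2 : (2 : ℝ) ≤ P := by exact_mod_cast hP.2.two_le
      have hlogP : 0 ≤ Real.log P := Real.log_nonneg (by linarith)
      apply div_nonneg hlogP
      linarith
    have h8 : (((Mertens.PP B).filter (fun P => ¬ z < P)).card : ℝ) * Real.log B ≤ 4 * C₂ * z := by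
      have h9 : (((Mertens.PP B).filter (fun P => ¬ z < P)).card : ℝ) ≤ (Mertens.PP z).card := by
        exact_mod_cast Finset.card_le_card hsub
      have h10 := hC₂ z hz
      have h11 : 0 ≤ Real.log z := Real.log_nonneg (by linarith)
      have h12 : 0 ≤ Real.log B := Real.log_nonneg (by exact_mod_cast hB)
      calc (((Mertens.PP B).filter (fun P => ¬ z < P)).card : ℝ) * Real.log B
          ≤ (Mertens.PP z).card * (4 * Real.log z) := by
            apply mul_le_mul h9 hlogB h12 (Nat.cast_nonneg _)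
        _ = 4 * ((Mertens.PP z).card * Real.log z) := by ring
        _ ≤ 4 * (C₂ * z) := by linarith
        _ = _ := by ring
    have := mul_le_mul_of_nonneg_left h7 hAB'
    linarith
  have hlog2 : Real.log 2 ≤ 1 := by
    have := Real.log_two_lt_d9
    linarith
  rw [hbig] at hlow
  have h13 : ((B : ℝ) - A) * Real.log 2 ≤ (B : ℝ) - A := by
    nlinarith
  have h14 : 0 ≤ C₂ * ((B : ℝ) - A) := by positivity
  have h15 : 0 ≤ C₁ * (z : ℝ) := by positivity
  have h16 : 0 ≤ C₂ * (z : ℝ) := by positivity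
  nlinarith

/-- upper bound for the weighted number of large primes hitting a block -/
theorem block_upper : ∃ C : ℝ, 1 ≤ C ∧ ∀ A B z : ℕ, A ≤ B → 1 ≤ z →
    ∑ P ∈ (Mertens.PP B).filter (fun P => z < P), Real.log P * ((B / P - A / P : ℕ) : ℝ) ≤
    ((B : ℝ) - A) * (Real.log B - Real.log z) + C * ((B : ℝ) - A) + C * z := by
  obtain ⟨C₁, hC₁1, hC₁⟩ := sum_log_div_ge
  refine ⟨C₁ + 2, by linarith, ?_⟩
  intro A B z hAB hz
  have hz' : (1 : ℝ) ≤ z := by exact_mod_cast hz
  have hAB' : (0 : ℝ) ≤ (B : ℝ) - A := by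
    have : (A : ℝ) ≤ B := by exact_mod_cast hAB
    linarith
  have hup := log_fac_diff_upper A B hAB
  rw [log_factorial_eq' B B le_rfl, log_factorial_eq' A B hAB, ← Finset.sum_sub_distrib] at hup
  rw [← Finset.sum_filter_add_sum_filter_not (Mertens.PP B) (fun P => z < P)] at hup
  have hterm : ∀ P ∈ Mertens.PP B, Real.log P * ((B / P - A / P : ℕ) : ℝ) ≤
      ((B.factorial.factorization P : ℝ) * Real.log P -
        (A.factorial.factorization P : ℝ) * Real.log P) := by
    intro P hP
    simp only [Finset.mem_filter, Finset.mem_Icc] at hP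
    have h4 := factorization_diff_ge A B P hP.2 hAB
    have h4' : (A.factorial.factorization P : ℝ) + ((B / P - A / P : ℕ) : ℝ) ≤
        (B.factorial.factorization P : ℝ) := by exact_mod_cast h4
    have hlogP : 0 ≤ Real.log P := Real.log_nonneg (by exact_mod_cast hP.2.one_lt.le)
    nlinarith
  have hbig : ∑ P ∈ (Mertens.PP B).filter (fun P => z < P), Real.log P * ((B / P - A / P : ℕ) : ℝ) ≤
      ∑ P ∈ (Mertens.PP B).filter (fun P => z < P),
      ((B.factorial.factorization P : ℝ) * Real.log P -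
        (A.factorial.factorization P : ℝ) * Real.log P) :=
    Finset.sum_le_sum fun P hP => hterm P (Finset.mem_filter.1 hP).1
  have hsmall1 : ∑ P ∈ (Mertens.PP B).filter (fun P => ¬ z < P),
      Real.log P * ((B / P - A / P : ℕ) : ℝ) ≤
      ∑ P ∈ (Mertens.PP B).filter (fun P => ¬ z < P),
      ((B.factorial.factorization P : ℝ) * Real.log P -
        (A.factorial.factorization P : ℝ) * Real.log P) :=
    Finset.sum_le_sum fun P hP => hterm P (Finset.mem_filter.1 hP).1
  have hsub : (Mertens.PP B).filter (fun P => ¬ z < P) ⊆ Mertens.PP z := by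
    intro P hP
    simp only [Finset.mem_filter, Finset.mem_Icc] at hP ⊢
    exact ⟨⟨hP.1.1.1, by omega⟩, hP.1.2⟩
  have hsmall2 : ∑ P ∈ (Mertens.PP B).filter (fun P => ¬ z < P),
      Real.log P * ((B / P - A / P : ℕ) : ℝ) =
      ∑ P ∈ Mertens.PP z, Real.log P * ((B / P - A / P : ℕ) : ℝ) := by
    apply Finset.sum_subset hsub
    intro P hP hP2
    simp only [Finset.mem_filter, Finset.mem_Icc] at hP hP2
    have : B < P := by
      by_contra hc
      exact hP2 ⟨⟨⟨hP.1.1, by omega⟩, hP.2⟩, by omega⟩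
    rw [Nat.div_eq_of_lt this]
    simp
  have hsmall3 : ((B : ℝ) - A) * (Real.log z - C₁) - 2 * z ≤
      ∑ P ∈ Mertens.PP z, Real.log P * ((B / P - A / P : ℕ) : ℝ) := by
    have h1 := hC₁ z hz
    have h2 := Mertens.theta_le z
    have h3 : ((B : ℝ) - A) * ∑ P ∈ Mertens.PP z, Real.log P / (P : ℝ) -
        ∑ P ∈ Mertens.PP z, Real.log P ≤
        ∑ P ∈ Mertens.PP z, Real.log P * ((B / P - A / P : ℕ) : ℝ) := by
      rw [Finset.mul_sum, ← Finset.sum_sub_distrib]
      apply Finset.sum_le_sum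
      intro P hP
      simp only [Finset.mem_filter, Finset.mem_Icc] at hP
      have hP0 : (0 : ℝ) < P := by exact_mod_cast hP.2.pos
      have hlogP : 0 ≤ Real.log P := Real.log_nonneg (by exact_mod_cast hP.2.one_lt.le)
      have h4 : ((B : ℝ) - A) / P - 1 ≤ ((B / P - A / P : ℕ) : ℝ) := by
        rw [Nat.cast_sub (Nat.div_le_div_right hAB)]
        have h5 : (B : ℝ) / P < ((B / P : ℕ) : ℝ) + 1 := by
          rw [← Nat.floor_div_eq_div (K := ℝ)]
          exact Nat.lt_floor_add_one _
        have h6 : ((A / P : ℕ) : ℝ) ≤ (A : ℝ) / P := Nat.cast_div_le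
        rw [sub_div]
        linarith
      calc ((B : ℝ) - A) * (Real.log P / P) - Real.log P = Real.log P * (((B : ℝ) - A) / P - 1) := by
            ring
        _ ≤ _ := mul_le_mul_of_nonneg_left h4 hlogP
    have h5 := mul_le_mul_of_nonneg_left h1 hAB'
    linarith
  have h14 : 0 ≤ C₁ * (z : ℝ) := by positivity
  linarith

end Pool.Agent.Helper601
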