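import Mathlib
import Pool.Agent.Helper601.Blocks

set_option autoImplicit false

namespace Pool.Agent.Helper601

open Finset

/-- block form of a factorial representation of length at most five -/
def Rep (m b y y' a : ℕ) : Prop :=
  a ≤ y' ∧ y' ≤ y ∧ y ≤ b ∧ b < m ∧
    IsSquare (m.factorial * b.factorial * y.factorial * y'.factorial * a.factorial)

theorem even_factorization_of_isSquare {n : ℕ} (h : IsSquare n) (P : ℕ) :
    Even (n.factorization P) := by
  obtain ⟨r, rfl⟩ := h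
  rcases Nat.eq_zero_or_pos r with h0 | h0
  · subst h0; simp
  · rw [Nat.factorization_mul h0.ne' h0.ne']
    exact ⟨_, rfl⟩

theorem rep_parity {m b y y' a P : ℕ} (h : Rep m b y y' a) (hP : P.Prime) (hmP : m < P ^ 2) :
    Even (m / P + b / P + y / P + y' / P + a / P) := by
  obtain ⟨h1, h2, h3, h4, h5⟩ := h
  have h6 := even_factorization_of_isSquare h5 P
  have f0 : ∀ n : ℕ, n.factorial ≠ 0 := Nat.factorial_ne_zero
  rw [Nat.factorization_mul (by simp [f0]) (f0 _), Nat.factorization_mul (by simp [f0]) (f0 _),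
    Nat.factorization_mul (by simp [f0]) (f0 _), Nat.factorization_mul (f0 _) (f0 _)] at h6
  simp only [Finsupp.add_apply] at h6
  rw [factorization_eq_of_sq m P hP hmP, factorization_eq_of_sq b P hP (by omega),
    factorization_eq_of_sq y P hP (by omega), factorization_eq_of_sq y' P hP (by omega),
    factorization_eq_of_sq a P hP (by omega)] at h6
  exact h6

/-- primes larger than the square root hitting a block -/
theorem card_hit_le (m A B : ℕ) (hBm : B ≤ m) (S : Finset ℕ)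
    (hS : ∀ P ∈ S, P.Prime ∧ m < P ^ 2 ∧ A / P < B / P) : S.card ≤ B - A := by
  rw [← Nat.card_Ioc]
  apply Finset.card_le_card_of_injOn (fun P => P * (B / P))
  · intro P hP
    obtain ⟨h1, h2, h3⟩ := hS P hP
    simp only [Finset.coe_Ioc, Set.mem_Ioc]
    refine ⟨?_, Nat.mul_div_le B P⟩
    have := Nat.lt_mul_div_succ A h1.pos
    have h4 : A / P + 1 ≤ B / P := h3
    calc A < P * (A / P + 1) := this
      _ ≤ P * (B / P) := Nat.mul_le_mul_left _ h4
  · intro P hP Q hQ hPQ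
    obtain ⟨h1, h2, h3⟩ := hS P hP
    obtain ⟨g1, g2, g3⟩ := hS Q hQ
    simp only at hPQ
    by_contra hne
    have hcop : Nat.Coprime P Q := (Nat.coprime_primes h1 g1).2 hne
    have hd : P * Q ∣ P * (B / P) :=
      hcop.mul_dvd_of_dvd_of_dvd (dvd_mul_right _ _) (by rw [hPQ]; exact dvd_mul_right _ _)
    have hpos : 0 < P * (B / P) := Nat.mul_pos h1.pos (lt_of_le_of_lt (Nat.zero_le _) h3)
    have hle := Nat.le_of_dvd hpos hd
    have hle2 := Nat.mul_div_le B P
    have h7 : P * Q ≤ m := by omega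
    have h8 : (P * Q) ^ 2 ≤ m ^ 2 := Nat.pow_le_pow_left h7 2
    have h9 : m * m < P ^ 2 * Q ^ 2 := Nat.mul_lt_mul'' h2 g2
    nlinarith

theorem exists_log_le (δ C : ℝ) (hδ : 0 < δ) : ∃ m₀ : ℕ, 2 ≤ m₀ ∧ ∀ m : ℕ, m₀ ≤ m →
    C * Real.log m ≤ (m : ℝ) ^ δ := by
  have h1 := (isLittleO_log_rpow_atTop hδ).def (c := 1 / (|C| + 1)) (by positivity)
  rw [Filter.eventually_atTop] at h1
  obtain ⟨x₀, hx₀⟩ := h1
  refine ⟨⌈x₀⌉₊ + 2, by omega, ?_⟩
  intro m hm
  have hm' : x₀ ≤ m := (Nat.le_ceil _).trans (by exact_mod_cast (by omega : ⌈x₀⌉₊ ≤ m))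
  have hm2 : (2 : ℝ) ≤ m := by exact_mod_cast (by omega : 2 ≤ m)
  have h2 := hx₀ m hm'
  have hlog : 0 ≤ Real.log m := Real.log_nonneg (by linarith)
  rw [Real.norm_of_nonneg hlog, Real.norm_of_nonneg (by positivity)] at h2
  have h3 : Real.log m * (|C| + 1) ≤ (m : ℝ) ^ δ := by
    rw [← le_div_iff₀ (by positivity)]
    calc Real.log m ≤ 1 / (|C| + 1) * (m : ℝ) ^ δ := h2
      _ = _ := by ring
  have h4 : C * Real.log m ≤ Real.log m * (|C| + 1) := by
    have := le_abs_self C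
    nlinarith
  linarith

theorem exists_const_le (δ C : ℝ) (hδ : 0 < δ) : ∃ m₀ : ℕ, 2 ≤ m₀ ∧ ∀ m : ℕ, m₀ ≤ m →
    C ≤ (m : ℝ) ^ δ := by
  obtain ⟨m₀, h0, h1⟩ := exists_log_le δ (|C| / Real.log 2) hδ
  refine ⟨m₀, h0, ?_⟩
  intro m hm
  have h2 := h1 m hm
  have hl2 : 0 < Real.log 2 := Real.log_pos (by norm_num)
  have h3 : Real.log 2 ≤ Real.log m := by
    apply Real.log_le_log (by norm_num)
    exact_mod_cast (by omega : 2 ≤ m)
  have h4 : |C| ≤ |C| / Real.log 2 * Real.log m := by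
    rw [div_mul_eq_mul_div, le_div_iff₀ hl2]
    exact mul_le_mul_of_nonneg_left h3 (abs_nonneg C)
  have := le_abs_self C
  linarith

theorem hit_count (δ : ℝ) (hδ : 0 < δ) : ∃ C : ℝ, 1 ≤ C ∧ ∀ m c A B : ℕ, 2 ≤ m → 1 ≤ c → c ≤ A →
    A ≤ B → B ≤ m → B ≤ 2 * A → 4 * m ≤ c ^ 2 →
    (((PI (c / 2) c).filter (fun P => A / P < B / P)).card : ℝ) ≤
      C * ((B : ℝ) - A) / Real.log m + 8 * (m : ℝ) ^ δ * (m / c) := by
  obtain ⟨C, hC1, hC⟩ := window_count δ hδ
  refine ⟨3 * C, by linarith, ?_⟩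
  intro m c A B hm hc hcA hAB hBm hB2 hcm
  have hm' : (2 : ℝ) ≤ m := by exact_mod_cast hm
  have hlogm : 0 < Real.log m := Real.log_pos (by linarith)
  have hc' : (1 : ℝ) ≤ c := by exact_mod_cast hc
  have hAB' : (A : ℝ) ≤ B := by exact_mod_cast hAB
  have hBm' : (B : ℝ) ≤ m := by exact_mod_cast hBm
  have hmd : (0 : ℝ) < (m : ℝ) ^ δ := by positivity
  set S := (PI (c / 2) c).filter (fun P => A / P < B / P) with hS
  set r := A / c with hr
  have hr1 : 1 ≤ r := Nat.div_pos hcA (by omega)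
  have hrc : r * c ≤ A := Nat.div_mul_le_self A c
  have hrc2 : A < c * (r + 1) := Nat.lt_mul_div_succ A (by omega)
  have hSp : ∀ P ∈ S, P.Prime ∧ c < 2 * P ∧ P ≤ c ∧ A / P < B / P := by
    intro P hP
    simp only [hS, Finset.mem_filter, Finset.mem_Ioc] at hP
    exact ⟨hP.1.2, by omega, hP.1.1.2, hP.2⟩
  by_cases hlen : (m : ℝ) ^ δ * (4 * r + 4 : ℕ) ≤ (B : ℝ) - A
  · -- long block
    have hsub : S ⊆ (Finset.Ico (r + 1) (4 * r + 4)).biUnion (fun k => PI (A / k) (B / k)) := by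
      intro P hP
      obtain ⟨h1, h2, h3, h4⟩ := hSp P hP
      have hk1 : P * (B / P) ≤ B := Nat.mul_div_le B P
      have hk2 : A < P * (B / P) := by
        have := Nat.lt_mul_div_succ A h1.pos
        calc A < P * (A / P + 1) := this
          _ ≤ P * (B / P) := Nat.mul_le_mul_left _ h4
      have hkpos : 0 < B / P := lt_of_le_of_lt (Nat.zero_le _) h4
      rw [Finset.mem_biUnion]
      refine ⟨B / P, ?_, ?_⟩
      · rw [Finset.mem_Ico]
        constructor
        · have h5 : r * c < c * (B / P) := by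
            calc r * c ≤ A := hrc
              _ < P * (B / P) := hk2
              _ ≤ c * (B / P) := Nat.mul_le_mul_right _ h3
          have : r < B / P := by
            rw [mul_comm r c] at h5
            exact lt_of_mul_lt_mul_left h5 (Nat.zero_le _)
          omega
        · have h5 : c * (B / P) < c * (4 * r + 4) := by
            have h6 : c * (B / P) < 2 * P * (B / P) := Nat.mul_lt_mul_of_pos_right h2 hkpos
            have h7 : 2 * P * (B / P) = 2 * (P * (B / P)) := by ring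
            have h8 : c * (4 * r + 4) = 4 * (c * (r + 1)) := by ring
            omega
          exact lt_of_mul_lt_mul_left h5 (Nat.zero_le _)
      · simp only [Finset.mem_filter, Finset.mem_Ioc]
        refine ⟨⟨?_, ?_⟩, h1⟩
        · rw [Nat.div_lt_iff_lt_mul hkpos]; exact hk2
        · rw [Nat.le_div_iff_mul_le hkpos]; exact hk1
    have h1 : (S.card : ℝ) ≤ ∑ k ∈ Finset.Ico (r + 1) (4 * r + 4), ((PI (A / k) (B / k)).card : ℝ) := by
      have := (Finset.card_le_card hsub).trans Finset.card_biUnion_le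
      exact_mod_cast this
    have h2 : ∑ k ∈ Finset.Ico (r + 1) (4 * r + 4), ((PI (A / k) (B / k)).card : ℝ) ≤
        ∑ _k ∈ Finset.Ico (r + 1) (4 * r + 4), C * ((B : ℝ) - A) / (((r : ℝ) + 1) * Real.log m) := by
      apply Finset.sum_le_sum
      intro k hk
      rw [Finset.mem_Ico] at hk
      have hk' : ((k : ℝ)) ≤ (4 * r + 4 : ℕ) := by exact_mod_cast hk.2.le
      have hk'' : (r : ℝ) + 1 ≤ k := by exact_mod_cast hk.1
      refine (hC m A B k hm hAB (by omega) ?_).trans ?_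
      · refine le_trans ?_ hlen
        exact mul_le_mul_of_nonneg_left hk' hmd.le
      · apply div_le_div_of_nonneg_left
        · apply mul_nonneg (by linarith); linarith
        · positivity
        · exact mul_le_mul_of_nonneg_right hk'' hlogm.le
    rw [Finset.sum_const, nsmul_eq_mul, Nat.card_Ico] at h2
    have h3 : ((4 * r + 4 - (r + 1) : ℕ) : ℝ) = 3 * ((r : ℝ) + 1) := by
      rw [show 4 * r + 4 - (r + 1) = 3 * (r + 1) by omega]
      push_cast; ring
    rw [h3] at h2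
    have h4 : 3 * ((r : ℝ) + 1) * (C * ((B : ℝ) - A) / (((r : ℝ) + 1) * Real.log m)) =
        3 * C * ((B : ℝ) - A) / Real.log m := by
      have : (r : ℝ) + 1 ≠ 0 := by positivity
      field_simp
    rw [h4] at h2
    have h5 : 0 ≤ 8 * (m : ℝ) ^ δ * (m / c) := by positivity
    linarith
  · push Not at hlen
    have h1 : S.card ≤ B - A := by
      apply card_hit_le m A B hBm S
      intro P hP
      obtain ⟨h1, h2, h3, h4⟩ := hSp P hP
      refine ⟨h1, ?_, h4⟩
      have : c ^ 2 < (2 * P) ^ 2 := Nat.pow_lt_pow_left h2 (by norm_num)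
      nlinarith
    have h2 : (S.card : ℝ) ≤ (B : ℝ) - A := by
      rw [← Nat.cast_sub hAB]
      exact_mod_cast h1
    have h3 : ((4 * r + 4 : ℕ) : ℝ) ≤ 8 * (m / c) := by
      have h4 : (r : ℝ) * c ≤ m := by
        have : r * c ≤ m := by omega
        exact_mod_cast this
      have h5 : (r : ℝ) ≤ m / c := by
        rw [le_div_iff₀ (by linarith)]; exact h4
      have h6 : (1 : ℝ) ≤ r := by exact_mod_cast hr1
      push_cast
      linarith
    have h4 : (m : ℝ) ^ δ * (4 * r + 4 : ℕ) ≤ 8 * (m : ℝ) ^ δ * (m / c) := by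
      have := mul_le_mul_of_nonneg_left h3 hmd.le
      linarith
    have h5 : 0 ≤ 3 * C * ((B : ℝ) - A) / Real.log m := by
      apply div_nonneg _ hlogm.le
      apply mul_nonneg (by linarith); linarith
    linarith

theorem rpow_half_add {m : ℕ} (δ : ℝ) (hm : 2 ≤ m) :
    (m : ℝ) ^ (1 / 2 + δ) = (m : ℝ) ^ (1 / 2 : ℝ) * (m : ℝ) ^ δ := by
  have hm' : (0 : ℝ) < m := by exact_mod_cast (by omega : 0 < m)
  rw [Real.rpow_add hm']

theorem sq_of_ge {m c : ℕ} {δ : ℝ} (hm : 2 ≤ m) (h4 : 4 ≤ (m : ℝ) ^ δ)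
    (hc : (m : ℝ) ^ (1 / 2 + δ) ≤ c) : 4 * m ≤ c ^ 2 := by
  have hm' : (0 : ℝ) < m := by exact_mod_cast (by omega : 0 < m)
  have h1 : (4 : ℝ) * m ≤ (c : ℝ) ^ 2 := by
    rw [rpow_half_add δ hm] at hc
    have h2 : (m : ℝ) ^ (1 / 2 : ℝ) * (m : ℝ) ^ (1 / 2 : ℝ) = m := by
      rw [← Real.rpow_add hm']; norm_num
    have h3 : 0 < (m : ℝ) ^ (1 / 2 : ℝ) := by positivity
    have h5 : (m : ℝ) ^ (1 / 2 : ℝ) * 4 ≤ c := by
      refine le_trans ?_ hc
      exact mul_le_mul_of_nonneg_left h4 h3.le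
    nlinarith
  exact_mod_cast h1

theorem hit_count' (δ : ℝ) (hδ : 0 < δ) : ∃ C : ℝ, 1 ≤ C ∧ ∃ m₀ : ℕ, 2 ≤ m₀ ∧
    ∀ m c A B : ℕ, m₀ ≤ m → (m : ℝ) ^ (1 / 2 + δ) ≤ c → c ≤ A →
    A ≤ B → B ≤ m → B ≤ 2 * A →
    (((PI (c / 2) c).filter (fun P => A / P < B / P)).card : ℝ) * Real.log m ≤
      C * ((B : ℝ) - A) + (m : ℝ) ^ (1 / 2 + δ) / 1000 := by
  obtain ⟨C, hC1, hC⟩ := hit_count δ hδ
  obtain ⟨m₁, hm₁, hlog⟩ := exists_log_le δ 8000 hδ
  obtain ⟨m₂, hm₂, hcon⟩ := exists_const_le δ 4 hδ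
  refine ⟨C, hC1, max m₁ m₂, le_trans hm₁ (le_max_left _ _), ?_⟩
  intro m c A B hm hc hcA hAB hBm hB2
  have hmm₁ : m₁ ≤ m := le_trans (le_max_left _ _) hm
  have hmm₂ : m₂ ≤ m := le_trans (le_max_right _ _) hm
  have hm2 : 2 ≤ m := by omega
  have hm' : (2 : ℝ) ≤ m := by exact_mod_cast hm2
  have hm0 : (0 : ℝ) < m := by linarith
  have hlogm : 0 < Real.log m := Real.log_pos (by linarith)
  have h1 := hlog m hmm₁
  have h2 := hcon m hmm₂
  have h4 := sq_of_ge hm2 h2 hc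
  have hc1 : 1 ≤ c := by
    rcases Nat.eq_zero_or_pos c with h | h
    · subst h; simp at h4; omega
    · exact h
  have h5 := hC m c A B hm2 hc1 hcA hAB hBm hB2 h4
  have hc0 : (0 : ℝ) < c := by exact_mod_cast hc1
  have h6 : (m : ℝ) ^ δ * (m / c) ≤ (m : ℝ) ^ (1 / 2 : ℝ) := by
    rw [mul_div_assoc', div_le_iff₀ hc0]
    have h7 : (m : ℝ) ^ δ * m = (m : ℝ) ^ (1 / 2 : ℝ) * (m : ℝ) ^ (1 / 2 + δ) := by
      rw [rpow_half_add δ hm2]
      have h8 : (m : ℝ) ^ (1 / 2 : ℝ) * (m : ℝ) ^ (1 / 2 : ℝ) = m := by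
        rw [← Real.rpow_add hm0]; norm_num
      calc (m : ℝ) ^ δ * m = (m : ℝ) ^ δ * ((m : ℝ) ^ (1 / 2 : ℝ) * (m : ℝ) ^ (1 / 2 : ℝ)) := by rw [h8]
        _ = _ := by ring
    rw [h7]
    exact mul_le_mul_of_nonneg_left hc (by positivity)
  have h7 : (((PI (c / 2) c).filter (fun P => A / P < B / P)).card : ℝ) ≤
      C * ((B : ℝ) - A) / Real.log m + 8 * (m : ℝ) ^ (1 / 2 : ℝ) := by linarith
  calc (((PI (c / 2) c).filter (fun P => A / P < B / P)).card : ℝ) * Real.log m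
      ≤ (C * ((B : ℝ) - A) / Real.log m + 8 * (m : ℝ) ^ (1 / 2 : ℝ)) * Real.log m :=
        mul_le_mul_of_nonneg_right h7 hlogm.le
    _ = C * ((B : ℝ) - A) + 8 * (m : ℝ) ^ (1 / 2 : ℝ) * Real.log m := by
        field_simp
    _ ≤ C * ((B : ℝ) - A) + (m : ℝ) ^ (1 / 2 + δ) / 1000 := by
        rw [rpow_half_add δ hm2]
        have h8 : 0 < (m : ℝ) ^ (1 / 2 : ℝ) := by positivity
        have := mul_le_mul_of_nonneg_left h1 h8.le
        linarith

/-- The lowest argument is small compared with the two blocks. -/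
theorem partA_a (δ : ℝ) (hδ : 0 < δ) : ∃ C : ℝ, 1 ≤ C ∧ ∃ m₀ : ℕ, 2 ≤ m₀ ∧ ∀ m : ℕ, m₀ ≤ m →
    ∀ b y y' a : ℕ, Rep m b y y' a →
    (a : ℝ) ≤ C * (((m : ℝ) - b) + ((y : ℝ) - y')) + (m : ℝ) ^ (1 / 2 + δ) := by
  obtain ⟨C, hC1, m₁, hm₁, hC⟩ := hit_count' δ hδ
  obtain ⟨x₀, hx₀⟩ := pnt_count (1 / 2) (by norm_num)
  obtain ⟨m₂, hm₂, hcon⟩ := exists_const_le δ 4 hδ
  obtain ⟨m₃, hm₃, hcon3⟩ := exists_const_le δ (x₀ : ℝ) hδ
  refine ⟨16 * C + 2, by linarith, max m₁ (max m₂ m₃), le_trans hm₁ (le_max_left _ _), ?_⟩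
  intro m hm b y y' a hR
  have hmm₁ : m₁ ≤ m := le_trans (le_max_left _ _) hm
  have hmm₂ : m₂ ≤ m := le_trans (le_trans (le_max_left _ _) (le_max_right _ _)) hm
  have hmm₃ : m₃ ≤ m := le_trans (le_trans (le_max_right _ _) (le_max_right _ _)) hm
  have hm2 : 2 ≤ m := by omega
  have hm' : (2 : ℝ) ≤ m := by exact_mod_cast hm2
  have hm0 : (0 : ℝ) < m := by linarith
  have hlogm : 0 < Real.log m := Real.log_pos (by linarith)
  have hR' := hR
  obtain ⟨h1, h2, h3, h4, h5⟩ := hR'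
  by_contra hcon'
  push Not at hcon'
  have ht : (0 : ℝ) ≤ (m : ℝ) - b := by
    have : (b : ℝ) ≤ m := by exact_mod_cast h4.le
    linarith
  have hs : (0 : ℝ) ≤ (y : ℝ) - y' := by
    have : (y' : ℝ) ≤ y := by exact_mod_cast h2
    linarith
  have hX : (0 : ℝ) < (m : ℝ) ^ (1 / 2 + δ) := by positivity
  have hmX : (1 : ℝ) ≤ (m : ℝ) ^ (1 / 2 : ℝ) := Real.one_le_rpow (by linarith) (by norm_num)
  have hac : (m : ℝ) ^ (1 / 2 + δ) ≤ a := by nlinarith
  have hta : (2 : ℝ) * ((m : ℝ) - b) ≤ a := by nlinarith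
  have hsa : (2 : ℝ) * ((y : ℝ) - y') ≤ a := by nlinarith
  have ham : (a : ℝ) ≤ b := by exact_mod_cast (by omega : a ≤ b)
  have hay : (a : ℝ) ≤ y' := by exact_mod_cast h1
  have hB1 : m ≤ 2 * b := by
    have : (m : ℝ) ≤ 2 * b := by linarith
    exact_mod_cast this
  have hB2 : y ≤ 2 * y' := by
    have : (y : ℝ) ≤ 2 * y' := by linarith
    exact_mod_cast this
  have hhit1 := hC m a b m hmm₁ hac (by omega) h4.le le_rfl hB1
  have hhit2 := hC m a y' y hmm₁ hac h1 h2 (by omega) hB2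
  have hsq := sq_of_ge hm2 (hcon m hmm₂) hac
  -- number of primes
  have hax : x₀ ≤ a := by
    have : (x₀ : ℝ) ≤ a := by
      refine le_trans (hcon3 m hmm₃) (le_trans ?_ hac)
      rw [rpow_half_add δ hm2]
      have : (0 : ℝ) < (m : ℝ) ^ δ := by positivity
      nlinarith
    exact_mod_cast this
  have hpn := hx₀ (a / 2) a hax (by
    have : ((a / 2 : ℕ) : ℝ) ≤ (a : ℝ) / 2 := by
      have := @Nat.cast_div_le ℝ _ _ _ a 2
      simpa using this
    linarith)
  have hpn2 : (a : ℝ) / 4 ≤ (PI (a / 2) a).card * Real.log m := by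
    have h6 : ((a / 2 : ℕ) : ℝ) ≤ (a : ℝ) / 2 := by
      have := @Nat.cast_div_le ℝ _ _ _ a 2
      simpa using this
    have h7 : Real.log a ≤ Real.log m := by
      apply Real.log_le_log
      · linarith
      · have : (b : ℝ) ≤ m := by exact_mod_cast h4.le
        linarith
    have h8 : (0 : ℝ) ≤ (PI (a / 2) a).card := Nat.cast_nonneg _
    have := mul_le_mul_of_nonneg_left h7 h8
    linarith
  have hsub : PI (a / 2) a ⊆ (PI (a / 2) a).filter (fun P => b / P < m / P) ∪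
      (PI (a / 2) a).filter (fun P => y' / P < y / P) := by
    intro P hP
    have hP' := hP
    simp only [Finset.mem_filter, Finset.mem_Ioc] at hP
    obtain ⟨⟨g1, g2⟩, g3⟩ := hP
    have g4 : a < 2 * P := by omega
    have g5 : m < P ^ 2 := by
      have : a ^ 2 < (2 * P) ^ 2 := Nat.pow_lt_pow_left g4 (by norm_num)
      nlinarith
    have g6 := rep_parity hR g3 g5
    have g7 : a / P = 1 := by
      apply Nat.div_eq_of_lt_le
      · omega
      · omega
    rw [g7] at g6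
    rw [Finset.mem_union]
    by_contra hc
    rw [not_or] at hc
    have g8 : m / P ≤ b / P := by
      by_contra h
      exact hc.1 (Finset.mem_filter.2 ⟨hP', not_le.1 h⟩)
    have g9 : y / P ≤ y' / P := by
      by_contra h
      exact hc.2 (Finset.mem_filter.2 ⟨hP', not_le.1 h⟩)
    have e1 : b / P = m / P := le_antisymm (Nat.div_le_div_right h4.le) g8
    have e2 : y' / P = y / P := le_antisymm (Nat.div_le_div_right h2) g9
    rw [e1, e2] at g6
    obtain ⟨r, hr⟩ := g6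
    omega
  have hcard : ((PI (a / 2) a).card : ℝ) ≤
      (((PI (a / 2) a).filter (fun P => b / P < m / P)).card : ℝ) +
      (((PI (a / 2) a).filter (fun P => y' / P < y / P)).card : ℝ) := by
    have := (Finset.card_le_card hsub).trans (Finset.card_union_le _ _)
    exact_mod_cast this
  have := mul_le_mul_of_nonneg_right hcard hlogm.le
  nlinarith

end Pool.Agent.Helper601
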