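import Mathlib
import Pool.Agent.Helper601.PartA1

set_option autoImplicit false

namespace Pool.Agent.Helper601

open Finset

/-- the top block cannot be a positive proportion of `m` -/
theorem partA_top (lam : ℝ) (hlam : 2 ≤ lam) : ∃ m₀ : ℕ, 2 ≤ m₀ ∧ ∀ m : ℕ, m₀ ≤ m →
    ∀ b y y' a : ℕ, Rep m b y y' a → (m : ℝ) ≤ lam * ((m : ℝ) - b) → False := by
  obtain ⟨x₀, hx₀⟩ := pnt_count (1 / lam) (by positivity)
  refine ⟨max x₀ 2, le_max_right _ _, ?_⟩
  intro m hm b y y' a hR hlm
  have hmx : x₀ ≤ m := le_trans (le_max_left _ _) hm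
  have hm2 : 2 ≤ m := le_trans (le_max_right _ _) hm
  have hm' : (2 : ℝ) ≤ m := by exact_mod_cast hm2
  have hlam0 : (0 : ℝ) < lam := by linarith
  have hR' := hR
  obtain ⟨h1, h2, h3, h4, h5⟩ := hR'
  have hb : (b : ℝ) ≤ (1 - 1 / lam) * m := by
    have h6 : (m : ℝ) / lam ≤ (m : ℝ) - b := by
      rw [div_le_iff₀ hlam0]; linarith
    have : (1 - 1 / lam) * (m : ℝ) = m - m / lam := by ring
    rw [this]; linarith
  have hm2' : ((m / 2 : ℕ) : ℝ) ≤ (1 - 1 / lam) * m := by
    have h6 : ((m / 2 : ℕ) : ℝ) ≤ (m : ℝ) / 2 := by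
      have := @Nat.cast_div_le ℝ _ _ _ m 2
      simpa using this
    have h7 : 1 / lam ≤ 1 / 2 := by
      apply one_div_le_one_div_of_le (by norm_num) hlam
    nlinarith
  have hA : ((max b (m / 2) : ℕ) : ℝ) ≤ (1 - 1 / lam) * m := by
    rw [Nat.cast_max]
    exact max_le hb hm2'
  have h8 := hx₀ (max b (m / 2)) m hmx hA
  have hlt : ((max b (m / 2) : ℕ) : ℝ) < m := by
    have : max b (m / 2) < m := by omega
    exact_mod_cast this
  have hpos : (0 : ℝ) < (PI (max b (m / 2)) m).card * Real.log m := by linarith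
  have hcard : 0 < (PI (max b (m / 2)) m).card := by
    rcases Nat.eq_zero_or_pos (PI (max b (m / 2)) m).card with h | h
    · rw [h] at hpos; simp at hpos
    · exact h
  obtain ⟨P, hP⟩ := Finset.card_pos.1 hcard
  simp only [Finset.mem_filter, Finset.mem_Ioc] at hP
  obtain ⟨⟨g1, g2⟩, g3⟩ := hP
  have g4 : b < P := lt_of_le_of_lt (le_max_left _ _) g1
  have g5 : m < 2 * P := by
    have := lt_of_le_of_lt (le_max_right _ _) g1
    omega
  have g6 : m < P ^ 2 := by
    have := g3.two_le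
    nlinarith
  have g7 := rep_parity hR g3 g6
  rw [Nat.div_eq_of_lt g4, Nat.div_eq_of_lt (show y < P by omega),
    Nat.div_eq_of_lt (show y' < P by omega), Nat.div_eq_of_lt (show a < P by omega)] at g7
  have g8 : m / P = 1 := by
    apply Nat.div_eq_of_lt_le
    · omega
    · omega
  rw [g8] at g7
  obtain ⟨r, hr⟩ := g7
  omega

/-- for large primes the two blocks contain the same number (at most one) of multiples -/
theorem rep_large {m b y y' a P : ℕ} (h : Rep m b y y' a) (hP : P.Prime) (hmP : m < P ^ 2)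
    (hPa : a < P) (hPt : m - b ≤ P) (hPs : y - y' ≤ P) : m / P - b / P = y / P - y' / P := by
  have h6 := rep_parity h hP hmP
  obtain ⟨h1, h2, h3, h4, h5⟩ := h
  rw [Nat.div_eq_of_lt hPa] at h6
  have e1 : m / P ≤ b / P + 1 := by
    have : m / P ≤ (b + P) / P := Nat.div_le_div_right (by omega)
    rwa [Nat.add_div_right _ hP.pos] at this
  have e2 : y / P ≤ y' / P + 1 := by
    have : y / P ≤ (y' + P) / P := Nat.div_le_div_right (by omega)
    rwa [Nat.add_div_right _ hP.pos] at this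
  have e3 : b / P ≤ m / P := Nat.div_le_div_right h4.le
  have e4 : y' / P ≤ y / P := Nat.div_le_div_right h2
  obtain ⟨r, hr⟩ := h6
  omega

theorem window_ok {m t k : ℕ} {δ : ℝ} (hm : 2 ≤ m) (hδ : 0 < δ)
    (ht : (m : ℝ) ^ (1 / 2 + δ) ≤ t) (hk : k * t ≤ m) : (m : ℝ) ^ δ * k ≤ t := by
  have hm0 : (0 : ℝ) < m := by exact_mod_cast (by omega : 0 < m)
  have hm1 : (1 : ℝ) ≤ m := by exact_mod_cast (by omega : 1 ≤ m)
  have ht0 : (0 : ℝ) < t := lt_of_lt_of_le (by positivity) ht
  have hk' : (k : ℝ) * t ≤ m := by exact_mod_cast hk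
  have hmd : 0 < (m : ℝ) ^ δ := by positivity
  have hmd1 : 1 ≤ (m : ℝ) ^ δ := Real.one_le_rpow hm1 hδ.le
  have h1 : (m : ℝ) ^ δ * m ≤ t * t := by
    have h2 : (m : ℝ) ^ (1 / 2 + δ) * (m : ℝ) ^ (1 / 2 + δ) ≤ (t : ℝ) * t :=
      mul_le_mul ht ht (by positivity) ht0.le
    have h3 : (m : ℝ) ^ (1 / 2 + δ) * (m : ℝ) ^ (1 / 2 + δ) = (m : ℝ) ^ δ * m * (m : ℝ) ^ δ := by
      rw [rpow_half_add δ hm]
      have h8 : (m : ℝ) ^ (1 / 2 : ℝ) * (m : ℝ) ^ (1 / 2 : ℝ) = m := by
        rw [← Real.rpow_add hm0]; norm_num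
      calc (m : ℝ) ^ (1 / 2 : ℝ) * (m : ℝ) ^ δ * ((m : ℝ) ^ (1 / 2 : ℝ) * (m : ℝ) ^ δ)
          = ((m : ℝ) ^ (1 / 2 : ℝ) * (m : ℝ) ^ (1 / 2 : ℝ)) * (m : ℝ) ^ δ * (m : ℝ) ^ δ := by ring
        _ = _ := by rw [h8]; ring
    have h4 : (m : ℝ) ^ δ * m ≤ (m : ℝ) ^ δ * m * (m : ℝ) ^ δ := by
      have : 0 ≤ (m : ℝ) ^ δ * m := by positivity
      nlinarith
    linarith
  have h5 : (m : ℝ) ^ δ * k * t ≤ t * t := by
    calc (m : ℝ) ^ δ * k * t = (m : ℝ) ^ δ * (k * t) := by ring
      _ ≤ (m : ℝ) ^ δ * m := mul_le_mul_of_nonneg_left hk' hmd.le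
      _ ≤ _ := h1
  exact le_of_mul_le_mul_right h5 ht0

theorem cone_mem {m b y y' P t K k k' : ℕ} (hP : 0 < P) (hbm : b + t = m)
    (hyb : y ≤ b) (hs : y ≤ y' + K * t) (hK : 1 ≤ K)
    (hk1 : b < P * k) (hk2 : P * k ≤ m) (hk3 : m < P * (k + 1)) (hkpos : 1 ≤ k)
    (hk'1 : y' < P * k') (hk'2 : P * k' ≤ y) :
    |(m : ℤ) * (k' : ℤ) - (y : ℤ) * (k : ℤ)| ≤ ((2 * K : ℕ) : ℤ) * t * k := by
  have hPz : (0 : ℤ) < P := by exact_mod_cast hP
  have e1 : (b : ℤ) + t = m := by exact_mod_cast hbm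
  have e2 : (y : ℤ) ≤ b := by exact_mod_cast hyb
  have e3 : (y : ℤ) ≤ y' + K * t := by exact_mod_cast hs
  have e4 : (b : ℤ) < P * k := by exact_mod_cast hk1
  have e5 : (P : ℤ) * k ≤ m := by exact_mod_cast hk2
  have e6 : (m : ℤ) < P * (k + 1) := by exact_mod_cast hk3
  have e7 : (1 : ℤ) ≤ k := by exact_mod_cast hkpos
  have e8 : (y' : ℤ) < P * k' := by exact_mod_cast hk'1
  have e9 : (P : ℤ) * k' ≤ y := by exact_mod_cast hk'2
  have e10 : (1 : ℤ) ≤ K := by exact_mod_cast hK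
  have e11 : (0 : ℤ) ≤ t := by positivity
  have e12 : (0 : ℤ) ≤ y := by positivity
  have e13 : (0 : ℤ) ≤ m := by positivity
  have e14 : (0 : ℤ) ≤ b := by positivity
  have hKt : (t : ℤ) ≤ K * t := by nlinarith
  have hKt0 : (0 : ℤ) ≤ K * t := by positivity
  -- P * (m k' - y k) between bounds
  have u1 : (P : ℤ) * (m * k' - y * k) ≤ m * (K * t) := by
    have : (P : ℤ) * (m * k' - y * k) = m * (P * k') - y * (P * k) := by ring
    rw [this]
    have v1 : (m : ℤ) * (P * k') ≤ m * y := mul_le_mul_of_nonneg_left e9 e13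
    have v2 : (y : ℤ) * b ≤ y * (P * k) := mul_le_mul_of_nonneg_left e4.le e12
    have v3 : (m : ℤ) * y - y * b = y * t := by rw [← e1]; ring
    have v4 : (y : ℤ) * t ≤ m * (K * t) := by
      apply mul_le_mul _ hKt e11 e13
      linarith
    linarith
  have u2 : -((m : ℤ) * (K * t)) ≤ P * (m * k' - y * k) := by
    have : (P : ℤ) * (m * k' - y * k) = m * (P * k') - y * (P * k) := by ring
    rw [this]
    have v1 : (m : ℤ) * y' ≤ m * (P * k') := mul_le_mul_of_nonneg_left e8.le e13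
    have v2 : (y : ℤ) * (P * k) ≤ y * m := mul_le_mul_of_nonneg_left e5 e12
    have v3 : (m : ℤ) * (y - y') ≤ m * (K * t) := mul_le_mul_of_nonneg_left (by linarith) e13
    have v4 : (m : ℤ) * (y - y') = m * y - m * y' := by ring
    have v5 : (y : ℤ) * m = m * y := by ring
    linarith
  have u3 : (m : ℤ) * (K * t) ≤ P * (2 * k * (K * t)) := by
    have : (P : ℤ) * (2 * k * (K * t)) = (P * (2 * k)) * (K * t) := by ring
    rw [this]
    apply mul_le_mul_of_nonneg_right _ hKt0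
    nlinarith
  have u4 : ((2 * K : ℕ) : ℤ) * t * k = 2 * k * (K * t) := by push_cast; ring
  rw [u4, abs_le]
  constructor
  · have : (P : ℤ) * (-(2 * k * (K * t))) ≤ P * (m * k' - y * k) := by linarith
    exact le_of_mul_le_mul_left this hPz
  · have : (P : ℤ) * (m * k' - y * k) ≤ P * (2 * k * (K * t)) := by linarith
    exact le_of_mul_le_mul_left this hPz

theorem partA2 (δ : ℝ) (hδ : 0 < δ) (K : ℕ) (hK : 1 ≤ K) : ∃ m₀ : ℕ, 2 ≤ m₀ ∧ ∀ m : ℕ, m₀ ≤ m →
    ∀ b y y' a : ℕ, Rep m b y y' a → (m : ℝ) ^ (1 / 2 + δ) ≤ ((m - b : ℕ) : ℝ) →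
    y - y' ≤ K * (m - b) → False := by
  obtain ⟨Ca, hCa1, m₁, hm₁, hCa⟩ := partA_a δ hδ
  obtain ⟨Cl, hCl1, hCl⟩ := block_lower
  obtain ⟨Cu, hCu1, hCu⟩ := block_upper
  obtain ⟨CW, hCW1, hCW⟩ := window_count δ hδ
  obtain ⟨m₂, hm₂, hcon⟩ := exists_const_le δ 4 hδ
  set c₂ : ℕ := ⌈Ca * (K + 1) + 1⌉₊ + K + 2 with hc₂
  have hc₂r : Ca * (K + 1) + 1 + K + 2 ≤ (c₂ : ℝ) := by
    rw [hc₂]; push_cast
    have := Nat.le_ceil (Ca * ((K : ℝ) + 1) + 1)
    linarith
  set D : ℝ := (Cl + Cu) * (1 + c₂) + 32 * K * CW with hD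
  have hKr : (1 : ℝ) ≤ K := by exact_mod_cast hK
  have hc₂0 : (2 : ℝ) ≤ c₂ := by nlinarith
  have hD0 : 0 ≤ D := by positivity
  set lam : ℝ := Real.exp (4 * D) * c₂ with hlam
  have hexp1 : 1 ≤ Real.exp (4 * D) := Real.one_le_exp (by positivity)
  have hlam2 : 2 ≤ lam := by nlinarith
  have hlamc : (c₂ : ℝ) ≤ lam := by nlinarith
  obtain ⟨m₃, hm₃, htop⟩ := partA_top lam hlam2
  refine ⟨max m₁ (max m₂ m₃), le_trans hm₁ (le_max_left _ _), ?_⟩
  intro m hm b y y' a hR ht hsK
  have hmm₁ : m₁ ≤ m := le_trans (le_max_left _ _) hm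
  have hmm₂ : m₂ ≤ m := le_trans (le_trans (le_max_left _ _) (le_max_right _ _)) hm
  have hmm₃ : m₃ ≤ m := le_trans (le_trans (le_max_right _ _) (le_max_right _ _)) hm
  have hm2 : 2 ≤ m := by omega
  have hm' : (2 : ℝ) ≤ m := by exact_mod_cast hm2
  have hm0 : (0 : ℝ) < m := by linarith
  have hlogm : 0 < Real.log m := Real.log_pos (by linarith)
  have hR' := hR
  obtain ⟨h1, h2, h3, h4, h5⟩ := hR'
  refine htop m hmm₃ b y y' a hR ?_
  set t := m - b with htdef
  have htm : b + t = m := by omega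
  have htr : (m : ℝ) - b = t := by rw [htdef, Nat.cast_sub h4.le]
  rw [htr]
  have hmX : (1 : ℝ) ≤ (m : ℝ) ^ (1 / 2 : ℝ) := Real.one_le_rpow (by linarith) (by norm_num)
  have ht4 : (4 : ℝ) ≤ t := by
    refine le_trans (hcon m hmm₂) (le_trans ?_ ht)
    rw [rpow_half_add δ hm2]
    have : (0 : ℝ) < (m : ℝ) ^ δ := by positivity
    nlinarith
  have ht0 : (0 : ℝ) < t := by linarith
  have ht4n : 4 ≤ t := by exact_mod_cast ht4
  -- bounds for a
  have hsr : (y : ℝ) - y' ≤ K * t := by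
    have : y ≤ y' + K * t := by omega
    have : (y : ℝ) ≤ y' + K * t := by exact_mod_cast this
    linarith
  have hat := hCa m hmm₁ b y y' a hR
  rw [htr] at hat
  set z := c₂ * t with hz
  have hzr : (z : ℝ) = c₂ * t := by rw [hz]; push_cast; ring
  have haz : a < z := by
    have : (a : ℝ) < z := by
      rw [hzr]
      have : Ca * ((t : ℝ) + (y - y')) ≤ Ca * (t + K * t) :=
        mul_le_mul_of_nonneg_left (by linarith) (by linarith)
      nlinarith
    exact_mod_cast this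
  have htz : t ≤ z := by
    rw [hz]; exact Nat.le_mul_of_pos_left _ (by omega)
  have hsz : y - y' ≤ z := by
    refine hsK.trans ?_
    rw [hz]
    exact Nat.mul_le_mul_right _ (by omega)
  -- easy cases
  by_cases hcase1 : m < 2 * t
  · have : (m : ℝ) < 2 * t := by exact_mod_cast hcase1
    nlinarith
  push Not at hcase1
  by_cases hcase2 : m ≤ z
  · have : (m : ℝ) ≤ z := by exact_mod_cast hcase2
    rw [hzr] at this
    nlinarith
  push Not at hcase2
  have hzm : (z : ℝ) < m := by exact_mod_cast hcase2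
  have hz0 : (0 : ℝ) < z := by rw [hzr]; positivity
  have hz2 : 2 ≤ z := by omega
  have htsq : 4 * m ≤ t ^ 2 := sq_of_ge hm2 (hcon m hmm₂) ht
  have hmz : m < (z + 1) ^ 2 := by
    have : t ^ 2 ≤ z ^ 2 := Nat.pow_le_pow_left htz 2
    nlinarith
  have hL0 : 0 ≤ Real.log m - Real.log z := by
    have := Real.log_le_log hz0 hzm.le
    linarith
  have hlow := hCl b m z h4.le (by omega) hz2 hmz
  rw [htr] at hlow
  -- cone lemma
  set M := m / z with hM
  have hMt : M * t ≤ m := by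
    calc M * t ≤ M * z := Nat.mul_le_mul_left _ htz
      _ ≤ m := Nat.div_mul_le_self m z
  obtain ⟨d, hd2, -, hcone⟩ := cone_lemma m y t (2 * K) M (by omega) (by omega) (by omega) hMt
  -- properties of large primes
  have hlarge : ∀ P : ℕ, P.Prime → z < P → b / P < m / P → m / P = b / P + 1 ∧
      y / P = y' / P + 1 := by
    intro P hP hzP hlt
    have hmP : m < P ^ 2 := by
      have : (z + 1) ^ 2 ≤ P ^ 2 := Nat.pow_le_pow_left hzP 2
      omega
    have h6 := rep_large hR hP hmP (by omega) (by omega) (by omega)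
    have e1 : m / P ≤ b / P + 1 := by
      have : m / P ≤ (b + P) / P := Nat.div_le_div_right (by omega)
      rwa [Nat.add_div_right _ hP.pos] at this
    have e2 : y / P ≤ y' / P + 1 := by
      have : y / P ≤ (y' + P) / P := Nat.div_le_div_right (by omega)
      rwa [Nat.add_div_right _ hP.pos] at this
    have e4 : y' / P ≤ y / P := Nat.div_le_div_right h2
    omega
  have hdiff1 : ∀ P : ℕ, P.Prime → z < P → m / P - b / P ≤ 1 := by
    intro P hP hzP
    by_cases hlt : b / P < m / P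
    · have := (hlarge P hP hzP hlt).1
      omega
    · omega
  set F : ℕ → Finset ℕ := fun k => (Finset.Icc 1 (k - 1)).filter
          (fun k' : ℕ => |(m : ℤ) * (k' : ℤ) - (y : ℤ) * (k : ℤ)| ≤ ((2 * K : ℕ) : ℤ) * t * k) with hF
  set T := ((Mertens.PP m).filter (fun P => z < P)).filter
    (fun P => ¬ d ∣ m / P ∧ b / P < m / P) with hT
  have hTsub : T ⊆ ((Finset.Icc 1 M).filter (fun k => ¬ d ∣ k ∧ (F k).Nonempty)).biUnion
      (fun k => PI (b / k) (m / k)) := by
    intro P hP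
    simp only [hT, Finset.mem_filter, Finset.mem_Icc] at hP
    obtain ⟨⟨⟨⟨g1, g2⟩, g3⟩, g4⟩, g5, g6⟩ := hP
    obtain ⟨g7, g8⟩ := hlarge P g3 g4 g6
    have hkpos : 1 ≤ m / P := lt_of_le_of_lt (Nat.zero_le _) g6
    have hk'pos : 1 ≤ y / P := by
      rw [g8]; exact Nat.succ_le_succ (Nat.zero_le _)
    have hyk : y / P ≤ m / P - 1 := by
      have h9 : y / P ≤ b / P := Nat.div_le_div_right h3
      exact h9.trans (Nat.le_sub_one_of_lt g6)
    have hk2 : P * (m / P) ≤ m := Nat.mul_div_le m P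
    have hk1 : b < P * (m / P) := by
      have := Nat.lt_mul_div_succ b g3.pos
      calc b < P * (b / P + 1) := this
        _ = P * (m / P) := by rw [g7]
    have hk3 : m < P * (m / P + 1) := Nat.lt_mul_div_succ m g3.pos
    have hk'1 : y' < P * (y / P) := by
      have := Nat.lt_mul_div_succ y' g3.pos
      calc y' < P * (y' / P + 1) := this
        _ = P * (y / P) := by rw [g8]
    have hk'2 : P * (y / P) ≤ y := Nat.mul_div_le y P
    have hyb : y / P ≤ b / P := Nat.div_le_div_right h3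
    rw [Finset.mem_biUnion]
    refine ⟨m / P, ?_, ?_⟩
    · rw [Finset.mem_filter, Finset.mem_Icc]
      refine ⟨⟨hkpos, Nat.div_le_div_left g4.le (by omega)⟩, g5, y / P, ?_⟩
      rw [hF, Finset.mem_filter, Finset.mem_Icc]
      refine ⟨⟨hk'pos, hyk⟩, ?_⟩
      exact cone_mem g3.pos htm h3 (by omega) hK hk1 hk2 hk3 hkpos hk'1 hk'2
    · simp only [Finset.mem_filter, Finset.mem_Ioc]
      refine ⟨⟨?_, ?_⟩, g3⟩
      · rw [Nat.div_lt_iff_lt_mul hkpos]; exact hk1
      · rw [Nat.le_div_iff_mul_le hkpos]; exact hk2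
  have hTcard : (T.card : ℝ) * Real.log m ≤ 32 * K * CW * t := by
    have e1 : (T.card : ℝ) ≤ ∑ k ∈ (Finset.Icc 1 M).filter (fun k => ¬ d ∣ k ∧ (F k).Nonempty),
        ((PI (b / k) (m / k)).card : ℝ) := by
      have := (Finset.card_le_card hTsub).trans Finset.card_biUnion_le
      exact_mod_cast this
    have e2 : ∑ k ∈ (Finset.Icc 1 M).filter (fun k => ¬ d ∣ k ∧ (F k).Nonempty),
        ((PI (b / k) (m / k)).card : ℝ) ≤
        ∑ k ∈ (Finset.Icc 1 M).filter (fun k => ¬ d ∣ k ∧ (F k).Nonempty),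
          (CW * t / Real.log m) * ∑ _k' ∈ F k, (if d ∣ k then (0 : ℝ) else 1 / (k : ℝ)) := by
      apply Finset.sum_le_sum
      intro k hk
      rw [Finset.mem_filter, Finset.mem_Icc] at hk
      obtain ⟨⟨k1, k2⟩, k3, k4⟩ := hk
      have hkr : (1 : ℝ) ≤ k := by exact_mod_cast k1
      have hkt : k * t ≤ m := (Nat.mul_le_mul_right t k2).trans hMt
      have w1 := hCW m b m k hm2 h4.le k1 (by rw [htr]; exact window_ok hm2 hδ ht hkt)
      rw [htr] at w1
      rw [if_neg k3, Finset.sum_const, nsmul_eq_mul]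
      have w2 : (1 : ℝ) ≤ ((F k).card : ℝ) := by exact_mod_cast Finset.card_pos.2 k4
      have w3 : CW * t / (k * Real.log m) = (CW * t / Real.log m) * (1 * (1 / (k : ℝ))) := by
        field_simp
      rw [w3] at w1
      refine w1.trans ?_
      apply mul_le_mul_of_nonneg_left _ (by positivity)
      apply mul_le_mul_of_nonneg_right w2 (by positivity)
    rw [← Finset.mul_sum] at e2
    have e3 : ∑ k ∈ (Finset.Icc 1 M).filter (fun k => ¬ d ∣ k ∧ (F k).Nonempty),
        ∑ _k' ∈ F k, (if d ∣ k then (0 : ℝ) else 1 / (k : ℝ)) ≤ 32 * K := by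
      have e4 : ∑ k ∈ Finset.Icc 1 M, ∑ _k' ∈ F k, (if d ∣ k then (0 : ℝ) else 1 / (k : ℝ)) ≤
          32 * K := by
        refine le_trans hcone ?_
        push_cast
        linarith
      refine le_trans (Finset.sum_le_sum_of_subset_of_nonneg (Finset.filter_subset _ _) ?_) e4
      intro k _ _
      apply Finset.sum_nonneg
      intro k' _
      split_ifs <;> positivity
    have e5 : (T.card : ℝ) ≤ (CW * t / Real.log m) * (32 * K) := by
      refine e1.trans (e2.trans ?_)
      exact mul_le_mul_of_nonneg_left e3 (by positivity)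
    calc (T.card : ℝ) * Real.log m ≤ (CW * t / Real.log m) * (32 * K) * Real.log m :=
          mul_le_mul_of_nonneg_right e5 hlogm.le
      _ = 32 * K * CW * t := by field_simp
  -- divide S0
  have hsplit := Finset.sum_filter_add_sum_filter_not ((Mertens.PP m).filter (fun P => z < P))
    (fun P => d ∣ m / P) (fun P => Real.log P * ((m / P - b / P : ℕ) : ℝ))
  have hnd : ∑ P ∈ ((Mertens.PP m).filter (fun P => z < P)).filter (fun P => ¬ d ∣ m / P),
      Real.log P * ((m / P - b / P : ℕ) : ℝ) ≤ (T.card : ℝ) * Real.log m := by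
    have e1 : ∑ P ∈ ((Mertens.PP m).filter (fun P => z < P)).filter (fun P => ¬ d ∣ m / P),
      Real.log P * ((m / P - b / P : ℕ) : ℝ) = ∑ P ∈ T, Real.log P * ((m / P - b / P : ℕ) : ℝ) := by
      symm
      apply Finset.sum_subset
      · intro P hP
        rw [hT, Finset.mem_filter] at hP
        rw [Finset.mem_filter]
        exact ⟨hP.1, hP.2.1⟩
      · intro P hP hP2
        rw [Finset.mem_filter] at hP
        have : ¬ b / P < m / P := by
          intro hlt
          apply hP2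
          rw [hT, Finset.mem_filter]
          exact ⟨hP.1, hP.2, hlt⟩
        have : m / P - b / P = 0 := by omega
        rw [this]; simp
    rw [e1]
    have e2 : ∑ P ∈ T, Real.log P * ((m / P - b / P : ℕ) : ℝ) ≤ ∑ _P ∈ T, Real.log m := by
      apply Finset.sum_le_sum
      intro P hP
      simp only [hT, Finset.mem_filter, Finset.mem_Icc] at hP
      obtain ⟨⟨⟨⟨g1, g2⟩, g3⟩, g4⟩, g5, g6⟩ := hP
      have w1 : ((m / P - b / P : ℕ) : ℝ) ≤ 1 := by exact_mod_cast hdiff1 P g3 g4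
      have w2 : Real.log P ≤ Real.log m := by
        apply Real.log_le_log
        · exact_mod_cast g3.pos
        · exact_mod_cast g2
      have w3 : 0 ≤ Real.log P := Real.log_nonneg (by exact_mod_cast g3.one_lt.le)
      have w4 : (0 : ℝ) ≤ ((m / P - b / P : ℕ) : ℝ) := Nat.cast_nonneg _
      nlinarith
    rw [Finset.sum_const, nsmul_eq_mul] at e2
    exact e2
  have hdiv : ∑ P ∈ ((Mertens.PP m).filter (fun P => z < P)).filter (fun P => d ∣ m / P),
      Real.log P * ((m / P - b / P : ℕ) : ℝ) ≤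
      ∑ P ∈ (Mertens.PP (m / d)).filter (fun P => z < P),
        Real.log P * ((m / d / P - b / d / P : ℕ) : ℝ) := by
    have hdpos : 0 < d := by omega
    have e0 : ∀ P ∈ (Mertens.PP m).filter (fun P => z < P),
        0 ≤ Real.log P * ((m / d / P - b / d / P : ℕ) : ℝ) := by
      intro P hP
      simp only [Finset.mem_filter, Finset.mem_Icc] at hP
      have w3 : 0 ≤ Real.log P := Real.log_nonneg (by exact_mod_cast hP.1.2.one_lt.le)
      positivity
    have e1 : ∑ P ∈ ((Mertens.PP m).filter (fun P => z < P)).filter (fun P => d ∣ m / P),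
      Real.log P * ((m / P - b / P : ℕ) : ℝ) ≤
      ∑ P ∈ ((Mertens.PP m).filter (fun P => z < P)).filter (fun P => d ∣ m / P),
      Real.log P * ((m / d / P - b / d / P : ℕ) : ℝ) := by
      apply Finset.sum_le_sum
      intro P hP
      simp only [Finset.mem_filter, Finset.mem_Icc] at hP
      obtain ⟨⟨⟨⟨g1, g2⟩, g3⟩, g4⟩, g5⟩ := hP
      have w3 : 0 ≤ Real.log P := Real.log_nonneg (by exact_mod_cast g3.one_lt.le)
      apply mul_le_mul_of_nonneg_left _ w3
      have w4 := hdiff1 P g3 g4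
      by_cases hlt : b / P < m / P
      · obtain ⟨k₁, hk₁⟩ := g5
        have hk2 : P * (m / P) ≤ m := Nat.mul_div_le m P
        have g7 := (hlarge P g3 g4 hlt).1
        have hk1 : b < P * (m / P) := by
          have := Nat.lt_mul_div_succ b g3.pos
          calc b < P * (b / P + 1) := this
            _ = P * (m / P) := by rw [g7]
        rw [hk₁] at hk2 hk1
        have v1 : k₁ ≤ m / d / P := by
          rw [Nat.div_div_eq_div_mul, Nat.le_div_iff_mul_le (Nat.mul_pos hdpos g3.pos)]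
          calc k₁ * (d * P) = P * (d * k₁) := by ring
            _ ≤ m := hk2
        have v2 : b / d / P < k₁ := by
          rw [Nat.div_div_eq_div_mul, Nat.div_lt_iff_lt_mul (Nat.mul_pos hdpos g3.pos)]
          calc b < P * (d * k₁) := hk1
            _ = k₁ * (d * P) := by ring
        have v3 : 1 ≤ m / d / P - b / d / P := by omega
        have v4 : m / P - b / P ≤ m / d / P - b / d / P := by omega
        exact_mod_cast v4
      · have : m / P - b / P = 0 := by omega
        rw [this]; simp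
    refine e1.trans ?_
    refine (Finset.sum_le_sum_of_subset_of_nonneg (Finset.filter_subset _ _)
      (fun P hP _ => e0 P hP)).trans ?_
    apply le_of_eq
    symm
    apply Finset.sum_subset
    · intro P hP
      simp only [Finset.mem_filter, Finset.mem_Icc] at hP ⊢
      have := Nat.div_le_self m d
      exact ⟨⟨⟨hP.1.1.1, by omega⟩, hP.1.2⟩, hP.2⟩
    · intro P hP hP2
      simp only [Finset.mem_filter, Finset.mem_Icc] at hP hP2
      have : m / d < P := by
        by_contra hc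
        exact hP2 ⟨⟨⟨hP.1.1.1, by omega⟩, hP.1.2⟩, hP.2⟩
      rw [Nat.div_eq_of_lt this]
      simp
  have hup := hCu (b / d) (m / d) z (Nat.div_le_div_right h4.le) (by omega)
  -- size of t'
  have hmd : ((m / d : ℕ) : ℝ) ≤ (m : ℝ) / d := Nat.cast_div_le
  have hbd : (b : ℝ) / d < ((b / d : ℕ) : ℝ) + 1 := by
    rw [← Nat.floor_div_eq_div (K := ℝ)]
    exact Nat.lt_floor_add_one _
  have hdr : (2 : ℝ) ≤ d := by exact_mod_cast hd2
  have ht' : ((m / d : ℕ) : ℝ) - ((b / d : ℕ) : ℝ) ≤ t / 2 + 1 := by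
    have e1 : (m : ℝ) / d - (b : ℝ) / d = t / d := by rw [← sub_div, htr]
    have e2 : (t : ℝ) / d ≤ t / 2 := div_le_div_of_nonneg_left ht0.le (by norm_num) hdr
    linarith
  have ht'0 : (0 : ℝ) ≤ ((m / d : ℕ) : ℝ) - ((b / d : ℕ) : ℝ) := by
    have : b / d ≤ m / d := Nat.div_le_div_right h4.le
    have : ((b / d : ℕ) : ℝ) ≤ ((m / d : ℕ) : ℝ) := by exact_mod_cast this
    linarith
  have hlogmd : Real.log ((m / d : ℕ) : ℝ) ≤ Real.log m := by
    rcases Nat.eq_zero_or_pos (m / d) with h | h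
    · rw [h]; simp; exact hlogm.le
    · apply Real.log_le_log
      · exact_mod_cast h
      · exact_mod_cast Nat.div_le_self m d
  have hup2 : ∑ P ∈ (Mertens.PP (m / d)).filter (fun P => z < P),
        Real.log P * ((m / d / P - b / d / P : ℕ) : ℝ) ≤
      (t / 2 + 1) * (Real.log m - Real.log z) + Cu * (t / 2 + 1) + Cu * z := by
    refine hup.trans ?_
    have e1 : (((m / d : ℕ) : ℝ) - ((b / d : ℕ) : ℝ)) *
        (Real.log ((m / d : ℕ) : ℝ) - Real.log z) ≤ (t / 2 + 1) * (Real.log m - Real.log z) := by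
      calc (((m / d : ℕ) : ℝ) - ((b / d : ℕ) : ℝ)) * (Real.log ((m / d : ℕ) : ℝ) - Real.log z)
          ≤ (((m / d : ℕ) : ℝ) - ((b / d : ℕ) : ℝ)) * (Real.log m - Real.log z) :=
            mul_le_mul_of_nonneg_left (by linarith) ht'0
        _ ≤ _ := mul_le_mul_of_nonneg_right ht' hL0
    have e2 : Cu * (((m / d : ℕ) : ℝ) - ((b / d : ℕ) : ℝ)) ≤ Cu * (t / 2 + 1) :=
      mul_le_mul_of_nonneg_left ht' (by linarith)
    linarith
  -- conclusion
  have hfin : (t : ℝ) * (Real.log m - Real.log z) - Cl * t - Cl * z ≤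
      (t / 2 + 1) * (Real.log m - Real.log z) + Cu * (t / 2 + 1) + Cu * z + 32 * K * CW * t := by
    linarith
  rw [hzr] at hfin
  have hfin2 : (t : ℝ) / 4 * (Real.log m - Real.log z) ≤ D * t := by
    have e1 : (t : ℝ) / 4 * (Real.log m - Real.log z) ≤ (t / 2 - 1) * (Real.log m - Real.log z) :=
      mul_le_mul_of_nonneg_right (by linarith) hL0
    have e2 : Cu * ((t : ℝ) / 2 + 1) ≤ Cu * t := mul_le_mul_of_nonneg_left (by linarith) (by linarith)
    rw [← hzr] at hfin
    have e3 : D * t = Cl * t + Cl * (c₂ * t) + Cu * t + Cu * (c₂ * t) + 32 * K * CW * t := by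
      rw [hD]; ring
    rw [e3, ← hzr]
    linarith
  have hfin3 : Real.log m - Real.log z ≤ 4 * D := by
    have : (Real.log m - Real.log z) * t ≤ 4 * D * t := by linarith
    exact le_of_mul_le_mul_right this ht0
  have hfin4 : (m : ℝ) ≤ Real.exp (4 * D) * z := by
    have e1 : Real.log (m / z) ≤ 4 * D := by
      rw [Real.log_div hm0.ne' hz0.ne']; exact hfin3
    have e2 : (m : ℝ) / z ≤ Real.exp (4 * D) := by
      rw [← Real.log_le_iff_le_exp (by positivity)]
      exact e1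
    rwa [div_le_iff₀ hz0] at e2
  calc (m : ℝ) ≤ Real.exp (4 * D) * z := hfin4
    _ = lam * t := by rw [hzr, hlam]; ring

end Pool.Agent.Helper601
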