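import Mathlib
import Pool.Agent.Helper601.PartA2

set_option autoImplicit false

namespace Pool.Agent.Helper601

open Finset

theorem factorization_factorial_block (A B P : ℕ) (hAB : A ≤ B) :
    B.factorial.factorization P =
      A.factorial.factorization P + ∑ n ∈ Finset.Ioc A B, n.factorization P := by
  induction B, hAB using Nat.le_induction with
  | base => simp
  | succ B hB ih =>
    rw [Nat.factorial_succ, Nat.factorization_mul (by omega) (Nat.factorial_ne_zero B),
      Finsupp.add_apply, ih]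
    have : Finset.Ioc A (B + 1) = insert (B + 1) (Finset.Ioc A B) := by
      ext n
      simp only [Finset.mem_Ioc, Finset.mem_insert]
      omega
    rw [this, Finset.sum_insert (by simp)]
    ring

/-- a prime occurring to an odd power in exactly one element of the top block must divide an
element of the second block -/
theorem exists_mult {m b y y' a Q n₀ : ℕ} (h : Rep m b y y' a) (hQ : Q.Prime) (haQ : a < Q)
    (htQ : m - b ≤ Q) (h1 : b < n₀) (h2 : n₀ ≤ m) (hodd : Odd (n₀.factorization Q)) :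
    ∃ n', y' < n' ∧ n' ≤ y ∧ Q ∣ n' := by
  obtain ⟨g1, g2, g3, g4, g5⟩ := h
  by_contra hc
  push Not at hc
  have h6 := even_factorization_of_isSquare g5 Q
  have f0 : ∀ n : ℕ, n.factorial ≠ 0 := Nat.factorial_ne_zero
  rw [Nat.factorization_mul (by simp [f0]) (f0 _), Nat.factorization_mul (by simp [f0]) (f0 _),
    Nat.factorization_mul (by simp [f0]) (f0 _), Nat.factorization_mul (f0 _) (f0 _)] at h6
  simp only [Finsupp.add_apply] at h6
  rw [factorization_factorial_block b m Q g4.le, factorization_factorial_block y' y Q g2] at h6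
  have e1 : ∑ n ∈ Finset.Ioc b m, n.factorization Q = n₀.factorization Q := by
    apply Finset.sum_eq_single n₀
    · intro n hn hne
      rw [Finset.mem_Ioc] at hn
      apply Nat.factorization_eq_zero_of_not_dvd
      intro hdvd
      have hQn₀ : Q ∣ n₀ := by
        by_contra hnd
        rw [Nat.factorization_eq_zero_of_not_dvd hnd] at hodd
        exact absurd hodd (by decide)
      rcases lt_or_gt_of_ne hne with hlt | hlt
      · have h3 : Q ∣ n₀ - n := Nat.dvd_sub hQn₀ hdvd
        have h4 := Nat.le_of_dvd (by omega) h3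
        omega
      · have h3 : Q ∣ n - n₀ := Nat.dvd_sub hdvd hQn₀
        have h4 := Nat.le_of_dvd (by omega) h3
        omega
    · intro hn
      exact absurd (Finset.mem_Ioc.2 ⟨h1, h2⟩) hn
  have e2 : ∑ n ∈ Finset.Ioc y' y, n.factorization Q = 0 := by
    apply Finset.sum_eq_zero
    intro n hn
    rw [Finset.mem_Ioc] at hn
    exact Nat.factorization_eq_zero_of_not_dvd (hc n hn.1 hn.2)
  have e3 : a.factorial.factorization Q = 0 := by
    apply Nat.factorization_eq_zero_of_not_dvd
    rw [hQ.dvd_factorial]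
    omega
  rw [e1, e2, e3] at h6
  obtain ⟨r, hr⟩ := h6
  obtain ⟨k, hk⟩ := hodd
  omega

/-- the second block contains a multiple `p v` with `1 ≤ v < u` -/
theorem exists_v {m b y y' a p u : ℕ} (h : Rep m b y y' a) (hp : p.Prime) (hm : m = p * u)
    (hmp : m < p ^ 2) (hpa : a < p) (hpt : m - b ≤ p) (hps : y - y' ≤ p) :
    ∃ v, 1 ≤ v ∧ v < u ∧ y' < p * v ∧ p * v ≤ y := by
  have h1 := rep_large h hp hmp hpa hpt hps
  obtain ⟨g1, g2, g3, g4, -⟩ := h
  have h2 : m / p = u := by rw [hm]; exact Nat.mul_div_cancel_left _ hp.pos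
  have h3 : b / p < u := by
    rw [Nat.div_lt_iff_lt_mul hp.pos]
    calc b < m := g4
      _ = u * p := by rw [hm]; ring
  have h4 : y / p ≤ b / p := Nat.div_le_div_right g3
  have h5 : y' / p + 1 ≤ y / p := by omega
  refine ⟨y / p, le_trans (Nat.succ_le_succ (Nat.zero_le _)) h5, lt_of_le_of_lt h4 h3, ?_,
    Nat.mul_div_le y p⟩
  calc y' < p * (y' / p + 1) := Nat.lt_mul_div_succ y' hp.pos
    _ ≤ p * (y / p) := Nat.mul_le_mul_left _ h5

/-- key divisibility: `Q ∣ p u - j` and `Q ∣ n'` with `n'` close to `p v` force `u ∣ v j` -/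
theorem key_dvd {p u v j n' Q s : ℕ} (hj : j ≤ p * u) (hQ1 : Q ∣ p * u - j) (hQ2 : Q ∣ n')
    (hn1 : n' ≤ p * v + s) (hn2 : p * v ≤ n' + s) (hv : v ≤ u) (hQ : u * (j + s) < Q) :
    u ∣ v * j := by
  have hQ1' : (Q : ℤ) ∣ (p : ℤ) * u - j := by
    have := Int.natCast_dvd_natCast.2 hQ1
    rw [Nat.cast_sub hj] at this
    push_cast at this
    exact this
  have hQ2' : (Q : ℤ) ∣ (n' : ℤ) := Int.natCast_dvd_natCast.2 hQ2
  have h3 : (Q : ℤ) ∣ (v : ℤ) * j + u * (n' - p * v) := by
    have e : (v : ℤ) * j + u * (n' - p * v) = u * n' - v * ((p : ℤ) * u - j) := by ring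
    rw [e]
    exact dvd_sub (dvd_mul_of_dvd_right hQ2' _) (dvd_mul_of_dvd_right hQ1' _)
  have h4 : |(v : ℤ) * j + u * (n' - p * v)| < Q := by
    have e1 : (n' : ℤ) ≤ p * v + s := by exact_mod_cast hn1
    have e2 : (p : ℤ) * v ≤ n' + s := by exact_mod_cast hn2
    have e3 : (v : ℤ) ≤ u := by exact_mod_cast hv
    have e4 : (u : ℤ) * (j + s) < Q := by exact_mod_cast hQ
    have e5 : (0 : ℤ) ≤ j := by positivity
    have e6 : (0 : ℤ) ≤ u := by positivity
    have e7 : (0 : ℤ) ≤ v := by positivity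
    have e8 : (v : ℤ) * j ≤ u * j := mul_le_mul_of_nonneg_right e3 e5
    have e9 : (0 : ℤ) ≤ v * j := by positivity
    have e10 : (u : ℤ) * (n' - p * v) ≤ u * s := mul_le_mul_of_nonneg_left (by linarith) e6
    have e11 : -((u : ℤ) * s) ≤ u * (n' - p * v) := by
      have := mul_le_mul_of_nonneg_left (show -(s : ℤ) ≤ n' - p * v by linarith) e6
      linarith
    rw [abs_lt]
    constructor <;> nlinarith
  have h5 := Int.eq_zero_of_abs_lt_dvd h3 h4
  have h6 : (u : ℤ) ∣ (v : ℤ) * j := by
    refine ⟨p * v - n', ?_⟩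
    linarith
  exact_mod_cast h6

/-- The top block has at most `J` elements. -/
theorem det_top {m b y y' a p u X J Z : ℕ} (h : Rep m b y y' a) (hp : p.Prime) (hm : m = p * u)
    (hmp : m < p ^ 2) (hX1 : a ≤ X) (hX2 : m - b ≤ X) (hX3 : y - y' ≤ X) (hXp : X < p)
    (hsq : Squarefree u) (hZ : ∀ l ∈ u.primeFactors, Z < l)
    (T : Finset ℕ) (hT : ∀ j ∈ T, 1 ≤ j ∧ j ≤ J ∧
      ∃ Q : ℕ, Q.Prime ∧ u * (J + X) < Q ∧ m < Q ^ 2 ∧ Q ∣ m - j)
    (hmany : J < (Z + 1) * T.card) :
    m - b ≤ J := by
  by_contra hcon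
  push Not at hcon
  obtain ⟨v, hv1, hvu, hv2, hv3⟩ := exists_v h hp hm hmp (by omega) (by omega) (by omega)
  -- a prime factor of u not dividing v
  have hl : ∃ l, l.Prime ∧ l ∣ u ∧ ¬ l ∣ v := by
    by_contra hc
    push Not at hc
    have : u ∣ v := by
      rw [← Nat.prod_primeFactors_of_squarefree hsq]
      apply Finset.prod_primes_dvd
      · intro l hl
        exact (Nat.prime_of_mem_primeFactors hl).prime
      · intro l hl
        exact hc l (Nat.prime_of_mem_primeFactors hl) (Nat.dvd_of_mem_primeFactors hl)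
    have := Nat.le_of_dvd (by omega) this
    omega
  obtain ⟨l, hlp, hlu, hlv⟩ := hl
  have hu0 : u ≠ 0 := by omega
  have hZl : Z < l := hZ l (Nat.mem_primeFactors.2 ⟨hlp, hlu, hu0⟩)
  have hsub : T ⊆ (Finset.Icc 1 (J / l)).image (fun k => l * k) := by
    intro j hj
    obtain ⟨hj1, hj2, Q, hQ, hQ1, hQ2, hQ3⟩ := hT j hj
    have hu1 : 1 ≤ u := by omega
    have hQX : J + X < Q := lt_of_le_of_lt (Nat.le_mul_of_pos_left _ hu1) hQ1
    have hbm := h.2.2.2.1
    have hodd : Odd ((m - j).factorization Q) := by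
      have e1 : (m - j).factorization Q = 1 := by
        have h0 : m - j ≠ 0 := by omega
        have e2 : 1 ≤ (m - j).factorization Q := hQ.factorization_pos_of_dvd h0 hQ3
        have e3 : (m - j).factorization Q < 2 := by
          by_contra hc
          push Not at hc
          have e4 : Q ^ 2 ∣ m - j := (hQ.pow_dvd_iff_le_factorization h0).2 hc
          have e5 := Nat.le_of_dvd (Nat.pos_of_ne_zero h0) e4
          omega
        omega
      rw [e1]; decide
    obtain ⟨n', hn1, hn2, hn3⟩ := exists_mult h hQ (by omega) (by omega) (show b < m - j by omega)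
      (by omega) hodd
    have hdvd : u ∣ v * j := by
      apply key_dvd (p := p) (n' := n') (Q := Q) (s := X)
      · rw [← hm]; omega
      · rw [← hm]; exact hQ3
      · exact hn3
      · omega
      · omega
      · exact hvu.le
      · refine lt_of_le_of_lt ?_ hQ1
        exact Nat.mul_le_mul_left _ (by omega)
    have hlj : l ∣ j := by
      have e1 : l ∣ v * j := hlu.trans hdvd
      rcases hlp.dvd_mul.1 e1 with e2 | e2
      · exact absurd e2 hlv
      · exact e2
    obtain ⟨k, rfl⟩ := hlj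
    rw [Finset.mem_image]
    refine ⟨k, ?_, rfl⟩
    rw [Finset.mem_Icc]
    constructor
    · rcases Nat.eq_zero_or_pos k with h0 | h0
      · subst h0; simp at hj1
      · exact h0
    · rw [Nat.le_div_iff_mul_le hlp.pos]
      calc k * l = l * k := by ring
        _ ≤ J := hj2
  have hcard := (Finset.card_le_card hsub).trans Finset.card_image_le
  rw [Nat.card_Icc, Nat.add_sub_cancel] at hcard
  have h1 : (Z + 1) * T.card ≤ J := by
    calc (Z + 1) * T.card ≤ l * (J / l) := Nat.mul_le_mul (by omega) hcard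
      _ ≤ J := Nat.mul_div_le J l
  omega

/-- a large prime with a multiple in the second block has one in the first block -/
theorem exists_mult_top {m b y y' a R n' : ℕ} (h : Rep m b y y' a) (hR : R.Prime)
    (hmR : m < R ^ 2) (haR : a < R) (htR : m - b ≤ R) (hsR : y - y' ≤ R)
    (h1 : y' < n') (h2 : n' ≤ y) (hd : R ∣ n') : ∃ w, b < R * w ∧ R * w ≤ m := by
  have h3 := rep_large h hR hmR haR htR hsR
  have h4 : y' / R < y / R := by
    obtain ⟨k, rfl⟩ := hd
    have e1 : k ≤ y / R := by
      rw [Nat.le_div_iff_mul_le hR.pos]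
      calc k * R = R * k := by ring
        _ ≤ y := h2
    have e2 : y' / R < k := by
      rw [Nat.div_lt_iff_lt_mul hR.pos]
      calc y' < R * k := h1
        _ = k * R := by ring
    omega
  have h5 : b / R + 1 ≤ m / R := by omega
  refine ⟨m / R, ?_, Nat.mul_div_le m R⟩
  calc b < R * (b / R + 1) := Nat.lt_mul_div_succ b hR.pos
    _ ≤ R * (m / R) := Nat.mul_le_mul_left _ h5

/-- The second block is short when `p` has close prime neighbours. -/
theorem det_gap {m b y y' a p u v X J G r₁ r₂ : ℕ} (h : Rep m b y y' a)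
    (hm : m = p * u) (hX1 : a ≤ X) (hX2 : y - y' ≤ X) (ht : m - b ≤ J)
    (hv1 : 1 ≤ v) (hvu : v < u) (hv2 : y' < p * v) (hv3 : p * v ≤ y)
    (hr₁ : r₁.Prime) (hr₁1 : p < r₁) (hr₁2 : r₁ ≤ p + G)
    (hr₂ : r₂.Prime) (hr₂1 : r₂ < p) (hr₂2 : p ≤ r₂ + G)
    (hmr : m < r₂ ^ 2) (hXr : X < r₂) (hJr : J ≤ r₂) (hJu : J ≤ u)
    (hbig : G * (u + 1) + J < p) : y - y' ≤ 2 * G * u := by
  have hG : 1 ≤ G := by omega
  have hupper : y < r₁ * v := by
    by_contra hc
    push Not at hc
    have hmr₁ : m < r₁ ^ 2 := lt_of_lt_of_le hmr (Nat.pow_le_pow_left (by omega) 2)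
    obtain ⟨w, hw1, hw2⟩ := exists_mult_top h hr₁ hmr₁ (by omega) (by omega) (by omega)
      (n' := r₁ * v) (lt_of_lt_of_le hv2 (Nat.mul_le_mul_right _ hr₁1.le)) hc (dvd_mul_right _ _)
    have hwu : w < u := by
      by_contra hcw
      push Not at hcw
      have e1 : p * u < r₁ * w := by
        calc p * u < r₁ * u := Nat.mul_lt_mul_of_pos_right hr₁1 (by omega)
          _ ≤ r₁ * w := Nat.mul_le_mul_left _ hcw
      omega
    have e1 : r₁ * w ≤ (p + G) * w := Nat.mul_le_mul_right _ hr₁2
    have e2 : p * (w + 1) ≤ p * u := Nat.mul_le_mul_left _ (by omega)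
    have e3 : G * w ≤ G * (u + 1) := Nat.mul_le_mul_left _ (by omega)
    have e4 : (p + G) * w = p * w + G * w := by ring
    have e5 : p * (w + 1) = p * w + p := by ring
    omega
  have hlower : r₂ * v ≤ y' := by
    by_contra hc
    push Not at hc
    obtain ⟨w, hw1, hw2⟩ := exists_mult_top h hr₂ hmr (by omega) (by omega) (by omega)
      (n' := r₂ * v) hc (le_trans (Nat.mul_le_mul_right _ hr₂1.le) hv3) (dvd_mul_right _ _)
    rcases lt_trichotomy w u with hw | hw | hw
    · have e1 : r₂ * w ≤ p * w := Nat.mul_le_mul_right _ hr₂1.le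
      have e2 : p * (w + 1) ≤ p * u := Nat.mul_le_mul_left _ (by omega)
      have e5 : p * (w + 1) = p * w + p := by ring
      omega
    · subst hw
      have e1 : (r₂ + 1) * w ≤ p * w := Nat.mul_le_mul_right _ (by omega)
      have e5 : (r₂ + 1) * w = r₂ * w + w := by ring
      omega
    · have e1 : r₂ * (u + 1) ≤ r₂ * w := Nat.mul_le_mul_left _ (by omega)
      have e2 : p * (u + 1) ≤ (r₂ + G) * (u + 1) := Nat.mul_le_mul_right _ hr₂2
      have e3 : (r₂ + G) * (u + 1) = r₂ * (u + 1) + G * (u + 1) := by ring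
      have e4 : p * (u + 1) = p * u + p := by ring
      omega
  have e1 : r₁ * v ≤ (p + G) * v := Nat.mul_le_mul_right _ hr₁2
  have e2 : p * v ≤ (r₂ + G) * v := Nat.mul_le_mul_right _ hr₂2
  have e3 : G * v ≤ G * u := Nat.mul_le_mul_left _ hvu.le
  have e4 : (p + G) * v = p * v + G * v := by ring
  have e5 : (r₂ + G) * v = r₂ * v + G * v := by ring
  have e6 : 2 * G * u = G * u + G * u := by ring
  omega

/-- The top block has one element when `m - 1` has a suitable prime factor. -/
theorem det_one {m b y y' a p u v J S q : ℕ} (h : Rep m b y y' a)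
    (hm : m = p * u) (ht : m - b ≤ J) (hs : y - y' ≤ S)
    (hv1 : 1 ≤ v) (hvu : v < u) (hv2 : y' < p * v) (hv3 : p * v ≤ y)
    (hq : q.Prime) (hqm : q ∣ m - 1) (hqm2 : ¬ q ^ 2 ∣ m - 1) (haq : a < q) (hJq : J ≤ q)
    (hqu : u * (1 + S) < q) (hm2 : 2 ≤ m) : b = m - 1 := by
  have hbm := h.2.2.2.1
  by_contra hne
  have hodd : Odd ((m - 1).factorization q) := by
    have e1 : (m - 1).factorization q = 1 := by
      have h0 : m - 1 ≠ 0 := by omega
      have e2 : 1 ≤ (m - 1).factorization q := hq.factorization_pos_of_dvd h0 hqm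
      have e3 : (m - 1).factorization q < 2 := by
        by_contra hc
        push Not at hc
        exact hqm2 ((hq.pow_dvd_iff_le_factorization h0).2 hc)
      omega
    rw [e1]; decide
  obtain ⟨n', hn1, hn2, hn3⟩ := exists_mult h hq haq (by omega) (show b < m - 1 by omega)
    (by omega) hodd
  have hdvd : u ∣ v * 1 := by
    apply key_dvd (p := p) (n' := n') (Q := q) (s := S)
    · rw [← hm]; omega
    · rw [← hm]; exact hqm
    · exact hn3
    · omega
    · omega
    · exact hvu.le
    · exact hqu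
  rw [mul_one] at hdvd
  have := Nat.le_of_dvd (by omega) hdvd
  omega

end Pool.Agent.Helper601
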