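import Mathlib
import Pool.Prelude.Def_F_1b46b985

set_option autoImplicit false

namespace Pool.Agent.Helper601.JobK

theorem pick_max (T : Finset ℕ) (n : ℕ) (h : T.card = n + 1) :
    ∃ b ∈ T, (∀ x ∈ T.erase b, x ≤ b) ∧ (T.erase b).card = n ∧
      (∏ a ∈ T, a.factorial) = b.factorial * ∏ a ∈ T.erase b, a.factorial := by
  have hne : T.Nonempty := by rw [← Finset.card_pos]; omega
  refine ⟨T.max' hne, T.max'_mem hne, ?_, ?_, ?_⟩
  · intro x hx
    exact T.le_max' x (Finset.mem_of_mem_erase hx)
  · rw [Finset.card_erase_of_mem (T.max'_mem hne)]; omega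
  · exact (Finset.mul_prod_erase T (fun a => a.factorial) (T.max'_mem hne)).symm

theorem isSquare_of_sq_mul (k n : ℕ) (hk : k ≠ 0) (h : IsSquare (k ^ 2 * n)) : IsSquare n := by
  obtain ⟨r, hr⟩ := h
  have h1 : k ^ 2 ∣ r ^ 2 := ⟨n, by rw [sq r, ← hr]⟩
  have h2 : k ∣ r := (Nat.pow_dvd_pow_iff two_ne_zero).1 h1
  obtain ⟨q, rfl⟩ := h2
  refine ⟨q, ?_⟩
  have h3 : k ^ 2 * n = k ^ 2 * (q * q) := by rw [hr]; ring
  exact Nat.eq_of_mul_eq_mul_left (by positivity) h3

/-- Representations of length at most five in block form. -/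
theorem rep_of_hasRepresentation (m j : ℕ) (hj2 : 2 ≤ j) (hj : j < 6)
    (h : N140ae710.HasRepresentation m j) :
    ∃ b y y' a : ℕ, a ≤ y' ∧ y' ≤ y ∧ y ≤ b ∧ b < m ∧
      IsSquare (m.factorial * b.factorial * y.factorial * y'.factorial * a.factorial) := by
  obtain ⟨s, hs, hm, hle, hsq⟩ := h
  have hsq' : IsSquare (m.factorial * ∏ a ∈ s.erase m, a.factorial) := by
    rw [Finset.mul_prod_erase s (fun a => a.factorial) hm]; exact hsq
  have hlt : ∀ a ∈ s.erase m, a < m := fun a ha =>
    lt_of_le_of_ne (hle a (Finset.mem_of_mem_erase ha)).2 (Finset.ne_of_mem_erase ha)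
  have hc : (s.erase m).card = (j - 2) + 1 := by
    rw [Finset.card_erase_of_mem hm, hs]; omega
  generalize s.erase m = T at *
  obtain ⟨b, hb, hb1, hb2, hb3⟩ := pick_max T _ hc
  rw [hb3] at hsq'
  have hbm := hlt b hb
  generalize T.erase b = T1 at *
  rcases Nat.eq_zero_or_pos (j - 2) with h0 | h0
  · rw [h0, Finset.card_eq_zero] at hb2
    subst hb2
    refine ⟨b, 0, 0, 0, le_refl _, le_refl _, Nat.zero_le _, hbm, ?_⟩
    simpa using hsq'
  obtain ⟨c, hc0, hc1, hc2, hc3⟩ := pick_max T1 (j - 3) (by omega)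
  rw [hc3] at hsq'
  have hcb := hb1 c hc0
  generalize T1.erase c = T2 at *
  rcases Nat.eq_zero_or_pos (j - 3) with h0 | h0
  · rw [h0, Finset.card_eq_zero] at hc2
    subst hc2
    refine ⟨b, c, 0, 0, le_refl _, Nat.zero_le _, hcb, hbm, ?_⟩
    simpa [mul_assoc] using hsq'
  obtain ⟨d, hd0, hd1, hd2, hd3⟩ := pick_max T2 (j - 4) (by omega)
  rw [hd3] at hsq'
  have hdc := hc1 d hd0
  generalize T2.erase d = T3 at *
  rcases Nat.eq_zero_or_pos (j - 4) with h0 | h0
  · rw [h0, Finset.card_eq_zero] at hd2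
    subst hd2
    refine ⟨b, c, d, 0, Nat.zero_le _, hdc, hcb, hbm, ?_⟩
    simpa [mul_assoc] using hsq'
  obtain ⟨e, he0, he1, he2, he3⟩ := pick_max T3 (j - 5) (by omega)
  rw [he3] at hsq'
  have hed := hd1 e he0
  have h0 : j - 5 = 0 := by omega
  rw [h0, Finset.card_eq_zero] at he2
  refine ⟨b, c, d, e, hed, hdc, hcb, hbm, ?_⟩
  rw [he2] at hsq'
  simpa [mul_assoc] using hsq'

/-- The six factor identity of Erdos and Graham. -/
theorem hasRepresentation_six (p u : ℕ) (hu : 2 ≤ u) (hpu : u + 2 ≤ p) :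
    N140ae710.HasRepresentation (p * u) 6 := by
  have h1 : 2 * p ≤ p * u := by nlinarith
  set m := p * u with hm
  have hd1 : u - 1 ∉ (∅ : Finset ℕ) := Finset.notMem_empty _
  have hd2 : u ∉ ({u - 1} : Finset ℕ) := by simp; omega
  have hd3 : p - 1 ∉ ({u, u - 1} : Finset ℕ) := by simp; omega
  have hd4 : p ∉ ({p - 1, u, u - 1} : Finset ℕ) := by simp; omega
  have hd5 : m - 1 ∉ ({p, p - 1, u, u - 1} : Finset ℕ) := by simp; omega
  have hd6 : m ∉ ({m - 1, p, p - 1, u, u - 1} : Finset ℕ) := by simp; omega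
  refine ⟨{m, m - 1, p, p - 1, u, u - 1}, ?_, ?_, ?_, ?_⟩
  · rw [Finset.card_insert_of_notMem hd6, Finset.card_insert_of_notMem hd5,
      Finset.card_insert_of_notMem hd4, Finset.card_insert_of_notMem hd3,
      Finset.card_insert_of_notMem hd2, Finset.card_singleton]
  · simp
  · intro a ha
    simp only [Finset.mem_insert, Finset.mem_singleton] at ha
    omega
  · rw [Finset.prod_insert hd6, Finset.prod_insert hd5, Finset.prod_insert hd4,
      Finset.prod_insert hd3, Finset.prod_insert hd2, Finset.prod_singleton]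
    refine ⟨m * (m - 1).factorial * (p - 1).factorial * (u - 1).factorial, ?_⟩
    have e1 : m.factorial = m * (m - 1).factorial := (Nat.mul_factorial_pred (by omega)).symm
    have e2 : p.factorial = p * (p - 1).factorial := (Nat.mul_factorial_pred (by omega)).symm
    have e3 : u.factorial = u * (u - 1).factorial := (Nat.mul_factorial_pred (by omega)).symm
    rw [e1, e2, e3]
    calc m * (m - 1).factorial * ((m - 1).factorial * (p * (p - 1).factorial * ((p - 1).factorial *
        (u * (u - 1).factorial * (u - 1).factorial))))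
        = m * (p * u) * ((m - 1).factorial) ^ 2 * ((p - 1).factorial) ^ 2
          * ((u - 1).factorial) ^ 2 := by ring
      _ = m * m * ((m - 1).factorial) ^ 2 * ((p - 1).factorial) ^ 2
          * ((u - 1).factorial) ^ 2 := by rw [← hm]
      _ = _ := by ring

/-- Two block form of the product when the top block has one element. -/
theorem square_of_top_one (m y y' a : ℕ) (hm : 1 ≤ m) (hy : y' ≤ y)
    (h : IsSquare (m.factorial * (m - 1).factorial * y.factorial * y'.factorial * a.factorial)) :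
    IsSquare (m * (∏ n ∈ Finset.Ioc y' y, n) * a.factorial) := by
  have e1 : m.factorial = m * (m - 1).factorial := (Nat.mul_factorial_pred (by omega)).symm
  have e2 : y.factorial = y'.factorial * ∏ n ∈ Finset.Ioc y' y, n := by
    clear h
    induction y, hy using Nat.le_induction with
    | base => simp
    | succ y hy ih =>
      rw [Finset.prod_Ioc_succ_top hy, Nat.factorial_succ, ih]
      ring
  apply isSquare_of_sq_mul ((m - 1).factorial * y'.factorial)
  · exact Nat.mul_ne_zero (Nat.factorial_ne_zero _) (Nat.factorial_ne_zero _)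
  · rw [e1, e2] at h
    convert h using 1
    ring

end Pool.Agent.Helper601.JobK
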