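import Mathlib

set_option autoImplicit false

namespace Pool.Agent.Helper601.JobB

open Finset

/-- primes up to `N` -/
abbrev PP (N : ℕ) : Finset ℕ := (Finset.Icc 1 N).filter Nat.Prime

lemma log_factorial_eq (N : ℕ) :
    Real.log (N.factorial : ℝ) = ∑ p ∈ PP N, (N.factorial.factorization p : ℝ) * Real.log p := by
  rw [Real.log_nat_eq_sum_factorization, Finsupp.sum]
  have h1 : N.factorial.factorization.support ⊆ PP N := by
    intro p hp
    rw [Nat.support_factorization, Nat.mem_primeFactors] at hp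
    rw [Finset.mem_filter, Finset.mem_Icc]
    exact ⟨⟨hp.1.one_lt.le, (hp.1.dvd_factorial).1 hp.2.1⟩, hp.1⟩
  refine Finset.sum_subset h1 fun p _ hp => ?_
  rw [Finsupp.notMem_support_iff] at hp
  rw [hp]; simp

lemma theta_le (N : ℕ) : ∑ p ∈ PP N, Real.log p ≤ 2 * N := by
  have h := Chebyshev.theta_le_log4_mul_x (x := (N : ℝ)) (by positivity)
  have h2 : Chebyshev.theta (N : ℝ) = ∑ p ∈ PP N, Real.log p := by
    rw [Chebyshev.theta, Nat.floor_natCast]
    rfl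
  rw [h2] at h
  have h3 : Real.log 4 ≤ 2 := by
    have : Real.log 4 = 2 * Real.log 2 := by
      rw [show (4 : ℝ) = 2 ^ 2 by norm_num, Real.log_pow]; norm_num
    have := Real.log_two_lt_d9
    linarith
  have : (0 : ℝ) ≤ N := by positivity
  nlinarith

/-- Upper half of Mertens' first theorem. -/
theorem mertens_log (N : ℕ) (hN : 1 ≤ N) :
    ∑ p ∈ (Finset.Icc 1 N).filter Nat.Prime, Real.log p / p ≤ Real.log N + 2 := by
  have hN' : (0 : ℝ) < N := by exact_mod_cast hN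
  have hN1 : (1 : ℝ) ≤ N := by exact_mod_cast hN
  have hfac := log_factorial_eq N
  set P := ∑ p ∈ PP N, Real.log p / p with hP
  have hup : Real.log (N.factorial : ℝ) ≤ N * Real.log N := by
    rw [← Real.log_pow]
    apply Real.log_le_log
    · exact_mod_cast N.factorial_pos
    · exact_mod_cast N.factorial_le_pow
  have h1 : (N : ℝ) * P - 2 * N ≤ Real.log (N.factorial : ℝ) := by
    rw [hfac]
    have h2 := theta_le N
    have h3 : (N : ℝ) * P - ∑ p ∈ PP N, Real.log p ≤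
        ∑ p ∈ PP N, (N.factorial.factorization p : ℝ) * Real.log p := by
      rw [hP, Finset.mul_sum, ← Finset.sum_sub_distrib]
      refine Finset.sum_le_sum fun p hp => ?_
      rw [Finset.mem_filter] at hp
      have hp0 : (0 : ℝ) < p := by exact_mod_cast hp.2.pos
      have hlog : 0 ≤ Real.log p := Real.log_nonneg (by exact_mod_cast hp.2.one_lt.le)
      have h4 : N / p ≤ N.factorial.factorization p := by
        rw [Nat.factorization_factorial hp.2 (Nat.lt_succ_self (Nat.log p N))]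
        by_cases h5 : p ≤ N
        · have h6 : 1 ≤ Nat.log p N := by
            have := Nat.log_pos hp.2.one_lt h5
            omega
          have h7 : N / p = N / p ^ 1 := by rw [pow_one]
          rw [h7]
          exact Finset.single_le_sum (f := fun i => N / p ^ i) (fun i _ => Nat.zero_le _)
            (Finset.mem_Ico.2 ⟨le_rfl, by omega⟩)
        · rw [Nat.div_eq_of_lt (by omega)]; exact Nat.zero_le _
      have h5 : (N : ℝ) / p - 1 ≤ N.factorial.factorization p := by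
        have h6 : (N : ℝ) / p < ((N / p : ℕ) : ℝ) + 1 := by
          rw [← Nat.floor_div_eq_div (K := ℝ)]
          exact Nat.lt_floor_add_one _
        have h7 : ((N / p : ℕ) : ℝ) ≤ N.factorial.factorization p := by exact_mod_cast h4
        linarith
      calc (N : ℝ) * (Real.log p / p) - Real.log p = (N / p - 1) * Real.log p := by ring
        _ ≤ _ := mul_le_mul_of_nonneg_right h5 hlog
    linarith
  have h3 : (N : ℝ) * (P - 2) ≤ N * Real.log N := by linarith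
  have := le_of_mul_le_mul_left h3 hN'
  linarith

/-- A set of numbers in `[1,x]` lying in one class modulo `M` has at most `x/M+1` elements. -/
lemma card_class_le (x M : ℕ) (hM : 0 < M) (S : Finset ℕ) (hS : S ⊆ Icc 1 x)
    (hc : ∀ a ∈ S, ∀ b ∈ S, a % M = b % M) : (S.card : ℝ) ≤ (x : ℝ) / M + 1 := by
  have h1 : S.card ≤ (range (x / M + 1)).card := by
    refine Finset.card_le_card_of_injOn (fun m => m / M) ?_ ?_
    · intro m hm
      have := hS hm
      rw [mem_Icc] at this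
      simp only [coe_range, Set.mem_Iio]
      have := Nat.div_le_div_right (c := M) this.2
      omega
    · intro a ha b hb hab
      have h2 := hc a ha b hb
      simp only at hab
      rw [← Nat.div_add_mod a M, ← Nat.div_add_mod b M, hab, h2]
  rw [card_range] at h1
  have h2 : ((x / M : ℕ) : ℝ) ≤ (x : ℝ) / M := Nat.cast_div_le
  have h3 : (S.card : ℝ) ≤ ((x / M + 1 : ℕ) : ℝ) := by exact_mod_cast h1
  push_cast at h3
  linarith

/-- lower bound for the number of multiples in a shifted interval -/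
lemma card_dvd_ge (x Q j : ℕ) (hQ : 0 < Q) :
    (x : ℝ) / Q - 1 ≤ (((Icc 1 x).filter (fun m => Q ∣ m + j)).card : ℝ) := by
  have h1 : ((Icc 1 x).filter (fun m => Q ∣ m + j)).card =
      ((Ioc j (x + j)).filter (fun m => Q ∣ m)).card := by
    refine Finset.card_bij (fun m _ => m + j) ?_ ?_ ?_
    · intro m hm
      rw [mem_filter, mem_Icc] at hm
      rw [mem_filter, mem_Ioc]
      exact ⟨⟨by omega, by omega⟩, hm.2⟩
    · intro a _ b _ h
      exact Nat.add_right_cancel h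
    · intro b hb
      rw [mem_filter, mem_Ioc] at hb
      refine ⟨b - j, ?_, by omega⟩
      rw [mem_filter, mem_Icc]
      refine ⟨⟨by omega, by omega⟩, ?_⟩
      rw [Nat.sub_add_cancel (by omega)]
      exact hb.2
  have h2 : (Ioc 0 (x + j)).filter (fun m => Q ∣ m) ⊆
      (Ioc 0 j).filter (fun m => Q ∣ m) ∪ (Ioc j (x + j)).filter (fun m => Q ∣ m) := by
    intro m hm
    rw [mem_union, mem_filter, mem_filter, mem_Ioc, mem_Ioc]
    rw [mem_filter, mem_Ioc] at hm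
    by_cases h : m ≤ j
    · exact Or.inl ⟨⟨hm.1.1, h⟩, hm.2⟩
    · exact Or.inr ⟨⟨by omega, hm.1.2⟩, hm.2⟩
  have h3 := (Finset.card_le_card h2).trans (Finset.card_union_le _ _)
  rw [Nat.Ioc_filter_dvd_card_eq_div, Nat.Ioc_filter_dvd_card_eq_div] at h3
  rw [h1]
  have h4 : ((x + j : ℕ) : ℝ) / Q < (((x + j) / Q : ℕ) : ℝ) + 1 := by
    rw [← Nat.floor_div_eq_div (K := ℝ)]
    exact Nat.lt_floor_add_one _
  have h5 : ((j / Q : ℕ) : ℝ) ≤ (j : ℝ) / Q := Nat.cast_div_le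
  have h6 : (((x + j) / Q : ℕ) : ℝ) ≤ ((j / Q : ℕ) : ℝ) +
      (((Ioc j (x + j)).filter (fun m => Q ∣ m)).card : ℝ) := by exact_mod_cast h3
  push_cast at h4
  have h7 : ((x : ℝ) + j) / Q = x / Q + j / Q := by ring
  linarith

/-- the centred indicator -/
noncomputable def w (j Q m : ℕ) : ℝ := (if Q ∣ m + j then 1 else 0) - 1 / (Q : ℝ)

lemma sum_w_mul (x j j' Q Q' : ℕ) (hQ : 0 < Q) (hQ' : 0 < Q') :
    ∑ m ∈ Icc 1 x, w j Q m * w j' Q' m ≤
      (((Icc 1 x).filter (fun m => Q ∣ m + j ∧ Q' ∣ m + j')).card : ℝ) - (x : ℝ) / (Q * Q')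
        + 1 / Q + 1 / Q' := by
  have h1 : ∑ m ∈ Icc 1 x, w j Q m * w j' Q' m =
      (((Icc 1 x).filter (fun m => Q ∣ m + j ∧ Q' ∣ m + j')).card : ℝ)
      - (((Icc 1 x).filter (fun m => Q ∣ m + j)).card : ℝ) / Q'
      - (((Icc 1 x).filter (fun m => Q' ∣ m + j')).card : ℝ) / Q + (x : ℝ) / (Q * Q') := by
    have h2 : ∀ m, w j Q m * w j' Q' m = (if Q ∣ m + j ∧ Q' ∣ m + j' then (1 : ℝ) else 0)
        - (if Q ∣ m + j then (1 : ℝ) else 0) / Q' - (if Q' ∣ m + j' then (1 : ℝ) else 0) / Q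
        + 1 / (Q * Q') := by
      intro m
      unfold w
      by_cases h3 : Q ∣ m + j <;> by_cases h4 : Q' ∣ m + j' <;> simp [h3, h4] <;> ring
    simp_rw [h2]
    rw [Finset.sum_add_distrib, Finset.sum_sub_distrib, Finset.sum_sub_distrib,
      ← Finset.sum_div, ← Finset.sum_div, Finset.sum_boole, Finset.sum_boole, Finset.sum_boole,
      Finset.sum_const, Nat.card_Icc]
    simp only [Nat.add_sub_cancel, nsmul_eq_mul]
    ring
  rw [h1]
  have hq : (0 : ℝ) < Q := by exact_mod_cast hQ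
  have hq' : (0 : ℝ) < Q' := by exact_mod_cast hQ'
  have h3 := card_dvd_ge x Q j hQ
  have h4 := card_dvd_ge x Q' j' hQ'
  have h5 : ((x : ℝ) / Q - 1) / Q' ≤ (((Icc 1 x).filter (fun m => Q ∣ m + j)).card : ℝ) / Q' := by
    gcongr
  have h6 : ((x : ℝ) / Q' - 1) / Q ≤ (((Icc 1 x).filter (fun m => Q' ∣ m + j')).card : ℝ) / Q := by
    gcongr
  have h7 : ((x : ℝ) / Q - 1) / Q' = x / (Q * Q') - 1 / Q' := by
    field_simp
  have h8 : ((x : ℝ) / Q' - 1) / Q = x / (Q * Q') - 1 / Q := by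
    field_simp
  linarith

lemma sum_w_le (x j j' Q Q' : ℕ) (hQ : Q.Prime) (hQ' : Q'.Prime) :
    ∑ m ∈ Icc 1 x, w j Q m * w j' Q' m ≤
      2 + (if Q = Q' ∧ j % Q = j' % Q then (x : ℝ) / Q + 1 else 0) := by
  have h := sum_w_mul x j j' Q Q' hQ.pos hQ'.pos
  have hq : (2 : ℝ) ≤ Q := by exact_mod_cast hQ.two_le
  have hq' : (2 : ℝ) ≤ Q' := by exact_mod_cast hQ'.two_le
  have h1 : 1 / (Q : ℝ) ≤ 1 / 2 := one_div_le_one_div_of_le (by norm_num) hq
  have h2 : 1 / (Q' : ℝ) ≤ 1 / 2 := one_div_le_one_div_of_le (by norm_num) hq'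
  have h0 : 0 ≤ (x : ℝ) / (Q * Q') := by positivity
  by_cases hc : Q = Q' ∧ j % Q = j' % Q
  · rw [if_pos hc]
    have h3 : (((Icc 1 x).filter (fun m => Q ∣ m + j ∧ Q' ∣ m + j')).card : ℝ) ≤ x / Q + 1 := by
      refine card_class_le x Q hQ.pos _ (filter_subset _ _) ?_
      intro a ha b hb
      rw [mem_filter] at ha hb
      have h4 : a + j ≡ b + j [MOD Q] :=
        ((Nat.modEq_zero_iff_dvd).2 ha.2.1).trans ((Nat.modEq_zero_iff_dvd).2 hb.2.1).symm
      exact Nat.ModEq.add_right_cancel' j h4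
    linarith
  · rw [if_neg hc]
    by_cases hqq : Q = Q'
    · have h5 : ¬ (j % Q = j' % Q) := fun h => hc ⟨hqq, h⟩
      have h3 : (Icc 1 x).filter (fun m => Q ∣ m + j ∧ Q' ∣ m + j') = ∅ := by
        rw [Finset.filter_eq_empty_iff]
        rintro m - ⟨h6, h7⟩
        apply h5
        rw [← hqq] at h7
        have h8 : m + j ≡ m + j' [MOD Q] :=
          ((Nat.modEq_zero_iff_dvd).2 h6).trans ((Nat.modEq_zero_iff_dvd).2 h7).symm
        exact Nat.ModEq.add_left_cancel' m h8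
      rw [h3] at h
      simp only [card_empty, Nat.cast_zero] at h
      linarith
    · have h3 : (((Icc 1 x).filter (fun m => Q ∣ m + j ∧ Q' ∣ m + j')).card : ℝ) ≤
          x / ((Q * Q' : ℕ) : ℝ) + 1 := by
        refine card_class_le x (Q * Q') (Nat.mul_pos hQ.pos hQ'.pos) _ (filter_subset _ _) ?_
        intro a ha b hb
        rw [mem_filter] at ha hb
        have h4 : a + j ≡ b + j [MOD Q] :=
          ((Nat.modEq_zero_iff_dvd).2 ha.2.1).trans ((Nat.modEq_zero_iff_dvd).2 hb.2.1).symm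
        have h5 : a + j' ≡ b + j' [MOD Q'] :=
          ((Nat.modEq_zero_iff_dvd).2 ha.2.2).trans ((Nat.modEq_zero_iff_dvd).2 hb.2.2).symm
        have h6 := Nat.ModEq.add_right_cancel' j h4
        have h7 := Nat.ModEq.add_right_cancel' j' h5
        exact (Nat.modEq_and_modEq_iff_modEq_mul ((Nat.coprime_primes hQ hQ').2 hqq)).1 ⟨h6, h7⟩
      push_cast at h3
      linarith


lemma second_moment (x J : ℕ) (P : Finset ℕ) (hP : ∀ Q ∈ P, Q.Prime) :
    ∑ m ∈ Icc 1 x, (∑ j ∈ Icc 1 J, ∑ Q ∈ P, Real.log Q * w j Q m) ^ 2 ≤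
      2 * ((J : ℝ) * ∑ Q ∈ P, Real.log Q) ^ 2
      + (J : ℝ) * ∑ Q ∈ P, Real.log Q ^ 2 * ((x : ℝ) / Q + 1)
      + (J : ℝ) ^ 2 * ∑ Q ∈ P.filter (fun Q => Q ≤ J), Real.log Q ^ 2 * ((x : ℝ) / Q + 1) := by
  have hlog : ∀ Q ∈ P, 0 ≤ Real.log (Q : ℝ) := fun Q hQ =>
    Real.log_nonneg (by exact_mod_cast (hP Q hQ).one_lt.le)
  have h1 : ∀ m, (∑ j ∈ Icc 1 J, ∑ Q ∈ P, Real.log Q * w j Q m) ^ 2 =
      ∑ t ∈ Icc 1 J ×ˢ P, ∑ s ∈ Icc 1 J ×ˢ P,
        Real.log t.2 * Real.log s.2 * (w t.1 t.2 m * w s.1 s.2 m) := by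
    intro m
    rw [← Finset.sum_product', sq, Finset.sum_mul_sum]
    refine Finset.sum_congr rfl fun t _ => Finset.sum_congr rfl fun s _ => ?_
    ring
  simp_rw [h1]
  rw [Finset.sum_comm]
  have h2 : ∀ t ∈ Icc 1 J ×ˢ P, ∑ m ∈ Icc 1 x, ∑ s ∈ Icc 1 J ×ˢ P,
        Real.log t.2 * Real.log s.2 * (w t.1 t.2 m * w s.1 s.2 m) ≤
      ∑ s ∈ Icc 1 J ×ˢ P, (2 * (Real.log t.2 * Real.log s.2)
        + (if t = s then Real.log t.2 ^ 2 * ((x : ℝ) / t.2 + 1) else 0)
        + (if t.2 = s.2 then (if t.2 ≤ J then Real.log t.2 ^ 2 * ((x : ℝ) / t.2 + 1) else 0)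
            else 0)) := by
    intro t ht
    rw [Finset.sum_comm]
    refine Finset.sum_le_sum fun s hs => ?_
    rw [← Finset.mul_sum]
    rw [mem_product] at ht hs
    have ht2 := hP _ ht.2
    have hs2 := hP _ hs.2
    have hb := sum_w_le x t.1 s.1 t.2 s.2 ht2 hs2
    have hl1 := hlog _ ht.2
    have hl2 := hlog _ hs.2
    have hx : 0 ≤ (x : ℝ) / t.2 + 1 := by positivity
    have hb2 := mul_le_mul_of_nonneg_left hb (mul_nonneg hl1 hl2)
    refine hb2.trans ?_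
    have e1 : 0 ≤ (if t = s then Real.log (t.2 : ℝ) ^ 2 * ((x : ℝ) / t.2 + 1) else 0) := by
      split_ifs <;> positivity
    have e2 : 0 ≤ (if t.2 = s.2 then
        (if t.2 ≤ J then Real.log (t.2 : ℝ) ^ 2 * ((x : ℝ) / t.2 + 1) else 0) else 0) := by
      split_ifs <;> positivity
    by_cases hc : t.2 = s.2 ∧ t.1 % t.2 = s.1 % t.2
    · rw [if_pos hc]
      by_cases hts : t.1 = s.1
      · have hts' : t = s := Prod.ext hts hc.1
        rw [if_pos hts']
        rw [← hc.1] at e2 ⊢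
        nlinarith
      · have hJ : t.2 ≤ J := by
          have ht1 := mem_Icc.1 ht.1
          have hs1 := mem_Icc.1 hs.1
          have h3 : t.1 ≡ s.1 [MOD t.2] := hc.2
          rcases Nat.lt_or_gt_of_ne hts with h4 | h4
          · have h5 := (Nat.modEq_iff_dvd' h4.le).1 h3
            have := Nat.le_of_dvd (by omega) h5
            omega
          · have h5 := (Nat.modEq_iff_dvd' h4.le).1 h3.symm
            have := Nat.le_of_dvd (by omega) h5
            omega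
        rw [if_pos hc.1, if_pos hJ, ← hc.1]
        nlinarith
    · rw [if_neg hc]
      nlinarith
  refine (Finset.sum_le_sum h2).trans ?_
  simp_rw [Finset.sum_add_distrib]
  refine le_of_eq ?_
  have k0 : ∀ f : ℕ → ℝ, ∑ t ∈ Icc 1 J ×ˢ P, f t.2 = (J : ℝ) * ∑ Q ∈ P, f Q := by
    intro f
    rw [Finset.sum_product]
    simp only [Finset.sum_const, Nat.card_Icc, Nat.add_sub_cancel, nsmul_eq_mul]
  congr 1
  · congr 1
    · rw [← k0, sq, Finset.sum_mul_sum, Finset.mul_sum]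
      refine Finset.sum_congr rfl fun t _ => ?_
      rw [Finset.mul_sum]
    · rw [← k0]
      refine Finset.sum_congr rfl fun t ht => ?_
      rw [Finset.sum_ite_eq, if_pos ht]
  · rw [Finset.sum_filter, sq, mul_assoc, ← k0, Finset.mul_sum]
    refine Finset.sum_congr rfl fun t ht => ?_
    rw [k0 (fun q => if t.2 = q then (if t.2 ≤ J then Real.log t.2 ^ 2 * ((x : ℝ) / t.2 + 1)
      else 0) else 0)]
    rw [mem_product] at ht
    rw [Finset.sum_ite_eq, if_pos ht.2]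

/-- Second moment of the number of small prime factors in short intervals of constant length. -/
theorem variance_lemma : ∃ C : ℝ, 0 < C ∧ ∀ (d η : ℝ) (J : ℕ), 0 < d → d < 1 / 2 → 0 < η → 1 ≤ J →
    ∃ x₀ : ℕ, ∀ x : ℕ, x₀ ≤ x →
      (((Finset.Icc 1 x).filter (fun m : ℕ => (1 / 2 + η) * (J : ℝ) * Real.log x ≤
        ∑ j ∈ Finset.Icc 1 J, ∑ Q ∈ (Finset.Icc 1 x).filter
          (fun Q : ℕ => Q.Prime ∧ (Q : ℝ) ≤ (x : ℝ) ^ (1 / 2 - d) ∧ Q ∣ m + j),
          Real.log (Q : ℝ))).card : ℝ) ≤ C * (x : ℝ) / (η ^ 2 * (J : ℝ)) := by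
  refine ⟨1, one_pos, fun d η J hd hd2 hη hJ => ?_⟩
  obtain ⟨x₀, hx₀⟩ := exists_nat_ge (Real.exp (16 + 7 * (J : ℝ) ^ 2 + 2 / d))
  refine ⟨x₀, fun x hx => ?_⟩
  have hxr : Real.exp (16 + 7 * (J : ℝ) ^ 2 + 2 / d) ≤ x := hx₀.trans (by exact_mod_cast hx)
  have hx0 : (0 : ℝ) < x := (Real.exp_pos _).trans_le hxr
  set L := Real.log x with hL
  have hLge : 16 + 7 * (J : ℝ) ^ 2 + 2 / d ≤ L := by
    rw [hL, Real.le_log_iff_exp_le hx0]; exact hxr
  have hJ1 : (1 : ℝ) ≤ J := by exact_mod_cast hJ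
  have hd0 : 0 < 2 / d := by positivity
  have hJJ : (0:ℝ) ≤ (J : ℝ) ^ 2 := by positivity
  have hL16 : 16 ≤ L := by linarith
  have hL7 : 7 * (J : ℝ) ^ 2 ≤ L := by linarith
  have hLd : 2 ≤ d * L := by
    have : 2 / d ≤ L := by linarith
    rw [div_le_iff₀ hd] at this
    linarith
  have hx1 : (1 : ℝ) ≤ x := by
    have := Real.add_one_le_exp (16 + 7 * (J : ℝ) ^ 2 + 2 / d)
    linarith
  set Y := (x : ℝ) ^ (1 / 2 - d) with hY
  have hY1 : 1 ≤ Y := Real.one_le_rpow hx1 (by linarith)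
  have hYx : Y ≤ x := by
    calc Y ≤ (x : ℝ) ^ (1 : ℝ) := Real.rpow_le_rpow_of_exponent_le hx1 (by linarith)
      _ = x := Real.rpow_one _
  have hY2 : Y ^ 2 ≤ x := by
    calc Y ^ 2 = (x : ℝ) ^ ((1 / 2 - d) * 2) := by
          rw [hY, ← Real.rpow_natCast, ← Real.rpow_mul hx0.le]; norm_num
      _ ≤ (x : ℝ) ^ (1 : ℝ) := Real.rpow_le_rpow_of_exponent_le hx1 (by linarith)
      _ = x := Real.rpow_one _
  set N := ⌊Y⌋₊ with hN
  have hN1 : 1 ≤ N := Nat.le_floor (by exact_mod_cast hY1)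
  have hNY : (N : ℝ) ≤ Y := Nat.floor_le (by linarith)
  have hNx : N ≤ x := by exact_mod_cast hNY.trans hYx
  have hP : ∀ Q ∈ PP N, Q.Prime := fun Q hQ => (mem_filter.1 hQ).2
  set θ := ∑ Q ∈ PP N, Real.log (Q : ℝ) with hθ
  have hθ0 : 0 ≤ θ := Finset.sum_nonneg fun Q hQ =>
    Real.log_nonneg (by exact_mod_cast (hP Q hQ).one_lt.le)
  have hθY : θ ≤ 2 * Y := (theta_le N).trans (by linarith)
  set M := ∑ Q ∈ PP N, Real.log (Q : ℝ) / Q with hM
  have hlogY : Real.log Y = (1 / 2 - d) * L := by rw [hY, Real.log_rpow hx0]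
  have hMle : M ≤ (1 / 2 - d) * L + 2 := by
    have h1 := mertens_log N hN1
    have h2 : Real.log N ≤ Real.log Y := Real.log_le_log (by exact_mod_cast hN1) hNY
    rw [hlogY] at h2
    linarith
  have hM2 : M ≤ L / 2 := by nlinarith
  have hM0 : 0 ≤ M := Finset.sum_nonneg fun Q hQ =>
    div_nonneg (Real.log_nonneg (by exact_mod_cast (hP Q hQ).one_lt.le)) (Nat.cast_nonneg _)
  -- the first diagonal sum
  have hD1 : ∑ Q ∈ PP N, Real.log (Q : ℝ) ^ 2 * ((x : ℝ) / Q + 1) ≤ L * (x * M + θ) := by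
    rw [hM, hθ, Finset.mul_sum, ← Finset.sum_add_distrib, Finset.mul_sum]
    refine Finset.sum_le_sum fun Q hQ => ?_
    have hQ1 := hP Q hQ
    have hQx : (Q : ℝ) ≤ x := by
      have := (mem_Icc.1 (mem_filter.1 hQ).1).2
      exact_mod_cast this.trans hNx
    have hQ0 : (0 : ℝ) < Q := by exact_mod_cast hQ1.pos
    have hl : Real.log (Q : ℝ) ≤ L := Real.log_le_log hQ0 hQx
    have hl0 : 0 ≤ Real.log (Q : ℝ) := Real.log_nonneg (by exact_mod_cast hQ1.one_lt.le)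
    calc Real.log (Q : ℝ) ^ 2 * ((x : ℝ) / Q + 1)
        = Real.log (Q : ℝ) * (Real.log (Q : ℝ) * ((x : ℝ) / Q + 1)) := by ring
      _ ≤ L * (Real.log (Q : ℝ) * ((x : ℝ) / Q + 1)) := by gcongr
      _ = L * (x * (Real.log (Q : ℝ) / Q) + Real.log (Q : ℝ)) := by ring
  have hD2 : ∑ Q ∈ (PP N).filter (fun Q => Q ≤ J), Real.log (Q : ℝ) ^ 2 * ((x : ℝ) / Q + 1) ≤
      (J : ℝ) ^ 3 * (2 * (x : ℝ)) := by
    have h1 : ∀ Q ∈ (PP N).filter (fun Q => Q ≤ J),
        Real.log (Q : ℝ) ^ 2 * ((x : ℝ) / Q + 1) ≤ (J : ℝ) ^ 2 * (2 * (x : ℝ)) := by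
      intro Q hQ
      rw [mem_filter] at hQ
      have hQ1 := hP Q hQ.1
      have hQ0 : (1 : ℝ) ≤ Q := by exact_mod_cast hQ1.one_lt.le
      have hQJ : (Q : ℝ) ≤ J := by exact_mod_cast hQ.2
      have hl : Real.log (Q : ℝ) ≤ J := (Real.log_le_self (by linarith)).trans hQJ
      have hl0 : 0 ≤ Real.log (Q : ℝ) := Real.log_nonneg hQ0
      have h2 : (x : ℝ) / Q ≤ x := div_le_self hx0.le hQ0
      have h3 : (x : ℝ) / Q + 1 ≤ 2 * x := by linarith
      gcongr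
    have h2 : ((PP N).filter (fun Q => Q ≤ J)).card ≤ J := by
      calc ((PP N).filter (fun Q => Q ≤ J)).card ≤ (Icc 1 J).card := by
            refine Finset.card_le_card fun Q hQ => ?_
            rw [mem_filter] at hQ
            rw [mem_Icc]
            exact ⟨(hP Q hQ.1).one_lt.le, hQ.2⟩
        _ = J := by simp
    have h2' : (((PP N).filter (fun Q => Q ≤ J)).card : ℝ) ≤ J := by exact_mod_cast h2
    calc _ ≤ (((PP N).filter (fun Q => Q ≤ J)).card : ℝ) * (J ^ 2 * (2 * x)) := by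
          have := Finset.sum_le_card_nsmul _ _ _ h1
          rwa [nsmul_eq_mul] at this
      _ ≤ J * (J ^ 2 * (2 * x)) := by gcongr
      _ = _ := by ring
  have hsm := second_moment x J (PP N) hP
  have hE : ∑ m ∈ Icc 1 x, (∑ j ∈ Icc 1 J, ∑ Q ∈ PP N, Real.log Q * w j Q m) ^ 2 ≤
      (J : ℝ) * x * L ^ 2 := by
    refine hsm.trans ?_
    have a1 : 2 * ((J : ℝ) * θ) ^ 2 ≤ 8 * (J : ℝ) ^ 2 * x := by
      have : θ ^ 2 ≤ 4 * x := by nlinarith
      calc 2 * ((J : ℝ) * θ) ^ 2 = 2 * (J : ℝ) ^ 2 * θ ^ 2 := by ring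
        _ ≤ 2 * (J : ℝ) ^ 2 * (4 * x) := by gcongr
        _ = _ := by ring
    have a2 : (J : ℝ) * ∑ Q ∈ PP N, Real.log (Q : ℝ) ^ 2 * ((x : ℝ) / Q + 1) ≤
        J * (L * (x * (L / 2) + 2 * x)) := by
      have : (L : ℝ) * (x * M + θ) ≤ L * (x * (L / 2) + 2 * x) := by
        have h3 : θ ≤ 2 * x := by linarith
        gcongr
      have h4 := hD1.trans this
      gcongr
    have a3 : (J : ℝ) ^ 2 * ∑ Q ∈ (PP N).filter (fun Q => Q ≤ J),
        Real.log (Q : ℝ) ^ 2 * ((x : ℝ) / Q + 1) ≤ (J : ℝ) ^ 2 * (J ^ 3 * (2 * x)) := by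
      gcongr
    have a4 : 8 * (J : ℝ) ^ 2 * x + J * (L * (x * (L / 2) + 2 * x)) + (J : ℝ) ^ 2 * (J ^ 3 * (2 * x))
        = J * x * (8 * J + L ^ 2 / 2 + 2 * L + 2 * J ^ 4) := by ring
    have a5 : 8 * (J : ℝ) + L ^ 2 / 2 + 2 * L + 2 * J ^ 4 ≤ L ^ 2 := by
      have b1 : 49 * (J : ℝ) ^ 4 ≤ L ^ 2 := by
        have := mul_self_le_mul_self (by positivity) hL7
        nlinarith
      have b2 : (J : ℝ) ≤ J ^ 4 := by
        have : (1 : ℝ) ≤ J ^ 3 := one_le_pow₀ hJ1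
        nlinarith
      have b3 : 16 * L ≤ L ^ 2 := by nlinarith
      linarith
    have a6 : J * x * (8 * J + L ^ 2 / 2 + 2 * L + 2 * J ^ 4) ≤ J * x * L ^ 2 := by
      gcongr
    linarith
  -- identify the sum in the statement
  have hF : ∀ m, ∑ j ∈ Finset.Icc 1 J, ∑ Q ∈ (Finset.Icc 1 x).filter
          (fun Q : ℕ => Q.Prime ∧ (Q : ℝ) ≤ Y ∧ Q ∣ m + j), Real.log (Q : ℝ) =
      (∑ j ∈ Icc 1 J, ∑ Q ∈ PP N, Real.log Q * w j Q m) + J * M := by
    intro m
    have h1 : (J : ℝ) * M = ∑ j ∈ Icc 1 J, M := by simp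
    rw [h1, ← Finset.sum_add_distrib]
    refine Finset.sum_congr rfl fun j _ => ?_
    rw [hM, ← Finset.sum_add_distrib]
    have h2 : (Finset.Icc 1 x).filter (fun Q : ℕ => Q.Prime ∧ (Q : ℝ) ≤ Y ∧ Q ∣ m + j) =
        (PP N).filter (fun Q => Q ∣ m + j) := by
      ext Q
      rw [mem_filter, mem_filter, mem_filter, mem_Icc, mem_Icc]
      constructor
      · rintro ⟨⟨h3, h4⟩, h5, h6, h7⟩
        exact ⟨⟨⟨h3, Nat.le_floor h6⟩, h5⟩, h7⟩
      · rintro ⟨⟨⟨h3, h4⟩, h5⟩, h7⟩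
        refine ⟨⟨h3, h4.trans hNx⟩, h5, ?_, h7⟩
        exact (Nat.cast_le.2 h4).trans hNY
    rw [h2, Finset.sum_filter]
    refine Finset.sum_congr rfl fun Q _ => ?_
    unfold w
    by_cases h3 : Q ∣ m + j
    · simp only [h3, if_true]; ring
    · simp only [h3, if_false]; ring
  set S := (Finset.Icc 1 x).filter (fun m : ℕ => (1 / 2 + η) * (J : ℝ) * L ≤
    (∑ j ∈ Icc 1 J, ∑ Q ∈ PP N, Real.log Q * w j Q m) + J * M) with hS
  have hSsub : (Finset.Icc 1 x).filter (fun m : ℕ => (1 / 2 + η) * (J : ℝ) * L ≤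
        ∑ j ∈ Finset.Icc 1 J, ∑ Q ∈ (Finset.Icc 1 x).filter
          (fun Q : ℕ => Q.Prime ∧ (Q : ℝ) ≤ (x : ℝ) ^ (1 / 2 - d) ∧ Q ∣ m + j),
          Real.log (Q : ℝ)) ⊆ S := by
    intro m hm
    rw [mem_filter] at hm
    rw [hS, mem_filter]
    exact ⟨hm.1, le_of_le_of_eq hm.2 (hF m)⟩
  have hS1 : (S.card : ℝ) * (η * J * L) ^ 2 ≤ (J : ℝ) * x * L ^ 2 := by
    refine le_trans ?_ hE
    refine le_trans ?_ (Finset.sum_le_sum_of_subset_of_nonneg (filter_subset _ _)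
      (fun _ _ _ => sq_nonneg _) : ∑ m ∈ S, (∑ j ∈ Icc 1 J, ∑ Q ∈ PP N, Real.log Q * w j Q m) ^ 2 ≤ _)
    rw [← nsmul_eq_mul]
    refine Finset.card_nsmul_le_sum _ _ _ fun m hm => ?_
    rw [hS, mem_filter] at hm
    have h1 := hm.2
    have h2 : (J : ℝ) * M ≤ J * (L / 2) := by gcongr
    have h3 : η * J * L ≤ ∑ j ∈ Icc 1 J, ∑ Q ∈ PP N, Real.log Q * w j Q m := by nlinarith
    have h4 : 0 ≤ η * J * L := by positivity
    exact pow_le_pow_left₀ h4 h3 2
  rw [le_div_iff₀ (by positivity)]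
  have h5 : (S.card : ℝ) * (η ^ 2 * J) * (J * L ^ 2) ≤ 1 * x * (J * L ^ 2) := by
    calc _ = (S.card : ℝ) * (η * J * L) ^ 2 := by ring
      _ ≤ (J : ℝ) * x * L ^ 2 := hS1
      _ = _ := by ring
  have h6 := le_of_mul_le_mul_right h5 (by positivity)
  refine le_trans ?_ h6
  have h7 : (((Finset.Icc 1 x).filter (fun m : ℕ => (1 / 2 + η) * (J : ℝ) * L ≤
        ∑ j ∈ Finset.Icc 1 J, ∑ Q ∈ (Finset.Icc 1 x).filter
          (fun Q : ℕ => Q.Prime ∧ (Q : ℝ) ≤ (x : ℝ) ^ (1 / 2 - d) ∧ Q ∣ m + j),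
          Real.log (Q : ℝ))).card : ℝ) ≤ (S.card : ℝ) := Nat.cast_le.2 (Finset.card_le_card hSsub)
  exact mul_le_mul_of_nonneg_right h7 (by positivity)

end Pool.Agent.Helper601.JobB
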