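import Mathlib

set_option autoImplicit false

namespace Pool.Agent.Helper601.JobG

open Finset

/-! ## First Mertens theorem -/

/-- primes up to `N` -/
abbrev PP (N : ℕ) : Finset ℕ := (Finset.Icc 1 N).filter Nat.Prime

lemma log_factorial_eq (N : ℕ) :
    Real.log (N.factorial : ℝ) = ∑ p ∈ PP N, (N.factorial.factorization p : ℝ) * Real.log p := by
  rw [Real.log_nat_eq_sum_factorization, Finsupp.sum]
  have h1 : N.factorial.factorization.support ⊆ PP N := by
    intro p hp
    rw [Nat.support_factorization, Nat.mem_primeFactors] at hp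
    rw [Finset.mem_filter, Finset.mem_Icc]
    exact ⟨⟨hp.1.one_lt.le, (hp.1.dvd_factorial).1 hp.2.1⟩, hp.1⟩
  refine Finset.sum_subset h1 fun p _ hp => ?_
  rw [Finsupp.notMem_support_iff] at hp
  rw [hp]; simp

lemma sum_small_bound : ∃ C : ℝ, 0 ≤ C ∧ ∀ N : ℕ, ∑ p ∈ PP N, Real.log p / (p * (p - 1)) ≤ C := by
  have hs : Summable (fun n : ℕ => 4 / (n : ℝ) ^ (3 / 2 : ℝ)) := by
    have := Real.summable_nat_rpow_inv (p := (3 / 2 : ℝ)).2 (by norm_num)
    have h2 := this.mul_left 4
    exact h2.congr fun n => (div_eq_mul_inv _ _).symm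
  refine ⟨∑' n : ℕ, 4 / (n : ℝ) ^ (3 / 2 : ℝ), tsum_nonneg fun n => by positivity, fun N => ?_⟩
  refine le_trans ?_ (hs.sum_le_tsum (PP N) fun n _ => by positivity)
  refine Finset.sum_le_sum fun p hp => ?_
  rw [Finset.mem_filter] at hp
  have h2 : (2 : ℝ) ≤ p := by exact_mod_cast hp.2.two_le
  have hp0 : (0 : ℝ) < p := by linarith
  have hlog : Real.log p ≤ 2 * (p : ℝ) ^ (1 / 2 : ℝ) := by
    have := Real.log_le_rpow_div hp0.le (ε := 1 / 2) (by norm_num)
    linarith
  rw [div_le_div_iff₀ (by nlinarith) (by positivity)]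
  have h3 : (p : ℝ) ^ (1 / 2 : ℝ) * (p : ℝ) ^ (3 / 2 : ℝ) = p ^ 2 := by
    rw [← Real.rpow_add hp0]; norm_num
  have h4 : 0 < (p : ℝ) ^ (3 / 2 : ℝ) := by positivity
  calc Real.log p * (p : ℝ) ^ (3 / 2 : ℝ) ≤ 2 * (p : ℝ) ^ (1 / 2 : ℝ) * (p : ℝ) ^ (3 / 2 : ℝ) :=
        mul_le_mul_of_nonneg_right hlog h4.le
    _ = 2 * p ^ 2 := by rw [mul_assoc, h3]
    _ ≤ 4 * (p * (p - 1)) := by nlinarith

lemma theta_le (N : ℕ) : ∑ p ∈ PP N, Real.log p ≤ 2 * N := by
  have h := Chebyshev.theta_le_log4_mul_x (x := (N : ℝ)) (by positivity)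
  have h2 : Chebyshev.theta (N : ℝ) = ∑ p ∈ PP N, Real.log p := by
    rw [Chebyshev.theta, Nat.floor_natCast]
    rfl
  rw [h2] at h
  have h3 : Real.log 4 ≤ 2 := by
    have : Real.log 4 = 2 * Real.log 2 := by
      rw [show (4 : ℝ) = 2 ^ 2 by norm_num, Real.log_pow]; norm_num
    have := Real.log_two_lt_d9
    linarith
  have : (0 : ℝ) ≤ N := by positivity
  nlinarith

theorem mertens_log : ∃ C : ℝ, ∀ N : ℕ, 1 ≤ N →
    |∑ p ∈ (Finset.Icc 1 N).filter Nat.Prime, Real.log p / p - Real.log N| ≤ C := by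
  obtain ⟨C, hC0, hC⟩ := sum_small_bound
  refine ⟨C + 2, fun N hN => ?_⟩
  have hN' : (0 : ℝ) < N := by exact_mod_cast hN
  have hN1 : (1 : ℝ) ≤ N := by exact_mod_cast hN
  have hfac := log_factorial_eq N
  set P := ∑ p ∈ PP N, Real.log p / p with hP
  -- upper bound for the factorial
  have hup : Real.log (N.factorial : ℝ) ≤ N * Real.log N := by
    rw [← Real.log_pow]
    apply Real.log_le_log
    · exact_mod_cast N.factorial_pos
    · exact_mod_cast N.factorial_le_pow
  have hlo : N * Real.log N - N ≤ Real.log (N.factorial : ℝ) := by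
    have h1 := Stirling.le_log_factorial_stirling (n := N) (by omega)
    have h2 : 0 ≤ Real.log N := Real.log_nonneg hN1
    have h3 : 0 ≤ Real.log (2 * Real.pi) := Real.log_nonneg (by linarith [Real.pi_gt_three])
    linarith
  -- lower bound for valuations
  have h1 : (N : ℝ) * P - 2 * N ≤ Real.log (N.factorial : ℝ) := by
    rw [hfac]
    have h2 := theta_le N
    have h3 : (N : ℝ) * P - ∑ p ∈ PP N, Real.log p ≤
        ∑ p ∈ PP N, (N.factorial.factorization p : ℝ) * Real.log p := by
      rw [hP, Finset.mul_sum, ← Finset.sum_sub_distrib]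
      refine Finset.sum_le_sum fun p hp => ?_
      rw [Finset.mem_filter] at hp
      have hp0 : (0 : ℝ) < p := by exact_mod_cast hp.2.pos
      have hlog : 0 ≤ Real.log p := Real.log_nonneg (by exact_mod_cast hp.2.one_lt.le)
      have h4 : N / p ≤ N.factorial.factorization p := by
        rw [Nat.factorization_factorial hp.2 (Nat.lt_succ_self (Nat.log p N))]
        by_cases h5 : p ≤ N
        · have h6 : 1 ≤ Nat.log p N := by
            have := Nat.log_pos hp.2.one_lt h5
            omega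
          have h7 : N / p = N / p ^ 1 := by rw [pow_one]
          rw [h7]
          exact Finset.single_le_sum (f := fun i => N / p ^ i) (fun i _ => Nat.zero_le _)
            (Finset.mem_Ico.2 ⟨le_rfl, by omega⟩)
        · rw [Nat.div_eq_of_lt (by omega)]; exact Nat.zero_le _
      have h5 : (N : ℝ) / p - 1 ≤ N.factorial.factorization p := by
        have h6 : (N : ℝ) / p < ((N / p : ℕ) : ℝ) + 1 := by
          rw [← Nat.floor_div_eq_div (K := ℝ)]
          exact Nat.lt_floor_add_one _
        have h7 : ((N / p : ℕ) : ℝ) ≤ N.factorial.factorization p := by exact_mod_cast h4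
        linarith
      calc (N : ℝ) * (Real.log p / p) - Real.log p = (N / p - 1) * Real.log p := by ring
        _ ≤ _ := mul_le_mul_of_nonneg_right h5 hlog
    linarith
  -- upper bound for valuations
  have h2 : Real.log (N.factorial : ℝ) ≤ N * P + N * C := by
    rw [hfac]
    have h3 : ∑ p ∈ PP N, (N.factorial.factorization p : ℝ) * Real.log p ≤
        ∑ p ∈ PP N, ((N : ℝ) * (Real.log p / p) + N * (Real.log p / (p * (p - 1)))) := by
      refine Finset.sum_le_sum fun p hp => ?_
      rw [Finset.mem_filter] at hp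
      have h2' : (2 : ℝ) ≤ p := by exact_mod_cast hp.2.two_le
      have hlog : 0 ≤ Real.log p := Real.log_nonneg (by linarith)
      have h4 : (N.factorial.factorization p : ℝ) ≤ N / (p - 1) := by
        have h5 := Nat.factorization_factorial_le_div_pred hp.2 N
        have h6 : (N.factorial.factorization p : ℝ) ≤ ((N / (p - 1) : ℕ) : ℝ) := by exact_mod_cast h5
        refine h6.trans ?_
        have h7 : ((p - 1 : ℕ) : ℝ) = (p : ℝ) - 1 := by
          rw [Nat.cast_sub hp.2.one_lt.le]; norm_num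
        rw [← h7]
        exact Nat.cast_div_le
      have h8 : (N : ℝ) * (Real.log p / p) + N * (Real.log p / (p * (p - 1))) =
          N / (p - 1) * Real.log p := by
        have : (p : ℝ) ≠ 0 := by linarith
        have : (p : ℝ) - 1 ≠ 0 := by linarith
        field_simp
        ring
      rw [h8]
      exact mul_le_mul_of_nonneg_right h4 hlog
    refine h3.trans ?_
    rw [Finset.sum_add_distrib, ← Finset.mul_sum, ← Finset.mul_sum]
    have := hC N
    have := mul_le_mul_of_nonneg_left this hN'.le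
    linarith
  change |P - Real.log N| ≤ C + 2
  rw [abs_le]
  constructor
  · have h3 : (N : ℝ) * (Real.log N - 1) ≤ N * (P + C) := by linarith
    have := le_of_mul_le_mul_left h3 hN'
    linarith
  · have h3 : (N : ℝ) * (P - 2) ≤ N * Real.log N := by linarith
    have := le_of_mul_le_mul_left h3 hN'
    linarith

/-- Few integers `n ≤ x` have a large non-squarefree excess `log n - ∑_{q ∣ n} log q`. -/
theorem excess_count : ∃ C : ℝ, 0 < C ∧ ∀ (x : ℕ) (η : ℝ), 2 ≤ x → 0 < η →
    (((Finset.Icc 1 x).filter (fun n : ℕ =>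
      η * Real.log x ≤ Real.log n - ∑ q ∈ n.primeFactors, Real.log (q : ℝ))).card : ℝ) ≤
      C * (x : ℝ) / (η * Real.log x) := by
  obtain ⟨M, hM⟩ := mertens_log
  have hM0 : 0 ≤ M := (abs_nonneg _).trans (hM 1 le_rfl)
  refine ⟨M + 2, by linarith, fun x η hx hη => ?_⟩
  have hx1 : (1 : ℝ) < x := by exact_mod_cast hx
  have hlx : 0 < Real.log x := Real.log_pos hx1
  have hpos : 0 < η * Real.log x := mul_pos hη hlx
  rw [le_div_iff₀ hpos]
  set E : ℕ → ℝ := fun n => Real.log n - ∑ q ∈ n.primeFactors, Real.log (q : ℝ) with hE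
  have hE0 : ∀ n ∈ Finset.Icc 1 x, 0 ≤ E n := by
    intro n hn
    rw [Finset.mem_Icc] at hn
    have h1 : ∑ q ∈ n.primeFactors, Real.log (q : ℝ)
        = Real.log ((∏ q ∈ n.primeFactors, q : ℕ) : ℝ) := by
      rw [Nat.cast_prod, Real.log_prod]
      intro q hq
      have := (Nat.prime_of_mem_primeFactors hq).pos
      exact_mod_cast this.ne'
    have h2 : (∏ q ∈ n.primeFactors, q) ≤ n := Nat.le_of_dvd hn.1 (Nat.prod_primeFactors_dvd n)
    have h3 : 0 < ∏ q ∈ n.primeFactors, q :=
      Finset.prod_pos fun q hq => (Nat.prime_of_mem_primeFactors hq).pos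
    have h4 : Real.log ((∏ q ∈ n.primeFactors, q : ℕ) : ℝ) ≤ Real.log n :=
      Real.log_le_log (by exact_mod_cast h3) (by exact_mod_cast h2)
    simp only [hE]
    rw [h1]; linarith
  have hsum : ∑ n ∈ Finset.Icc 1 x, E n ≤ (M + 2) * x := by
    have h1 : ∑ n ∈ Finset.Icc 1 x, Real.log (n : ℝ) ≤ x * Real.log x := by
      calc ∑ n ∈ Finset.Icc 1 x, Real.log (n : ℝ)
          ≤ ∑ n ∈ Finset.Icc 1 x, Real.log (x : ℝ) := by
            refine Finset.sum_le_sum fun n hn => ?_
            rw [Finset.mem_Icc] at hn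
            exact Real.log_le_log (by exact_mod_cast hn.1) (by exact_mod_cast hn.2)
        _ = _ := by rw [Finset.sum_const, Nat.card_Icc]; simp
    have h2 : ∑ n ∈ Finset.Icc 1 x, ∑ q ∈ n.primeFactors, Real.log (q : ℝ)
        = ∑ q ∈ PP x, ((x / q : ℕ) : ℝ) * Real.log q := by
      have e1 : ∀ n ∈ Finset.Icc 1 x, ∑ q ∈ n.primeFactors, Real.log (q : ℝ)
          = ∑ q ∈ PP x, if q ∣ n then Real.log (q : ℝ) else 0 := by
        intro n hn
        rw [Finset.mem_Icc] at hn
        rw [← Finset.sum_filter]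
        refine Finset.sum_congr ?_ fun _ _ => rfl
        ext q
        rw [Nat.mem_primeFactors, Finset.mem_filter, Finset.mem_filter, Finset.mem_Icc]
        constructor
        · rintro ⟨a, b, c⟩
          exact ⟨⟨⟨a.one_lt.le, (Nat.le_of_dvd hn.1 b).trans hn.2⟩, a⟩, b⟩
        · rintro ⟨⟨_, a⟩, b⟩
          exact ⟨a, b, by omega⟩
      rw [Finset.sum_congr rfl e1, Finset.sum_comm]
      refine Finset.sum_congr rfl fun q _ => ?_
      rw [← Finset.sum_filter, Finset.sum_const, nsmul_eq_mul]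
      congr 2
      exact Nat.Ioc_filter_dvd_card_eq_div x q
    have h3 : (x : ℝ) * ∑ q ∈ PP x, Real.log q / q - ∑ q ∈ PP x, Real.log q
        ≤ ∑ q ∈ PP x, ((x / q : ℕ) : ℝ) * Real.log q := by
      rw [Finset.mul_sum, ← Finset.sum_sub_distrib]
      refine Finset.sum_le_sum fun q hq => ?_
      rw [Finset.mem_filter] at hq
      have hlog : 0 ≤ Real.log q := Real.log_nonneg (by exact_mod_cast hq.2.one_lt.le)
      have h6 : (x : ℝ) / q < ((x / q : ℕ) : ℝ) + 1 := by
        rw [← Nat.floor_div_eq_div (K := ℝ)]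
        exact Nat.lt_floor_add_one _
      calc (x : ℝ) * (Real.log q / q) - Real.log q = (x / q - 1) * Real.log q := by ring
        _ ≤ _ := mul_le_mul_of_nonneg_right (by linarith) hlog
    have h4 := theta_le x
    have h5 := abs_le.mp (hM x (by omega))
    have h6 : (x : ℝ) * (Real.log x - ∑ q ∈ PP x, Real.log q / q) ≤ x * M :=
      mul_le_mul_of_nonneg_left (by linarith [h5.1]) (by positivity)
    simp only [hE]
    rw [Finset.sum_sub_distrib, h2]
    linarith
  calc _ = ∑ n ∈ (Finset.Icc 1 x).filter (fun n : ℕ => η * Real.log x ≤ E n),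
          η * Real.log x := by rw [Finset.sum_const, nsmul_eq_mul]
    _ ≤ ∑ n ∈ (Finset.Icc 1 x).filter (fun n : ℕ => η * Real.log x ≤ E n), E n :=
        Finset.sum_le_sum fun n hn => (Finset.mem_filter.mp hn).2
    _ ≤ ∑ n ∈ Finset.Icc 1 x, E n :=
        Finset.sum_le_sum_of_subset_of_nonneg (Finset.filter_subset _ _) fun n hn _ => hE0 n hn
    _ ≤ (M + 2) * x := hsum

end Pool.Agent.Helper601.JobG
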