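import Mathlib

set_option autoImplicit false

namespace Pool.Agent.Helper601.JobH

open Finset

/-- First moment of prime divisors `Q ∈ (y₁, y₂]` of `p * u - j`, `p` prime `≤ x / u`, from
Brun-Titchmarsh (hypothesis `hBT`) and Mertens (hypothesis `hMert`). -/
theorem bt_first_moment (C : ℝ) (hC : 1 ≤ C)
    (hBT : ∀ (a q N : ℕ), 2 ≤ N → (q = 1 ∨ q.Prime) →
      (((range N).filter (fun k => (a + k * q).Prime)).card : ℝ) ≤ C * N / Real.log N)
    (hMert : ∃ M : ℝ, ∀ N : ℕ, 1 ≤ N →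
      |∑ p ∈ (Finset.Icc 1 N).filter Nat.Prime, Real.log p / p - Real.log N| ≤ M) :
    ∃ M : ℝ, 0 < M ∧ ∀ x u j y₁ y₂ : ℕ, 2 ≤ x → 1 ≤ u → 1 ≤ y₁ → y₁ ≤ y₂ →
      (x : ℝ) ^ (1 / 4 : ℝ) * ((u : ℝ) * y₂) ≤ x →
      (∀ Q : ℕ, Q.Prime → y₁ < Q → Q ∣ u → ¬ Q ∣ j) →
      ∑ Q ∈ (Finset.Ioc y₁ y₂).filter Nat.Prime, Real.log (Q : ℝ) *
        ((((Finset.Icc 1 (x / u)).filter (fun p : ℕ => p.Prime ∧ p * u ≡ j [MOD Q])).card : ℕ) : ℝ) ≤
      12 * C * ((x : ℝ) / ((u : ℝ) * Real.log x)) * (Real.log y₂ - Real.log y₁ + M) := by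
  obtain ⟨M, hM⟩ := hMert
  refine ⟨2 * |M| + 1, by positivity, fun x u j y₁ y₂ hx hu hy1 hy12 hxy hdiv => ?_⟩
  have hx1 : (1 : ℝ) < x := by exact_mod_cast hx
  have hx0 : (0 : ℝ) < x := by linarith
  have hlx : 0 < Real.log x := Real.log_pos hx1
  have hu0 : (0 : ℝ) < u := by exact_mod_cast hu
  have hC0 : 0 < C := by linarith
  have hone : (1 : ℝ) ≤ (x : ℝ) ^ (1 / 4 : ℝ) := Real.one_le_rpow hx1.le (by norm_num)
  have key : ∀ Q ∈ (Finset.Ioc y₁ y₂).filter Nat.Prime,
      ((((Finset.Icc 1 (x / u)).filter (fun p : ℕ => p.Prime ∧ p * u ≡ j [MOD Q])).card : ℕ) : ℝ)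
        ≤ 12 * C * ((x : ℝ) / ((u : ℝ) * Real.log x)) * (1 / (Q : ℝ)) := by
    intro Q hQ
    rw [Finset.mem_filter, Finset.mem_Ioc] at hQ
    obtain ⟨⟨hQ1, hQ2⟩, hQp⟩ := hQ
    have hQ0 : (0 : ℝ) < Q := by exact_mod_cast hQp.pos
    have hQy : (Q : ℝ) ≤ y₂ := by exact_mod_cast hQ2
    have hratio : (x : ℝ) ^ (1 / 4 : ℝ) ≤ x / (u * Q) := by
      rw [le_div_iff₀ (by positivity)]
      refine le_trans ?_ hxy
      exact mul_le_mul_of_nonneg_left (mul_le_mul_of_nonneg_left hQy hu0.le) (by positivity)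
    rcases ((Finset.Icc 1 (x / u)).filter
      (fun p : ℕ => p.Prime ∧ p * u ≡ j [MOD Q])).eq_empty_or_nonempty with h | ⟨p0, hp0⟩
    · rw [h]
      simp only [Finset.card_empty, Nat.cast_zero]
      positivity
    · have hp0' := (Finset.mem_filter.mp hp0).2.2
      have hnd : ¬ Q ∣ u := by
        intro h
        refine hdiv Q hQp hQ1 h ?_
        have h1 : Q ∣ p0 * u := Dvd.dvd.mul_left h p0
        exact (Nat.ModEq.dvd_iff hp0' (dvd_refl Q)).mp h1
      have hcop : Nat.gcd Q u = 1 := (Nat.Prime.coprime_iff_not_dvd hQp).mpr hnd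
      have hres : ∀ p ∈ (Finset.Icc 1 (x / u)).filter
          (fun p : ℕ => p.Prime ∧ p * u ≡ j [MOD Q]), p % Q = p0 % Q := by
        intro p hp
        have hp' := (Finset.mem_filter.mp hp).2.2
        have h1 : p * u ≡ p0 * u [MOD Q] := hp'.trans hp0'.symm
        exact Nat.ModEq.cancel_right_of_coprime hcop h1
      set N := x / u / Q + 2 with hN
      have hcard : ((Finset.Icc 1 (x / u)).filter
          (fun p : ℕ => p.Prime ∧ p * u ≡ j [MOD Q])).card
          ≤ ((range N).filter (fun k => (p0 % Q + k * Q).Prime)).card := by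
        refine Finset.card_le_card_of_injOn (fun p => p / Q) ?_ ?_
        · intro p hp
          have hp1 := Finset.mem_filter.mp hp
          have hp2 := Finset.mem_Icc.mp hp1.1
          simp only [Finset.coe_filter, Set.mem_ofPred_eq, Finset.mem_range]
          refine ⟨?_, ?_⟩
          · have := Nat.div_le_div_right (c := Q) hp2.2
            omega
          · rw [← hres p hp]
            have h3 : p % Q + p / Q * Q = p := by
              rw [mul_comm]; exact Nat.mod_add_div p Q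
            rw [h3]; exact hp1.2.1
        · intro p hp p' hp' h
          have h1 := hres p hp
          have h2 := hres p' hp'
          simp only at h
          rw [← Nat.mod_add_div p Q, ← Nat.mod_add_div p' Q, h1, h2, h]
      have hbt := hBT (p0 % Q) Q N (by rw [hN]; exact Nat.le_add_left 2 _) (Or.inr hQp)
      have hNr : (N : ℝ) = ((x / u / Q : ℕ) : ℝ) + 2 := by rw [hN]; push_cast; ring
      have hdd : x / u / Q = x / (u * Q) := Nat.div_div_eq_div_mul x u Q
      have hfl : ((x / (u * Q) : ℕ) : ℝ) ≤ (x : ℝ) / (u * Q) := by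
        have := Nat.cast_div_le (α := ℝ) (m := x) (n := u * Q)
        push_cast at this
        exact this
      have hfl2 : (x : ℝ) / (u * Q) < ((x / (u * Q) : ℕ) : ℝ) + 1 := by
        have h1 := Nat.lt_floor_add_one ((x : ℝ) / ((u * Q : ℕ) : ℝ))
        rw [Nat.floor_div_eq_div] at h1
        push_cast at h1 ⊢
        exact h1
      have hN1 : (N : ℝ) ≤ 3 * (x / (u * Q)) := by
        rw [hNr, hdd]
        have : (1 : ℝ) ≤ x / (u * Q) := hone.trans hratio
        linarith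
      have hN2 : (x : ℝ) ^ (1 / 4 : ℝ) ≤ N := by
        rw [hNr, hdd]; linarith
      have hlogN : 1 / 4 * Real.log x ≤ Real.log N := by
        have h1 := Real.log_le_log (by positivity) hN2
        rwa [Real.log_rpow hx0] at h1
      have hlogN0 : 0 < Real.log N := lt_of_lt_of_le (by positivity) hlogN
      calc ((((Finset.Icc 1 (x / u)).filter
            (fun p : ℕ => p.Prime ∧ p * u ≡ j [MOD Q])).card : ℕ) : ℝ)
          ≤ (((range N).filter (fun k => (p0 % Q + k * Q).Prime)).card : ℝ) := by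
            exact_mod_cast hcard
        _ ≤ C * N / Real.log N := hbt
        _ ≤ C * (3 * (x / (u * Q))) / (1 / 4 * Real.log x) := by
            refine div_le_div₀ (by positivity) ?_ (by positivity) hlogN
            exact mul_le_mul_of_nonneg_left hN1 hC0.le
        _ = 12 * C * ((x : ℝ) / ((u : ℝ) * Real.log x)) * (1 / (Q : ℝ)) := by
            field_simp
            ring
  have hsum : ∑ Q ∈ (Finset.Ioc y₁ y₂).filter Nat.Prime, Real.log (Q : ℝ) * (1 / (Q : ℝ))
      ≤ Real.log y₂ - Real.log y₁ + (2 * |M| + 1) := by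
    have h1 := abs_le.mp (hM y₁ hy1)
    have h2 := abs_le.mp (hM y₂ (hy1.trans hy12))
    have h3 : (Finset.Icc 1 y₂).filter Nat.Prime
        = (Finset.Icc 1 y₁).filter Nat.Prime ∪ (Finset.Ioc y₁ y₂).filter Nat.Prime := by
      ext p
      simp only [Finset.mem_union, Finset.mem_filter, Finset.mem_Icc, Finset.mem_Ioc]
      constructor
      · rintro ⟨⟨a, b⟩, c⟩
        by_cases h : p ≤ y₁
        · exact Or.inl ⟨⟨a, h⟩, c⟩
        · exact Or.inr ⟨⟨by omega, b⟩, c⟩
      · rintro (⟨⟨a, b⟩, c⟩ | ⟨⟨a, b⟩, c⟩)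
        · exact ⟨⟨a, by omega⟩, c⟩
        · exact ⟨⟨by omega, b⟩, c⟩
    have h4 : Disjoint ((Finset.Icc 1 y₁).filter Nat.Prime)
        ((Finset.Ioc y₁ y₂).filter Nat.Prime) := by
      rw [Finset.disjoint_left]
      intro p hp hp'
      simp only [Finset.mem_filter, Finset.mem_Icc, Finset.mem_Ioc] at hp hp'
      omega
    have h5 : ∑ p ∈ (Finset.Icc 1 y₂).filter Nat.Prime, Real.log p / p
        = ∑ p ∈ (Finset.Icc 1 y₁).filter Nat.Prime, Real.log p / p
          + ∑ p ∈ (Finset.Ioc y₁ y₂).filter Nat.Prime, Real.log p / p := by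
      rw [h3, Finset.sum_union h4]
    have h6 : ∑ Q ∈ (Finset.Ioc y₁ y₂).filter Nat.Prime, Real.log (Q : ℝ) * (1 / (Q : ℝ))
        = ∑ p ∈ (Finset.Ioc y₁ y₂).filter Nat.Prime, Real.log p / p := by
      refine Finset.sum_congr rfl fun Q _ => ?_
      ring
    rw [h6]
    have := le_abs_self M
    linarith [h1.1, h1.2, h2.1, h2.2]
  calc ∑ Q ∈ (Finset.Ioc y₁ y₂).filter Nat.Prime, Real.log (Q : ℝ) *
        ((((Finset.Icc 1 (x / u)).filter
          (fun p : ℕ => p.Prime ∧ p * u ≡ j [MOD Q])).card : ℕ) : ℝ)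
      ≤ ∑ Q ∈ (Finset.Ioc y₁ y₂).filter Nat.Prime, Real.log (Q : ℝ) *
        (12 * C * ((x : ℝ) / ((u : ℝ) * Real.log x)) * (1 / (Q : ℝ))) := by
        refine Finset.sum_le_sum fun Q hQ => ?_
        refine mul_le_mul_of_nonneg_left (key Q hQ) ?_
        have := (Finset.mem_filter.mp hQ).2
        exact Real.log_nonneg (by exact_mod_cast this.one_lt.le)
    _ = 12 * C * ((x : ℝ) / ((u : ℝ) * Real.log x)) *
        ∑ Q ∈ (Finset.Ioc y₁ y₂).filter Nat.Prime, Real.log (Q : ℝ) * (1 / (Q : ℝ)) := by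
        rw [Finset.mul_sum]
        refine Finset.sum_congr rfl fun Q _ => ?_
        ring
    _ ≤ _ := mul_le_mul_of_nonneg_left hsum (by positivity)

end Pool.Agent.Helper601.JobH
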