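import Mathlib

set_option autoImplicit false

namespace Pool.Agent.Helper601.JobI

lemma gap_key (N G : ℕ) (hG : 1 ≤ G) (Q : ℕ → Prop)
    (inst : DecidablePred (fun p : ℕ => p.Prime ∧ Q p))
    (hQ : ∀ p q : ℕ, Q p → Q q → p.Prime → q.Prime → p < q → G < q - p + 1) :
    ((Finset.Icc 1 N).filter (fun p : ℕ => p.Prime ∧ Q p)).card ≤ N / G + 1 := by
  rw [← Finset.card_range (N / G + 1)]
  apply Finset.card_le_card_of_injOn (fun p => p / G)
  · intro p hp
    simp only [Finset.coe_filter, Finset.mem_Icc, Set.mem_ofPred_eq] at hp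
    simp only [Finset.coe_range, Set.mem_Iio]
    exact Nat.lt_succ_of_le (Nat.div_le_div_right hp.1.2)
  · intro p hp q hq hpq
    simp only [Finset.coe_filter, Finset.mem_Icc, Set.mem_ofPred_eq] at hp hq
    simp only at hpq
    have h1 := Nat.div_add_mod p G
    have h2 := Nat.div_add_mod q G
    have h3 := Nat.mod_lt p (show 0 < G by omega)
    have h4 := Nat.mod_lt q (show 0 < G by omega)
    rw [hpq] at h1
    rcases lt_trichotomy p q with h | h | h
    · have := hQ p q hp.2.2 hq.2.2 hp.2.1 hq.2.1 h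
      omega
    · exact h
    · have := hQ q p hq.2.2 hp.2.2 hq.2.1 hp.2.1 h
      omega

open Classical in
/-- Few primes have a gap of length at least `G` on one of their sides. -/
theorem gap_count (N G : ℕ) (hG : 1 ≤ G) :
    ((Finset.Icc 1 N).filter (fun p : ℕ => p.Prime ∧
      ((∀ r : ℕ, p < r → r ≤ p + G → ¬ r.Prime) ∨
       (∀ r : ℕ, r < p → p ≤ r + G → ¬ r.Prime)))).card ≤ 2 * (N / G + 1) := by
  have h3 : (Finset.Icc 1 N).filter (fun p : ℕ => p.Prime ∧
      ((∀ r : ℕ, p < r → r ≤ p + G → ¬ r.Prime) ∨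
       (∀ r : ℕ, r < p → p ≤ r + G → ¬ r.Prime))) ⊆
      (Finset.Icc 1 N).filter (fun p : ℕ => p.Prime ∧
        (∀ r : ℕ, p < r → r ≤ p + G → ¬ r.Prime)) ∪
      (Finset.Icc 1 N).filter (fun p : ℕ => p.Prime ∧
        (∀ r : ℕ, r < p → p ≤ r + G → ¬ r.Prime)) := by
    intro p hp
    rw [Finset.mem_filter] at hp
    rw [Finset.mem_union, Finset.mem_filter, Finset.mem_filter]
    rcases hp.2.2 with h | h
    · exact Or.inl ⟨hp.1, hp.2.1, h⟩
    · exact Or.inr ⟨hp.1, hp.2.1, h⟩
  have h1 := gap_key N G hG (fun p => ∀ r : ℕ, p < r → r ≤ p + G → ¬ r.Prime)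
  have h2 := gap_key N G hG (fun p => ∀ r : ℕ, r < p → p ≤ r + G → ¬ r.Prime)
  refine (Finset.card_le_card h3).trans ((Finset.card_union_le _ _).trans ?_)
  rw [two_mul]
  apply add_le_add
  · apply h1
    intro p q hp _ _ hq hlt
    by_contra hcon
    exact hp q hlt (by omega) hq
  · apply h2
    intro p q _ hq hp _ hlt
    by_contra hcon
    exact hq p hlt (by omega) hp

lemma val_one (a p : ℕ) (hp : p.Prime) (h1 : a < 2 * p) (h2 : p ≤ a) :
    padicValNat p a.factorial = 1 := by
  have := Fact.mk hp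
  have hlog : Nat.log p a < 2 := by
    apply Nat.log_lt_of_lt_pow (by have := hp.pos; omega)
    have := hp.two_le
    nlinarith
  rw [padicValNat_factorial hlog]
  have e : Finset.Ico 1 2 = {1} := rfl
  rw [e, Finset.sum_singleton, pow_one]
  exact Nat.div_eq_of_lt_le (by omega) (by omega)

lemma dvd_of_square (m b y y' a p : ℕ) (hp : p.Prime) (h1 : a < 2 * p) (h2 : p ≤ a)
    (hbm : b ≤ m) (hy : y' ≤ y)
    (hsq : IsSquare (m.factorial * b.factorial * y.factorial * y'.factorial * a.factorial)) :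
    p ∣ (b + 1).ascFactorial (m - b) * (y' + 1).ascFactorial (y - y') := by
  by_contra hnd
  have := Fact.mk hp
  have e1 : b.factorial * (b + 1).ascFactorial (m - b) = m.factorial := by
    rw [Nat.factorial_mul_ascFactorial]; congr 1; omega
  have e2 : y'.factorial * (y' + 1).ascFactorial (y - y') = y.factorial := by
    rw [Nat.factorial_mul_ascFactorial]; congr 1; omega
  set D := (b + 1).ascFactorial (m - b) * (y' + 1).ascFactorial (y - y') with hD
  have e3 : m.factorial * b.factorial * y.factorial * y'.factorial * a.factorial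
      = (b.factorial * y'.factorial) * (b.factorial * y'.factorial) * D * a.factorial := by
    rw [← e1, ← e2, hD]; ring
  obtain ⟨r, hr⟩ := hsq
  rw [e3] at hr
  have hD0 : D ≠ 0 := fun h => hnd (by rw [h]; exact dvd_zero p)
  have hB0 : b.factorial * y'.factorial ≠ 0 :=
    mul_ne_zero (Nat.factorial_ne_zero _) (Nat.factorial_ne_zero _)
  have ha0 : a.factorial ≠ 0 := Nat.factorial_ne_zero _
  have hr0 : r ≠ 0 := by
    rintro rfl
    have : (b.factorial * y'.factorial) * (b.factorial * y'.factorial) * D * a.factorial ≠ 0 :=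
      mul_ne_zero (mul_ne_zero (mul_ne_zero hB0 hB0) hD0) ha0
    exact this (by rw [hr])
  have h3 := congrArg (padicValNat p) hr
  rw [padicValNat.mul (mul_ne_zero (mul_ne_zero hB0 hB0) hD0) ha0,
    padicValNat.mul (mul_ne_zero hB0 hB0) hD0, padicValNat.mul hB0 hB0, padicValNat.mul hr0 hr0,
    val_one a p hp h1 h2, padicValNat.eq_zero_of_not_dvd hnd] at h3
  omega

/-- The lowest argument of a square product of factorials is small: `a ≤ C (t + s) log x`. -/
theorem a_bound
    (hth : ∃ c : ℝ, 0 < c ∧ ∃ A : ℕ, ∀ a : ℕ, A ≤ a →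
      c * (a : ℝ) ≤ Chebyshev.theta (a : ℝ) - Chebyshev.theta ((a : ℝ) / 2)) :
    ∃ C : ℝ, 0 < C ∧ ∀ x m b y y' a : ℕ, 2 ≤ x → m ≤ x → a ≤ y' → y' ≤ y → y ≤ b → b < m →
      IsSquare (m.factorial * b.factorial * y.factorial * y'.factorial * a.factorial) →
      (a : ℝ) ≤ C * (((m : ℝ) - b) + ((y : ℝ) - y')) * Real.log x := by
  obtain ⟨c, hc, A, hA⟩ := hth
  have hl2 : 0 < Real.log 2 := Real.log_pos (by norm_num)
  refine ⟨1 / c + (A : ℝ) / Real.log 2, by positivity, ?_⟩
  intro x m b y y' a hx hm hay hyy hyb hbm hsq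
  have hbmR : (b : ℝ) + 1 ≤ (m : ℝ) := by exact_mod_cast hbm
  have hyyR : (y' : ℝ) ≤ (y : ℝ) := by exact_mod_cast hyy
  have hxR : (2 : ℝ) ≤ (x : ℝ) := by exact_mod_cast hx
  have hlx : Real.log 2 ≤ Real.log x := Real.log_le_log (by norm_num) hxR
  set T : ℝ := ((m : ℝ) - b) + ((y : ℝ) - y') with hT
  have hT1 : 1 ≤ T := by rw [hT]; linarith
  have hTl : 0 ≤ T * Real.log x := mul_nonneg (by linarith) (by linarith)
  have hAl : 0 ≤ (A : ℝ) / Real.log 2 := by positivity
  have hci : 0 ≤ 1 / c := by positivity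
  by_cases hAa : A ≤ a
  · have h1 := hA a hAa
    set P := (Finset.Ioc (a / 2) a).filter Nat.Prime with hP
    have hdiff : Chebyshev.theta (a : ℝ) - Chebyshev.theta ((a : ℝ) / 2)
        = ∑ p ∈ P, Real.log p := by
      unfold Chebyshev.theta
      have hf2 : ⌊(a : ℝ) / 2⌋₊ = a / 2 := by
        rw [Nat.floor_div_ofNat, Nat.floor_natCast]
      rw [Nat.floor_natCast, hf2]
      have hsplit : (Finset.Ioc 0 a).filter Nat.Prime
          = (Finset.Ioc 0 (a / 2)).filter Nat.Prime ∪ P := by
        rw [hP, ← Finset.filter_union, Finset.Ioc_union_Ioc_eq_Ioc (Nat.zero_le _)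
          (Nat.div_le_self a 2)]
      have hdisj : Disjoint ((Finset.Ioc 0 (a / 2)).filter Nat.Prime) P := by
        rw [hP]
        apply Finset.disjoint_filter_filter
        rw [Finset.disjoint_left]
        intro u hu hv
        rw [Finset.mem_Ioc] at hu hv
        omega
      rw [hsplit, Finset.sum_union hdisj]
      ring
    rw [hdiff] at h1
    set D := (b + 1).ascFactorial (m - b) * (y' + 1).ascFactorial (y - y') with hD
    have hdvd : ∏ p ∈ P, p ∣ D := by
      apply Finset.prod_primes_dvd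
      · intro p hp
        rw [hP, Finset.mem_filter] at hp
        exact hp.2.prime
      · intro p hp
        rw [hP, Finset.mem_filter, Finset.mem_Ioc] at hp
        exact dvd_of_square m b y y' a p hp.2 (by omega) hp.1.2 hbm.le hyy hsq
    have hDpos : 0 < D := Nat.mul_pos (Nat.ascFactorial_pos _ _) (Nat.ascFactorial_pos _ _)
    have hDle : D ≤ x ^ (m - b) * x ^ (y - y') := by
      apply Nat.mul_le_mul
      · refine (Nat.ascFactorial_le_pow_add b (m - b)).trans ?_
        apply Nat.pow_le_pow_left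
        omega
      · refine (Nat.ascFactorial_le_pow_add y' (y - y')).trans ?_
        apply Nat.pow_le_pow_left
        omega
    have hprod : ∏ p ∈ P, p ≤ x ^ (m - b) * x ^ (y - y') :=
      (Nat.le_of_dvd hDpos hdvd).trans hDle
    have hlog : ∑ p ∈ P, Real.log p ≤ T * Real.log x := by
      have hpos : ∀ p ∈ P, (p : ℝ) ≠ 0 := by
        intro p hp
        rw [hP, Finset.mem_filter] at hp
        exact_mod_cast hp.2.ne_zero
      rw [← Real.log_prod hpos]
      have hpp : (0 : ℝ) < ∏ p ∈ P, (p : ℝ) := by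
        apply Finset.prod_pos
        intro p hp
        rw [hP, Finset.mem_filter] at hp
        exact_mod_cast hp.2.pos
      have h2 : (∏ p ∈ P, (p : ℝ)) ≤ (x : ℝ) ^ ((m - b) + (y - y')) := by
        rw [pow_add]
        have h5 : ((∏ p ∈ P, p : ℕ) : ℝ) ≤ ((x ^ (m - b) * x ^ (y - y') : ℕ) : ℝ) :=
          Nat.cast_le.2 hprod
        rw [Nat.cast_prod, Nat.cast_mul, Nat.cast_pow, Nat.cast_pow] at h5
        exact h5
      refine (Real.log_le_log hpp h2).trans ?_
      rw [Real.log_pow]
      push_cast [Nat.cast_sub hbm.le, Nat.cast_sub hyy]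
      rfl
    have h3 : c * (a : ℝ) ≤ T * Real.log x := h1.trans hlog
    have h4 : (a : ℝ) ≤ 1 / c * (T * Real.log x) := by
      rw [one_div, inv_mul_eq_div, le_div_iff₀ hc]
      linarith
    calc (a : ℝ) ≤ 1 / c * (T * Real.log x) := h4
      _ ≤ (1 / c + (A : ℝ) / Real.log 2) * (T * Real.log x) :=
          mul_le_mul_of_nonneg_right (by linarith) hTl
      _ = _ := by ring
  · have h1 : (a : ℝ) ≤ (A : ℝ) := by exact_mod_cast (not_le.1 hAa).le
    have h2 : (A : ℝ) ≤ (A : ℝ) / Real.log 2 * (T * Real.log x) := by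
      have h3 : Real.log 2 ≤ T * Real.log x := by nlinarith
      calc (A : ℝ) = (A : ℝ) / Real.log 2 * Real.log 2 := by field_simp
        _ ≤ _ := mul_le_mul_of_nonneg_left h3 hAl
    calc (a : ℝ) ≤ (A : ℝ) / Real.log 2 * (T * Real.log x) := h1.trans h2
      _ ≤ (1 / c + (A : ℝ) / Real.log 2) * (T * Real.log x) :=
          mul_le_mul_of_nonneg_right (by linarith) hTl
      _ = _ := by ring

end Pool.Agent.Helper601.JobI
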