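import Mathlib
import Pool.Agent.Helper601.PartA1

set_option autoImplicit false

namespace Pool.Agent.Helper601

open Finset

theorem prime_count_dyadic (e : ℝ) (he : 0 < e) (he1 : e < 1) : ∃ x₀ : ℕ, 2 ≤ x₀ ∧
    ∀ x u : ℕ, x₀ ≤ x → 1 ≤ u → (u : ℝ) ≤ (x : ℝ) ^ e →
    (x : ℝ) / (5 * u * Real.log x) ≤ ((PI (x / (2 * u)) (x / u)).card : ℝ) := by
  obtain ⟨x₁, hx₁⟩ := pnt_count (1 / 3) (by norm_num)
  obtain ⟨x₂, hx₂, hcon⟩ := exists_const_le (1 - e) ((x₁ : ℝ) + 10) (by linarith)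
  refine ⟨x₂, hx₂, ?_⟩
  intro x u hx hu hue
  have hx2 : 2 ≤ x := by omega
  have hx' : (2 : ℝ) ≤ x := by exact_mod_cast hx2
  have hx0 : (0 : ℝ) < x := by linarith
  have hu0 : (0 : ℝ) < u := by exact_mod_cast hu
  have hlogx : 0 < Real.log x := Real.log_pos (by linarith)
  have hxu : (x₁ : ℝ) + 10 ≤ (x : ℝ) / u := by
    rw [le_div_iff₀ hu0]
    calc ((x₁ : ℝ) + 10) * u ≤ (x : ℝ) ^ (1 - e) * (x : ℝ) ^ e := by
          apply mul_le_mul (hcon x hx) hue hu0.le (by positivity)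
      _ = x := by rw [← Real.rpow_add hx0]; simp
  have hx₁0 : (0 : ℝ) ≤ x₁ := Nat.cast_nonneg _
  have hB : (x : ℝ) / u < ((x / u : ℕ) : ℝ) + 1 := by
    rw [← Nat.floor_div_eq_div (K := ℝ)]
    exact Nat.lt_floor_add_one _
  have hA : ((x / (2 * u) : ℕ) : ℝ) ≤ (x : ℝ) / u / 2 := by
    have h1 : ((x / (2 * u) : ℕ) : ℝ) ≤ (x : ℝ) / ((2 * u : ℕ) : ℝ) := Nat.cast_div_le
    have h2 : (x : ℝ) / ((2 * u : ℕ) : ℝ) = (x : ℝ) / u / 2 := by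
      push_cast
      field_simp
    rwa [h2] at h1
  have hB2 : ((x / u : ℕ) : ℝ) ≤ x := by exact_mod_cast Nat.div_le_self x u
  have h3 := hx₁ (x / (2 * u)) (x / u) (by
    have : (x₁ : ℝ) ≤ ((x / u : ℕ) : ℝ) := by linarith
    exact_mod_cast this) (by linarith)
  have hBpos : (0 : ℝ) < ((x / u : ℕ) : ℝ) := by linarith
  have h4 : Real.log ((x / u : ℕ) : ℝ) ≤ Real.log x := Real.log_le_log hBpos hB2
  have h5 : (x : ℝ) / u / 5 ≤ ((PI (x / (2 * u)) (x / u)).card : ℝ) * Real.log x := by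
    have h6 : (0 : ℝ) ≤ ((PI (x / (2 * u)) (x / u)).card : ℝ) := Nat.cast_nonneg _
    have h7 := mul_le_mul_of_nonneg_left h4 h6
    linarith
  have h8 : (x : ℝ) / (5 * u * Real.log x) = (x : ℝ) / u / 5 / Real.log x := by
    field_simp
  rw [h8, div_le_iff₀ hlogx]
  exact h5

/-- the pairs `(u, p)` with `p` prime, `x / (2 u) < p ≤ x / u` -/
def pairSet (U : Finset ℕ) (x : ℕ) : Finset (Σ _ : ℕ, ℕ) :=
  U.sigma (fun u => PI (x / (2 * u)) (x / u))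

theorem mem_pairSet {U : Finset ℕ} {x : ℕ} {q : Σ _ : ℕ, ℕ} :
    q ∈ pairSet U x ↔ q.1 ∈ U ∧ (x / (2 * q.1) < q.2 ∧ q.2 ≤ x / q.1) ∧ q.2.Prime := by
  rw [pairSet, Finset.mem_sigma, Finset.mem_filter, Finset.mem_Ioc]

theorem pairSet_bounds {U : Finset ℕ} {x : ℕ} {q : Σ _ : ℕ, ℕ} (hU : ∀ u ∈ U, 1 ≤ u)
    (hq : q ∈ pairSet U x) : q.2 * q.1 ≤ x ∧ x < q.2 * (2 * q.1) := by
  rw [mem_pairSet] at hq
  obtain ⟨h1, ⟨h2, h3⟩, h4⟩ := hq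
  have h5 := hU _ h1
  constructor
  · rwa [Nat.le_div_iff_mul_le (by omega)] at h3
  · rwa [Nat.div_lt_iff_lt_mul (by omega)] at h2

theorem pairSet_injOn (U : Finset ℕ) (x Y : ℕ) (hU : ∀ u ∈ U, 1 ≤ u ∧ u ≤ Y)
    (hY : 2 * Y * Y ≤ x) :
    Set.InjOn (fun q : Σ _ : ℕ, ℕ => q.2 * q.1) (pairSet U x : Set (Σ _ : ℕ, ℕ)) := by
  have hlarge : ∀ q ∈ pairSet U x, Y < q.2 := by
    intro q hq
    have h1 := (pairSet_bounds (fun u hu => (hU u hu).1) hq).2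
    have h2 := (hU _ (mem_pairSet.1 hq).1).2
    by_contra hc
    push Not at hc
    have : q.2 * (2 * q.1) ≤ Y * (2 * Y) := Nat.mul_le_mul hc (by omega)
    nlinarith
  rintro ⟨u, p⟩ hq ⟨u', p'⟩ hq' heq
  simp only at heq
  have hq1 : (⟨u, p⟩ : Σ _ : ℕ, ℕ) ∈ pairSet U x := hq
  have hq1' : (⟨u', p'⟩ : Σ _ : ℕ, ℕ) ∈ pairSet U x := hq'
  have hl := hlarge _ hq1
  have hl' := hlarge _ hq1'
  have hm := mem_pairSet.1 hq1
  have hm' := mem_pairSet.1 hq1'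
  simp only at hl hl' hm hm'
  have hu' := hU _ hm'.1
  have hpp : p = p' := by
    by_contra hne
    have h1 : p ∣ p' * u' := by rw [← heq]; exact dvd_mul_right _ _
    rcases hm.2.2.dvd_mul.1 h1 with h2 | h2
    · exact hne ((Nat.prime_dvd_prime_iff_eq hm.2.2 hm'.2.2).1 h2)
    · have := Nat.le_of_dvd (by omega) h2
      omega
  subst hpp
  have hp0 : 0 < p := hm.2.2.pos
  have : u = u' := Nat.eq_of_mul_eq_mul_left hp0 heq
  subst this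
  rfl

theorem pairSet_card_ge (e : ℝ) (he : 0 < e) (he1 : e < 1) : ∃ x₀ : ℕ, 2 ≤ x₀ ∧
    ∀ (x : ℕ) (U : Finset ℕ), x₀ ≤ x → (∀ u ∈ U, 1 ≤ u ∧ (u : ℝ) ≤ (x : ℝ) ^ e) →
    (∑ u ∈ U, (1 : ℝ) / u) * ((x : ℝ) / (5 * Real.log x)) ≤ ((pairSet U x).card : ℝ) := by
  obtain ⟨x₀, hx₀, h⟩ := prime_count_dyadic e he he1
  refine ⟨x₀, hx₀, ?_⟩
  intro x U hx hU
  have hx2 : (2 : ℝ) ≤ x := by exact_mod_cast (by omega : 2 ≤ x)
  have hlogx : 0 < Real.log x := Real.log_pos (by linarith)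
  rw [pairSet, Finset.card_sigma, Finset.sum_mul]
  push_cast
  apply Finset.sum_le_sum
  intro u hu
  obtain ⟨h1, h2⟩ := hU u hu
  have hu0 : (0 : ℝ) < u := by exact_mod_cast h1
  have h3 := h x u hx h1 h2
  have h4 : (1 : ℝ) / u * ((x : ℝ) / (5 * Real.log x)) = (x : ℝ) / (5 * u * Real.log x) := by
    field_simp
  rw [h4]
  exact h3

theorem card_filter_mem_le (U B : Finset ℕ) (x Y : ℕ) (hU : ∀ u ∈ U, 1 ≤ u ∧ u ≤ Y)
    (hY : 2 * Y * Y ≤ x) :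
    ((pairSet U x).filter (fun q => q.2 * q.1 ∈ B)).card ≤ B.card := by
  apply Finset.card_le_card_of_injOn (fun q => q.2 * q.1)
  · intro q hq
    exact (Finset.mem_filter.1 hq).2
  · exact (pairSet_injOn U x Y hU hY).mono (by
      intro q hq
      exact (Finset.mem_filter.1 hq).1)

end Pool.Agent.Helper601
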