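import Mathlib
import Pool.Agent.Helper601.Pairs
import Pool.Agent.Helper601.JobH
import Pool.Agent.Helper601.JobG
import Pool.Agent.Helper601.JobB
import Pool.Agent.Helper601.JobI

set_option autoImplicit false

namespace Pool.Agent.Helper601

open Finset

theorem markov_card {α : Type*} (S : Finset α) (F : α → ℝ) (hF : ∀ q ∈ S, 0 ≤ F q) (τ B : ℝ)
    (hτ : 0 < τ) (hB : ∑ q ∈ S, F q ≤ B * τ) [DecidablePred fun q => τ ≤ F q] :
    ((S.filter (fun q => τ ≤ F q)).card : ℝ) ≤ B := by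
  have h1 : ((S.filter (fun q => τ ≤ F q)).card : ℝ) * τ ≤ ∑ q ∈ S, F q := by
    calc ((S.filter (fun q => τ ≤ F q)).card : ℝ) * τ
        = ∑ _q ∈ S.filter (fun q => τ ≤ F q), τ := by rw [Finset.sum_const, nsmul_eq_mul]
      _ ≤ ∑ q ∈ S.filter (fun q => τ ≤ F q), F q :=
          Finset.sum_le_sum fun q hq => (Finset.mem_filter.1 hq).2
      _ ≤ ∑ q ∈ S, F q := Finset.sum_le_sum_of_subset_of_nonneg (Finset.filter_subset _ _)
          (fun q hq _ => hF q hq)
  have h2 := h1.trans hB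
  exact le_of_mul_le_mul_right h2 hτ

/-- first moment over pairs for one shift -/
theorem moment_pairs : ∃ C : ℝ, 1 ≤ C ∧ ∃ M : ℝ, 0 < M ∧ ∀ (e : ℝ), 0 < e → e < 1 →
    ∃ x₀ : ℕ, 2 ≤ x₀ ∧ ∀ (x : ℕ) (U : Finset ℕ), x₀ ≤ x →
    (∀ u ∈ U, 1 ≤ u ∧ (u : ℝ) ≤ (x : ℝ) ^ e) → ∀ j y₁ y₂ : ℕ, 1 ≤ y₁ → y₁ ≤ y₂ →
    (∀ u ∈ U, (x : ℝ) ^ (1 / 4 : ℝ) * ((u : ℝ) * y₂) ≤ x) →
    (∀ u ∈ U, ∀ Q : ℕ, Q.Prime → y₁ < Q → Q ∣ u → ¬ Q ∣ j) →
    ∑ q ∈ pairSet U x, ∑ Q ∈ PI y₁ y₂, (if q.2 * q.1 ≡ j [MOD Q] then Real.log (Q : ℝ) else 0) ≤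
      60 * C * ((pairSet U x).card : ℝ) * (Real.log y₂ - Real.log y₁ + M) := by
  obtain ⟨C, hC1, hBT⟩ := brun_titchmarsh
  obtain ⟨M, hM, hmom⟩ := JobH.bt_first_moment C hC1 hBT Mertens.mertens_log
  refine ⟨C, hC1, M, hM, ?_⟩
  intro e he he1
  obtain ⟨x₀, hx₀, hcard⟩ := pairSet_card_ge e he he1
  refine ⟨x₀, hx₀, ?_⟩
  intro x U hx hU j y₁ y₂ hy₁ hy₂ hxy hQj
  have hx2 : 2 ≤ x := by omega
  have hx2' : (2 : ℝ) ≤ x := by exact_mod_cast hx2
  have hlogx : 0 < Real.log x := Real.log_pos (by linarith)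
  have h1 := hcard x U hx hU
  have hy₁r : (0 : ℝ) < y₁ := by exact_mod_cast hy₁
  have hlogy : Real.log y₁ ≤ Real.log y₂ := Real.log_le_log hy₁r (by exact_mod_cast hy₂)
  have hL : 0 ≤ Real.log y₂ - Real.log y₁ + M := by linarith
  have h2 : ∑ q ∈ pairSet U x, ∑ Q ∈ PI y₁ y₂,
      (if q.2 * q.1 ≡ j [MOD Q] then Real.log (Q : ℝ) else 0) =
      ∑ u ∈ U, ∑ Q ∈ PI y₁ y₂, Real.log (Q : ℝ) *
        (((PI (x / (2 * u)) (x / u)).filter (fun p => p * u ≡ j [MOD Q])).card : ℝ) := by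
    rw [pairSet, Finset.sum_sigma]
    apply Finset.sum_congr rfl
    intro u _
    rw [Finset.sum_comm]
    apply Finset.sum_congr rfl
    intro Q _
    rw [← Finset.sum_filter, Finset.sum_const, nsmul_eq_mul]
    ring
  rw [h2]
  have h3 : ∀ u ∈ U, ∑ Q ∈ PI y₁ y₂, Real.log (Q : ℝ) *
        (((PI (x / (2 * u)) (x / u)).filter (fun p => p * u ≡ j [MOD Q])).card : ℝ) ≤
      12 * C * ((x : ℝ) / ((u : ℝ) * Real.log x)) * (Real.log y₂ - Real.log y₁ + M) := by
    intro u hu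
    refine le_trans ?_ (hmom x u j y₁ y₂ hx2 (hU u hu).1 hy₁ hy₂ (hxy u hu) (hQj u hu))
    apply Finset.sum_le_sum
    intro Q hQ
    have hQp : Q.Prime := (Finset.mem_filter.1 hQ).2
    apply mul_le_mul_of_nonneg_left _ (Real.log_nonneg (by exact_mod_cast hQp.one_lt.le))
    have : ((PI (x / (2 * u)) (x / u)).filter (fun p => p * u ≡ j [MOD Q])).card ≤
        ((Finset.Icc 1 (x / u)).filter (fun p : ℕ => p.Prime ∧ p * u ≡ j [MOD Q])).card := by
      apply Finset.card_le_card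
      intro p hp
      simp only [Finset.mem_filter, Finset.mem_Ioc] at hp
      rw [Finset.mem_filter, Finset.mem_Icc]
      exact ⟨⟨hp.1.2.one_lt.le, hp.1.1.2⟩, hp.1.2, hp.2⟩
    exact_mod_cast this
  refine (Finset.sum_le_sum h3).trans ?_
  have h4 : ∑ u ∈ U, 12 * C * ((x : ℝ) / ((u : ℝ) * Real.log x)) *
      (Real.log y₂ - Real.log y₁ + M) =
      60 * C * ((∑ u ∈ U, (1 : ℝ) / u) * ((x : ℝ) / (5 * Real.log x))) *
        (Real.log y₂ - Real.log y₁ + M) := by
    rw [Finset.sum_mul, Finset.mul_sum, Finset.sum_mul]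
    apply Finset.sum_congr rfl
    intro u hu
    have : (0 : ℝ) < u := by exact_mod_cast (hU u hu).1
    field_simp
    ring
  rw [h4]
  apply mul_le_mul_of_nonneg_right _ hL
  exact mul_le_mul_of_nonneg_left h1 (by linarith)

/-- the excess `log n - ∑_{q ∣ n} log q` -/
noncomputable def excess (n : ℕ) : ℝ := Real.log n - ∑ q ∈ n.primeFactors, Real.log (q : ℝ)

theorem excess_eq (n : ℕ) : excess n =
    ∑ q ∈ n.primeFactors, ((n.factorization q : ℝ) - 1) * Real.log (q : ℝ) := by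
  unfold excess
  have h1 : Real.log n = ∑ q ∈ n.primeFactors, (n.factorization q : ℝ) * Real.log q := by
    rw [Real.log_nat_eq_sum_factorization, Finsupp.sum, Nat.support_factorization]
  rw [h1, ← Finset.sum_sub_distrib]
  apply Finset.sum_congr rfl
  intro q _
  ring

theorem excess_nonneg (n : ℕ) : 0 ≤ excess n := by
  rw [excess_eq]
  apply Finset.sum_nonneg
  intro q hq
  have hqp := Nat.prime_of_mem_primeFactors hq
  have h1 : 1 ≤ n.factorization q :=
    hqp.factorization_pos_of_dvd (Nat.mem_primeFactors.1 hq).2.2 (Nat.dvd_of_mem_primeFactors hq)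
  have h2 : (1 : ℝ) ≤ n.factorization q := by exact_mod_cast h1
  apply mul_nonneg (by linarith)
  exact Real.log_nonneg (by exact_mod_cast hqp.one_lt.le)

theorem sum_log_primeFactors_le (n : ℕ) : ∑ q ∈ n.primeFactors, Real.log (q : ℝ) ≤ Real.log n := by
  have := excess_nonneg n
  unfold excess at this
  linarith

/-- if every prime factor `q > y` of `n` has `q ^ 2 ∣ n`, then `log n` is at most twice the excess
plus the contribution of the small primes -/
theorem log_le_of_no_simple (n y : ℕ) (hn : n ≠ 0)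
    (h : ∀ q : ℕ, q.Prime → y < q → q ∣ n → q ^ 2 ∣ n) :
    Real.log n ≤ 2 * excess n + ∑ q ∈ n.primeFactors.filter (fun q => q ≤ y), Real.log (q : ℝ) := by
  have h1 : Real.log n = excess n + ∑ q ∈ n.primeFactors, Real.log (q : ℝ) := by
    unfold excess; ring
  have h2 := Finset.sum_filter_add_sum_filter_not n.primeFactors (fun q => q ≤ y)
    (fun q => Real.log (q : ℝ))
  have h3 : ∑ q ∈ n.primeFactors.filter (fun q => ¬ q ≤ y), Real.log (q : ℝ) ≤ excess n := by
    rw [excess_eq]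
    have h4 : ∑ q ∈ n.primeFactors.filter (fun q => ¬ q ≤ y), Real.log (q : ℝ) ≤
        ∑ q ∈ n.primeFactors.filter (fun q => ¬ q ≤ y),
          ((n.factorization q : ℝ) - 1) * Real.log (q : ℝ) := by
      apply Finset.sum_le_sum
      intro q hq
      rw [Finset.mem_filter] at hq
      have hqp := Nat.prime_of_mem_primeFactors hq.1
      have h5 := h q hqp (by omega) (Nat.dvd_of_mem_primeFactors hq.1)
      have h6 : 2 ≤ n.factorization q := (hqp.pow_dvd_iff_le_factorization hn).1 h5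
      have h7 : (2 : ℝ) ≤ n.factorization q := by exact_mod_cast h6
      have h8 : 0 ≤ Real.log (q : ℝ) := Real.log_nonneg (by exact_mod_cast hqp.one_lt.le)
      nlinarith
    refine h4.trans ?_
    apply Finset.sum_le_sum_of_subset_of_nonneg (Finset.filter_subset _ _)
    intro q hq _
    have hqp := Nat.prime_of_mem_primeFactors hq
    have h1 : 1 ≤ n.factorization q :=
      hqp.factorization_pos_of_dvd hn (Nat.dvd_of_mem_primeFactors hq)
    have h2 : (1 : ℝ) ≤ n.factorization q := by exact_mod_cast h1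
    apply mul_nonneg (by linarith)
    exact Real.log_nonneg (by exact_mod_cast hqp.one_lt.le)
  linarith

end Pool.Agent.Helper601
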