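import Mathlib
import Pool.Agent.Helper601.Moments
import Pool.Agent.Helper601.Determ
import Pool.Agent.Helper601.JobK

set_option autoImplicit false

namespace Pool.Agent.Helper601

open Finset

theorem sum_reindex (J m : ℕ) (h : J < m) (g : ℕ → ℝ) :
    ∑ j ∈ Finset.Icc 1 J, g (m - j) = ∑ j ∈ Finset.Icc 1 J, g (m - J - 1 + j) := by
  apply Finset.sum_nbij' (fun j => J + 1 - j) (fun j => J + 1 - j)
  · intro j hj
    rw [Finset.mem_Icc] at hj ⊢
    omega
  · intro j hj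
    rw [Finset.mem_Icc] at hj ⊢
    omega
  · intro j hj
    rw [Finset.mem_Icc] at hj
    show J + 1 - (J + 1 - j) = j
    omega
  · intro j hj
    rw [Finset.mem_Icc] at hj
    show J + 1 - (J + 1 - j) = j
    omega
  · intro j hj
    rw [Finset.mem_Icc] at hj
    show g (m - j) = g (m - J - 1 + (J + 1 - j))
    congr 1
    omega

/-- many of the integers just below `m` have a prime factor above `y₂` -/
theorem many_large {m x J y₁ y₂ : ℕ} {e : ℝ} (hJ : 1 ≤ J) (hmx : m ≤ x) (hxm : x < 2 * m)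
    (hJx : 4 * J ≤ x) (hlog : 20 * Real.log 4 ≤ Real.log x)
    (hy₁ : (y₁ : ℝ) ≤ (x : ℝ) ^ (1 / 2 - e))
    (h1 : ∑ j ∈ Finset.Icc 1 J, ∑ Q ∈ (Finset.Icc 1 x).filter
          (fun Q : ℕ => Q.Prime ∧ (Q : ℝ) ≤ (x : ℝ) ^ (1 / 2 - e) ∧ Q ∣ (m - J - 1) + j),
          Real.log (Q : ℝ) < (1 / 2 + 1 / 20) * (J : ℝ) * Real.log x)
    (h2 : ∑ j ∈ Finset.Icc 1 J, ∑ Q ∈ PI y₁ y₂,
      (if m ≡ j [MOD Q] then Real.log (Q : ℝ) else 0) < J * Real.log x / 10)
    (h3 : ∀ j ∈ Finset.Icc 1 J, excess (m - j) < 1 / 20 * Real.log x) :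
    ∃ T : Finset ℕ, (∀ j ∈ T, 1 ≤ j ∧ j ≤ J ∧ ∃ Q : ℕ, Q.Prime ∧ y₂ < Q ∧ Q ∣ m - j) ∧
      J < 6 * T.card := by
  classical
  have hJr : (1 : ℝ) ≤ J := by exact_mod_cast hJ
  have hx4 : 4 ≤ x := by omega
  have hx4r : (4 : ℝ) ≤ x := by exact_mod_cast hx4
  have hlogx : 0 < Real.log x := Real.log_pos (by linarith)
  set T := (Finset.Icc 1 J).filter (fun j => ∃ Q : ℕ, Q.Prime ∧ y₂ < Q ∧ Q ∣ m - j) with hT
  refine ⟨T, ?_, ?_⟩
  · intro j hj
    rw [hT, Finset.mem_filter, Finset.mem_Icc] at hj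
    exact ⟨hj.1.1, hj.1.2, hj.2⟩
  rw [← sum_reindex J m (by omega) (fun n => ∑ Q ∈ (Finset.Icc 1 x).filter
          (fun Q : ℕ => Q.Prime ∧ (Q : ℝ) ≤ (x : ℝ) ^ (1 / 2 - e) ∧ Q ∣ n),
          Real.log (Q : ℝ))] at h1
  -- pointwise inequality
  have hpt : ∀ j ∈ Finset.Icc 1 J, Real.log ((m - j : ℕ) : ℝ) ≤
      1 / 20 * Real.log x + ∑ Q ∈ (Finset.Icc 1 x).filter
          (fun Q : ℕ => Q.Prime ∧ (Q : ℝ) ≤ (x : ℝ) ^ (1 / 2 - e) ∧ Q ∣ m - j),
          Real.log (Q : ℝ) +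
      ∑ Q ∈ PI y₁ y₂, (if m ≡ j [MOD Q] then Real.log (Q : ℝ) else 0) +
      (if j ∈ T then Real.log x else 0) := by
    intro j hj
    have hj' := Finset.mem_Icc.1 hj
    have hn0 : m - j ≠ 0 := by omega
    have hnx : m - j ≤ x := by omega
    have e1 : Real.log ((m - j : ℕ) : ℝ) = excess (m - j) +
        ∑ q ∈ (m - j).primeFactors, Real.log (q : ℝ) := by unfold excess; ring
    have e2 := Finset.sum_filter_add_sum_filter_not (m - j).primeFactors (fun q => q ≤ y₁)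
      (fun q => Real.log (q : ℝ))
    have e3 := Finset.sum_filter_add_sum_filter_not
      ((m - j).primeFactors.filter (fun q => ¬ q ≤ y₁)) (fun q => q ≤ y₂)
      (fun q => Real.log (q : ℝ))
    have hlog0 : ∀ q : ℕ, 0 ≤ Real.log (q : ℝ) := fun q => Real.log_natCast_nonneg q
    have e4 : ∑ q ∈ (m - j).primeFactors.filter (fun q => q ≤ y₁), Real.log (q : ℝ) ≤
        ∑ Q ∈ (Finset.Icc 1 x).filter
          (fun Q : ℕ => Q.Prime ∧ (Q : ℝ) ≤ (x : ℝ) ^ (1 / 2 - e) ∧ Q ∣ m - j),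
          Real.log (Q : ℝ) := by
      apply Finset.sum_le_sum_of_subset_of_nonneg
      · intro q hq
        rw [Finset.mem_filter] at hq
        have hqp := Nat.prime_of_mem_primeFactors hq.1
        have hqd := Nat.dvd_of_mem_primeFactors hq.1
        rw [Finset.mem_filter, Finset.mem_Icc]
        refine ⟨⟨hqp.one_lt.le, (Nat.le_of_dvd (Nat.pos_of_ne_zero hn0) hqd).trans hnx⟩, hqp, ?_,
          hqd⟩
        refine le_trans ?_ hy₁
        exact_mod_cast hq.2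
      · intro q _ _
        exact hlog0 q
    have e5 : ∑ q ∈ ((m - j).primeFactors.filter (fun q => ¬ q ≤ y₁)).filter (fun q => q ≤ y₂),
        Real.log (q : ℝ) ≤ ∑ Q ∈ PI y₁ y₂, (if m ≡ j [MOD Q] then Real.log (Q : ℝ) else 0) := by
      rw [← Finset.sum_filter]
      apply Finset.sum_le_sum_of_subset_of_nonneg
      · intro q hq
        rw [Finset.mem_filter, Finset.mem_filter] at hq
        have hqp := Nat.prime_of_mem_primeFactors hq.1.1
        have hqd := Nat.dvd_of_mem_primeFactors hq.1.1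
        rw [Finset.mem_filter, Finset.mem_filter, Finset.mem_Ioc]
        refine ⟨⟨⟨by omega, hq.2⟩, hqp⟩, ?_⟩
        exact ((Nat.modEq_iff_dvd' (by omega)).2 hqd).symm
      · intro q _ _
        exact hlog0 q
    have e6 : ∑ q ∈ ((m - j).primeFactors.filter (fun q => ¬ q ≤ y₁)).filter (fun q => ¬ q ≤ y₂),
        Real.log (q : ℝ) ≤ (if j ∈ T then Real.log x else 0) := by
      split_ifs with hjT
      · have f1 : ∑ q ∈ ((m - j).primeFactors.filter (fun q => ¬ q ≤ y₁)).filter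
            (fun q => ¬ q ≤ y₂), Real.log (q : ℝ) ≤
            ∑ q ∈ (m - j).primeFactors, Real.log (q : ℝ) := by
          apply Finset.sum_le_sum_of_subset_of_nonneg
          · exact (Finset.filter_subset _ _).trans (Finset.filter_subset _ _)
          · intro q _ _
            exact hlog0 q
        refine f1.trans ((sum_log_primeFactors_le _).trans ?_)
        apply Real.log_le_log
        · exact_mod_cast Nat.pos_of_ne_zero hn0
        · exact_mod_cast hnx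
      · apply le_of_eq
        apply Finset.sum_eq_zero
        intro q hq
        exfalso
        apply hjT
        rw [Finset.mem_filter, Finset.mem_filter] at hq
        rw [hT, Finset.mem_filter]
        exact ⟨hj, q, Nat.prime_of_mem_primeFactors hq.1.1, by omega,
          Nat.dvd_of_mem_primeFactors hq.1.1⟩
    have e7 := h3 j hj
    linarith
  have hlow : ∀ j ∈ Finset.Icc 1 J, Real.log x - Real.log 4 ≤ Real.log ((m - j : ℕ) : ℝ) := by
    intro j hj
    have hj' := Finset.mem_Icc.1 hj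
    rw [← Real.log_div (by linarith) (by norm_num)]
    apply Real.log_le_log (by linarith)
    have : x ≤ 4 * (m - j) := by omega
    have : (x : ℝ) ≤ 4 * ((m - j : ℕ) : ℝ) := by exact_mod_cast this
    linarith
  have hsum := (Finset.sum_le_sum hlow).trans (Finset.sum_le_sum hpt)
  rw [Finset.sum_const, Nat.card_Icc, Nat.add_sub_cancel, nsmul_eq_mul,
    Finset.sum_add_distrib, Finset.sum_add_distrib, Finset.sum_add_distrib,
    Finset.sum_const, Nat.card_Icc, Nat.add_sub_cancel, nsmul_eq_mul] at hsum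
  have hTs : ∑ j ∈ Finset.Icc 1 J, (if j ∈ T then Real.log x else 0) = T.card * Real.log x := by
    rw [← Finset.sum_filter, Finset.sum_const, nsmul_eq_mul]
    congr 2
    congr 1
    ext j
    rw [Finset.mem_filter]
    constructor
    · exact fun h => h.2
    · intro h
      exact ⟨(Finset.mem_filter.1 h).1, h⟩
  rw [hTs] at hsum
  have hfin : (J : ℝ) * (3 / 10 * Real.log x - Real.log 4) < T.card * Real.log x := by
    linarith
  have hfin2 : (J : ℝ) * (1 / 4 * Real.log x) ≤ (J : ℝ) * (3 / 10 * Real.log x - Real.log 4) := by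
    apply mul_le_mul_of_nonneg_left _ (by linarith)
    linarith
  have hfin3 : (J : ℝ) / 4 < T.card := by
    have : (J : ℝ) / 4 * Real.log x < T.card * Real.log x := by linarith
    exact lt_of_mul_lt_mul_right this hlogx.le
  have hfin4 : (J : ℝ) < 6 * T.card := by linarith
  exact_mod_cast hfin4

/-- a large prime dividing `m - 1` exactly -/
theorem exists_simple {m x y₃ : ℕ} (hmx : m ≤ x) (hxm : x < 2 * m) (hx4 : 4 ≤ x)
    (hlog : 20 * Real.log 4 ≤ Real.log x)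
    (h2 : ∑ Q ∈ PI 1 y₃, (if m ≡ 1 [MOD Q] then Real.log (Q : ℝ) else 0) < Real.log x / 10)
    (h3 : excess (m - 1) < 1 / 20 * Real.log x) :
    ∃ q : ℕ, q.Prime ∧ y₃ < q ∧ q ∣ m - 1 ∧ ¬ q ^ 2 ∣ m - 1 := by
  by_contra hc
  push Not at hc
  have hn0 : m - 1 ≠ 0 := by omega
  have hx4r : (4 : ℝ) ≤ x := by exact_mod_cast hx4
  have hlogx : 0 < Real.log x := Real.log_pos (by linarith)
  have e1 := log_le_of_no_simple (m - 1) y₃ hn0 hc
  have e5 : ∑ q ∈ (m - 1).primeFactors.filter (fun q => q ≤ y₃),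
      Real.log (q : ℝ) ≤ ∑ Q ∈ PI 1 y₃, (if m ≡ 1 [MOD Q] then Real.log (Q : ℝ) else 0) := by
    rw [← Finset.sum_filter]
    apply Finset.sum_le_sum_of_subset_of_nonneg
    · intro q hq
      rw [Finset.mem_filter] at hq
      have hqp := Nat.prime_of_mem_primeFactors hq.1
      have hqd := Nat.dvd_of_mem_primeFactors hq.1
      rw [Finset.mem_filter, Finset.mem_filter, Finset.mem_Ioc]
      refine ⟨⟨⟨hqp.one_lt, hq.2⟩, hqp⟩, ?_⟩
      exact ((Nat.modEq_iff_dvd' (by omega)).2 hqd).symm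
    · intro q _ _
      exact Real.log_natCast_nonneg q
  have hlow : Real.log x - Real.log 4 ≤ Real.log ((m - 1 : ℕ) : ℝ) := by
    rw [← Real.log_div (by linarith) (by norm_num)]
    apply Real.log_le_log (by linarith)
    have : x ≤ 4 * (m - 1) := by omega
    have : (x : ℝ) ≤ 4 * ((m - 1 : ℕ) : ℝ) := by exact_mod_cast this
    linarith
  linarith

/-- good multipliers -/
def GoodU (u : ℕ) : Prop := Squarefree u ∧ (∀ p ∈ u.primeFactors, 5 < p) ∧
  ∀ v a : ℕ, 1 ≤ v → v < u → ¬ IsSquare (u * v * a.factorial)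

/-- the exceptional set of the top block lemma -/
def TopBad (x m : ℕ) : Prop := ∃ p u v y' y a : ℕ,
        p.Prime ∧ m = p * u ∧ Squarefree u ∧ (x : ℝ) ^ (1 - 1 / 5000 : ℝ) < (p : ℝ) ∧
        1 ≤ v ∧ v < u ∧ y' < p * v ∧ p * v ≤ y ∧ y' + 2 ≤ y ∧
        ((y : ℝ) - (y' : ℝ)) ≤ (x : ℝ) ^ (1 / 2500 : ℝ) ∧
        (a : ℝ) ≤ ((y : ℝ) - (y' : ℝ)) * (Real.log x) ^ 2 ∧
        IsSquare (m * (∏ n ∈ Finset.Ioc y' y, n) * a.factorial)

/-- no representation of length at most five for good pairs -/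
theorem no_rep {m b y y' a p u x X J G y₂ y₃ r₁ r₂ q : ℕ} {Ca : ℝ} (hR : Rep m b y y' a)
    (hp : p.Prime) (hm : m = p * u) (hu : GoodU u) (hmx : m ≤ x)
    (hX1 : a ≤ X) (hX2 : m - b ≤ X) (hX3 : y - y' ≤ X) (hXp : X < p) (hmp : m < p ^ 2)
    (T : Finset ℕ) (hT : ∀ j ∈ T, 1 ≤ j ∧ j ≤ J ∧ ∃ Q : ℕ, Q.Prime ∧ y₂ < Q ∧ Q ∣ m - j)
    (hTJ : J < 6 * T.card) (hy₂ : u * (J + X) ≤ y₂) (hy₂m : x < (y₂ + 1) ^ 2)
    (hr₁ : r₁.Prime) (hr₁1 : p < r₁) (hr₁2 : r₁ ≤ p + G)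
    (hr₂ : r₂.Prime) (hr₂1 : r₂ < p) (hr₂2 : p ≤ r₂ + G)
    (hmr : m < r₂ ^ 2) (hXr : X < r₂) (hJr : J ≤ r₂) (hJu : J ≤ u) (hJ1 : 1 ≤ J)
    (hbig : G * (u + 1) + J < p)
    (hCa : 0 < Ca)
    (habound : (a : ℝ) ≤ Ca * (((m : ℝ) - b) + ((y : ℝ) - y')) * Real.log x)
    (hlogx : 2 * Ca ≤ Real.log x)
    (hy₃ : Ca * ((J : ℝ) + ((2 * G * u : ℕ) : ℝ)) * Real.log x ≤ y₃)
    (hJy₃ : J ≤ y₃) (huy₃ : u * (1 + 2 * G * u) ≤ y₃)
    (hq : q.Prime) (hq1 : y₃ < q) (hq2 : q ∣ m - 1) (hq3 : ¬ q ^ 2 ∣ m - 1)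
    (hpx : (x : ℝ) ^ (1 - 1 / 5000 : ℝ) < (p : ℝ))
    (hsx : ((2 * G * u : ℕ) : ℝ) ≤ (x : ℝ) ^ (1 / 2500 : ℝ))
    (htop : ¬ TopBad x m) : False := by
  have hR' := hR
  obtain ⟨g1, g2, g3, g4, g5⟩ := hR'
  obtain ⟨hsq, hZ, hU⟩ := hu
  have hlog0 : 0 < Real.log x := by linarith
  -- top block short
  have ht : m - b ≤ J := by
    apply det_top (Z := 5) hR hp hm hmp hX1 hX2 hX3 hXp hsq hZ T _ hTJ
    intro j hj
    obtain ⟨k1, k2, Q, k3, k4, k5⟩ := hT j hj
    refine ⟨k1, k2, Q, k3, by omega, ?_, k5⟩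
    have : (y₂ + 1) ^ 2 ≤ Q ^ 2 := Nat.pow_le_pow_left k4 2
    omega
  obtain ⟨v, hv1, hvu, hv2, hv3⟩ := exists_v hR hp hm hmp (by omega) (by omega) (by omega)
  -- second block short
  have hs : y - y' ≤ 2 * G * u :=
    det_gap hR hm hX1 hX3 ht hv1 hvu hv2 hv3 hr₁ hr₁1 hr₁2 hr₂ hr₂1 hr₂2 hmr hXr hJr hJu hbig
  have htr : (m : ℝ) - b ≤ J := by
    rw [← Nat.cast_sub g4.le]; exact_mod_cast ht
  have hsr : (y : ℝ) - y' ≤ ((2 * G * u : ℕ) : ℝ) := by
    rw [← Nat.cast_sub g2]; exact_mod_cast hs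
  have ha : a ≤ y₃ := by
    have e1 : (a : ℝ) ≤ y₃ := by
      refine habound.trans (le_trans ?_ hy₃)
      apply mul_le_mul_of_nonneg_right _ hlog0.le
      apply mul_le_mul_of_nonneg_left _ hCa.le
      linarith
    exact_mod_cast e1
  have hm2 : 2 ≤ m := by omega
  have hb : b = m - 1 :=
    det_one hR hm ht hs hv1 hvu hv2 hv3 hq hq2 hq3 (by omega) (by omega) (by omega) hm2
  subst hb
  have hsquare := JobK.square_of_top_one m y y' a (by omega) g2 g5
  by_cases hs1 : y' + 2 ≤ y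
  · apply htop
    have hy2 : (2 : ℝ) ≤ (y : ℝ) - y' := by
      have : (y' : ℝ) + 2 ≤ y := by exact_mod_cast hs1
      linarith
    refine ⟨p, u, v, y', y, a, hp, hm, hsq, hpx, hv1, hvu, hv2, hv3, hs1, hsr.trans hsx, ?_,
      hsquare⟩
    have e0 : (m : ℝ) - ((m - 1 : ℕ) : ℝ) = 1 := by
      rw [Nat.cast_sub (by omega)]; push_cast; ring
    rw [e0] at habound
    have e1 : Ca * (1 + ((y : ℝ) - y')) ≤ Ca * (2 * ((y : ℝ) - y')) :=
      mul_le_mul_of_nonneg_left (by linarith) hCa.le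
    have e2 : 2 * Ca * ((y : ℝ) - y') ≤ Real.log x * ((y : ℝ) - y') :=
      mul_le_mul_of_nonneg_right hlogx (by linarith)
    calc (a : ℝ) ≤ Ca * (1 + ((y : ℝ) - y')) * Real.log x := habound
      _ ≤ Real.log x * ((y : ℝ) - y') * Real.log x := by
          apply mul_le_mul_of_nonneg_right _ hlog0.le
          linarith
      _ = _ := by ring
  · have hy : y = p * v := by omega
    have hy' : y' = p * v - 1 := by omega
    have hpv : 1 ≤ p * v := by omega
    have hIoc : Finset.Ioc y' y = {p * v} := by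
      ext n
      rw [Finset.mem_Ioc, Finset.mem_singleton]
      omega
    rw [hIoc, Finset.prod_singleton, hm] at hsquare
    apply hU v a hv1 hvu
    obtain ⟨r, hr⟩ := hsquare
    have e1 : p ^ 2 * (u * v * a.factorial) = r ^ 2 := by
      rw [pow_two r, ← hr]; ring
    have e2 : p ∣ r := by
      have : p ^ 2 ∣ r ^ 2 := ⟨_, e1.symm⟩
      exact (Nat.pow_dvd_pow_iff (by norm_num)).1 this
    obtain ⟨k, rfl⟩ := e2
    have e3 : p ^ 2 * (u * v * a.factorial) = p ^ 2 * (k * k) := by rw [e1]; ring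
    exact ⟨k, Nat.eq_of_mul_eq_mul_left (pow_pos hp.pos 2) e3⟩

end Pool.Agent.Helper601
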