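import Mathlib

set_option autoImplicit false

namespace Pool.Agent.Helper601.JobD

/-- the rough numbers up to `U` -/
def rough (Z0 U : ℕ) : Finset ℕ :=
  (Finset.Icc 1 U).filter (fun u : ℕ => ∀ p ∈ u.primeFactors, Z0 < p)

theorem mult_le (Z0 U d : ℕ) (hd : 1 ≤ d) :
    ∑ u ∈ (rough Z0 U).filter (fun u => d ∣ u), (1 : ℝ) / (u : ℝ) ≤
      (1 / (d : ℝ)) * ∑ u ∈ rough Z0 U, (1 : ℝ) / (u : ℝ) := by
  have hinj : Set.InjOn (fun u : ℕ => u / d) ↑((rough Z0 U).filter (fun u => d ∣ u)) := by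
    intro x hx y hy hxy
    simp only [Finset.coe_filter, Set.mem_ofPred_eq] at hx hy
    obtain ⟨_, a, rfl⟩ := hx
    obtain ⟨_, b, rfl⟩ := hy
    have h1 : d * a / d = a := Nat.mul_div_cancel_left a hd
    have h2 : d * b / d = b := Nat.mul_div_cancel_left b hd
    simp only [h1, h2] at hxy
    rw [hxy]
  have h1 : ∑ u ∈ (rough Z0 U).filter (fun u => d ∣ u), (1 : ℝ) / (u : ℝ) =
      ∑ u ∈ (rough Z0 U).filter (fun u => d ∣ u), (1 / (d : ℝ)) * ((1 : ℝ) / ((u / d : ℕ) : ℝ)) := by
    apply Finset.sum_congr rfl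
    intro u hu
    simp only [Finset.mem_filter] at hu
    obtain ⟨_, a, rfl⟩ := hu
    rw [Nat.mul_div_cancel_left a hd]
    push_cast
    rw [one_div_mul_one_div]
  rw [h1, ← Finset.mul_sum]
  apply mul_le_mul_of_nonneg_left _ (by positivity)
  rw [← Finset.sum_image (f := fun v : ℕ => (1 : ℝ) / (v : ℝ)) (g := fun u : ℕ => u / d) hinj]
  apply Finset.sum_le_sum_of_subset_of_nonneg
  · intro v hv
    simp only [Finset.mem_image, Finset.mem_filter, rough, Finset.mem_Icc] at hv ⊢
    obtain ⟨u, ⟨⟨⟨hu1, hu2⟩, hu3⟩, a, rfl⟩, rfl⟩ := hv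
    rw [Nat.mul_div_cancel_left a hd]
    have ha : a ≠ 0 := by rintro rfl; simp at hu1
    refine ⟨⟨Nat.one_le_iff_ne_zero.mpr ha, le_trans (Nat.le_mul_of_pos_left a hd) hu2⟩, ?_⟩
    intro p hp
    apply hu3
    apply Nat.primeFactors_mono (Dvd.intro_left d rfl) (by positivity) hp
  · intros; positivity

/-- Lower bound for the rough sum. -/
theorem rough_lower (Z0 : ℕ) : ∀ U : ℕ, (Z0.factorial) ^ 2 ≤ U →
    (1 / (2 * (Z0.factorial : ℝ))) * Real.log U ≤ ∑ u ∈ rough Z0 U, (1 : ℝ) / (u : ℝ) := by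
  intro U hU
  set Q := Z0.factorial with hQ
  have hQ1 : 1 ≤ Q := Nat.factorial_pos Z0
  have hU1 : 1 ≤ U := le_trans (Nat.one_le_pow _ _ hQ1) hU
  set K := (U - 1) / Q + 1 with hK
  have hinj : Set.InjOn (fun k : ℕ => 1 + k * Q) ↑(Finset.range K) := by
    intro x _ y _ hxy
    simp only at hxy
    have : x * Q = y * Q := by omega
    exact Nat.eq_of_mul_eq_mul_right hQ1 this
  have h1 : ∑ k ∈ Finset.range K, (1 : ℝ) / ((1 + k * Q : ℕ) : ℝ) ≤
      ∑ u ∈ rough Z0 U, (1 : ℝ) / (u : ℝ) := by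
    rw [← Finset.sum_image (f := fun v : ℕ => (1 : ℝ) / (v : ℝ)) (g := fun k : ℕ => 1 + k * Q) hinj]
    apply Finset.sum_le_sum_of_subset_of_nonneg
    · intro v hv
      simp only [Finset.mem_image, Finset.mem_range, rough, Finset.mem_filter, Finset.mem_Icc] at hv ⊢
      obtain ⟨k, hk, rfl⟩ := hv
      have hk' : k ≤ (U - 1) / Q := by omega
      have : k * Q ≤ U - 1 := (Nat.le_div_iff_mul_le hQ1).mp hk'
      refine ⟨⟨by omega, by omega⟩, ?_⟩
      intro p hp
      by_contra hlt
      push Not at hlt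
      have hpp := Nat.prime_of_mem_primeFactors hp
      have hpd : p ∣ 1 + k * Q := Nat.dvd_of_mem_primeFactors hp
      have hpQ : p ∣ Q := (Nat.Prime.dvd_factorial hpp).mpr hlt
      have : p ∣ 1 := (Nat.dvd_add_left (Dvd.dvd.mul_left hpQ k)).mp hpd
      exact hpp.one_lt.ne' (Nat.dvd_one.mp this)
    · intros; positivity
  have hQr : (1 : ℝ) ≤ Q := by exact_mod_cast hQ1
  have h2 : (1 / (Q : ℝ)) * (harmonic K : ℝ) ≤
      ∑ k ∈ Finset.range K, (1 : ℝ) / ((1 + k * Q : ℕ) : ℝ) := by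
    rw [harmonic]
    push_cast
    rw [Finset.mul_sum]
    apply Finset.sum_le_sum
    intro k _
    rw [← one_div, one_div_mul_one_div]
    apply one_div_le_one_div_of_le
    · positivity
    · nlinarith
  have h3 : Real.log ((U : ℝ) / Q) ≤ (harmonic K : ℝ) := by
    refine le_trans ?_ (log_add_one_le_harmonic K)
    apply Real.log_le_log (by positivity)
    rw [div_le_iff₀ (by positivity)]
    have : U ≤ (K + 1) * Q := by
      have h := Nat.lt_div_mul_add (a := U - 1) hQ1
      have : U - 1 < K * Q := by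
        rw [hK, add_mul, one_mul]; exact h
      have h5 : (K + 1) * Q = K * Q + Q := by ring
      omega
    exact_mod_cast this
  have h4 : (1 / 2) * Real.log U ≤ Real.log ((U : ℝ) / Q) := by
    rw [Real.log_div (by positivity) (by positivity)]
    have : Real.log ((Q : ℝ) ^ 2) ≤ Real.log U := by
      apply Real.log_le_log (by positivity)
      exact_mod_cast hU
    rw [Real.log_pow] at this
    push_cast at this
    linarith
  calc (1 / (2 * (Q : ℝ))) * Real.log U = (1 / (Q : ℝ)) * ((1 / 2) * Real.log U) := by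
        field_simp
    _ ≤ (1 / (Q : ℝ)) * (harmonic K : ℝ) := by
        apply mul_le_mul_of_nonneg_left (le_trans h4 h3) (by positivity)
    _ ≤ _ := le_trans h2 h1

theorem sum_F (Z0 U : ℕ) (w : ℕ → ℝ) (hw : ∀ l, 0 ≤ w l) :
    ∑ u ∈ rough Z0 U, ((1 : ℝ) / (u : ℝ)) * (∑ l ∈ u.primeFactors, w l) ≤
      (∑ l ∈ Finset.Ioc Z0 U, w l / (l : ℝ)) * ∑ u ∈ rough Z0 U, (1 : ℝ) / (u : ℝ) := by
  have h1 : ∀ u ∈ rough Z0 U, ((1 : ℝ) / (u : ℝ)) * (∑ l ∈ u.primeFactors, w l) ≤
      ∑ l ∈ Finset.Ioc Z0 U, if l ∣ u then ((1 : ℝ) / (u : ℝ)) * w l else 0 := by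
    intro u hu
    simp only [rough, Finset.mem_filter, Finset.mem_Icc] at hu
    rw [← Finset.sum_filter, Finset.mul_sum]
    apply Finset.sum_le_sum_of_subset_of_nonneg
    · intro l hl
      simp only [Finset.mem_filter, Finset.mem_Ioc]
      have hd := Nat.dvd_of_mem_primeFactors hl
      exact ⟨⟨hu.2 l hl, le_trans (Nat.le_of_dvd (by omega) hd) hu.1.2⟩, hd⟩
    · intro l _ _
      have := hw l
      positivity
  refine le_trans (Finset.sum_le_sum h1) ?_
  rw [Finset.sum_comm, Finset.sum_mul]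
  apply Finset.sum_le_sum
  intro l hl
  rw [Finset.mem_Ioc] at hl
  rw [← Finset.sum_filter, ← Finset.sum_mul]
  have h2 := mult_le Z0 U l (by omega)
  calc (∑ u ∈ (rough Z0 U).filter (fun u => l ∣ u), (1 : ℝ) / (u : ℝ)) * w l
      ≤ ((1 / (l : ℝ)) * ∑ u ∈ rough Z0 U, (1 : ℝ) / (u : ℝ)) * w l :=
        mul_le_mul_of_nonneg_right h2 (hw l)
    _ = _ := by ring

open Classical in
theorem sum_sq (Z0 U : ℕ) :
    ∑ u ∈ (rough Z0 U).filter (fun u => ¬ Squarefree u), ((1 : ℝ) / (u : ℝ)) ≤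
      (∑ l ∈ Finset.Ioc Z0 U, 1 / ((l : ℝ) * l)) * ∑ u ∈ rough Z0 U, (1 : ℝ) / (u : ℝ) := by
  have h1 : ∀ u ∈ rough Z0 U, (if ¬ Squarefree u then ((1 : ℝ) / (u : ℝ)) else 0) ≤
      ∑ l ∈ Finset.Ioc Z0 U, if l * l ∣ u then ((1 : ℝ) / (u : ℝ)) else 0 := by
    intro u hu
    simp only [rough, Finset.mem_filter, Finset.mem_Icc] at hu
    split_ifs with hsq
    · apply Finset.sum_nonneg
      intro i _
      split_ifs <;> positivity
    · rw [Nat.squarefree_iff_prime_squarefree] at hsq
      push Not at hsq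
      obtain ⟨p, hp, hpu⟩ := hsq
      have hd : p ∣ u := dvd_trans (Dvd.intro p rfl) hpu
      have hmem : p ∈ Finset.Ioc Z0 U := by
        rw [Finset.mem_Ioc]
        refine ⟨hu.2 p ?_, le_trans (Nat.le_of_dvd (by omega) hd) hu.1.2⟩
        rw [Nat.mem_primeFactors]
        exact ⟨hp, hd, by omega⟩
      have h3 := Finset.single_le_sum (f := fun l => if l * l ∣ u then ((1 : ℝ) / (u : ℝ)) else 0)
        (fun i _ => by split_ifs <;> positivity) hmem
      simp only [hpu, if_true] at h3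
      exact h3
  rw [Finset.sum_filter]
  refine le_trans (Finset.sum_le_sum h1) ?_
  rw [Finset.sum_comm, Finset.sum_mul]
  apply Finset.sum_le_sum
  intro l hl
  rw [Finset.mem_Ioc] at hl
  rw [← Finset.sum_filter]
  have h2 := mult_le Z0 U (l * l) (by nlinarith)
  push_cast at h2
  exact h2

/-- The arithmetic heart: good `u` admit no square. -/
theorem no_square {c : ℝ} (hc : 0 < c) {Z0 : ℕ} (hZ2 : 2 ≤ Z0)
    (hth : ∀ a : ℕ, Z0 ≤ a → c * (a : ℝ) ≤ Chebyshev.theta (a : ℝ) - Chebyshev.theta ((a : ℝ) / 2))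
    {u : ℕ} (hsf : Squarefree u) (hr : ∀ p ∈ u.primeFactors, Z0 < p)
    (hg : ∀ a : ℕ, Z0 ≤ a → ∑ l ∈ u.primeFactors.filter (fun l => l ≤ a), Real.log l ≤ (c / 2) * a)
    (v a : ℕ) (hv : 1 ≤ v) (hvu : v < u) : ¬ IsSquare (u * v * a.factorial) := by
  rintro ⟨m, hm⟩
  have hu0 : u ≠ 0 := by omega
  have hv0 : v ≠ 0 := by omega
  have ha0 : a.factorial ≠ 0 := Nat.factorial_ne_zero a
  have hm0 : m ≠ 0 := by
    rintro rfl
    simp [hu0, hv0, ha0] at hm
  have hfac : ∀ p : ℕ, u.factorization p + v.factorization p + a.factorial.factorization p =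
      2 * m.factorization p := by
    intro p
    have h : (u * v * a.factorial).factorization p = (m * m).factorization p := by rw [hm]
    rw [Nat.factorization_mul (mul_ne_zero hu0 hv0) ha0, Nat.factorization_mul hu0 hv0,
      Nat.factorization_mul hm0 hm0] at h
    simp only [Finsupp.add_apply] at h
    omega
  have hodd : ∀ p : ℕ, p.Prime → (u.factorization p + a.factorial.factorization p) % 2 = 1 →
      p ∣ v := by
    intro p hp h
    have h1 := hfac p
    have h2 : v.factorization p ≠ 0 := by omega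
    by_contra hcon
    exact h2 (Nat.factorization_eq_zero_of_not_dvd hcon)
  have hu1 : ∀ p ∈ u.primeFactors, u.factorization p = 1 := by
    intro p hp
    have h1 := hsf.natFactorization_le_one p
    have h2 : 0 < u.factorization p := Nat.Prime.factorization_pos_of_dvd
      (Nat.prime_of_mem_primeFactors hp) hu0 (Nat.dvd_of_mem_primeFactors hp)
    omega
  have hbig : ∀ p ∈ u.primeFactors, a < p → p ∣ v := by
    intro p hp hap
    apply hodd p (Nat.prime_of_mem_primeFactors hp)
    rw [hu1 p hp, Nat.factorization_factorial_eq_zero_of_lt hap]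
  rcases lt_or_ge a Z0 with haZ | haZ
  · have hdvd : u ∣ v := by
      rw [← Nat.prod_primeFactors_of_squarefree hsf]
      apply Finset.prod_primes_dvd
      · intro p hp
        exact (Nat.prime_of_mem_primeFactors hp).prime
      · intro p hp
        exact hbig p hp (lt_trans haZ (hr p hp))
    exact absurd (Nat.le_of_dvd (by omega) hdvd) (by omega)
  · set S1 := u.primeFactors.filter (fun p => ¬ p ≤ a) with hS1
    set I := (Finset.Ioc (a / 2) a).filter Nat.Prime with hI
    set S2 := I.filter (fun p => ¬ p ∣ u) with hS2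
    have hdisj : Disjoint S1 S2 := by
      rw [Finset.disjoint_left]
      intro p hp1 hp2
      simp only [hS1, hS2, hI, Finset.mem_filter, Finset.mem_Ioc] at hp1 hp2
      exact hp2.2 (Nat.dvd_of_mem_primeFactors hp1.1)
    have hdvd : ∏ p ∈ S1 ∪ S2, p ∣ v := by
      apply Finset.prod_primes_dvd
      · intro p hp
        rw [Finset.mem_union] at hp
        rcases hp with hp | hp
        · simp only [hS1, Finset.mem_filter] at hp
          exact (Nat.prime_of_mem_primeFactors hp.1).prime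
        · simp only [hS2, hI, Finset.mem_filter] at hp
          exact hp.1.2.prime
      · intro p hp
        rw [Finset.mem_union] at hp
        rcases hp with hp | hp
        · simp only [hS1, Finset.mem_filter] at hp
          exact hbig p hp.1 (by omega)
        · simp only [hS2, hI, Finset.mem_filter, Finset.mem_Ioc] at hp
          obtain ⟨⟨⟨hp1, hp2⟩, hpp⟩, hpu⟩ := hp
          apply hodd p hpp
          rw [Nat.factorization_eq_zero_of_not_dvd hpu]
          have h2p := hpp.two_le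
          have hlog : Nat.log p a < 2 := by
            apply Nat.log_lt_of_lt_pow (by omega)
            nlinarith [Nat.div_add_mod a 2, Nat.mod_lt a (by norm_num : 0 < 2)]
          rw [Nat.factorization_factorial hpp hlog]
          have : a / p = 1 := by
            apply Nat.div_eq_of_lt_le
            · omega
            · omega
          simp [this]
    have hle : ∏ p ∈ S1 ∪ S2, p ≤ v := Nat.le_of_dvd (by omega) hdvd
    have hlogle : ∑ p ∈ S1, Real.log p + ∑ p ∈ S2, Real.log p ≤ Real.log v := by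
      rw [← Finset.sum_union hdisj, ← Real.log_prod]
      · apply Real.log_le_log
        · apply Finset.prod_pos
          intro p hp
          have : 0 < p := by
            apply Nat.pos_of_ne_zero
            rintro rfl
            have : (0 : ℕ) ∣ v := dvd_trans (Finset.dvd_prod_of_mem (fun p : ℕ => p) hp) hdvd
            rw [zero_dvd_iff] at this
            omega
          exact_mod_cast this
        · rw [← Nat.cast_prod]
          exact_mod_cast hle
      · intro p hp h0
        have hp0 : p = 0 := by exact_mod_cast h0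
        subst hp0
        have : (0 : ℕ) ∣ v := dvd_trans (Finset.dvd_prod_of_mem (fun p : ℕ => p) hp) hdvd
        rw [zero_dvd_iff] at this
        omega
    have hga := hg a haZ
    have hta := hth a haZ
    have hlogu : Real.log u = ∑ p ∈ u.primeFactors, Real.log p := by
      conv_lhs => rw [← Nat.prod_primeFactors_of_squarefree hsf]
      rw [Nat.cast_prod, Real.log_prod]
      intro p hp h0
      have hp0 : p = 0 := by exact_mod_cast h0
      subst hp0
      exact Nat.not_prime_zero (Nat.prime_of_mem_primeFactors hp)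
    have hsplit1 : ∑ p ∈ u.primeFactors, Real.log p =
        ∑ p ∈ u.primeFactors.filter (fun p => p ≤ a), Real.log p + ∑ p ∈ S1, Real.log p :=
      (Finset.sum_filter_add_sum_filter_not _ _ _).symm
    have hsplit2 : ∑ p ∈ I, Real.log p =
        ∑ p ∈ I.filter (fun p => p ∣ u), Real.log p + ∑ p ∈ S2, Real.log p :=
      (Finset.sum_filter_add_sum_filter_not _ _ _).symm
    have hI2 : ∑ p ∈ I.filter (fun p => p ∣ u), Real.log p ≤
        ∑ p ∈ u.primeFactors.filter (fun p => p ≤ a), Real.log p := by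
      apply Finset.sum_le_sum_of_subset_of_nonneg
      · intro p hp
        simp only [hI, Finset.mem_filter, Finset.mem_Ioc] at hp ⊢
        refine ⟨?_, hp.1.1.2⟩
        rw [Nat.mem_primeFactors]
        exact ⟨hp.1.2, hp.2, hu0⟩
      · intro p _ _
        exact Real.log_natCast_nonneg p
    have hI3 : Chebyshev.theta (a : ℝ) - Chebyshev.theta ((a : ℝ) / 2) = ∑ p ∈ I, Real.log p := by
      unfold Chebyshev.theta
      have hf1 : ⌊(a : ℝ)⌋₊ = a := Nat.floor_natCast a
      have hf2 : ⌊(a : ℝ) / 2⌋₊ = a / 2 := by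
        have := Nat.floor_div_natCast (a : ℝ) 2
        rw [hf1] at this
        exact_mod_cast this
      rw [hf1, hf2, sub_eq_iff_eq_add]
      rw [hI, ← Finset.sum_union]
      · apply Finset.sum_congr _ (fun _ _ => rfl)
        ext p
        simp only [Finset.mem_union, Finset.mem_filter, Finset.mem_Ioc]
        constructor
        · rintro ⟨⟨h1, h2⟩, h3⟩
          rcases le_or_gt p (a / 2) with h | h
          · exact Or.inr ⟨⟨h1, h⟩, h3⟩
          · exact Or.inl ⟨⟨h, h2⟩, h3⟩
        · rintro (⟨⟨h1, h2⟩, h3⟩ | ⟨⟨h1, h2⟩, h3⟩)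
          · exact ⟨⟨h3.pos, h2⟩, h3⟩
          · exact ⟨⟨h1, by omega⟩, h3⟩
      · rw [Finset.disjoint_left]
        intro p hp1 hp2
        simp only [Finset.mem_filter, Finset.mem_Ioc] at hp1 hp2
        omega
    have hfin : Real.log u ≤ Real.log v := by
      rw [hI3] at hta
      linarith
    have hlt : Real.log v < Real.log u := by
      apply Real.log_lt_log
      · exact_mod_cast hv
      · exact_mod_cast hvu
    linarith

open Classical in
/-- Positive logarithmic density of the multipliers `u` for which `u * v * a!` is never a square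
with `1 ≤ v < u`. -/
theorem U_density
    (hth : ∃ c : ℝ, 0 < c ∧ ∃ A : ℕ, ∀ a : ℕ, A ≤ a →
      c * (a : ℝ) ≤ Chebyshev.theta (a : ℝ) - Chebyshev.theta ((a : ℝ) / 2))
    (Z : ℕ) :
    ∃ κ : ℝ, 0 < κ ∧ ∃ U₀ : ℕ, ∀ U : ℕ, U₀ ≤ U →
      κ * Real.log U ≤ ∑ u ∈ (Finset.Icc 1 U).filter (fun u : ℕ =>
        Squarefree u ∧ (∀ p ∈ u.primeFactors, Z < p) ∧
        ∀ v a : ℕ, 1 ≤ v → v < u → ¬ IsSquare (u * v * a.factorial)), (1 : ℝ) / (u : ℝ) := by
  obtain ⟨c, hc, A, hA⟩ := hth
  -- tail of the series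
  have hsum : Summable (fun n : ℕ => ((n : ℝ) ^ ((5 : ℝ) / 4))⁻¹) :=
    Real.summable_nat_rpow_inv.mpr (by norm_num)
  obtain ⟨s, hs⟩ := summable_iff_vanishing_norm.mp hsum (1 / 4) (by norm_num)
  obtain ⟨N1, hN1⟩ := exists_nat_ge ((8 / c) ^ 2)
  set Z0 := max (max Z A) (max (max (s.sup id) 2) N1) with hZ0
  have hZZ : Z ≤ Z0 := le_trans (le_max_left _ _) (le_max_left _ _)
  have hZA : A ≤ Z0 := le_trans (le_max_right _ _) (le_max_left _ _)
  have hZs : s.sup id ≤ Z0 :=
    le_trans (le_trans (le_max_left _ _) (le_max_left _ _)) (le_max_right _ _)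
  have hZ2 : 2 ≤ Z0 :=
    le_trans (le_trans (le_max_right _ _) (le_max_left _ _)) (le_max_right _ _)
  have hZN : N1 ≤ Z0 := le_trans (le_max_right _ _) (le_max_right _ _)
  have htail : ∀ U : ℕ, ∑ l ∈ Finset.Ioc Z0 U, ((l : ℝ) ^ ((5 : ℝ) / 4))⁻¹ ≤ 1 / 4 := by
    intro U
    have h := hs (Finset.Ioc Z0 U) (by
      rw [Finset.disjoint_left]
      intro l hl hls
      rw [Finset.mem_Ioc] at hl
      have : l ≤ s.sup id := Finset.le_sup (f := id) hls
      omega)
    exact le_trans (le_abs_self _) h.le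
  have hsq4 : ∀ l : ℕ, 1 ≤ l → 1 / ((l : ℝ) * l) ≤ ((l : ℝ) ^ ((5 : ℝ) / 4))⁻¹ := by
    intro l hl
    have hl1 : (1 : ℝ) ≤ l := by exact_mod_cast hl
    rw [one_div]
    apply inv_anti₀ (by positivity)
    calc (l : ℝ) ^ ((5 : ℝ) / 4) ≤ (l : ℝ) ^ (2 : ℝ) :=
          Real.rpow_le_rpow_of_exponent_le hl1 (by norm_num)
      _ = (l : ℝ) * l := by rw [Real.rpow_two, sq]
  refine ⟨1 / (4 * (Z0.factorial : ℝ)), by positivity, Z0.factorial ^ 2, ?_⟩
  intro U hU
  set w : ℕ → ℝ := fun l => (l : ℝ) ^ (-(1 : ℝ) / 4) with hw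
  have hw0 : ∀ l, 0 ≤ w l := fun l => by simp only [hw]; positivity
  set W := ∑ u ∈ rough Z0 U, (1 : ℝ) / (u : ℝ) with hW
  have hW0 : 0 ≤ W := Finset.sum_nonneg (fun _ _ => by positivity)
  have hlow := rough_lower Z0 U hU
  have hF := sum_F Z0 U w hw0
  have hS := sum_sq Z0 U
  rw [← hW] at hF hS hlow
  have hF' : ∑ u ∈ rough Z0 U, ((1 : ℝ) / (u : ℝ)) * (∑ l ∈ u.primeFactors, w l) ≤ (1 / 4) * W := by
    refine le_trans hF (mul_le_mul_of_nonneg_right ?_ hW0)
    refine le_trans (le_of_eq ?_) (htail U)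
    apply Finset.sum_congr rfl
    intro l hl
    rw [Finset.mem_Ioc] at hl
    have hl0 : (0 : ℝ) < l := by exact_mod_cast (by omega : 0 < l)
    simp only [hw]
    rw [← Real.rpow_neg hl0.le, div_eq_iff hl0.ne', ← Real.rpow_add_one hl0.ne']
    norm_num
  have hS' : ∑ u ∈ (rough Z0 U).filter (fun u => ¬ Squarefree u), ((1 : ℝ) / (u : ℝ)) ≤
      (1 / 4) * W := by
    refine le_trans hS (mul_le_mul_of_nonneg_right ?_ hW0)
    refine le_trans ?_ (htail U)
    apply Finset.sum_le_sum
    intro l hl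
    rw [Finset.mem_Ioc] at hl
    exact hsq4 l (by omega)
  -- split W
  have hsplit : W ≤ ∑ u ∈ (rough Z0 U).filter (fun u => Squarefree u ∧
      ∑ l ∈ u.primeFactors, w l ≤ 1), (1 : ℝ) / (u : ℝ) +
      (∑ u ∈ (rough Z0 U).filter (fun u => ¬ Squarefree u), ((1 : ℝ) / (u : ℝ)) +
      ∑ u ∈ rough Z0 U, ((1 : ℝ) / (u : ℝ)) * (∑ l ∈ u.primeFactors, w l)) := by
    rw [hW, Finset.sum_filter, Finset.sum_filter, ← Finset.sum_add_distrib,
      ← Finset.sum_add_distrib]
    apply Finset.sum_le_sum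
    intro u _
    have hs0 : 0 ≤ ∑ l ∈ u.primeFactors, w l := Finset.sum_nonneg (fun l _ => hw0 l)
    have hu0 : (0 : ℝ) ≤ 1 / (u : ℝ) := by positivity
    by_cases h1 : Squarefree u
    · by_cases h2 : ∑ l ∈ u.primeFactors, w l ≤ 1
      · simp only [h1, h2, and_self, if_true, not_true, if_false]
        have := mul_nonneg hu0 hs0
        linarith
      · simp only [h1, h2, and_false, if_false, not_true, zero_add]
        push Not at h2
        nlinarith
    · simp only [h1, false_and, if_false, not_false_eq_true, if_true, zero_add]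
      have := mul_nonneg hu0 hs0
      linarith
  have hgood : ∑ u ∈ (rough Z0 U).filter (fun u => Squarefree u ∧
      ∑ l ∈ u.primeFactors, w l ≤ 1), (1 : ℝ) / (u : ℝ) ≤
      ∑ u ∈ (Finset.Icc 1 U).filter (fun u : ℕ =>
        Squarefree u ∧ (∀ p ∈ u.primeFactors, Z < p) ∧
        ∀ v a : ℕ, 1 ≤ v → v < u → ¬ IsSquare (u * v * a.factorial)), (1 : ℝ) / (u : ℝ) := by
    apply Finset.sum_le_sum_of_subset_of_nonneg
    · intro u hu
      simp only [Finset.mem_filter, rough] at hu ⊢
      obtain ⟨⟨hu1, hu2⟩, hu3, hu4⟩ := hu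
      refine ⟨hu1, hu3, fun p hp => lt_of_le_of_lt hZZ (hu2 p hp), ?_⟩
      intro v a hv hvu
      refine no_square hc hZ2 (fun a ha => hA a (le_trans hZA ha)) hu3 hu2 ?_ v a hv hvu
      intro a ha
      have ha0 : (0 : ℝ) < a := by exact_mod_cast (by omega : 0 < a)
      -- log l ≤ 4 l^(1/4) = 4 l^(1/2) l^(-1/4) ≤ 4 a^(1/2) w l
      have hb : ∀ l ∈ u.primeFactors.filter (fun l => l ≤ a), Real.log l ≤
          4 * (a : ℝ) ^ ((1 : ℝ) / 2) * w l := by
        intro l hl
        rw [Finset.mem_filter] at hl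
        have hl0 : (0 : ℝ) < l := by
          exact_mod_cast (Nat.prime_of_mem_primeFactors hl.1).pos
        have h1 := Real.log_le_rpow_div hl0.le (ε := 1 / 4) (by norm_num)
        have h2 : (l : ℝ) ^ ((1 : ℝ) / 4) = (l : ℝ) ^ ((1 : ℝ) / 2) * w l := by
          simp only [hw]
          rw [← Real.rpow_add hl0]
          norm_num
        have h3 : (l : ℝ) ^ ((1 : ℝ) / 2) ≤ (a : ℝ) ^ ((1 : ℝ) / 2) :=
          Real.rpow_le_rpow hl0.le (by exact_mod_cast hl.2) (by norm_num)
        calc Real.log l ≤ (l : ℝ) ^ ((1 : ℝ) / 4) / (1 / 4) := h1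
          _ = 4 * ((l : ℝ) ^ ((1 : ℝ) / 2) * w l) := by rw [h2]; ring
          _ ≤ 4 * ((a : ℝ) ^ ((1 : ℝ) / 2) * w l) := by
              have := mul_le_mul_of_nonneg_right h3 (hw0 l)
              linarith
          _ = _ := by ring
      have hb2 : ∑ l ∈ u.primeFactors.filter (fun l => l ≤ a), Real.log l ≤
          4 * (a : ℝ) ^ ((1 : ℝ) / 2) * 1 := by
        refine le_trans (Finset.sum_le_sum hb) ?_
        rw [← Finset.mul_sum]
        apply mul_le_mul_of_nonneg_left _ (by positivity)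
        refine le_trans ?_ hu4
        apply Finset.sum_le_sum_of_subset_of_nonneg (Finset.filter_subset _ _)
        intro l _ _
        exact hw0 l
      -- 4 sqrt a ≤ (c/2) a
      have hsa : (a : ℝ) ^ ((1 : ℝ) / 2) * (a : ℝ) ^ ((1 : ℝ) / 2) = a := by
        rw [← Real.rpow_add ha0]; norm_num
      have hs8 : 8 / c ≤ (a : ℝ) ^ ((1 : ℝ) / 2) := by
        have h1 : (8 / c) ^ 2 ≤ (a : ℝ) := by
          refine le_trans hN1 ?_
          exact_mod_cast le_trans hZN ha
        have h2 : 0 ≤ (a : ℝ) ^ ((1 : ℝ) / 2) := by positivity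
        nlinarith [div_pos (by norm_num : (0 : ℝ) < 8) hc]
      have h8 : 8 ≤ c * (a : ℝ) ^ ((1 : ℝ) / 2) := by
        rw [div_le_iff₀ hc] at hs8
        linarith
      have h2 : 0 ≤ (a : ℝ) ^ ((1 : ℝ) / 2) := by positivity
      nlinarith
    · intros; positivity
  have hQ : (0 : ℝ) < Z0.factorial := by exact_mod_cast Nat.factorial_pos Z0
  have e1 : 1 / (4 * (Z0.factorial : ℝ)) * Real.log U =
      (1 / 2) * (1 / (2 * (Z0.factorial : ℝ)) * Real.log U) := by
    field_simp
    ring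
  rw [e1]
  linarith

end Pool.Agent.Helper601.JobD
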