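import Mathlib
import Pool.Agent.Helper601.PartA2

set_option autoImplicit false

namespace Pool.Agent.Helper601

open Finset

theorem card_le_of_real_Ioo (G : Finset ℕ) (α β : ℝ) (hα : 0 ≤ α) (hαβ : α ≤ β)
    (h : ∀ k ∈ G, α < (k : ℝ) ∧ (k : ℝ) < β) : (G.card : ℝ) ≤ β - α + 1 := by
  have hsub : G ⊆ Finset.Ioc ⌊α⌋₊ ⌊β⌋₊ := by
    intro k hk
    obtain ⟨h1, h2⟩ := h k hk
    rw [Finset.mem_Ioc]
    constructor
    · have : (⌊α⌋₊ : ℝ) < k := lt_of_le_of_lt (Nat.floor_le hα) h1
      exact_mod_cast this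
    · exact Nat.le_floor h2.le
  have h1 := Finset.card_le_card hsub
  rw [Nat.card_Ioc] at h1
  have h2 : ((⌊β⌋₊ - ⌊α⌋₊ : ℕ) : ℝ) ≤ β - α + 1 := by
    rw [Nat.cast_sub (Nat.floor_mono hαβ)]
    have e1 := Nat.floor_le (hα.trans hαβ)
    have e2 := Nat.lt_floor_add_one α
    linarith
  refine le_trans ?_ h2
  exact_mod_cast h1

theorem sum_inv_le_log (n : ℕ) : ∑ k ∈ Finset.Icc 1 n, (1 : ℝ) / k ≤ 1 + Real.log n := by
  have h := harmonic_le_one_add_log n
  rw [harmonic_eq_sum_Icc] at h
  push_cast at h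
  simpa [one_div] using h

theorem aux_scale {y s c lam : ℝ} (h : y ≤ c * s) (hc : c ≤ lam) (hs : 0 ≤ s) : y ≤ lam * s :=
  h.trans (mul_le_mul_of_nonneg_right hc hs)

theorem aux_le_mul {a X d : ℝ} (hX : 1 ≤ X) (h : a ≤ d) (hd : 0 ≤ d) : a ≤ X * d := by
  have := mul_le_mul_of_nonneg_right hX hd
  linarith

theorem aux_az {a Ca t s X c : ℝ} (h : a ≤ Ca * (t + s) + X) (hX : X ≤ s) (hts : t ≤ s)
    (hCa : 0 ≤ Ca) (hs : 0 < s) (hc : 2 * Ca + 1 + 2 ≤ c) : a < c * s := by
  have h1 : Ca * (t + s) ≤ Ca * (s + s) := mul_le_mul_of_nonneg_left (by linarith) hCa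
  have h2 : (2 * Ca + 1 + 2) * s ≤ c * s := mul_le_mul_of_nonneg_right hc hs.le
  have h3 : Ca * (s + s) + s < (2 * Ca + 1 + 2) * s := by
    have : (2 * Ca + 1 + 2) * s = Ca * (s + s) + s + 2 * s := by ring
    linarith
  linarith

theorem aux_sq {m s z : ℕ} (h : 4 * m ≤ s ^ 2) (h2 : s ≤ z) : m < (z + 1) ^ 2 := by
  have : s ^ 2 ≤ z ^ 2 := Nat.pow_le_pow_left h2 2
  nlinarith

theorem aux_log {l w L : ℝ} (h1 : w ≤ 1) (h2 : l ≤ L) (h3 : 0 ≤ l) : l * w ≤ L := by
  have := mul_le_mul_of_nonneg_left h1 h3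
  linarith

theorem aux_f3 {b m y y' k : ℝ} (hb : b ≤ m) (hy : y' ≤ y) (hy' : 0 ≤ y') (hm : 0 ≤ m)
    (hk : 0 ≤ k) : b * k * y' ≤ m * k * y := by
  have h1 : b * y' ≤ m * y := mul_le_mul hb hy hy' hm
  have h2 := mul_le_mul_of_nonneg_right h1 hk
  linarith

theorem aux_g1 {b s t y' : ℝ} (ht : t ≤ b) (hs : 0 ≤ s) :
    b * s + t * y' + t * s ≤ 2 * (b * s) + t * y' := by
  have := mul_le_mul_of_nonneg_right ht hs
  linarith

theorem aux_g4 {s y y' : ℝ} (h : y ≤ 3 * y') (hs : 0 ≤ s) : 2 * s * y ≤ 6 * s * y' := by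
  have := mul_le_mul_of_nonneg_left h hs
  linarith

theorem aux_g5 {t m b : ℝ} (h : m ≤ 2 * b) (ht : 0 ≤ t) : t * m ≤ 2 * t * b := by
  have := mul_le_mul_of_nonneg_left h ht
  linarith

theorem aux_f9 {y b k : ℝ} (h : y ≤ b) (hk : 0 ≤ k) : y * k ≤ 1 * (b * k) := by
  have := mul_le_mul_of_nonneg_right h hk
  linarith

theorem aux_K {K C t s : ℝ} (hK : 2 * C ≤ K) (h : K * t ≤ s) (ht : 0 ≤ t) : C * t ≤ s / 2 := by
  have := mul_le_mul_of_nonneg_right hK ht
  linarith

theorem aux_K8 {K C t s : ℝ} (hK : 8 * C ≤ K) (h : K * t ≤ s) (ht : 0 ≤ t) : C * t ≤ s / 8 := by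
  have := mul_le_mul_of_nonneg_right hK ht
  linarith

theorem aux_half {w l y : ℝ} (hw : w ≤ y / 2) (hl : l ≤ 1 / 2) (hy : 0 ≤ y) : w ≤ (1 - l) * y := by
  have := mul_le_mul_of_nonneg_right hl hy
  linarith

theorem aux_psq {m y s P : ℕ} (h1 : y < 2 * P) (h2 : 4 * m ≤ s ^ 2) (h3 : s ≤ y) : m < P ^ 2 := by
  have e2 : y ^ 2 < (2 * P) ^ 2 := Nat.pow_lt_pow_left h1 (by norm_num)
  have e3 : s ^ 2 ≤ y ^ 2 := Nat.pow_le_pow_left h3 2
  nlinarith

theorem partA3 (δ : ℝ) (hδ : 0 < δ) : ∃ K : ℕ, 1 ≤ K ∧ ∃ m₀ : ℕ, 2 ≤ m₀ ∧ ∀ m : ℕ, m₀ ≤ m →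
    ∀ b y y' a : ℕ, Rep m b y y' a → (m : ℝ) ^ (1 / 2 + δ) ≤ ((y - y' : ℕ) : ℝ) →
    K * (m - b) ≤ y - y' → False := by
  obtain ⟨Ca, hCa1, m₁, hm₁, hCa⟩ := partA_a δ hδ
  obtain ⟨Cl, hCl1, hCl⟩ := block_lower
  obtain ⟨CW, hCW1, hCW⟩ := window_count δ hδ
  obtain ⟨CH, hCH1, m₂, hm₂, hCH⟩ := hit_count' δ hδ
  obtain ⟨m₃, hm₃, hcon⟩ := exists_const_le δ 4 hδ
  obtain ⟨m₄, hm₄, hlogc⟩ := exists_log_le δ 1 hδ
  set c₂ : ℕ := ⌈2 * Ca + 1⌉₊ + 2 with hc₂
  have hc₂r : 2 * Ca + 1 + 2 ≤ (c₂ : ℝ) := by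
    rw [hc₂]; push_cast
    have := Nat.le_ceil (2 * Ca + 1)
    linarith
  set K : ℕ := ⌈2 * CW + 8 * CH⌉₊ + 2 with hK
  have hKr : 2 * CW + 8 * CH + 2 ≤ (K : ℝ) := by
    rw [hK]; push_cast
    have := Nat.le_ceil (2 * CW + 8 * CH)
    linarith
  set D : ℝ := Cl * (1 + c₂) + 8 with hD
  have hc₂0 : (2 : ℝ) ≤ c₂ := by linarith
  have hD0 : 0 ≤ D := by positivity
  set lam : ℝ := Real.exp (2 * D) * c₂ with hlam
  have hexp1 : 1 ≤ Real.exp (2 * D) := Real.one_le_exp (by positivity)
  have hlam2 : 2 ≤ lam := by nlinarith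
  have hlamc : (c₂ : ℝ) ≤ lam := by nlinarith
  obtain ⟨x₀, hx₀⟩ := pnt_count (1 / lam) (by positivity)
  obtain ⟨m₅, hm₅, hconx⟩ := exists_const_le δ (x₀ : ℝ) hδ
  refine ⟨K, by omega, m₁ + m₂ + m₃ + m₄ + m₅, by omega, ?_⟩
  intro m hm b y y' a hR hs hsK
  have hmm₁ : m₁ ≤ m := by omega
  have hmm₂ : m₂ ≤ m := by omega
  have hmm₃ : m₃ ≤ m := by omega
  have hmm₄ : m₄ ≤ m := by omega
  have hmm₅ : m₅ ≤ m := by omega
  have hm2 : 2 ≤ m := by omega
  have hm' : (2 : ℝ) ≤ m := by exact_mod_cast hm2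
  have hm0 : (0 : ℝ) < m := by linarith
  have hlogm : 0 < Real.log m := Real.log_pos (by linarith)
  have hR' := hR
  obtain ⟨h1, h2, h3, h4, h5⟩ := hR'
  set t := m - b with htdef
  have htm : b + t = m := by omega
  have htr : (m : ℝ) - b = t := by rw [htdef, Nat.cast_sub h4.le]
  set s := y - y' with hsdef
  have hsm : y' + s = y := by omega
  have hsr : (y : ℝ) - y' = s := by rw [hsdef, Nat.cast_sub h2]
  have hmX : (1 : ℝ) ≤ (m : ℝ) ^ (1 / 2 : ℝ) := Real.one_le_rpow (by linarith) (by norm_num)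
  have hmd0 : (0 : ℝ) < (m : ℝ) ^ δ := by positivity
  have hs4 : (4 : ℝ) ≤ s := by
    refine le_trans (hcon m hmm₃) (le_trans ?_ hs)
    rw [rpow_half_add δ hm2]
    exact aux_le_mul hmX le_rfl hmd0.le
  have hs0 : (0 : ℝ) < s := by linarith
  have hs4n : 4 ≤ s := by exact_mod_cast hs4
  have ht1 : 1 ≤ t := by omega
  have ht0 : (0 : ℝ) < t := by exact_mod_cast ht1
  have hKt : (K : ℝ) * t ≤ s := by exact_mod_cast hsK
  have h2ts : 2 * t ≤ s := by
    refine le_trans (Nat.mul_le_mul_right t ?_) hsK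
    omega
  have hts : t ≤ s := by omega
  have hsy : s ≤ y := by omega
  have hmb : m ≤ 2 * b := by omega
  have hym : y ≤ m := by omega
  have hyr : (s : ℝ) ≤ y := by exact_mod_cast hsy
  have hy0 : (0 : ℝ) < y := by linarith
  have hsX : (m : ℝ) ^ (1 / 2 + δ) ≤ y := hs.trans hyr
  have hssq : 4 * m ≤ s ^ 2 := sq_of_ge hm2 (hcon m hmm₃) hs
  -- bounds for a
  have hat := hCa m hmm₁ b y y' a hR
  rw [htr, hsr] at hat
  set z := c₂ * s with hz
  have hzr : (z : ℝ) = c₂ * s := by rw [hz]; push_cast; ring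
  have htsr : (t : ℝ) ≤ s := by exact_mod_cast hts
  have haz : a < z := by
    have : (a : ℝ) < z := by
      rw [hzr]
      exact aux_az hat hs htsr (by linarith) hs0 hc₂r
    exact_mod_cast this
  have hsz : s ≤ z := by
    rw [hz]; exact Nat.le_mul_of_pos_left _ (by omega)
  have htz : t ≤ z := by omega
  have hz0 : (0 : ℝ) < z := by rw [hzr]; positivity
  -- Step 1
  have hstep1 : (y : ℝ) ≤ lam * s := by
    by_cases hcase1 : 2 * y' + 1 < y
    · have : (y : ℝ) ≤ 2 * s := by
        have : y ≤ 2 * s := by omega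
        exact_mod_cast this
      exact aux_scale this hlam2 hs0.le
    push Not at hcase1
    by_cases hcase2 : y ≤ z
    · have : (y : ℝ) ≤ z := by exact_mod_cast hcase2
      rw [hzr] at this
      exact aux_scale this hlamc hs0.le
    push Not at hcase2
    have hzy : (z : ℝ) < y := by exact_mod_cast hcase2
    have hz2 : 2 ≤ z := by omega
    have hmz : m < (z + 1) ^ 2 := aux_sq hssq hsz
    have hL0 : 0 ≤ Real.log y - Real.log z := by
      have := Real.log_le_log hz0 hzy.le
      linarith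
    have hlow := hCl y' y z h2 (by omega) hz2 (by omega)
    rw [hsr] at hlow
    have hlarge : ∀ P : ℕ, P.Prime → z < P → y' / P < y / P → m / P = b / P + 1 ∧
        y / P = y' / P + 1 := by
      intro P hP hzP hlt
      have hmP : m < P ^ 2 := by
        have : (z + 1) ^ 2 ≤ P ^ 2 := Nat.pow_le_pow_left hzP 2
        omega
      have h6 := rep_large hR hP hmP (by omega) (by omega) (by omega)
      have e1 : m / P ≤ b / P + 1 := by
        have : m / P ≤ (b + P) / P := Nat.div_le_div_right (by omega)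
        rwa [Nat.add_div_right _ hP.pos] at this
      have e2 : y / P ≤ y' / P + 1 := by
        have : y / P ≤ (y' + P) / P := Nat.div_le_div_right (by omega)
        rwa [Nat.add_div_right _ hP.pos] at this
      have e4 : b / P ≤ m / P := Nat.div_le_div_right h4.le
      omega
    set T := ((Mertens.PP y).filter (fun P => z < P)).filter (fun P => y' / P < y / P) with hT
    have hTW : ∑ P ∈ (Mertens.PP y).filter (fun P => z < P),
        Real.log P * ((y / P - y' / P : ℕ) : ℝ) ≤ (T.card : ℝ) * Real.log m := by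
      have e1 : ∑ P ∈ (Mertens.PP y).filter (fun P => z < P),
          Real.log P * ((y / P - y' / P : ℕ) : ℝ) =
          ∑ P ∈ T, Real.log P * ((y / P - y' / P : ℕ) : ℝ) := by
        symm
        apply Finset.sum_subset (Finset.filter_subset _ _)
        intro P hP hP2
        have : ¬ y' / P < y / P := by
          intro hlt
          apply hP2
          rw [Finset.mem_filter]
          exact ⟨hP, hlt⟩
        have : y / P - y' / P = 0 := by omega
        rw [this]; simp
      rw [e1]
      have e2 : ∑ P ∈ T, Real.log P * ((y / P - y' / P : ℕ) : ℝ) ≤ ∑ _P ∈ T, Real.log m := by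
        apply Finset.sum_le_sum
        intro P hP
        simp only [hT, Finset.mem_filter, Finset.mem_Icc] at hP
        obtain ⟨⟨⟨⟨g1, g2⟩, g3⟩, g4⟩, g5⟩ := hP
        have w0 := (hlarge P g3 g4 g5).2
        have w1 : ((y / P - y' / P : ℕ) : ℝ) ≤ 1 := by
          have : y / P - y' / P ≤ 1 := by omega
          exact_mod_cast this
        have w2 : Real.log P ≤ Real.log m := by
          apply Real.log_le_log
          · exact_mod_cast g3.pos
          · exact_mod_cast (by omega : P ≤ m)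
        have w3 : 0 ≤ Real.log P := Real.log_nonneg (by exact_mod_cast g3.one_lt.le)
        exact aux_log w1 w2 w3
      rw [Finset.sum_const, nsmul_eq_mul] at e2
      exact e2
    have hTcard : (T.card : ℝ) * Real.log m ≤
        s + CW * t * (9 + (Real.log y - Real.log z)) := by
      by_cases hlen : (m : ℝ) ^ δ * ((m / z : ℕ) : ℝ) ≤ t
      · -- long case
        set G : ℕ → Finset ℕ := fun k' => (Finset.Icc 1 (m / z)).filter
          (fun k => b * k' < k * y ∧ k * y' < m * k') with hG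
        have hTsub : T ⊆ (Finset.Icc 1 (y / z)).biUnion (fun k' => (G k').biUnion
            (fun k => PI (b / k) (m / k))) := by
          intro P hP
          simp only [hT, Finset.mem_filter, Finset.mem_Icc] at hP
          obtain ⟨⟨⟨⟨g1, g2⟩, g3⟩, g4⟩, g6⟩ := hP
          obtain ⟨g7, g8⟩ := hlarge P g3 g4 g6
          have hkpos : 1 ≤ m / P := by
            rw [g7]; exact Nat.succ_le_succ (Nat.zero_le _)
          have hk'pos : 1 ≤ y / P := by
            rw [g8]; exact Nat.succ_le_succ (Nat.zero_le _)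
          have hk2 : P * (m / P) ≤ m := Nat.mul_div_le m P
          have hk1 : b < P * (m / P) := by
            have := Nat.lt_mul_div_succ b g3.pos
            calc b < P * (b / P + 1) := this
              _ = P * (m / P) := by rw [g7]
          have hk'1 : y' < P * (y / P) := by
            have := Nat.lt_mul_div_succ y' g3.pos
            calc y' < P * (y' / P + 1) := this
              _ = P * (y / P) := by rw [g8]
          have hk'2 : P * (y / P) ≤ y := Nat.mul_div_le y P
          rw [Finset.mem_biUnion]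
          refine ⟨y / P, Finset.mem_Icc.2 ⟨hk'pos, Nat.div_le_div_left g4.le (by omega)⟩, ?_⟩
          rw [Finset.mem_biUnion]
          refine ⟨m / P, ?_, ?_⟩
          · rw [hG, Finset.mem_filter]
            refine ⟨Finset.mem_Icc.2 ⟨hkpos, Nat.div_le_div_left g4.le (by omega)⟩, ?_, ?_⟩
            · calc b * (y / P) < P * (m / P) * (y / P) := Nat.mul_lt_mul_of_pos_right hk1 hk'pos
                _ = (m / P) * (P * (y / P)) := by ring
                _ ≤ (m / P) * y := Nat.mul_le_mul_left _ hk'2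
            · calc (m / P) * y' < (m / P) * (P * (y / P)) := Nat.mul_lt_mul_of_pos_left hk'1 hkpos
                _ = P * (m / P) * (y / P) := by ring
                _ ≤ m * (y / P) := Nat.mul_le_mul_right _ hk2
          · simp only [Finset.mem_filter, Finset.mem_Ioc]
            refine ⟨⟨?_, ?_⟩, g3⟩
            · rw [Nat.div_lt_iff_lt_mul hkpos]; exact hk1
            · rw [Nat.le_div_iff_mul_le hkpos]; exact hk2
        have e1 : (T.card : ℝ) ≤ ∑ k' ∈ Finset.Icc 1 (y / z), ∑ k ∈ G k',
            ((PI (b / k) (m / k)).card : ℝ) := by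
          have e11 := (Finset.card_le_card hTsub).trans Finset.card_biUnion_le
          have e12 : ∑ k' ∈ Finset.Icc 1 (y / z), ((G k').biUnion
            (fun k => PI (b / k) (m / k))).card ≤ ∑ k' ∈ Finset.Icc 1 (y / z), ∑ k ∈ G k',
            (PI (b / k) (m / k)).card := Finset.sum_le_sum fun k' _ => Finset.card_biUnion_le
          exact_mod_cast e11.trans e12
        have hb0 : (0 : ℝ) < b := by exact_mod_cast (by omega : 0 < b)
        have hy'1 : 1 ≤ y' := by omega
        have hy'0 : (0 : ℝ) < y' := by exact_mod_cast hy'1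
        have hmr : (m : ℝ) = b + t := by linarith
        have hyrr : (y : ℝ) = y' + s := by linarith
        have e2 : ∀ k' ∈ Finset.Icc 1 (y / z), ∑ k ∈ G k', ((PI (b / k) (m / k)).card : ℝ) ≤
            CW * t / Real.log m * ((6 * s / y + 2 * t / m) + 1 / (k' : ℝ)) := by
          intro k' hk'
          rw [Finset.mem_Icc] at hk'
          have hk'0 : (0 : ℝ) < k' := by exact_mod_cast (by omega : 0 < k')
          have f1 : ∀ k ∈ G k', ((PI (b / k) (m / k)).card : ℝ) ≤
              CW * t / Real.log m * ((y : ℝ) / (b * k')) := by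
            intro k hk
            rw [hG, Finset.mem_filter, Finset.mem_Icc] at hk
            obtain ⟨⟨k1, k2⟩, k3, k4⟩ := hk
            have hkr : (0 : ℝ) < k := by exact_mod_cast (by omega : 0 < k)
            have w0 : (m : ℝ) ^ δ * k ≤ (m : ℝ) - b := by
              rw [htr]
              refine le_trans ?_ hlen
              apply mul_le_mul_of_nonneg_left _ hmd0.le
              exact_mod_cast k2
            have w1 := hCW m b m k hm2 h4.le k1 w0
            rw [htr] at w1
            have w2 : CW * t / (k * Real.log m) = (CW * t / Real.log m) * (1 / (k : ℝ)) := by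
              field_simp
            rw [w2] at w1
            refine w1.trans ?_
            apply mul_le_mul_of_nonneg_left _ (by positivity)
            rw [div_le_div_iff₀ hkr (by positivity)]
            have : (b : ℝ) * k' < k * y := by exact_mod_cast k3
            linarith
          have f2 := Finset.sum_le_sum f1
          rw [Finset.sum_const, nsmul_eq_mul] at f2
          have f3 : ((G k').card : ℝ) ≤ m * k' / y' - b * k' / y + 1 := by
            apply card_le_of_real_Ioo
            · positivity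
            · rw [div_le_div_iff₀ hy0 hy'0]
              have g1 : (b : ℝ) ≤ m := by linarith
              have g2 : (y' : ℝ) ≤ y := by linarith
              exact aux_f3 g1 g2 hy'0.le hm0.le hk'0.le
            · intro k hk
              rw [hG, Finset.mem_filter, Finset.mem_Icc] at hk
              obtain ⟨⟨k1, k2⟩, k3, k4⟩ := hk
              constructor
              · rw [div_lt_iff₀ hy0]; exact_mod_cast k3
              · rw [lt_div_iff₀ hy'0]; exact_mod_cast k4
          have f4 : ((G k').card : ℝ) * ((y : ℝ) / (b * k')) ≤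
              (6 * s / y + 2 * t / m) + 1 / (k' : ℝ) := by
            have f5 : ((G k').card : ℝ) * ((y : ℝ) / (b * k')) ≤
                (m * k' / y' - b * k' / y + 1) * ((y : ℝ) / (b * k')) :=
              mul_le_mul_of_nonneg_right f3 (by positivity)
            have f6 : (m * k' / y' - b * k' / y + 1) * ((y : ℝ) / (b * k')) =
                (m * y - b * y') / (b * y') + y / (b * k') := by
              field_simp
            have f7 : ((m : ℝ) * y - b * y') = b * s + t * y' + t * s := by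
              rw [hmr, hyrr]; ring
            have f8 : ((m : ℝ) * y - b * y') / (b * y') ≤ 6 * s / y + 2 * t / m := by
              rw [f7]
              have hbt : (t : ℝ) ≤ b := by exact_mod_cast (by omega : t ≤ b)
              have g1 : (b * s + t * y' + t * s : ℝ) ≤ 2 * (b * s) + t * y' :=
                aux_g1 hbt hs0.le
              have g2 : (b * s + t * y' + t * s : ℝ) / (b * y') ≤
                  (2 * (b * s) + t * y') / (b * y') :=
                div_le_div_of_nonneg_right g1 (by positivity)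
              have g3 : (2 * (b * s) + t * y' : ℝ) / (b * y') = 2 * s / y' + t / b := by
                field_simp
              have g4 : (2 : ℝ) * s / y' ≤ 6 * s / y := by
                rw [div_le_div_iff₀ hy'0 hy0]
                have : (y : ℝ) ≤ 3 * y' := by exact_mod_cast (by omega : y ≤ 3 * y')
                exact aux_g4 this hs0.le
              have g5 : (t : ℝ) / b ≤ 2 * t / m := by
                rw [div_le_div_iff₀ hb0 hm0]
                have : (m : ℝ) ≤ 2 * b := by exact_mod_cast hmb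
                exact aux_g5 this ht0.le
              linarith
            have f9 : (y : ℝ) / (b * k') ≤ 1 / (k' : ℝ) := by
              rw [div_le_div_iff₀ (by positivity) hk'0]
              have : (y : ℝ) ≤ b := by exact_mod_cast h3
              exact aux_f9 this hk'0.le
            linarith
          refine f2.trans ?_
          calc ((G k').card : ℝ) * (CW * t / Real.log m * ((y : ℝ) / (b * k')))
              = CW * t / Real.log m * (((G k').card : ℝ) * ((y : ℝ) / (b * k'))) := by ring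
            _ ≤ _ := mul_le_mul_of_nonneg_left f4 (by positivity)
        have e3 := e1.trans (Finset.sum_le_sum e2)
        rw [← Finset.mul_sum, Finset.sum_add_distrib, Finset.sum_const, nsmul_eq_mul,
          Nat.card_Icc] at e3
        have e4 : ((y / z : ℕ) : ℝ) ≤ (y : ℝ) / z := Nat.cast_div_le
        have e5 : ((y / z + 1 - 1 : ℕ) : ℝ) * (6 * s / y + 2 * t / m) ≤ 8 := by
          rw [Nat.add_sub_cancel]
          have g1 : ((y / z : ℕ) : ℝ) * (6 * s / y + 2 * t / m) ≤
              (y : ℝ) / z * (6 * s / y + 2 * t / m) :=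
            mul_le_mul_of_nonneg_right e4 (by positivity)
          have g2 : (y : ℝ) / z * (6 * s / y + 2 * t / m) = 6 * (s / z) + 2 * (t / z) * (y / m) := by
            field_simp
          have g3 : (s : ℝ) / z ≤ 1 := by
            rw [div_le_one hz0]; exact_mod_cast hsz
          have g4 : (t : ℝ) / z ≤ 1 := by
            rw [div_le_one hz0]; exact_mod_cast htz
          have g5 : (y : ℝ) / m ≤ 1 := by
            rw [div_le_one hm0]; exact_mod_cast hym
          have g6 : (0 : ℝ) ≤ t / z := by positivity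
          have g7 : (0 : ℝ) ≤ y / m := by positivity
          have g8 : (t : ℝ) / z * (y / m) ≤ 1 := by
            calc (t : ℝ) / z * (y / m) ≤ 1 * 1 := mul_le_mul g4 g5 g7 (by norm_num)
              _ = 1 := by norm_num
          linarith
        have e6 : ∑ k' ∈ Finset.Icc 1 (y / z), (1 : ℝ) / (k' : ℝ) ≤
            1 + (Real.log y - Real.log z) := by
          refine (sum_inv_le_log (y / z)).trans ?_
          have g1 : 0 < y / z := Nat.div_pos hcase2.le (by omega)
          have g2 : Real.log ((y / z : ℕ) : ℝ) ≤ Real.log ((y : ℝ) / z) := by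
            apply Real.log_le_log (by exact_mod_cast g1) e4
          rw [Real.log_div hy0.ne' hz0.ne'] at g2
          linarith
        have e7 : (T.card : ℝ) ≤ CW * t / Real.log m * (9 + (Real.log y - Real.log z)) := by
          refine e3.trans ?_
          apply mul_le_mul_of_nonneg_left _ (by positivity)
          linarith
        calc (T.card : ℝ) * Real.log m
            ≤ CW * t / Real.log m * (9 + (Real.log y - Real.log z)) * Real.log m :=
              mul_le_mul_of_nonneg_right e7 hlogm.le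
          _ = CW * t * (9 + (Real.log y - Real.log z)) := by field_simp
          _ ≤ _ := by linarith
      · -- short case
        push Not at hlen
        have e1 : T.card ≤ m - b := by
          apply card_hit_le m b m le_rfl T
          intro P hP
          simp only [hT, Finset.mem_filter, Finset.mem_Icc] at hP
          obtain ⟨⟨⟨⟨g1, g2⟩, g3⟩, g4⟩, g6⟩ := hP
          obtain ⟨g7, g8⟩ := hlarge P g3 g4 g6
          refine ⟨g3, ?_, by omega⟩
          have : (z + 1) ^ 2 ≤ P ^ 2 := Nat.pow_le_pow_left g4 2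
          omega
        have e2 : (T.card : ℝ) ≤ t := by exact_mod_cast e1
        have e3 : (m : ℝ) ^ δ * ((m / z : ℕ) : ℝ) ≤ (m : ℝ) ^ (1 / 2 : ℝ) := by
          have g1 : ((m / z : ℕ) : ℝ) ≤ (m : ℝ) / z := Nat.cast_div_le
          have g2 : (m : ℝ) ^ (1 / 2 + δ) ≤ z := by
            refine hs.trans ?_
            exact_mod_cast hsz
          have g3 : (m : ℝ) ^ δ * ((m : ℝ) / z) ≤ (m : ℝ) ^ (1 / 2 : ℝ) := by
            rw [mul_div_assoc', div_le_iff₀ hz0]
            have h7 : (m : ℝ) ^ δ * m = (m : ℝ) ^ (1 / 2 : ℝ) * (m : ℝ) ^ (1 / 2 + δ) := by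
              rw [rpow_half_add δ hm2]
              have h8 : (m : ℝ) ^ (1 / 2 : ℝ) * (m : ℝ) ^ (1 / 2 : ℝ) = m := by
                rw [← Real.rpow_add hm0]; norm_num
              calc (m : ℝ) ^ δ * m = (m : ℝ) ^ δ * ((m : ℝ) ^ (1 / 2 : ℝ) * (m : ℝ) ^ (1 / 2 : ℝ)) := by
                    rw [h8]
                _ = _ := by ring
            rw [h7]
            exact mul_le_mul_of_nonneg_left g2 (by positivity)
          have := mul_le_mul_of_nonneg_left g1 hmd0.le
          linarith
        have e4 : (T.card : ℝ) ≤ (m : ℝ) ^ (1 / 2 : ℝ) := by linarith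
        have e5 : (T.card : ℝ) * Real.log m ≤ s := by
          calc (T.card : ℝ) * Real.log m ≤ (m : ℝ) ^ (1 / 2 : ℝ) * (m : ℝ) ^ δ := by
                apply mul_le_mul e4 _ hlogm.le (by positivity)
                have := hlogc m hmm₄
                linarith
            _ = (m : ℝ) ^ (1 / 2 + δ) := by rw [rpow_half_add δ hm2]
            _ ≤ s := hs
        have : 0 ≤ CW * t * (9 + (Real.log y - Real.log z)) := by positivity
        linarith
    -- conclusion of step 1
    have hCWt : CW * t ≤ s / 2 := aux_K (by linarith) hKt ht0.le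
    have hfin : (s : ℝ) * (Real.log y - Real.log z) - Cl * s - Cl * z ≤
        s + s / 2 * (9 + (Real.log y - Real.log z)) := by
      have : CW * t * (9 + (Real.log y - Real.log z)) ≤ s / 2 * (9 + (Real.log y - Real.log z)) :=
        mul_le_mul_of_nonneg_right hCWt (by linarith)
      linarith
    rw [hzr] at hfin
    rw [← hzr] at hfin
    have hfin3 : Real.log y - Real.log z ≤ 2 * D := by
      have e1 : (Real.log y - Real.log z) * s ≤ 2 * D * s := by
        have e3 : 2 * D * s = 2 * (Cl * s + Cl * (c₂ * s)) + 16 * s := by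
          rw [hD]; ring
        rw [e3, ← hzr]
        linarith
      exact le_of_mul_le_mul_right e1 hs0
    have e1 : Real.log (y / z) ≤ 2 * D := by
      rw [Real.log_div hy0.ne' hz0.ne']; exact hfin3
    have e2 : (y : ℝ) / z ≤ Real.exp (2 * D) := by
      rw [← Real.log_le_iff_le_exp (by positivity)]
      exact e1
    rw [div_le_iff₀ hz0] at e2
    calc (y : ℝ) ≤ Real.exp (2 * D) * z := e2
      _ = lam * s := by rw [hzr, hlam]; ring
  -- Step 2
  have hlam0 : (0 : ℝ) < lam := by linarith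
  have hhalf : ((y / 2 : ℕ) : ℝ) ≤ (y : ℝ) / 2 := by
    have := @Nat.cast_div_le ℝ _ _ _ y 2
    simpa using this
  have hA : ((max y' (y / 2) : ℕ) : ℝ) ≤ (1 - 1 / lam) * y := by
    rw [Nat.cast_max]
    apply max_le
    · have h6 : (y : ℝ) / lam ≤ s := by
        rw [div_le_iff₀ hlam0]; linarith
      have : (1 - 1 / lam) * (y : ℝ) = y - y / lam := by ring
      rw [this]; linarith
    · have h7 : 1 / lam ≤ 1 / 2 := by
        apply one_div_le_one_div_of_le (by norm_num) hlam2
      exact aux_half hhalf h7 hy0.le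
  have hyx : x₀ ≤ y := by
    have : (x₀ : ℝ) ≤ y := by
      refine le_trans (hconx m hmm₅) (le_trans ?_ hsX)
      rw [rpow_half_add δ hm2]
      exact aux_le_mul hmX le_rfl hmd0.le
    exact_mod_cast this
  have h8 := hx₀ (max y' (y / 2)) y hyx hA
  have h9 : (s : ℝ) / 4 ≤ ((y : ℝ) - ((max y' (y / 2) : ℕ) : ℝ)) / 2 := by
    rw [Nat.cast_max]
    have e1 : (y' : ℝ) ≤ y - s / 2 := by linarith
    have e2 : ((y / 2 : ℕ) : ℝ) ≤ y - s / 2 := by linarith
    have := max_le e1 e2
    linarith
  have hhit := hCH m y b m hmm₂ hsX h3 h4.le le_rfl hmb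
  rw [htr] at hhit
  have hsub : PI (max y' (y / 2)) y ⊆ (PI (y / 2) y).filter (fun P => b / P < m / P) := by
    intro P hP
    simp only [Finset.mem_filter, Finset.mem_Ioc] at hP
    obtain ⟨⟨g1, g2⟩, g3⟩ := hP
    have g4 : y' < P := lt_of_le_of_lt (le_max_left _ _) g1
    have g5 : y / 2 < P := lt_of_le_of_lt (le_max_right _ _) g1
    have g6 : m < P ^ 2 := aux_psq (by omega) hssq hsy
    have g7 := rep_parity hR g3 g6
    rw [Nat.div_eq_of_lt g4, Nat.div_eq_of_lt (show a < P by omega)] at g7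
    have g8 : y / P = 1 := by
      apply Nat.div_eq_of_lt_le
      · omega
      · omega
    rw [g8] at g7
    simp only [Finset.mem_filter, Finset.mem_Ioc]
    refine ⟨⟨⟨g5, g2⟩, g3⟩, ?_⟩
    by_contra hc
    push Not at hc
    have e1 : b / P = m / P := le_antisymm (Nat.div_le_div_right h4.le) hc
    rw [e1] at g7
    obtain ⟨r, hr⟩ := g7
    omega
  have hcard : ((PI (max y' (y / 2)) y).card : ℝ) ≤
      (((PI (y / 2) y).filter (fun P => b / P < m / P)).card : ℝ) := by
    exact_mod_cast Finset.card_le_card hsub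
  have hlogy : Real.log y ≤ Real.log m := by
    apply Real.log_le_log hy0
    exact_mod_cast hym
  have hlogy0 : 0 ≤ Real.log y := Real.log_nonneg (by linarith)
  have h10 : ((PI (max y' (y / 2)) y).card : ℝ) * Real.log y ≤
      (((PI (y / 2) y).filter (fun P => b / P < m / P)).card : ℝ) * Real.log m :=
    mul_le_mul hcard hlogy hlogy0 (Nat.cast_nonneg _)
  have h11 : CH * t ≤ s / 8 := aux_K8 (by linarith) hKt ht0.le
  linarith

/-- Part A: both blocks and the lowest argument are short. -/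
theorem partA (δ : ℝ) (hδ : 0 < δ) : ∃ m₀ : ℕ, 2 ≤ m₀ ∧ ∀ m : ℕ, m₀ ≤ m →
    ∀ b y y' a : ℕ, Rep m b y y' a → ((m - b : ℕ) : ℝ) < (m : ℝ) ^ (1 / 2 + δ) ∧
      ((y - y' : ℕ) : ℝ) < (m : ℝ) ^ (1 / 2 + δ) ∧ (a : ℝ) < (m : ℝ) ^ (1 / 2 + 2 * δ) := by
  obtain ⟨K, hK1, m₁, hm₁, hA3⟩ := partA3 δ hδ
  obtain ⟨m₂, hm₂, hA2⟩ := partA2 (δ / 2) (by positivity) K hK1
  obtain ⟨C, hC1, m₃, hm₃, hAa⟩ := partA_a δ hδ
  obtain ⟨m₄, hm₄, hcK⟩ := exists_const_le (δ / 2) (K : ℝ) (by positivity)
  obtain ⟨m₅, hm₅, hcC⟩ := exists_const_le δ (2 * C + 2) hδ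
  refine ⟨m₁ + m₂ + m₃ + m₄ + m₅, by omega, ?_⟩
  intro m hm b y y' a hR
  have hm2 : 2 ≤ m := by omega
  have hm' : (2 : ℝ) ≤ m := by exact_mod_cast hm2
  have hm0 : (0 : ℝ) < m := by linarith
  have hKr : (1 : ℝ) ≤ K := by exact_mod_cast hK1
  have hmono : (m : ℝ) ^ (1 / 2 + δ / 2) * K ≤ (m : ℝ) ^ (1 / 2 + δ) := by
    have e1 : (m : ℝ) ^ (1 / 2 + δ) = (m : ℝ) ^ (1 / 2 + δ / 2) * (m : ℝ) ^ (δ / 2) := by
      rw [← Real.rpow_add hm0]; congr 1; ring
    rw [e1]
    exact mul_le_mul_of_nonneg_left (hcK m (by omega)) (by positivity)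
  have hX0 : (0 : ℝ) < (m : ℝ) ^ (1 / 2 + δ / 2) := by positivity
  have hs : ((y - y' : ℕ) : ℝ) < (m : ℝ) ^ (1 / 2 + δ) := by
    by_contra hc
    push Not at hc
    by_cases h1 : K * (m - b) ≤ y - y'
    · exact hA3 m (by omega) b y y' a hR hc h1
    · push Not at h1
      refine hA2 m (by omega) b y y' a hR ?_ h1.le
      have h2 : ((y - y' : ℕ) : ℝ) ≤ K * ((m - b : ℕ) : ℝ) := by exact_mod_cast h1.le
      have h3 : (m : ℝ) ^ (1 / 2 + δ / 2) * K ≤ ((m - b : ℕ) : ℝ) * K := by linarith
      exact le_of_mul_le_mul_right h3 (by linarith)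
  have ht : ((m - b : ℕ) : ℝ) < (m : ℝ) ^ (1 / 2 + δ) := by
    by_contra hc
    push Not at hc
    refine hA2 m (by omega) b y y' a hR ?_ ?_
    · nlinarith
    · have h2 : ((y - y' : ℕ) : ℝ) < ((m - b : ℕ) : ℝ) := lt_of_lt_of_le hs hc
      have h3 : y - y' < m - b := by exact_mod_cast h2
      calc y - y' ≤ m - b := h3.le
        _ ≤ K * (m - b) := Nat.le_mul_of_pos_left _ hK1
  refine ⟨ht, hs, ?_⟩
  have h1 := hAa m (by omega) b y y' a hR
  obtain ⟨g1, g2, g3, g4, -⟩ := hR
  rw [Nat.cast_sub g4.le] at ht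
  rw [Nat.cast_sub g2] at hs
  have hX1 : (0 : ℝ) < (m : ℝ) ^ (1 / 2 + δ) := by positivity
  have e1 : (m : ℝ) ^ (1 / 2 + 2 * δ) = (m : ℝ) ^ (1 / 2 + δ) * (m : ℝ) ^ δ := by
    rw [← Real.rpow_add hm0]; congr 1; ring
  rw [e1]
  have h2 := mul_le_mul_of_nonneg_left (hcC m (by omega)) hX1.le
  have h3 : C * (((m : ℝ) - b) + ((y : ℝ) - y')) < C * (2 * (m : ℝ) ^ (1 / 2 + δ)) := by
    apply mul_lt_mul_of_pos_left _ (by linarith)
    linarith
  nlinarith

end Pool.Agent.Helper601
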