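import Mathlib
import Pool.Agent.Helper601.Final1
import Pool.Agent.Helper601.JobD
import Pool.Agent.Helper601.PartA3

set_option autoImplicit false

namespace Pool.Agent.Helper601

open Finset

theorem theta_half : ∃ c : ℝ, 0 < c ∧ ∃ A : ℕ, ∀ a : ℕ, A ≤ a →
    c * (a : ℝ) ≤ Chebyshev.theta (a : ℝ) - Chebyshev.theta ((a : ℝ) / 2) := by
  have h1 := PNT.theta_div_tendsto
  rw [Metric.tendsto_atTop] at h1
  obtain ⟨x₁, hx₁⟩ := h1 (1 / 8) (by norm_num)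
  refine ⟨1 / 4, by norm_num, ⌈2 * |x₁|⌉₊ + 2, ?_⟩
  intro a ha
  have ha' : 2 * |x₁| ≤ a := (Nat.le_ceil _).trans (by exact_mod_cast (by omega : ⌈2 * |x₁|⌉₊ ≤ a))
  have ha2 : (2 : ℝ) ≤ a := by exact_mod_cast (by omega : 2 ≤ a)
  have hx := le_abs_self x₁
  have hx0 := abs_nonneg x₁
  have h2 := hx₁ a (by linarith)
  have h3 := hx₁ ((a : ℝ) / 2) (by linarith)
  rw [Real.dist_eq, abs_lt] at h2 h3
  have h4 : 7 / 8 < Chebyshev.theta (a : ℝ) / a := by linarith [h2.1]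
  have h5 : Chebyshev.theta ((a : ℝ) / 2) / ((a : ℝ) / 2) < 9 / 8 := by linarith [h3.2]
  rw [lt_div_iff₀ (by linarith)] at h4
  rw [div_lt_iff₀ (by linarith)] at h5
  linarith

open Classical in
/-- good multipliers in a range -/
noncomputable def goodSet (Y U₁ : ℕ) : Finset ℕ :=
  (Finset.Icc 1 Y).filter (fun u => GoodU u ∧ U₁ < u)

theorem mem_goodSet {Y U₁ u : ℕ} : u ∈ goodSet Y U₁ ↔ (1 ≤ u ∧ u ≤ Y) ∧ GoodU u ∧ U₁ < u := by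
  classical
  rw [goodSet, Finset.mem_filter, Finset.mem_Icc]

theorem goodSet_mass : ∃ κ : ℝ, 0 < κ ∧ ∀ U₁ : ℕ, ∃ Y₀ : ℕ, ∀ Y : ℕ, Y₀ ≤ Y →
    κ * Real.log Y ≤ ∑ u ∈ goodSet Y U₁, (1 : ℝ) / u := by
  classical
  obtain ⟨κ, hκ, U₀, hU⟩ := JobD.U_density theta_half 5
  refine ⟨κ / 2, by positivity, ?_⟩
  intro U₁
  refine ⟨U₀ + ⌈Real.exp (2 / κ * (1 + Real.log (U₁ + 1)))⌉₊, ?_⟩
  intro Y hY
  have h1 := hU Y (by omega)
  have hlogY : 2 / κ * (1 + Real.log (U₁ + 1)) ≤ Real.log Y := by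
    rw [← Real.log_exp (2 / κ * (1 + Real.log (U₁ + 1)))]
    apply Real.log_le_log (Real.exp_pos _)
    refine (Nat.le_ceil _).trans ?_
    exact_mod_cast (by omega : ⌈Real.exp (2 / κ * (1 + Real.log (U₁ + 1)))⌉₊ ≤ Y)
  have h2 : ∑ u ∈ (Finset.Icc 1 Y).filter (fun u : ℕ =>
        Squarefree u ∧ (∀ p ∈ u.primeFactors, 5 < p) ∧
        ∀ v a : ℕ, 1 ≤ v → v < u → ¬ IsSquare (u * v * a.factorial)), (1 : ℝ) / (u : ℝ) ≤
      ∑ u ∈ goodSet Y U₁, (1 : ℝ) / u + ∑ u ∈ Finset.Icc 1 U₁, (1 : ℝ) / u := by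
    have h3 : (Finset.Icc 1 Y).filter (fun u : ℕ =>
        Squarefree u ∧ (∀ p ∈ u.primeFactors, 5 < p) ∧
        ∀ v a : ℕ, 1 ≤ v → v < u → ¬ IsSquare (u * v * a.factorial)) ⊆
        goodSet Y U₁ ∪ Finset.Icc 1 U₁ := by
      intro u hu
      rw [Finset.mem_filter, Finset.mem_Icc] at hu
      rw [Finset.mem_union]
      by_cases h : U₁ < u
      · left
        rw [mem_goodSet]
        exact ⟨hu.1, hu.2, h⟩
      · right
        rw [Finset.mem_Icc]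
        exact ⟨hu.1.1, by omega⟩
    have h4 : ∀ (A B : Finset ℕ), ∑ u ∈ A ∪ B, (1 : ℝ) / u ≤
        ∑ u ∈ A, (1 : ℝ) / u + ∑ u ∈ B, (1 : ℝ) / u := by
      intro A B
      rw [← Finset.sum_union_inter]
      have : 0 ≤ ∑ u ∈ A ∩ B, (1 : ℝ) / (u : ℝ) := Finset.sum_nonneg fun u _ => by positivity
      linarith
    refine (Finset.sum_le_sum_of_subset_of_nonneg h3 fun u _ _ => by positivity).trans (h4 _ _)
  have h5 := sum_inv_le_log U₁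
  have h6 : Real.log U₁ ≤ Real.log (U₁ + 1) := by
    rcases Nat.eq_zero_or_pos U₁ with h | h
    · subst h; simp
    · apply Real.log_le_log
      · exact_mod_cast h
      · linarith
  have h7 : 1 + Real.log (U₁ + 1) ≤ κ / 2 * Real.log Y := by
    have : κ / 2 * (2 / κ * (1 + Real.log (U₁ + 1))) ≤ κ / 2 * Real.log Y :=
      mul_le_mul_of_nonneg_left hlogY (by positivity)
    have e : κ / 2 * (2 / κ * (1 + Real.log (U₁ + 1))) = 1 + Real.log (U₁ + 1) := by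
      field_simp
    linarith
  linarith

theorem goodSet_mass' (e : ℝ) (he : 0 < e) : ∃ κ : ℝ, 0 < κ ∧ ∀ U₁ : ℕ, ∃ x₀ : ℕ,
    2 ≤ x₀ ∧ ∀ x : ℕ, x₀ ≤ x →
    κ * Real.log x ≤ ∑ u ∈ goodSet ⌊(x : ℝ) ^ e⌋₊ U₁, (1 : ℝ) / u := by
  obtain ⟨κ, hκ, h⟩ := goodSet_mass
  refine ⟨κ * (e / 2), by positivity, ?_⟩
  intro U₁
  obtain ⟨Y₀, hY₀⟩ := h U₁
  obtain ⟨x₁, hx₁, hc⟩ := exists_const_le (e / 2) ((Y₀ : ℝ) + 2) (by positivity)
  refine ⟨x₁, hx₁, ?_⟩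
  intro x hx
  have hx2 : (2 : ℝ) ≤ x := by exact_mod_cast (by omega : 2 ≤ x)
  have hx0 : (0 : ℝ) < x := by linarith
  have h1 := hc x hx
  have hY0' : (0 : ℝ) ≤ Y₀ := Nat.cast_nonneg _
  have h2 : (x : ℝ) ^ e = (x : ℝ) ^ (e / 2) * (x : ℝ) ^ (e / 2) := by
    rw [← Real.rpow_add hx0]; congr 1; ring
  have h3 : (x : ℝ) ^ e < (⌊(x : ℝ) ^ e⌋₊ : ℝ) + 1 := Nat.lt_floor_add_one _
  have h4 : (x : ℝ) ^ (e / 2) * 2 ≤ (x : ℝ) ^ e := by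
    rw [h2]
    apply mul_le_mul_of_nonneg_left _ (by positivity)
    linarith
  have h5 : (x : ℝ) ^ (e / 2) ≤ (⌊(x : ℝ) ^ e⌋₊ : ℝ) := by linarith
  have h6 : Y₀ ≤ ⌊(x : ℝ) ^ e⌋₊ := by
    have : (Y₀ : ℝ) ≤ (⌊(x : ℝ) ^ e⌋₊ : ℝ) := by linarith
    exact_mod_cast this
  refine le_trans ?_ (hY₀ _ h6)
  rw [mul_assoc]
  apply mul_le_mul_of_nonneg_left _ hκ.le
  rw [← Real.log_rpow hx0]
  exact Real.log_le_log (by positivity) h5

end Pool.Agent.Helper601
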