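import Mathlib

set_option autoImplicit false

namespace Pool.Agent.Helper601.JobC

open Finset

/-! ## First Mertens theorem -/
/-- primes up to `N` -/
abbrev PP (N : ℕ) : Finset ℕ := (Finset.Icc 1 N).filter Nat.Prime

lemma log_factorial_eq (N : ℕ) :
    Real.log (N.factorial : ℝ) = ∑ p ∈ PP N, (N.factorial.factorization p : ℝ) * Real.log p := by
  rw [Real.log_nat_eq_sum_factorization, Finsupp.sum]
  have h1 : N.factorial.factorization.support ⊆ PP N := by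
    intro p hp
    rw [Nat.support_factorization, Nat.mem_primeFactors] at hp
    rw [Finset.mem_filter, Finset.mem_Icc]
    exact ⟨⟨hp.1.one_lt.le, (hp.1.dvd_factorial).1 hp.2.1⟩, hp.1⟩
  refine Finset.sum_subset h1 fun p _ hp => ?_
  rw [Finsupp.notMem_support_iff] at hp
  rw [hp]; simp

lemma sum_small_bound : ∃ C : ℝ, 0 ≤ C ∧ ∀ N : ℕ, ∑ p ∈ PP N, Real.log p / (p * (p - 1)) ≤ C := by
  have hs : Summable (fun n : ℕ => 4 / (n : ℝ) ^ (3 / 2 : ℝ)) := by
    have := Real.summable_nat_rpow_inv (p := (3 / 2 : ℝ)).2 (by norm_num)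
    have h2 := this.mul_left 4
    exact h2.congr fun n => (div_eq_mul_inv _ _).symm
  refine ⟨∑' n : ℕ, 4 / (n : ℝ) ^ (3 / 2 : ℝ), tsum_nonneg fun n => by positivity, fun N => ?_⟩
  refine le_trans ?_ (hs.sum_le_tsum (PP N) fun n _ => by positivity)
  refine Finset.sum_le_sum fun p hp => ?_
  rw [Finset.mem_filter] at hp
  have h2 : (2 : ℝ) ≤ p := by exact_mod_cast hp.2.two_le
  have hp0 : (0 : ℝ) < p := by linarith
  have hlog : Real.log p ≤ 2 * (p : ℝ) ^ (1 / 2 : ℝ) := by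
    have := Real.log_le_rpow_div hp0.le (ε := 1 / 2) (by norm_num)
    linarith
  rw [div_le_div_iff₀ (by nlinarith) (by positivity)]
  have h3 : (p : ℝ) ^ (1 / 2 : ℝ) * (p : ℝ) ^ (3 / 2 : ℝ) = p ^ 2 := by
    rw [← Real.rpow_add hp0]; norm_num
  have h4 : 0 < (p : ℝ) ^ (3 / 2 : ℝ) := by positivity
  calc Real.log p * (p : ℝ) ^ (3 / 2 : ℝ) ≤ 2 * (p : ℝ) ^ (1 / 2 : ℝ) * (p : ℝ) ^ (3 / 2 : ℝ) :=
        mul_le_mul_of_nonneg_right hlog h4.le
    _ = 2 * p ^ 2 := by rw [mul_assoc, h3]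
    _ ≤ 4 * (p * (p - 1)) := by nlinarith

lemma theta_le (N : ℕ) : ∑ p ∈ PP N, Real.log p ≤ 2 * N := by
  have h := Chebyshev.theta_le_log4_mul_x (x := (N : ℝ)) (by positivity)
  have h2 : Chebyshev.theta (N : ℝ) = ∑ p ∈ PP N, Real.log p := by
    rw [Chebyshev.theta, Nat.floor_natCast]
    rfl
  rw [h2] at h
  have h3 : Real.log 4 ≤ 2 := by
    have : Real.log 4 = 2 * Real.log 2 := by
      rw [show (4 : ℝ) = 2 ^ 2 by norm_num, Real.log_pow]; norm_num
    have := Real.log_two_lt_d9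
    linarith
  have : (0 : ℝ) ≤ N := by positivity
  nlinarith

theorem mertens_log : ∃ C : ℝ, ∀ N : ℕ, 1 ≤ N →
    |∑ p ∈ (Finset.Icc 1 N).filter Nat.Prime, Real.log p / p - Real.log N| ≤ C := by
  obtain ⟨C, hC0, hC⟩ := sum_small_bound
  refine ⟨C + 2, fun N hN => ?_⟩
  have hN' : (0 : ℝ) < N := by exact_mod_cast hN
  have hN1 : (1 : ℝ) ≤ N := by exact_mod_cast hN
  have hfac := log_factorial_eq N
  set P := ∑ p ∈ PP N, Real.log p / p with hP
  -- upper bound for the factorial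
  have hup : Real.log (N.factorial : ℝ) ≤ N * Real.log N := by
    rw [← Real.log_pow]
    apply Real.log_le_log
    · exact_mod_cast N.factorial_pos
    · exact_mod_cast N.factorial_le_pow
  have hlo : N * Real.log N - N ≤ Real.log (N.factorial : ℝ) := by
    have h1 := Stirling.le_log_factorial_stirling (n := N) (by omega)
    have h2 : 0 ≤ Real.log N := Real.log_nonneg hN1
    have h3 : 0 ≤ Real.log (2 * Real.pi) := Real.log_nonneg (by linarith [Real.pi_gt_three])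
    linarith
  -- lower bound for valuations
  have h1 : (N : ℝ) * P - 2 * N ≤ Real.log (N.factorial : ℝ) := by
    rw [hfac]
    have h2 := theta_le N
    have h3 : (N : ℝ) * P - ∑ p ∈ PP N, Real.log p ≤
        ∑ p ∈ PP N, (N.factorial.factorization p : ℝ) * Real.log p := by
      rw [hP, Finset.mul_sum, ← Finset.sum_sub_distrib]
      refine Finset.sum_le_sum fun p hp => ?_
      rw [Finset.mem_filter] at hp
      have hp0 : (0 : ℝ) < p := by exact_mod_cast hp.2.pos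
      have hlog : 0 ≤ Real.log p := Real.log_nonneg (by exact_mod_cast hp.2.one_lt.le)
      have h4 : N / p ≤ N.factorial.factorization p := by
        rw [Nat.factorization_factorial hp.2 (Nat.lt_succ_self (Nat.log p N))]
        by_cases h5 : p ≤ N
        · have h6 : 1 ≤ Nat.log p N := by
            have := Nat.log_pos hp.2.one_lt h5
            omega
          have h7 : N / p = N / p ^ 1 := by rw [pow_one]
          rw [h7]
          exact Finset.single_le_sum (f := fun i => N / p ^ i) (fun i _ => Nat.zero_le _)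
            (Finset.mem_Ico.2 ⟨le_rfl, by omega⟩)
        · rw [Nat.div_eq_of_lt (by omega)]; exact Nat.zero_le _
      have h5 : (N : ℝ) / p - 1 ≤ N.factorial.factorization p := by
        have h6 : (N : ℝ) / p < ((N / p : ℕ) : ℝ) + 1 := by
          rw [← Nat.floor_div_eq_div (K := ℝ)]
          exact Nat.lt_floor_add_one _
        have h7 : ((N / p : ℕ) : ℝ) ≤ N.factorial.factorization p := by exact_mod_cast h4
        linarith
      calc (N : ℝ) * (Real.log p / p) - Real.log p = (N / p - 1) * Real.log p := by ring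
        _ ≤ _ := mul_le_mul_of_nonneg_right h5 hlog
    linarith
  -- upper bound for valuations
  have h2 : Real.log (N.factorial : ℝ) ≤ N * P + N * C := by
    rw [hfac]
    have h3 : ∑ p ∈ PP N, (N.factorial.factorization p : ℝ) * Real.log p ≤
        ∑ p ∈ PP N, ((N : ℝ) * (Real.log p / p) + N * (Real.log p / (p * (p - 1)))) := by
      refine Finset.sum_le_sum fun p hp => ?_
      rw [Finset.mem_filter] at hp
      have h2' : (2 : ℝ) ≤ p := by exact_mod_cast hp.2.two_le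
      have hlog : 0 ≤ Real.log p := Real.log_nonneg (by linarith)
      have h4 : (N.factorial.factorization p : ℝ) ≤ N / (p - 1) := by
        have h5 := Nat.factorization_factorial_le_div_pred hp.2 N
        have h6 : (N.factorial.factorization p : ℝ) ≤ ((N / (p - 1) : ℕ) : ℝ) := by exact_mod_cast h5
        refine h6.trans ?_
        have h7 : ((p - 1 : ℕ) : ℝ) = (p : ℝ) - 1 := by
          rw [Nat.cast_sub hp.2.one_lt.le]; norm_num
        rw [← h7]
        exact Nat.cast_div_le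
      have h8 : (N : ℝ) * (Real.log p / p) + N * (Real.log p / (p * (p - 1))) =
          N / (p - 1) * Real.log p := by
        have : (p : ℝ) ≠ 0 := by linarith
        have : (p : ℝ) - 1 ≠ 0 := by linarith
        field_simp
        ring
      rw [h8]
      exact mul_le_mul_of_nonneg_right h4 hlog
    refine h3.trans ?_
    rw [Finset.sum_add_distrib, ← Finset.mul_sum, ← Finset.mul_sum]
    have := hC N
    have := mul_le_mul_of_nonneg_left this hN'.le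
    linarith
  change |P - Real.log N| ≤ C + 2
  rw [abs_le]
  constructor
  · have h3 : (N : ℝ) * (Real.log N - 1) ≤ N * (P + C) := by linarith
    have := le_of_mul_le_mul_left h3 hN'
    linarith
  · have h3 : (N : ℝ) * (P - 2) ≤ N * Real.log N := by linarith
    have := le_of_mul_le_mul_left h3 hN'
    linarith
lemma recip_lower : ∃ Y₀ : ℕ, 2 ≤ Y₀ ∧ ∀ Y : ℕ, Y₀ ≤ Y →
    (1 / 4 : ℝ) ≤ ∑ p ∈ (Finset.Ioc Y (Y ^ 2)).filter Nat.Prime, (1 : ℝ) / p := by
  obtain ⟨C, hC⟩ := mertens_log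
  refine ⟨max 2 ⌈Real.exp (4 * C)⌉₊, le_max_left _ _, fun Y hY => ?_⟩
  have hY2 : 2 ≤ Y := le_trans (le_max_left _ _) hY
  have hYr : (2 : ℝ) ≤ Y := by exact_mod_cast hY2
  have hY0 : (0 : ℝ) < Y := by linarith
  have hexp : Real.exp (4 * C) ≤ Y := by
    refine le_trans (Nat.le_ceil _) ?_
    exact_mod_cast le_trans (le_max_right _ _) hY
  have hlog : 4 * C ≤ Real.log Y := by
    rw [Real.le_log_iff_exp_le hY0]; exact hexp
  have hlogpos : 0 < Real.log Y := Real.log_pos (by linarith)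
  have h1 := hC Y (by omega)
  have h2 := hC (Y ^ 2) (Nat.one_le_pow _ _ (by omega))
  have hsub : (Finset.Icc 1 (Y ^ 2)).filter Nat.Prime =
      ((Finset.Icc 1 Y).filter Nat.Prime) ∪ ((Finset.Ioc Y (Y ^ 2)).filter Nat.Prime) := by
    ext p
    simp only [Finset.mem_filter, Finset.mem_union, Finset.mem_Icc, Finset.mem_Ioc]
    have : Y ≤ Y ^ 2 := by nlinarith
    constructor
    · rintro ⟨⟨a, b⟩, c⟩
      by_cases hp : p ≤ Y
      · left; exact ⟨⟨a, hp⟩, c⟩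
      · right; exact ⟨⟨by omega, b⟩, c⟩
    · rintro (⟨⟨a, b⟩, c⟩ | ⟨⟨a, b⟩, c⟩)
      · exact ⟨⟨a, by omega⟩, c⟩
      · exact ⟨⟨by omega, b⟩, c⟩
  have hdis : Disjoint ((Finset.Icc 1 Y).filter Nat.Prime)
      ((Finset.Ioc Y (Y ^ 2)).filter Nat.Prime) := by
    rw [Finset.disjoint_left]
    intro p hp hq
    rw [Finset.mem_filter, Finset.mem_Icc] at hp
    rw [Finset.mem_filter, Finset.mem_Ioc] at hq
    omega
  rw [hsub, Finset.sum_union hdis] at h2
  have hl2 : Real.log ((Y ^ 2 : ℕ) : ℝ) = 2 * Real.log Y := by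
    push_cast
    rw [Real.log_pow]; norm_num
  rw [hl2] at h2
  have h3 : Real.log Y / 2 ≤
      ∑ p ∈ (Finset.Ioc Y (Y ^ 2)).filter Nat.Prime, Real.log p / p := by
    have a1 := (abs_le.1 h1)
    have a2 := (abs_le.1 h2)
    linarith [a1.1, a1.2, a2.1, a2.2]
  have h4 : ∑ p ∈ (Finset.Ioc Y (Y ^ 2)).filter Nat.Prime, Real.log p / p ≤
      2 * Real.log Y * ∑ p ∈ (Finset.Ioc Y (Y ^ 2)).filter Nat.Prime, (1 : ℝ) / p := by
    rw [Finset.mul_sum]
    refine Finset.sum_le_sum fun p hp => ?_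
    rw [Finset.mem_filter, Finset.mem_Ioc] at hp
    have hp0 : (0 : ℝ) < p := by exact_mod_cast hp.2.pos
    have hp1 : Real.log p ≤ 2 * Real.log Y := by
      rw [← hl2]
      exact Real.log_le_log hp0 (by exact_mod_cast hp.1.2)
    rw [div_eq_mul_one_div]
    exact mul_le_mul_of_nonneg_right hp1 (by positivity)
  have h5 : Real.log Y / 2 ≤
      2 * Real.log Y * ∑ p ∈ (Finset.Ioc Y (Y ^ 2)).filter Nat.Prime, (1 : ℝ) / p := h3.trans h4
  by_contra hcon
  push Not at hcon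
  nlinarith

/-! ## periodic functions -/

lemma sum_mul_periodic {a b : ℕ} (ha : 0 < a) (hb : 0 < b) (hab : Nat.Coprime a b)
    (F G : ℕ → ℝ) (hF : Function.Periodic F a) (hG : Function.Periodic G b) :
    ∑ w ∈ range (a * b), F w * G w = (∑ u ∈ range a, F u) * (∑ v ∈ range b, G v) := by
  rw [Finset.sum_mul_sum, ← Finset.sum_product']
  refine Finset.sum_nbij (fun w => (w % a, w % b)) ?_ ?_ ?_ ?_
  · intro w _
    rw [Finset.mem_product, Finset.mem_range, Finset.mem_range]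
    exact ⟨Nat.mod_lt _ ha, Nat.mod_lt _ hb⟩
  · intro w hw w' hw' h
    rw [Finset.coe_range, Set.mem_Iio] at hw hw'
    simp only [Prod.mk.injEq] at h
    have h1 : w ≡ w' [MOD a] := h.1
    have h2 : w ≡ w' [MOD b] := h.2
    have h3 : w ≡ w' [MOD a * b] := (Nat.modEq_and_modEq_iff_modEq_mul hab).1 ⟨h1, h2⟩
    exact Nat.ModEq.eq_of_lt_of_lt h3 hw hw'
  · rintro ⟨u, v⟩ huv
    rw [Finset.mem_coe, Finset.mem_product, Finset.mem_range, Finset.mem_range] at huv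
    refine ⟨(Nat.chineseRemainder hab u v : ℕ), ?_, ?_⟩
    · rw [Finset.coe_range, Set.mem_Iio]
      exact Nat.chineseRemainder_lt_mul hab u v ha.ne' hb.ne'
    · have h1 := (Nat.chineseRemainder hab u v).2.1
      have h2 := (Nat.chineseRemainder hab u v).2.2
      show (((Nat.chineseRemainder hab u v : ℕ)) % a, ((Nat.chineseRemainder hab u v : ℕ)) % b) = (u, v)
      rw [Prod.mk.injEq]
      constructor
      · have := h1
        unfold Nat.ModEq at this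
        rw [this]; exact Nat.mod_eq_of_lt huv.1
      · have := h2
        unfold Nat.ModEq at this
        rw [this]; exact Nat.mod_eq_of_lt huv.2
  · intro w _
    show F w * G w = F (w % a) * G (w % b)
    rw [hF.map_mod_nat, hG.map_mod_nat]

lemma periodic_sum_bound {m : ℕ} (hm : 0 < m) (f : ℕ → ℝ) (hf : Function.Periodic f m)
    (h1 : ∀ w, |f w| ≤ 1) (ν : ℝ) (hν : ∑ w ∈ range m, f w = m * ν) (n : ℕ) :
    |∑ w ∈ range n, f w - n * ν| ≤ 2 * m := by
  have hm' : (0 : ℝ) < m := by exact_mod_cast hm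
  have hb : ∀ k : ℕ, |∑ w ∈ range k, f w| ≤ k := by
    intro k
    refine (Finset.abs_sum_le_sum_abs _ _).trans ?_
    refine (Finset.sum_le_sum fun w _ => h1 w).trans ?_
    simp
  have hν1 : |ν| ≤ 1 := by
    have := hb m
    rw [hν, abs_mul, abs_of_pos hm'] at this
    by_contra hcon
    push Not at hcon
    nlinarith
  induction n using Nat.strong_induction_on with
  | _ n ih =>
    by_cases hn : n < m
    · have h2 : |∑ w ∈ range n, f w - n * ν| ≤ |∑ w ∈ range n, f w| + |(n : ℝ) * ν| := abs_sub _ _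
      have h3 : |(n : ℝ) * ν| ≤ n := by
        rw [abs_mul, abs_of_nonneg (by positivity : (0 : ℝ) ≤ n)]
        have : (0 : ℝ) ≤ n := by positivity
        nlinarith [abs_nonneg ν]
      have h4 : (n : ℝ) ≤ m := by exact_mod_cast hn.le
      linarith [hb n]
    · push Not at hn
      obtain ⟨k, rfl⟩ := Nat.exists_eq_add_of_le hn
      have h2 := ih k (by omega)
      rw [Finset.sum_range_add, hν]
      have h3 : ∑ x ∈ range k, f (m + x) = ∑ x ∈ range k, f x := by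
        refine Finset.sum_congr rfl fun x _ => ?_
        rw [add_comm]; exact hf x
      rw [h3]
      have h4 : (m : ℝ) * ν + ∑ x ∈ range k, f x - ((m + k : ℕ) : ℝ) * ν =
          ∑ x ∈ range k, f x - k * ν := by
        push_cast; ring
      rw [h4]; exact h2

/-- finite sums of bounded periodic functions whose moduli only involve primes of `D` -/
def Rep (F : ℕ → ℝ) (D : Set ℕ) (c μ : ℝ) : Prop :=
  ∃ (ι : Type) (T : Finset ι) (f : ι → ℕ → ℝ) (m : ι → ℕ) (ν : ι → ℝ),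
    (∀ t ∈ T, 0 < m t ∧ (∀ p : ℕ, p.Prime → p ∣ m t → p ∈ D) ∧
      Function.Periodic (f t) (m t) ∧ (∀ w, |f t w| ≤ 1) ∧
      ∑ w ∈ range (m t), f t w = m t * ν t) ∧
    (∀ w, F w = ∑ t ∈ T, f t w) ∧ ∑ t ∈ T, (m t : ℝ) ≤ c ∧ ∑ t ∈ T, ν t = μ

lemma Rep.bound {F : ℕ → ℝ} {D : Set ℕ} {c μ : ℝ} (h : Rep F D c μ) (n : ℕ) :
    |∑ w ∈ range n, F w - n * μ| ≤ 2 * c := by
  obtain ⟨ι, T, f, m, ν, h1, h2, h3, h4⟩ := h
  have h5 : ∑ w ∈ range n, F w - n * μ = ∑ t ∈ T, (∑ w ∈ range n, f t w - n * ν t) := by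
    rw [Finset.sum_sub_distrib, ← Finset.mul_sum, h4, Finset.sum_comm]
    congr 1
    exact Finset.sum_congr rfl fun w _ => h2 w
  rw [h5]
  refine (Finset.abs_sum_le_sum_abs _ _).trans ?_
  refine le_trans (Finset.sum_le_sum (g := fun t => 2 * (m t : ℝ)) fun t ht => ?_) ?_
  · obtain ⟨a, _, b, c', d⟩ := h1 t ht
    exact periodic_sum_bound a (f t) b c' (ν t) d n
  · rw [← Finset.mul_sum]
    linarith

lemma Rep.mul {F G : ℕ → ℝ} {D E : Set ℕ} {c μ d ν : ℝ} (h : Rep F D c μ) (h' : Rep G E d ν)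
    (hDE : ∀ p, p ∈ D → p ∉ E) :
    Rep (fun w => F w * G w) (D ∪ E) (c * d) (μ * ν) := by
  obtain ⟨ι, T, f, m, a, h1, h2, h3, h4⟩ := h
  obtain ⟨ι', T', f', m', a', h1', h2', h3', h4'⟩ := h'
  refine ⟨ι × ι', T ×ˢ T', fun t w => f t.1 w * f' t.2 w, fun t => m t.1 * m' t.2,
    fun t => a t.1 * a' t.2, ?_, ?_, ?_, ?_⟩
  · rintro ⟨t, t'⟩ ht
    rw [Finset.mem_product] at ht
    obtain ⟨b1, b2, b3, b4, b5⟩ := h1 t ht.1
    obtain ⟨b1', b2', b3', b4', b5'⟩ := h1' t' ht.2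
    have hcop : Nat.Coprime (m t) (m' t') := by
      refine Nat.Coprime.symm (Nat.coprime_of_dvd fun p hp h1 h2 => ?_)
      exact hDE p (b2 p hp h2) (b2' p hp h1)
    refine ⟨Nat.mul_pos b1 b1', ?_, ?_, ?_, ?_⟩
    · intro p hp hpd
      rcases (hp.dvd_mul).1 hpd with h | h
      · exact Or.inl (b2 p hp h)
      · exact Or.inr (b2' p hp h)
    · intro w
      show f t (w + m t * m' t') * f' t' (w + m t * m' t') = f t w * f' t' w
      have e1 : f t (w + m t * m' t') = f t w := by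
        have := b3.nat_mul (m' t') w
        rw [mul_comm] at this
        exact this
      have e2 : f' t' (w + m t * m' t') = f' t' w := b3'.nat_mul (m t) w
      rw [e1, e2]
    · intro w
      show |f t w * f' t' w| ≤ 1
      rw [abs_mul]
      have := b4 w
      have := b4' w
      nlinarith [abs_nonneg (f t w), abs_nonneg (f' t' w)]
    · show ∑ w ∈ range (m t * m' t'), f t w * f' t' w = ((m t * m' t' : ℕ) : ℝ) * (a t * a' t')
      rw [sum_mul_periodic b1 b1' hcop _ _ b3 b3', b5, b5']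
      push_cast; ring
  · intro w
    show F w * G w = ∑ t ∈ T ×ˢ T', f t.1 w * f' t.2 w
    rw [h2 w, h2' w, Finset.sum_mul_sum, ← Finset.sum_product']
  · have e : ∑ t ∈ T ×ˢ T', ((m t.1 * m' t.2 : ℕ) : ℝ) = (∑ t ∈ T, (m t : ℝ)) * ∑ t ∈ T', (m' t : ℝ) := by
      rw [Finset.sum_mul_sum, ← Finset.sum_product']
      refine Finset.sum_congr rfl fun t _ => ?_
      push_cast; rfl
    rw [e]
    have e1 : (0 : ℝ) ≤ ∑ t ∈ T, (m t : ℝ) := by positivity
    have e2 : (0 : ℝ) ≤ ∑ t ∈ T', (m' t : ℝ) := by positivity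
    exact mul_le_mul h3 h3' e2 (e1.trans h3)
  · rw [← h4, ← h4', Finset.sum_mul_sum, ← Finset.sum_product']

/-! ## the functions `X` -/

noncomputable def X (J P w : ℕ) : ℝ := ∑ j ∈ Icc 1 J, if (P ∣ w + j ∧ ¬ P ^ 2 ∣ w + j) then (1 : ℝ) else 0

lemma X_nonneg (J P w : ℕ) : 0 ≤ X J P w := by
  unfold X
  refine Finset.sum_nonneg fun j _ => ?_
  split_ifs <;> norm_num

lemma X_le_one {J P : ℕ} (h : J ≤ P) (w : ℕ) : X J P w ≤ 1 := by
  unfold X
  rw [← Finset.sum_filter, Finset.sum_const, nsmul_eq_mul, mul_one]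
  have : ((Icc 1 J).filter fun j => P ∣ w + j ∧ ¬ P ^ 2 ∣ w + j).card ≤ 1 := by
    rw [Finset.card_le_one]
    intro a ha b hb
    rw [Finset.mem_filter, Finset.mem_Icc] at ha hb
    by_contra hne
    rcases Nat.lt_or_gt_of_ne hne with hlt | hlt
    · have h1 : P ∣ (w + b) - (w + a) := Nat.dvd_sub hb.2.1 ha.2.1
      have h2 : (w + b) - (w + a) = b - a := by omega
      rw [h2] at h1
      have := Nat.le_of_dvd (by omega) h1
      omega
    · have h1 : P ∣ (w + a) - (w + b) := Nat.dvd_sub ha.2.1 hb.2.1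
      have h2 : (w + a) - (w + b) = a - b := by omega
      rw [h2] at h1
      have := Nat.le_of_dvd (by omega) h1
      omega
  exact_mod_cast this

lemma periodic_pred (P : ℕ) : Function.Periodic (fun w => P ∣ w ∧ ¬ P ^ 2 ∣ w) (P ^ 2) := by
  intro w
  have h1 : P ∣ w + P ^ 2 ↔ P ∣ w := Nat.dvd_add_left (dvd_pow_self P (by norm_num))
  have h2 : P ^ 2 ∣ w + P ^ 2 ↔ P ^ 2 ∣ w := Nat.dvd_add_left dvd_rfl
  simp only [h1, h2]

lemma X_periodic (J P : ℕ) : Function.Periodic (X J P) (P ^ 2) := by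
  intro w
  unfold X
  refine Finset.sum_congr rfl fun j _ => ?_
  have h := periodic_pred P (w + j)
  have e : w + P ^ 2 + j = w + j + P ^ 2 := by ring
  simp only [e]
  simp only [eq_iff_iff] at h
  simp only [h]

lemma count_pred {P : ℕ} (hP : P.Prime) :
    (P ^ 2).count (fun w => P ∣ w ∧ ¬ P ^ 2 ∣ w) = P - 1 := by
  rw [Nat.count_eq_card_filter_range]
  have : (range (P ^ 2)).filter (fun w => P ∣ w ∧ ¬ P ^ 2 ∣ w) = (Ico 1 P).image (fun k => P * k) := by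
    ext w
    rw [Finset.mem_filter, Finset.mem_range, Finset.mem_image]
    constructor
    · rintro ⟨h1, ⟨k, rfl⟩, h3⟩
      refine ⟨k, ?_, rfl⟩
      rw [Finset.mem_Ico]
      constructor
      · by_contra hk
        have : k = 0 := by omega
        subst this
        exact h3 (by simp)
      · rw [pow_two] at h1
        exact Nat.lt_of_mul_lt_mul_left h1
    · rintro ⟨k, hk, rfl⟩
      rw [Finset.mem_Ico] at hk
      refine ⟨?_, dvd_mul_right _ _, ?_⟩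
      · rw [pow_two]; exact Nat.mul_lt_mul_of_pos_left hk.2 hP.pos
      · intro h
        rw [pow_two] at h
        have h2 := Nat.dvd_of_mul_dvd_mul_left hP.pos h
        have := Nat.le_of_dvd (by omega) h2
        omega
  rw [this, Finset.card_image_of_injective]
  · simp
  · intro a b h
    exact Nat.eq_of_mul_eq_mul_left hP.pos h

lemma X_sum {P : ℕ} (hP : P.Prime) (J : ℕ) :
    ∑ w ∈ range (P ^ 2), X J P w = J * (P - 1) := by
  unfold X
  rw [Finset.sum_comm]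
  have h : ∀ j ∈ Icc 1 J, ∑ w ∈ range (P ^ 2),
      (if (P ∣ w + j ∧ ¬ P ^ 2 ∣ w + j) then (1 : ℝ) else 0) = (P - 1 : ℝ) := by
    intro j _
    rw [← Finset.sum_filter, Finset.sum_const, nsmul_eq_mul, mul_one]
    have h1 := Nat.filter_Ico_card_eq_of_periodic j (P ^ 2) (fun w => P ∣ w ∧ ¬ P ^ 2 ∣ w)
      (periodic_pred P)
    rw [count_pred hP] at h1
    have h2 : ((range (P ^ 2)).filter fun w => P ∣ w + j ∧ ¬ P ^ 2 ∣ w + j).card =
        ((Ico j (j + P ^ 2)).filter fun w => P ∣ w ∧ ¬ P ^ 2 ∣ w).card := by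
      refine Finset.card_nbij (fun w => w + j) ?_ ?_ ?_
      · intro w hw
        rw [Finset.mem_coe, Finset.mem_filter, Finset.mem_range] at hw
        rw [Finset.mem_coe, Finset.mem_filter, Finset.mem_Ico]
        refine ⟨⟨?_, ?_⟩, hw.2⟩
        · show j ≤ w + j
          omega
        · show w + j < j + P ^ 2
          omega
      · intro a _ b _ hab
        have : a + j = b + j := hab
        omega
      · intro w hw
        rw [Finset.mem_coe, Finset.mem_filter, Finset.mem_Ico] at hw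
        refine ⟨w - j, ?_, ?_⟩
        · rw [Finset.mem_coe, Finset.mem_filter, Finset.mem_range]
          have : w - j + j = w := by omega
          rw [this]
          exact ⟨by omega, hw.2⟩
        · show w - j + j = w
          omega
    rw [h2, h1, Nat.cast_sub hP.one_lt.le]
    norm_num
  rw [Finset.sum_congr rfl h, Finset.sum_const, nsmul_eq_mul]
  simp

/-- mean value of `X` -/
noncomputable def rho (J P : ℕ) : ℝ := J * (P - 1) / (P : ℝ) ^ 2

noncomputable def Yv (J P w : ℕ) : ℝ := X J P w - rho J P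

lemma rho_nonneg {J P : ℕ} (hP : P.Prime) : 0 ≤ rho J P := by
  unfold rho
  have : (1 : ℝ) ≤ P := by exact_mod_cast hP.one_lt.le
  have : (0 : ℝ) ≤ (P : ℝ) - 1 := by linarith
  positivity

lemma rho_le_one {J P : ℕ} (hP : P.Prime) (h : J ≤ P) : rho J P ≤ 1 := by
  unfold rho
  have h1 : (1 : ℝ) ≤ P := by exact_mod_cast hP.one_lt.le
  have h2 : (J : ℝ) ≤ P := by exact_mod_cast h
  rw [div_le_one (by positivity)]
  have : (0 : ℝ) ≤ J := by positivity
  nlinarith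

lemma Yv_abs {J P : ℕ} (hP : P.Prime) (h : J ≤ P) (w : ℕ) : |Yv J P w| ≤ 1 := by
  unfold Yv
  rw [abs_le]
  have := X_nonneg J P w
  have := X_le_one h w
  have := rho_nonneg (J := J) hP
  have := rho_le_one hP h
  constructor <;> linarith

lemma Yv_periodic (J P : ℕ) : Function.Periodic (Yv J P) (P ^ 2) := by
  intro w
  unfold Yv
  rw [X_periodic J P w]

lemma Yv_sum {J P : ℕ} (hP : P.Prime) : ∑ w ∈ range (P ^ 2), Yv J P w = 0 := by
  unfold Yv
  rw [Finset.sum_sub_distrib, X_sum hP]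
  have : (0 : ℝ) < P := by exact_mod_cast hP.pos
  simp only [Finset.sum_const, Finset.card_range, nsmul_eq_mul, rho]
  push_cast
  field_simp
  ring

/-- variance -/
noncomputable def vv (J P : ℕ) : ℝ := (∑ w ∈ range (P ^ 2), Yv J P w * Yv J P w) / (P : ℝ) ^ 2

lemma vv_nonneg (J P : ℕ) : 0 ≤ vv J P := by
  unfold vv
  have : 0 ≤ ∑ w ∈ range (P ^ 2), Yv J P w * Yv J P w :=
    Finset.sum_nonneg fun w _ => mul_self_nonneg _
  positivity

lemma vv_le {J P : ℕ} (hP : P.Prime) (h : J ≤ P) : vv J P ≤ rho J P := by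
  unfold vv
  have hP0 : (0 : ℝ) < P := by exact_mod_cast hP.pos
  rw [div_le_iff₀ (by positivity)]
  have e : ∀ w, Yv J P w * Yv J P w = X J P w * X J P w - rho J P * X J P w
      - rho J P * Yv J P w := by
    intro w
    unfold Yv
    ring
  simp only [e]
  rw [Finset.sum_sub_distrib, Finset.sum_sub_distrib, ← Finset.mul_sum, ← Finset.mul_sum,
    Yv_sum hP, X_sum hP]
  have h1 : ∑ w ∈ range (P ^ 2), X J P w * X J P w ≤ ∑ w ∈ range (P ^ 2), X J P w := by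
    refine Finset.sum_le_sum fun w _ => ?_
    have := X_nonneg J P w
    have := X_le_one h w
    nlinarith
  rw [X_sum hP] at h1
  have h2 : rho J P * (P : ℝ) ^ 2 = J * (P - 1) := by
    unfold rho
    field_simp
  rw [h2]
  have h3 : 0 ≤ rho J P * (J * (P - 1)) := by
    have := rho_nonneg (J := J) hP
    have : (1 : ℝ) ≤ P := by exact_mod_cast hP.one_lt.le
    have : (0 : ℝ) ≤ (P : ℝ) - 1 := by linarith
    positivity
  linarith

lemma rep_sq (J B : ℕ) (A : Finset ℕ) (hA : ∀ P ∈ A, P.Prime ∧ J ≤ P ∧ P ≤ B)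
    (hcard : A.card ≤ B) :
    Rep (fun w => (∑ P ∈ A, Yv J P w) ^ 2) {p | p ∈ A} ((B : ℝ) ^ 6) (∑ P ∈ A, vv J P) := by
  classical
  refine ⟨ℕ × ℕ, A ×ˢ A, fun t w => Yv J t.1 w * Yv J t.2 w,
    fun t => if t.1 = t.2 then t.1 ^ 2 else t.1 ^ 2 * t.2 ^ 2,
    fun t => if t.1 = t.2 then vv J t.1 else 0, ?_, ?_, ?_, ?_⟩
  · rintro ⟨P, Q⟩ ht
    rw [Finset.mem_product] at ht
    obtain ⟨hP, hP1, hP2⟩ := hA P ht.1
    obtain ⟨hQ, hQ1, hQ2⟩ := hA Q ht.2
    have hPpos := hP.pos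
    have hQpos := hQ.pos
    by_cases hPQ : P = Q
    · subst hPQ
      simp only [if_true]
      refine ⟨by positivity, ?_, ?_, ?_, ?_⟩
      · intro p hp hpd
        have := hp.dvd_of_dvd_pow hpd
        rw [Nat.prime_dvd_prime_iff_eq hp hP] at this
        subst this
        exact ht.1
      · intro w
        show Yv J P (w + P ^ 2) * Yv J P (w + P ^ 2) = Yv J P w * Yv J P w
        rw [Yv_periodic J P w]
      · intro w
        rw [abs_mul]
        have := Yv_abs hP hP1 w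
        nlinarith [abs_nonneg (Yv J P w)]
      · unfold vv
        push_cast
        field_simp
    · simp only [hPQ, if_false]
      have hcop : Nat.Coprime (P ^ 2) (Q ^ 2) :=
        Nat.Coprime.pow _ _ ((Nat.coprime_primes hP hQ).2 hPQ)
      refine ⟨by positivity, ?_, ?_, ?_, ?_⟩
      · intro p hp hpd
        rcases (hp.dvd_mul).1 hpd with h | h
        · have := hp.dvd_of_dvd_pow h
          rw [Nat.prime_dvd_prime_iff_eq hp hP] at this
          subst this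
          exact ht.1
        · have := hp.dvd_of_dvd_pow h
          rw [Nat.prime_dvd_prime_iff_eq hp hQ] at this
          subst this
          exact ht.2
      · intro w
        show Yv J P (w + P ^ 2 * Q ^ 2) * Yv J Q (w + P ^ 2 * Q ^ 2) = Yv J P w * Yv J Q w
        have e1 : Yv J P (w + P ^ 2 * Q ^ 2) = Yv J P w := by
          have := (Yv_periodic J P).nat_mul (Q ^ 2) w
          rw [mul_comm] at this
          exact this
        have e2 : Yv J Q (w + P ^ 2 * Q ^ 2) = Yv J Q w := (Yv_periodic J Q).nat_mul (P ^ 2) w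
        rw [e1, e2]
      · intro w
        rw [abs_mul]
        have := Yv_abs hP hP1 w
        have := Yv_abs hQ hQ1 w
        nlinarith [abs_nonneg (Yv J P w), abs_nonneg (Yv J Q w)]
      · rw [sum_mul_periodic (by positivity) (by positivity) hcop _ _ (Yv_periodic J P)
          (Yv_periodic J Q), Yv_sum hP, Yv_sum hQ]
        simp
  · intro w
    show (∑ P ∈ A, Yv J P w) ^ 2 = ∑ t ∈ A ×ˢ A, Yv J t.1 w * Yv J t.2 w
    rw [pow_two, Finset.sum_mul_sum, ← Finset.sum_product']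
  · have h1 : ∀ t ∈ A ×ˢ A, (((if t.1 = t.2 then t.1 ^ 2 else t.1 ^ 2 * t.2 ^ 2 : ℕ)) : ℝ) ≤
        (B : ℝ) ^ 4 := by
      rintro ⟨P, Q⟩ ht
      rw [Finset.mem_product] at ht
      obtain ⟨hP, hP1, hP2⟩ := hA P ht.1
      obtain ⟨hQ, hQ1, hQ2⟩ := hA Q ht.2
      have hB1 : 1 ≤ B := le_trans hP.one_lt.le hP2
      have : (if P = Q then P ^ 2 else P ^ 2 * Q ^ 2) ≤ B ^ 4 := by
        split_ifs
        · calc P ^ 2 ≤ B ^ 2 := Nat.pow_le_pow_left hP2 2
            _ ≤ B ^ 4 := Nat.pow_le_pow_right hB1 (by norm_num)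
        · calc P ^ 2 * Q ^ 2 ≤ B ^ 2 * B ^ 2 :=
                Nat.mul_le_mul (Nat.pow_le_pow_left hP2 2) (Nat.pow_le_pow_left hQ2 2)
            _ = B ^ 4 := by ring
      exact_mod_cast this
    refine (Finset.sum_le_sum h1).trans ?_
    rw [Finset.sum_const, nsmul_eq_mul, Finset.card_product]
    have h2 : (A.card : ℝ) ≤ B := by exact_mod_cast hcard
    push_cast
    have h3 : (0 : ℝ) ≤ A.card := by positivity
    have h4 : (A.card : ℝ) * A.card ≤ B * B := mul_le_mul h2 h2 h3 (h3.trans h2)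
    calc (A.card : ℝ) * A.card * B ^ 4 ≤ (B * B) * B ^ 4 :=
          mul_le_mul_of_nonneg_right h4 (by positivity)
      _ = (B : ℝ) ^ 6 := by ring
  · rw [Finset.sum_product]
    refine Finset.sum_congr rfl fun P hP => ?_
    simp only
    rw [Finset.sum_ite_eq A P (fun _ => vv J P)]
    simp [hP]

/-! ## assembly -/

def AA (Z i : ℕ) : Finset ℕ := (Finset.Ioc (Z ^ 2 ^ i) (Z ^ 2 ^ (i + 1))).filter Nat.Prime

lemma AA_mem {Z i P : ℕ} (h : P ∈ AA Z i) : P.Prime ∧ Z ^ 2 ^ i < P ∧ P ≤ Z ^ 2 ^ (i + 1) := by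
  unfold AA at h
  rw [Finset.mem_filter, Finset.mem_Ioc] at h
  exact ⟨h.2, h.1.1, h.1.2⟩

lemma AA_card (Z i : ℕ) : (AA Z i).card ≤ Z ^ 2 ^ (i + 1) := by
  unfold AA
  refine (Finset.card_filter_le _ _).trans ?_
  rw [Nat.card_Ioc]
  omega

lemma AA_gt {Z i P : ℕ} (hZ : 1 ≤ Z) (h : P ∈ AA Z i) : Z < P := by
  have h1 := (AA_mem h).2.1
  have h2 : Z ^ 1 ≤ Z ^ 2 ^ i := Nat.pow_le_pow_right hZ Nat.one_le_two_pow
  rw [pow_one] at h2
  omega

lemma AA_disj {Z i j : ℕ} (hZ : 1 ≤ Z) (hij : i < j) (P : ℕ) (h : P ∈ AA Z i) : P ∉ AA Z j := by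
  intro h'
  have h1 := (AA_mem h).2.2
  have h2 := (AA_mem h').2.1
  have h3 : Z ^ 2 ^ (i + 1) ≤ Z ^ 2 ^ j := Nat.pow_le_pow_right hZ (Nat.pow_le_pow_right (by norm_num) hij)
  omega

lemma rep_AA {J Z : ℕ} (hZ : 1 ≤ Z) (hJ : J ≤ Z) (i : ℕ) :
    Rep (fun w => (∑ P ∈ AA Z i, Yv J P w) ^ 2) {p | p ∈ AA Z i}
      (((Z ^ 2 ^ (i + 1) : ℕ) : ℝ) ^ 6) (∑ P ∈ AA Z i, vv J P) := by
  refine rep_sq J _ _ (fun P hP => ?_) (AA_card Z i)
  exact ⟨(AA_mem hP).1, (hJ.trans (AA_gt hZ hP).le), (AA_mem hP).2.2⟩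

lemma rep_four {J Z : ℕ} (hZ : 1 ≤ Z) (hJ : J ≤ Z) :
    ∃ D : Set ℕ, Rep (fun w => (∑ P ∈ AA Z 0, Yv J P w) ^ 2 * (∑ P ∈ AA Z 1, Yv J P w) ^ 2 *
      (∑ P ∈ AA Z 2, Yv J P w) ^ 2 * (∑ P ∈ AA Z 3, Yv J P w) ^ 2) D ((Z : ℝ) ^ 180)
      ((∑ P ∈ AA Z 0, vv J P) * (∑ P ∈ AA Z 1, vv J P) * (∑ P ∈ AA Z 2, vv J P) *
        (∑ P ∈ AA Z 3, vv J P)) := by
  have h01 := (rep_AA (J := J) hZ hJ 0).mul (rep_AA hZ hJ 1) (fun p hp hq =>
    AA_disj hZ (by norm_num) p hp hq)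
  have h012 := h01.mul (rep_AA hZ hJ 2) (by
    rintro p (hp | hp) hq
    · exact AA_disj hZ (by norm_num) p hp hq
    · exact AA_disj hZ (by norm_num) p hp hq)
  have h0123 := h012.mul (rep_AA hZ hJ 3) (by
    rintro p ((hp | hp) | hp) hq
    · exact AA_disj hZ (by norm_num) p hp hq
    · exact AA_disj hZ (by norm_num) p hp hq
    · exact AA_disj hZ (by norm_num) p hp hq)
  have e : ((((Z ^ 2 ^ (0 + 1) : ℕ) : ℝ) ^ 6) * (((Z ^ 2 ^ (1 + 1) : ℕ) : ℝ) ^ 6) *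
      (((Z ^ 2 ^ (2 + 1) : ℕ) : ℝ) ^ 6) * (((Z ^ 2 ^ (3 + 1) : ℕ) : ℝ) ^ 6)) = (Z : ℝ) ^ 180 := by
    push_cast
    ring
  rw [e] at h0123
  exact ⟨_, h0123⟩

/-- lower bound for the means -/
lemma mu_lower {J Z : ℕ} (i : ℕ)
    (h : (1 / 4 : ℝ) ≤ ∑ p ∈ AA Z i, (1 : ℝ) / p) :
    (J : ℝ) / 8 ≤ ∑ P ∈ AA Z i, rho J P := by
  have h1 : (J : ℝ) / 2 * ∑ p ∈ AA Z i, (1 : ℝ) / p ≤ ∑ P ∈ AA Z i, rho J P := by
    rw [Finset.mul_sum]
    refine Finset.sum_le_sum fun P hP => ?_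
    have hP2 : (2 : ℝ) ≤ P := by exact_mod_cast (AA_mem hP).1.two_le
    have hJ : (0 : ℝ) ≤ J := by positivity
    unfold rho
    rw [div_mul_div_comm, div_le_div_iff₀ (by positivity) (by positivity)]
    have : 0 ≤ (J : ℝ) * P * (P - 2) := by
      have : (0 : ℝ) ≤ P - 2 := by linarith
      positivity
    nlinarith
  have hJ : (0 : ℝ) ≤ J := by positivity
  nlinarith

/-- the counting inequality for one set of primes -/
lemma count_lower {J Z : ℕ} {z : ℝ} (hz : z ≤ Z) (hZ : 1 ≤ Z) (i w : ℕ) :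
    ∑ P ∈ AA Z i, X J P w ≤
      ((∑ j ∈ Finset.Icc 1 J, ((w + j).primeFactors.filter
          (fun P : ℕ => z < (P : ℝ) ∧ ¬ P ^ 2 ∣ w + j)).card : ℕ) : ℝ) := by
  unfold X
  rw [Finset.sum_comm, Nat.cast_sum]
  refine Finset.sum_le_sum fun j hj => ?_
  rw [← Finset.sum_filter, Finset.sum_const, nsmul_eq_mul, mul_one]
  have : ((AA Z i).filter fun P => P ∣ w + j ∧ ¬ P ^ 2 ∣ w + j).card ≤
      ((w + j).primeFactors.filter (fun P : ℕ => z < (P : ℝ) ∧ ¬ P ^ 2 ∣ w + j)).card := by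
    refine Finset.card_le_card fun P hP => ?_
    rw [Finset.mem_filter] at hP
    rw [Finset.mem_Icc] at hj
    rw [Finset.mem_filter, Nat.mem_primeFactors]
    refine ⟨⟨(AA_mem hP.1).1, hP.2.1, by omega⟩, ?_, hP.2.2⟩
    have h1 := AA_gt hZ hP.1
    have h2 : (Z : ℝ) < P := by exact_mod_cast h1
    linarith
  exact_mod_cast this

/-- the deviation is large when the count is small -/
lemma dev_lower {a b μ : ℝ} (hμ : 0 ≤ μ) (hb : b ≤ μ / 2) (hab : a ≤ b) :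
    μ ^ 2 / 4 ≤ (a - μ) ^ 2 := by
  nlinarith

lemma large_x (Y₀ : ℕ) : ∃ x₀ : ℕ, ∀ x : ℕ, x₀ ≤ x → 8 ≤ Real.log x ∧ (Y₀ : ℝ) ≤ Real.log x ∧
    3 * (Real.log x) ^ 2 ≤ (x : ℝ) ^ (1 / 180 - 1 / 2000 : ℝ) := by
  have h1 : ∀ᶠ x : ℝ in Filter.atTop, 8 ≤ Real.log x :=
    Real.tendsto_log_atTop.eventually_ge_atTop 8
  have h2 : ∀ᶠ x : ℝ in Filter.atTop, (Y₀ : ℝ) ≤ Real.log x :=
    Real.tendsto_log_atTop.eventually_ge_atTop _
  have h3 : ∀ᶠ x : ℝ in Filter.atTop, 3 * (Real.log x) ^ 2 ≤ x ^ (1 / 180 - 1 / 2000 : ℝ) := by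
    have h := isLittleO_log_rpow_rpow_atTop (2 : ℝ) (s := (1 / 180 - 1 / 2000 : ℝ)) (by norm_num)
    have h' := h.bound (c := 1 / 3) (by norm_num)
    filter_upwards [h', Filter.eventually_ge_atTop (1 : ℝ)] with x hx hx1
    rw [Real.norm_of_nonneg (Real.rpow_nonneg (Real.log_nonneg hx1) _),
      Real.norm_of_nonneg (Real.rpow_nonneg (by linarith) _)] at hx
    have e : Real.log x ^ (2 : ℝ) = Real.log x ^ 2 := by
      rw [← Real.rpow_natCast]; norm_num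
    rw [e] at hx
    linarith
  have h := (tendsto_natCast_atTop_atTop (R := ℝ)).eventually (h1.and (h2.and h3))
  obtain ⟨x₀, hx₀⟩ := Filter.eventually_atTop.1 h
  exact ⟨x₀, fun x hx => hx₀ x hx⟩

noncomputable def mm (J Z i : ℕ) : ℝ := ∑ P ∈ AA Z i, rho J P

noncomputable def GG (J Z i w : ℕ) : ℝ := ∑ P ∈ AA Z i, Yv J P w

lemma prod_le {a0 a1 a2 a3 b0 b1 b2 b3 : ℝ} (h0 : 0 ≤ a0) (h1 : 0 ≤ a1) (h2 : 0 ≤ a2)
    (h3 : 0 ≤ a3) (l0 : a0 ≤ b0) (l1 : a1 ≤ b1) (l2 : a2 ≤ b2) (l3 : a3 ≤ b3) :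
    a0 * a1 * a2 * a3 ≤ b0 * b1 * b2 * b3 := by
  have c0 := h0.trans l0
  have c1 := h1.trans l1
  have c2 := h2.trans l2
  exact mul_le_mul (mul_le_mul (mul_le_mul l0 l1 h1 c0) l2 h2 (mul_nonneg c0 c1)) l3 h3
    (mul_nonneg (mul_nonneg c0 c1) c2)

lemma upper_side {J Z x : ℕ} (hZ1 : 1 ≤ Z) (hJZ : J ≤ Z) (hZx : (Z : ℝ) ^ 180 ≤ x) :
    ∑ w ∈ range (x + 1), (GG J Z 0 w) ^ 2 * (GG J Z 1 w) ^ 2 * (GG J Z 2 w) ^ 2 *
      (GG J Z 3 w) ^ 2 ≤ (x + 1) * (mm J Z 0 * mm J Z 1 * mm J Z 2 * mm J Z 3) + 2 * x := by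
  have hvm : ∀ i, ∑ P ∈ AA Z i, vv J P ≤ mm J Z i := by
    intro i
    refine Finset.sum_le_sum fun P hP => ?_
    exact vv_le (AA_mem hP).1 (hJZ.trans (AA_gt hZ1 hP).le)
  have hv0 : ∀ i, 0 ≤ ∑ P ∈ AA Z i, vv J P := fun i => Finset.sum_nonneg fun P _ => vv_nonneg J P
  obtain ⟨D, hrep⟩ := rep_four (J := J) hZ1 hJZ
  have hb := (abs_le.1 (hrep.bound (x + 1))).2
  have hVM := prod_le (hv0 0) (hv0 1) (hv0 2) (hv0 3) (hvm 0) (hvm 1) (hvm 2) (hvm 3)
  have h2 := mul_le_mul_of_nonneg_left hVM (by positivity : (0 : ℝ) ≤ ((x + 1 : ℕ) : ℝ))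
  have h3 : ((x + 1 : ℕ) : ℝ) = x + 1 := by push_cast; ring
  rw [h3] at hb h2
  have h4 : ∑ w ∈ range (x + 1), (GG J Z 0 w) ^ 2 * (GG J Z 1 w) ^ 2 * (GG J Z 2 w) ^ 2 *
      (GG J Z 3 w) ^ 2 - (x + 1) * ((∑ P ∈ AA Z 0, vv J P) * (∑ P ∈ AA Z 1, vv J P) *
        (∑ P ∈ AA Z 2, vv J P) * (∑ P ∈ AA Z 3, vv J P)) ≤ 2 * (Z : ℝ) ^ 180 := hb
  linarith

lemma lower_side {J Z x : ℕ} {z L : ℝ} (hzZ : z ≤ Z) (hZ1 : 1 ≤ Z)
    (hm : ∀ i, 2 * L ≤ mm J Z i) (hL : 0 ≤ L) :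
    ((((Finset.Icc 1 x).filter (fun w : ℕ =>
        ((∑ j ∈ Finset.Icc 1 J, ((w + j).primeFactors.filter
          (fun P : ℕ => z < (P : ℝ) ∧ ¬ P ^ 2 ∣ w + j)).card : ℕ) : ℝ)
          ≤ L)).card : ℝ)) * ((mm J Z 0 * mm J Z 1 * mm J Z 2 * mm J Z 3) ^ 2 / 256) ≤
      ∑ w ∈ range (x + 1), (GG J Z 0 w) ^ 2 * (GG J Z 1 w) ^ 2 * (GG J Z 2 w) ^ 2 *
      (GG J Z 3 w) ^ 2 := by
  rw [← nsmul_eq_mul]
  have h1 : ∑ w ∈ (Finset.Icc 1 x).filter (fun w : ℕ =>
        ((∑ j ∈ Finset.Icc 1 J, ((w + j).primeFactors.filter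
          (fun P : ℕ => z < (P : ℝ) ∧ ¬ P ^ 2 ∣ w + j)).card : ℕ) : ℝ)
          ≤ L), (GG J Z 0 w) ^ 2 * (GG J Z 1 w) ^ 2 * (GG J Z 2 w) ^ 2 *
      (GG J Z 3 w) ^ 2 ≤ ∑ w ∈ range (x + 1), (GG J Z 0 w) ^ 2 * (GG J Z 1 w) ^ 2 *
        (GG J Z 2 w) ^ 2 * (GG J Z 3 w) ^ 2 := by
    refine Finset.sum_le_sum_of_subset_of_nonneg ?_ (fun w _ _ => by positivity)
    intro w hw
    rw [Finset.mem_filter, Finset.mem_Icc] at hw
    rw [Finset.mem_range]
    omega
  refine le_trans ?_ h1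
  refine Finset.card_nsmul_le_sum _ _ _ fun w hw => ?_
  rw [Finset.mem_filter] at hw
  have hdev : ∀ i, (mm J Z i) ^ 2 / 4 ≤ (GG J Z i w) ^ 2 := by
    intro i
    have h2 := (count_lower (J := J) hzZ hZ1 i w).trans hw.2
    have h3 := hm i
    have e : GG J Z i w = ∑ P ∈ AA Z i, X J P w - mm J Z i := by
      unfold GG mm Yv
      rw [Finset.sum_sub_distrib]
    rw [e]
    exact dev_lower (b := L) (by linarith) (by linarith) h2
  have e : (mm J Z 0 * mm J Z 1 * mm J Z 2 * mm J Z 3) ^ 2 / 256 =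
      (mm J Z 0) ^ 2 / 4 * ((mm J Z 1) ^ 2 / 4) * ((mm J Z 2) ^ 2 / 4) * ((mm J Z 3) ^ 2 / 4) := by
    ring
  rw [e]
  exact prod_le (by positivity) (by positivity) (by positivity) (by positivity)
    (hdev 0) (hdev 1) (hdev 2) (hdev 3)

lemma final_real {n x S M : ℝ} (hn : 0 ≤ n) (hx : 1 ≤ x) (hS : 1 ≤ S)
    (hM : S ^ 4 / 32 ^ 4 ≤ M) (h : n * (M ^ 2 / 256) ≤ (x + 1) * M + 2 * x) :
    n ≤ 256 * (4 * 32 ^ 8) * x / S ^ 4 := by
  have hS4 : 1 ≤ S ^ 4 := one_le_pow₀ hS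
  have hM0 : 1 / 32 ^ 4 ≤ M := by
    refine le_trans ?_ hM
    gcongr
  have hMpos : 0 < M := lt_of_lt_of_le (by norm_num) hM0
  have hM1 : 1 ≤ 32 ^ 4 * M := by
    rw [div_le_iff₀ (by positivity)] at hM0
    linarith
  rw [le_div_iff₀ (by positivity)]
  have h2 : (2 : ℝ) * x ≤ 2 * 32 ^ 4 * x * M := by nlinarith
  have h3 : (x + 1) * M ≤ 2 * x * M := mul_le_mul_of_nonneg_right (by linarith) hMpos.le
  have h4 : 0 ≤ x * M := by positivity
  have h5 : n * (M ^ 2 / 256) ≤ 4 * 32 ^ 4 * x * M := by linarith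
  have h6 : n * M ≤ 256 * (4 * 32 ^ 4 * x) := by
    have h7 : (n * M) * M ≤ (256 * (4 * 32 ^ 4 * x)) * M := by linarith
    exact le_of_mul_le_mul_right h7 hMpos
  have h8 : n * (S ^ 4 / 32 ^ 4) ≤ 256 * (4 * 32 ^ 4 * x) :=
    (mul_le_mul_of_nonneg_left hM hn).trans h6
  linarith

lemma Z_pow_le {x S L z Z : ℝ} (hx : 1 ≤ x) (hL : 8 ≤ L) (hS1 : 1 ≤ S)
    (hS : S ≤ x ^ (1 / 2000 : ℝ)) (hLx : 3 * L ^ 2 ≤ x ^ (1 / 180 - 1 / 2000 : ℝ))
    (hz : z = 2 * S * L ^ 2) (hZ0 : 0 ≤ Z) (hZ : Z ≤ z + 1) : Z ^ 180 ≤ x := by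
  have h2 : Z ≤ S * (3 * L ^ 2) := by
    rw [hz] at hZ
    have : 1 ≤ S * L ^ 2 := by
      have : 1 ≤ L ^ 2 := by nlinarith
      nlinarith
    linarith
  have h3 : Z ≤ x ^ (1 / 180 : ℝ) := by
    calc Z ≤ S * (3 * L ^ 2) := h2
      _ ≤ x ^ (1 / 2000 : ℝ) * x ^ (1 / 180 - 1 / 2000 : ℝ) :=
          mul_le_mul hS hLx (by positivity) (by positivity)
      _ = x ^ (1 / 180 : ℝ) := by
          rw [← Real.rpow_add (by linarith)]; norm_num
  calc Z ^ 180 ≤ (x ^ (1 / 180 : ℝ)) ^ 180 := pow_le_pow_left₀ hZ0 h3 180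
    _ = x := by
        rw [← Real.rpow_natCast, ← Real.rpow_mul (by linarith)]
        norm_num

/-- Few integers `w` start a run of `S/3` consecutive integers with almost no prime `P > z`
exactly dividing any of them: saving `S^4` over the trivial bound. -/
theorem four_moment : ∃ C : ℝ, 0 < C ∧ ∃ x₀ : ℕ, ∀ x S : ℕ, x₀ ≤ x →
    (Real.log x) ^ 3 ≤ (S : ℝ) → (S : ℝ) ≤ (x : ℝ) ^ (1 / 2000 : ℝ) →
      (((Finset.Icc 1 x).filter (fun w : ℕ =>
        ((∑ j ∈ Finset.Icc 1 (S / 3), ((w + j).primeFactors.filter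
          (fun P : ℕ => 2 * (S : ℝ) * (Real.log x) ^ 2 < (P : ℝ) ∧ ¬ P ^ 2 ∣ w + j)).card : ℕ) : ℝ)
          ≤ Real.log x)).card : ℝ) ≤ C * (x : ℝ) / (S : ℝ) ^ 4 := by
  obtain ⟨Y₀, hY₀2, hY₀⟩ := recip_lower
  obtain ⟨x₁, hx₁⟩ := large_x Y₀
  refine ⟨256 * (4 * 32 ^ 8), by norm_num, max x₁ 1, fun x S hx hS1 hS2 => ?_⟩
  obtain ⟨hL8, hLY, hLx⟩ := hx₁ x (le_trans (le_max_left _ _) hx)
  have hx1 : 1 ≤ x := le_trans (le_max_right _ _) hx
  have hxr : (1 : ℝ) ≤ x := by exact_mod_cast hx1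
  generalize Real.log x = L at *
  obtain ⟨J, hJdef⟩ : ∃ J, J = S / 3 := ⟨_, rfl⟩
  rw [← hJdef]
  have hL64 : 64 ≤ L ^ 2 := by nlinarith
  have hL3 : 64 * L ≤ L ^ 3 := by
    have : L ^ 3 = L ^ 2 * L := by ring
    rw [this]
    exact mul_le_mul_of_nonneg_right hL64 (by linarith)
  have hS64 : 64 * L ≤ S := hL3.trans hS1
  have hSpos : (0 : ℝ) < S := by linarith
  have hJS : (S : ℝ) / 4 ≤ J := by
    have h1 : S < 3 * J + 3 := by omega
    have h2 : (S : ℝ) < 3 * J + 3 := by exact_mod_cast h1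
    linarith
  have hJle : J ≤ S := by omega
  obtain ⟨z, hz⟩ : ∃ z : ℝ, z = 2 * (S : ℝ) * L ^ 2 := ⟨_, rfl⟩
  rw [← hz]
  obtain ⟨Z, hZ⟩ : ∃ Z : ℕ, Z = ⌈z⌉₊ := ⟨_, rfl⟩
  have hzZ : z ≤ Z := by rw [hZ]; exact Nat.le_ceil z
  have hzS : (S : ℝ) ≤ z := by rw [hz]; nlinarith
  have hSZ : S ≤ Z := by
    have : (S : ℝ) ≤ Z := hzS.trans hzZ
    exact_mod_cast this
  have hZ1 : 1 ≤ Z := by
    have : (1 : ℝ) ≤ Z := by linarith
    exact_mod_cast this
  have hYZ : Y₀ ≤ Z := by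
    have : (Y₀ : ℝ) ≤ Z := by linarith
    exact_mod_cast this
  have hJZ : J ≤ Z := hJle.trans hSZ
  have hZx : (Z : ℝ) ^ 180 ≤ x := by
    refine Z_pow_le hxr hL8 (by linarith) hS2 hLx hz (by positivity) ?_
    rw [hZ]
    exact (Nat.ceil_lt_add_one (by linarith)).le
  -- means
  have hmu : ∀ i, (S : ℝ) / 32 ≤ mm J Z i := by
    intro i
    have h1 : Y₀ ≤ Z ^ 2 ^ i := by
      have h2 : Z ^ 1 ≤ Z ^ 2 ^ i := Nat.pow_le_pow_right hZ1 Nat.one_le_two_pow
      rw [pow_one] at h2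
      omega
    have h2 := hY₀ _ h1
    have e : (Z ^ 2 ^ i) ^ 2 = Z ^ 2 ^ (i + 1) := by
      rw [← pow_mul, pow_succ]
    rw [e] at h2
    have h3 : (J : ℝ) / 8 ≤ mm J Z i := mu_lower (J := J) i h2
    linarith
  have hup := upper_side hZ1 hJZ hZx
  have hlow := lower_side (J := J) (Z := Z) (x := x) (z := z) (L := L) hzZ hZ1
    (fun i => by have := hmu i; linarith) (by linarith)
  have hcomb := hlow.trans hup
  refine final_real (by positivity) hxr (by linarith) ?_ hcomb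
  have e : (S : ℝ) ^ 4 / 32 ^ 4 = (S : ℝ) / 32 * (S / 32) * (S / 32) * (S / 32) := by ring
  rw [e]
  have h0 : (0 : ℝ) ≤ S / 32 := by positivity
  exact prod_le h0 h0 h0 h0 (hmu 0) (hmu 1) (hmu 2) (hmu 3)

end Pool.Agent.Helper601.JobC
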