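import Mathlib

set_option autoImplicit false

namespace Pool.Agent.Helper601.JobE

open Finset

/-- the completely multiplicative function `n ↦ n^(-9/10)` -/
noncomputable def rk : ℕ →* ℝ where
  toFun n := (n : ℝ) ^ (-(9 / 10) : ℝ)
  map_one' := by simp
  map_mul' m n := by
    push_cast
    exact Real.mul_rpow (Nat.cast_nonneg _) (Nat.cast_nonneg _)

theorem rk_apply (n : ℕ) : rk n = (n : ℝ) ^ (-(9 / 10) : ℝ) := rfl

theorem rk_nonneg (n : ℕ) : 0 ≤ rk n := Real.rpow_nonneg (Nat.cast_nonneg _) _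

theorem rk_le {n : ℕ} (hn : 2 ≤ n) : rk n ≤ 3 / 4 := by
  rw [rk_apply]
  have h1 : (n : ℝ) ^ (-(9 / 10) : ℝ) ≤ (2 : ℝ) ^ (-(9 / 10) : ℝ) := by
    apply Real.rpow_le_rpow_of_nonpos (by norm_num) (by exact_mod_cast hn) (by norm_num)
  have h2 : (2 : ℝ) ^ (-(9 / 10) : ℝ) ≤ (2 : ℝ) ^ (-(1 / 2) : ℝ) :=
    Real.rpow_le_rpow_of_exponent_le (by norm_num) (by norm_num)
  have h3 : (2 : ℝ) ^ (-(1 / 2) : ℝ) ≤ 3 / 4 := by
    rw [Real.rpow_neg (by norm_num), ← Real.sqrt_eq_rpow]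
    rw [inv_le_comm₀ (by positivity) (by norm_num)]
    rw [Real.le_sqrt (by norm_num) (by norm_num)]
    norm_num
  linarith

theorem one_sub_inv_le {t : ℝ} (h0 : 0 ≤ t) (h1 : t ≤ 3 / 4) : (1 - t)⁻¹ ≤ Real.exp (4 * t) := by
  rw [inv_le_iff_one_le_mul₀ (by linarith)]
  have := Real.add_one_le_exp (4 * t)
  nlinarith

theorem step (n : ℕ) : rk (n + 1) ≤ 10 * (((n + 1 : ℕ) : ℝ) ^ (1 / 10 : ℝ) - (n : ℝ) ^ (1 / 10 : ℝ)) := by
  rw [rk_apply]
  have hpos : (0 : ℝ) < ((n + 1 : ℕ) : ℝ) := by positivity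
  have h1 : (n : ℝ) = ((n + 1 : ℕ) : ℝ) * (1 + (-(1 / ((n + 1 : ℕ) : ℝ)))) := by
    field_simp
    push_cast
    ring
  have hle1 : 1 / ((n + 1 : ℕ) : ℝ) ≤ 1 := by
    rw [div_le_one hpos]
    exact_mod_cast Nat.succ_le_succ (Nat.zero_le n)
  have h2 : (n : ℝ) ^ (1 / 10 : ℝ) ≤ ((n + 1 : ℕ) : ℝ) ^ (1 / 10 : ℝ) *
      (1 + (1 / 10) * (-(1 / ((n + 1 : ℕ) : ℝ)))) := by
    conv_lhs => rw [h1]
    rw [Real.mul_rpow hpos.le (by linarith)]
    apply mul_le_mul_of_nonneg_left _ (Real.rpow_nonneg hpos.le _)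
    exact _root_.rpow_one_add_le_one_add_mul_self (by linarith) (by norm_num) (by norm_num)
  have h3 : ((n + 1 : ℕ) : ℝ) ^ (-(9 / 10) : ℝ) =
      ((n + 1 : ℕ) : ℝ) ^ (1 / 10 : ℝ) * (1 / ((n + 1 : ℕ) : ℝ)) := by
    have : (-(9 / 10) : ℝ) = 1 / 10 - 1 := by norm_num
    rw [this, Real.rpow_sub hpos, Real.rpow_one]
    ring
  rw [h3]
  nlinarith

theorem sum_rk (M : ℕ) : ∑ n ∈ range M, rk (n + 1) ≤ 10 * (M : ℝ) ^ (1 / 10 : ℝ) := by
  calc ∑ n ∈ range M, rk (n + 1)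
      ≤ ∑ n ∈ range M, 10 * (((n + 1 : ℕ) : ℝ) ^ (1 / 10 : ℝ) - (n : ℝ) ^ (1 / 10 : ℝ)) :=
        Finset.sum_le_sum fun n _ => step n
    _ = 10 * (M : ℝ) ^ (1 / 10 : ℝ) := by
        rw [← Finset.mul_sum, Finset.sum_range_sub (fun n : ℕ => (n : ℝ) ^ (1 / 10 : ℝ))]
        rw [Nat.cast_zero, Real.zero_rpow (by norm_num), sub_zero]

/-- Euler product bound for sums over smooth numbers. -/
theorem smooth_sum (N : ℕ) (S : Finset ℕ) (hS : ∀ A ∈ S, A ∈ (N + 1).smoothNumbers) :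
    ∑ A ∈ S, rk A ≤ Real.exp (40 * (N : ℝ) ^ (1 / 10 : ℝ)) := by
  have hE := EulerProduct.summable_and_hasSum_smoothNumbers_prod_primesBelow_geometric
    (f := rk) (by
      intro p hp
      rw [Real.norm_of_nonneg (rk_nonneg p)]
      linarith [rk_le hp.two_le]) (N + 1)
  have h1 : ∑ A ∈ S, rk A ≤ ∏ p ∈ (N + 1).primesBelow, (1 - rk p)⁻¹ := by
    classical
    have h2 : ∑ A ∈ S, rk A = ∑ A ∈ S.attach.map ⟨fun A => (⟨A.1, hS A.1 A.2⟩ : (N + 1).smoothNumbers),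
        by intro a b h; exact Subtype.ext (congrArg (fun z : (N + 1).smoothNumbers => z.1) h)⟩,
          rk A := by
      rw [Finset.sum_map]
      simp only [Function.Embedding.coeFn_mk]
      rw [Finset.sum_attach S (fun A => rk A)]
    rw [h2]
    exact sum_le_hasSum _ (fun i _ => rk_nonneg _) hE.2
  refine h1.trans ?_
  calc ∏ p ∈ (N + 1).primesBelow, (1 - rk p)⁻¹
      ≤ ∏ p ∈ (N + 1).primesBelow, Real.exp (4 * rk p) := by
        apply Finset.prod_le_prod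
        · intro p hp
          have := rk_le (Nat.prime_of_mem_primesBelow hp).two_le
          exact inv_nonneg.mpr (by linarith)
        · intro p hp
          exact one_sub_inv_le (rk_nonneg p) (rk_le (Nat.prime_of_mem_primesBelow hp).two_le)
    _ = Real.exp (4 * ∑ p ∈ (N + 1).primesBelow, rk p) := by
        rw [← Real.exp_sum, Finset.mul_sum]
    _ ≤ Real.exp (40 * (N : ℝ) ^ (1 / 10 : ℝ)) := by
        apply Real.exp_le_exp.mpr
        have h3 : ∑ p ∈ (N + 1).primesBelow, rk p ≤ ∑ n ∈ range N, rk (n + 1) := by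
          rw [← Finset.sum_image (f := rk) (g := fun n => n + 1) (by intro a _ b _ h; simpa using h)]
          apply Finset.sum_le_sum_of_subset_of_nonneg
          · intro p hp
            have hp1 := Nat.lt_of_mem_primesBelow hp
            have hp2 := (Nat.prime_of_mem_primesBelow hp).two_le
            rw [Finset.mem_image]
            exact ⟨p - 1, Finset.mem_range.mpr (by omega), by omega⟩
          · intro i _ _; exact rk_nonneg i
        have := sum_rk N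
        linarith

/-- Decomposition `n = A g k²`. -/
theorem decomp (n : ℕ) (hn : n ≠ 0) (z : ℝ) (N : ℕ) (hN : z < N + 1) :
    ∃ A k : ℕ, A ∈ (N + 1).smoothNumbers ∧ k ≠ 0 ∧
      n = A * (∏ P ∈ n.primeFactors.filter
        (fun P : ℕ => z < (P : ℝ) ∧ Odd (n.factorization P)), P) * k ^ 2 := by
  classical
  refine ⟨∏ P ∈ n.primeFactors.filter (fun P : ℕ => ¬ z < (P : ℝ)), P ^ (n.factorization P),
    ∏ P ∈ n.primeFactors.filter (fun P : ℕ => z < (P : ℝ)), P ^ (n.factorization P / 2), ?_, ?_, ?_⟩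
  · apply Finset.prod_induction _ (fun m => m ∈ (N + 1).smoothNumbers)
    · intro a b ha hb; exact Nat.mul_mem_smoothNumbers ha hb
    · exact Nat.mem_smoothNumbers'.mpr (by
        intro p hp h1
        exact absurd (Nat.dvd_one.mp h1) hp.one_lt.ne')
    · intro P hP
      rw [Finset.mem_filter] at hP
      have hPp := Nat.prime_of_mem_primeFactors hP.1
      rw [Nat.mem_smoothNumbers']
      intro p hp hdvd
      have : p = P := (Nat.prime_dvd_prime_iff_eq hp hPp).mp (hp.dvd_of_dvd_pow hdvd)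
      subst this
      have h1 : (p : ℝ) < N + 1 := lt_of_le_of_lt (not_lt.mp hP.2) hN
      exact_mod_cast h1
  · apply Finset.prod_ne_zero_iff.mpr
    intro P hP
    exact pow_ne_zero _ (Nat.prime_of_mem_primeFactors (Finset.mem_filter.mp hP).1).ne_zero
  · have h1 : n = ∏ P ∈ n.primeFactors, P ^ (n.factorization P) :=
      (Nat.prod_factorization_pow_eq_self hn).symm
    have h2 : ∏ P ∈ n.primeFactors.filter (fun P : ℕ => z < (P : ℝ)), P ^ (n.factorization P)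
      = (∏ P ∈ n.primeFactors.filter
        (fun P : ℕ => z < (P : ℝ) ∧ Odd (n.factorization P)), P) *
        (∏ P ∈ n.primeFactors.filter (fun P : ℕ => z < (P : ℝ)), P ^ (n.factorization P / 2)) ^ 2 := by
      rw [← Finset.filter_filter, Finset.prod_filter (fun P => Odd (n.factorization P)),
        ← Finset.prod_pow, ← Finset.prod_mul_distrib]
      apply Finset.prod_congr rfl
      intro P _
      by_cases hodd : Odd (n.factorization P)
      · rw [if_pos hodd]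
        obtain ⟨m, hm⟩ := hodd
        rw [hm, ← pow_mul]
        have : (2 * m + 1) / 2 = m := by omega
        rw [this, pow_succ, mul_comm m 2]
        ring
      · rw [if_neg hodd]
        rw [Nat.not_odd_iff_even] at hodd
        obtain ⟨m, hm⟩ := hodd
        rw [hm, ← pow_mul]
        have : (m + m) / 2 = m := by omega
        rw [this, one_mul]
        ring_nf
    rw [mul_assoc, ← h2, mul_comm, Finset.prod_filter_mul_prod_filter_not]
    exact h1

theorem summable_k : Summable (fun k : ℕ => (k : ℝ) ^ (-(9 / 5) : ℝ)) :=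
  Real.summable_nat_rpow.mpr (by norm_num)

/-- Counting bound. -/
theorem count_bound (x : ℕ) (hx : 1 ≤ x) (z G : ℝ) (N : ℕ) (hN : z < N + 1) (hG : 0 ≤ G) :
    (((Finset.Icc 1 x).filter (fun n : ℕ =>
      ((∏ P ∈ n.primeFactors.filter
        (fun P : ℕ => z < (P : ℝ) ∧ Odd (n.factorization P)), P : ℕ) : ℝ)
        ≤ G)).card : ℝ) ≤ (x : ℝ) ^ (9 / 10 : ℝ) *
          (Real.exp (40 * (N : ℝ) ^ (1 / 10 : ℝ)) * G * ∑' k : ℕ, (k : ℝ) ^ (-(9 / 5) : ℝ)) := by
  classical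
  set T := (Finset.Icc 1 x).filter (fun n : ℕ =>
      ((∏ P ∈ n.primeFactors.filter
        (fun P : ℕ => z < (P : ℝ) ∧ Odd (n.factorization P)), P : ℕ) : ℝ) ≤ G) with hT
  set S := (Finset.Icc 1 x).filter (fun A => A ∈ (N + 1).smoothNumbers) with hSdef
  set GG := Finset.Icc 1 ⌊G⌋₊ with hGG
  set KK := Finset.Icc 1 x with hKK
  set Q := (S ×ˢ GG ×ˢ KK).filter (fun q => q.1 * q.2.1 * q.2.2 ^ 2 ≤ x) with hQ
  have hsub : T ⊆ Q.image (fun q => q.1 * q.2.1 * q.2.2 ^ 2) := by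
    intro n hn
    rw [hT, Finset.mem_filter, Finset.mem_Icc] at hn
    obtain ⟨⟨hn1, hnx⟩, hnG⟩ := hn
    obtain ⟨A, k, hA, hk, hdec⟩ := decomp n (by omega) z N hN
    set g := ∏ P ∈ n.primeFactors.filter
        (fun P : ℕ => z < (P : ℝ) ∧ Odd (n.factorization P)), P with hg
    have hg0 : g ≠ 0 := by
      intro h0; rw [h0] at hdec; simp at hdec; omega
    have hA0 : A ≠ 0 := Nat.ne_zero_of_mem_smoothNumbers hA
    have hAn : A ∣ n := ⟨g * k ^ 2, by rw [hdec]; ring⟩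
    have hkn : k ∣ n := ⟨A * g * k, by rw [hdec]; ring⟩
    rw [Finset.mem_image]
    refine ⟨(A, g, k), ?_, hdec.symm⟩
    rw [hQ, Finset.mem_filter, Finset.mem_product, Finset.mem_product]
    refine ⟨⟨?_, ?_, ?_⟩, ?_⟩
    · rw [hSdef, Finset.mem_filter, Finset.mem_Icc]
      exact ⟨⟨Nat.pos_of_ne_zero hA0, (Nat.le_of_dvd (by omega) hAn).trans hnx⟩, hA⟩
    · rw [hGG, Finset.mem_Icc]
      exact ⟨Nat.pos_of_ne_zero hg0, Nat.le_floor hnG⟩
    · rw [hKK, Finset.mem_Icc]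
      exact ⟨Nat.pos_of_ne_zero hk, (Nat.le_of_dvd (by omega) hkn).trans hnx⟩
    · simp only
      rw [← hdec]; exact hnx
  have hcard : (T.card : ℝ) ≤ Q.card := by
    exact_mod_cast (Finset.card_le_card hsub).trans Finset.card_image_le
  have hQ1 : (Q.card : ℝ) ≤ ∑ q ∈ S ×ˢ GG ×ˢ KK, (x : ℝ) ^ (9 / 10 : ℝ) *
      (rk q.1 * (rk q.2.1 * (q.2.2 : ℝ) ^ (-(9 / 5) : ℝ))) := by
    have hx0 : (0 : ℝ) < x := by exact_mod_cast hx
    calc (Q.card : ℝ) = ∑ q ∈ Q, (1 : ℝ) := by simp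
      _ ≤ ∑ q ∈ Q, (x : ℝ) ^ (9 / 10 : ℝ) *
          (rk q.1 * (rk q.2.1 * (q.2.2 : ℝ) ^ (-(9 / 5) : ℝ))) := by
          apply Finset.sum_le_sum
          intro q hq
          rw [hQ, Finset.mem_filter, Finset.mem_product, Finset.mem_product] at hq
          obtain ⟨⟨hq1, hq2, hq3⟩, hq4⟩ := hq
          have ha : (0 : ℝ) < q.1 := by
            have := (Finset.mem_Icc.mp (Finset.mem_filter.mp hq1).1).1
            exact_mod_cast this
          have hg : (0 : ℝ) < q.2.1 := by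
            have := (Finset.mem_Icc.mp hq2).1
            exact_mod_cast this
          have hk : (0 : ℝ) < q.2.2 := by
            have := (Finset.mem_Icc.mp hq3).1
            exact_mod_cast this
          have hle : (q.1 : ℝ) * q.2.1 * (q.2.2 : ℝ) ^ 2 ≤ x := by exact_mod_cast hq4
          have h1 : (q.2.2 : ℝ) ^ (-(9 / 5) : ℝ) = ((q.2.2 : ℝ) ^ 2) ^ (-(9 / 10) : ℝ) := by
            rw [← Real.rpow_natCast, ← Real.rpow_mul hk.le]
            norm_num
          rw [h1, rk_apply, rk_apply, ← mul_assoc, ← mul_assoc, mul_assoc, mul_assoc,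
            ← Real.mul_rpow hg.le (by positivity), ← Real.mul_rpow ha.le (by positivity),
            Real.rpow_neg (by positivity), ← div_eq_mul_inv]
          rw [one_le_div (by positivity)]
          apply Real.rpow_le_rpow (by positivity) _ (by norm_num)
          rw [← mul_assoc]; exact hle
      _ ≤ _ := by
          apply Finset.sum_le_sum_of_subset_of_nonneg (Finset.filter_subset _ _)
          intro q _ _
          have := rk_nonneg q.1
          have := rk_nonneg q.2.1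
          positivity
  have hprod : ∑ q ∈ S ×ˢ GG ×ˢ KK, (x : ℝ) ^ (9 / 10 : ℝ) *
      (rk q.1 * (rk q.2.1 * (q.2.2 : ℝ) ^ (-(9 / 5) : ℝ))) =
      (x : ℝ) ^ (9 / 10 : ℝ) * ((∑ A ∈ S, rk A) * ((∑ g ∈ GG, rk g) *
        ∑ k ∈ KK, (k : ℝ) ^ (-(9 / 5) : ℝ))) := by
    rw [← Finset.mul_sum, Finset.sum_mul_sum, Finset.sum_product]
    congr 1
    rw [Finset.sum_mul]
    apply Finset.sum_congr rfl
    intro A _
    rw [Finset.sum_product, Finset.mul_sum]
    apply Finset.sum_congr rfl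
    intro g _
    rw [Finset.mul_sum]
  have hS : ∑ A ∈ S, rk A ≤ Real.exp (40 * (N : ℝ) ^ (1 / 10 : ℝ)) :=
    smooth_sum N S (fun A hA => (Finset.mem_filter.mp hA).2)
  have hGs : ∑ g ∈ GG, rk g ≤ G := by
    calc ∑ g ∈ GG, rk g ≤ ∑ g ∈ GG, (1 : ℝ) := by
          apply Finset.sum_le_sum
          intro g hg
          have hg1 := (Finset.mem_Icc.mp hg).1
          rw [rk_apply]
          exact Real.rpow_le_one_of_one_le_of_nonpos (by exact_mod_cast hg1) (by norm_num)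
      _ = (⌊G⌋₊ : ℝ) := by simp [hGG]
      _ ≤ G := Nat.floor_le hG
  have hKs : ∑ k ∈ KK, (k : ℝ) ^ (-(9 / 5) : ℝ) ≤ ∑' k : ℕ, (k : ℝ) ^ (-(9 / 5) : ℝ) :=
    summable_k.sum_le_tsum _ (fun k _ => by positivity)
  refine hcard.trans (hQ1.trans ?_)
  rw [hprod]
  apply mul_le_mul_of_nonneg_left _ (by positivity)
  have e1 : 0 ≤ ∑ A ∈ S, rk A := Finset.sum_nonneg fun A _ => rk_nonneg A
  have e2 : 0 ≤ ∑ g ∈ GG, rk g := Finset.sum_nonneg fun A _ => rk_nonneg A
  have e3 : 0 ≤ ∑ k ∈ KK, (k : ℝ) ^ (-(9 / 5) : ℝ) :=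
    Finset.sum_nonneg fun A _ => by positivity
  rw [mul_assoc]
  apply mul_le_mul hS _ (by positivity) (Real.exp_pos _).le
  exact mul_le_mul hGs hKs e3 hG

/-- Few integers `n ≤ x` have rough-odd part at most `x^(1/1000)`. -/
theorem rough_count : ∃ x₀ : ℕ, ∀ x : ℕ, x₀ ≤ x →
    (((Finset.Icc 1 x).filter (fun n : ℕ =>
      ((∏ P ∈ n.primeFactors.filter
        (fun P : ℕ => (Real.log x) ^ 6 < (P : ℝ) ∧ Odd (n.factorization P)), P : ℕ) : ℝ)
        ≤ (x : ℝ) ^ (1 / 1000 : ℝ))).card : ℝ) ≤ (x : ℝ) ^ (19 / 20 : ℝ) := by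
  set C := ∑' k : ℕ, (k : ℝ) ^ (-(9 / 5) : ℝ) with hC
  have hlog : Filter.Tendsto (fun x : ℕ => Real.log (x : ℝ)) Filter.atTop Filter.atTop :=
    Real.tendsto_log_atTop.comp tendsto_natCast_atTop_atTop
  have hev : ∀ᶠ L : ℝ in Filter.atTop, 1 ≤ L ∧ C ≤ Real.exp (L / 100) ∧
      40 * L ^ (6 / 10 : ℝ) ≤ L / 100 := by
    have h1 : ∀ᶠ L : ℝ in Filter.atTop, C ≤ Real.exp (L / 100) :=
      (Real.tendsto_exp_atTop.comp (Filter.tendsto_id.atTop_div_const
        (by norm_num : (0 : ℝ) < 100))).eventually_ge_atTop C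
    have h2 : ∀ᶠ L : ℝ in Filter.atTop, (4000 : ℝ) ≤ L ^ (4 / 10 : ℝ) :=
      (tendsto_rpow_atTop (by norm_num)).eventually_ge_atTop _
    filter_upwards [h1, h2, Filter.eventually_ge_atTop 1] with L a b c
    refine ⟨c, a, ?_⟩
    have h3 : L = L ^ (6 / 10 : ℝ) * L ^ (4 / 10 : ℝ) := by
      rw [← Real.rpow_add (by linarith)]
      norm_num
    have h4 : 0 ≤ L ^ (6 / 10 : ℝ) := Real.rpow_nonneg (by linarith) _
    have h5 : L ^ (6 / 10 : ℝ) * 4000 ≤ L ^ (6 / 10 : ℝ) * L ^ (4 / 10 : ℝ) :=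
      mul_le_mul_of_nonneg_left b h4
    rw [← h3] at h5
    linarith
  obtain ⟨x₁, hx₁⟩ := Filter.eventually_atTop.mp (hlog.eventually hev)
  refine ⟨max x₁ 2, fun x hx => ?_⟩
  obtain ⟨hL1, hL2, hL3⟩ := hx₁ x ((le_max_left _ _).trans hx)
  have hx2 : 2 ≤ x := (le_max_right _ _).trans hx
  have hxpos : (0 : ℝ) < x := by positivity
  set L := Real.log (x : ℝ) with hL
  have hxexp : (x : ℝ) = Real.exp L := (Real.exp_log hxpos).symm
  have hL0 : 0 ≤ L := by linarith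
  refine (count_bound x (by omega) (L ^ 6) ((x : ℝ) ^ (1 / 1000 : ℝ)) ⌊L ^ 6⌋₊
    (Nat.lt_floor_add_one _) (by positivity)).trans ?_
  rw [← hC]
  have h1 : ((⌊L ^ 6⌋₊ : ℕ) : ℝ) ^ (1 / 10 : ℝ) ≤ L ^ (6 / 10 : ℝ) := by
    calc ((⌊L ^ 6⌋₊ : ℕ) : ℝ) ^ (1 / 10 : ℝ) ≤ (L ^ 6) ^ (1 / 10 : ℝ) := by
          apply Real.rpow_le_rpow (Nat.cast_nonneg _) (Nat.floor_le (by positivity)) (by norm_num)
      _ = L ^ (6 / 10 : ℝ) := by
          rw [← Real.rpow_natCast, ← Real.rpow_mul hL0]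
          norm_num
  have hC0 : 0 ≤ C := tsum_nonneg fun k => by positivity
  have e1 : (x : ℝ) ^ (9 / 10 : ℝ) = Real.exp (L * (9 / 10)) := by
    rw [Real.rpow_def_of_pos hxpos]
  have e2 : (x : ℝ) ^ (1 / 1000 : ℝ) = Real.exp (L * (1 / 1000)) := by
    rw [Real.rpow_def_of_pos hxpos]
  have e3 : (x : ℝ) ^ (19 / 20 : ℝ) = Real.exp (L * (19 / 20)) := by
    rw [Real.rpow_def_of_pos hxpos]
  rw [e1, e2, e3]
  calc Real.exp (L * (9 / 10)) * (Real.exp (40 * ((⌊L ^ 6⌋₊ : ℕ) : ℝ) ^ (1 / 10 : ℝ)) *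
        Real.exp (L * (1 / 1000)) * C)
      ≤ Real.exp (L * (9 / 10)) * (Real.exp (L / 100) *
        Real.exp (L * (1 / 1000)) * Real.exp (L / 100)) := by
        gcongr
        linarith
    _ = Real.exp (L * (9 / 10) + (L / 100 + L * (1 / 1000) + L / 100)) := by
        rw [Real.exp_add, Real.exp_add, Real.exp_add]
    _ ≤ Real.exp (L * (19 / 20)) := by
        apply Real.exp_le_exp.mpr
        nlinarith

end Pool.Agent.Helper601.JobE
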