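import Mathlib

set_option autoImplicit false

namespace Pool.Agent.Helper601.JobF

lemma near_eq (P n n' y' y : ℕ) (hsP : y - y' ≤ P) (hn : n ∈ Finset.Ioc y' y)
    (hn' : n' ∈ Finset.Ioc y' y) (h1 : P ∣ n) (h2 : P ∣ n') : n = n' := by
  rw [Finset.mem_Ioc] at hn hn'
  by_contra hne
  rcases Nat.lt_or_gt_of_ne hne with h | h
  · have h3 : P ∣ n' - n := Nat.dvd_sub h2 h1
    have h4 : P ≤ n' - n := Nat.le_of_dvd (by omega) h3
    omega
  · have h3 : P ∣ n - n' := Nat.dvd_sub h1 h2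
    have h4 : P ≤ n - n' := Nat.le_of_dvd (by omega) h3
    omega

lemma even_fact_of_isSquare {n : ℕ} (h : IsSquare n) (P : ℕ) : Even (n.factorization P) := by
  obtain ⟨r, rfl⟩ := h
  by_cases hr : r = 0
  · subst hr; simp
  · rw [Nat.factorization_mul hr hr]
    simp

/-- key divisibility -/
lemma key (p u y' y y0 a P n' : ℕ) (hp : p.Prime) (hu : u ≠ 0) (hP : P.Prime) (haP : a < P)
    (hsP : y - y' ≤ P) (hsp : y - y' ≤ p) (hy0 : y0 ∈ Finset.Ioc y' y) (hpy0 : p ∣ y0)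
    (hn' : n' ∈ Finset.Ioc y' y) (hne : n' ≠ y0) (hodd : Odd (n'.factorization P))
    (hsq : IsSquare (p * u * (∏ n ∈ Finset.Ioc y' y, n) * a.factorial)) : P ∣ u := by
  have hprod : (∏ n ∈ Finset.Ioc y' y, n) ≠ 0 := by
    rw [Finset.prod_ne_zero_iff]
    intro n hn
    rw [Finset.mem_Ioc] at hn
    omega
  have hpu : p * u ≠ 0 := mul_ne_zero hp.ne_zero hu
  have hev := even_fact_of_isSquare hsq P
  rw [Nat.factorization_mul (mul_ne_zero hpu hprod) (Nat.factorial_ne_zero a),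
    Nat.factorization_mul hpu hprod] at hev
  have hfa : (a.factorial).factorization P = 0 := by
    apply Nat.factorization_eq_zero_of_not_dvd
    rw [hP.dvd_factorial]
    omega
  have hPn' : P ∣ n' := by
    by_contra hcon
    rw [Nat.factorization_eq_zero_of_not_dvd hcon] at hodd
    exact absurd hodd (by decide)
  have hpr : (∏ n ∈ Finset.Ioc y' y, n).factorization P = n'.factorization P := by
    rw [Nat.factorization_prod (fun n hn => by rw [Finset.mem_Ioc] at hn; omega)]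
    rw [Finsupp.finsetSum_apply]
    rw [Finset.sum_eq_single n']
    · intro b hb hbn
      apply Nat.factorization_eq_zero_of_not_dvd
      intro hPb
      exact hbn (near_eq P b n' y' y hsP hb hn' hPb hPn')
    · intro h; exact absurd hn' h
  simp only [Finsupp.add_apply, hfa, hpr, add_zero] at hev
  have hodd2 : Odd ((p * u).factorization P) := by
    by_contra hcon
    rw [Nat.not_odd_iff_even] at hcon
    have := hcon.add_odd hodd
    exact (Nat.not_odd_iff_even.mpr hev) this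
  have hPpu : P ∣ p * u := by
    by_contra hcon
    rw [Nat.factorization_eq_zero_of_not_dvd hcon] at hodd2
    exact absurd hodd2 (by decide)
  rcases hP.dvd_mul.mp hPpu with h | h
  · exfalso
    have hPp : P = p := (Nat.prime_dvd_prime_iff_eq hP hp).mp h
    subst hPp
    exact hne (near_eq P n' y0 y' y hsP hn' hy0 hPn' hpy0)
  · exact h

lemma sq_uniq (u u' K : ℕ) (hu : Squarefree u) (hu' : Squarefree u') (hK : K ≠ 0)
    (h : IsSquare (u * K)) (h' : IsSquare (u' * K)) : u = u' := by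
  have hu0 : u ≠ 0 := hu.ne_zero
  have hu0' : u' ≠ 0 := hu'.ne_zero
  apply Nat.eq_of_factorization_eq hu0 hu0'
  intro P
  have h1 := even_fact_of_isSquare h P
  have h2 := even_fact_of_isSquare h' P
  rw [Nat.factorization_mul hu0 hK] at h1
  rw [Nat.factorization_mul hu0' hK] at h2
  have h3 := hu.natFactorization_le_one P
  have h4 := hu'.natFactorization_le_one P
  simp only [Finsupp.add_apply] at h1 h2
  rw [Nat.even_iff] at h1 h2
  omega

/-- uniqueness of `m` given the configuration -/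
lemma uniq (p p' u u' v v' s i a : ℕ) (hp : p.Prime) (hp' : p'.Prime) (hu : Squarefree u)
    (hu' : Squarefree u') (hv' : 1 ≤ v') (hvp : v' < p)
    (h0 : p * v = p' * v')
    (hsq : IsSquare (p * u * (∏ n ∈ Finset.Ioc (p * v + i - s) (p * v + i), n) * a.factorial))
    (hsq' : IsSquare (p' * u' * (∏ n ∈ Finset.Ioc (p' * v' + i - s) (p' * v' + i), n) *
      a.factorial)) : p * u = p' * u' := by
  have h1 : p ∣ p' * v' := ⟨v, h0.symm⟩
  have h2 : p = p' := by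
    rcases hp.dvd_mul.mp h1 with h | h
    · exact (Nat.prime_dvd_prime_iff_eq hp hp').mp h
    · exact absurd (Nat.le_of_dvd (by omega) h) (by omega)
  subst h2
  have h3 : v = v' := Nat.eq_of_mul_eq_mul_left hp.pos h0
  subst h3
  have hprod : (∏ n ∈ Finset.Ioc (p * v + i - s) (p * v + i), n) ≠ 0 := by
    rw [Finset.prod_ne_zero_iff]
    intro n hn
    rw [Finset.mem_Ioc] at hn
    omega
  have h4 : u = u' := by
    apply sq_uniq u u' (p * (∏ n ∈ Finset.Ioc (p * v + i - s) (p * v + i), n) * a.factorial) hu hu'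
      (mul_ne_zero (mul_ne_zero hp.ne_zero hprod) (Nat.factorial_ne_zero a))
    · convert hsq using 1; ring
    · convert hsq' using 1; ring
  rw [h4]

lemma card_primeFactors_le (u : ℕ) (hu : u ≠ 0) : (2 : ℕ) ^ u.primeFactors.card ≤ u := by
  calc (2 : ℕ) ^ u.primeFactors.card ≤ ∏ p ∈ u.primeFactors, p :=
        Finset.pow_card_le_prod _ _ _ (fun p hp => (Nat.prime_of_mem_primeFactors hp).two_le)
    _ ≤ u := Nat.le_of_dvd (Nat.pos_of_ne_zero hu) (Nat.prod_primeFactors_dvd u)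

/-- large blocks -/
lemma count_le (p u y' y y0 a w J : ℕ) (z : ℝ) (hp : p.Prime) (hu : u ≠ 0) (haz : (a : ℝ) ≤ z)
    (hsz : ((y - y' : ℕ) : ℝ) ≤ z) (hsp : y - y' ≤ p) (hy0 : y0 ∈ Finset.Ioc y' y)
    (hpy0 : p ∣ y0) (hw : ∀ j ∈ Finset.Icc 1 J, w + j ∈ Finset.Ioc y' y ∧ w + j ≠ y0)
    (hsq : IsSquare (p * u * (∏ n ∈ Finset.Ioc y' y, n) * a.factorial)) :
    (∑ j ∈ Finset.Icc 1 J, ((w + j).primeFactors.filter
          (fun P : ℕ => z < (P : ℝ) ∧ ¬ P ^ 2 ∣ w + j)).card) ≤ u.primeFactors.card := by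
  classical
  rw [← Finset.card_biUnion]
  · apply Finset.card_le_card
    intro P hP
    rw [Finset.mem_biUnion] at hP
    obtain ⟨j, hj, hPj⟩ := hP
    rw [Finset.mem_filter] at hPj
    obtain ⟨hPj, hzP, hP2⟩ := hPj
    have hPp := Nat.prime_of_mem_primeFactors hPj
    have hPd := Nat.dvd_of_mem_primeFactors hPj
    rw [Nat.mem_primeFactors]
    refine ⟨hPp, ?_, hu⟩
    apply key p u y' y y0 a P (w + j) hp hu hPp (by exact_mod_cast lt_of_le_of_lt haz hzP)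
      (by exact_mod_cast (lt_of_le_of_lt hsz hzP).le) hsp hy0 hpy0 (hw j hj).1 (hw j hj).2 _ hsq
    have hne : w + j ≠ 0 := by
      have := (hw j hj).1
      rw [Finset.mem_Ioc] at this
      omega
    have h1 : 1 ≤ (w + j).factorization P := (hPp.dvd_iff_one_le_factorization hne).mp hPd
    have h2 : ¬ 2 ≤ (w + j).factorization P := by
      rw [← hPp.pow_dvd_iff_le_factorization hne]
      exact hP2
    have : (w + j).factorization P = 1 := by omega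
    rw [this]
    exact odd_one
  · intro j hj j' hj' hne
    rw [Function.onFun, Finset.disjoint_left]
    intro P hP hP'
    rw [Finset.mem_filter] at hP hP'
    apply hne
    have h3 := near_eq P (w + j) (w + j') y' y (by exact_mod_cast (lt_of_le_of_lt hsz hP.2.1).le)
      (hw j hj).1 (hw j' hj').1 (Nat.dvd_of_mem_primeFactors hP.1)
      (Nat.dvd_of_mem_primeFactors hP'.1)
    omega

/-- small blocks -/
lemma prod_le (p u y' y y0 a n' : ℕ) (z : ℝ) (hp : p.Prime) (hu : u ≠ 0) (haz : (a : ℝ) ≤ z)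
    (hsz : ((y - y' : ℕ) : ℝ) ≤ z) (hsp : y - y' ≤ p) (hy0 : y0 ∈ Finset.Ioc y' y)
    (hpy0 : p ∣ y0) (hn' : n' ∈ Finset.Ioc y' y) (hne : n' ≠ y0)
    (hsq : IsSquare (p * u * (∏ n ∈ Finset.Ioc y' y, n) * a.factorial)) :
    (∏ P ∈ n'.primeFactors.filter
        (fun P : ℕ => z < (P : ℝ) ∧ Odd (n'.factorization P)), P) ≤ u := by
  apply Nat.le_of_dvd (Nat.pos_of_ne_zero hu)
  refine dvd_trans ?_ (Nat.prod_primeFactors_dvd u)
  apply Finset.prod_dvd_prod_of_subset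
  intro P hP
  rw [Finset.mem_filter] at hP
  obtain ⟨hPj, hzP, hP2⟩ := hP
  have hPp := Nat.prime_of_mem_primeFactors hPj
  rw [Nat.mem_primeFactors]
  refine ⟨hPp, ?_, hu⟩
  exact key p u y' y y0 a P n' hp hu hPp (by exact_mod_cast lt_of_le_of_lt haz hzP)
      (by exact_mod_cast (lt_of_le_of_lt hsz hzP).le) hsp hy0 hpy0 hn' hne hP2 hsq


open Classical in
noncomputable def F (x s i a : ℕ) : Finset ℕ := (Finset.Icc 1 x).filter (fun m : ℕ => ∃ p u v : ℕ,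
  p.Prime ∧ m = p * u ∧ Squarefree u ∧ (x : ℝ) ^ (1 - 1 / 5000 : ℝ) < (p : ℝ) ∧ 1 ≤ v ∧ v < u ∧
  IsSquare (m * (∏ n ∈ Finset.Ioc (p * v + i - s) (p * v + i), n) * a.factorial))

/-- the elementary facts, `x ≥ 2` -/
lemma facts (x p u s : ℕ) (hx : 2 ≤ x) (hpu : p * u ≤ x)
    (hp : (x : ℝ) ^ (1 - 1 / 5000 : ℝ) < (p : ℝ)) (hs : (s : ℝ) ≤ (x : ℝ) ^ (1 / 2500 : ℝ)) :
    (u : ℝ) ≤ (x : ℝ) ^ (1 / 5000 : ℝ) ∧ u < p ∧ s < p := by
  have hx1 : (1 : ℝ) < (x : ℝ) := by exact_mod_cast hx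
  have hx0 : (0 : ℝ) < (x : ℝ) := by linarith
  have hpos : (0 : ℝ) < (x : ℝ) ^ (1 - 1 / 5000 : ℝ) := Real.rpow_pos_of_pos hx0 _
  have hp0 : (0 : ℝ) < (p : ℝ) := hpos.trans hp
  have h1 : (u : ℝ) ≤ (x : ℝ) ^ (1 / 5000 : ℝ) := by
    have h2 : (u : ℝ) * (x : ℝ) ^ (1 - 1 / 5000 : ℝ) ≤ (x : ℝ) := by
      calc (u : ℝ) * (x : ℝ) ^ (1 - 1 / 5000 : ℝ) ≤ (u : ℝ) * (p : ℝ) := by
            apply mul_le_mul_of_nonneg_left hp.le (Nat.cast_nonneg u)
        _ ≤ (x : ℝ) := by rw [mul_comm]; exact_mod_cast hpu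
    have h3 : (x : ℝ) ^ (1 / 5000 : ℝ) * (x : ℝ) ^ (1 - 1 / 5000 : ℝ) = (x : ℝ) := by
      rw [← Real.rpow_add hx0]; norm_num
    nlinarith
  refine ⟨h1, ?_, ?_⟩
  · have h4 : (x : ℝ) ^ (1 / 5000 : ℝ) ≤ (x : ℝ) ^ (1 - 1 / 5000 : ℝ) :=
      Real.rpow_le_rpow_of_exponent_le hx1.le (by norm_num)
    exact_mod_cast lt_of_le_of_lt (h1.trans h4) hp
  · have h4 : (x : ℝ) ^ (1 / 2500 : ℝ) ≤ (x : ℝ) ^ (1 - 1 / 5000 : ℝ) :=
      Real.rpow_le_rpow_of_exponent_le hx1.le (by norm_num)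
    exact_mod_cast lt_of_le_of_lt (hs.trans h4) hp

lemma card_F_le (x s i a : ℕ) (hx : 2 ≤ x) (hs : (s : ℝ) ≤ (x : ℝ) ^ (1 / 2500 : ℝ)) (T : Finset ℕ)
    (f : ℕ → ℕ) (hf : ∀ y y' : ℕ, s < y → s < y' → f y = f y' → y = y')
    (hT : ∀ p u v : ℕ, p.Prime → p * u ≤ x → Squarefree u →
      (x : ℝ) ^ (1 - 1 / 5000 : ℝ) < (p : ℝ) → 1 ≤ v → v < u →
      IsSquare (p * u * (∏ n ∈ Finset.Ioc (p * v + i - s) (p * v + i), n) * a.factorial) →
      f (p * v) ∈ T) : (F x s i a).card ≤ T.card := by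
  classical
  apply Finset.card_le_card_of_forall_subsingleton (fun m w => ∃ p u v : ℕ,
    p.Prime ∧ m = p * u ∧ Squarefree u ∧ (x : ℝ) ^ (1 - 1 / 5000 : ℝ) < (p : ℝ) ∧ 1 ≤ v ∧ v < u ∧
    IsSquare (m * (∏ n ∈ Finset.Ioc (p * v + i - s) (p * v + i), n) * a.factorial) ∧
      w = f (p * v))
  · intro m hm
    rw [F, Finset.mem_filter, Finset.mem_Icc] at hm
    obtain ⟨⟨hm1, hm2⟩, p, u, v, hp, hmpu, hu, hxp, hv, hvu, hsq⟩ := hm
    refine ⟨f (p * v), ?_, p, u, v, hp, hmpu, hu, hxp, hv, hvu, hsq, rfl⟩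
    subst hmpu
    exact hT p u v hp hm2 hu hxp hv hvu hsq
  · intro w hw m hm m' hm'
    obtain ⟨hmF, p, u, v, hp, hmpu, hu, hxp, hv, hvu, hsq, hwf⟩ := hm
    obtain ⟨hmF', p', u', v', hp', hmpu', hu', hxp', hv', hvu', hsq', hwf'⟩ := hm'
    rw [F, Finset.mem_filter, Finset.mem_Icc] at hmF hmF'
    subst hmpu hmpu'
    obtain ⟨h1, h2, h3⟩ := facts x p u s hx hmF.1.2 hxp hs
    obtain ⟨h1', h2', h3'⟩ := facts x p' u' s hx hmF'.1.2 hxp' hs
    have h4 : p * v = p' * v' := by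
      apply hf _ _ _ _ (hwf.symm.trans hwf')
      · exact lt_of_lt_of_le h3 (Nat.le_mul_of_pos_right p hv)
      · exact lt_of_lt_of_le h3' (Nat.le_mul_of_pos_right p' hv')
    have h5 : v' < p := by
      by_contra hcon
      -- p ≤ v' < u' ; p * p ≤ p * v' ; 
      have h6 : (p : ℝ) ≤ (u' : ℝ) := by exact_mod_cast (by omega : p ≤ u')
      have h7 : (x : ℝ) ^ (1 / 5000 : ℝ) ≤ (x : ℝ) ^ (1 - 1 / 5000 : ℝ) :=
        Real.rpow_le_rpow_of_exponent_le (by exact_mod_cast (by omega : 1 ≤ x)) (by norm_num)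
      linarith
    exact uniq p p' u u' v v' s i a hp hp' hu hu' hv' h5 h4 hsq hsq'

open Classical in
lemma large (C : ℝ) (x₀ : ℕ) (hM4 : ∀ x S : ℕ, x₀ ≤ x →
      (Real.log x) ^ 3 ≤ (S : ℝ) → (S : ℝ) ≤ (x : ℝ) ^ (1 / 2000 : ℝ) →
      (((Finset.Icc 1 x).filter (fun w : ℕ =>
        ((∑ j ∈ Finset.Icc 1 (S / 3), ((w + j).primeFactors.filter
          (fun P : ℕ => 2 * (S : ℝ) * (Real.log x) ^ 2 < (P : ℝ) ∧ ¬ P ^ 2 ∣ w + j)).card : ℕ) : ℝ)
          ≤ Real.log x)).card : ℝ) ≤ C * (x : ℝ) / (S : ℝ) ^ 4)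
    (x s i a : ℕ) (hx : x₀ ≤ x) (hx3 : 3 ≤ x) (hs1 : (Real.log x) ^ 3 ≤ (s : ℝ))
    (hs : (s : ℝ) ≤ (x : ℝ) ^ (1 / 2500 : ℝ)) (his : i < s) (hs2 : 2 ≤ s)
    (ha : (a : ℝ) ≤ s * (Real.log x) ^ 2) :
    ((F x s i a).card : ℝ) ≤ C * (x : ℝ) / (s : ℝ) ^ 4 := by
  have hx1 : (1 : ℝ) < (x : ℝ) := by exact_mod_cast (by omega : 1 < x)
  have hL : 1 ≤ Real.log x := by
    rw [Real.le_log_iff_exp_le (by linarith)]
    have h3 : (3 : ℝ) ≤ x := by exact_mod_cast hx3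
    exact le_trans Real.exp_one_lt_d9.le (by norm_num; linarith)
  have hs0 : (0 : ℝ) ≤ (s : ℝ) := Nat.cast_nonneg s
  have hL2 : 1 ≤ (Real.log x) ^ 2 := one_le_pow₀ hL
  refine le_trans ?_ (hM4 x s hx hs1 (hs.trans
    (Real.rpow_le_rpow_of_exponent_le hx1.le (by norm_num))))
  rw [Nat.cast_le]
  -- count bound for both cases
  have hcount : ∀ p u v w : ℕ, p.Prime → p * u ≤ x → Squarefree u →
      (x : ℝ) ^ (1 - 1 / 5000 : ℝ) < (p : ℝ) → 1 ≤ v → v < u →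
      IsSquare (p * u * (∏ n ∈ Finset.Ioc (p * v + i - s) (p * v + i), n) * a.factorial) →
      (∀ j ∈ Finset.Icc 1 (s / 3), w + j ∈ Finset.Ioc (p * v + i - s) (p * v + i) ∧
        w + j ≠ p * v) →
      ((∑ j ∈ Finset.Icc 1 (s / 3), ((w + j).primeFactors.filter
          (fun P : ℕ => 2 * (s : ℝ) * (Real.log x) ^ 2 < (P : ℝ) ∧ ¬ P ^ 2 ∣ w + j)).card : ℕ) : ℝ)
          ≤ Real.log x := by
    intro p u v w hp hpu hu hxp hv hvu hsq hw
    obtain ⟨h1, h2, h3⟩ := facts x p u s (by omega) hpu hxp hs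
    have hpv : p ≤ p * v := Nat.le_mul_of_pos_right p hv
    have h4 := count_le p u (p * v + i - s) (p * v + i) (p * v) a w (s / 3)
      (2 * (s : ℝ) * (Real.log x) ^ 2) hp hu.ne_zero
      (by nlinarith) (by
        have : p * v + i - (p * v + i - s) = s := by omega
        rw [this]; nlinarith) (by omega) (by rw [Finset.mem_Ioc]; omega) ⟨v, rfl⟩ hw hsq
    have h5 : (2 : ℝ) ^ u.primeFactors.card ≤ (x : ℝ) ^ (1 / 5000 : ℝ) := by
      refine le_trans ?_ h1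
      exact_mod_cast card_primeFactors_le u hu.ne_zero
    have h6 : (u.primeFactors.card : ℝ) * Real.log 2 ≤ (1 / 5000) * Real.log x := by
      have := Real.log_le_log (by positivity) h5
      rwa [Real.log_pow, Real.log_rpow (by linarith)] at this
    have h7 : (0.6931471803 : ℝ) < Real.log 2 := Real.log_two_gt_d9
    have h8 : (0 : ℝ) ≤ (u.primeFactors.card : ℝ) := Nat.cast_nonneg _
    have h9 : (u.primeFactors.card : ℝ) ≤ Real.log x := by nlinarith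
    refine le_trans ?_ h9
    exact_mod_cast h4
  by_cases hi : s / 3 ≤ i
  · apply card_F_le x s i a (by omega) hs _ (fun y => y) (fun y y' _ _ h => h)
    intro p u v hp hpu hu hxp hv hvu hsq
    obtain ⟨h1, h2, h3⟩ := facts x p u s (by omega) hpu hxp hs
    have hpv : p ≤ p * v := Nat.le_mul_of_pos_right p hv
    have hpvu : p * v ≤ p * u := Nat.mul_le_mul_left p hvu.le
    rw [Finset.mem_filter, Finset.mem_Icc]
    refine ⟨⟨by omega, by omega⟩, ?_⟩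
    apply hcount p u v (p * v) hp hpu hu hxp hv hvu hsq
    intro j hj
    rw [Finset.mem_Icc] at hj
    rw [Finset.mem_Ioc]
    omega
  · apply card_F_le x s i a (by omega) hs _ (fun y => y - s / 3 - 1)
      (fun y y' _ _ h => by omega)
    intro p u v hp hpu hu hxp hv hvu hsq
    obtain ⟨h1, h2, h3⟩ := facts x p u s (by omega) hpu hxp hs
    have hpv : p ≤ p * v := Nat.le_mul_of_pos_right p hv
    have hpvu : p * v ≤ p * u := Nat.mul_le_mul_left p hvu.le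
    rw [Finset.mem_filter, Finset.mem_Icc]
    refine ⟨⟨by omega, by omega⟩, ?_⟩
    apply hcount p u v (p * v - s / 3 - 1) hp hpu hu hxp hv hvu hsq
    intro j hj
    rw [Finset.mem_Icc] at hj
    rw [Finset.mem_Ioc]
    omega

open Classical in
lemma small (x₀ : ℕ) (hRough : ∀ x : ℕ, x₀ ≤ x →
      (((Finset.Icc 1 x).filter (fun n : ℕ =>
      ((∏ P ∈ n.primeFactors.filter
        (fun P : ℕ => (Real.log x) ^ 6 < (P : ℝ) ∧ Odd (n.factorization P)), P : ℕ) : ℝ)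
        ≤ (x : ℝ) ^ (1 / 1000 : ℝ))).card : ℝ) ≤ (x : ℝ) ^ (19 / 20 : ℝ))
    (x s i a : ℕ) (hx : x₀ ≤ x) (hx3 : 3 ≤ x) (hs1 : (s : ℝ) ≤ (Real.log x) ^ 3)
    (hs : (s : ℝ) ≤ (x : ℝ) ^ (1 / 2500 : ℝ)) (his : i < s) (hs2 : 2 ≤ s)
    (ha : (a : ℝ) ≤ s * (Real.log x) ^ 2) :
    ((F x s i a).card : ℝ) ≤ (x : ℝ) ^ (19 / 20 : ℝ) := by
  have hx1 : (1 : ℝ) < (x : ℝ) := by exact_mod_cast (by omega : 1 < x)
  have hL : 1 ≤ Real.log x := by
    rw [Real.le_log_iff_exp_le (by linarith)]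
    have h3 : (3 : ℝ) ≤ x := by exact_mod_cast hx3
    exact le_trans Real.exp_one_lt_d9.le (by norm_num; linarith)
  have hs0 : (0 : ℝ) ≤ (s : ℝ) := Nat.cast_nonneg s
  have hL2 : 1 ≤ (Real.log x) ^ 2 := one_le_pow₀ hL
  have hL36 : (Real.log x) ^ 3 ≤ (Real.log x) ^ 6 := pow_le_pow_right₀ hL (by norm_num)
  have hL56 : (Real.log x) ^ 5 ≤ (Real.log x) ^ 6 := pow_le_pow_right₀ hL (by norm_num)
  have ha6 : (a : ℝ) ≤ (Real.log x) ^ 6 := by
    have : (s : ℝ) * (Real.log x) ^ 2 ≤ (Real.log x) ^ 3 * (Real.log x) ^ 2 :=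
      mul_le_mul_of_nonneg_right hs1 (by positivity)
    have h5 : (Real.log x) ^ 3 * (Real.log x) ^ 2 = (Real.log x) ^ 5 := by ring
    linarith
  refine le_trans ?_ (hRough x hx)
  rw [Nat.cast_le]
  have hcount : ∀ p u v n' : ℕ, p.Prime → p * u ≤ x → Squarefree u →
      (x : ℝ) ^ (1 - 1 / 5000 : ℝ) < (p : ℝ) → 1 ≤ v → v < u →
      IsSquare (p * u * (∏ n ∈ Finset.Ioc (p * v + i - s) (p * v + i), n) * a.factorial) →
      n' ∈ Finset.Ioc (p * v + i - s) (p * v + i) → n' ≠ p * v →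
      ((∏ P ∈ n'.primeFactors.filter
        (fun P : ℕ => (Real.log x) ^ 6 < (P : ℝ) ∧ Odd (n'.factorization P)), P : ℕ) : ℝ)
        ≤ (x : ℝ) ^ (1 / 1000 : ℝ) := by
    intro p u v n' hp hpu hu hxp hv hvu hsq hn' hne
    obtain ⟨h1, h2, h3⟩ := facts x p u s (by omega) hpu hxp hs
    have hpv : p ≤ p * v := Nat.le_mul_of_pos_right p hv
    have h4 := prod_le p u (p * v + i - s) (p * v + i) (p * v) a n'
      ((Real.log x) ^ 6) hp hu.ne_zero ha6 (by
        have : p * v + i - (p * v + i - s) = s := by omega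
        rw [this]; linarith) (by omega) (by rw [Finset.mem_Ioc]; omega) ⟨v, rfl⟩ hn' hne hsq
    calc _ ≤ (u : ℝ) := by exact_mod_cast h4
      _ ≤ (x : ℝ) ^ (1 / 5000 : ℝ) := h1
      _ ≤ _ := Real.rpow_le_rpow_of_exponent_le hx1.le (by norm_num)
  by_cases hi : 1 ≤ i
  · apply card_F_le x s i a (by omega) hs _ (fun y => y + 1)
      (fun y y' _ _ h => by omega)
    intro p u v hp hpu hu hxp hv hvu hsq
    obtain ⟨h1, h2, h3⟩ := facts x p u s (by omega) hpu hxp hs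
    have hpv : p ≤ p * v := Nat.le_mul_of_pos_right p hv
    have hpvu : p * v < p * u := Nat.mul_lt_mul_of_pos_left hvu hp.pos
    rw [Finset.mem_filter, Finset.mem_Icc]
    refine ⟨⟨by omega, by omega⟩, ?_⟩
    apply hcount p u v (p * v + 1) hp hpu hu hxp hv hvu hsq
    · rw [Finset.mem_Ioc]
      omega
    · omega
  · apply card_F_le x s i a (by omega) hs _ (fun y => y - 1)
      (fun y y' _ _ h => by omega)
    intro p u v hp hpu hu hxp hv hvu hsq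
    obtain ⟨h1, h2, h3⟩ := facts x p u s (by omega) hpu hxp hs
    have hpv : p ≤ p * v := Nat.le_mul_of_pos_right p hv
    have hpvu : p * v ≤ p * u := Nat.mul_le_mul_left p hvu.le
    rw [Finset.mem_filter, Finset.mem_Icc]
    refine ⟨⟨by omega, by omega⟩, ?_⟩
    apply hcount p u v (p * v - 1) hp hpu hu hxp hv hvu hsq
    · rw [Finset.mem_Ioc]
      omega
    · omega


lemma asym (C ε : ℝ) (hε : 0 < ε) : ∃ x₁ : ℕ, ∀ x : ℕ, x₁ ≤ x →
    2 * (Real.log x) ^ 11 * (x : ℝ) ^ (19 / 20 : ℝ) ≤ ε / 2 * x ∧ 4 * C / Real.log x ≤ ε / 2 := by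
  have h1 := (isLittleO_log_rpow_rpow_atTop (s := 1 / 20) (11 : ℝ) (by norm_num)).bound
    (show (0 : ℝ) < ε / 4 by linarith)
  have h1' := tendsto_natCast_atTop_atTop.eventually h1
  have h2 : Filter.Tendsto (fun x : ℕ => Real.log x) Filter.atTop Filter.atTop :=
    Real.tendsto_log_atTop.comp tendsto_natCast_atTop_atTop
  have h2' := h2.eventually_ge_atTop (max 1 (8 * C / ε))
  obtain ⟨x₁, hx₁⟩ := Filter.eventually_atTop.mp (h1'.and (h2'.and
    (Filter.eventually_ge_atTop 1)))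
  refine ⟨x₁, fun x hx => ?_⟩
  obtain ⟨h3, h4, h5⟩ := hx₁ x hx
  have hx0 : (0 : ℝ) < (x : ℝ) := by exact_mod_cast h5
  have hL1 : 1 ≤ Real.log x := (le_max_left _ _).trans h4
  have hL2 : 8 * C / ε ≤ Real.log x := (le_max_right _ _).trans h4
  constructor
  · have h6 : (Real.log x) ^ 11 ≤ ε / 4 * (x : ℝ) ^ (1 / 20 : ℝ) := by
      have h7 : (Real.log (x : ℝ)) ^ (11 : ℝ) = (Real.log x) ^ 11 := by
        exact_mod_cast Real.rpow_natCast (Real.log x) 11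
      rw [h7, Real.norm_of_nonneg (by positivity), Real.norm_of_nonneg (by positivity)] at h3
      exact h3
    have h8 : (x : ℝ) ^ (1 / 20 : ℝ) * (x : ℝ) ^ (19 / 20 : ℝ) = x := by
      rw [← Real.rpow_add hx0]; norm_num
    calc 2 * (Real.log x) ^ 11 * (x : ℝ) ^ (19 / 20 : ℝ)
        ≤ 2 * (ε / 4 * (x : ℝ) ^ (1 / 20 : ℝ)) * (x : ℝ) ^ (19 / 20 : ℝ) := by
          gcongr
      _ = ε / 2 * ((x : ℝ) ^ (1 / 20 : ℝ) * (x : ℝ) ^ (19 / 20 : ℝ)) := by ring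
      _ = ε / 2 * x := by rw [h8]
  · rw [div_le_iff₀ (by linarith)]
    rw [div_le_iff₀ hε] at hL2
    linarith

open Classical in
/-- The one-element-top-block case: few `m = p u` have a square `m * ∏_{y' < n ≤ y} n * a!` with a
short block of length at least two around a multiple `p v`, `v < u`. -/
theorem top_block_one
    (hM4 : ∃ C : ℝ, 0 < C ∧ ∃ x₀ : ℕ, ∀ x S : ℕ, x₀ ≤ x →
      (Real.log x) ^ 3 ≤ (S : ℝ) → (S : ℝ) ≤ (x : ℝ) ^ (1 / 2000 : ℝ) →
      (((Finset.Icc 1 x).filter (fun w : ℕ =>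
        ((∑ j ∈ Finset.Icc 1 (S / 3), ((w + j).primeFactors.filter
          (fun P : ℕ => 2 * (S : ℝ) * (Real.log x) ^ 2 < (P : ℝ) ∧ ¬ P ^ 2 ∣ w + j)).card : ℕ) : ℝ)
          ≤ Real.log x)).card : ℝ) ≤ C * (x : ℝ) / (S : ℝ) ^ 4)
    (hRough : ∃ x₀ : ℕ, ∀ x : ℕ, x₀ ≤ x →
      (((Finset.Icc 1 x).filter (fun n : ℕ =>
      ((∏ P ∈ n.primeFactors.filter
        (fun P : ℕ => (Real.log x) ^ 6 < (P : ℝ) ∧ Odd (n.factorization P)), P : ℕ) : ℝ)
        ≤ (x : ℝ) ^ (1 / 1000 : ℝ))).card : ℝ) ≤ (x : ℝ) ^ (19 / 20 : ℝ)) :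
    ∀ ε : ℝ, 0 < ε → ∃ x₀ : ℕ, ∀ x : ℕ, x₀ ≤ x →
      (((Finset.Icc 1 x).filter (fun m : ℕ => ∃ p u v y' y a : ℕ,
        p.Prime ∧ m = p * u ∧ Squarefree u ∧ (x : ℝ) ^ (1 - 1 / 5000 : ℝ) < (p : ℝ) ∧
        1 ≤ v ∧ v < u ∧ y' < p * v ∧ p * v ≤ y ∧ y' + 2 ≤ y ∧
        ((y : ℝ) - (y' : ℝ)) ≤ (x : ℝ) ^ (1 / 2500 : ℝ) ∧
        (a : ℝ) ≤ ((y : ℝ) - (y' : ℝ)) * (Real.log x) ^ 2 ∧
        IsSquare (m * (∏ n ∈ Finset.Ioc y' y, n) * a.factorial))).card : ℝ) ≤ ε * (x : ℝ) := by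
  intro ε hε
  obtain ⟨C, hC, x₀, hM4⟩ := hM4
  obtain ⟨x₀', hRough⟩ := hRough
  obtain ⟨x₁, hx₁⟩ := asym C ε hε
  refine ⟨max (max x₀ x₀') (max 3 x₁), fun x hx => ?_⟩
  have hxa : x₀ ≤ x := le_trans (le_trans (le_max_left _ _) (le_max_left _ _)) hx
  have hxb : x₀' ≤ x := le_trans (le_trans (le_max_right _ _) (le_max_left _ _)) hx
  have hx3 : 3 ≤ x := le_trans (le_trans (le_max_left _ _) (le_max_right _ _)) hx
  obtain ⟨hE1, hE2⟩ := hx₁ x (le_trans (le_trans (le_max_right _ _) (le_max_right _ _)) hx)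
  have hx1 : (1 : ℝ) < (x : ℝ) := by exact_mod_cast (by omega : 1 < x)
  have hx0 : (0 : ℝ) < (x : ℝ) := by linarith
  have hL : 1 ≤ Real.log x := by
    rw [Real.le_log_iff_exp_le (by linarith)]
    have h3 : (3 : ℝ) ≤ x := by exact_mod_cast hx3
    exact le_trans Real.exp_one_lt_d9.le (by norm_num; linarith)
  set L : ℝ := Real.log x with hLdef
  set H : ℕ := ⌊(x : ℝ) ^ (1 / 2500 : ℝ)⌋₊ with hH
  set K : ℕ := ⌊L ^ 3⌋₊ with hK
  have hH' : ∀ s : ℕ, s ≤ H ↔ (s : ℝ) ≤ (x : ℝ) ^ (1 / 2500 : ℝ) := fun s => by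
    rw [hH, Nat.le_floor_iff (by positivity)]
  have hK' : ∀ s : ℕ, s ≤ K ↔ (s : ℝ) ≤ L ^ 3 := fun s => by
    rw [hK, Nat.le_floor_iff (by positivity)]
  have hsub : ((Finset.Icc 1 x).filter (fun m : ℕ => ∃ p u v y' y a : ℕ,
        p.Prime ∧ m = p * u ∧ Squarefree u ∧ (x : ℝ) ^ (1 - 1 / 5000 : ℝ) < (p : ℝ) ∧
        1 ≤ v ∧ v < u ∧ y' < p * v ∧ p * v ≤ y ∧ y' + 2 ≤ y ∧
        ((y : ℝ) - (y' : ℝ)) ≤ (x : ℝ) ^ (1 / 2500 : ℝ) ∧
        (a : ℝ) ≤ ((y : ℝ) - (y' : ℝ)) * L ^ 2 ∧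
        IsSquare (m * (∏ n ∈ Finset.Ioc y' y, n) * a.factorial))) ⊆
      (Finset.Icc 2 H).biUnion (fun s => (Finset.range s).biUnion (fun i =>
        (Finset.range (⌊(s : ℝ) * L ^ 2⌋₊ + 1)).biUnion (fun a => F x s i a))) := by
    intro m hm
    rw [Finset.mem_filter] at hm
    obtain ⟨hmx, p, u, v, y', y, a, hp, hmpu, hu, hxp, hv, hvu, hy', hy, hyy, hyx, hay, hsq⟩ := hm
    have hcast : ((y - y' : ℕ) : ℝ) = (y : ℝ) - (y' : ℝ) := by
      rw [Nat.cast_sub (by omega)]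
    rw [Finset.mem_biUnion]
    refine ⟨y - y', ?_, ?_⟩
    · rw [Finset.mem_Icc]
      refine ⟨by omega, ?_⟩
      rw [hH', hcast]
      exact hyx
    · rw [Finset.mem_biUnion]
      refine ⟨y - p * v, ?_, ?_⟩
      · rw [Finset.mem_range]; omega
      · rw [Finset.mem_biUnion]
        refine ⟨a, ?_, ?_⟩
        · rw [Finset.mem_range, Nat.lt_succ_iff, Nat.le_floor_iff (by positivity), hcast]
          exact hay
        · rw [F, Finset.mem_filter]
          refine ⟨hmx, p, u, v, hp, hmpu, hu, hxp, hv, hvu, ?_⟩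
          have e1 : p * v + (y - p * v) = y := by omega
          have e2 : y - (y - y') = y' := by omega
          rw [e1, e2]
          exact hsq
  have hcard : (((Finset.Icc 1 x).filter (fun m : ℕ => ∃ p u v y' y a : ℕ,
        p.Prime ∧ m = p * u ∧ Squarefree u ∧ (x : ℝ) ^ (1 - 1 / 5000 : ℝ) < (p : ℝ) ∧
        1 ≤ v ∧ v < u ∧ y' < p * v ∧ p * v ≤ y ∧ y' + 2 ≤ y ∧
        ((y : ℝ) - (y' : ℝ)) ≤ (x : ℝ) ^ (1 / 2500 : ℝ) ∧
        (a : ℝ) ≤ ((y : ℝ) - (y' : ℝ)) * L ^ 2 ∧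
        IsSquare (m * (∏ n ∈ Finset.Ioc y' y, n) * a.factorial))).card : ℝ) ≤
      ∑ s ∈ Finset.Icc 2 H, ∑ i ∈ Finset.range s,
        ∑ a ∈ Finset.range (⌊(s : ℝ) * L ^ 2⌋₊ + 1), ((F x s i a).card : ℝ) := by
    have h := Finset.card_le_card hsub
    have h2 := h.trans (Finset.card_biUnion_le.trans (Finset.sum_le_sum (fun s _ =>
      Finset.card_biUnion_le.trans (Finset.sum_le_sum (fun i _ => Finset.card_biUnion_le)))))
    exact_mod_cast h2
  refine hcard.trans ?_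
  have hterm : ∀ s ∈ Finset.Icc 2 H, (∑ i ∈ Finset.range s,
        ∑ a ∈ Finset.range (⌊(s : ℝ) * L ^ 2⌋₊ + 1), ((F x s i a).card : ℝ)) ≤
      (if s ≤ K then 2 * L ^ 8 * (x : ℝ) ^ (19 / 20 : ℝ) else 0) +
      (if K < s then 2 * L ^ 2 * C * x * ((s : ℝ) ^ 2)⁻¹ else 0) := by
    intro s hs
    rw [Finset.mem_Icc] at hs
    have hsx := (hH' s).mp hs.2
    have hs2 : (2 : ℝ) ≤ s := by exact_mod_cast hs.1
    have hs0 : (0 : ℝ) < s := by linarith
    have hfl : (⌊(s : ℝ) * L ^ 2⌋₊ : ℝ) ≤ s * L ^ 2 := Nat.floor_le (by positivity)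
    have hL2 : 1 ≤ L ^ 2 := one_le_pow₀ hL
    have hn : ((⌊(s : ℝ) * L ^ 2⌋₊ + 1 : ℕ) : ℝ) ≤ 2 * s * L ^ 2 := by
      push_cast
      nlinarith
    have hgen : ∀ B : ℝ, 0 ≤ B → (∀ i a : ℕ, i < s → (a : ℝ) ≤ s * L ^ 2 →
        ((F x s i a).card : ℝ) ≤ B) → (∑ i ∈ Finset.range s,
        ∑ a ∈ Finset.range (⌊(s : ℝ) * L ^ 2⌋₊ + 1), ((F x s i a).card : ℝ)) ≤
        s * (2 * s * L ^ 2) * B := by
      intro B hB0 hB
      calc (∑ i ∈ Finset.range s, ∑ a ∈ Finset.range (⌊(s : ℝ) * L ^ 2⌋₊ + 1),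
              ((F x s i a).card : ℝ))
          ≤ ∑ i ∈ Finset.range s, ∑ a ∈ Finset.range (⌊(s : ℝ) * L ^ 2⌋₊ + 1), B := by
            apply Finset.sum_le_sum
            intro i hi
            apply Finset.sum_le_sum
            intro a ha
            rw [Finset.mem_range] at hi ha
            apply hB i a hi
            rw [Nat.lt_succ_iff, Nat.le_floor_iff (by positivity)] at ha
            exact ha
        _ = s * (((⌊(s : ℝ) * L ^ 2⌋₊ + 1 : ℕ) : ℝ) * B) := by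
            simp only [Finset.sum_const, Finset.card_range, nsmul_eq_mul]
        _ ≤ s * ((2 * s * L ^ 2) * B) := by gcongr
        _ = s * (2 * s * L ^ 2) * B := by ring
    by_cases hsK : s ≤ K
    · rw [if_pos hsK, if_neg (by omega), add_zero]
      have hsL := (hK' s).mp hsK
      refine (hgen _ (by positivity) (fun i a hi ha => small x₀' hRough x s i a hxb hx3 hsL hsx hi
        hs.1 ha)).trans ?_
      have : (s : ℝ) * (2 * s * L ^ 2) ≤ 2 * L ^ 8 := by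
        calc (s : ℝ) * (2 * s * L ^ 2) = 2 * (s * s) * L ^ 2 := by ring
          _ ≤ 2 * (L ^ 3 * L ^ 3) * L ^ 2 := by gcongr
          _ = 2 * L ^ 8 := by ring
      gcongr
    · rw [if_neg hsK, if_pos (by omega), zero_add]
      have hsL : L ^ 3 ≤ (s : ℝ) := by
        have := (hK' s).not.mp hsK
        push Not at this
        exact this.le
      refine (hgen _ (by positivity) (fun i a hi ha => large C x₀ hM4 x s i a hxa hx3 hsL hsx hi
        hs.1 ha)).trans ?_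
      apply le_of_eq
      field_simp
  refine (Finset.sum_le_sum hterm).trans ?_
  rw [Finset.sum_add_distrib]
  have hS1 : (∑ s ∈ Finset.Icc 2 H, (if s ≤ K then 2 * L ^ 8 * (x : ℝ) ^ (19 / 20 : ℝ) else 0)) ≤
      ε / 2 * x := by
    rw [← Finset.sum_filter]
    refine le_trans ?_ hE1
    rw [Finset.sum_const, nsmul_eq_mul]
    have h1 : (((Finset.Icc 2 H).filter (fun s => s ≤ K)).card : ℝ) ≤ L ^ 3 := by
      have h2 : ((Finset.Icc 2 H).filter (fun s => s ≤ K)).card ≤ K := by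
        calc _ ≤ (Finset.Icc 1 K).card := by
              apply Finset.card_le_card
              intro s hs
              rw [Finset.mem_filter, Finset.mem_Icc] at hs
              rw [Finset.mem_Icc]
              omega
          _ = K := by simp
      exact (Nat.cast_le.mpr h2).trans (Nat.floor_le (by positivity))
    calc _ ≤ L ^ 3 * (2 * L ^ 8 * (x : ℝ) ^ (19 / 20 : ℝ)) := by gcongr
      _ = 2 * L ^ 11 * (x : ℝ) ^ (19 / 20 : ℝ) := by ring
  have hS2 : (∑ s ∈ Finset.Icc 2 H, (if K < s then 2 * L ^ 2 * C * x * ((s : ℝ) ^ 2)⁻¹ else 0)) ≤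
      ε / 2 * x := by
    rw [← Finset.sum_filter, ← Finset.mul_sum]
    have h1 : (∑ s ∈ (Finset.Icc 2 H).filter (fun s => K < s), ((s : ℝ) ^ 2)⁻¹) ≤ 2 / (K + 1) := by
      refine le_trans ?_ (sum_Ioo_inv_sq_le K (H + 1))
      apply Finset.sum_le_sum_of_subset_of_nonneg
      · intro s hs
        rw [Finset.mem_filter, Finset.mem_Icc] at hs
        rw [Finset.mem_Ioo]
        omega
      · intro s _ _
        positivity
    have h2 : (2 : ℝ) / (K + 1) ≤ 2 / L ^ 3 := by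
      have : L ^ 3 < K + 1 := Nat.lt_floor_add_one _
      gcongr
    calc _ ≤ 2 * L ^ 2 * C * x * (2 / L ^ 3) := by
          have : (∑ s ∈ (Finset.Icc 2 H).filter (fun s => K < s), ((s : ℝ) ^ 2)⁻¹) ≤ 2 / L ^ 3 :=
            h1.trans h2
          gcongr
      _ = (4 * C / L) * x := by
          field_simp
          ring
      _ ≤ ε / 2 * x := by gcongr
  linarith

end Pool.Agent.Helper601.JobF
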