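import Mathlib
import Pool.Agent.Helper601.PartA1

set_option autoImplicit false

namespace Pool.Agent.Helper601

open Finset

/-- abstract form: `Ξ` large, `R ≥ Ξ ^ 20`, `x = R ^ 2` -/
theorem num_p {Ξ R x u p : ℝ} (hΞ : 10 ≤ Ξ) (hR : Ξ ^ 20 ≤ R) (hx : x = R ^ 2) (hu : 0 < u)
    (huΞ : u ≤ Ξ) (hxp : x < p * (2 * u)) : Ξ ^ 30 < p := by
  have hΞ0 : 0 < Ξ := by linarith
  have h20 : 0 < Ξ ^ 20 := by positivity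
  have h1 : Ξ ^ 40 ≤ x := by
    rw [hx]
    calc Ξ ^ 40 = (Ξ ^ 20) ^ 2 := by ring
      _ ≤ R ^ 2 := pow_le_pow_left₀ h20.le hR 2
  have hp0 : 0 < p := by
    by_contra hc
    push Not at hc
    have : p * (2 * u) ≤ 0 := mul_nonpos_of_nonpos_of_nonneg hc (by positivity)
    have : 0 < Ξ ^ 40 := by positivity
    linarith
  have h2 : p * (2 * u) ≤ p * Ξ ^ 2 := by
    apply mul_le_mul_of_nonneg_left _ hp0.le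
    nlinarith
  have h3 : Ξ ^ 40 < p * Ξ ^ 2 := by linarith
  have h4 : Ξ ^ 38 * Ξ ^ 2 < p * Ξ ^ 2 := by
    calc Ξ ^ 38 * Ξ ^ 2 = Ξ ^ 40 := by ring
      _ < _ := h3
  have h5 : Ξ ^ 38 < p := lt_of_mul_lt_mul_right h4 (by positivity)
  have h6 : Ξ ^ 30 ≤ Ξ ^ 38 := pow_le_pow_right₀ (by linarith) (by norm_num)
  linarith

theorem num_pR {Ξ R x u p : ℝ} (hΞ : 10 ≤ Ξ) (hR : Ξ ^ 20 ≤ R) (hx : x = R ^ 2) (hu : 0 < u)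
    (huΞ : u ≤ Ξ) (hxp : x < p * (2 * u)) : R * Ξ ^ 10 < p := by
  have hΞ0 : 0 < Ξ := by linarith
  have h20 : 0 < Ξ ^ 20 := by positivity
  have hR0 : 0 < R := by linarith
  have hp0 : 0 < p := by
    by_contra hc
    push Not at hc
    have h1 : p * (2 * u) ≤ 0 := mul_nonpos_of_nonpos_of_nonneg hc (by positivity)
    have h2 : 0 < R ^ 2 := by positivity
    linarith
  have h2 : p * (2 * u) ≤ p * Ξ ^ 2 := by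
    apply mul_le_mul_of_nonneg_left _ hp0.le
    nlinarith
  have h3 : R * Ξ ^ 10 * Ξ ^ 2 < p * Ξ ^ 2 := by
    have e1 : Ξ ^ 12 ≤ R := (pow_le_pow_right₀ (by linarith) (by norm_num)).trans hR
    calc R * Ξ ^ 10 * Ξ ^ 2 = R * Ξ ^ 12 := by ring
      _ ≤ R * R := mul_le_mul_of_nonneg_left e1 hR0.le
      _ = x := by rw [hx]; ring
      _ < p * (2 * u) := hxp
      _ ≤ _ := h2
  exact lt_of_mul_lt_mul_right h3 (by positivity)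

theorem pow_le_of {Ξ : ℝ} (hΞ : 10 ≤ Ξ) {a b : ℕ} (h : a ≤ b) : Ξ ^ a ≤ Ξ ^ b :=
  pow_le_pow_right₀ (by linarith) h

theorem numeric (e : ℝ) (he : 0 < e) (he2 : e ≤ 1 / 20000) (J : ℕ) (Ca M : ℝ) (hCa : 0 < Ca) :
    ∃ x₀ : ℕ, 4 ≤ x₀ ∧ ∀ x : ℕ, x₀ ≤ x →
      2 * Ca ≤ Real.log x ∧ 20 * Real.log 4 ≤ Real.log x ∧ 4 * J + 4 ≤ x ∧ M ≤ Real.log x ∧
      x < (⌊(x : ℝ) ^ (1 / 2 + 2 * e)⌋₊ + 1) ^ 2 ∧ J ≤ ⌊(x : ℝ) ^ (4 * e)⌋₊ ∧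
      2 * ⌊(x : ℝ) ^ (e / 2)⌋₊ * ⌊(x : ℝ) ^ (e / 2)⌋₊ ≤ x ∧
      ⌊(x : ℝ) ^ (e / 2)⌋₊ ≤ ⌊(x : ℝ) ^ (1 / 2 - e)⌋₊ ∧ 1 ≤ ⌊(x : ℝ) ^ (1 / 2 - e)⌋₊ ∧
      ⌊(x : ℝ) ^ (1 / 2 - e)⌋₊ ≤ ⌊(x : ℝ) ^ (1 / 2 + 2 * e)⌋₊ ∧ 1 ≤ ⌊(x : ℝ) ^ (4 * e)⌋₊ ∧
      Real.log (⌊(x : ℝ) ^ (1 / 2 + 2 * e)⌋₊ : ℝ) - Real.log (⌊(x : ℝ) ^ (1 / 2 - e)⌋₊ : ℝ) ≤
        3 * e * Real.log x + 1 ∧
      Real.log (⌊(x : ℝ) ^ (4 * e)⌋₊ : ℝ) ≤ 4 * e * Real.log x ∧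
      ∀ u : ℕ, 1 ≤ u → (u : ℝ) ≤ (x : ℝ) ^ (e / 2) →
        (x : ℝ) ^ (1 / 4 : ℝ) * ((u : ℝ) * ⌊(x : ℝ) ^ (1 / 2 + 2 * e)⌋₊) ≤ x ∧
        (x : ℝ) ^ (1 / 4 : ℝ) * ((u : ℝ) * ⌊(x : ℝ) ^ (4 * e)⌋₊) ≤ x ∧
        u * (J + ⌊(x : ℝ) ^ (1 / 2 + e)⌋₊) ≤ ⌊(x : ℝ) ^ (1 / 2 + 2 * e)⌋₊ ∧
        Ca * ((J : ℝ) + ((2 * ⌊(x : ℝ) ^ e⌋₊ * u : ℕ) : ℝ)) * Real.log x ≤
          ⌊(x : ℝ) ^ (4 * e)⌋₊ ∧
        u * (1 + 2 * ⌊(x : ℝ) ^ e⌋₊ * u) ≤ ⌊(x : ℝ) ^ (4 * e)⌋₊ ∧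
        ((2 * ⌊(x : ℝ) ^ e⌋₊ * u : ℕ) : ℝ) ≤ (x : ℝ) ^ (1 / 2500 : ℝ) ∧
        ∀ p : ℕ, x < p * (2 * u) →
          ⌊(x : ℝ) ^ (1 / 2 + e)⌋₊ < p ∧ x < p ^ 2 ∧
          (∀ r : ℕ, p ≤ r + ⌊(x : ℝ) ^ e⌋₊ → x < r ^ 2 ∧ ⌊(x : ℝ) ^ (1 / 2 + e)⌋₊ < r ∧ J ≤ r) ∧
          ⌊(x : ℝ) ^ e⌋₊ * (u + 1) + J < p ∧ (x : ℝ) ^ (1 - 1 / 5000 : ℝ) < (p : ℝ) ∧
          u + 2 ≤ p := by
  obtain ⟨m₁, hm₁, hc1⟩ := exists_const_le (e / 2) ((J : ℝ) + 3 * Ca + 10) (by positivity)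
  obtain ⟨m₂, hm₂, hc2⟩ := exists_log_le (e / 2) 1 (by positivity)
  refine ⟨m₁ + m₂ + ⌈Real.exp (2 * Ca + |M| + 20 * Real.log 4)⌉₊ + 4 * J + 4, by omega, ?_⟩
  intro x hx
  have hx4 : 4 ≤ x := by omega
  have hx4r : (4 : ℝ) ≤ x := by exact_mod_cast hx4
  have hx0 : (0 : ℝ) < x := by linarith
  have hx1 : (1 : ℝ) ≤ x := by linarith
  set Ξ : ℝ := (x : ℝ) ^ (e / 2) with hΞdef
  set R : ℝ := (x : ℝ) ^ (1 / 2 : ℝ) with hRdef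
  have hΞJ : (J : ℝ) + 3 * Ca + 10 ≤ Ξ := hc1 x (by omega)
  have hJ0 : (0 : ℝ) ≤ J := Nat.cast_nonneg _
  have hΞ : 10 ≤ Ξ := by linarith
  have hΞ0 : 0 < Ξ := by linarith
  have hlogΞ : Real.log x ≤ Ξ := by
    have := hc2 x (by omega)
    linarith
  have hlogbig : 2 * Ca + |M| + 20 * Real.log 4 ≤ Real.log x := by
    rw [← Real.log_exp (2 * Ca + |M| + 20 * Real.log 4)]
    apply Real.log_le_log (Real.exp_pos _)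
    refine (Nat.le_ceil _).trans ?_
    exact_mod_cast (by omega : ⌈Real.exp (2 * Ca + |M| + 20 * Real.log 4)⌉₊ ≤ x)
  have hM0 := abs_nonneg M
  have hMM := le_abs_self M
  have hlog4 : 0 < Real.log 4 := Real.log_pos (by norm_num)
  have hlogx : 0 < Real.log x := by linarith
  have hR : Ξ ^ 20 ≤ R := by
    rw [hΞdef, hRdef, ← Real.rpow_natCast, ← Real.rpow_mul hx0.le]
    apply Real.rpow_le_rpow_of_exponent_le hx1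
    push_cast
    linarith
  have hxR : (x : ℝ) = R ^ 2 := by
    rw [hRdef, ← Real.rpow_natCast, ← Real.rpow_mul hx0.le]
    norm_num
  have h20 : 0 < Ξ ^ 20 := by positivity
  have hR0 : 0 < R := by linarith
  have hΞ20 : Ξ ≤ Ξ ^ 20 := by
    calc Ξ = Ξ ^ 1 := by ring
      _ ≤ Ξ ^ 20 := pow_le_of hΞ (by norm_num)
  have hRΞ : Ξ ≤ R := by linarith
  have e_e : (x : ℝ) ^ e = Ξ ^ 2 := by
    rw [hΞdef, ← Real.rpow_natCast, ← Real.rpow_mul hx0.le]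
    congr 1; push_cast; ring
  have e_4e : (x : ℝ) ^ (4 * e) = Ξ ^ 8 := by
    rw [hΞdef, ← Real.rpow_natCast, ← Real.rpow_mul hx0.le]
    congr 1; push_cast; ring
  have e_he : (x : ℝ) ^ (1 / 2 + e) = R * Ξ ^ 2 := by
    rw [Real.rpow_add hx0, e_e]
  have e_2e : (x : ℝ) ^ (2 * e) = Ξ ^ 4 := by
    rw [hΞdef, ← Real.rpow_natCast, ← Real.rpow_mul hx0.le]
    congr 1; push_cast; ring
  have e_h2e : (x : ℝ) ^ (1 / 2 + 2 * e) = R * Ξ ^ 4 := by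
    rw [Real.rpow_add hx0, e_2e]
  have e_hme : (x : ℝ) ^ (1 / 2 - e) = R / Ξ ^ 2 := by
    rw [Real.rpow_sub hx0, e_e]
  have e_quarter : (x : ℝ) ^ (1 / 4 : ℝ) * (x : ℝ) ^ (1 / 4 : ℝ) = R := by
    rw [hRdef, ← Real.rpow_add hx0]; norm_num
  have hq0 : 0 < (x : ℝ) ^ (1 / 4 : ℝ) := by positivity
  have hqΞ : Ξ ^ 10 ≤ (x : ℝ) ^ (1 / 4 : ℝ) := by
    by_contra hc
    push Not at hc
    have h1 : (x : ℝ) ^ (1 / 4 : ℝ) * (x : ℝ) ^ (1 / 4 : ℝ) < Ξ ^ 10 * Ξ ^ 10 :=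
      mul_lt_mul hc hc.le hq0 (by positivity)
    have h2 : Ξ ^ 10 * Ξ ^ 10 = Ξ ^ 20 := by ring
    linarith
  have e_5000 : Ξ ^ 8 ≤ (x : ℝ) ^ (1 / 5000 : ℝ) := by
    rw [← e_4e]
    apply Real.rpow_le_rpow_of_exponent_le hx1
    linarith
  have e_2500 : Ξ ^ 8 ≤ (x : ℝ) ^ (1 / 2500 : ℝ) := by
    refine e_5000.trans ?_
    apply Real.rpow_le_rpow_of_exponent_le hx1
    norm_num
  have hΞ2 : 0 < Ξ ^ 2 := by positivity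
  have hΞpow : ∀ a b : ℕ, a ≤ b → Ξ ^ a ≤ Ξ ^ b := fun a b h => pow_le_of hΞ h
  have hRdiv : Ξ ^ 10 ≤ R / Ξ ^ 2 := by
    rw [le_div_iff₀ hΞ2]
    calc Ξ ^ 10 * Ξ ^ 2 = Ξ ^ 12 := by ring
      _ ≤ Ξ ^ 20 := hΞpow _ _ (by norm_num)
      _ ≤ R := hR
  have hRdivle : R / Ξ ^ 2 ≤ R * Ξ ^ 4 := by
    rw [div_le_iff₀ hΞ2]
    have : (1 : ℝ) ≤ Ξ ^ 4 * Ξ ^ 2 := by
      calc (1 : ℝ) ≤ Ξ ^ 6 := one_le_pow₀ (by linarith)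
        _ = _ := by ring
    calc R = R * 1 := by ring
      _ ≤ R * (Ξ ^ 4 * Ξ ^ 2) := mul_le_mul_of_nonneg_left this hR0.le
      _ = _ := by ring
  rw [e_e, e_4e, e_he, e_h2e, e_hme]
  have f_G : ((⌊Ξ ^ 2⌋₊ : ℕ) : ℝ) ≤ Ξ ^ 2 := Nat.floor_le hΞ2.le
  have f_X : ((⌊R * Ξ ^ 2⌋₊ : ℕ) : ℝ) ≤ R * Ξ ^ 2 := Nat.floor_le (by positivity)
  have f_y2 : ((⌊R * Ξ ^ 4⌋₊ : ℕ) : ℝ) ≤ R * Ξ ^ 4 := Nat.floor_le (by positivity)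
  have f_y2' : R * Ξ ^ 4 < (⌊R * Ξ ^ 4⌋₊ : ℕ) + 1 := Nat.lt_floor_add_one _
  have f_y1' : R / Ξ ^ 2 < (⌊R / Ξ ^ 2⌋₊ : ℕ) + 1 := Nat.lt_floor_add_one _
  have f_y3 : ((⌊Ξ ^ 8⌋₊ : ℕ) : ℝ) ≤ Ξ ^ 8 := Nat.floor_le (by positivity)
  have f_y3' : Ξ ^ 8 < (⌊Ξ ^ 8⌋₊ : ℕ) + 1 := Nat.lt_floor_add_one _
  have f_Y : ((⌊Ξ⌋₊ : ℕ) : ℝ) ≤ Ξ := Nat.floor_le hΞ0.le
  have h1Ξ10 : 1 ≤ Ξ ^ 10 := one_le_pow₀ (by linarith)
  have hRΞ4 : 1 ≤ R * Ξ ^ 4 := by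
    have : (1 : ℝ) ≤ Ξ ^ 4 := one_le_pow₀ (by linarith)
    nlinarith
  refine ⟨by linarith, by linarith, by omega, by linarith, ?_, ?_, ?_, ?_, ?_, ?_, ?_, ?_, ?_, ?_⟩
  · have h1 : (x : ℝ) < (((⌊R * Ξ ^ 4⌋₊ : ℕ) : ℝ) + 1) ^ 2 := by
      have h2 : R < ((⌊R * Ξ ^ 4⌋₊ : ℕ) : ℝ) + 1 := by
        have : (1 : ℝ) ≤ Ξ ^ 4 := one_le_pow₀ (by linarith)
        nlinarith
      rw [hxR]
      exact pow_lt_pow_left₀ h2 hR0.le (by norm_num)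
    exact_mod_cast h1
  · apply Nat.le_floor
    calc (J : ℝ) ≤ Ξ := by linarith
      _ = Ξ ^ 1 := by ring
      _ ≤ Ξ ^ 8 := hΞpow _ _ (by norm_num)
  · have h1 : (2 : ℝ) * (⌊Ξ⌋₊ : ℕ) * (⌊Ξ⌋₊ : ℕ) ≤ x := by
      have h2 : ((⌊Ξ⌋₊ : ℕ) : ℝ) * (⌊Ξ⌋₊ : ℕ) ≤ Ξ * Ξ :=
        mul_le_mul f_Y f_Y (Nat.cast_nonneg _) hΞ0.le
      have h3 : 2 * (Ξ * Ξ) ≤ Ξ ^ 3 := by nlinarith
      have h4 : Ξ ^ 3 ≤ Ξ ^ 20 := hΞpow _ _ (by norm_num)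
      have h5 : R ≤ x := by
        rw [hxR]; nlinarith
      linarith
    exact_mod_cast h1
  · apply Nat.floor_mono
    calc Ξ = Ξ ^ 1 := by ring
      _ ≤ Ξ ^ 10 := hΞpow _ _ (by norm_num)
      _ ≤ _ := hRdiv
  · apply Nat.le_floor
    push_cast
    linarith
  · exact Nat.floor_mono hRdivle
  · apply Nat.le_floor
    push_cast
    exact one_le_pow₀ (by linarith)
  · -- logarithms
    have h1 : Real.log ((⌊R * Ξ ^ 4⌋₊ : ℕ) : ℝ) ≤ Real.log (R * Ξ ^ 4) := by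
      apply Real.log_le_log _ f_y2
      have : 1 ≤ ⌊R * Ξ ^ 4⌋₊ := Nat.le_floor (by push_cast; exact hRΞ4)
      exact_mod_cast this
    have h2 : Real.log (R / Ξ ^ 2 / 2) ≤ Real.log ((⌊R / Ξ ^ 2⌋₊ : ℕ) : ℝ) := by
      apply Real.log_le_log (by positivity)
      have : 10 ≤ Ξ ^ 10 := by
        calc (10 : ℝ) ≤ Ξ := hΞ
          _ = Ξ ^ 1 := by ring
          _ ≤ Ξ ^ 10 := hΞpow _ _ (by norm_num)
      linarith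
    rw [Real.log_div (by positivity) (by norm_num), Real.log_div (by positivity) (by positivity),
      Real.log_pow] at h2
    rw [Real.log_mul (by positivity) (by positivity), Real.log_pow] at h1
    have h3 : Real.log Ξ = e / 2 * Real.log x := by
      rw [hΞdef, Real.log_rpow hx0]
    have h4 : Real.log 2 ≤ 1 := by
      have := Real.log_two_lt_d9
      linarith
    push_cast at h1 h2
    rw [h3] at h1 h2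
    linarith
  · have h1 : Real.log ((⌊Ξ ^ 8⌋₊ : ℕ) : ℝ) ≤ Real.log (Ξ ^ 8) := by
      apply Real.log_le_log _ f_y3
      have : 1 ≤ ⌊Ξ ^ 8⌋₊ := Nat.le_floor (by push_cast; exact one_le_pow₀ (by linarith))
      exact_mod_cast this
    rw [Real.log_pow] at h1
    have h3 : Real.log Ξ = e / 2 * Real.log x := by
      rw [hΞdef, Real.log_rpow hx0]
    push_cast at h1
    rw [h3] at h1
    linarith
  · intro u hu huΞ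
    have hu0 : (0 : ℝ) < u := by exact_mod_cast hu
    have hu1 : (1 : ℝ) ≤ u := by exact_mod_cast hu
    have hΞ8 : Ξ ^ 4 ≤ Ξ ^ 8 := hΞpow _ _ (by norm_num)
    have hΞ13 : (10 : ℝ) * Ξ ^ 3 ≤ Ξ ^ 4 := by
      have : 0 < Ξ ^ 3 := by positivity
      nlinarith
    have hGu : ((2 * ⌊Ξ ^ 2⌋₊ * u : ℕ) : ℝ) ≤ 2 * Ξ ^ 3 := by
      push_cast
      have : ((⌊Ξ ^ 2⌋₊ : ℕ) : ℝ) * u ≤ Ξ ^ 2 * Ξ :=
        mul_le_mul f_G huΞ hu0.le hΞ2.le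
      nlinarith
    have hGu0 : (0 : ℝ) ≤ ((2 * ⌊Ξ ^ 2⌋₊ * u : ℕ) : ℝ) := Nat.cast_nonneg _
    refine ⟨?_, ?_, ?_, ?_, ?_, ?_, ?_⟩
    · have h1 : (u : ℝ) * (⌊R * Ξ ^ 4⌋₊ : ℕ) ≤ Ξ * (R * Ξ ^ 4) :=
        mul_le_mul huΞ f_y2 (Nat.cast_nonneg _) hΞ0.le
      have h2 : Ξ * (R * Ξ ^ 4) ≤ (x : ℝ) ^ (1 / 4 : ℝ) * R := by
        calc Ξ * (R * Ξ ^ 4) = Ξ ^ 5 * R := by ring
          _ ≤ (x : ℝ) ^ (1 / 4 : ℝ) * R := by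
              apply mul_le_mul_of_nonneg_right _ hR0.le
              exact (hΞpow 5 10 (by norm_num)).trans hqΞ
      calc (x : ℝ) ^ (1 / 4 : ℝ) * ((u : ℝ) * (⌊R * Ξ ^ 4⌋₊ : ℕ))
          ≤ (x : ℝ) ^ (1 / 4 : ℝ) * ((x : ℝ) ^ (1 / 4 : ℝ) * R) :=
            mul_le_mul_of_nonneg_left (h1.trans h2) hq0.le
        _ = ((x : ℝ) ^ (1 / 4 : ℝ) * (x : ℝ) ^ (1 / 4 : ℝ)) * R := by ring
        _ = x := by rw [e_quarter, hxR]; ring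
    · have h1 : (u : ℝ) * (⌊Ξ ^ 8⌋₊ : ℕ) ≤ Ξ * Ξ ^ 8 :=
        mul_le_mul huΞ f_y3 (Nat.cast_nonneg _) hΞ0.le
      have h2 : Ξ * Ξ ^ 8 ≤ (x : ℝ) ^ (1 / 4 : ℝ) * R := by
        calc Ξ * Ξ ^ 8 = Ξ ^ 9 * 1 := by ring
          _ ≤ (x : ℝ) ^ (1 / 4 : ℝ) * R := by
              apply mul_le_mul _ (by linarith) (by norm_num) hq0.le
              exact (hΞpow 9 10 (by norm_num)).trans hqΞ
      calc (x : ℝ) ^ (1 / 4 : ℝ) * ((u : ℝ) * (⌊Ξ ^ 8⌋₊ : ℕ))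
          ≤ (x : ℝ) ^ (1 / 4 : ℝ) * ((x : ℝ) ^ (1 / 4 : ℝ) * R) :=
            mul_le_mul_of_nonneg_left (h1.trans h2) hq0.le
        _ = ((x : ℝ) ^ (1 / 4 : ℝ) * (x : ℝ) ^ (1 / 4 : ℝ)) * R := by ring
        _ = x := by rw [e_quarter, hxR]; ring
    · apply Nat.le_floor
      push_cast
      have h1 : (u : ℝ) * ((J : ℝ) + (⌊R * Ξ ^ 2⌋₊ : ℕ)) ≤ Ξ * (R + R * Ξ ^ 2) := by
        apply mul_le_mul huΞ _ (by positivity) hΞ0.le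
        linarith
      have h2 : Ξ * (R + R * Ξ ^ 2) ≤ R * Ξ ^ 4 := by
        have e1 : Ξ * (R + R * Ξ ^ 2) = R * (Ξ + Ξ ^ 3) := by ring
        rw [e1]
        apply mul_le_mul_of_nonneg_left _ hR0.le
        have : Ξ ≤ Ξ ^ 3 := by
          calc Ξ = Ξ ^ 1 := by ring
            _ ≤ Ξ ^ 3 := hΞpow _ _ (by norm_num)
        have : 0 < Ξ ^ 3 := by positivity
        linarith
      linarith
    · have h1 : Ca * ((J : ℝ) + ((2 * ⌊Ξ ^ 2⌋₊ * u : ℕ) : ℝ)) ≤ Ξ * (Ξ + 2 * Ξ ^ 3) := by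
        apply mul_le_mul _ _ (by positivity) hΞ0.le
        · linarith
        · linarith
      have h2 : Ca * ((J : ℝ) + ((2 * ⌊Ξ ^ 2⌋₊ * u : ℕ) : ℝ)) * Real.log x ≤
          Ξ * (Ξ + 2 * Ξ ^ 3) * Ξ :=
        mul_le_mul h1 hlogΞ hlogx.le (by positivity)
      have h3 : Ξ * (Ξ + 2 * Ξ ^ 3) * Ξ = Ξ ^ 3 + 2 * Ξ ^ 5 := by ring
      have h4 : Ξ ^ 3 ≤ Ξ ^ 5 := hΞpow _ _ (by norm_num)
      have h5 : 10 * Ξ ^ 5 ≤ Ξ ^ 6 := by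
        have : 0 < Ξ ^ 5 := by positivity
        nlinarith
      have h6 : Ξ ^ 6 ≤ Ξ ^ 8 := hΞpow _ _ (by norm_num)
      have h7 : (1 : ℝ) ≤ Ξ ^ 5 := one_le_pow₀ (by linarith)
      linarith
    · apply Nat.le_floor
      have h1 : ((u * (1 + 2 * ⌊Ξ ^ 2⌋₊ * u) : ℕ) : ℝ) ≤ Ξ * (1 + 2 * Ξ ^ 3) := by
        have e1 : ((u * (1 + 2 * ⌊Ξ ^ 2⌋₊ * u) : ℕ) : ℝ) =
            (u : ℝ) * (1 + ((2 * ⌊Ξ ^ 2⌋₊ * u : ℕ) : ℝ)) := by push_cast; ring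
        rw [e1]
        apply mul_le_mul huΞ _ (by positivity) hΞ0.le
        linarith
      have h2 : Ξ * (1 + 2 * Ξ ^ 3) = Ξ + 2 * Ξ ^ 4 := by ring
      have h3 : Ξ ≤ Ξ ^ 4 := by
        calc Ξ = Ξ ^ 1 := by ring
          _ ≤ Ξ ^ 4 := hΞpow _ _ (by norm_num)
      have h4 : 10 * Ξ ^ 4 ≤ Ξ ^ 5 := by
        have : 0 < Ξ ^ 4 := by positivity
        nlinarith
      have h5 : Ξ ^ 5 ≤ Ξ ^ 8 := hΞpow _ _ (by norm_num)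
      have : 0 < Ξ ^ 4 := by positivity
      linarith
    · have : 0 < Ξ ^ 3 := by positivity
      linarith
    · intro p hp
      have hpr : (x : ℝ) < (p : ℝ) * (2 * u) := by exact_mod_cast hp
      have hp30 := num_p hΞ hR hxR hu0 huΞ hpr
      have hpR := num_pR hΞ hR hxR hu0 huΞ hpr
      have hRΞ10 : R * Ξ ^ 2 * 100 ≤ R * Ξ ^ 10 := by
        have e1 : (100 : ℝ) ≤ Ξ ^ 2 := by nlinarith
        have e2 : Ξ ^ 2 * 100 ≤ Ξ ^ 4 := by nlinarith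
        have e3 : Ξ ^ 4 ≤ Ξ ^ 10 := hΞpow _ _ (by norm_num)
        have e4 : Ξ ^ 2 * 100 ≤ Ξ ^ 10 := by linarith
        calc R * Ξ ^ 2 * 100 = R * (Ξ ^ 2 * 100) := by ring
          _ ≤ R * Ξ ^ 10 := mul_le_mul_of_nonneg_left e4 hR0.le
      have hRΞ2 : R ≤ R * Ξ ^ 2 := by
        have : (1 : ℝ) ≤ Ξ ^ 2 := one_le_pow₀ (by linarith)
        nlinarith
      have hΞ2R : Ξ ^ 2 ≤ R := (hΞpow 2 20 (by norm_num)).trans hR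
      have hΞ3R : Ξ ^ 3 ≤ R := (hΞpow 3 20 (by norm_num)).trans hR
      refine ⟨?_, ?_, ?_, ?_, ?_, ?_⟩
      · have : ((⌊R * Ξ ^ 2⌋₊ : ℕ) : ℝ) < p := by
          have : 0 < R * Ξ ^ 2 := by positivity
          linarith
        exact_mod_cast this
      · have h1 : (x : ℝ) < (p : ℝ) ^ 2 := by
          rw [hxR]
          apply pow_lt_pow_left₀ _ hR0.le (by norm_num)
          have : 0 < R * Ξ ^ 2 := by positivity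
          linarith
        exact_mod_cast h1
      · intro r hr
        have hrr : (p : ℝ) ≤ r + (⌊Ξ ^ 2⌋₊ : ℕ) := by exact_mod_cast hr
        have hrX : R * Ξ ^ 2 < r := by
          have : 0 < R * Ξ ^ 2 := by positivity
          linarith
        refine ⟨?_, ?_, ?_⟩
        · have h1 : (x : ℝ) < (r : ℝ) ^ 2 := by
            rw [hxR]
            apply pow_lt_pow_left₀ _ hR0.le (by norm_num)
            linarith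
          exact_mod_cast h1
        · have : ((⌊R * Ξ ^ 2⌋₊ : ℕ) : ℝ) < r := by linarith
          exact_mod_cast this
        · have : (J : ℝ) ≤ r := by linarith
          exact_mod_cast this
      · have h1 : ((⌊Ξ ^ 2⌋₊ * (u + 1) + J : ℕ) : ℝ) < p := by
          push_cast
          have e1 : ((⌊Ξ ^ 2⌋₊ : ℕ) : ℝ) * ((u : ℝ) + 1) ≤ Ξ ^ 2 * (Ξ + 1) :=
            mul_le_mul f_G (by linarith) (by positivity) hΞ2.le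
          have e2 : Ξ ^ 2 * (Ξ + 1) = Ξ ^ 3 + Ξ ^ 2 := by ring
          have : 0 < R * Ξ ^ 2 := by positivity
          linarith
        exact_mod_cast h1
      · have h1 : (x : ℝ) ^ (1 - 1 / 5000 : ℝ) = x / (x : ℝ) ^ (1 / 5000 : ℝ) := by
          rw [Real.rpow_sub hx0, Real.rpow_one]
        rw [h1, div_lt_iff₀ (by positivity)]
        calc (x : ℝ) < (p : ℝ) * (2 * u) := hpr
          _ ≤ (p : ℝ) * (x : ℝ) ^ (1 / 5000 : ℝ) := by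
              apply mul_le_mul_of_nonneg_left _ (Nat.cast_nonneg _)
              have e1 : 2 * (u : ℝ) ≤ Ξ ^ 2 := by nlinarith
              have e2 : Ξ ^ 2 ≤ Ξ ^ 8 := hΞpow _ _ (by norm_num)
              linarith
      · have h1 : ((u + 2 : ℕ) : ℝ) ≤ p := by
          push_cast
          have : 0 < R * Ξ ^ 2 := by positivity
          linarith
        exact_mod_cast h1

end Pool.Agent.Helper601
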