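import Mathlib
import Pool.Prelude.Def_F_1b46b985
import Pool.Agent.Helper601.Density
import Pool.Agent.Helper601.Numeric
import Pool.Agent.Helper601.JobC
import Pool.Agent.Helper601.JobE
import Pool.Agent.Helper601.JobF

set_option autoImplicit false

namespace Pool.Agent.Helper601

open Finset

/-- `p` has a prime gap of length at least `G` on one side -/
def GapBad (G p : ℕ) : Prop := (∀ r : ℕ, p < r → r ≤ p + G → ¬ r.Prime) ∨
       (∀ r : ℕ, r < p → p ≤ r + G → ¬ r.Prime)

open Classical in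
theorem gap_pairs (U : Finset ℕ) (x G Y : ℕ) (hG : 1 ≤ G) (hU : ∀ u ∈ U, 1 ≤ u ∧ u ≤ Y) :
    ((pairSet U x).filter (fun q => GapBad G q.2)).card ≤ Y * (2 * (x / G + 1)) := by
  have h1 : (pairSet U x).filter (fun q => GapBad G q.2) ⊆
      U.sigma (fun _ => (Finset.Icc 1 x).filter (fun p : ℕ => p.Prime ∧
      ((∀ r : ℕ, p < r → r ≤ p + G → ¬ r.Prime) ∨
       (∀ r : ℕ, r < p → p ≤ r + G → ¬ r.Prime)))) := by
    intro q hq
    rw [Finset.mem_filter] at hq
    obtain ⟨h2, h3⟩ := hq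
    have h4 := mem_pairSet.1 h2
    rw [Finset.mem_sigma]
    refine ⟨h4.1, ?_⟩
    rw [Finset.mem_filter, Finset.mem_Icc]
    exact ⟨⟨h4.2.2.one_lt.le, h4.2.1.2.trans (Nat.div_le_self _ _)⟩, h4.2.2, h3⟩
  refine (Finset.card_le_card h1).trans ?_
  rw [Finset.card_sigma, Finset.sum_const, smul_eq_mul]
  apply Nat.mul_le_mul
  · have : U ⊆ Finset.Icc 1 Y := fun u hu => Finset.mem_Icc.2 (hU u hu)
    have := Finset.card_le_card this
    rwa [Nat.card_Icc, Nat.add_sub_cancel] at this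
  · exact JobI.gap_count x G hG

theorem main_density : N140ae710.PositiveLowerDensitySix := by
  classical
  obtain ⟨C, hC1, M, hM, hmom⟩ := moment_pairs
  set e : ℝ := 1 / (20000 * C) with he_def
  have hC0 : 0 < C := by linarith
  have he : 0 < e := by positivity
  have heC : C * e = 1 / 20000 := by
    rw [he_def]; field_simp
  have he2 : e ≤ 1 / 20000 := by
    rw [he_def]
    apply one_div_le_one_div_of_le (by norm_num)
    linarith
  obtain ⟨κ, hκ, hκU⟩ := goodSet_mass' (e / 2) (by positivity)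
  set c₀ : ℝ := κ / 5 with hc₀
  have hc₀0 : 0 < c₀ := by positivity
  obtain ⟨CV, hCV, hVar⟩ := JobB.variance_lemma
  obtain ⟨CX, hCX, hExc⟩ := JobG.excess_count
  set J : ℕ := ⌈8000 * CV / c₀⌉₊ + 1 with hJdef
  have hJ1 : 1 ≤ J := by omega
  have hJr : 8000 * CV / c₀ ≤ J := by
    rw [hJdef]; push_cast
    have := Nat.le_ceil (8000 * CV / c₀)
    linarith
  have hJ0 : (0 : ℝ) < J := by exact_mod_cast hJ1
  obtain ⟨xV, hV⟩ := hVar e (1 / 20) J he (by linarith) (by norm_num) hJ1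
  obtain ⟨Ca, hCa, habound⟩ := JobI.a_bound theta_half
  obtain ⟨xN, hxN, hnum⟩ := numeric e he he2 J Ca
    (60000 * C * (1 + M) + 400 * J * CX / c₀) hCa
  obtain ⟨xm, hxm, hmo⟩ := hmom (e / 2) (by positivity) (by linarith)
  obtain ⟨xc, hxc, hcard⟩ := pairSet_card_ge (e / 2) (by positivity) (by linarith)
  obtain ⟨xk, hxk, hmass⟩ := hκU (J + 2)
  obtain ⟨mA, hmA, hA⟩ := partA (e / 2) (by positivity)
  obtain ⟨xT, hTop⟩ := JobF.top_block_one JobC.four_moment JobE.rough_count (c₀ / 20)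
    (by positivity)
  obtain ⟨xΞ, hxΞ, hΞ⟩ := exists_const_le (e / 2) (120 / c₀ + 10) (by positivity)
  refine ⟨c₀ / 2, by positivity, xV + xN + xm + xc + xk + 2 * mA + xT + xΞ + 4, ?_⟩
  intro x hx
  obtain ⟨n1, n2, n3, n4, n5, n6, n7, n8, n9, n10, n11, n12, n13, n14⟩ := hnum x (by omega)
  have hx4 : 4 ≤ x := by omega
  have hx4r : (4 : ℝ) ≤ x := by exact_mod_cast hx4
  have hx0 : (0 : ℝ) < x := by linarith
  have hlogx : 0 < Real.log x := Real.log_pos (by linarith)
  have hΞx := hΞ x (by omega)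
  set Y := ⌊(x : ℝ) ^ (e / 2)⌋₊ with hY
  set X := ⌊(x : ℝ) ^ (1 / 2 + e)⌋₊ with hXdef
  set G := ⌊(x : ℝ) ^ e⌋₊ with hG
  set y₁ := ⌊(x : ℝ) ^ (1 / 2 - e)⌋₊ with hy₁
  set y₂ := ⌊(x : ℝ) ^ (1 / 2 + 2 * e)⌋₊ with hy₂
  set y₃ := ⌊(x : ℝ) ^ (4 * e)⌋₊ with hy₃
  set U := goodSet Y (J + 2) with hU
  have hUmem : ∀ u ∈ U, (1 ≤ u ∧ u ≤ Y) ∧ GoodU u ∧ J + 2 < u := fun u hu => mem_goodSet.1 hu
  have hYr : (Y : ℝ) ≤ (x : ℝ) ^ (e / 2) := Nat.floor_le (by positivity)
  have hUY : ∀ u ∈ U, 1 ≤ u ∧ u ≤ Y := fun u hu => (hUmem u hu).1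
  have hUr : ∀ u ∈ U, 1 ≤ u ∧ (u : ℝ) ≤ (x : ℝ) ^ (e / 2) := by
    intro u hu
    refine ⟨(hUY u hu).1, le_trans ?_ hYr⟩
    exact_mod_cast (hUY u hu).2
  set S := pairSet U x with hS
  have hinj := pairSet_injOn U x Y hUY n7
  -- size of S
  have hScard : c₀ * x ≤ (S.card : ℝ) := by
    refine le_trans ?_ (hcard x U (by omega) hUr)
    have h1 := hmass x (by omega)
    have h2 : κ * Real.log x * ((x : ℝ) / (5 * Real.log x)) = c₀ * x := by
      rw [hc₀]; field_simp
    rw [← h2]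
    exact mul_le_mul_of_nonneg_right h1 (by positivity)
  have hS0 : (0 : ℝ) ≤ S.card := Nat.cast_nonneg _
  -- logs
  have hlogM1 : 60 * C * (1 + M) ≤ Real.log x / 1000 := by
    have : 0 ≤ 400 * J * CX / c₀ := by positivity
    linarith
  have hlogM2 : 400 * J * CX / c₀ ≤ Real.log x := by
    have : 0 ≤ 60000 * C * (1 + M) := by positivity
    linarith
  -- B1 variance
  set BadV := (Finset.Icc 1 x).filter (fun m : ℕ => (1 / 2 + 1 / 20) * (J : ℝ) * Real.log x ≤
        ∑ j ∈ Finset.Icc 1 J, ∑ Q ∈ (Finset.Icc 1 x).filter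
          (fun Q : ℕ => Q.Prime ∧ (Q : ℝ) ≤ (x : ℝ) ^ (1 / 2 - e) ∧ Q ∣ m + j),
          Real.log (Q : ℝ)) with hBadV
  set B1 := S.filter (fun q => q.2 * q.1 ∈ BadV.image (fun n => n + (J + 1))) with hB1
  have hB1card : (B1.card : ℝ) ≤ c₀ * x / 20 := by
    have h1 : B1.card ≤ (BadV.image (fun n => n + (J + 1))).card :=
      card_filter_mem_le U _ x Y hUY n7
    have h2 := h1.trans Finset.card_image_le
    have h3 : (B1.card : ℝ) ≤ BadV.card := by exact_mod_cast h2
    refine h3.trans ((hV x (by omega)).trans ?_)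
    have h4 : 8000 * CV ≤ J * c₀ := by
      rwa [div_le_iff₀ hc₀0] at hJr
    rw [div_le_div_iff₀ (by positivity) (by norm_num)]
    have h5 : 8000 * CV * x ≤ J * c₀ * x := mul_le_mul_of_nonneg_right h4 hx0.le
    have h6 : CV * (x : ℝ) * 20 = 8000 * CV * x / 400 := by ring
    have h7 : c₀ * (x : ℝ) * ((1 / 20) ^ 2 * (J : ℝ)) = J * c₀ * x / 400 := by ring
    rw [h6, h7]
    linarith
  -- B2 first moment, middle primes
  set F2 : (Σ _ : ℕ, ℕ) → ℝ := fun q => ∑ j ∈ Finset.Icc 1 J, ∑ Q ∈ PI y₁ y₂,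
      (if q.2 * q.1 ≡ j [MOD Q] then Real.log (Q : ℝ) else 0) with hF2
  have hite : ∀ (m j Q : ℕ), (0 : ℝ) ≤ (if m ≡ j [MOD Q] then Real.log (Q : ℝ) else 0) := by
    intro m j Q
    split_ifs
    · exact Real.log_natCast_nonneg Q
    · exact le_rfl
  set B2 := S.filter (fun q => (J : ℝ) * Real.log x / 10 ≤ F2 q) with hB2
  have hB2card : (B2.card : ℝ) ≤ S.card / 10 := by
    apply markov_card S F2 _ _ _ (by positivity)
    · rw [hF2]
      rw [Finset.sum_comm]
      have h1 : ∀ j ∈ Finset.Icc 1 J, ∑ q ∈ S, ∑ Q ∈ PI y₁ y₂,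
          (if q.2 * q.1 ≡ j [MOD Q] then Real.log (Q : ℝ) else 0) ≤
          (S.card : ℝ) * (Real.log x / 100) := by
        intro j _
        have h2 := hmo x U (by omega) hUr j y₁ y₂ n9 n10
          (fun u hu => (n14 u (hUY u hu).1 (hUr u hu).2).1) (by
            intro u hu Q _ hQ1 hQ2 _
            have h3 := Nat.le_of_dvd (hUY u hu).1 hQ2
            have h4 := (hUY u hu).2
            omega)
        refine h2.trans ?_
        have h3 : 60 * C * (Real.log y₂ - Real.log y₁ + M) ≤ Real.log x / 100 := by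
          have h4 : 60 * C * (Real.log y₂ - Real.log y₁ + M) ≤
              60 * C * (3 * e * Real.log x + 1 + M) := by
            apply mul_le_mul_of_nonneg_left _ (by linarith)
            linarith
          have h5 : 60 * C * (3 * e * Real.log x + 1 + M) =
              180 * (C * e) * Real.log x + 60 * C * (1 + M) := by ring
          rw [h5, heC] at h4
          linarith
        calc 60 * C * (S.card : ℝ) * (Real.log y₂ - Real.log y₁ + M)
            = (S.card : ℝ) * (60 * C * (Real.log y₂ - Real.log y₁ + M)) := by ring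
          _ ≤ _ := mul_le_mul_of_nonneg_left h3 hS0
      refine (Finset.sum_le_sum h1).trans ?_
      rw [Finset.sum_const, Nat.card_Icc, Nat.add_sub_cancel, nsmul_eq_mul]
      apply le_of_eq
      ring
    · intro q _
      apply Finset.sum_nonneg
      intro j _
      exact Finset.sum_nonneg fun Q _ => hite _ _ _
  -- B3 excess
  set BadX := (Finset.Icc 1 x).filter (fun n : ℕ =>
      1 / 20 * Real.log x ≤ Real.log n - ∑ q ∈ n.primeFactors, Real.log (q : ℝ)) with hBadX
  set B3 := S.filter (fun q => q.2 * q.1 ∈ (Finset.Icc 1 J).biUnion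
    (fun j => BadX.image (fun n => n + j))) with hB3
  have hB3card : (B3.card : ℝ) ≤ c₀ * x / 20 := by
    have h1 : B3.card ≤ ((Finset.Icc 1 J).biUnion
        (fun j => BadX.image (fun n => n + j))).card := card_filter_mem_le U _ x Y hUY n7
    have h2 : ((Finset.Icc 1 J).biUnion (fun j => BadX.image (fun n => n + j))).card ≤
        ∑ _j ∈ Finset.Icc 1 J, BadX.card :=
      Finset.card_biUnion_le.trans (Finset.sum_le_sum fun j _ => Finset.card_image_le)
    rw [Finset.sum_const, Nat.card_Icc, Nat.add_sub_cancel, smul_eq_mul] at h2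
    have h3 : (B3.card : ℝ) ≤ J * BadX.card := by exact_mod_cast h1.trans h2
    have h4 : (BadX.card : ℝ) ≤ CX * x / (1 / 20 * Real.log x) :=
      hExc x (1 / 20) (by omega) (by norm_num)
    have h5 : (B3.card : ℝ) ≤ J * (CX * x / (1 / 20 * Real.log x)) :=
      h3.trans (mul_le_mul_of_nonneg_left h4 hJ0.le)
    refine h5.trans ?_
    rw [div_le_iff₀ hc₀0] at hlogM2
    have h6 : (J : ℝ) * (CX * x / (1 / 20 * Real.log x)) = 20 * J * CX * x / Real.log x := by
      field_simp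
    rw [h6, div_le_iff₀ hlogx]
    have h7 := mul_le_mul_of_nonneg_right hlogM2 hx0.le
    have h8 : 20 * (J : ℝ) * CX * x = 400 * J * CX * x / 20 := by ring
    have h9 : c₀ * (x : ℝ) / 20 * Real.log x = Real.log x * c₀ * x / 20 := by ring
    rw [h8, h9]
    linarith
  -- B4 gaps
  set B4 := S.filter (fun q => GapBad G q.2) with hB4
  have hX2 : (x : ℝ) ^ e = (x : ℝ) ^ (e / 2) * (x : ℝ) ^ (e / 2) := by
    rw [← Real.rpow_add hx0]; congr 1; ring
  have hΞ0 : 0 < (x : ℝ) ^ (e / 2) := by positivity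
  have h120 : 0 < 120 / c₀ := by positivity
  have hGlo : (x : ℝ) ^ e < (G : ℝ) + 1 := Nat.lt_floor_add_one _
  have hGhalf : (x : ℝ) ^ (e / 2) * (x : ℝ) ^ (e / 2) / 2 ≤ G := by
    have : (2 : ℝ) ≤ (x : ℝ) ^ (e / 2) * (x : ℝ) ^ (e / 2) := by nlinarith
    rw [hX2] at hGlo
    linarith
  have hG1 : 1 ≤ G := by
    have h1 : (1 : ℝ) ≤ G := by
      refine le_trans ?_ hGhalf
      nlinarith
    exact_mod_cast h1
  have hG0 : (0 : ℝ) < G := by exact_mod_cast hG1
  have hB4card : (B4.card : ℝ) ≤ c₀ * x / 20 := by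
    have h1 : B4.card ≤ Y * (2 * (x / G + 1)) := gap_pairs U x G Y hG1 hUY
    have h2 : (B4.card : ℝ) ≤ Y * (2 * (((x / G : ℕ) : ℝ) + 1)) := by exact_mod_cast h1
    have h3 : ((x / G : ℕ) : ℝ) ≤ (x : ℝ) / G := Nat.cast_div_le
    have h4 : (x : ℝ) / G ≤ 2 * x / ((x : ℝ) ^ (e / 2) * (x : ℝ) ^ (e / 2)) := by
      rw [div_le_div_iff₀ hG0 (by positivity)]
      have := mul_le_mul_of_nonneg_left hGhalf (show (0 : ℝ) ≤ 2 * x by positivity)
      linarith
    set Ξ := (x : ℝ) ^ (e / 2) with hΞdef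
    have h5 : (Y : ℝ) * (2 * (((x / G : ℕ) : ℝ) + 1)) ≤ Ξ * (2 * (2 * x / (Ξ * Ξ) + 1)) := by
      apply mul_le_mul hYr _ (by positivity) hΞ0.le
      linarith
    have h6 : Ξ * (2 * (2 * x / (Ξ * Ξ) + 1)) = 4 * x / Ξ + 2 * Ξ := by
      field_simp
      ring
    have h7 : Ξ ≤ x / Ξ := by
      rw [le_div_iff₀ hΞ0, hΞdef, ← Real.rpow_add hx0]
      calc (x : ℝ) ^ (e / 2 + e / 2) ≤ (x : ℝ) ^ (1 : ℝ) :=
            Real.rpow_le_rpow_of_exponent_le (by linarith) (by linarith)
        _ = x := Real.rpow_one _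
    have h8 : 4 * (x : ℝ) / Ξ + 2 * Ξ ≤ 6 * (x / Ξ) := by
      have : 4 * (x : ℝ) / Ξ = 4 * (x / Ξ) := by ring
      linarith
    have h9 : 6 * ((x : ℝ) / Ξ) ≤ c₀ * x / 20 := by
      have h10 : 120 / c₀ ≤ Ξ := by linarith
      rw [div_le_iff₀ hc₀0] at h10
      have h11 : 6 * ((x : ℝ) / Ξ) = 6 * x / Ξ := by ring
      rw [h11, div_le_iff₀ hΞ0]
      have := mul_le_mul_of_nonneg_right h10 hx0.le
      linarith
    linarith
  -- B5 small prime factors of m - 1
  set F5 : (Σ _ : ℕ, ℕ) → ℝ := fun q => ∑ Q ∈ PI 1 y₃,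
      (if q.2 * q.1 ≡ 1 [MOD Q] then Real.log (Q : ℝ) else 0) with hF5
  set B5 := S.filter (fun q => Real.log x / 10 ≤ F5 q) with hB5
  have hB5card : (B5.card : ℝ) ≤ S.card / 5 := by
    apply markov_card S F5 _ _ _ (by positivity)
    · have h2 := hmo x U (by omega) hUr 1 1 y₃ le_rfl n11
        (fun u hu => (n14 u (hUY u hu).1 (hUr u hu).2).2.1) (by
          intro u _ Q hQ _ _ hQ2
          exact hQ.one_lt.ne' (Nat.dvd_one.1 hQ2))
      refine h2.trans ?_
      have h3 : 60 * C * (Real.log y₃ - Real.log ((1 : ℕ) : ℝ) + M) ≤ Real.log x / 50 := by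
        have h4 : 60 * C * (Real.log y₃ - Real.log ((1 : ℕ) : ℝ) + M) ≤
            60 * C * (4 * e * Real.log x + M) := by
          apply mul_le_mul_of_nonneg_left _ (by linarith)
          rw [Nat.cast_one, Real.log_one]
          linarith
        have h5 : 60 * C * (4 * e * Real.log x + M) =
            240 * (C * e) * Real.log x + 60 * C * M := by ring
        have h6 : 60 * C * M ≤ 60 * C * (1 + M) := by
          apply mul_le_mul_of_nonneg_left (by linarith) (by linarith)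
        rw [h5, heC] at h4
        linarith
      calc 60 * C * (S.card : ℝ) * (Real.log y₃ - Real.log ((1 : ℕ) : ℝ) + M)
          = (S.card : ℝ) * (60 * C * (Real.log y₃ - Real.log ((1 : ℕ) : ℝ) + M)) := by ring
        _ ≤ (S.card : ℝ) * (Real.log x / 50) := mul_le_mul_of_nonneg_left h3 hS0
        _ = _ := by ring
    · intro q _
      exact Finset.sum_nonneg fun Q _ => hite _ _ _
  -- B6 top block lemma
  set B6 := S.filter (fun q => q.2 * q.1 ∈ (Finset.Icc 1 x).filter (fun m => TopBad x m)) with hB6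
  have hB6card : (B6.card : ℝ) ≤ c₀ * x / 20 := by
    have h1 : B6.card ≤ ((Finset.Icc 1 x).filter (fun m => TopBad x m)).card :=
      card_filter_mem_le U _ x Y hUY n7
    have h2 : (((Finset.Icc 1 x).filter (fun m => TopBad x m)).card : ℝ) ≤ c₀ / 20 * x :=
      hTop x (by omega)
    have h3 : (B6.card : ℝ) ≤ ((Finset.Icc 1 x).filter (fun m => TopBad x m)).card := by
      exact_mod_cast h1
    linarith
  -- good pairs
  set Bad := B1 ∪ (B2 ∪ (B3 ∪ (B4 ∪ (B5 ∪ B6)))) with hBad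
  have hBadcard : (Bad.card : ℝ) ≤ S.card / 2 := by
    have h1 : Bad.card ≤ B1.card + (B2.card + (B3.card + (B4.card + (B5.card + B6.card)))) := by
      rw [hBad]
      have g1 := Finset.card_union_le B1 (B2 ∪ (B3 ∪ (B4 ∪ (B5 ∪ B6))))
      have g2 := Finset.card_union_le B2 (B3 ∪ (B4 ∪ (B5 ∪ B6)))
      have g3 := Finset.card_union_le B3 (B4 ∪ (B5 ∪ B6))
      have g4 := Finset.card_union_le B4 (B5 ∪ B6)
      have g5 := Finset.card_union_le B5 B6
      omega
    have h2 : (Bad.card : ℝ) ≤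
        B1.card + (B2.card + (B3.card + (B4.card + (B5.card + B6.card)))) := by
      exact_mod_cast h1
    linarith
  have hGood : (S.card : ℝ) / 2 ≤ ((S \ Bad).card : ℝ) := by
    have h1 := Finset.le_card_sdiff Bad S
    have h2 : S.card ≤ (S \ Bad).card + Bad.card := by omega
    have h3 : (S.card : ℝ) ≤ (S \ Bad).card + Bad.card := by exact_mod_cast h2
    linarith
  -- injection
  have hfin : (S \ Bad).card ≤ N140ae710.countD 6 x := by
    unfold N140ae710.countD
    apply Finset.card_le_card_of_injOn (fun q : Σ _ : ℕ, ℕ => q.2 * q.1)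
    · intro q hq
      have hq1 : q ∈ S \ Bad := hq
      rw [Finset.mem_sdiff] at hq1
      obtain ⟨hqS, hqB⟩ := hq1
      rw [hBad, Finset.mem_union, Finset.mem_union, Finset.mem_union, Finset.mem_union,
        Finset.mem_union, not_or, not_or, not_or, not_or, not_or] at hqB
      obtain ⟨b1, b2, b3, b4, b5, b6⟩ := hqB
      obtain ⟨u, p⟩ := q
      have hmem := mem_pairSet.1 hqS
      have hbd := pairSet_bounds (fun u hu => (hUY u hu).1) hqS
      simp only at hmem hbd
      obtain ⟨huU, ⟨hp1, hp2⟩, hp⟩ := hmem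
      obtain ⟨hbd1, hbd2⟩ := hbd
      obtain ⟨⟨hu1, huY⟩, hgood, huJ⟩ := hUmem u huU
      obtain ⟨k1, k2, k3, k4, k5, k6, k7⟩ := n14 u hu1 (hUr u huU).2
      obtain ⟨l1, l2, l3, l4, l5, l6⟩ := k7 p hbd2
      set m := p * u with hm
      have hxm : x < 2 * m := by
        calc x < p * (2 * u) := hbd2
          _ = 2 * m := by rw [hm]; ring
      have hm1 : 1 ≤ m := by omega
      have hmm : ((fun q : Σ _ : ℕ, ℕ => q.2 * q.1) ⟨u, p⟩) = m := rfl
      rw [hmm, Finset.mem_coe, Finset.mem_filter, Finset.mem_Icc]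
      refine ⟨⟨hm1, hbd1⟩, by norm_num, JobK.hasRepresentation_six p u (by omega) l6, ?_⟩
      intro j hj2 hj6 hrep
      obtain ⟨b, y, y', a, r1, r2, r3, r4, r5⟩ := JobK.rep_of_hasRepresentation m j hj2 hj6 hrep
      have hR : Rep m b y y' a := ⟨r1, r2, r3, r4, r5⟩
      obtain ⟨a1, a2, a3⟩ := hA m (by omega) b y y' a hR
      have hmx : (m : ℝ) ≤ x := by exact_mod_cast hbd1
      have hm0 : (0 : ℝ) ≤ m := Nat.cast_nonneg _
      have hm1r : (1 : ℝ) ≤ m := by exact_mod_cast hm1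
      have p1 : (m : ℝ) ^ (1 / 2 + e / 2) ≤ (x : ℝ) ^ (1 / 2 + e) := by
        calc (m : ℝ) ^ (1 / 2 + e / 2) ≤ (m : ℝ) ^ (1 / 2 + e) :=
              Real.rpow_le_rpow_of_exponent_le hm1r (by linarith)
          _ ≤ _ := Real.rpow_le_rpow hm0 hmx (by linarith)
      have p2 : (m : ℝ) ^ (1 / 2 + 2 * (e / 2)) ≤ (x : ℝ) ^ (1 / 2 + e) := by
        rw [show 1 / 2 + 2 * (e / 2) = 1 / 2 + e by ring]
        exact Real.rpow_le_rpow hm0 hmx (by linarith)
      -- many j
      have hmany : ∃ T : Finset ℕ, (∀ j ∈ T, 1 ≤ j ∧ j ≤ J ∧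
          ∃ Q : ℕ, Q.Prime ∧ y₂ < Q ∧ Q ∣ m - j) ∧ J < 6 * T.card := by
        apply many_large hJ1 hbd1 hxm (by omega) n2 (Nat.floor_le (by positivity))
        · by_contra hc
          push Not at hc
          apply b1
          rw [hB1, Finset.mem_filter]
          refine ⟨hqS, ?_⟩
          rw [Finset.mem_image]
          refine ⟨m - J - 1, ?_, ?_⟩
          · rw [hBadV, Finset.mem_filter, Finset.mem_Icc]
            exact ⟨⟨by omega, by omega⟩, hc⟩
          · show m - J - 1 + (J + 1) = m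
            omega
        · by_contra hc
          push Not at hc
          apply b2
          rw [hB2, Finset.mem_filter]
          exact ⟨hqS, hc⟩
        · intro i hi
          by_contra hc
          push Not at hc
          apply b3
          rw [hB3, Finset.mem_filter]
          refine ⟨hqS, ?_⟩
          rw [Finset.mem_biUnion]
          refine ⟨i, hi, ?_⟩
          rw [Finset.mem_Icc] at hi
          rw [Finset.mem_image]
          refine ⟨m - i, ?_, ?_⟩
          · rw [hBadX, Finset.mem_filter, Finset.mem_Icc]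
            exact ⟨⟨by omega, by omega⟩, hc⟩
          · show m - i + i = m
            omega
      obtain ⟨T, hT, hTJ⟩ := hmany
      -- gaps
      have hgap : ¬ GapBad G p := by
        intro hc
        apply b4
        rw [hB4, Finset.mem_filter]
        exact ⟨hqS, hc⟩
      unfold GapBad at hgap
      rw [not_or] at hgap
      obtain ⟨hgap1, hgap2⟩ := hgap
      push Not at hgap1 hgap2
      obtain ⟨r₁, hr₁1, hr₁2, hr₁⟩ := hgap1
      obtain ⟨r₂, hr₂1, hr₂2, hr₂⟩ := hgap2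
      obtain ⟨s1, s2, s3⟩ := l3 r₂ hr₂2
      -- simple prime of m - 1
      have hsimple : ∃ q : ℕ, q.Prime ∧ y₃ < q ∧ q ∣ m - 1 ∧ ¬ q ^ 2 ∣ m - 1 := by
        apply exists_simple hbd1 hxm hx4 n2
        · by_contra hc
          push Not at hc
          apply b5
          rw [hB5, Finset.mem_filter]
          exact ⟨hqS, hc⟩
        · by_contra hc
          push Not at hc
          apply b3
          rw [hB3, Finset.mem_filter]
          refine ⟨hqS, ?_⟩
          rw [Finset.mem_biUnion]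
          refine ⟨1, Finset.mem_Icc.2 ⟨le_rfl, hJ1⟩, ?_⟩
          rw [Finset.mem_image]
          refine ⟨m - 1, ?_, ?_⟩
          · rw [hBadX, Finset.mem_filter, Finset.mem_Icc]
            exact ⟨⟨by omega, by omega⟩, hc⟩
          · show m - 1 + 1 = m
            omega
      obtain ⟨q, hq1, hq2, hq3, hq4⟩ := hsimple
      have htop : ¬ TopBad x m := by
        intro hc
        apply b6
        rw [hB6, Finset.mem_filter]
        refine ⟨hqS, ?_⟩
        rw [Finset.mem_filter, Finset.mem_Icc]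
        exact ⟨⟨hm1, hbd1⟩, hc⟩
      exact no_rep hR hp hm hgood hbd1 (Nat.le_floor (a3.le.trans p2))
        (Nat.le_floor (a1.le.trans p1)) (Nat.le_floor (a2.le.trans p1)) l1 (by omega) T hT hTJ k3 n5
        hr₁ hr₁1 hr₁2 hr₂ hr₂1 hr₂2 (by omega) s2 s3 (by omega) hJ1 l4 hCa
        (habound x m b y y' a (by omega) hbd1 r1 r2 r3 r4 r5) n1 k4 n6 k5 hq1 hq2 hq3 hq4 l5 k6 htop
    · exact hinj.mono (by
        intro q hq
        exact (Finset.mem_sdiff.1 hq).1)
  have hfinr : ((S \ Bad).card : ℝ) ≤ (N140ae710.countD 6 x : ℝ) := by exact_mod_cast hfin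
  linarith

end Pool.Agent.Helper601
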