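import Mathlib

/-!
Definitions for the proof that Schinzel's condition `H_k` holds for finitely many `k` that are not
prime powers.
-/

set_option autoImplicit false

namespace Pool.Agent.Helper601.HK

/-- Every prime factor of `t` lies in `S`. -/
def Sm (S : Finset ℕ) (t : ℕ) : Prop := ∀ l : ℕ, l.Prime → l ∣ t → l ∈ S

/-- The height of `t` in `[0, k]`. -/
def ht (k t : ℕ) : ℕ := min t (k - t)

open Classical in
/-- Number of `t` with `1 < t < k`, of height at most `u`, all whose prime factors lie in `S`. -/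
noncomputable def Bn (k : ℕ) (S : Finset ℕ) (u : ℕ) : ℕ :=
  ((Finset.Ioo 1 k).filter (fun t => ht k t ≤ u ∧ Sm S t)).card

/-- The growth function. -/
noncomputable def Zf (κ : ℝ) (k u : ℕ) : ℝ :=
  if u ^ 2 ≤ k then κ * u * Real.log u else κ * u * Real.log ((k : ℝ) / u)

open Classical in
/-- The primes that are available at height `u`. -/
noncomputable def Av (κ : ℝ) (k u : ℕ) : Finset ℕ :=
  (Finset.range (k + 1)).filter (fun q => q.Prime ∧ q ≠ 2 ∧ u < q ∧ Zf κ k u < q ∧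
    ∃ s : ℕ, 1 ≤ s ∧ s < u ∧ q ∣ k - s ∧ 2 ∣ k - s)

open Classical in
/-- The invariant of the greedy construction: `T` is the set of primes used for the elements of
height at most `U`, and `τ q` is the element killed by `q`. -/
structure Inv (κ : ℝ) (k : ℕ) (A : Finset ℕ) (X U : ℕ) (T : Finset ℕ) (τ : ℕ → ℕ) : Prop where
  prime : ∀ q ∈ T, q.Prime
  odd : ∀ q ∈ T, q ≠ 2
  wit : ∀ q ∈ T, ∃ s : ℕ, 1 ≤ s ∧ s < ht k (τ q) ∧ q ∣ k - s ∧ 2 ∣ k - s
  lt : ∀ q ∈ T, ht k (τ q) < q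
  inj : ∀ q ∈ T, ∀ q' ∈ T, τ q = τ q' → q = q'
  mem : ∀ q ∈ T, 1 < τ q ∧ τ q < k ∧ ht k (τ q) ≤ U ∧ Sm (A ∪ T) (τ q)
  big : ∀ q ∈ T, (ht k (τ q) ≤ X ∧ X < q) ∨ (X < ht k (τ q) ∧ Zf κ k (ht k (τ q)) < q)
  init : (T.filter (fun q => ht k (τ q) ≤ X)).card ≤ Nat.log 2 X + 2
  complete : ∀ t : ℕ, 1 < t → t < k → ht k t ≤ U → Sm (A ∪ T) t → ∃ q ∈ T, τ q = t

/-- The left end of the range of the static primes. -/
noncomputable def zz (k : ℕ) : ℕ := ⌊(Real.log k) ^ 2⌋₊

/-- The primes between `zz k` and its `W`-th power. -/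
noncomputable def Rng (W k : ℕ) : Finset ℕ :=
  (Finset.Ioc (zz k) ((zz k) ^ W)).filter Nat.Prime

open Classical in
/-- The static primes: those of the range dividing none of `k + 1, k, k - 1, ..., k - X`. -/
noncomputable def Rs (W X k : ℕ) : Finset ℕ :=
  (Rng W k).filter (fun r => ∀ j : ℕ, j ≤ X + 1 → ¬ r ∣ k + 1 - j)

end Pool.Agent.Helper601.HK
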