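import Mathlib
import Pool.Agent.Helper601.Selberg
import Pool.Agent.Helper601.BT
import Pool.Agent.Helper601.HKDefs

set_option autoImplicit false

open Finset Nat ArithmeticFunction BoundingSieve

namespace Pool.Agent.Helper601.HK

open Pool.Agent.Helper601

/-- count of multiples in an interval -/
theorem count_dvd_Ioc {a u d : ℕ} (hd : 0 < d) :
    |((((Finset.Ioc a (a + u)).filter (fun n => d ∣ n)).card : ℕ) : ℝ) - (u : ℝ) / d| ≤ 1 := by
  have h := count_dvd_AP (a := a + 1) (q := 1) (d := d) (N := u) hd (Nat.coprime_one_right d)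
  have e : ((Finset.Ioc a (a + u)).filter (fun n => d ∣ n)).card =
      ((Finset.range u).filter (fun k => d ∣ a + 1 + k * 1)).card := by
    symm
    apply Finset.card_bij (fun k _ => a + 1 + k)
    · intro k hk
      rw [Finset.mem_filter, Finset.mem_range] at hk
      rw [Finset.mem_filter, Finset.mem_Ioc]
      refine ⟨⟨by omega, by omega⟩, ?_⟩
      simpa using hk.2
    · intro x _ y _ hxy
      omega
    · intro n hn
      rw [Finset.mem_filter, Finset.mem_Ioc] at hn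
      refine ⟨n - (a + 1), ?_, by omega⟩
      rw [Finset.mem_filter, Finset.mem_range]
      refine ⟨by omega, ?_⟩
      have : a + 1 + (n - (a + 1)) * 1 = n := by omega
      rw [this]; exact hn.2
  rw [e]; exact h

/-- The sieve for an interval by the primes up to `R` not dividing `q`. -/
noncomputable def ivSieve (a u q R : ℕ) : BoundingSieve where
  support := Finset.Ioc a (a + u)
  prodPrimes := PP q R
  prodPrimes_squarefree := PP_squarefree q R
  weights := fun _ => 1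
  weights_nonneg := fun _ => zero_le_one
  totalMass := u
  nu := invAF
  nu_mult := invAF_mult
  nu_pos_of_prime := by
    intro p hp _
    rw [invAF_apply]
    have : (0 : ℝ) < p := by exact_mod_cast hp.pos
    positivity
  nu_lt_one_of_prime := by
    intro p hp _
    rw [invAF_apply]
    have : (1 : ℝ) < p := by exact_mod_cast hp.one_lt
    exact inv_lt_one_of_one_lt₀ this

theorem ivSieve_rem {a u q R d : ℕ} (hd : d ∣ PP q R) :
    |(ivSieve a u q R).rem d| ≤ 1 := by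
  have hd0 : 0 < d := Nat.pos_of_ne_zero (ne_zero_of_dvd_ne_zero (PP_squarefree q R).ne_zero hd)
  have h := count_dvd_Ioc (a := a) (u := u) hd0
  simp only [BoundingSieve.rem, BoundingSieve.multSum, ivSieve]
  rw [← Finset.sum_filter, Finset.sum_const, nsmul_eq_mul, mul_one, invAF_apply]
  convert h using 2
  ring

theorem ivSelS_ge (a u q R : ℕ) :
    (∑ l ∈ (Finset.Icc 1 R).filter (fun l => Squarefree l ∧ Nat.Coprime l q), (l : ℝ)⁻¹) ≤
      selS (ivSieve a u q R) R := by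
  unfold selS
  have h1 : ∀ l ∈ (Finset.Icc 1 R).filter (fun l => Squarefree l ∧ Nat.Coprime l q),
      (l : ℝ)⁻¹ ≤ (ivSieve a u q R).selbergTerms l := by
    intro l hl
    rw [Finset.mem_filter, Finset.mem_Icc] at hl
    rw [selbergTerms_apply]
    change (l : ℝ)⁻¹ ≤ (l : ℝ)⁻¹ * _
    have hl0 : (0 : ℝ) < l := by exact_mod_cast hl.1.1
    have : (1 : ℝ) ≤ ∏ p ∈ l.primeFactors, (1 - (ivSieve a u q R).nu p)⁻¹ := by
      have h0 : (∏ _p ∈ l.primeFactors, (1 : ℝ)) ≤
          ∏ p ∈ l.primeFactors, (1 - (ivSieve a u q R).nu p)⁻¹ := by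
        apply Finset.prod_le_prod (fun _ _ => zero_le_one)
        intro p hp
        have hpp := (Nat.mem_primeFactors.mp hp).1
        have hp1 : (1 : ℝ) < p := by exact_mod_cast hpp.one_lt
        change (1 : ℝ) ≤ (1 - (p : ℝ)⁻¹)⁻¹
        rw [one_le_inv₀]
        · have : 0 < (p : ℝ)⁻¹ := by positivity
          linarith
        · have : (p : ℝ)⁻¹ < 1 := inv_lt_one_of_one_lt₀ hp1
          linarith
      rwa [Finset.prod_const_one] at h0
    exact le_mul_of_one_le_right (by positivity) this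
  refine (Finset.sum_le_sum h1).trans ?_
  apply Finset.sum_le_sum_of_subset_of_nonneg
  · intro l hl
    rw [Finset.mem_filter, Finset.mem_Icc] at hl
    rw [Finset.mem_filter, Nat.mem_divisors]
    exact ⟨⟨dvd_PP_of_squarefree hl.2.1 hl.1.2 hl.2.2, (PP_squarefree q R).ne_zero⟩,
      by exact_mod_cast hl.1.2⟩
  · intro l hl _
    rw [Finset.mem_filter, Nat.mem_divisors] at hl
    exact (selbergTerms_pos (s := ivSieve a u q R) hl.1.1).le

open Classical in
/-- sum over smooth numbers, inverse form -/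
theorem sum_factored (S : Finset ℕ) (N : ℕ) :
    (∑ d ∈ (Finset.Icc 1 N).filter (fun d => ∀ l : ℕ, l.Prime → l ∣ d → l ∈ S), (d : ℝ)⁻¹) ≤
      Real.exp (∑ q ∈ S.filter Nat.Prime, 2 / (q : ℝ)) := by
  let f : ℕ →* ℝ :=
    { toFun := fun n => (n : ℝ)⁻¹
      map_one' := by simp
      map_mul' := by intro x y; push_cast; rw [mul_inv] }
  have hf : ∀ {p : ℕ}, p.Prime → ‖f p‖ < 1 := by
    intro p hp
    change ‖(p : ℝ)⁻¹‖ < 1
    rw [norm_inv, RCLike.norm_natCast]
    exact inv_lt_one_of_one_lt₀ (by exact_mod_cast hp.one_lt)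
  have h := EulerProduct.summable_and_hasSum_factoredNumbers_prod_filter_prime_geometric
    (f := f) (fun {p} hp => hf hp) S
  have hsum := h.2
  have h1 : (∑ d ∈ (Finset.Icc 1 N).filter (fun d => ∀ l : ℕ, l.Prime → l ∣ d → l ∈ S),
      (d : ℝ)⁻¹) ≤ ∏ p ∈ S.filter Nat.Prime, (1 - f p)⁻¹ := by
    set G := (Finset.Icc 1 N).filter (fun d => ∀ l : ℕ, l.Prime → l ∣ d → l ∈ S) with hG
    have hmem : ∀ d ∈ G, d ∈ Nat.factoredNumbers S := by
      intro d hd
      rw [hG, Finset.mem_filter, Finset.mem_Icc] at hd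
      rw [Nat.mem_factoredNumbers']
      exact fun p hp hpd => hd.2 p hp hpd
    let e : {x // x ∈ G} ↪ (Nat.factoredNumbers S : Set ℕ) :=
      ⟨fun d => ⟨d.1, hmem d.1 d.2⟩, by
        intro x y hxy
        have := congrArg Subtype.val hxy
        exact Subtype.ext this⟩
    have : (∑ d ∈ G, (d : ℝ)⁻¹) = ∑ m ∈ G.attach.map e, f m := by
      rw [← Finset.sum_attach, Finset.sum_map]
      rfl
    rw [this]
    exact sum_le_hasSum _ (fun i _ => by
      change 0 ≤ ((i : ℕ) : ℝ)⁻¹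
      positivity) hsum
  refine h1.trans ?_
  rw [Real.exp_sum]
  apply Finset.prod_le_prod
  · intro q hq
    have hp := (Finset.mem_filter.mp hq).2
    change 0 ≤ (1 - (q : ℝ)⁻¹)⁻¹
    have : (q : ℝ)⁻¹ < 1 := inv_lt_one_of_one_lt₀ (by exact_mod_cast hp.one_lt)
    apply inv_nonneg.mpr; linarith
  · intro q hq
    have hp := (Finset.mem_filter.mp hq).2
    have hq2 : (2 : ℝ) ≤ q := by exact_mod_cast hp.two_le
    change (1 - (q : ℝ)⁻¹)⁻¹ ≤ _
    have hx : (q : ℝ)⁻¹ ≤ 1 / 2 := by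
      rw [inv_eq_one_div]; exact one_div_le_one_div_of_le (by norm_num) hq2
    have hx0 : 0 < (q : ℝ)⁻¹ := by positivity
    set x := (q : ℝ)⁻¹
    have e : 2 / (q : ℝ) = 2 * x := by rw [div_eq_mul_inv]
    rw [e, inv_le_comm₀ (by linarith) (Real.exp_pos _), ← Real.exp_neg]
    have h2 := Real.exp_bound' (x := 2 * x) (by linarith) (by linarith) (n := 2) (by norm_num)
    -- exp(-2x) ≤ 1 - x
    have h3 : 1 + 2 * x ≤ Real.exp (2 * x) := by linarith [Real.add_one_le_exp (2 * x)]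
    have h4 : Real.exp (-(2 * x)) ≤ 1 / (1 + 2 * x) := by
      rw [Real.exp_neg, inv_eq_one_div]
      exact one_div_le_one_div_of_le (by linarith) h3
    refine h4.trans ?_
    rw [div_le_iff₀ (by linarith)]
    nlinarith

open Classical in
/-- harmonic sum is bounded by coprime sum times smooth sum -/
theorem harmonic_le_mul (S : Finset ℕ) (q R : ℕ)
    (hq : ∀ l : ℕ, l.Prime → l ≤ R → (l ∣ q ↔ l ∈ S)) :
    (∑ n ∈ Finset.Icc 1 R, (n : ℝ)⁻¹) ≤
      (∑ n ∈ (Finset.Icc 1 R).filter (fun n => Nat.Coprime n q), (n : ℝ)⁻¹) *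
        (∑ d ∈ (Finset.Icc 1 R).filter (fun d => ∀ l : ℕ, l.Prime → l ∣ d → l ∈ S), (d : ℝ)⁻¹) := by
  -- each n = m * d, m coprime to q, d smooth
  have key : ∀ n : ℕ, 1 ≤ n → n ≤ R → ∃ m d : ℕ, m * d = n ∧ Nat.Coprime m q ∧
      ∀ l : ℕ, l.Prime → l ∣ d → l ∈ S := by
    intro n
    induction n using Nat.strong_induction_on with
    | _ n ih =>
      intro h1 hR
      by_cases hc : Nat.Coprime n q
      · refine ⟨n, 1, by ring, hc, ?_⟩
        intro l hl hld
        exact absurd (Nat.dvd_one.mp hld) hl.one_lt.ne'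
      · obtain ⟨l, hl, hlg⟩ := Nat.exists_prime_and_dvd hc
        have hln : l ∣ n := hlg.trans (Nat.gcd_dvd_left _ _)
        have hlq : l ∣ q := hlg.trans (Nat.gcd_dvd_right _ _)
        obtain ⟨c, rfl⟩ := hln
        have hc0 : 0 < c := by
          rcases Nat.eq_zero_or_pos c with h | h
          · subst h; omega
          · exact h
        have hlt : c < l * c := by
          have := hl.two_le
          nlinarith
        obtain ⟨m, d, hmd, hm, hd⟩ := ih c hlt hc0 (by omega)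
        refine ⟨m, l * d, by rw [← hmd]; ring, hm, ?_⟩
        intro r hr hrd
        rcases (Nat.Prime.dvd_mul hr).mp hrd with h | h
        · have : r = l := (Nat.prime_dvd_prime_iff_eq hr hl).mp h
          subst this
          refine (hq r hr ?_).mp hlq
          exact (Nat.le_mul_of_pos_right r hc0).trans hR
        · exact hd r hr h
  choose! fm fd hmul hcop hsm using key
  rw [Finset.sum_mul_sum, ← Finset.sum_product']
  have h1 : (∑ n ∈ Finset.Icc 1 R, (n : ℝ)⁻¹) =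
      ∑ x ∈ (Finset.Icc 1 R).image (fun n => (fm n, fd n)), ((x.1 : ℝ)⁻¹ * (x.2 : ℝ)⁻¹) := by
    rw [Finset.sum_image]
    · apply Finset.sum_congr rfl
      intro n hn
      rw [Finset.mem_Icc] at hn
      have := hmul n hn.1 hn.2
      rw [← mul_inv]
      congr 1
      exact_mod_cast this.symm
    · intro n hn m hm hnm
      rw [Finset.mem_coe, Finset.mem_Icc] at hn hm
      simp only [Prod.mk.injEq] at hnm
      rw [← hmul n hn.1 hn.2, ← hmul m hm.1 hm.2, hnm.1, hnm.2]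
  rw [h1]
  apply Finset.sum_le_sum_of_subset_of_nonneg
  · intro x hx
    rw [Finset.mem_image] at hx
    obtain ⟨n, hn, rfl⟩ := hx
    rw [Finset.mem_Icc] at hn
    have hm := hmul n hn.1 hn.2
    have hpos1 : 0 < fm n := by
      rcases Nat.eq_zero_or_pos (fm n) with h | h
      · rw [h] at hm; omega
      · exact h
    have hpos2 : 0 < fd n := by
      rcases Nat.eq_zero_or_pos (fd n) with h | h
      · rw [h] at hm; omega
      · exact h
    rw [Finset.mem_product, Finset.mem_filter, Finset.mem_filter, Finset.mem_Icc, Finset.mem_Icc]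
    refine ⟨⟨⟨hpos1, ?_⟩, hcop n hn.1 hn.2⟩, ⟨hpos2, ?_⟩, hsm n hn.1 hn.2⟩
    · exact le_trans (Nat.le_mul_of_pos_right _ hpos2) (by rw [hm]; exact hn.2)
    · exact le_trans (Nat.le_mul_of_pos_left _ hpos1) (by rw [hm]; exact hn.2)
  · intro x _ _
    positivity

theorem ivSelS_ge_log (S : Finset ℕ) (a u R : ℕ) (q : ℕ)
    (hq : ∀ l : ℕ, l.Prime → l ≤ R → (l ∣ q ↔ l ∈ S)) :
    Real.log ((R : ℝ) + 1) / (2 * Real.exp (∑ q ∈ S.filter Nat.Prime, 2 / (q : ℝ))) ≤
      selS (ivSieve a u q R) R := by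
  have h1 := ivSelS_ge a u q R
  have h2 := sum_inv_le_two_mul q R
  have h3 := harmonic_le_mul S q R hq
  have h4 := log_add_one_le_harmonic R
  have h5 := sum_factored S R
  rw [harmonic_eq_sum_Icc] at h4
  push_cast at h4
  set A := ∑ n ∈ (Finset.Icc 1 R).filter (fun n => Nat.Coprime n q), (n : ℝ)⁻¹ with hA
  set E := Real.exp (∑ q ∈ S.filter Nat.Prime, 2 / (q : ℝ)) with hE
  have hE0 : 0 < E := Real.exp_pos _
  have hA0 : 0 ≤ A := Finset.sum_nonneg (fun _ _ => by positivity)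
  have h6 : Real.log ((R : ℝ) + 1) ≤ A * E := by
    calc Real.log ((R : ℝ) + 1) ≤ ∑ n ∈ Finset.Icc 1 R, (n : ℝ)⁻¹ := h4
      _ ≤ _ := h3
      _ ≤ A * E := mul_le_mul_of_nonneg_left h5 hA0
  rw [div_le_iff₀ (by positivity)]
  calc Real.log ((R : ℝ) + 1) ≤ A * E := h6
    _ ≤ (2 * selS (ivSieve a u q R) R) * E := by
        apply mul_le_mul_of_nonneg_right _ hE0.le
        linarith
    _ = _ := by ring

open Classical in
/-- Selberg bound with an explicit level. -/
theorem sieve_aux (S : Finset ℕ) (a u R : ℕ) (hR : 1 ≤ R) (hS : ∀ q ∈ S, q.Prime ∧ q ≤ R) :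
    (((Finset.Ioc a (a + u)).filter
      (fun n => ∀ l : ℕ, l.Prime → l ≤ R → l ∣ n → l ∈ S)).card : ℝ) ≤
      2 * u / Real.log ((R : ℝ) + 1) * Real.exp (∑ q ∈ S, 2 / (q : ℝ)) + (R : ℝ) ^ 4 := by
  set q : ℕ := ∏ s ∈ S, s with hqdef
  have hq : ∀ l : ℕ, l.Prime → l ≤ R → (l ∣ q ↔ l ∈ S) := by
    intro l hl _
    rw [hqdef, Prime.dvd_finsetProd_iff hl.prime]
    constructor
    · rintro ⟨s, hs, hls⟩
      have : l = s := (Nat.prime_dvd_prime_iff_eq hl (hS s hs).1).mp hls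
      rw [this]; exact hs
    · intro h; exact ⟨l, h, dvd_rfl⟩
  have hSf : S.filter Nat.Prime = S := Finset.filter_true_of_mem (fun s hs => (hS s hs).1)
  have hR' : (1 : ℝ) ≤ R := by exact_mod_cast hR
  have e : (((Finset.Ioc a (a + u)).filter
      (fun n => ∀ l : ℕ, l.Prime → l ≤ R → l ∣ n → l ∈ S)).card : ℝ) ≤
      (ivSieve a u q R).siftedSum := by
    unfold BoundingSieve.siftedSum
    have h0 : (ivSieve a u q R).support = Finset.Ioc a (a + u) := rfl
    have h' : ∀ n, (ivSieve a u q R).weights n = 1 := fun _ => rfl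
    have h'' : (ivSieve a u q R).prodPrimes = PP q R := rfl
    rw [h0]
    simp only [h', h'']
    rw [← Finset.sum_filter, Finset.sum_const, nsmul_eq_mul, mul_one]
    have : ((Finset.Ioc a (a + u)).filter
      (fun n => ∀ l : ℕ, l.Prime → l ≤ R → l ∣ n → l ∈ S)).card ≤
      ((Finset.Ioc a (a + u)).filter (fun n => Nat.Coprime (PP q R) n)).card := by
      apply Finset.card_le_card
      intro n hn
      rw [Finset.mem_filter] at hn ⊢
      refine ⟨hn.1, ?_⟩
      by_contra hc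
      obtain ⟨l, hl, hlg⟩ := Nat.exists_prime_and_dvd hc
      have h1 : l ∣ PP q R := hlg.trans (Nat.gcd_dvd_left _ _)
      have h2 : l ∣ n := hlg.trans (Nat.gcd_dvd_right _ _)
      have h3 := (prime_dvd_PP hl).mp h1
      exact h3.2 ((hq l hl h3.1).mpr (hn.2 l hl h3.1 h2))
    exact_mod_cast this
  have h2 := siftedSum_le_selberg (ivSieve a u q R) (R : ℝ) hR' 1 zero_le_one
    (fun d hd => ivSieve_rem hd)
  have h3 := ivSelS_ge_log S a u R q hq
  rw [hSf] at h3
  set E := Real.exp (∑ q ∈ S, 2 / (q : ℝ)) with hE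
  have hE0 : 0 < E := Real.exp_pos _
  have hlog : 0 < Real.log ((R : ℝ) + 1) := Real.log_pos (by linarith)
  have h4 : (ivSieve a u q R).totalMass / selS (ivSieve a u q R) R ≤
      2 * u / Real.log ((R : ℝ) + 1) * E := by
    change (u : ℝ) / _ ≤ _
    have : (u : ℝ) / selS (ivSieve a u q R) R ≤ (u : ℝ) / (Real.log ((R : ℝ) + 1) / (2 * E)) := by
      apply div_le_div_of_nonneg_left (by positivity) (by positivity) h3
    refine this.trans (le_of_eq ?_)
    field_simp
  have h5 : (∑ d ∈ (divisors (ivSieve a u q R).prodPrimes).filter (fun d : ℕ => (d : ℝ) ≤ R),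
      ((ivSieve a u q R).nu d)⁻¹) ≤ (R : ℝ) ^ 2 := by
    have h6 : (divisors (ivSieve a u q R).prodPrimes).filter (fun d : ℕ => (d : ℝ) ≤ R) ⊆
        Finset.Icc 1 R := by
      intro d hd
      rw [Finset.mem_filter, Nat.mem_divisors] at hd
      rw [Finset.mem_Icc]
      refine ⟨Nat.pos_of_ne_zero (ne_zero_of_dvd_ne_zero hd.1.2 hd.1.1), by exact_mod_cast hd.2⟩
    calc (∑ d ∈ (divisors (ivSieve a u q R).prodPrimes).filter (fun d : ℕ => (d : ℝ) ≤ R),
          ((ivSieve a u q R).nu d)⁻¹)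
        = ∑ d ∈ (divisors (ivSieve a u q R).prodPrimes).filter (fun d : ℕ => (d : ℝ) ≤ R),
          (d : ℝ) := by
          apply Finset.sum_congr rfl
          intro d _
          change ((d : ℝ)⁻¹)⁻¹ = d
          rw [inv_inv]
      _ ≤ ∑ d ∈ Finset.Icc 1 R, (d : ℝ) :=
          Finset.sum_le_sum_of_subset_of_nonneg h6 (fun _ _ _ => by positivity)
      _ ≤ ∑ d ∈ Finset.Icc 1 R, (R : ℝ) := by
          apply Finset.sum_le_sum
          intro d hd
          exact_mod_cast (Finset.mem_Icc.mp hd).2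
      _ = (R : ℝ) ^ 2 := by simp; ring
  have h7 : 0 ≤ (∑ d ∈ (divisors (ivSieve a u q R).prodPrimes).filter (fun d : ℕ => (d : ℝ) ≤ R),
      ((ivSieve a u q R).nu d)⁻¹) := by
    apply Finset.sum_nonneg
    intro d _
    change 0 ≤ ((d : ℝ)⁻¹)⁻¹
    positivity
  have h8 : (∑ d ∈ (divisors (ivSieve a u q R).prodPrimes).filter (fun d : ℕ => (d : ℝ) ≤ R),
      ((ivSieve a u q R).nu d)⁻¹) ^ 2 ≤ (R : ℝ) ^ 4 := by
    calc _ ≤ ((R : ℝ) ^ 2) ^ 2 := by gcongr
      _ = (R : ℝ) ^ 4 := by ring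
  linarith

open Classical in
theorem sieve_smooth : ∃ C : ℝ, 1 ≤ C ∧ ∀ (S : Finset ℕ) (a u : ℕ), 2 ≤ u →
    (((Finset.Ioc a (a + u)).filter
      (fun n => ∀ l : ℕ, l.Prime → l ≤ u → l ∣ n → l ∈ S)).card : ℝ)
      ≤ C * u / Real.log u * Real.exp (∑ q ∈ S.filter (fun q => q.Prime ∧ q ≤ u), 2 / (q : ℝ)) := by
  refine ⟨18, by norm_num, ?_⟩
  intro S a u hu
  have hN' : (2 : ℝ) ≤ u := by exact_mod_cast hu
  have hN0 : (0 : ℝ) < u := by linarith
  have hlogN : 0 < Real.log u := Real.log_pos (by linarith)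
  set x : ℝ := (u : ℝ) ^ ((1 : ℝ) / 8) with hx
  have hx1 : 1 ≤ x := Real.one_le_rpow (by linarith) (by norm_num)
  have hR : 1 ≤ ⌊x⌋₊ := Nat.floor_pos.mpr hx1
  have hfl : (⌊x⌋₊ : ℝ) ≤ x := Nat.floor_le (by linarith)
  have hxu : x ≤ u := by
    calc x ≤ (u : ℝ) ^ (1 : ℝ) := Real.rpow_le_rpow_of_exponent_le (by linarith) (by norm_num)
      _ = u := Real.rpow_one _
  have hRu : ⌊x⌋₊ ≤ u := by exact_mod_cast hfl.trans hxu
  have h := sieve_aux (S.filter (fun q => q.Prime ∧ q ≤ ⌊x⌋₊)) a u ⌊x⌋₊ hR (by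
    intro q hq; exact (Finset.mem_filter.mp hq).2)
  have h0 : ((Finset.Ioc a (a + u)).filter
      (fun n => ∀ l : ℕ, l.Prime → l ≤ u → l ∣ n → l ∈ S)).card ≤
      ((Finset.Ioc a (a + u)).filter
      (fun n => ∀ l : ℕ, l.Prime → l ≤ ⌊x⌋₊ → l ∣ n →
        l ∈ S.filter (fun q => q.Prime ∧ q ≤ ⌊x⌋₊))).card := by
    apply Finset.card_le_card
    intro n hn
    rw [Finset.mem_filter] at hn ⊢
    refine ⟨hn.1, fun l hl hlR hln => ?_⟩
    rw [Finset.mem_filter]
    exact ⟨hn.2 l hl (hlR.trans hRu) hln, hl, hlR⟩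
  have hfl2 : x < (⌊x⌋₊ : ℝ) + 1 := Nat.lt_floor_add_one x
  have hlogx : Real.log x = Real.log u / 8 := by
    rw [hx, Real.log_rpow hN0]; ring
  have hlog2 : Real.log u / 8 ≤ Real.log ((⌊x⌋₊ : ℝ) + 1) := by
    rw [← hlogx]
    exact Real.log_le_log (by linarith) hfl2.le
  have hx4 : x ^ 4 = Real.sqrt u := by
    rw [hx, ← Real.rpow_natCast, ← Real.rpow_mul hN0.le, Real.sqrt_eq_rpow]
    norm_num
  have hsq : 0 < Real.sqrt u := Real.sqrt_pos.mpr hN0
  have hsq2 : Real.sqrt u * Real.sqrt u = u := Real.mul_self_sqrt hN0.le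
  have hlogsq : Real.log u ≤ 2 * Real.sqrt u := by
    have h1 : Real.log (Real.sqrt u) ≤ Real.sqrt u - 1 := Real.log_le_sub_one_of_pos hsq
    rw [Real.log_sqrt hN0.le] at h1
    linarith
  set E1 := Real.exp (∑ q ∈ S.filter (fun q => q.Prime ∧ q ≤ ⌊x⌋₊), 2 / (q : ℝ)) with hE1
  set E := Real.exp (∑ q ∈ S.filter (fun q => q.Prime ∧ q ≤ u), 2 / (q : ℝ)) with hE
  have hE1E : E1 ≤ E := by
    apply Real.exp_le_exp.mpr
    apply Finset.sum_le_sum_of_subset_of_nonneg
    · intro q hq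
      rw [Finset.mem_filter] at hq ⊢
      exact ⟨hq.1, hq.2.1, hq.2.2.trans hRu⟩
    · intro _ _ _; positivity
  have hE1' : 1 ≤ E := Real.one_le_exp (Finset.sum_nonneg (fun _ _ => by positivity))
  have h1 : 2 * (u : ℝ) / Real.log ((⌊x⌋₊ : ℝ) + 1) * E1 ≤ 16 * u / Real.log u * E := by
    have h2 : 2 * (u : ℝ) / Real.log ((⌊x⌋₊ : ℝ) + 1) ≤ 2 * (u : ℝ) / (Real.log u / 8) := by
      apply div_le_div_of_nonneg_left (by positivity) (by positivity) hlog2
    have h3 : 2 * (u : ℝ) / (Real.log u / 8) = 16 * u / Real.log u := by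
      field_simp; norm_num
    rw [h3] at h2
    exact mul_le_mul h2 hE1E (Real.exp_pos _).le (by positivity)
  have h2 : (⌊x⌋₊ : ℝ) ^ 4 ≤ Real.sqrt u := by
    rw [← hx4]; gcongr
  have h4 : Real.sqrt u ≤ 2 * u / Real.log u := by
    rw [le_div_iff₀ hlogN]
    nlinarith
  have h5 : 2 * (u : ℝ) / Real.log u ≤ 2 * u / Real.log u * E :=
    le_mul_of_one_le_right (by positivity) hE1'
  have h6 : 18 * (u : ℝ) / Real.log u * E = 16 * u / Real.log u * E + 2 * u / Real.log u * E := by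
    ring
  rw [h6]
  have h7 : (((Finset.Ioc a (a + u)).filter
      (fun n => ∀ l : ℕ, l.Prime → l ≤ u → l ∣ n → l ∈ S)).card : ℝ) ≤
      (((Finset.Ioc a (a + u)).filter
      (fun n => ∀ l : ℕ, l.Prime → l ≤ ⌊x⌋₊ → l ∣ n →
        l ∈ S.filter (fun q => q.Prime ∧ q ≤ ⌊x⌋₊))).card : ℝ) := by exact_mod_cast h0
  refine h7.trans ?_
  have h8 := h
  refine le_trans (le_of_eq ?_) (h8.trans ?_)
  · congr!
  · linarith

open Classical in
theorem Bn_le_sieve : ∃ C : ℝ, 1 ≤ C ∧ ∀ (k : ℕ) (S : Finset ℕ) (u : ℕ), 2 ≤ u →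
      (Bn k S u : ℝ) ≤ C * u / Real.log u *
        Real.exp (∑ q ∈ S.filter (fun q => q.Prime ∧ q ≤ u), 2 / (q : ℝ)) := by
  obtain ⟨C, hC1, hC⟩ := sieve_smooth
  refine ⟨2 * C, by linarith, ?_⟩
  intro k S u hu
  have h1 := hC S 0 u hu
  have h2 := hC S (k - u - 1) u hu
  have h3 : Bn k S u ≤ ((Finset.Ioc 0 (0 + u)).filter
        (fun n => ∀ l : ℕ, l.Prime → l ≤ u → l ∣ n → l ∈ S)).card +
      ((Finset.Ioc (k - u - 1) (k - u - 1 + u)).filter
        (fun n => ∀ l : ℕ, l.Prime → l ≤ u → l ∣ n → l ∈ S)).card := by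
    unfold Bn
    refine le_trans (Finset.card_le_card ?_) (Finset.card_union_le _ _)
    intro t ht'
    rw [Finset.mem_filter, Finset.mem_Ioo] at ht'
    obtain ⟨⟨h1t, htk⟩, hht, hsm⟩ := ht'
    rw [Finset.mem_union, Finset.mem_filter, Finset.mem_filter, Finset.mem_Ioc, Finset.mem_Ioc]
    unfold HK.ht at hht
    rcases le_total t (k - t) with h | h
    · rw [min_eq_left h] at hht
      left
      exact ⟨⟨by omega, by omega⟩, fun l hl _ hlt => hsm l hl hlt⟩
    · rw [min_eq_right h] at hht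
      by_cases hku : u < k
      · right
        exact ⟨⟨by omega, by omega⟩, fun l hl _ hlt => hsm l hl hlt⟩
      · left
        exact ⟨⟨by omega, by omega⟩, fun l hl _ hlt => hsm l hl hlt⟩
  have h4 : (Bn k S u : ℝ) ≤ (((Finset.Ioc 0 (0 + u)).filter
        (fun n => ∀ l : ℕ, l.Prime → l ≤ u → l ∣ n → l ∈ S)).card : ℝ) +
      (((Finset.Ioc (k - u - 1) (k - u - 1 + u)).filter
        (fun n => ∀ l : ℕ, l.Prime → l ≤ u → l ∣ n → l ∈ S)).card : ℝ) := by exact_mod_cast h3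
  refine h4.trans ?_
  have e : 2 * C * (u : ℝ) / Real.log u *
        Real.exp (∑ q ∈ S.filter (fun q => q.Prime ∧ q ≤ u), 2 / (q : ℝ)) =
      C * u / Real.log u *
        Real.exp (∑ q ∈ S.filter (fun q => q.Prime ∧ q ≤ u), 2 / (q : ℝ)) +
      C * u / Real.log u *
        Real.exp (∑ q ∈ S.filter (fun q => q.Prime ∧ q ≤ u), 2 / (q : ℝ)) := by ring
  rw [e]
  exact add_le_add h1 h2

end Pool.Agent.Helper601.HK
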