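import Mathlib
import Pool.Agent.Helper601.Selberg

set_option autoImplicit false

open Finset Nat ArithmeticFunction BoundingSieve
open scoped ArithmeticFunction.Moebius

namespace Pool.Agent.Helper601

/-- Selberg's sieve with the crude bound for the weights. -/
theorem siftedSum_le_selberg' (s : BoundingSieve) (R : ℝ) (hR : 1 ≤ R) (E : ℝ) (hE : 0 ≤ E)
    (hrem : ∀ d, d ∣ s.prodPrimes → (d : ℝ) ≤ R ^ 2 → |s.rem d| ≤ E) :
    s.siftedSum ≤ s.totalMass / selS s R +
      E * (∑ d ∈ (divisors s.prodPrimes).filter (fun d : ℕ => (d : ℝ) ≤ R), (s.nu d)⁻¹) ^ 2 := by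
  have h := siftedSum_le_mainSum_errSum_of_upperMoebius (s := s)
    (lambdaSquared (selW s R)) (upperMoebius_lambdaSquared _ (selW_one s R hR))
  rw [mainSum_selW s R hR] at h
  refine h.trans ?_
  rw [div_eq_mul_inv]
  gcongr
  unfold errSum
  have h1 : ∀ d ∈ divisors s.prodPrimes, |lambdaSquared (selW s R) d| * |s.rem d| ≤
      ∑ d1 ∈ divisors s.prodPrimes, ∑ d2 ∈ divisors s.prodPrimes,
        if d = Nat.lcm d1 d2 then E * (|selW s R d1| * |selW s R d2|) else 0 := by
    intro d hd
    have hdP := Nat.dvd_of_mem_divisors hd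
    have h2 : |lambdaSquared (selW s R) d| ≤ ∑ d1 ∈ divisors s.prodPrimes,
        ∑ d2 ∈ divisors s.prodPrimes,
        if d = Nat.lcm d1 d2 then (|selW s R d1| * |selW s R d2|) else 0 := by
      unfold lambdaSquared
      refine (Finset.abs_sum_le_sum_abs _ _).trans ?_
      calc ∑ d1 ∈ d.divisors, |∑ d2 ∈ d.divisors,
            if d = Nat.lcm d1 d2 then selW s R d1 * selW s R d2 else 0|
          ≤ ∑ d1 ∈ d.divisors, ∑ d2 ∈ d.divisors,
            if d = Nat.lcm d1 d2 then |selW s R d1| * |selW s R d2| else 0 := by
            apply Finset.sum_le_sum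
            intro d1 _
            refine (Finset.abs_sum_le_sum_abs _ _).trans ?_
            apply Finset.sum_le_sum
            intro d2 _
            split_ifs
            · rw [abs_mul]
            · simp
        _ ≤ ∑ d1 ∈ d.divisors, ∑ d2 ∈ divisors s.prodPrimes,
            if d = Nat.lcm d1 d2 then |selW s R d1| * |selW s R d2| else 0 := by
            apply Finset.sum_le_sum
            intro d1 _
            apply Finset.sum_le_sum_of_subset_of_nonneg
            · exact Nat.divisors_subset_of_dvd prodPrimes_ne_zero hdP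
            · intro d2 _ _; split_ifs <;> positivity
        _ ≤ _ := by
            apply Finset.sum_le_sum_of_subset_of_nonneg
            · exact Nat.divisors_subset_of_dvd prodPrimes_ne_zero hdP
            · intro d1 _ _
              apply Finset.sum_nonneg
              intro d2 _; split_ifs <;> positivity
    have hnn : 0 ≤ ∑ d1 ∈ divisors s.prodPrimes, ∑ d2 ∈ divisors s.prodPrimes,
        (if d = Nat.lcm d1 d2 then E * (|selW s R d1| * |selW s R d2|) else 0) := by
      apply Finset.sum_nonneg
      intro d1 _
      apply Finset.sum_nonneg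
      intro d2 _
      split_ifs <;> positivity
    by_cases hdR : (d : ℝ) ≤ R ^ 2
    swap
    · have h0 : |lambdaSquared (selW s R) d| ≤ 0 := by
        refine h2.trans (le_of_eq ?_)
        apply Finset.sum_eq_zero
        intro d1 hd1
        apply Finset.sum_eq_zero
        intro d2 hd2
        split_ifs with hlcm
        · by_cases h1R : (d1 : ℝ) ≤ R
          · by_cases h2R : (d2 : ℝ) ≤ R
            · exfalso
              apply hdR
              have hle : d ≤ d1 * d2 := by
                rw [hlcm]
                have hp1 : 0 < d1 := Nat.pos_of_mem_divisors hd1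
                have hp2 : 0 < d2 := Nat.pos_of_mem_divisors hd2
                exact Nat.le_of_dvd (Nat.mul_pos hp1 hp2) (Nat.lcm_dvd_mul d1 d2)
              calc (d : ℝ) ≤ (d1 : ℝ) * d2 := by exact_mod_cast hle
                _ ≤ R * R := by gcongr
                _ = R ^ 2 := by ring
            · rw [selW_eq_zero s R (not_le.mp h2R), abs_zero, mul_zero]
          · rw [selW_eq_zero s R (not_le.mp h1R), abs_zero, zero_mul]
        · rfl
      have h00 : |lambdaSquared (selW s R) d| = 0 := le_antisymm h0 (abs_nonneg _)
      rw [h00, zero_mul]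
      exact hnn
    calc |lambdaSquared (selW s R) d| * |s.rem d|
        ≤ (∑ d1 ∈ divisors s.prodPrimes, ∑ d2 ∈ divisors s.prodPrimes,
        if d = Nat.lcm d1 d2 then (|selW s R d1| * |selW s R d2|) else 0) * E := by
          apply mul_le_mul h2 (hrem d hdP hdR) (abs_nonneg _)
          apply Finset.sum_nonneg
          intro d1 _
          apply Finset.sum_nonneg
          intro d2 _
          split_ifs <;> positivity
      _ = _ := by
          rw [Finset.sum_mul]
          apply Finset.sum_congr rfl
          intro d1 _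
          rw [Finset.sum_mul]
          apply Finset.sum_congr rfl
          intro d2 _
          split_ifs
          · ring
          · simp
  refine (Finset.sum_le_sum h1).trans ?_
  rw [Finset.sum_comm]
  have h3 : ∀ d1 ∈ divisors s.prodPrimes, (∑ d ∈ divisors s.prodPrimes,
      ∑ d2 ∈ divisors s.prodPrimes,
        if d = Nat.lcm d1 d2 then E * (|selW s R d1| * |selW s R d2|) else 0) ≤
      ∑ d2 ∈ divisors s.prodPrimes, E * (|selW s R d1| * |selW s R d2|) := by
    intro d1 _
    rw [Finset.sum_comm]
    apply Finset.sum_le_sum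
    intro d2 _
    rw [Finset.sum_ite_eq']
    split_ifs
    · exact le_refl _
    · positivity
  refine (Finset.sum_le_sum h3).trans ?_
  have h4 : (∑ d1 ∈ divisors s.prodPrimes, ∑ d2 ∈ divisors s.prodPrimes,
      E * (|selW s R d1| * |selW s R d2|)) = E * (∑ d ∈ divisors s.prodPrimes, |selW s R d|) ^ 2 := by
    rw [sq, Finset.sum_mul_sum, Finset.mul_sum]
    apply Finset.sum_congr rfl
    intro d1 _
    rw [Finset.mul_sum]
  rw [h4]
  have h5 : (∑ d ∈ divisors s.prodPrimes, |selW s R d|) ≤
      ∑ d ∈ (divisors s.prodPrimes).filter (fun d : ℕ => (d : ℝ) ≤ R), (s.nu d)⁻¹ := by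
    rw [Finset.sum_filter]
    apply Finset.sum_le_sum
    intro d hd
    split_ifs with h
    · exact abs_selW_le s R hR (Nat.dvd_of_mem_divisors hd)
    · rw [selW_eq_zero s R (not_le.mp h), abs_zero]
  have h6 : 0 ≤ (∑ d ∈ divisors s.prodPrimes, |selW s R d|) :=
    Finset.sum_nonneg (fun _ _ => abs_nonneg _)
  gcongr


end Pool.Agent.Helper601
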