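import Mathlib
import Pool.Agent.Helper601.Selberg
import Pool.Agent.Helper601.Selberg2
import Pool.Agent.Helper601.BT
import Pool.Agent.Helper601.HKDefs

set_option autoImplicit false

open Finset Nat ArithmeticFunction BoundingSieve

namespace Pool.Agent.Helper601.HK

open Pool.Agent.Helper601

/-- density function, two classes at the primes of `R` -/
noncomputable def nuTwo (R : Finset ℕ) : ArithmeticFunction ℝ where
  toFun n := (n : ℝ)⁻¹ * 2 ^ (R.filter (fun r => r.Prime ∧ r ∣ n)).card
  map_zero' := by simp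

theorem nuTwo_apply (R : Finset ℕ) (n : ℕ) :
    nuTwo R n = (n : ℝ)⁻¹ * 2 ^ (R.filter (fun r => r.Prime ∧ r ∣ n)).card := rfl

theorem nuTwo_mult (R : Finset ℕ) : (nuTwo R).IsMultiplicative := by
  constructor
  · rw [nuTwo_apply]
    have : R.filter (fun r => r.Prime ∧ r ∣ 1) = ∅ := by
      apply Finset.filter_false_of_mem
      intro r _ h
      exact h.1.one_lt.ne' (Nat.dvd_one.mp h.2)
    rw [this]; simp
  · intro m n hmn
    rw [nuTwo_apply, nuTwo_apply, nuTwo_apply]
    have h1 : R.filter (fun r => r.Prime ∧ r ∣ m * n) =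
        R.filter (fun r => r.Prime ∧ r ∣ m) ∪ R.filter (fun r => r.Prime ∧ r ∣ n) := by
      ext r
      simp only [Finset.mem_filter, Finset.mem_union]
      constructor
      · rintro ⟨hr, hp, hd⟩
        rcases (Nat.Prime.dvd_mul hp).mp hd with h | h
        · left; exact ⟨hr, hp, h⟩
        · right; exact ⟨hr, hp, h⟩
      · rintro (⟨hr, hp, hd⟩ | ⟨hr, hp, hd⟩)
        · exact ⟨hr, hp, hd.mul_right n⟩
        · exact ⟨hr, hp, hd.mul_left m⟩
    have h2 : Disjoint (R.filter (fun r => r.Prime ∧ r ∣ m)) (R.filter (fun r => r.Prime ∧ r ∣ n)) := by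
      rw [Finset.disjoint_left]
      intro r h1 h2
      rw [Finset.mem_filter] at h1 h2
      have := Nat.dvd_gcd h1.2.2 h2.2.2
      rw [Nat.Coprime.gcd_eq_one hmn] at this
      exact h1.2.1.one_lt.ne' (Nat.dvd_one.mp this)
    rw [h1, Finset.card_union_of_disjoint h2, pow_add]
    push_cast
    rw [mul_inv]
    ring

theorem nuTwo_prime (R : Finset ℕ) {p : ℕ} (hp : p.Prime) :
    nuTwo R p = if p ∈ R then 2 / (p : ℝ) else 1 / (p : ℝ) := by
  rw [nuTwo_apply]
  split_ifs with h
  · have : R.filter (fun r => r.Prime ∧ r ∣ p) = {p} := by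
      ext r
      simp only [Finset.mem_filter, Finset.mem_singleton]
      constructor
      · rintro ⟨_, hr, hd⟩
        exact (Nat.prime_dvd_prime_iff_eq hr hp).mp hd
      · rintro rfl
        exact ⟨h, hp, dvd_rfl⟩
    rw [this, Finset.card_singleton]
    field_simp
  · have : R.filter (fun r => r.Prime ∧ r ∣ p) = ∅ := by
      apply Finset.filter_false_of_mem
      rintro r hrR ⟨hr, hd⟩
      have := (Nat.prime_dvd_prime_iff_eq hr hp).mp hd
      subst this
      exact h hrR
    rw [this, Finset.card_empty]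
    simp

/-- the encoded value -/
noncomputable def FF (R : Finset ℕ) (n : ℕ) : ℕ :=
  n * ∏ r ∈ R.filter (fun r => r.Prime ∧ r ∣ n + 1), r

theorem prime_dvd_FF (R : Finset ℕ) {p n : ℕ} (hp : p.Prime) :
    p ∣ FF R n ↔ p ∣ n ∨ (p ∈ R ∧ p ∣ n + 1) := by
  unfold FF
  rw [Nat.Prime.dvd_mul hp, Prime.dvd_finsetProd_iff hp.prime]
  constructor
  · rintro (h | ⟨r, hr, hpr⟩)
    · left; exact h
    · right
      rw [Finset.mem_filter] at hr
      have : p = r := (Nat.prime_dvd_prime_iff_eq hp hr.2.1).mp hpr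
      subst this
      exact ⟨hr.1, hr.2.2⟩
  · rintro (h | ⟨h1, h2⟩)
    · left; exact h
    · right
      exact ⟨p, Finset.mem_filter.mpr ⟨h1, hp, h2⟩, dvd_rfl⟩

open Classical in
/-- The sieve. -/
noncomputable def twoSieve (R : Finset ℕ) (hR : ∀ r ∈ R, 3 ≤ r) (a u N : ℕ) : BoundingSieve where
  support := (Finset.Ioc a (a + u)).image (FF R)
  prodPrimes := PP 1 N
  prodPrimes_squarefree := PP_squarefree 1 N
  weights := fun m => (((Finset.Ioc a (a + u)).filter (fun n => FF R n = m)).card : ℝ)
  weights_nonneg := fun _ => by positivity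
  totalMass := u
  nu := nuTwo R
  nu_mult := nuTwo_mult R
  nu_pos_of_prime := by
    intro p hp _
    rw [nuTwo_prime R hp]
    have : (0 : ℝ) < p := by exact_mod_cast hp.pos
    split_ifs <;> positivity
  nu_lt_one_of_prime := by
    intro p hp _
    rw [nuTwo_prime R hp]
    have h2 : (2 : ℝ) ≤ p := by exact_mod_cast hp.two_le
    split_ifs with h
    · have h3 : (3 : ℝ) ≤ p := by exact_mod_cast hR p h
      rw [div_lt_one (by linarith)]; linarith
    · rw [div_lt_one (by linarith)]; linarith

theorem sum_support (R : Finset ℕ) (hR : ∀ r ∈ R, 3 ≤ r) (a u N : ℕ) (Q : ℕ → Prop)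
    [DecidablePred Q] :
    (∑ m ∈ (twoSieve R hR a u N).support, if Q m then (twoSieve R hR a u N).weights m else 0) =
      (((Finset.Ioc a (a + u)).filter (fun n => Q (FF R n))).card : ℝ) := by
  have h0 : (twoSieve R hR a u N).support = (Finset.Ioc a (a + u)).image (FF R) := rfl
  have h1 : ∀ m, (twoSieve R hR a u N).weights m =
    (((Finset.Ioc a (a + u)).filter (fun n => FF R n = m)).card : ℝ) := fun _ => rfl
  rw [h0]
  simp only [h1]
  rw [Finset.card_filter]
  push_cast
  rw [← Finset.sum_fiberwise_of_maps_to (s := Finset.Ioc a (a + u))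
    (t := (Finset.Ioc a (a + u)).image (FF R)) (g := FF R)
    (fun n hn => Finset.mem_image_of_mem _ hn)]
  apply Finset.sum_congr rfl
  intro m _
  split_ifs with hQ
  · rw [Finset.card_eq_sum_ones]
    push_cast
    apply Finset.sum_congr rfl
    intro n hn
    rw [Finset.mem_filter] at hn
    rw [if_pos (by rw [hn.2]; exact hQ)]
  · symm
    apply Finset.sum_eq_zero
    intro n hn
    rw [Finset.mem_filter] at hn
    rw [if_neg (by rw [hn.2]; exact hQ)]

theorem dvd_of_dvd_PP {N d m : ℕ} (hd : d ∣ PP 1 N) :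
    d ∣ m ↔ ∀ p ∈ d.primeFactors, p ∣ m := by
  have hsq : Squarefree d := (PP_squarefree 1 N).squarefree_of_dvd hd
  constructor
  · intro h p hp
    exact (Nat.dvd_of_mem_primeFactors hp).trans h
  · intro h
    rw [← Nat.prod_primeFactors_of_squarefree hsq]
    apply Finset.prod_primes_dvd
    · intro p hp
      exact (Nat.prime_of_mem_primeFactors hp).prime
    · exact h

theorem pow_card_le {R : Finset ℕ} {d : ℕ} (hd : 0 < d) :
    2 ^ (R.filter (fun r => r.Prime ∧ r ∣ d)).card ≤ d := by
  have h1 : (∏ r ∈ R.filter (fun r => r.Prime ∧ r ∣ d), r) ∣ d := by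
    apply Finset.prod_primes_dvd
    · intro r hr
      exact (Finset.mem_filter.mp hr).2.1.prime
    · intro r hr
      exact (Finset.mem_filter.mp hr).2.2
  have h2 : 2 ^ (R.filter (fun r => r.Prime ∧ r ∣ d)).card ≤
      ∏ r ∈ R.filter (fun r => r.Prime ∧ r ∣ d), r := by
    rw [← Finset.prod_const]
    apply Finset.prod_le_prod'
    intro r hr
    exact (Finset.mem_filter.mp hr).2.1.two_le
  exact h2.trans (Nat.le_of_dvd hd h1)

end Pool.Agent.Helper601.HK
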