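import Mathlib
import Pool.Agent.Helper601.HKTwo2

set_option autoImplicit false

open Filter

namespace Pool.Agent.Helper601.HK

theorem two_asymp (B : ℝ) : ∀ᶠ x : ℝ in atTop, 1 < x ∧ x ^ (1 / 16 : ℝ) + 1 ≤ x ^ (1 / 8 : ℝ) ∧
    2 * x ^ (3 / 4 : ℝ) ≤ x / Real.log x * Real.exp (-B) := by
  have h1 : ∀ᶠ x : ℝ in atTop, 2 ≤ x ^ (1 / 16 : ℝ) :=
    (tendsto_rpow_atTop (by norm_num : (0 : ℝ) < 1 / 16)).eventually_ge_atTop 2
  have h2 := (isLittleO_log_rpow_atTop (by norm_num : (0 : ℝ) < 1 / 4)).bound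
    (by positivity : (0 : ℝ) < 1 / (2 * Real.exp B))
  filter_upwards [h1, h2, eventually_gt_atTop 1] with x h1 h2 h3
  have hx0 : 0 < x := by linarith
  have hlog : 0 < Real.log x := Real.log_pos h3
  refine ⟨h3, ?_, ?_⟩
  · have e : x ^ (1 / 8 : ℝ) = x ^ (1 / 16 : ℝ) * x ^ (1 / 16 : ℝ) := by
      rw [← Real.rpow_add hx0]; norm_num
    rw [e]
    nlinarith
  · rw [Real.norm_of_nonneg hlog.le, Real.norm_of_nonneg (by positivity)] at h2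
    have e : x = x ^ (3 / 4 : ℝ) * x ^ (1 / 4 : ℝ) := by
      rw [← Real.rpow_add hx0]; norm_num
    have hE : 0 < Real.exp B := Real.exp_pos B
    have h4 : 2 * Real.exp B * Real.log x ≤ x ^ (1 / 4 : ℝ) := by
      have : Real.log x * (2 * Real.exp B) ≤ x ^ (1 / 4 : ℝ) := by
        calc Real.log x * (2 * Real.exp B)
            ≤ (1 / (2 * Real.exp B) * x ^ (1 / 4 : ℝ)) * (2 * Real.exp B) := by gcongr
          _ = x ^ (1 / 4 : ℝ) := by field_simp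
      linarith
    have hx34 : 0 < x ^ (3 / 4 : ℝ) := by positivity
    rw [Real.exp_neg, div_mul_eq_mul_div, le_div_iff₀ hlog, ← div_eq_mul_inv, le_div_iff₀ hE]
    calc 2 * x ^ (3 / 4 : ℝ) * Real.log x * Real.exp B
        = x ^ (3 / 4 : ℝ) * (2 * Real.exp B * Real.log x) := by ring
      _ ≤ x ^ (3 / 4 : ℝ) * x ^ (1 / 4 : ℝ) := by gcongr
      _ = x := e.symm

theorem sieve_two
    (selberg_lower : ∀ B : ℝ, 0 ≤ B → ∃ m : ℕ, ∀ (R : Finset ℕ) (z N : ℕ),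
    (∀ r ∈ R, r.Prime ∧ 3 ≤ r ∧ r ≤ z) → (∑ r ∈ R, 1 / (r : ℝ)) ≤ B → z ^ m ≤ N → 1 ≤ N →
    (1 / 16) * Real.log N * Real.exp (∑ r ∈ R, 1 / (r : ℝ)) ≤
      ∑ l ∈ (Finset.Icc 1 N).filter Squarefree, ∏ p ∈ l.primeFactors,
        (if p ∈ R then 2 / ((p : ℝ) - 2) else 1 / ((p : ℝ) - 1))) :
    ∃ C : ℝ, 1 ≤ C ∧ ∀ B : ℝ, 0 ≤ B → ∃ m u0 : ℕ, ∀ (R : Finset ℕ) (z a u : ℕ),
      u0 ≤ u → z ^ m ≤ u → (∀ r ∈ R, r.Prime ∧ 3 ≤ r ∧ r ≤ z) → (∑ r ∈ R, 1 / (r : ℝ)) ≤ B →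
      (((Finset.Ioc a (a + u)).filter (fun n => n.Prime ∧ ∀ r ∈ R, ¬ r ∣ n + 1)).card : ℝ) ≤
        C * u / Real.log u * Real.exp (-∑ r ∈ R, 1 / (r : ℝ)) := by
  refine ⟨257, by norm_num, ?_⟩
  intro B hB
  obtain ⟨m, hm⟩ := selberg_lower B hB
  obtain ⟨x0, hx0⟩ := Filter.eventually_atTop.mp (two_asymp B)
  refine ⟨16 * m, ⌈x0⌉₊, ?_⟩
  intro R z a u hu hz hR hsum
  have hux : x0 ≤ (u : ℝ) := Nat.ceil_le.mp hu
  obtain ⟨hu1, h16, h34⟩ := hx0 u hux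
  have hu0 : (0 : ℝ) < u := by linarith
  have hlog : 0 < Real.log u := Real.log_pos hu1
  set N : ℕ := ⌊(u : ℝ) ^ (1 / 8 : ℝ)⌋₊ with hN
  have hN16 : (u : ℝ) ^ (1 / 16 : ℝ) ≤ N := by
    have := Nat.lt_floor_add_one ((u : ℝ) ^ (1 / 8 : ℝ))
    rw [← hN] at this
    linarith
  have h161 : 1 ≤ (u : ℝ) ^ (1 / 16 : ℝ) := Real.one_le_rpow hu1.le (by norm_num)
  have hN1r : (1 : ℝ) ≤ N := h161.trans hN16
  have hN1 : 1 ≤ N := by exact_mod_cast hN1r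
  have hN8 : (N : ℝ) ≤ (u : ℝ) ^ (1 / 8 : ℝ) := Nat.floor_le (by positivity)
  have hzN : z ^ m ≤ N := by
    have h1 : ((z : ℝ) ^ m) ^ 16 ≤ u := by
      rw [← pow_mul, mul_comm]
      exact_mod_cast hz
    have h2 : (z : ℝ) ^ m ≤ (u : ℝ) ^ (1 / 16 : ℝ) := by
      have h3 : (0 : ℝ) ≤ (z : ℝ) ^ m := by positivity
      calc (z : ℝ) ^ m = (((z : ℝ) ^ m) ^ 16) ^ (1 / 16 : ℝ) := by
            rw [← Real.rpow_natCast _ 16, ← Real.rpow_mul h3]; norm_num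
        _ ≤ (u : ℝ) ^ (1 / 16 : ℝ) := by gcongr
    have h4 := h2.trans hN16
    exact_mod_cast h4
  have hlow := hm R z N hR hsum hzN hN1
  have hlogN : (1 / 16) * Real.log u ≤ Real.log N := by
    rw [← Real.log_rpow hu0]
    exact Real.log_le_log (by positivity) hN16
  set ss := ∑ r ∈ R, 1 / (r : ℝ) with hss
  have hE : 0 < Real.exp ss := Real.exp_pos _
  have hL : 0 < (1 / 16) * Real.log N * Real.exp ss := by
    have : 0 < Real.log N := lt_of_lt_of_le (by positivity) hlogN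
    positivity
  have h := two_aux (fun r hr => (hR r hr).2.1) (fun r hr => (hR r hr).1) (a := a) (u := u) hN1
    _ hL hlow
  refine h.trans ?_
  have h1 : (u : ℝ) / (1 / 16 * Real.log N * Real.exp ss) ≤ 256 * u / Real.log u * Real.exp (-ss) := by
    have h2 : (1 / 256) * Real.log u * Real.exp ss ≤ 1 / 16 * Real.log N * Real.exp ss := by
      have : (1 / 256) * Real.log u ≤ 1 / 16 * Real.log N := by linarith
      gcongr
    calc (u : ℝ) / (1 / 16 * Real.log N * Real.exp ss)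
        ≤ (u : ℝ) / ((1 / 256) * Real.log u * Real.exp ss) := by gcongr
      _ = 256 * u / Real.log u * Real.exp (-ss) := by
          rw [Real.exp_neg]
          field_simp
  have h6 : (N : ℝ) ^ 6 ≤ (u : ℝ) ^ (3 / 4 : ℝ) := by
    calc (N : ℝ) ^ 6 ≤ ((u : ℝ) ^ (1 / 8 : ℝ)) ^ 6 := by gcongr
      _ = (u : ℝ) ^ (3 / 4 : ℝ) := by
          rw [← Real.rpow_natCast _ 6, ← Real.rpow_mul hu0.le]; norm_num
  have h7 : (N : ℝ) ≤ (u : ℝ) ^ (3 / 4 : ℝ) := by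
    calc (N : ℝ) ≤ (u : ℝ) ^ (1 / 8 : ℝ) := hN8
      _ ≤ (u : ℝ) ^ (3 / 4 : ℝ) := Real.rpow_le_rpow_of_exponent_le hu1.le (by norm_num)
  have h8 : (u : ℝ) / Real.log u * Real.exp (-B) ≤ u / Real.log u * Real.exp (-ss) := by
    have : Real.exp (-B) ≤ Real.exp (-ss) := Real.exp_le_exp.mpr (by linarith)
    gcongr
  have h9 : 257 * (u : ℝ) / Real.log u * Real.exp (-ss) =
    256 * u / Real.log u * Real.exp (-ss) + u / Real.log u * Real.exp (-ss) := by ring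
  rw [h9]
  linarith

end Pool.Agent.Helper601.HK
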