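import Mathlib
import Pool.Agent.Helper601.HKDefs

set_option autoImplicit false

namespace Pool.Agent.Helper601.HK



theorem HK1_not_dvd_choose_small (q a b : ℕ) (hq : q.Prime) (hb : b ≤ a) (ha : a < q) :
    ¬ q ∣ a.choose b := by
  intro h
  have h1 : a.choose b ∣ a.factorial := by
    rw [← Nat.choose_mul_factorial_mul_factorial hb, mul_assoc]
    exact dvd_mul_right _ _
  have h2 : q ∣ a.factorial := h.trans h1
  rw [hq.dvd_factorial] at h2
  omega

theorem HK1_step (q n k : ℕ) (hq : q.Prime) (h1 : k % q ≤ n % q)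
    (h2 : ¬ q ∣ (n / q).choose (k / q)) : ¬ q ∣ n.choose k := by
  have : Fact q.Prime := ⟨hq⟩
  intro h
  have hL := Choose.choose_modEq_choose_mod_mul_choose_div_nat (n := n) (k := k) (p := q)
  have h3 : q ∣ (n % q).choose (k % q) * (n / q).choose (k / q) :=
    (Nat.modEq_zero_iff_dvd).mp (hL.symm.trans ((Nat.modEq_zero_iff_dvd).mpr h))
  rcases hq.dvd_mul.mp h3 with h4 | h4
  · exact HK1_not_dvd_choose_small q _ _ hq h1 (Nat.mod_lt _ hq.pos) h4
  · exact h2 h4

theorem HK1_all (q : ℕ) (hq : q.Prime) : ∀ (J n k : ℕ), k < q ^ J → q ^ J ∣ n + 1 →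
    ¬ q ∣ n.choose k := by
  intro J
  induction J with
  | zero =>
    intro n k hk _
    have : k = 0 := by simpa using hk
    subst this
    simpa using hq.one_lt.ne'
  | succ J ih =>
    intro n k hk hn
    have hqn : q ∣ n + 1 := (dvd_pow_self q (Nat.succ_ne_zero J)).trans hn
    have hmod : n % q = q - 1 := by
      have h0 := hq.pos
      obtain ⟨c, hc⟩ := hqn
      have hc0 : c ≠ 0 := by rintro rfl; omega
      obtain ⟨c', rfl⟩ := Nat.exists_eq_succ_of_ne_zero hc0
      have : n = (q - 1) + q * c' := by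
        have : q * (c' + 1) = q * c' + q := by ring
        simp only [Nat.succ_eq_add_one] at hc
        omega
      rw [this, Nat.add_mul_mod_self_left]
      exact Nat.mod_eq_of_lt (by omega)
    refine HK1_step q n k hq ?_ (ih (n / q) (k / q) ?_ ?_)
    · rw [hmod]
      have := Nat.mod_lt k hq.pos
      omega
    · rw [Nat.div_lt_iff_lt_mul hq.pos]
      simpa [pow_succ] using hk
    · have h5 : n + 1 = q * (n / q + 1) := by
        have := Nat.div_add_mod n q
        have h0 := hq.pos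
        have h7 : q * (n / q + 1) = q * (n / q) + q := by ring
        omega
      rw [h5, pow_succ'] at hn
      exact Nat.dvd_of_mul_dvd_mul_left hq.pos hn

theorem reduction (k : ℕ) (hk : 1 ≤ k) (c : ℕ → ℕ)
    (h1 : ∀ q : ℕ, q.Prime → q ≤ k → k % q < c q ∧ c q ≤ q)
    (h2 : ∀ t : ℕ, 1 ≤ t → t ≤ k → ∃ q : ℕ, q.Prime ∧ q ≤ k ∧ t ≡ c q [MOD q]) :
    ∃ n : ℕ, 2 * k ≤ n ∧ ∀ i : ℕ, i < k → ¬ (n - i) ∣ n.choose k := by
  classical
  let P : Finset ℕ := (Finset.range (k + 1)).filter Nat.Prime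
  have hP : ∀ q ∈ P, q.Prime := fun q hq => (Finset.mem_filter.mp hq).2
  have hs : ∀ q ∈ P, q ^ k ≠ 0 := fun q hq => pow_ne_zero _ (hP q hq).ne_zero
  have pp : Set.Pairwise (P : Set ℕ) (Function.onFun Nat.Coprime (fun q => q ^ k)) := by
    intro p hp q hq hpq
    exact Nat.Coprime.pow _ _ ((Nat.coprime_primes (hP p (by simpa using hp))
      (hP q (by simpa using hq))).mpr hpq)
  obtain ⟨n0, hn0⟩ := Nat.chineseRemainderOfFinset (fun q => (c q - 1) + (q ^ k - q))
    (fun q => q ^ k) P hs pp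
  let n := n0 + 2 * k * ∏ q ∈ P, q ^ k
  have hprod : 1 ≤ ∏ q ∈ P, q ^ k := Finset.one_le_prod' (fun q hq => Nat.one_le_iff_ne_zero.mpr (hs q hq))
  have hn2 : 2 * k ≤ n := by
    have : 2 * k * 1 ≤ 2 * k * ∏ q ∈ P, q ^ k := Nat.mul_le_mul_left _ hprod
    simp only [n]
    omega
  have hn : ∀ q ∈ P, n ≡ (c q - 1) + (q ^ k - q) [MOD q ^ k] := by
    intro q hq
    have hd : q ^ k ∣ 2 * k * ∏ q ∈ P, q ^ k :=
      (Finset.dvd_prod_of_mem (fun q => q ^ k) hq).mul_left _
    have h3 : 2 * k * ∏ q ∈ P, q ^ k ≡ 0 [MOD q ^ k] := (Nat.modEq_zero_iff_dvd).mpr hd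
    have := (hn0 q hq).add h3
    simpa [n] using this
  refine ⟨n, hn2, fun i hi hdvd => ?_⟩
  obtain ⟨q, hq, hqk, hcong⟩ := h2 (i + 1) (by omega) (by omega)
  have hqP : q ∈ P := Finset.mem_filter.mpr ⟨Finset.mem_range.mpr (by omega), hq⟩
  have hnq := hn q hqP
  obtain ⟨hc1, hc2⟩ := h1 q hq hqk
  have hq0 := hq.pos
  have hqd : q ∣ q ^ k := dvd_pow_self q (by omega)
  have hqle : q ≤ q ^ k := Nat.le_of_dvd (pow_pos hq0 _) hqd
  have hmodq : n ≡ c q - 1 [MOD q] := by
    have h4 : n ≡ (c q - 1) + (q ^ k - q) [MOD q] := hnq.of_dvd hqd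
    have h5 : q ^ k - q ≡ 0 [MOD q] := (Nat.modEq_zero_iff_dvd).mpr (Nat.dvd_sub hqd dvd_rfl)
    have h6 := (Nat.ModEq.refl (n := q) (c q - 1)).add h5
    rw [add_zero] at h6
    exact h4.trans h6
  have hnmod : n % q = c q - 1 := by
    rw [hmodq]
    exact Nat.mod_eq_of_lt (by omega)
  have hkq : k < q ^ k := Nat.lt_pow_self hq.one_lt
  obtain ⟨j, rfl⟩ : ∃ j, k = j + 1 := ⟨k - 1, by omega⟩
  have hnot : ¬ q ∣ n.choose (j + 1) := by
    refine HK1_step q n (j + 1) hq (by rw [hnmod]; omega)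
      (HK1_all q hq j (n / q) ((j + 1) / q) ?_ ?_)
    · rw [Nat.div_lt_iff_lt_mul hq.pos]
      simpa [pow_succ] using hkq
    · have h7 : q ^ (j + 1) ∣ n + (q - (c q - 1)) := by
        have h8 := hnq.add_right (q - (c q - 1))
        have h9 : (c q - 1) + (q ^ (j + 1) - q) + (q - (c q - 1)) = q ^ (j + 1) := by omega
        rw [h9] at h8
        exact (Nat.modEq_zero_iff_dvd).mp (h8.trans ((Nat.modEq_zero_iff_dvd).mpr dvd_rfl))
      have h10 : n + (q - (c q - 1)) = q * (n / q + 1) := by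
        have h11 := Nat.div_add_mod n q
        have h12 : q * (n / q + 1) = q * (n / q) + q := by ring
        omega
      rw [h10, pow_succ'] at h7
      exact Nat.dvd_of_mul_dvd_mul_left hq.pos h7
  apply hnot
  refine dvd_trans ?_ hdvd
  have h13 : n ≡ i [MOD q] := by
    refine hmodq.trans ?_
    have h14 : i + 1 ≡ (c q - 1) + 1 [MOD q] := by
      have : c q - 1 + 1 = c q := by omega
      rw [this]
      exact hcong
    exact (Nat.ModEq.add_right_cancel' 1 h14).symm
  exact (Nat.modEq_iff_dvd' (by omega)).mp h13.symm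

end Pool.Agent.Helper601.HK
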