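import Mathlib

set_option autoImplicit false

namespace Pool.Agent.Helper601.HK

theorem pnt_interval_card (k u : ℕ) :
    Nat.primeCounting k ≤ Nat.primeCounting (k - u) +
      ((Finset.Ioo (k - u) k).filter Nat.Prime).card + 1 := by
  have hpc : ∀ m : ℕ, Nat.primeCounting m = ((Finset.range (m + 1)).filter Nat.Prime).card := by
    intro m
    rw [Nat.primeCounting, Nat.primeCounting', Nat.count_eq_card_filter_range]
  rw [hpc, hpc]
  have hsub : (Finset.range (k + 1)).filter Nat.Prime ⊆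
      ((Finset.range (k - u + 1)).filter Nat.Prime ∪ (Finset.Ioo (k - u) k).filter Nat.Prime) ∪
        {k} := by
    intro p hp
    simp only [Finset.mem_filter, Finset.mem_range, Finset.mem_union, Finset.mem_Ioo,
      Finset.mem_singleton] at hp ⊢
    rcases lt_trichotomy p k with h | h | h
    · left
      by_cases h2 : p < k - u + 1
      · left; exact ⟨h2, hp.2⟩
      · right; exact ⟨⟨by omega, h⟩, hp.2⟩
    · right; exact h
    · omega
  refine (Finset.card_le_card hsub).trans ((Finset.card_union_le _ _).trans ?_)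
  rw [Finset.card_singleton]
  have := Finset.card_union_le ((Finset.range (k - u + 1)).filter Nat.Prime)
    ((Finset.Ioo (k - u) k).filter Nat.Prime)
  omega

open Filter Topology in
/-- `pnt` is the prime number theorem (proved elsewhere). -/
theorem pnt_interval
    (pnt : Tendsto (fun x : ℝ => (Nat.primeCounting ⌊x⌋₊ : ℝ) * Real.log x / x) atTop (𝓝 1))
    (K : ℕ) (hK : 1 ≤ K) : ∃ k0 : ℕ, ∀ k : ℕ, k0 ≤ k → ∀ u : ℕ, k ≤ u * K → 2 * u ≤ k →
    3 / 4 * (u : ℝ) / Real.log k ≤ (((Finset.Ioo (k - u) k).filter Nat.Prime).card : ℝ) := by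
  have hK' : (1 : ℝ) ≤ K := by exact_mod_cast hK
  set ε : ℝ := 1 / (32 * K) with hε
  have hε0 : 0 < ε := by positivity
  have hεK : ε * K = 1 / 32 := by rw [hε]; field_simp
  have hε1 : ε ≤ 1 / 32 := by
    rw [← hεK]; nlinarith
  -- eventual bounds
  have ev1 : ∀ᶠ x : ℝ in atTop, |(Nat.primeCounting ⌊x⌋₊ : ℝ) * Real.log x / x - 1| < ε := by
    have := (Metric.tendsto_nhds.1 pnt) ε hε0
    simpa only [Real.dist_eq] using this
  obtain ⟨x0, hx0⟩ := eventually_atTop.1 ev1
  have ev2 : ∀ᶠ x : ℝ in atTop, (1 + ε) / ε * Real.log 2 ≤ Real.log x :=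
    Real.tendsto_log_atTop.eventually_ge_atTop _
  have ev3 : ∀ᶠ x : ℝ in atTop, Real.log x ≤ (1 / (8 * K)) * x := by
    have h1 := Real.isLittleO_log_id_atTop.bound (show (0 : ℝ) < 1 / (8 * K) by positivity)
    filter_upwards [h1, eventually_ge_atTop (0 : ℝ)] with x hx hx1
    simp only [id] at hx
    rw [Real.norm_of_nonneg hx1] at hx
    exact (le_abs_self _).trans hx
  have ev4 : ∀ᶠ x : ℝ in atTop, max (2 * x0) 4 ≤ x := eventually_ge_atTop _
  have ev := tendsto_natCast_atTop_atTop (R := ℝ) |>.eventually (ev2.and (ev3.and ev4))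
  obtain ⟨k0, hk0⟩ := eventually_atTop.1 ev
  refine ⟨k0, fun k hk u hu1 hu2 => ?_⟩
  obtain ⟨h2, h3, h4⟩ := hk0 k hk
  have h41 : 2 * x0 ≤ k := (le_max_left _ _).trans h4
  have h42 : (4 : ℝ) ≤ k := (le_max_right _ _).trans h4
  have hk0' : (0 : ℝ) < k := by linarith
  have hlog2 : 0 < Real.log 2 := Real.log_pos one_lt_two
  have hu1' : (k : ℝ) ≤ u * K := by exact_mod_cast hu1
  have hu2' : (2 : ℝ) * u ≤ k := by exact_mod_cast hu2
  set L := Real.log k with hL
  have hL0 : 0 < L := Real.log_pos (by linarith)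
  have hcast : ((k - u : ℕ) : ℝ) = (k : ℝ) - u := by
    rw [Nat.cast_sub]; omega
  set m : ℝ := (k : ℝ) - u with hm
  have hm2 : (k : ℝ) / 2 ≤ m := by rw [hm]; linarith
  have hm0 : 0 < m := by linarith
  have hlm : L - Real.log 2 ≤ Real.log m := by
    rw [hL, ← Real.log_div hk0'.ne' (by norm_num)]
    exact Real.log_le_log (by positivity) hm2
  have hL2 : L ≤ (1 + ε) * (L - Real.log 2) := by
    rw [div_mul_eq_mul_div, div_le_iff₀ hε0] at h2
    linarith
  have hL3 : L ≤ (1 + ε) * Real.log m := hL2.trans (by gcongr)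
  have p1 := hx0 k (by linarith)
  have p2 := hx0 m (by linarith)
  rw [abs_lt] at p1 p2
  rw [Nat.floor_natCast] at p1
  have hfl : ⌊m⌋₊ = k - u := by rw [← hcast, Nat.floor_natCast]
  rw [hfl] at p2
  have q1 : (1 - ε) * k ≤ (Nat.primeCounting k : ℝ) * L := by
    have h := p1.1
    have h' : 1 - ε < (Nat.primeCounting k : ℝ) * L / k := by linarith
    rw [lt_div_iff₀ hk0'] at h'
    exact h'.le
  have q2 : (Nat.primeCounting (k - u) : ℝ) * Real.log m ≤ (1 + ε) * m := by
    have h := p2.2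
    have h' : (Nat.primeCounting (k - u) : ℝ) * Real.log m / m < 1 + ε := by linarith
    rw [div_lt_iff₀ hm0] at h'
    exact h'.le
  have hπ0 : (0 : ℝ) ≤ Nat.primeCounting (k - u) := Nat.cast_nonneg _
  have q3 : (Nat.primeCounting (k - u) : ℝ) * L ≤ (1 + 3 * ε) * m := by
    calc (Nat.primeCounting (k - u) : ℝ) * L
        ≤ (Nat.primeCounting (k - u) : ℝ) * ((1 + ε) * Real.log m) := by gcongr
      _ = (1 + ε) * ((Nat.primeCounting (k - u) : ℝ) * Real.log m) := by ring
      _ ≤ (1 + ε) * ((1 + ε) * m) := by gcongr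
      _ = ((1 + ε) * (1 + ε)) * m := by ring
      _ ≤ (1 + 3 * ε) * m := by
        have e3 : (1 + ε) * (1 + ε) ≤ 1 + 3 * ε := by nlinarith
        gcongr
  have q4 : (Nat.primeCounting k : ℝ) ≤ Nat.primeCounting (k - u) +
      ((Finset.Ioo (k - u) k).filter Nat.Prime).card + 1 := by
    exact_mod_cast pnt_interval_card k u
  have q5 : L ≤ u / 8 := by
    have e1 : (1 / (8 * K)) * (k : ℝ) ≤ (1 / (8 * K)) * (u * K) := by gcongr
    have e2 : (1 / (8 * K)) * ((u : ℝ) * K) = u / 8 := by field_simp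
    linarith
  rw [div_le_iff₀ hL0]
  have q6 : (Nat.primeCounting k : ℝ) * L ≤ (Nat.primeCounting (k - u) : ℝ) * L +
      (((Finset.Ioo (k - u) k).filter Nat.Prime).card : ℝ) * L + L := by
    have := mul_le_mul_of_nonneg_right q4 hL0.le
    linarith
  have q7 : ε * k ≤ u / 32 := by
    have e1 : ε * (k : ℝ) ≤ ε * (u * K) := by gcongr
    have e2 : ε * ((u : ℝ) * K) = u / 32 := by
      rw [show ε * ((u : ℝ) * K) = u * (ε * K) by ring, hεK]; ring
    linarith
  have hεu : 0 ≤ ε * u := by positivity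
  rw [hm] at q3
  nlinarith

end Pool.Agent.Helper601.HK
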