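import Mathlib
import Pool.Agent.Helper601.HKDefs

set_option autoImplicit false

namespace Pool.Agent.Helper601.HK




theorem fp_rng_sum (Cm : ℝ) (hCm : ∀ N : ℕ, 3 ≤ N →
      |∑ p ∈ (Finset.Icc 1 N).filter Nat.Prime, (1 : ℝ) / p - Real.log (Real.log N)| ≤ Cm)
    (W k : ℕ) (hW : 1 ≤ W) (hk : 3 ≤ zz k) :
    |∑ r ∈ Rng W k, 1 / (r : ℝ) - Real.log W| ≤ 2 * Cm := by
  have hle : zz k ≤ zz k ^ W := Nat.le_self_pow (by omega) _
  have h1 := hCm (zz k) hk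
  have h2 := hCm (zz k ^ W) (hk.trans hle)
  have h3 : ∑ p ∈ (Finset.Icc 1 (zz k ^ W)).filter Nat.Prime, (1 : ℝ) / p =
      ∑ p ∈ (Finset.Icc 1 (zz k)).filter Nat.Prime, (1 : ℝ) / p + ∑ r ∈ Rng W k, 1 / (r : ℝ) := by
    rw [← Finset.sum_union]
    · congr 1
      ext p
      simp only [Rng, Finset.mem_union, Finset.mem_filter, Finset.mem_Icc, Finset.mem_Ioc]
      constructor
      · rintro ⟨⟨a, b⟩, c⟩
        rcases le_or_gt p (zz k) with h | h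
        · exact Or.inl ⟨⟨a, h⟩, c⟩
        · exact Or.inr ⟨⟨h, b⟩, c⟩
      · rintro (⟨⟨a, b⟩, c⟩ | ⟨⟨a, b⟩, c⟩)
        · exact ⟨⟨a, b.trans hle⟩, c⟩
        · exact ⟨⟨by omega, b⟩, c⟩
    · rw [Finset.disjoint_left]
      intro p hp hp'
      simp only [Rng, Finset.mem_filter, Finset.mem_Icc, Finset.mem_Ioc] at hp hp'
      omega
  have hz3 : (3 : ℝ) ≤ (zz k : ℝ) := by exact_mod_cast hk
  have hlz : 0 < Real.log (zz k : ℝ) := Real.log_pos (by linarith)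
  have h4 : Real.log (Real.log ((zz k ^ W : ℕ) : ℝ)) = Real.log W + Real.log (Real.log (zz k)) := by
    rw [Nat.cast_pow, Real.log_pow, Real.log_mul (by
      have : (0 : ℝ) < W := by exact_mod_cast hW
      exact this.ne') hlz.ne']
  rw [h3, h4] at h2
  rw [abs_le] at *
  constructor <;> linarith [h1.1, h1.2, h2.1, h2.2]

theorem fp_ev (K L k1 u0 : ℕ) : ∃ k0 : ℕ, ∀ k : ℕ, k0 ≤ k →
    3 ≤ zz k ∧ K * (zz k) ^ L ≤ k ∧ K * u0 ≤ k ∧ K ^ 2 ≤ k ∧ k1 ≤ k ∧ 1 < Real.log k := by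
  have hcast := tendsto_natCast_atTop_atTop (R := ℝ)
  have hlog := Real.tendsto_log_atTop.comp hcast
  have e1 : ∀ᶠ k : ℕ in Filter.atTop, (2 : ℝ) < Real.log k := hlog.eventually_gt_atTop 2
  have e2 : ∀ᶠ k : ℕ in Filter.atTop, (K : ℝ) * Real.log k ^ (2 * L) ≤ k := by
    have h1 := (Real.isLittleO_pow_log_id_atTop (n := 2 * L)).def
      (c := 1 / ((K : ℝ) + 1)) (by positivity)
    have h2 := hcast.eventually h1
    filter_upwards [h2, e1] with k hk hk1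
    simp only [id, Real.norm_eq_abs] at hk
    rw [abs_of_nonneg (by positivity), abs_of_nonneg (by positivity)] at hk
    have h3 : (0 : ℝ) ≤ Real.log k ^ (2 * L) := by positivity
    have h4 : ((K : ℝ) + 1) * Real.log k ^ (2 * L) ≤ k := by
      have := mul_le_mul_of_nonneg_left hk (by positivity : (0 : ℝ) ≤ (K : ℝ) + 1)
      have e : ((K : ℝ) + 1) * (1 / ((K : ℝ) + 1) * (k : ℝ)) = k := by
        field_simp
      rwa [e] at this
    nlinarith
  obtain ⟨k0, hk0⟩ := Filter.eventually_atTop.1 (e1.and (e2.and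
    ((Filter.eventually_ge_atTop (K * u0)).and ((Filter.eventually_ge_atTop (K ^ 2)).and
      (Filter.eventually_ge_atTop k1)))))
  refine ⟨k0, fun k hk => ?_⟩
  obtain ⟨h1, h2, h3, h4, h5⟩ := hk0 k hk
  have hlog0 : 0 ≤ Real.log k ^ 2 := by positivity
  have hzz : (zz k : ℝ) ≤ Real.log k ^ 2 := Nat.floor_le hlog0
  refine ⟨?_, ?_, h3, h4, h5, by linarith⟩
  · rw [zz]
    apply Nat.le_floor
    push_cast
    nlinarith
  · have h6 : ((K * zz k ^ L : ℕ) : ℝ) ≤ k := by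
      push_cast
      calc (K : ℝ) * (zz k : ℝ) ^ L ≤ K * (Real.log k ^ 2) ^ L := by
            gcongr
        _ = K * Real.log k ^ (2 * L) := by rw [← pow_mul]
        _ ≤ k := h2
    exact_mod_cast h6

open Classical in
/-- `sieve_two` (a Selberg sieve bound), `pnt_interval` and `mertens` are proved elsewhere. -/
theorem free_primes
    (sieve_two : ∃ C : ℝ, 1 ≤ C ∧ ∀ B : ℝ, 0 ≤ B → ∃ m u0 : ℕ, ∀ (R : Finset ℕ) (z a u : ℕ),
      u0 ≤ u → z ^ m ≤ u → (∀ r ∈ R, r.Prime ∧ 3 ≤ r ∧ r ≤ z) → (∑ r ∈ R, 1 / (r : ℝ)) ≤ B →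
      (((Finset.Ioc a (a + u)).filter (fun n => n.Prime ∧ ∀ r ∈ R, ¬ r ∣ n + 1)).card : ℝ) ≤
        C * u / Real.log u * Real.exp (-∑ r ∈ R, 1 / (r : ℝ)))
    (pnt_interval : ∀ K : ℕ, 1 ≤ K → ∃ k0 : ℕ, ∀ k : ℕ, k0 ≤ k → ∀ u : ℕ, k ≤ u * K → 2 * u ≤ k →
      3 / 4 * (u : ℝ) / Real.log k ≤ (((Finset.Ioo (k - u) k).filter Nat.Prime).card : ℝ))
    (mertens : ∃ C : ℝ, ∀ N : ℕ, 3 ≤ N →
      |∑ p ∈ (Finset.Icc 1 N).filter Nat.Prime, (1 : ℝ) / p - Real.log (Real.log N)| ≤ C) :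
    ∃ W : ℕ, 1 ≤ W ∧ ∀ K : ℕ, 1 ≤ K → ∃ k0 : ℕ, ∀ k : ℕ, k0 ≤ k →
    ∀ R : Finset ℕ, R ⊆ Rng W k → (∑ r ∈ Rng W k \ R, 1 / (r : ℝ)) ≤ 1 →
    ∀ u : ℕ, k ≤ u * K → 2 * u ≤ k → (u : ℝ) / (4 * Real.log k) ≤
      (((Finset.Ioo (k - u) k).filter (fun q => q.Prime ∧ ∃ r ∈ R, r ∣ q + 1)).card : ℝ) := by
  obtain ⟨Cs, hCs1, hCs⟩ := sieve_two
  obtain ⟨Cm, hCm⟩ := mertens
  have hCm0 : 0 ≤ Cm := (abs_nonneg _).trans (hCm 3 le_rfl)
  obtain ⟨W, hW⟩ := exists_nat_ge (8 * Cs * Real.exp (2 * Cm + 1))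
  have hWpos : (0 : ℝ) < W := by
    have : (0 : ℝ) < 8 * Cs * Real.exp (2 * Cm + 1) := by positivity
    linarith
  have hW1 : 1 ≤ W := by
    have : 0 < W := by exact_mod_cast hWpos
    omega
  have hlogW : 0 ≤ Real.log W := Real.log_nonneg (by exact_mod_cast hW1)
  obtain ⟨m, u0, hm⟩ := hCs (Real.log W + 2 * Cm) (by positivity)
  refine ⟨W, hW1, fun K hK => ?_⟩
  obtain ⟨k1, hk1⟩ := pnt_interval K hK
  obtain ⟨k0, hk0⟩ := fp_ev K (W * m) k1 (max u0 1)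
  refine ⟨k0, fun k hk R hR hRs u hu1 hu2 => ?_⟩
  obtain ⟨h3, h4, h5, h6, h7, h8⟩ := hk0 k hk
  have hKu : ∀ a : ℕ, K * a ≤ k → a ≤ u := by
    intro a ha
    have : K * a ≤ K * u := by
      calc K * a ≤ k := ha
        _ ≤ u * K := hu1
        _ = K * u := mul_comm _ _
    exact Nat.le_of_mul_le_mul_left this hK
  have hu0 : u0 ≤ u := (le_max_left _ _).trans (hKu _ h5)
  have hu1' : 1 ≤ u := (le_max_right _ _).trans (hKu _ h5)
  have hzu : (zz k ^ W) ^ m ≤ u := by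
    rw [← pow_mul]
    exact hKu _ h4
  have hsum := abs_le.1 (fp_rng_sum Cm hCm W k hW1 h3)
  have hsplit : ∑ r ∈ Rng W k, 1 / (r : ℝ) = ∑ r ∈ Rng W k \ R, 1 / (r : ℝ) +
      ∑ r ∈ R, 1 / (r : ℝ) := (Finset.sum_sdiff hR).symm
  have hnn : 0 ≤ ∑ r ∈ Rng W k \ R, 1 / (r : ℝ) :=
    Finset.sum_nonneg (fun r _ => by positivity)
  have hlow : Real.log W - 2 * Cm - 1 ≤ ∑ r ∈ R, 1 / (r : ℝ) := by linarith [hsum.1]
  have hup : ∑ r ∈ R, 1 / (r : ℝ) ≤ Real.log W + 2 * Cm := by linarith [hsum.2]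
  have hRp : ∀ r ∈ R, r.Prime ∧ 3 ≤ r ∧ r ≤ zz k ^ W := by
    intro r hr
    have := hR hr
    simp only [Rng, Finset.mem_filter, Finset.mem_Ioc] at this
    exact ⟨this.2, by omega, this.1.2⟩
  have hsieve := hm R (zz k ^ W) (k - u) u hu0 hzu hRp hup
  have hpnt := hk1 k h7 u hu1 hu2
  -- logarithms
  have hku2 : k ≤ u ^ 2 := by
    have e1 : k * k ≤ (u * K) * (u * K) := Nat.mul_le_mul hu1 hu1
    have e2 : (u * K) * (u * K) ≤ u ^ 2 * k := by
      calc (u * K) * (u * K) = u ^ 2 * K ^ 2 := by ring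
        _ ≤ u ^ 2 * k := Nat.mul_le_mul_left _ h6
    have hkpos : 0 < k := by omega
    exact Nat.le_of_mul_le_mul_right (e1.trans e2) hkpos
  have hkpos : 0 < k := by omega
  have hlogu : Real.log k / 2 ≤ Real.log u := by
    have : Real.log k ≤ Real.log ((u : ℝ) ^ 2) :=
      Real.log_le_log (by exact_mod_cast hkpos) (by exact_mod_cast hku2)
    rw [Real.log_pow] at this
    push_cast at this
    linarith
  have hupos : (0 : ℝ) < u := by exact_mod_cast hu1'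
  have hlogupos : 0 < Real.log u := by linarith
  have hexp : Real.exp (-∑ r ∈ R, 1 / (r : ℝ)) ≤ Real.exp (2 * Cm + 1) / W := by
    calc Real.exp (-∑ r ∈ R, 1 / (r : ℝ)) ≤ Real.exp (2 * Cm + 1 - Real.log W) :=
          Real.exp_le_exp.2 (by linarith)
      _ = Real.exp (2 * Cm + 1) / W := by rw [Real.exp_sub, Real.exp_log hWpos]
  have hbad : (((Finset.Ioc (k - u) (k - u + u)).filter
      (fun n => n.Prime ∧ ∀ r ∈ R, ¬ r ∣ n + 1)).card : ℝ) ≤ 1 / 4 * (u : ℝ) / Real.log k := by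
    refine hsieve.trans ?_
    have e1 : Cs * u / Real.log u * Real.exp (-∑ r ∈ R, 1 / (r : ℝ)) ≤
        Cs * u / Real.log u * (Real.exp (2 * Cm + 1) / W) :=
      mul_le_mul_of_nonneg_left hexp (by positivity)
    refine e1.trans ?_
    have e2 : Cs * Real.exp (2 * Cm + 1) / W ≤ 1 / 8 := by
      rw [div_le_iff₀ hWpos]
      linarith
    have e3 : Cs * u / Real.log u * (Real.exp (2 * Cm + 1) / W) =
        (Cs * Real.exp (2 * Cm + 1) / W) * (u / Real.log u) := by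
      field_simp
    rw [e3]
    calc (Cs * Real.exp (2 * Cm + 1) / W) * (u / Real.log u) ≤ 1 / 8 * (u / Real.log u) :=
          mul_le_mul_of_nonneg_right e2 (by positivity)
      _ ≤ 1 / 8 * (u / (Real.log k / 2)) := by
          apply mul_le_mul_of_nonneg_left _ (by norm_num)
          exact div_le_div_of_nonneg_left hupos.le (by linarith) hlogu
      _ = 1 / 4 * (u : ℝ) / Real.log k := by
          field_simp
          norm_num
  have hcount : ((Finset.Ioo (k - u) k).filter Nat.Prime).card ≤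
      ((Finset.Ioo (k - u) k).filter (fun q => q.Prime ∧ ∃ r ∈ R, r ∣ q + 1)).card +
      ((Finset.Ioc (k - u) (k - u + u)).filter
        (fun n => n.Prime ∧ ∀ r ∈ R, ¬ r ∣ n + 1)).card := by
    refine (Finset.card_le_card ?_).trans (Finset.card_union_le _ _)
    intro q hq
    rw [Finset.mem_filter, Finset.mem_Ioo] at hq
    rw [Finset.mem_union, Finset.mem_filter, Finset.mem_filter, Finset.mem_Ioo, Finset.mem_Ioc]
    by_cases h : ∃ r ∈ R, r ∣ q + 1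
    · exact Or.inl ⟨hq.1, hq.2, h⟩
    · right
      refine ⟨⟨hq.1.1, by omega⟩, hq.2, ?_⟩
      intro r hr hd
      exact h ⟨r, hr, hd⟩
  have hcount' : (((Finset.Ioo (k - u) k).filter Nat.Prime).card : ℝ) ≤
      ((Finset.Ioo (k - u) k).filter (fun q => q.Prime ∧ ∃ r ∈ R, r ∣ q + 1)).card +
      ((Finset.Ioc (k - u) (k - u + u)).filter
        (fun n => n.Prime ∧ ∀ r ∈ R, ¬ r ∣ n + 1)).card := by exact_mod_cast hcount
  have hlk : 0 < Real.log k := by linarith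
  have e5 : (u : ℝ) / (4 * Real.log k) ≤ 3 / 4 * (u : ℝ) / Real.log k - 1 / 4 * (u : ℝ) / Real.log k := by
    rw [← sub_div, div_le_div_iff₀ (by positivity) hlk]
    nlinarith
  linarith

end Pool.Agent.Helper601.HK
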