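import Mathlib
import Pool.Agent.Helper601.HKDefs

set_option autoImplicit false

namespace Pool.Agent.Helper601.HK



theorem covering (κ : ℝ) (k p p' X U : ℕ) (R T F : Finset ℕ) (τ σ : ℕ → ℕ)
    (hp : p.Prime) (hp2 : p ≠ 2) (hpk : p ∣ k) (hp' : p'.Prime) (hp'k : p' ∣ k) (hpp' : p' ≠ p)
    (hR : ∀ r ∈ R, r.Prime ∧ ¬ r ∣ k ∧ ¬ r ∣ k + 1) (hk : 1 < k)
    (hT : Inv κ k (insert p R) X U T τ)
    (hF : ∀ q ∈ F, q.Prime ∧ q < k ∧ 1 < σ q ∧ σ q < k ∧ k - q < ht k (σ q) ∧
      ∃ r ∈ R, r ∉ T ∧ r ∣ q + 1)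
    (hFc : ∀ t : ℕ, 1 < t → t < k → U < ht k t → Sm (insert p R ∪ T) t → ∃ q ∈ F, σ q = t) :
    ∃ c : ℕ → ℕ, (∀ q : ℕ, q.Prime → q ≤ k → k % q < c q ∧ c q ≤ q) ∧
      (∀ t : ℕ, 1 ≤ t → t ≤ k → ∃ q : ℕ, q.Prime ∧ q ≤ k ∧ t ≡ c q [MOD q]) := by
  classical
  -- facts on F
  have hFa : ∀ q ∈ F, k < 2 * q ∧ q < k ∧ k - q < σ q ∧ σ q < q := by
    intro q hq
    obtain ⟨h1, h2, h3, h4, h5, _⟩ := hF q hq
    unfold ht at h5
    have := min_le_left (σ q) (k - σ q)
    have := min_le_right (σ q) (k - σ q)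
    omega
  -- facts on T
  have hTa : ∀ q ∈ T, ∃ s, 1 ≤ s ∧ s < ht k (τ q) ∧ ht k (τ q) < q ∧ q ∣ k - s ∧ 2 * q ≤ k - s ∧
      k % q = s := by
    intro q hq
    obtain ⟨s, h1, h2, h3, h4⟩ := hT.wit q hq
    have h5 := hT.lt q hq
    have h6 := hT.mem q hq
    have hlt : s < k := by
      unfold ht at h2
      have := min_le_left (τ q) (k - τ q)
      omega
    have hq2 : q ≠ 2 := hT.odd q hq
    have hqp := hT.prime q hq
    have hcop : Nat.Coprime 2 q := (Nat.coprime_primes Nat.prime_two hqp).2 (Ne.symm hq2)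
    have hdvd : 2 * q ∣ k - s := hcop.mul_dvd_of_dvd_of_dvd h4 h3
    have hle : 2 * q ≤ k - s := Nat.le_of_dvd (by omega) hdvd
    refine ⟨s, h1, h2, h5, h3, hle, ?_⟩
    obtain ⟨m, hm⟩ := h3
    have : k = s + q * m := by omega
    rw [this, Nat.add_mul_mod_self_left, Nat.mod_eq_of_lt (by omega)]
  have hTF : ∀ q ∈ T, q ∉ F := by
    intro q hq hq'
    obtain ⟨s, h1, h2, h3, h4, h5, h6⟩ := hTa q hq
    have := (hFa q hq').1
    omega
  have hdF : ∀ q ∈ F, ¬ q ∣ k := by
    rintro q hq ⟨m, hm⟩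
    have h := hFa q hq
    have h1 : m < 2 := by
      by_contra hc
      push Not at hc
      have : q * 2 ≤ q * m := Nat.mul_le_mul_left _ hc
      omega
    interval_cases m <;> omega
  have hdT : ∀ q ∈ T, ¬ q ∣ k := by
    intro q hq hd
    obtain ⟨s, h1, h2, h3, h4, h5, h6⟩ := hTa q hq
    rw [Nat.mod_eq_zero_of_dvd hd] at h6
    omega
  have hpR : p ∉ R := fun h => (hR p h).2.1 hpk
  have hpF : p ∉ F := fun h => hdF p h hpk
  have hpT : p ∉ T := fun h => hdT p h hpk
  have hp'R : p' ∉ R := fun h => (hR p' h).2.1 hp'k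
  have hp'F : p' ∉ F := fun h => hdF p' h hp'k
  have hp'T : p' ∉ T := fun h => hdT p' h hp'k
  let c : ℕ → ℕ := fun q => if q ∈ F then σ q else if q ∈ T then τ q % q else if q = p then 1
    else if q ∈ R then q - 1 else q
  have cF : ∀ q ∈ F, c q = σ q := fun q hq => by simp [c, hq]
  have cT : ∀ q ∈ T, c q = τ q % q := fun q hq => by simp [c, hq, hTF q hq]
  have cp : c p = 1 := by simp [c, hpF, hpT]
  have cR : ∀ q ∈ R, q ∉ F → q ∉ T → q ≠ p → c q = q - 1 := fun q h1 h2 h3 h4 => by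
    simp [c, h1, h2, h3, h4]
  have cE : ∀ q, q ∉ F → q ∉ T → q ≠ p → q ∉ R → c q = q := fun q h2 h3 h4 h1 => by
    simp [c, h1, h2, h3, h4]
  refine ⟨c, ?_, ?_⟩
  · intro q hq hqk
    by_cases h1 : q ∈ F
    · rw [cF q h1]
      have h := hFa q h1
      have hm : k % q = k - q := by
        have e : k = (k - q) + q := by omega
        conv_lhs => rw [e]
        rw [Nat.add_mod_right, Nat.mod_eq_of_lt (by omega)]
      omega
    by_cases h2 : q ∈ T
    · rw [cT q h2]
      obtain ⟨s, g1, g2, g3, g4, g5, g6⟩ := hTa q h2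
      have h6 := hT.mem q h2
      have hlt : τ q % q < q := Nat.mod_lt _ hq.pos
      refine ⟨?_, hlt.le⟩
      rw [g6]
      unfold ht at g2 g3
      rcases min_choice (τ q) (k - τ q) with hm | hm
      · rw [hm] at g2 g3
        rw [Nat.mod_eq_of_lt g3]
        exact g2
      · rw [hm] at g2 g3
        obtain ⟨m, hm'⟩ := g4
        have hm1 : 1 ≤ m := by
          by_contra hc
          have : m = 0 := by omega
          subst this
          omega
        obtain ⟨m', rfl⟩ := Nat.exists_eq_add_of_le hm1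
        have e : τ q = (q + s - (k - τ q)) + q * m' := by
          have : q * (1 + m') = q + q * m' := by ring
          omega
        rw [e, Nat.add_mul_mod_self_left, Nat.mod_eq_of_lt (by omega)]
        omega
    by_cases h3 : q = p
    · subst h3
      rw [cp, Nat.mod_eq_zero_of_dvd hpk]
      exact ⟨one_pos, hq.one_lt.le⟩
    by_cases h4 : q ∈ R
    · rw [cR q h4 h1 h2 h3]
      refine ⟨?_, Nat.sub_le _ _⟩
      have hlt : k % q < q := Nat.mod_lt _ hq.pos
      have hne : k % q ≠ q - 1 := by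
        intro he
        apply (hR q h4).2.2
        rw [Nat.dvd_iff_mod_eq_zero, Nat.add_mod, he]
        have h1q : 1 % q = 1 := Nat.mod_eq_of_lt hq.one_lt
        rw [h1q]
        have : q - 1 + 1 = q := by omega
        rw [this, Nat.mod_self]
      omega
    · rw [cE q h1 h2 h3 h4]
      exact ⟨Nat.mod_lt _ hq.pos, le_rfl⟩
  · intro t ht1 htk
    by_cases hteq : t = k
    · refine ⟨p', hp', Nat.le_of_dvd (by omega) hp'k, ?_⟩
      rw [cE p' hp'F hp'T hpp' hp'R, hteq]
      rw [Nat.ModEq, Nat.mod_eq_zero_of_dvd hp'k, Nat.mod_self]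
    by_cases ht1' : t = 1
    · refine ⟨p, hp, Nat.le_of_dvd (by omega) hpk, ?_⟩
      rw [cp, ht1']
    have hlt1 : 1 < t := by omega
    have hltk : t < k := by omega
    by_cases hA : ∃ l : ℕ, l.Prime ∧ l ∣ t ∧ l ∉ F ∧ l ∉ T ∧ l ≠ p ∧ l ∉ R
    · obtain ⟨l, hl, hlt, h1, h2, h3, h4⟩ := hA
      refine ⟨l, hl, (Nat.le_of_dvd (by omega) hlt).trans htk, ?_⟩
      rw [cE l h1 h2 h3 h4, Nat.ModEq, Nat.mod_eq_zero_of_dvd hlt, Nat.mod_self]
    push Not at hA
    by_cases hB : ∃ q ∈ F, q ∣ t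
    · obtain ⟨q, hq, m, hm⟩ := hB
      have h := hFa q hq
      have hm2 : m < 2 := by
        by_contra hc
        push Not at hc
        have : q * 2 ≤ q * m := Nat.mul_le_mul_left _ hc
        omega
      have htq : t = q := by
        interval_cases m
        · omega
        · omega
      obtain ⟨hqp, _, _, _, _, r, hrR, hrT, hrd⟩ := hF q hq
      have hrp : r.Prime := (hR r hrR).1
      have hrne : r ≠ p := by
        rintro rfl
        exact hpR hrR
      have hrk : r ≤ k := (Nat.le_of_dvd (by omega) hrd).trans (by omega)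
      have hrF : r ∉ F := by
        intro hrF
        have h' := hFa r hrF
        obtain ⟨j, hj⟩ := hrd
        have hj2 : j < 2 := by
          by_contra hc
          push Not at hc
          have : r * 2 ≤ r * j := Nat.mul_le_mul_left _ hc
          omega
        have hrq : r = q + 1 := by
          interval_cases j <;> omega
        rcases hqp.eq_two_or_odd with h2 | h2
        · omega
        · rcases hrp.eq_two_or_odd with h3 | h3
          · have := hqp.two_le
            omega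
          · omega
      refine ⟨r, hrp, hrk, ?_⟩
      rw [cR r hrR hrF hrT hrne, htq]
      have h1 : q + 1 ≡ (r - 1) + 1 [MOD r] := by
        have e : r - 1 + 1 = r := by have := hrp.pos; omega
        rw [e, Nat.ModEq, Nat.mod_eq_zero_of_dvd hrd, Nat.mod_self]
      exact Nat.ModEq.add_right_cancel' 1 h1
    push Not at hB
    have hSm : Sm (insert p R ∪ T) t := by
      intro l hl hlt
      have h1 : l ∉ F := fun h => hB l h hlt
      by_cases h2 : l ∈ T
      · exact Finset.mem_union_right _ h2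
      · apply Finset.mem_union_left
        rw [Finset.mem_insert]
        by_cases h3 : l = p
        · exact Or.inl h3
        · exact Or.inr (hA l hl hlt h1 h2 h3)
    by_cases hU : ht k t ≤ U
    · obtain ⟨q, hq, hqt⟩ := hT.complete t hlt1 hltk hU hSm
      obtain ⟨s, g1, g2, g3, g4, g5, g6⟩ := hTa q hq
      refine ⟨q, hT.prime q hq, by omega, ?_⟩
      rw [cT q hq, hqt]
      exact (Nat.mod_modEq t q).symm
    · push Not at hU
      obtain ⟨q, hq, hqt⟩ := hFc t hlt1 hltk hU hSm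
      refine ⟨q, (hF q hq).1, (hF q hq).2.1.le, ?_⟩
      rw [cF q hq, hqt]

end Pool.Agent.Helper601.HK

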