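import Mathlib

set_option autoImplicit false

open Nat

namespace Pool.Agent.Helper601.HK

theorem erdos_prod_aux (h a : ℕ) (ha : a < h) :
    ∏ j ∈ (Finset.range h).erase a, ((j - a) + (a - j)) = a ! * (h - 1 - a)! := by
  have h1 : (Finset.range h).erase a = Finset.range a ∪ (Finset.range (h - 1 - a)).image (fun i => a + 1 + i) := by
    ext j
    simp only [Finset.mem_erase, Finset.mem_range, Finset.mem_union, Finset.mem_image]
    constructor
    · rintro ⟨h2, h3⟩
      by_cases h4 : j < a
      · exact Or.inl h4
      · exact Or.inr ⟨j - (a + 1), by omega, by omega⟩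
    · rintro (h2 | ⟨i, hi, rfl⟩) <;> omega
  have h2 : Disjoint (Finset.range a) ((Finset.range (h - 1 - a)).image (fun i => a + 1 + i)) := by
    rw [Finset.disjoint_left]
    intro j hj hj'
    simp only [Finset.mem_range, Finset.mem_image] at hj hj'
    obtain ⟨i, _, rfl⟩ := hj'
    omega
  rw [h1, Finset.prod_union h2, Finset.prod_image (fun x _ y _ hxy => by simpa using hxy)]
  congr 1
  · rw [← Nat.descFactorial_self, Nat.descFactorial_eq_prod_range]
    refine Finset.prod_congr rfl fun j hj => ?_
    have := Finset.mem_range.mp hj
    omega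
  · rw [← Finset.prod_range_add_one_eq_factorial]
    refine Finset.prod_congr rfl fun j hj => ?_
    omega

open Classical in
theorem erdos_lemma (M h z : ℕ) (hh : 1 ≤ h) (hM : h ≤ M) :
    (M + 1 - h) ^ (((Finset.range h).filter
      (fun j => ∀ l : ℕ, l.Prime → l ∣ M - j → l ≤ z)).card - Nat.primeCounting z) ≤ (h - 1)! := by
  set B := (Finset.range h).filter (fun j => ∀ l : ℕ, l.Prime → l ∣ M - j → l ≤ z) with hB
  have hex : ∀ l : ℕ, ∃ a ∈ Finset.range h, ∀ j ∈ Finset.range h,
      (M - j).factorization l ≤ (M - a).factorization l := fun l =>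
    Finset.exists_max_image (Finset.range h) (fun j => (M - j).factorization l) ⟨0, Finset.mem_range.mpr hh⟩
  choose J hJ1 hJ2 using hex
  set E := ((Finset.range (z + 1)).filter Nat.Prime).image J with hE
  have hEc : E.card ≤ Nat.primeCounting z := by
    refine Finset.card_image_le.trans ?_
    rw [Nat.primeCounting, Nat.primeCounting', Nat.count_eq_card_filter_range]
  have hne : ∀ j ∈ B \ E, M - j ≠ 0 := by
    intro j hj
    have h1 := (Finset.mem_filter.mp (Finset.mem_sdiff.mp hj).1).1
    have := Finset.mem_range.mp h1
    omega
  have hdvd : ∏ j ∈ B \ E, (M - j) ∣ (h - 1)! := by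
    rw [← Nat.factorization_le_iff_dvd (Finset.prod_ne_zero_iff.mpr hne) (Nat.factorial_ne_zero _),
      Nat.factorization_prod hne]
    intro l
    rw [Finset.sum_apply']
    by_cases hl : l.Prime
    · by_cases hlz : l ≤ z
      · have hJh : J l < h := Finset.mem_range.mp (hJ1 l)
        have hJE : J l ∈ E := Finset.mem_image.mpr
          ⟨l, Finset.mem_filter.mpr ⟨Finset.mem_range.mpr (by omega), hl⟩, rfl⟩
        have hsub : B \ E ⊆ (Finset.range h).erase (J l) := by
          intro j hj
          rw [Finset.mem_sdiff] at hj
          refine Finset.mem_erase.mpr ⟨?_, (Finset.mem_filter.mp hj.1).1⟩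
          rintro rfl
          exact hj.2 hJE
        have hstep : ∀ j ∈ (Finset.range h).erase (J l), (M - j).factorization l ≤
            ((j - J l) + (J l - j)).factorization l := by
          intro j hj
          rw [Finset.mem_erase, Finset.mem_range] at hj
          have h1 : l ^ ((M - j).factorization l) ∣ M - j := Nat.ordProj_dvd _ _
          have h2 : l ^ ((M - j).factorization l) ∣ M - J l :=
            (Nat.pow_dvd_pow l (hJ2 l j (Finset.mem_range.mpr hj.2))).trans (Nat.ordProj_dvd _ _)
          refine (hl.pow_dvd_iff_le_factorization (by omega)).mp ?_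
          rcases lt_or_gt_of_ne hj.1 with h3 | h3
          · have h4 : (j - J l) + (J l - j) = (M - j) - (M - J l) := by omega
            rw [h4]; exact Nat.dvd_sub h1 h2
          · have h4 : (j - J l) + (J l - j) = (M - J l) - (M - j) := by omega
            rw [h4]; exact Nat.dvd_sub h2 h1
        have hne2 : ∀ j ∈ (Finset.range h).erase (J l), (j - J l) + (J l - j) ≠ 0 := by
          intro j hj
          rw [Finset.mem_erase] at hj
          have := hj.1
          omega
        calc ∑ j ∈ B \ E, (M - j).factorization l
            ≤ ∑ j ∈ (Finset.range h).erase (J l), (M - j).factorization l :=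
              Finset.sum_le_sum_of_subset hsub
          _ ≤ ∑ j ∈ (Finset.range h).erase (J l), ((j - J l) + (J l - j)).factorization l :=
              Finset.sum_le_sum hstep
          _ = (∏ j ∈ (Finset.range h).erase (J l), ((j - J l) + (J l - j))).factorization l := by
              rw [Nat.factorization_prod hne2, Finset.sum_apply']
          _ ≤ ((h - 1)!).factorization l := by
              rw [erdos_prod_aux h (J l) hJh]
              have h5 : (J l)! * (h - 1 - J l)! ∣ (h - 1)! := by
                have := Nat.factorial_mul_factorial_dvd_factorial (show J l ≤ h - 1 by omega)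
                exact this
              exact (Nat.factorization_le_iff_dvd (by positivity) (Nat.factorial_ne_zero _)).mpr h5 l
      · have h0 : ∑ j ∈ B \ E, (M - j).factorization l = 0 := by
          refine Finset.sum_eq_zero fun j hj => ?_
          refine Nat.factorization_eq_zero_of_not_dvd fun hd => hlz ?_
          exact (Finset.mem_filter.mp (Finset.mem_sdiff.mp hj).1).2 l hl hd
        rw [h0]; exact Nat.zero_le _
    · have h0 : ∑ j ∈ B \ E, (M - j).factorization l = 0 := by
        refine Finset.sum_eq_zero fun j hj => ?_
        exact Nat.factorization_eq_zero_of_not_prime _ hl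
      rw [h0]; exact Nat.zero_le _
  have hle : (M + 1 - h) ^ (B \ E).card ≤ ∏ j ∈ B \ E, (M - j) := by
    rw [← Finset.prod_const]
    refine Finset.prod_le_prod' fun j hj => ?_
    have h1 := (Finset.mem_filter.mp (Finset.mem_sdiff.mp hj).1).1
    have := Finset.mem_range.mp h1
    omega
  have hcard : B.card - Nat.primeCounting z ≤ (B \ E).card := by
    have h1 := Finset.le_card_sdiff E B
    omega
  exact (Nat.pow_le_pow_right (by omega) hcard).trans (hle.trans (Nat.le_of_dvd (Nat.factorial_pos _) hdvd))

end Pool.Agent.Helper601.HK
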