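import Mathlib
import Pool.Agent.Helper601.HKDefs

set_option autoImplicit false

namespace Pool.Agent.Helper601.HK



open Classical in
theorem card_Av_ge (κ : ℝ) (k u z : ℕ) (hu : 3 ≤ u) (huk : u ≤ k) (huz : u ≤ z)
    (hz : Zf κ k u < (z : ℝ) + 1) :
    (u - 1) / 2 ≤ (Av κ k u).card + ((Finset.range ((u - 1) / 2)).filter
      (fun j => ∀ l : ℕ, l.Prime → l ∣ (k - 1) / 2 - j → l ≤ z)).card := by
  set h := (u - 1) / 2 with hh
  set M := (k - 1) / 2 with hM
  have hsplit := Finset.card_filter_add_card_filter_not (s := Finset.range h)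
    (fun j => ∀ l : ℕ, l.Prime → l ∣ M - j → l ≤ z)
  rw [Finset.card_range] at hsplit
  suffices hs : ((Finset.range h).filter
      (fun j => ¬ ∀ l : ℕ, l.Prime → l ∣ M - j → l ≤ z)).card ≤ (Av κ k u).card by omega
  have hex : ∀ j : ℕ, ∃ q : ℕ, (¬ ∀ l : ℕ, l.Prime → l ∣ M - j → l ≤ z) →
      q.Prime ∧ q ∣ M - j ∧ z < q := by
    intro j
    by_cases hj : ∀ l : ℕ, l.Prime → l ∣ M - j → l ≤ z
    · exact ⟨0, fun h => absurd hj h⟩
    · have hj' := hj
      push Not at hj'
      obtain ⟨l, h1, h2, h3⟩ := hj'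
      exact ⟨l, fun _ => ⟨h1, h2, h3⟩⟩
  choose g hg using hex
  have hhM : h ≤ M := by omega
  apply Finset.card_le_card_of_injOn g
  · intro j hj
    rw [Finset.coe_filter, Set.mem_ofPred_eq, Finset.mem_range] at hj
    obtain ⟨g1, g2, g3⟩ := hg j hj.2
    have hpos : 0 < M - j := by omega
    have hle : g j ≤ M - j := Nat.le_of_dvd hpos g2
    have hzr : (z : ℝ) + 1 ≤ (g j : ℝ) := by exact_mod_cast g3
    have hks : k - (k - 2 * (M - j)) = 2 * (M - j) := by omega
    unfold Av
    rw [Finset.coe_filter, Set.mem_ofPred_eq, Finset.mem_range]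
    refine ⟨by omega, g1, by omega, by omega, by linarith, k - 2 * (M - j), by omega, by omega, ?_, ?_⟩
    · rw [hks]
      exact Dvd.dvd.mul_left g2 2
    · rw [hks]
      exact Dvd.intro _ rfl
  · intro i hi j hj hij
    rw [Finset.coe_filter, Set.mem_ofPred_eq, Finset.mem_range] at hi hj
    obtain ⟨g1, g2, g3⟩ := hg i hi.2
    obtain ⟨f1, f2, f3⟩ := hg j hj.2
    rw [← hij] at f2
    have e1 : g i ∣ (M - i) - (M - j) := Nat.dvd_sub g2 f2
    have e2 : g i ∣ (M - j) - (M - i) := Nat.dvd_sub f2 g2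
    rcases Nat.lt_trichotomy i j with hlt | heq | hgt
    · have := Nat.le_of_dvd (by omega) e1
      omega
    · exact heq
    · have := Nat.le_of_dvd (by omega) e2
      omega

/-- the exponent bound extracted from the lemma of Erdos -/
theorem erdos_log {M h L : ℕ} (h1 : 1 ≤ h) (hpow : (M + 1 - h) ^ L ≤ (h - 1).factorial)
    (hM : 2 ≤ M + 1 - h) :
    (L : ℝ) * Real.log ((M + 1 - h : ℕ) : ℝ) ≤ h * Real.log h := by
  have e1 : (M + 1 - h) ^ L ≤ h ^ h := by
    refine hpow.trans ((Nat.factorial_le_pow _).trans ?_)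
    exact (Nat.pow_le_pow_left (Nat.sub_le h 1) _).trans (Nat.pow_le_pow_right h1 (Nat.sub_le h 1))
  have e2 : (((M + 1 - h : ℕ) : ℝ)) ^ L ≤ (h : ℝ) ^ h := by exact_mod_cast e1
  have e3 := Real.log_le_log (by
    have : (0 : ℝ) < ((M + 1 - h : ℕ) : ℝ) := by exact_mod_cast (by omega : 0 < M + 1 - h)
    positivity) e2
  rwa [Real.log_pow, Real.log_pow] at e3

open Classical in
/-- lower bound for the main term -/
theorem main_lower
    (erdos : ∀ M h z : ℕ, 1 ≤ h → h ≤ M →
      (M + 1 - h) ^ (((Finset.range h).filter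
        (fun j => ∀ l : ℕ, l.Prime → l ∣ M - j → l ≤ z)).card - Nat.primeCounting z) ≤ (h - 1).factorial)
    (κ : ℝ) (k u z : ℕ) (hu : 20 ≤ u) (huk : 10 * u ≤ k) (huz : u ≤ z)
    (hz : Zf κ k u < (z : ℝ) + 1) :
    (u : ℝ) / 5 * (Real.log k - Real.log u) / Real.log k ≤ ((Av κ k u).card : ℝ) + Nat.primeCounting z := by
  set h := (u - 1) / 2 with hh
  set M := (k - 1) / 2 with hM
  have hcard := card_Av_ge κ k u z (by omega) (by omega) huz hz
  rw [← hh, ← hM] at hcard
  set cnt := ((Finset.range h).filter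
        (fun j => ∀ l : ℕ, l.Prime → l ∣ M - j → l ≤ z)).card with hcnt
  have herd := erdos M h z (by omega) (by omega)
  rw [← hcnt] at herd
  have hlog := erdos_log (by omega) herd (by omega)
  set L := cnt - Nat.primeCounting z with hL
  have hcard' : (h : ℝ) ≤ (Av κ k u).card + ((L : ℝ) + Nat.primeCounting z) := by
    have : h ≤ (Av κ k u).card + (L + Nat.primeCounting z) := by omega
    exact_mod_cast this
  have hkpos : (0 : ℝ) < k := by exact_mod_cast (by omega : 0 < k)
  have hupos : (0 : ℝ) < u := by exact_mod_cast (by omega : 0 < u)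
  have hhpos : (0 : ℝ) < h := by exact_mod_cast (by omega : 0 < h)
  have hk200 : (200 : ℝ) ≤ k := by exact_mod_cast (by omega : 200 ≤ k)
  -- M + 1 - h ≥ k / 3
  have hW : (k : ℝ) / 3 ≤ ((M + 1 - h : ℕ) : ℝ) := by
    have : k ≤ 3 * (M + 1 - h) := by omega
    have : (k : ℝ) ≤ 3 * ((M + 1 - h : ℕ) : ℝ) := by exact_mod_cast this
    linarith
  have hlogW : Real.log ((k : ℝ) / 3) ≤ Real.log ((M + 1 - h : ℕ) : ℝ) :=
    Real.log_le_log (by positivity) hW
  have hlk3 : 0 < Real.log ((k : ℝ) / 3) := Real.log_pos (by linarith)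
  have hlk : 0 < Real.log (k : ℝ) := Real.log_pos (by linarith)
  have hlk3le : Real.log ((k : ℝ) / 3) ≤ Real.log k :=
    Real.log_le_log (by positivity) (by linarith)
  have hL1 : (L : ℝ) * Real.log ((k : ℝ) / 3) ≤ h * Real.log h :=
    le_trans (mul_le_mul_of_nonneg_left hlogW (by positivity)) hlog
  -- h - L ≥ h * (log (k/3) - log h) / log (k/3)
  have hL2 : (h : ℝ) * ((Real.log ((k : ℝ) / 3) - Real.log h) / Real.log ((k : ℝ) / 3)) ≤ h - L := by
    rw [mul_div_assoc', div_le_iff₀ hlk3]
    nlinarith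
  have hquot : Real.log ((k : ℝ) / (3 * h)) / Real.log k ≤
      (Real.log ((k : ℝ) / 3) - Real.log h) / Real.log ((k : ℝ) / 3) := by
    have e1 : Real.log ((k : ℝ) / (3 * h)) = Real.log ((k : ℝ) / 3) - Real.log h := by
      rw [← Real.log_div (by positivity) (by positivity)]
      congr 1
      field_simp
    rw [e1]
    have h3 : 0 ≤ Real.log ((k : ℝ) / 3) - Real.log h := by
      rw [sub_nonneg]
      apply Real.log_le_log hhpos
      have : 3 * h ≤ k := by omega
      have : (3 : ℝ) * h ≤ k := by exact_mod_cast this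
      linarith
    exact div_le_div_of_nonneg_left h3 hlk3 hlk3le
  have h3h : (3 : ℝ) * h ≤ 3 / 2 * u := by
    have : 2 * h ≤ u := by omega
    have : (2 : ℝ) * h ≤ u := by exact_mod_cast this
    linarith
  have hhu : (2 : ℝ) / 5 * u ≤ h := by
    have : 2 * u ≤ 5 * h := by omega
    have : (2 : ℝ) * u ≤ 5 * h := by exact_mod_cast this
    linarith
  have hlb : (Real.log k - Real.log u) / 2 ≤ Real.log ((k : ℝ) / (3 * h)) := by
    have e1 : Real.log ((k : ℝ) / (3 / 2 * u)) ≤ Real.log ((k : ℝ) / (3 * h)) := by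
      apply Real.log_le_log (by positivity)
      exact div_le_div_of_nonneg_left hkpos.le (by positivity) h3h
    have e2 : Real.log ((k : ℝ) / (3 / 2 * u)) = Real.log ((k : ℝ) / u) - Real.log (3 / 2) := by
      rw [← Real.log_div (by positivity) (by positivity)]
      congr 1
      field_simp
    have e3 : Real.log ((k : ℝ) / u) = Real.log k - Real.log u :=
      Real.log_div (by positivity) (by positivity)
    -- log (k/u) ≥ 2 log (3/2)
    have e4 : 2 * Real.log (3 / 2) ≤ Real.log ((k : ℝ) / u) := by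
      have : (2 : ℝ) * Real.log (3 / 2) = Real.log ((3 / 2) ^ 2) := by
        rw [Real.log_pow]; norm_num
      rw [this]
      apply Real.log_le_log (by norm_num)
      rw [le_div_iff₀ hupos]
      have : (10 : ℝ) * u ≤ k := by exact_mod_cast huk
      linarith
    linarith
  have hb : 0 ≤ Real.log k - Real.log u := by
    rw [sub_nonneg]
    apply Real.log_le_log hupos
    exact_mod_cast (by omega : u ≤ k)
  calc (u : ℝ) / 5 * (Real.log k - Real.log u) / Real.log k
      = (2 / 5 * u) * (((Real.log k - Real.log u) / 2) / Real.log k) := by ring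
    _ ≤ h * (Real.log ((k : ℝ) / (3 * h)) / Real.log k) := by
        apply mul_le_mul hhu _ (by positivity) hhpos.le
        exact div_le_div_of_nonneg_right hlb hlk.le
    _ ≤ h * ((Real.log ((k : ℝ) / 3) - Real.log h) / Real.log ((k : ℝ) / 3)) :=
        mul_le_mul_of_nonneg_left hquot hhpos.le
    _ ≤ h - L := hL2
    _ ≤ _ := by linarith

open Classical in
/-- `erdos` is the lemma of Erdos, proved in another job. -/
theorem avail
    (erdos : ∀ M h z : ℕ, 1 ≤ h → h ≤ M →
      (M + 1 - h) ^ (((Finset.range h).filter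
        (fun j => ∀ l : ℕ, l.Prime → l ∣ M - j → l ≤ z)).card - Nat.primeCounting z) ≤ (h - 1).factorial)
    (cheb : ∃ C : ℝ, 1 ≤ C ∧ ∀ z : ℕ, 2 ≤ z → (Nat.primeCounting z : ℝ) ≤ C * z / Real.log z) :
    ∃ κ : ℝ, 0 < κ ∧ ∀ C2 : ℝ, 1 ≤ C2 → ∃ K0 X0 : ℕ, ∀ k u : ℕ,
    X0 ≤ u → u * K0 ≤ k → C2 * u / Real.log u + 2 ≤ ((Av κ k u).card : ℝ) := by
  obtain ⟨C, hC1, hC⟩ := cheb
  have hCpos : 0 < C := by linarith
  refine ⟨1 / (100 * C), by positivity, ?_⟩
  intro C2 hC2
  set κ : ℝ := 1 / (100 * C) with hκ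
  have hκpos : 0 < κ := by positivity
  have hCκ : C * κ = 1 / 100 := by
    rw [hκ]; field_simp
  obtain ⟨K0, hK0⟩ := exists_nat_gt (Real.exp (100 * (C + C2)))
  obtain ⟨X0, hX0⟩ := exists_nat_gt (Real.exp (100 * (C + C2)))
  refine ⟨K0 + 10, X0 + 100, ?_⟩
  intro k u hu hk
  have hu100 : 100 ≤ u := by omega
  have hku : 10 * u ≤ k := by nlinarith
  have hupos : (0 : ℝ) < u := by exact_mod_cast (by omega : 0 < u)
  have hu100' : (100 : ℝ) ≤ u := by exact_mod_cast hu100
  have hkpos : (0 : ℝ) < k := by exact_mod_cast (by omega : 0 < k)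
  have hCC : 2 ≤ C + C2 := by linarith
  -- log u is large
  have hLu : 100 * (C + C2) ≤ Real.log u := by
    rw [Real.le_log_iff_exp_le hupos]
    have : (X0 : ℝ) ≤ u := by exact_mod_cast (by omega : X0 ≤ u)
    linarith
  -- log (k/u) is large
  have hb : 100 * (C + C2) ≤ Real.log ((k : ℝ) / u) := by
    rw [Real.le_log_iff_exp_le (by positivity), le_div_iff₀ hupos]
    have h1 : (u : ℝ) * K0 ≤ k := by
      have : u * K0 ≤ k := by nlinarith
      exact_mod_cast this
    have h2 : Real.exp (100 * (C + C2)) * u ≤ K0 * u := by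
      apply mul_le_mul_of_nonneg_right hK0.le hupos.le
    linarith
  have hbe : Real.log ((k : ℝ) / u) = Real.log k - Real.log u :=
    Real.log_div (by positivity) (by positivity)
  rw [hbe] at hb
  have hZnn : 0 ≤ Zf κ k u := by
    unfold Zf
    split_ifs
    · have : 0 ≤ Real.log u := by linarith
      positivity
    · have : 0 ≤ Real.log ((k : ℝ) / u) := by rw [hbe]; linarith
      positivity
  set z : ℕ := max u ⌊Zf κ k u⌋₊ with hz
  have huz : u ≤ z := le_max_left _ _
  have hzlt : Zf κ k u < (z : ℝ) + 1 := by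
    have h1 := Nat.lt_floor_add_one (Zf κ k u)
    have h2 : (⌊Zf κ k u⌋₊ : ℝ) ≤ z := by exact_mod_cast le_max_right _ _
    linarith
  have hzle : (z : ℝ) ≤ u + Zf κ k u := by
    rw [hz, Nat.cast_max]
    apply max_le
    · linarith
    · have := Nat.floor_le hZnn
      linarith
  have hmain := main_lower erdos κ k u z (by omega) hku huz hzlt
  have hzlog : Real.log u ≤ Real.log z := Real.log_le_log hupos (by exact_mod_cast huz)
  have hLupos : 0 < Real.log u := by linarith
  have hLkpos : 0 < Real.log k := by linarith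
  have hpi : (Nat.primeCounting z : ℝ) ≤ C * (u + Zf κ k u) / Real.log u := by
    refine (hC z (by omega)).trans ?_
    apply div_le_div₀
    · have : 0 ≤ u + Zf κ k u := by linarith
      positivity
    · exact mul_le_mul_of_nonneg_left hzle hCpos.le
    · exact hLupos
    · exact hzlog
  by_cases hcase : u ^ 2 ≤ k
  · -- case `u ^ 2 ≤ k`
    have hZ : Zf κ k u = κ * u * Real.log u := by
      unfold Zf
      rw [if_pos hcase]
    rw [hZ] at hpi
    have hLk : 2 * Real.log u ≤ Real.log k := by
      have h1 : (u : ℝ) ^ 2 ≤ k := by exact_mod_cast hcase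
      have h2 := Real.log_le_log (by positivity) h1
      rw [Real.log_pow] at h2
      exact_mod_cast h2
    have hm : (u : ℝ) / 10 ≤ (u : ℝ) / 5 * (Real.log k - Real.log u) / Real.log k := by
      rw [le_div_iff₀ hLkpos]
      nlinarith
    have hpi2 : C * (u + κ * u * Real.log u) / Real.log u = C * u / Real.log u + u / 100 := by
      have : C * (u + κ * u * Real.log u) / Real.log u = C * u / Real.log u + (C * κ) * u := by
        field_simp
      rw [this, hCκ]
      ring
    rw [hpi2] at hpi
    have hfin : C * u / Real.log u + C2 * u / Real.log u ≤ u / 100 := by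
      rw [← add_div, div_le_iff₀ hLupos]
      nlinarith
    linarith
  · -- case `k < u ^ 2`
    have hZ : Zf κ k u = κ * u * (Real.log k - Real.log u) := by
      unfold Zf
      rw [if_neg hcase, hbe]
    rw [hZ] at hpi
    have hLk : Real.log k ≤ 2 * Real.log u := by
      have h0 : k ≤ u ^ 2 := by omega
      have h1 : (k : ℝ) ≤ (u : ℝ) ^ 2 := by exact_mod_cast h0
      have h2 := Real.log_le_log hkpos h1
      rw [Real.log_pow] at h2
      exact_mod_cast h2
    set b := Real.log k - Real.log u with hbdef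
    have hbpos : 0 < b := by linarith
    have hinv : 1 / Real.log u ≤ 2 / Real.log k := by
      rw [div_le_div_iff₀ hLupos hLkpos]
      linarith
    have hpi3 : C * (u + κ * u * b) / Real.log u ≤ (2 * C * u + u * b / 50) / Real.log k := by
      have h1 : C * (u + κ * u * b) / Real.log u = (C * (u + κ * u * b)) * (1 / Real.log u) := by
        ring
      have h2 : (2 * C * u + u * b / 50) / Real.log k = (C * (u + κ * u * b)) * (2 / Real.log k) := by
        have : C * (u + κ * u * b) = C * u + (C * κ) * u * b := by ring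
        rw [this, hCκ]
        ring
      rw [h1, h2]
      apply mul_le_mul_of_nonneg_left hinv
      positivity
    have hC2' : C2 * u / Real.log u ≤ 2 * C2 * u / Real.log k := by
      have h1 : C2 * u / Real.log u = (C2 * u) * (1 / Real.log u) := by ring
      have h2 : 2 * C2 * u / Real.log k = (C2 * u) * (2 / Real.log k) := by ring
      rw [h1, h2]
      apply mul_le_mul_of_nonneg_left hinv
      positivity
    have hlu : Real.log u ≤ u := (Real.log_le_sub_one_of_pos hupos).trans (by linarith)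
    have hfin : (2 * C * u + u * b / 50) / Real.log k + 2 * C2 * u / Real.log k + 2
        ≤ (u : ℝ) / 5 * b / Real.log k := by
      have h2 : (2 * C * u + u * b / 50) / Real.log k + 2 * C2 * u / Real.log k + 2
          = (2 * C * u + u * b / 50 + 2 * C2 * u + 2 * Real.log k) / Real.log k := by
        have h3 : (2 * Real.log k) / Real.log k = 2 := by
          rw [mul_div_assoc, div_self hLkpos.ne', mul_one]
        rw [← add_div, add_div _ (2 * Real.log k), h3]
      rw [h2]
      apply div_le_div_of_nonneg_right _ hLkpos.le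
      have : u * (100 * (C + C2)) ≤ u * b := mul_le_mul_of_nonneg_left hb hupos.le
      nlinarith
    linarith

end Pool.Agent.Helper601.HK
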