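import Mathlib
import Pool.Agent.Helper601.HKDefs

set_option autoImplicit false

namespace Pool.Agent.Helper601.HK



theorem step (κ : ℝ) (k : ℕ) (A : Finset ℕ) (X U : ℕ) (T : Finset ℕ) (τ : ℕ → ℕ)
    (hX1 : 1 ≤ X) (hXU : X ≤ U) (hU : 2 * (U + 1) < k) (hA : 2 ∉ A) (h : Inv κ k A X U T τ)
    (hav : T.card + 2 ≤ (Av κ k (U + 1)).card) :
    ∃ (T' : Finset ℕ) (τ' : ℕ → ℕ), Inv κ k A X (U + 1) T' τ' := by
  classical
  -- choose the two primes
  have hcard : 1 < ((Av κ k (U + 1)) \ T).card := by
    have := Finset.le_card_sdiff T (Av κ k (U + 1))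
    omega
  obtain ⟨q1, hq1, q2, hq2, hne⟩ := Finset.one_lt_card.mp hcard
  rw [Finset.mem_sdiff] at hq1 hq2
  obtain ⟨hq1A, hq1T⟩ := hq1
  obtain ⟨hq2A, hq2T⟩ := hq2
  unfold Av at hq1A hq2A
  rw [Finset.mem_filter] at hq1A hq2A
  set τ' : ℕ → ℕ := fun q => if q = q1 then U + 1 else if q = q2 then k - (U + 1) else τ q with hτ'
  have τ1 : τ' q1 = U + 1 := by simp [hτ']
  have τ2 : τ' q2 = k - (U + 1) := by simp [hτ', hne.symm]
  have τT : ∀ q ∈ T, τ' q = τ q := by
    intro q hq
    have h1 : q ≠ q1 := fun e => hq1T (e ▸ hq)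
    have h2 : q ≠ q2 := fun e => hq2T (e ▸ hq)
    simp [hτ', h1, h2]
  have ht1 : ht k (U + 1) = U + 1 := by unfold ht; omega
  have ht2 : ht k (k - (U + 1)) = U + 1 := by unfold ht; omega
  set T' : Finset ℕ := T ∪ ({q1, q2} : Finset ℕ).filter (fun q => Sm (A ∪ T) (τ' q)) with hT'
  have memT' : ∀ q, q ∈ T' → q ∈ T ∨ ((q = q1 ∨ q = q2) ∧ Sm (A ∪ T) (τ' q)) := by
    intro q hq
    rw [hT', Finset.mem_union, Finset.mem_filter, Finset.mem_insert, Finset.mem_singleton] at hq
    exact hq
  have subT : T ⊆ T' := Finset.subset_union_left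
  have smono : ∀ t, Sm (A ∪ T) t → Sm (A ∪ T') t := by
    intro t ht l hl hd
    exact Finset.union_subset_union_right subT (ht l hl hd)
  -- data of new primes
  have new : ∀ q, (q = q1 ∨ q = q2) → q.Prime ∧ q ≠ 2 ∧ U + 1 < q ∧ Zf κ k (U + 1) < q ∧
      (∃ s : ℕ, 1 ≤ s ∧ s < U + 1 ∧ q ∣ k - s ∧ 2 ∣ k - s) ∧ ht k (τ' q) = U + 1 ∧ 1 < τ' q ∧ τ' q < k := by
    intro q hq
    rcases hq with rfl | rfl
    · refine ⟨hq1A.2.1, hq1A.2.2.1, hq1A.2.2.2.1, hq1A.2.2.2.2.1, hq1A.2.2.2.2.2, ?_, ?_, ?_⟩
      · rw [τ1, ht1]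
      · rw [τ1]; omega
      · rw [τ1]; omega
    · refine ⟨hq2A.2.1, hq2A.2.2.1, hq2A.2.2.2.1, hq2A.2.2.2.2.1, hq2A.2.2.2.2.2, ?_, ?_, ?_⟩
      · rw [τ2, ht2]
      · rw [τ2]; omega
      · rw [τ2]; omega
  have hprime : ∀ q ∈ T', q.Prime := by
    intro q hq
    rcases memT' q hq with hq | ⟨hq, -⟩
    · exact h.prime q hq
    · exact (new q hq).1
  have hodd : ∀ q ∈ T', q ≠ 2 := by
    intro q hq
    rcases memT' q hq with hq | ⟨hq, -⟩
    · exact h.odd q hq
    · exact (new q hq).2.1
  refine ⟨T', τ', ⟨hprime, hodd, ?_, ?_, ?_, ?_, ?_, ?_, ?_⟩⟩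
  · intro q hq
    rcases memT' q hq with hq | ⟨hq, -⟩
    · rw [τT q hq]; exact h.wit q hq
    · rw [(new q hq).2.2.2.2.2.1]; exact (new q hq).2.2.2.2.1
  · intro q hq
    rcases memT' q hq with hq | ⟨hq, -⟩
    · rw [τT q hq]; exact h.lt q hq
    · rw [(new q hq).2.2.2.2.2.1]; exact (new q hq).2.2.1
  · intro q hq q' hq' he
    rcases memT' q hq with hqT | ⟨hqn, -⟩
    · rcases memT' q' hq' with hqT' | ⟨hqn', -⟩
      · rw [τT q hqT, τT q' hqT'] at he
        exact h.inj q hqT q' hqT' he
      · exfalso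
        have h1 := (h.mem q hqT).2.2.1
        have h2 := (new q' hqn').2.2.2.2.2.1
        rw [τT q hqT] at he
        rw [he, h2] at h1
        omega
    · rcases memT' q' hq' with hqT' | ⟨hqn', -⟩
      · exfalso
        have h1 := (h.mem q' hqT').2.2.1
        have h2 := (new q hqn).2.2.2.2.2.1
        rw [τT q' hqT'] at he
        rw [← he, h2] at h1
        omega
      · rcases hqn with rfl | rfl
        · rcases hqn' with rfl | rfl
          · rfl
          · exfalso
            rw [τ1, τ2] at he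
            omega
        · rcases hqn' with rfl | rfl
          · exfalso
            rw [τ1, τ2] at he
            omega
          · rfl
  · intro q hq
    rcases memT' q hq with hqT | ⟨hqn, hs⟩
    · rw [τT q hqT]
      obtain ⟨a, b, c, d⟩ := h.mem q hqT
      exact ⟨a, b, by omega, smono _ d⟩
    · obtain ⟨-, -, -, -, -, e, a, b⟩ := new q hqn
      exact ⟨a, b, by omega, smono _ hs⟩
  · intro q hq
    rcases memT' q hq with hqT | ⟨hqn, hs⟩
    · rw [τT q hqT]; exact h.big q hqT
    · right
      obtain ⟨-, -, -, z, -, e, a, b⟩ := new q hqn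
      rw [e]
      exact ⟨by omega, z⟩
  · have : T'.filter (fun q => ht k (τ' q) ≤ X) = T.filter (fun q => ht k (τ q) ≤ X) := by
      ext q
      rw [Finset.mem_filter, Finset.mem_filter]
      constructor
      · rintro ⟨hq, hx⟩
        rcases memT' q hq with hqT | ⟨hqn, hs⟩
        · rw [τT q hqT] at hx; exact ⟨hqT, hx⟩
        · exfalso
          rw [(new q hqn).2.2.2.2.2.1] at hx
          omega
      · rintro ⟨hq, hx⟩
        exact ⟨subT hq, by rw [τT q hq]; exact hx⟩
    rw [this]
    exact h.init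
  · intro t h1t htk hht hS
    have hS' : Sm (A ∪ T) t := by
      intro l hl hd
      have hl' := hS l hl hd
      rw [Finset.mem_union] at hl' ⊢
      rcases hl' with hl' | hl'
      · left; exact hl'
      · rcases memT' l hl' with hlT | ⟨hln, -⟩
        · right; exact hlT
        · exfalso
          obtain ⟨-, -, hbig, -, ⟨s, hs1, hs2, hs3, hs4⟩, -, -, -⟩ := new l hln
          by_cases hc : t ≤ k - t
          · have : ht k t = t := by unfold ht; omega
            have := Nat.le_of_dvd (by omega) hd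
            omega
          · have hv : ht k t = k - t := by unfold ht; omega
            rw [hv] at hht
            -- l divides k - s and k - v = t, so s = v
            have hsv : s = k - t := by
              rcases lt_trichotomy s (k - t) with hlt | heq | hgt
              · exfalso
                have hd2 : l ∣ (k - s) - t := Nat.dvd_sub hs3 hd
                have := Nat.le_of_dvd (by omega) hd2
                omega
              · exact heq
              · exfalso
                have hd2 : l ∣ t - (k - s) := Nat.dvd_sub hd hs3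
                have := Nat.le_of_dvd (by omega) hd2
                omega
            have htk' : k - s = t := by omega
            rw [htk'] at hs4
            have h2 := hS 2 Nat.prime_two hs4
            rw [Finset.mem_union] at h2
            rcases h2 with h2 | h2
            · exact hA h2
            · exact hodd 2 h2 rfl
    by_cases hle : ht k t ≤ U
    · obtain ⟨q, hq, he⟩ := h.complete t h1t htk hle hS'
      exact ⟨q, subT hq, by rw [τT q hq]; exact he⟩
    · have he : ht k t = U + 1 := by omega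
      have : t = U + 1 ∨ t = k - (U + 1) := by
        unfold ht at he
        omega
      rcases this with rfl | rfl
      · refine ⟨q1, ?_, τ1⟩
        rw [hT', Finset.mem_union, Finset.mem_filter, Finset.mem_insert]
        right
        exact ⟨Or.inl rfl, by rw [τ1]; exact hS'⟩
      · refine ⟨q2, ?_, τ2⟩
        rw [hT', Finset.mem_union, Finset.mem_filter, Finset.mem_insert, Finset.mem_singleton]
        right
        exact ⟨Or.inr rfl, by rw [τ2]; exact hS'⟩

theorem card_le_Bn {κ : ℝ} {k : ℕ} {A : Finset ℕ} {X U : ℕ} {T : Finset ℕ} {τ : ℕ → ℕ}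
    (h : Inv κ k A X U T τ) : T.card ≤ Bn k (A ∪ T) U := by
  classical
  unfold Bn
  apply Finset.card_le_card_of_injOn τ
  · intro q hq
    obtain ⟨a, b, c, d⟩ := h.mem q hq
    simp only [Finset.coe_filter, Set.mem_setOf_eq, Finset.mem_Ioo]
    exact ⟨⟨a, b⟩, c, d⟩
  · intro q hq q' hq' he
    exact h.inj q hq q' hq' he

end Pool.Agent.Helper601.HK
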