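import Mathlib
import Pool.Agent.Helper601.HKDefs

set_option autoImplicit false

namespace Pool.Agent.Helper601.HK




theorem hk_mono {w n : ℕ} (hw : 3 ≤ w) (hwn : w ≤ n) :
    (w : ℝ) / Real.log w ≤ n / Real.log n := by
  have h3 : Real.exp 1 ≤ 3 := by
    have := Real.exp_one_lt_d9; linarith
  have hw' : (3:ℝ) ≤ w := by exact_mod_cast hw
  have hn' : (3:ℝ) ≤ n := by exact_mod_cast hw.trans hwn
  have h := Real.log_div_self_antitoneOn (show Real.exp 1 ≤ (w:ℝ) by linarith)
    (show Real.exp 1 ≤ (n:ℝ) by linarith) (by exact_mod_cast hwn)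
  have hlw : 0 < Real.log w := Real.log_pos (by linarith)
  have hln : 0 < Real.log n := Real.log_pos (by linarith)
  rw [div_le_div_iff₀ hlw hln]
  have h' : Real.log n / n ≤ Real.log w / w := h
  rw [div_le_div_iff₀ (by linarith) (by linarith)] at h'
  linarith

theorem hk_fiber (Q : Finset ℕ) (v : ℕ → ℕ) (X M : ℕ) (C2 : ℝ) (hC : 0 ≤ C2) (hX : 3 ≤ X)
    (hv : ∀ q ∈ Q, X < v q ∧ v q ≤ M)
    (hB : ∀ w, X ≤ w → w ≤ M →
      ((Q.filter (fun q => v q ≤ w)).card : ℝ) ≤ C2 * w / Real.log w) (i : ℕ) :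
    ((Q.filter (fun q => Nat.log 2 (v q) = i)).card : ℝ) ≤
      C2 * 2 ^ (i + 1) / ((i + 1) * Real.log 2) := by
  have hl2 : 0 < Real.log 2 := Real.log_pos one_lt_two
  rcases (Q.filter (fun q => Nat.log 2 (v q) = i)).eq_empty_or_nonempty with he | ⟨q0, hq0⟩
  · rw [he]; simp; positivity
  · rw [Finset.mem_filter] at hq0
    set w := min (2 ^ (i + 1) - 1) M with hw
    have hvlt : ∀ q ∈ Q, Nat.log 2 (v q) = i → v q ≤ w := by
      intro q hq hi
      have h1 := Nat.lt_pow_succ_log_self (b := 2) one_lt_two (v q)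
      rw [hi] at h1
      exact le_min (by omega) (hv q hq).2
    have hXw : X ≤ w := ((hv q0 hq0.1).1.trans_le (hvlt q0 hq0.1 hq0.2)).le
    have h1 := hB w hXw (min_le_right _ _)
    have h2 : (Q.filter (fun q => Nat.log 2 (v q) = i)).card ≤
        (Q.filter (fun q => v q ≤ w)).card := by
      apply Finset.card_le_card
      intro q hq
      rw [Finset.mem_filter] at hq ⊢
      exact ⟨hq.1, hvlt q hq.1 hq.2⟩
    have h3 : (w : ℝ) / Real.log w ≤ ((2 ^ (i + 1) : ℕ) : ℝ) / Real.log ((2 ^ (i + 1) : ℕ) : ℝ) := by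
      apply hk_mono (hX.trans hXw)
      exact (min_le_left _ _).trans (Nat.sub_le _ _)
    have h4 : Real.log ((2 ^ (i + 1) : ℕ) : ℝ) = (i + 1) * Real.log 2 := by
      push_cast
      rw [Real.log_pow]; push_cast; ring
    rw [h4] at h3
    push_cast at h3
    calc ((Q.filter (fun q => Nat.log 2 (v q) = i)).card : ℝ)
        ≤ ((Q.filter (fun q => v q ≤ w)).card : ℝ) := by exact_mod_cast h2
      _ ≤ C2 * w / Real.log w := h1
      _ = C2 * (w / Real.log w) := by ring
      _ ≤ C2 * (2 ^ (i + 1) / ((i + 1) * Real.log 2)) := by gcongr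
      _ = _ := by ring

theorem hk_tele (a n : ℕ) (ha : 1 ≤ a) :
    ∑ i ∈ Finset.Ico a (a + n), 1 / ((i : ℝ) * (i + 1)) = 1 / a - 1 / ((a : ℝ) + n) := by
  have ha' : (1:ℝ) ≤ a := by exact_mod_cast ha
  induction n with
  | zero => simp
  | succ n ih =>
    rw [← add_assoc, Finset.sum_Ico_succ_top (by omega), ih]
    push_cast
    have h1 : (a : ℝ) + n ≠ 0 := by positivity
    have h2 : (a : ℝ) + n + 1 ≠ 0 := by positivity
    have h3 : (a : ℝ) ≠ 0 := by positivity
    field_simp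
    ring

theorem hk_tele_le (a L : ℕ) (ha : 1 ≤ a) :
    ∑ i ∈ Finset.Icc a L, 1 / ((i : ℝ) * (i + 1)) ≤ 1 / a := by
  have ha' : (1:ℝ) ≤ a := by exact_mod_cast ha
  rcases le_or_gt a L with h | h
  · have e : Finset.Icc a L = Finset.Ico a (a + (L + 1 - a)) := by
      ext x; simp; omega
    rw [e, hk_tele a _ ha]
    have : (0:ℝ) ≤ 1 / ((a : ℝ) + (L + 1 - a : ℕ)) := by positivity
    linarith
  · rw [Finset.Icc_eq_empty (by omega)]
    simp

theorem hk_core (κ : ℝ) (hκ : 0 < κ) (k K : ℕ) (hK : 2 ≤ K) (Q : Finset ℕ) (v : ℕ → ℕ)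
    (X M : ℕ) (C2 : ℝ) (hC : 0 ≤ C2) (hX : 3 ≤ X)
    (hv : ∀ q ∈ Q, X < v q ∧ v q ≤ M)
    (hB : ∀ w, X ≤ w → w ≤ M →
      ((Q.filter (fun q => v q ≤ w)).card : ℝ) ≤ C2 * w / Real.log w)
    (hvK : ∀ q ∈ Q, v q * K ≤ k) (hZ : ∀ q ∈ Q, Zf κ k (v q) < q) :
    ∑ q ∈ Q, 1 / (q:ℝ) ≤ 2 * C2 / (κ * Real.log 2 ^ 2 * (Nat.log 2 X : ℝ)) +
      4 * C2 / (κ * Real.log 2 * Real.log K) := by
  have hl2 : 0 < Real.log 2 := Real.log_pos one_lt_two
  have hK' : (2:ℝ) ≤ K := by exact_mod_cast hK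
  have hlK : 0 < Real.log K := Real.log_pos (by linarith)
  set L := Nat.log 2 k with hL
  set i0 := Nat.log 2 X with hi0
  have hi0' : 1 ≤ i0 := by
    rw [hi0]; exact Nat.log_pos one_lt_two (by omega)
  set g : ℕ → ℝ := fun i => 1 / (κ * 2 ^ i * (i * Real.log 2)) +
    (if L + 1 ≤ 2 * (i + 1) then 1 / (κ * 2 ^ i * Real.log K) else 0) with hg
  have hg0 : ∀ i, 0 ≤ g i := by
    intro i
    simp only [hg]
    split_ifs <;> positivity
  have hterm : ∀ q ∈ Q, 1 / (q:ℝ) ≤ g (Nat.log 2 (v q)) := by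
    intro q hq
    obtain ⟨hv1, hv2⟩ := hv q hq
    have hv0 : 0 < v q := by omega
    have hvR : (0:ℝ) < v q := by exact_mod_cast hv0
    set i := Nat.log 2 (v q) with hi
    have hi1 : 1 ≤ i := by
      rw [hi]; exact Nat.log_pos one_lt_two (by omega)
    have hi1R : (1:ℝ) ≤ i := by exact_mod_cast hi1
    have hpow : (2:ℝ) ^ i ≤ v q := by
      exact_mod_cast Nat.pow_log_le_self 2 hv0.ne'
    have hlog : (i : ℝ) * Real.log 2 ≤ Real.log (v q) := by
      rw [← Real.log_pow]
      exact Real.log_le_log (by positivity) hpow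
    have hZq := hZ q hq
    have hvKk := hvK q hq
    by_cases hc : v q ^ 2 ≤ k
    · have e : Zf κ k (v q) = κ * v q * Real.log (v q) := by
        unfold Zf; rw [if_pos hc]
      have h1 : κ * 2 ^ i * (i * Real.log 2) ≤ Zf κ k (v q) := by
        rw [e]; gcongr
      have h2 : 1 / (q:ℝ) ≤ 1 / (κ * 2 ^ i * (i * Real.log 2)) := by
        apply one_div_le_one_div_of_le (by positivity)
        linarith
      have h3 : (0:ℝ) ≤ (if L + 1 ≤ 2 * (i + 1) then 1 / (κ * 2 ^ i * Real.log K) else 0) := by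
        split_ifs <;> positivity
      simp only [hg]
      linarith
    · have e : Zf κ k (v q) = κ * v q * Real.log ((k : ℝ) / v q) := by
        unfold Zf; rw [if_neg hc]
      have hkv : (K : ℝ) ≤ (k : ℝ) / v q := by
        rw [le_div_iff₀ hvR]
        have : ((v q * K : ℕ) : ℝ) ≤ k := by exact_mod_cast hvKk
        push_cast at this
        linarith
      have hlog2 : Real.log K ≤ Real.log ((k : ℝ) / v q) :=
        Real.log_le_log (by linarith) hkv
      have h1 : κ * 2 ^ i * Real.log K ≤ Zf κ k (v q) := by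
        rw [e]; gcongr
      have h2 : 1 / (q:ℝ) ≤ 1 / (κ * 2 ^ i * Real.log K) := by
        apply one_div_le_one_div_of_le (by positivity)
        linarith
      have hcond : L + 1 ≤ 2 * (i + 1) := by
        have hk0 : k ≠ 0 := by
          intro hk0
          rw [hk0] at hvKk
          have : 0 < v q * K := Nat.mul_pos hv0 (by omega)
          omega
        have h3 : 2 ^ L ≤ k := Nat.pow_log_le_self 2 hk0
        have h4 := Nat.lt_pow_succ_log_self (b := 2) one_lt_two (v q)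
        rw [← hi] at h4
        have h5 : v q ^ 2 < (2 ^ (i + 1)) ^ 2 := Nat.pow_lt_pow_left h4 two_ne_zero
        rw [← pow_mul] at h5
        have h6 : 2 ^ L < 2 ^ ((i + 1) * 2) := by omega
        have h7 := (Nat.pow_lt_pow_iff_right one_lt_two).mp h6
        omega
      have h3 : (0:ℝ) ≤ 1 / (κ * 2 ^ i * (i * Real.log 2)) := by positivity
      simp only [hg, if_pos hcond]
      linarith
  have hmaps : ∀ q ∈ Q, Nat.log 2 (v q) ∈ Finset.Icc i0 L := by
    intro q hq
    obtain ⟨hv1, hv2⟩ := hv q hq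
    rw [Finset.mem_Icc]
    refine ⟨Nat.log_mono_right hv1.le, Nat.log_mono_right ?_⟩
    calc v q = v q * 1 := (mul_one _).symm
      _ ≤ v q * K := Nat.mul_le_mul_left _ (by omega)
      _ ≤ k := hvK q hq
  have hLpos : (0:ℝ) < (L:ℝ) + 1 := by positivity
  calc ∑ q ∈ Q, 1 / (q:ℝ) ≤ ∑ q ∈ Q, g (Nat.log 2 (v q)) := Finset.sum_le_sum hterm
    _ = ∑ i ∈ Finset.Icc i0 L, ∑ q ∈ Q.filter (fun q => Nat.log 2 (v q) = i),
          g (Nat.log 2 (v q)) := (Finset.sum_fiberwise_of_maps_to hmaps _).symm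
    _ = ∑ i ∈ Finset.Icc i0 L, ((Q.filter (fun q => Nat.log 2 (v q) = i)).card : ℝ) * g i := by
        refine Finset.sum_congr rfl fun i _ => ?_
        rw [Finset.sum_congr rfl (g := fun _ => g i)
          (fun q hq => by rw [(Finset.mem_filter.mp hq).2])]
        rw [Finset.sum_const, nsmul_eq_mul]
    _ ≤ ∑ i ∈ Finset.Icc i0 L, (2 * C2 / (κ * Real.log 2 ^ 2) * (1 / ((i : ℝ) * (i + 1))) +
          4 * C2 / (κ * Real.log 2 * Real.log K) / (L + 1)) := by
        refine Finset.sum_le_sum fun i hi => ?_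
        rw [Finset.mem_Icc] at hi
        have hi1R : (1:ℝ) ≤ i := by exact_mod_cast hi0'.trans hi.1
        have hN := hk_fiber Q v X M C2 hC hX hv hB i
        calc ((Q.filter (fun q => Nat.log 2 (v q) = i)).card : ℝ) * g i
            ≤ C2 * 2 ^ (i + 1) / ((i + 1) * Real.log 2) * g i :=
              mul_le_mul_of_nonneg_right hN (hg0 i)
          _ = 2 * C2 / (κ * Real.log 2 ^ 2) * (1 / ((i : ℝ) * (i + 1))) +
              (if L + 1 ≤ 2 * (i + 1) then 2 * C2 / (κ * Real.log 2 * Real.log K) / (i + 1)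
                else 0) := by
              simp only [hg]
              split_ifs
              · field_simp
                ring
              · field_simp
                ring
          _ ≤ _ := by
              gcongr
              split_ifs with hc
              · have hc' : (L:ℝ) + 1 ≤ 2 * (i + 1) := by exact_mod_cast hc
                have e : 4 * C2 / (κ * Real.log 2 * Real.log K) / (L + 1) =
                  2 * C2 / (κ * Real.log 2 * Real.log K) / ((L + 1) / 2) := by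
                  field_simp; ring
                rw [e]
                gcongr
                linarith
              · positivity
    _ = 2 * C2 / (κ * Real.log 2 ^ 2) * (∑ i ∈ Finset.Icc i0 L, 1 / ((i : ℝ) * (i + 1))) +
          ((Finset.Icc i0 L).card : ℝ) * (4 * C2 / (κ * Real.log 2 * Real.log K) / (L + 1)) := by
        rw [Finset.sum_add_distrib, ← Finset.mul_sum, Finset.sum_const, nsmul_eq_mul]
    _ ≤ 2 * C2 / (κ * Real.log 2 ^ 2) * (1 / i0) +
          ((L:ℝ) + 1) * (4 * C2 / (κ * Real.log 2 * Real.log K) / (L + 1)) := by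
        have hcard : ((Finset.Icc i0 L).card : ℝ) ≤ (L:ℝ) + 1 := by
          rw [Nat.card_Icc]
          have : L + 1 - i0 ≤ L + 1 := Nat.sub_le _ _
          exact_mod_cast this
        have ht := hk_tele_le i0 L hi0'
        gcongr
    _ = _ := by
        have : (0:ℝ) < i0 := by exact_mod_cast hi0'
        field_simp

/-- `sieve` is proved in another job. -/
theorem sparse
    (sieve : ∃ C : ℝ, 1 ≤ C ∧ ∀ (k : ℕ) (S : Finset ℕ) (u : ℕ), 2 ≤ u →
      (Bn k S u : ℝ) ≤ C * u / Real.log u *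
        Real.exp (∑ q ∈ S.filter (fun q => q.Prime ∧ q ≤ u), 2 / (q : ℝ)))
    (CA : ℝ) (hCA : 0 ≤ CA) : ∃ C2 : ℝ, 1 ≤ C2 ∧ ∀ κ η : ℝ, 0 < κ → 0 < η →
    ∃ K0 : ℕ, ∀ K : ℕ, K0 ≤ K → ∃ X0 : ℕ, ∀ X : ℕ, X0 ≤ X → ∃ k0 : ℕ, ∀ k : ℕ, k0 ≤ k →
    ∀ (A T : Finset ℕ) (τ : ℕ → ℕ) (U : ℕ), (∑ q ∈ A.filter Nat.Prime, 2 / (q : ℝ)) ≤ CA →
    U * K ≤ k → Inv κ k A X U T τ →
    (∀ u : ℕ, X ≤ u → u ≤ U → (Bn k (A ∪ T) u : ℝ) ≤ C2 * u / Real.log u) ∧
    (∑ q ∈ T, 1 / (q : ℝ)) ≤ η := by
  obtain ⟨C, hC1, hsieve⟩ := sieve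
  refine ⟨2 * C * Real.exp (CA + 1), ?_, ?_⟩
  · have : 1 ≤ Real.exp (CA + 1) := Real.one_le_exp (by linarith)
    nlinarith
  set C2 : ℝ := 2 * C * Real.exp (CA + 1) with hC2
  have hC2pos : 0 < C2 := by positivity
  intro κ η hκ hη
  have hl2 : 0 < Real.log 2 := Real.log_pos one_lt_two
  set η' : ℝ := min η (1/2) with hη'
  have hη'0 : 0 < η' := lt_min hη (by norm_num)
  have hη'1 : η' ≤ η := min_le_left _ _
  have hη'2 : η' ≤ 1/2 := min_le_right _ _
  -- choice of K0
  obtain ⟨K0, hK0⟩ : ∃ K0 : ℕ, ∀ K : ℕ, K0 ≤ K →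
      4 * C2 / (κ * Real.log 2 * Real.log K) ≤ η' / 4 := by
    have h1 : Filter.Tendsto (fun K : ℕ => κ * Real.log 2 * Real.log K) Filter.atTop Filter.atTop :=
      (Real.tendsto_log_atTop.comp tendsto_natCast_atTop_atTop).const_mul_atTop (by positivity)
    have h2 : Filter.Tendsto (fun K : ℕ => 4 * C2 / (κ * Real.log 2 * Real.log K)) Filter.atTop
        (nhds 0) := h1.const_div_atTop _
    have h3 := h2.eventually (ge_mem_nhds (show (0:ℝ) < η' / 4 by positivity))
    exact Filter.eventually_atTop.mp h3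
  refine ⟨max K0 2, ?_⟩
  intro K hK
  have hKK0 : K0 ≤ K := (le_max_left _ _).trans hK
  have hK2 : 2 ≤ K := (le_max_right _ _).trans hK
  -- choice of X0
  obtain ⟨N1, hN1⟩ : ∃ N : ℕ, ∀ l : ℕ, N ≤ l → ((l : ℝ) + 2) / 2 ^ l ≤ η' / 4 := by
    have h1 := tendsto_pow_const_div_const_pow_of_one_lt 1 (r := (2:ℝ)) one_lt_two
    have h2 := tendsto_pow_const_div_const_pow_of_one_lt 0 (r := (2:ℝ)) one_lt_two
    have h3 := h1.add (h2.const_mul 2)
    rw [mul_zero, add_zero] at h3
    have h4 := h3.eventually (ge_mem_nhds (show (0:ℝ) < η' / 4 by positivity))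
    obtain ⟨N, hN⟩ := Filter.eventually_atTop.mp h4
    refine ⟨N, fun l hl => ?_⟩
    have := hN l hl
    rw [pow_one, pow_zero] at this
    calc ((l : ℝ) + 2) / 2 ^ l = (l : ℝ) / 2 ^ l + 2 * (1 / 2 ^ l) := by ring
      _ ≤ η' / 4 := this
  obtain ⟨N2, hN2⟩ : ∃ N : ℕ, ∀ l : ℕ, N ≤ l →
      2 * C2 / (κ * Real.log 2 ^ 2 * (l : ℝ)) ≤ η' / 4 := by
    have h1 : Filter.Tendsto (fun l : ℕ => κ * Real.log 2 ^ 2 * (l:ℝ)) Filter.atTop Filter.atTop :=
      (tendsto_natCast_atTop_atTop).const_mul_atTop (by positivity)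
    have h2 : Filter.Tendsto (fun l : ℕ => 2 * C2 / (κ * Real.log 2 ^ 2 * (l:ℝ))) Filter.atTop
        (nhds 0) := h1.const_div_atTop _
    have h3 := h2.eventually (ge_mem_nhds (show (0:ℝ) < η' / 4 by positivity))
    exact Filter.eventually_atTop.mp h3
  refine ⟨2 ^ (N1 + N2) + 3, ?_⟩
  intro X hX
  have hp2 : 0 < 2 ^ (N1 + N2) := by positivity
  have hX3 : 3 ≤ X := by omega
  have hXl : N1 + N2 ≤ Nat.log 2 X := Nat.le_log_of_pow_le one_lt_two (by omega)
  have hXR : (0:ℝ) < X := by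
    have : 0 < X := by omega
    exact_mod_cast this
  refine ⟨0, ?_⟩
  intro k _ A T τ U hA hUK hinv
  -- the key estimate
  have key : ∀ (Q : Finset ℕ) (M : ℕ), Q ⊆ T → (∀ q ∈ Q, X < ht k (τ q) → ht k (τ q) ≤ M) →
      (∀ w, X ≤ w → w ≤ M → (Bn k (A ∪ T) w : ℝ) ≤ C2 * w / Real.log w) →
      ∑ q ∈ Q, 1 / (q : ℝ) ≤ η' := by
    intro Q M hQT hQM hBM
    rw [← Finset.sum_filter_add_sum_filter_not Q (fun q => ht k (τ q) ≤ X)]
    have h1 : ∑ q ∈ Q.filter (fun q => ht k (τ q) ≤ X), 1 / (q : ℝ) ≤ η' / 4 := by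
      have h2 : ∀ q ∈ Q.filter (fun q => ht k (τ q) ≤ X), 1 / (q : ℝ) ≤ 1 / X := by
        intro q hq
        rw [Finset.mem_filter] at hq
        apply one_div_le_one_div_of_le hXR
        rcases hinv.big q (hQT hq.1) with h | h
        · exact_mod_cast h.2.le
        · omega
      have h3 := Finset.sum_le_card_nsmul _ _ _ h2
      rw [nsmul_eq_mul] at h3
      have h4 : ((Q.filter (fun q => ht k (τ q) ≤ X)).card : ℝ) ≤ (Nat.log 2 X : ℝ) + 2 := by
        have h5 : (Q.filter (fun q => ht k (τ q) ≤ X)).card ≤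
            (T.filter (fun q => ht k (τ q) ≤ X)).card :=
          Finset.card_le_card (Finset.filter_subset_filter _ hQT)
        exact_mod_cast h5.trans hinv.init
      have h6 : (2:ℝ) ^ (Nat.log 2 X) ≤ X := by
        exact_mod_cast Nat.pow_log_le_self 2 (by omega : X ≠ 0)
      calc ∑ q ∈ Q.filter (fun q => ht k (τ q) ≤ X), 1 / (q : ℝ)
          ≤ ((Q.filter (fun q => ht k (τ q) ≤ X)).card : ℝ) * (1 / X) := h3
        _ ≤ ((Nat.log 2 X : ℝ) + 2) * (1 / 2 ^ (Nat.log 2 X)) := by gcongr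
        _ = ((Nat.log 2 X : ℝ) + 2) / 2 ^ (Nat.log 2 X) := by ring
        _ ≤ η' / 4 := hN1 _ (by omega)
    have h2 : ∑ q ∈ Q.filter (fun q => ¬ ht k (τ q) ≤ X), 1 / (q : ℝ) ≤ η' / 4 + η' / 4 := by
      have hmem : ∀ q ∈ Q.filter (fun q => ¬ ht k (τ q) ≤ X), q ∈ Q ∧ q ∈ T ∧ X < ht k (τ q) := by
        intro q hq
        rw [Finset.mem_filter] at hq
        exact ⟨hq.1, hQT hq.1, by omega⟩
      refine (hk_core κ hκ k K hK2 _ (fun q => ht k (τ q)) X M C2 hC2pos.le hX3 ?_ ?_ ?_ ?_).trans ?_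
      · intro q hq
        obtain ⟨q1, q2, q3⟩ := hmem q hq
        exact ⟨q3, hQM q q1 q3⟩
      · intro w hw1 hw2
        refine le_trans ?_ (hBM w hw1 hw2)
        have : ((Q.filter (fun q => ¬ ht k (τ q) ≤ X)).filter (fun q => ht k (τ q) ≤ w)).card ≤
            Bn k (A ∪ T) w := by
          unfold Bn
          apply Finset.card_le_card_of_injOn τ
          · intro q hq
            simp only [Finset.coe_filter, Set.mem_ofPred_eq, Finset.mem_filter] at hq
            obtain ⟨m1, m2, m3, m4⟩ := hinv.mem q (hQT hq.1.1)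
            simp only [Finset.coe_filter, Set.mem_ofPred_eq, Finset.mem_Ioo]
            exact ⟨⟨m1, m2⟩, hq.2, m4⟩
          · intro q hq q' hq' he
            simp only [Finset.coe_filter, Set.mem_ofPred_eq, Finset.mem_filter] at hq hq'
            exact hinv.inj q (hQT hq.1.1) q' (hQT hq'.1.1) he
        exact_mod_cast this
      · intro q hq
        obtain ⟨q1, q2, q3⟩ := hmem q hq
        obtain ⟨m1, m2, m3, m4⟩ := hinv.mem q q2
        exact (Nat.mul_le_mul_right K m3).trans hUK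
      · intro q hq
        obtain ⟨q1, q2, q3⟩ := hmem q hq
        rcases hinv.big q q2 with h | h
        · omega
        · exact h.2
      · have e1 := hN2 (Nat.log 2 X) (by omega)
        have e2 := hK0 K hKK0
        linarith
    linarith
  have main : ∀ u : ℕ, X ≤ u → u ≤ U → (Bn k (A ∪ T) u : ℝ) ≤ C2 * u / Real.log u := by
    intro u
    induction u using Nat.strong_induction_on with
    | _ u ih =>
      intro hXu huU
      have hsum := key (T.filter (fun q => q ≤ u)) (u - 1) (Finset.filter_subset _ _) (by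
        intro q hq _
        rw [Finset.mem_filter] at hq
        have := hinv.lt q hq.1
        omega) (by
        intro w hw1 hw2
        exact ih w (by omega) hw1 (by omega))
      have h2 := hsieve k (A ∪ T) u (by omega)
      have hu0 : (0:ℝ) < u := by
        have : 0 < u := by omega
        exact_mod_cast this
      have hu1 : (1:ℝ) < u := by
        have : 1 < u := by omega
        exact_mod_cast this
      have hlu : 0 < Real.log u := Real.log_pos hu1
      have h3 : ∑ q ∈ (A ∪ T).filter (fun q => q.Prime ∧ q ≤ u), 2 / (q : ℝ) ≤ CA + 1 := by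
        have h4 : (A ∪ T).filter (fun q => q.Prime ∧ q ≤ u) ⊆
            A.filter Nat.Prime ∪ T.filter (fun q => q ≤ u) := by
          intro q hq
          simp only [Finset.mem_filter, Finset.mem_union] at hq ⊢
          tauto
        calc ∑ q ∈ (A ∪ T).filter (fun q => q.Prime ∧ q ≤ u), 2 / (q : ℝ)
            ≤ ∑ q ∈ A.filter Nat.Prime ∪ T.filter (fun q => q ≤ u), 2 / (q : ℝ) :=
              Finset.sum_le_sum_of_subset_of_nonneg h4 (fun _ _ _ => by positivity)
          _ ≤ ∑ q ∈ A.filter Nat.Prime, 2 / (q : ℝ) + ∑ q ∈ T.filter (fun q => q ≤ u), 2 / (q : ℝ) := by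
              rw [← Finset.sum_union_inter]
              have : 0 ≤ ∑ q ∈ A.filter Nat.Prime ∩ T.filter (fun q => q ≤ u), 2 / (q : ℝ) :=
                Finset.sum_nonneg (fun _ _ => by positivity)
              linarith
          _ = ∑ q ∈ A.filter Nat.Prime, 2 / (q : ℝ) + 2 * ∑ q ∈ T.filter (fun q => q ≤ u), 1 / (q : ℝ) := by
              rw [Finset.mul_sum]
              congr 1
              refine Finset.sum_congr rfl fun q _ => ?_
              ring
          _ ≤ CA + 1 := by linarith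
      calc (Bn k (A ∪ T) u : ℝ) ≤ C * u / Real.log u *
            Real.exp (∑ q ∈ (A ∪ T).filter (fun q => q.Prime ∧ q ≤ u), 2 / (q : ℝ)) := h2
        _ ≤ C * u / Real.log u * Real.exp (CA + 1) := by gcongr
        _ ≤ 2 * (C * u / Real.log u * Real.exp (CA + 1)) := by
            have : 0 ≤ C * u / Real.log u * Real.exp (CA + 1) := by positivity
            linarith
        _ = C2 * u / Real.log u := by rw [hC2]; ring
  refine ⟨main, ?_⟩
  refine (key T U (Finset.Subset.refl _) ?_ main).trans hη'1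
  intro q hq _
  exact (hinv.mem q hq).2.2.1

end Pool.Agent.Helper601.HK
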