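import Mathlib

set_option autoImplicit false

namespace Pool.Agent.Helper601.HK

/-- the sequences `(u + v √D)^n = P n + v Q n √D` with `w = D v²` -/
def PQ (u w : ℕ) : ℕ → ℕ × ℕ
  | 0 => (1, 0)
  | n + 1 => (u * (PQ u w n).1 + w * (PQ u w n).2, (PQ u w n).1 + u * (PQ u w n).2)

theorem pell_pow {d : ℤ} (b : Pell.Solution₁ d) (u v w : ℕ) (hu : b.x = u) (hv : b.y = v)
    (hw : d * (v : ℤ) ^ 2 = w) (n : ℕ) :
    (b ^ n).x = (PQ u w n).1 ∧ (b ^ n).y = v * (PQ u w n).2 := by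
  induction n with
  | zero => simp [PQ]
  | succ n ih =>
    rw [pow_succ, Pell.Solution₁.x_mul, Pell.Solution₁.y_mul, ih.1, ih.2, hu, hv]
    constructor
    · simp only [PQ]
      push_cast
      rw [← hw]
      ring
    · simp only [PQ]
      push_cast
      ring

theorem PQ_mod (u w n : ℕ) :
    ((w:ℤ) ^ 2 ∣ (u:ℤ) ^ 3 * (PQ u w n).1 -
      ((u:ℤ) ^ (n + 3) + (n.choose 2 : ℤ) * (u:ℤ) ^ (n + 1) * w)) ∧
    ((w:ℤ) ^ 2 ∣ (u:ℤ) ^ 3 * (PQ u w n).2 -
      ((n:ℤ) * (u:ℤ) ^ (n + 2) + (n.choose 3 : ℤ) * (u:ℤ) ^ n * w)) := by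
  induction n with
  | zero => simp [PQ]
  | succ n ih =>
    obtain ⟨⟨s, hs⟩, ⟨t, ht⟩⟩ := ih
    have c2 : ((n + 1).choose 2 : ℤ) = n + (n.choose 2 : ℤ) := by
      rw [Nat.choose_succ_succ, Nat.choose_one_right]
      push_cast
      rfl
    have c3 : ((n + 1).choose 3 : ℤ) = (n.choose 2 : ℤ) + (n.choose 3 : ℤ) := by
      rw [Nat.choose_succ_succ]
      push_cast
      rfl
    constructor
    · refine ⟨u * s + w * t + (n.choose 3 : ℤ) * (u:ℤ) ^ n, ?_⟩
      rw [c2]
      simp only [PQ]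
      push_cast
      linear_combination (u:ℤ) * hs + (w:ℤ) * ht
    · refine ⟨s + u * t, ?_⟩
      rw [c3]
      simp only [PQ]
      push_cast
      linear_combination hs + (u:ℤ) * ht

theorem PQ_large (u w : ℕ) (hu : 2 ≤ u) (n : ℕ) :
    1 ≤ (PQ u w n).1 ∧ 2 ^ n ≤ (PQ u w n).2 + 1 := by
  induction n with
  | zero => simp [PQ]
  | succ n ih =>
    obtain ⟨h1, h2⟩ := ih
    simp only [PQ]
    constructor
    · nlinarith [Nat.zero_le (w * (PQ u w n).2)]
    · rw [pow_succ]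
      have : 2 * (PQ u w n).2 ≤ u * (PQ u w n).2 := Nat.mul_le_mul_right _ hu
      omega

theorem key (q u w : ℕ) (hq : q.Prime) (hu : 2 ≤ u) (huw : u ^ 2 = w + 1)
    (h : ∀ p, p.Prime → p ∣ (PQ u w q).2 → p ∣ w) : False := by
  have hpu : ∀ p, p.Prime → p ∣ w → ¬ p ∣ u := by
    intro p hp hpw hpu
    have h1 : p ∣ w + 1 := by
      rw [← huw]
      exact dvd_pow hpu (by norm_num)
    have h2 : p ∣ 1 := (Nat.dvd_add_right hpw).mp h1
    exact hp.one_lt.ne' (Nat.dvd_one.mp h2)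
  have hmod := (PQ_mod u w q).2
  have ha : ∀ p, p.Prime → p ∣ (PQ u w q).2 → p = q := by
    intro p hp hpT
    have hpw := h p hp hpT
    have hpZ : (p:ℤ) ∣ (w:ℤ) := by exact_mod_cast hpw
    have h1 : (p:ℤ) ∣ (u:ℤ) ^ 3 * (PQ u w q).2 -
      ((q:ℤ) * (u:ℤ) ^ (q + 2) + (q.choose 3 : ℤ) * (u:ℤ) ^ q * w) :=
      dvd_trans (dvd_pow hpZ (by norm_num)) hmod
    have h2 : (p:ℤ) ∣ (u:ℤ) ^ 3 * (PQ u w q).2 :=
      Dvd.dvd.mul_left (by exact_mod_cast hpT) _
    have h3 : (p:ℤ) ∣ ((q:ℤ) * (u:ℤ) ^ (q + 2) + (q.choose 3 : ℤ) * (u:ℤ) ^ q * w) := by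
      have := dvd_sub h2 h1
      simpa using this
    have h4 : (p:ℤ) ∣ (q:ℤ) * (u:ℤ) ^ (q + 2) :=
      (dvd_add_left (Dvd.dvd.mul_left hpZ _)).mp h3
    have h5 : p ∣ q * u ^ (q + 2) := by exact_mod_cast h4
    rcases (Nat.Prime.dvd_mul hp).mp h5 with h6 | h6
    · exact (Nat.prime_dvd_prime_iff_eq hp hq).mp h6
    · exact absurd (hp.dvd_of_dvd_pow h6) (hpu p hp hpw)
  have hlarge : q < (PQ u w q).2 := by
    have h1 := (PQ_large u w hu q).2
    have h2 : 2 * q ≤ 2 ^ q := by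
      obtain ⟨k, hk⟩ : ∃ k, q = k + 1 := ⟨q - 1, by have := hq.pos; omega⟩
      rw [hk, pow_succ]
      have := Nat.lt_two_pow_self (n := k)
      omega
    have := hq.two_le
    omega
  rcases Nat.lt_or_ge q 4 with h4 | h4
  · have h2 := hq.two_le
    interval_cases q
    · -- q = 2
      have hT : (PQ u w 2).2 = 2 * u := by
        simp only [PQ]
        ring
      have hm : (u.minFac).Prime := Nat.minFac_prime (by omega)
      have hd : u.minFac ∣ u := Nat.minFac_dvd u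
      have := h _ hm (by rw [hT]; exact Dvd.dvd.mul_left hd _)
      exact hpu _ hm this hd
    · -- q = 3
      obtain ⟨k, hk⟩ : ∃ k, u = k + 2 := ⟨u - 2, by omega⟩
      have hT : (PQ u w 3).2 = (2 * k + 3) * (2 * k + 5) := by
        simp only [PQ]
        have hw : w = (k + 2) ^ 2 - 1 := by
          rw [← hk]; omega
        have hw2 : w = k ^ 2 + 4 * k + 3 := by
          have : (k + 2) ^ 2 = k ^ 2 + 4 * k + 4 := by ring
          omega
        rw [hw2, hk]
        ring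
      have hm1 : (2 * k + 3).minFac.Prime := Nat.minFac_prime (by omega)
      have hm2 : (2 * k + 5).minFac.Prime := Nat.minFac_prime (by omega)
      have e1 := ha _ hm1 (by rw [hT]; exact Dvd.dvd.mul_right (Nat.minFac_dvd _) _)
      have e2 := ha _ hm2 (by rw [hT]; exact Dvd.dvd.mul_left (Nat.minFac_dvd _) _)
      have e3 := Nat.minFac_dvd (2 * k + 3)
      have e4 := Nat.minFac_dvd (2 * k + 5)
      rw [e1] at e3
      rw [e2] at e4
      omega
  · have hT0 : (PQ u w q).2 ≠ 0 := by omega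
    have hpow := Nat.eq_prime_pow_of_unique_prime_dvd (p := q) hT0 (fun {d} hd hdT => ha d hd hdT)
    set k := (PQ u w q).2.primeFactorsList.length with hk
    have hk2 : 2 ≤ k := by
      by_contra hcon
      have hk' : k = 0 ∨ k = 1 := by omega
      rcases hk' with h0 | h0
      · rw [h0, pow_zero] at hpow
        have := hq.two_le
        omega
      · rw [h0, pow_one] at hpow
        omega
    have hq2 : q ^ 2 ∣ (PQ u w q).2 := by
      rw [hpow]
      exact pow_dvd_pow q hk2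
    have hqw : q ∣ w := h q hq (dvd_trans (dvd_pow_self q (by norm_num)) hq2)
    have hqc : q ∣ q.choose 3 := hq.dvd_choose_self (by norm_num) (by omega)
    have hqwZ : (q:ℤ) ∣ (w:ℤ) := by exact_mod_cast hqw
    have hqcZ : (q:ℤ) ∣ (q.choose 3 : ℤ) := by exact_mod_cast hqc
    have h1 : (q:ℤ) ^ 2 ∣ (u:ℤ) ^ 3 * (PQ u w q).2 -
      ((q:ℤ) * (u:ℤ) ^ (q + 2) + (q.choose 3 : ℤ) * (u:ℤ) ^ q * w) :=
      dvd_trans (pow_dvd_pow_of_dvd hqwZ 2) hmod
    have h2 : (q:ℤ) ^ 2 ∣ (u:ℤ) ^ 3 * (PQ u w q).2 :=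
      Dvd.dvd.mul_left (by exact_mod_cast hq2) _
    have h3 : (q:ℤ) ^ 2 ∣ ((q:ℤ) * (u:ℤ) ^ (q + 2) + (q.choose 3 : ℤ) * (u:ℤ) ^ q * w) := by
      have := dvd_sub h2 h1
      simpa using this
    have h5 : (q:ℤ) ^ 2 ∣ (q.choose 3 : ℤ) * (u:ℤ) ^ q * w := by
      obtain ⟨s, hs⟩ := hqcZ
      obtain ⟨t, ht⟩ := hqwZ
      refine ⟨s * (u:ℤ) ^ q * t, ?_⟩
      rw [hs, ht]
      ring
    have h6 : (q:ℤ) ^ 2 ∣ (q:ℤ) * (u:ℤ) ^ (q + 2) := (dvd_add_left h5).mp h3
    have h7 : q ^ 2 ∣ q * u ^ (q + 2) := by exact_mod_cast h6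
    have h8 : q ∣ u ^ (q + 2) := by
      rw [pow_two] at h7
      exact Nat.dvd_of_mul_dvd_mul_left hq.pos h7
    exact hpu q hq hqw (hq.dvd_of_dvd_pow h8)

theorem fund_bound (D : ℕ) : ∃ B : ℕ, ∀ x y : ℕ, x ^ 2 = D * y ^ 2 + 1 → 0 < y →
    (∀ p, p.Prime → p ∣ y → p ∣ D) → x ≤ B := by
  by_cases hsq : IsSquare D
  · refine ⟨1, ?_⟩
    intro x y hxy hy _
    obtain ⟨e, rfl⟩ := hsq
    by_contra hx
    push Not at hx
    have h1 : x ^ 2 = (e * y) ^ 2 + 1 := by rw [hxy]; ring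
    have h2 : e * y < x := by
      by_contra hcon
      push Not at hcon
      have := Nat.pow_le_pow_left hcon 2
      omega
    have h3 : (e * y + 1) ^ 2 ≤ x ^ 2 := Nat.pow_le_pow_left h2 2
    have h4 : (e * y + 1) ^ 2 = (e * y) ^ 2 + 2 * (e * y) + 1 := by ring
    have h5 : e * y = 0 := by omega
    rw [h5] at h1
    have h6 : 2 ^ 2 ≤ x ^ 2 := Nat.pow_le_pow_left hx 2
    omega
  · have hD0 : 0 < D := by
      rcases Nat.eq_zero_or_pos D with h0 | h0
      · exact absurd (by rw [h0]; exact ⟨0, rfl⟩) hsq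
      · exact h0
    have hDZ : (0:ℤ) < (D:ℤ) := by exact_mod_cast hD0
    have hsqZ : ¬ IsSquare (D:ℤ) := by
      rw [Int.isSquare_natCast_iff]
      exact hsq
    obtain ⟨a₁, ha₁⟩ := Pell.IsFundamental.exists_of_not_isSquare hDZ hsqZ
    refine ⟨a₁.x.toNat, ?_⟩
    intro x y hxy hy hp
    have hprop : (x:ℤ) ^ 2 - D * (y:ℤ) ^ 2 = 1 := by
      have : ((x:ℤ)) ^ 2 = D * (y:ℤ) ^ 2 + 1 := by exact_mod_cast hxy
      linarith
    set a : Pell.Solution₁ (D:ℤ) := Pell.Solution₁.mk x y hprop with ha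
    have hax : a.x = x := Pell.Solution₁.x_mk _ _ _
    have hay : a.y = y := Pell.Solution₁.y_mk _ _ _
    have hx0 : 0 < x := by
      by_contra hcon
      have : x = 0 := by omega
      rw [this] at hxy
      simp at hxy
    obtain ⟨n, hn⟩ := ha₁.eq_pow_of_nonneg (a := a) (by rw [hax]; exact_mod_cast hx0)
      (by rw [hay]; positivity)
    rcases Nat.lt_or_ge n 2 with hn2 | hn2
    · interval_cases n
      · exfalso
        rw [pow_zero] at hn
        have : a.y = 0 := by rw [hn]; exact Pell.Solution₁.y_one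
        rw [hay] at this
        have : y = 0 := by exact_mod_cast this
        omega
      · rw [pow_one] at hn
        rw [← hn, hax]
        simp
    · exfalso
      have hq : n.minFac.Prime := Nat.minFac_prime (by omega)
      obtain ⟨m, hm⟩ := Nat.minFac_dvd n
      set q := n.minFac with hqdef
      have hm0 : 0 < m := by
        rcases Nat.eq_zero_or_pos m with h0 | h0
        · rw [h0, mul_zero] at hm
          omega
        · exact h0
      set b := a₁ ^ m with hb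
      have hab : a = b ^ q := by
        rw [hn, hb, ← pow_mul, mul_comm m q, ← hm]
      have ha1y : 0 < a₁.y := ha₁.2.1
      have hbx : 0 < b.x := Pell.Solution₁.x_pow_pos ha₁.x_pos m
      have hby : 0 < b.y := by
        obtain ⟨k, hk⟩ : ∃ k, m = k + 1 := ⟨m - 1, by omega⟩
        rw [hb, hk]
        exact Pell.Solution₁.y_pow_succ_pos ha₁.x_pos ha1y k
      obtain ⟨u, hu⟩ := Int.eq_ofNat_of_zero_le hbx.le
      obtain ⟨v, hv⟩ := Int.eq_ofNat_of_zero_le hby.le
      have hv0 : 0 < v := by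
        rw [hv] at hby
        exact_mod_cast hby
      have hpb := b.prop
      rw [hu, hv] at hpb
      have huw : u ^ 2 = D * v ^ 2 + 1 := by
        have : ((u:ℤ)) ^ 2 = D * (v:ℤ) ^ 2 + 1 := by linarith
        exact_mod_cast this
      have hu2 : 2 ≤ u := by
        by_contra hcon
        have h1 : u = 0 ∨ u = 1 := by omega
        have h2 : 0 < D * v ^ 2 := by positivity
        rcases h1 with h1 | h1
        · rw [h1] at huw
          simp at huw
        · rw [h1] at huw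
          simp at huw
          omega
      have hpow := (pell_pow b u v (D * v ^ 2) hu hv (by push_cast; ring) q).2
      rw [← hab, hay] at hpow
      have hyT : y = v * (PQ u (D * v ^ 2) q).2 := by exact_mod_cast hpow
      refine key q u (D * v ^ 2) hq hu2 huw ?_
      intro p hpp hpT
      have h1 : p ∣ y := by
        rw [hyT]
        exact Dvd.dvd.mul_left hpT _
      exact Dvd.dvd.mul_right (hp p hpp h1) _

theorem decomp (D : ℕ) : ∀ y, 0 < D → 0 < y → (∀ p, p.Prime → p ∣ y → p ∣ D) →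
    ∃ D' y', D' * y' ^ 2 = D * y ^ 2 ∧ 0 < D' ∧ 0 < y' ∧ (∀ p, p.Prime → p ∣ y' → p ∣ D') ∧
      (∀ p, p.Prime → ¬ p ^ 3 ∣ D') := by
  induction D using Nat.strong_induction_on with
  | _ D ih =>
    intro y hD hy hp
    by_cases hc : ∃ p, p.Prime ∧ p ^ 3 ∣ D
    · obtain ⟨p, hpp, c, hc⟩ := hc
      have hc0 : 0 < c := by
        rcases Nat.eq_zero_or_pos c with h0 | h0
        · rw [h0, mul_zero] at hc
          omega
        · exact h0
      have h1 : p * c < D := by
        rw [hc]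
        have h2 : 1 < p ^ 2 := by
          have := hpp.one_lt
          nlinarith
        have h3 : p ^ 3 * c = p ^ 2 * (p * c) := by ring
        rw [h3]
        have h4 : 0 < p * c := Nat.mul_pos hpp.pos hc0
        nlinarith
      obtain ⟨D', y', e1, e2, e3, e4, e5⟩ := ih (p * c) h1 (p * y) (Nat.mul_pos hpp.pos hc0)
        (Nat.mul_pos hpp.pos hy) (by
          intro r hr hrd
          rcases (Nat.Prime.dvd_mul hr).mp hrd with h2 | h2
          · exact Dvd.dvd.mul_right h2 _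
          · have h3 := hp r hr h2
            rw [hc] at h3
            rcases (Nat.Prime.dvd_mul hr).mp h3 with h4 | h4
            · exact Dvd.dvd.mul_right (hr.dvd_of_dvd_pow h4) _
            · exact Dvd.dvd.mul_left h4 _)
      refine ⟨D', y', ?_, e2, e3, e4, e5⟩
      rw [e1, hc]
      ring
    · push Not at hc
      exact ⟨D, y, rfl, hD, hy, hp, hc⟩

/-- Størmer: if `x` is large then `x ^ 2 - 1` has a large prime factor. -/
theorem stormer (X : ℕ) : ∃ K : ℕ, ∀ x : ℕ, K ≤ x → ∃ q : ℕ, q.Prime ∧ X < q ∧ q ∣ x ^ 2 - 1 := by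
  choose B hB using fund_bound
  refine ⟨2 + ∑ D ∈ (X.factorial ^ 2).divisors, B D, ?_⟩
  intro x hx
  by_contra hcon
  push Not at hcon
  have hx2 : 2 ≤ x := by omega
  have hN : 0 < x ^ 2 - 1 := by
    have : 2 ^ 2 ≤ x ^ 2 := Nat.pow_le_pow_left hx2 2
    omega
  obtain ⟨D, y, e1, e2, e3, e4, e5⟩ := decomp (x ^ 2 - 1) 1 hN one_pos (by
    intro p hp h1
    exact absurd (Nat.dvd_one.mp h1) hp.one_lt.ne')
  have hxD : x ^ 2 = D * y ^ 2 + 1 := by
    rw [e1]
    omega
  have hle := hB D x y hxD e3 e4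
  have hdvd : D ∣ X.factorial ^ 2 := by
    rw [Nat.dvd_iff_prime_pow_dvd_dvd]
    intro p k hp hpk
    have hk : k ≤ 2 := by
      by_contra hk
      exact e5 p hp (dvd_trans (pow_dvd_pow p (by omega)) hpk)
    rcases Nat.eq_zero_or_pos k with h0 | h0
    · rw [h0, pow_zero]
      exact one_dvd _
    · have h1 : p ∣ x ^ 2 - 1 := by
        have h2 : p ∣ D := dvd_trans (dvd_pow_self p (by omega)) hpk
        have h3 : D ∣ x ^ 2 - 1 := ⟨y ^ 2, by rw [e1]; ring⟩
        exact dvd_trans h2 h3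
      have h2 : p ≤ X := by
        by_contra h3
        exact hcon p hp (by omega) h1
      have h3 : p ∣ X.factorial := (Nat.Prime.dvd_factorial hp).mpr h2
      exact dvd_trans (pow_dvd_pow p hk) (pow_dvd_pow_of_dvd h3 2)
  have hmem : D ∈ (X.factorial ^ 2).divisors := by
    rw [Nat.mem_divisors]
    exact ⟨hdvd, pow_ne_zero _ (Nat.factorial_ne_zero _)⟩
  have hsum := Finset.single_le_sum (f := B) (fun i _ => Nat.zero_le _) hmem
  omega

end Pool.Agent.Helper601.HK
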