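import Mathlib
import Pool.Agent.Helper601.HKDefs

set_option autoImplicit false

namespace Pool.Agent.Helper601.HK



lemma sum_biUnion_le {ι : Type*} [DecidableEq ι] (s : Finset ι) (t : ι → Finset ℕ) (f : ℕ → ℝ)
    (hf : ∀ r, 0 ≤ f r) : ∑ r ∈ s.biUnion t, f r ≤ ∑ j ∈ s, ∑ r ∈ t j, f r := by
  classical
  induction s using Finset.induction_on with
  | empty => simp
  | insert a s ha ih =>
    rw [Finset.biUnion_insert, Finset.sum_insert ha]
    have := Finset.sum_union_inter (s₁ := t a) (s₂ := s.biUnion t) (f := f)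
    have h4 : 0 ≤ ∑ r ∈ t a ∩ s.biUnion t, f r := Finset.sum_nonneg (fun q _ => hf q)
    linarith

lemma log_two_le {k : ℕ} (hk : 100 ≤ k) : 2 ≤ Real.log k := by
  rw [Real.le_log_iff_exp_le (by positivity)]
  have h1 : Real.exp 1 < 2.7182818286 := Real.exp_one_lt_d9
  have h2 : Real.exp 2 = Real.exp 1 * Real.exp 1 := by rw [← Real.exp_add]; norm_num
  have h3 : (100:ℝ) ≤ k := by exact_mod_cast hk
  rw [h2]
  nlinarith [Real.exp_pos 1]

lemma zz_ge {k : ℕ} (hk : 100 ≤ k) : 4 ≤ zz k := by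
  unfold zz
  apply Nat.le_floor
  have := log_two_le hk
  push_cast
  nlinarith

theorem Rng_two {W k : ℕ} (hk : 100 ≤ k) : 2 ∉ Rng W k := by
  unfold Rng
  rw [Finset.mem_filter, Finset.mem_Ioc]
  have := zz_ge hk
  omega

lemma Rng_sum (C : ℝ) (hC : ∀ N : ℕ, 3 ≤ N →
      |∑ p ∈ (Finset.Icc 1 N).filter Nat.Prime, (1 : ℝ) / p - Real.log (Real.log N)| ≤ C)
    (W k : ℕ) (hk : 100 ≤ k) : ∑ q ∈ Rng W k, 1 / (q : ℝ) ≤ |Real.log W| + 2 * |C| := by
  have hz := zz_ge hk
  rcases Nat.eq_zero_or_pos W with hW | hW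
  · subst hW
    have : Rng 0 k = ∅ := by
      unfold Rng
      rw [pow_zero, Finset.Ioc_eq_empty (by omega), Finset.filter_empty]
    rw [this, Finset.sum_empty]
    positivity
  · have hzW : zz k ≤ (zz k) ^ W := Nat.le_self_pow (by omega) _
    have h1 := hC (zz k) (by omega)
    have h2 := hC ((zz k) ^ W) (by omega)
    have hsplit : (Finset.Icc 1 ((zz k)^W)).filter Nat.Prime =
        (Finset.Icc 1 (zz k)).filter Nat.Prime ∪ Rng W k := by
      unfold Rng
      ext q
      simp only [Finset.mem_filter, Finset.mem_Icc, Finset.mem_union, Finset.mem_Ioc]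
      constructor
      · rintro ⟨⟨a, b⟩, c⟩
        by_cases hq : q ≤ zz k
        · left; exact ⟨⟨a, hq⟩, c⟩
        · right; exact ⟨⟨by omega, b⟩, c⟩
      · rintro (⟨⟨a, b⟩, c⟩ | ⟨⟨a, b⟩, c⟩)
        · exact ⟨⟨a, by omega⟩, c⟩
        · exact ⟨⟨by omega, b⟩, c⟩
    have hdis : Disjoint ((Finset.Icc 1 (zz k)).filter Nat.Prime) (Rng W k) := by
      rw [Finset.disjoint_left]
      intro q h3 h4
      unfold Rng at h4
      simp only [Finset.mem_filter, Finset.mem_Icc, Finset.mem_Ioc] at h3 h4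
      omega
    rw [hsplit, Finset.sum_union hdis] at h2
    have hlog : Real.log (Real.log (((zz k)^W : ℕ) : ℝ)) = Real.log W + Real.log (Real.log (zz k)) := by
      push_cast
      rw [Real.log_pow, Real.log_mul]
      · positivity
      · have : (1:ℝ) < zz k := by exact_mod_cast (by omega : 1 < zz k)
        exact (Real.log_pos this).ne'
    rw [hlog] at h2
    have h3 := (abs_le.1 h1).1
    have h4 := (abs_le.1 h2).2
    have h5 := le_abs_self C
    have h6 := le_abs_self (Real.log W)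
    linarith

theorem static_sum
    (mertens : ∃ C : ℝ, ∀ N : ℕ, 3 ≤ N →
      |∑ p ∈ (Finset.Icc 1 N).filter Nat.Prime, (1 : ℝ) / p - Real.log (Real.log N)| ≤ C)
    (W : ℕ) : ∃ CA : ℝ, 0 ≤ CA ∧ ∀ X : ℕ, ∃ k0 : ℕ, ∀ k : ℕ, k0 ≤ k →
    ∀ p : ℕ, p.Prime → (∑ q ∈ (insert p (Rs W X k)).filter Nat.Prime, 2 / (q : ℝ)) ≤ CA := by
  classical
  obtain ⟨C, hC⟩ := mertens
  refine ⟨2 * (|Real.log W| + 2 * |C|) + 1, by positivity, fun X => ⟨100, fun k hk p hp => ?_⟩⟩
  have h1 := Rng_sum C hC W k hk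
  have hsub : (insert p (Rs W X k)).filter Nat.Prime ⊆ {p} ∪ Rng W k := by
    intro q hq
    rw [Finset.mem_filter, Finset.mem_insert] at hq
    rw [Finset.mem_union, Finset.mem_singleton]
    rcases hq.1 with h | h
    · exact Or.inl h
    · right
      unfold Rs at h
      exact (Finset.mem_filter.1 h).1
  have h2 : ∑ q ∈ (insert p (Rs W X k)).filter Nat.Prime, 2 / (q : ℝ) ≤
      ∑ q ∈ {p} ∪ Rng W k, 2 / (q : ℝ) :=
    Finset.sum_le_sum_of_subset_of_nonneg hsub (fun q _ _ => by positivity)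
  have h3 : ∑ q ∈ {p} ∪ Rng W k, 2 / (q : ℝ) ≤ ∑ q ∈ {p}, 2 / (q : ℝ) + ∑ q ∈ Rng W k, 2 / (q : ℝ) := by
    have := Finset.sum_union_inter (s₁ := {p}) (s₂ := Rng W k) (f := fun q : ℕ => 2 / (q : ℝ))
    have h4 : 0 ≤ ∑ q ∈ {p} ∩ Rng W k, 2 / (q : ℝ) := Finset.sum_nonneg (fun q _ => by positivity)
    linarith
  have h5 : ∑ q ∈ Rng W k, 2 / (q : ℝ) = 2 * ∑ q ∈ Rng W k, 1 / (q : ℝ) := by
    rw [Finset.mul_sum]
    apply Finset.sum_congr rfl
    intro q _
    ring
  have h6 : (2 : ℝ) / p ≤ 1 := by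
    have : (2:ℝ) ≤ p := by exact_mod_cast hp.two_le
    rw [div_le_one (by linarith)]
    exact this
  rw [Finset.sum_singleton] at h3
  linarith

lemma card_primeFactors_le (n : ℕ) (hn : 1 ≤ n) : (n.primeFactors.card : ℝ) ≤ 2 * Real.log n := by
  have h1 : 2 ^ n.primeFactors.card ≤ n := by
    calc 2 ^ n.primeFactors.card ≤ ∏ p ∈ n.primeFactors, p := by
          apply Finset.pow_card_le_prod
          intro p hp
          exact (Nat.prime_of_mem_primeFactors hp).two_le
      _ ≤ n := Nat.le_of_dvd (by omega) (Nat.prod_primeFactors_dvd n)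
  have h2 : ((2:ℝ)) ^ n.primeFactors.card ≤ n := by exact_mod_cast h1
  have h3 := Real.log_le_log (by positivity) h2
  rw [Real.log_pow] at h3
  have h4 : (0.6931471803 : ℝ) < Real.log 2 := Real.log_two_gt_d9
  have h5 : (0:ℝ) ≤ n.primeFactors.card := Nat.cast_nonneg _
  nlinarith

theorem static_compl (W X : ℕ) : ∃ k0 : ℕ, ∀ k : ℕ, k0 ≤ k →
    (∑ r ∈ Rng W k \ Rs W X k, 1 / (r : ℝ)) ≤ 1 / 2 := by
  classical
  refine ⟨max (100 + X) (⌈Real.exp (4 * (X + 2) + 1)⌉₊), fun k hk => ?_⟩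
  have hk1 : 100 + X ≤ k := le_trans (le_max_left _ _) hk
  have hk2 : ⌈Real.exp (4 * (X + 2) + 1)⌉₊ ≤ k := le_trans (le_max_right _ _) hk
  have hkpos : (0:ℝ) < k := by
    have : (0:ℕ) < k := by omega
    exact_mod_cast this
  set L := Real.log k with hL
  have hL1 : 4 * ((X:ℝ) + 2) + 1 ≤ L := by
    rw [hL, Real.le_log_iff_exp_le hkpos]
    exact le_trans (Nat.le_ceil _) (by exact_mod_cast hk2)
  have hX : (0:ℝ) ≤ X := Nat.cast_nonneg _
  have hz : L ^ 2 - 1 < zz k := by
    unfold zz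
    have := Nat.lt_floor_add_one (L ^ 2)
    linarith
  have hzpos : (0:ℝ) < L ^ 2 - 1 := by nlinarith
  -- cover
  have hcov : Rng W k \ Rs W X k ⊆ (Finset.range (X + 2)).biUnion
      (fun j => ((k + 1 - j).primeFactors).filter (fun r => zz k < r)) := by
    intro r hr
    rw [Finset.mem_sdiff] at hr
    obtain ⟨h1, h2⟩ := hr
    unfold Rs at h2
    rw [Finset.mem_filter] at h2
    push Not at h2
    obtain ⟨j, hj, hd⟩ := h2 h1
    unfold Rng at h1
    rw [Finset.mem_filter, Finset.mem_Ioc] at h1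
    rw [Finset.mem_biUnion]
    refine ⟨j, Finset.mem_range.2 (by omega), ?_⟩
    rw [Finset.mem_filter, Nat.mem_primeFactors]
    exact ⟨⟨h1.2, hd, by omega⟩, h1.1.1⟩
  have hlogk : Real.log ((k:ℝ) + 1) ≤ L + 1 := by
    have h1 : (k:ℝ) + 1 ≤ k * Real.exp 1 := by
      have := Real.exp_one_gt_d9
      have : (1:ℝ) ≤ k := by
        have : (1:ℕ) ≤ k := by omega
        exact_mod_cast this
      nlinarith
    have h2 := Real.log_le_log (by positivity) h1
    rw [Real.log_mul hkpos.ne' (Real.exp_pos 1).ne', Real.log_exp] at h2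
    exact h2
  have hterm : ∀ j ∈ Finset.range (X + 2),
      ∑ r ∈ ((k + 1 - j).primeFactors).filter (fun r => zz k < r), 1 / (r : ℝ) ≤
        2 * (L + 1) / (L ^ 2 - 1) := by
    intro j hj
    rw [Finset.mem_range] at hj
    calc ∑ r ∈ ((k + 1 - j).primeFactors).filter (fun r => zz k < r), 1 / (r : ℝ)
        ≤ ∑ r ∈ ((k + 1 - j).primeFactors).filter (fun r => zz k < r), 1 / (L ^ 2 - 1) := by
          apply Finset.sum_le_sum
          intro r hr
          rw [Finset.mem_filter] at hr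
          apply one_div_le_one_div_of_le hzpos
          have : (zz k : ℝ) < r := by exact_mod_cast hr.2
          linarith
      _ = (((k + 1 - j).primeFactors).filter (fun r => zz k < r)).card * (1 / (L ^ 2 - 1)) := by
          rw [Finset.sum_const, nsmul_eq_mul]
      _ ≤ (2 * (L + 1)) * (1 / (L ^ 2 - 1)) := by
          apply mul_le_mul_of_nonneg_right _ (by positivity)
          have h1 := card_primeFactors_le (k + 1 - j) (by omega)
          have h2 : ((((k + 1 - j).primeFactors).filter (fun r => zz k < r)).card : ℝ) ≤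
              (k + 1 - j).primeFactors.card := by
            exact_mod_cast Finset.card_filter_le _ _
          have h3 : Real.log ((k + 1 - j : ℕ) : ℝ) ≤ Real.log ((k:ℝ) + 1) := by
            apply Real.log_le_log
            · have : 0 < k + 1 - j := by omega
              exact_mod_cast this
            · have : k + 1 - j ≤ k + 1 := by omega
              exact_mod_cast this
          linarith
      _ = 2 * (L + 1) / (L ^ 2 - 1) := by ring
  calc (∑ r ∈ Rng W k \ Rs W X k, 1 / (r : ℝ))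
      ≤ ∑ r ∈ (Finset.range (X + 2)).biUnion
        (fun j => ((k + 1 - j).primeFactors).filter (fun r => zz k < r)), 1 / (r : ℝ) :=
        Finset.sum_le_sum_of_subset_of_nonneg hcov (fun r _ _ => by positivity)
    _ ≤ ∑ j ∈ Finset.range (X + 2),
        ∑ r ∈ ((k + 1 - j).primeFactors).filter (fun r => zz k < r), 1 / (r : ℝ) :=
        sum_biUnion_le _ _ _ (fun r => by positivity)
    _ ≤ ∑ j ∈ Finset.range (X + 2), 2 * (L + 1) / (L ^ 2 - 1) := Finset.sum_le_sum hterm
    _ = (X + 2) * (2 * (L + 1) / (L ^ 2 - 1)) := by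
        rw [Finset.sum_const, Finset.card_range, nsmul_eq_mul]; push_cast; ring
    _ ≤ 1 / 2 := by
        rw [mul_div_assoc', div_le_iff₀ hzpos]
        have h1 : L ^ 2 - 1 = (L + 1) * (L - 1) := by ring
        rw [h1]
        have h2 : 0 ≤ L + 1 := by linarith
        nlinarith

end Pool.Agent.Helper601.HK
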