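import Mathlib
import Pool.Agent.Helper601.HKDefs
import Pool.Agent.Helper601.Mertens
import Pool.Agent.Helper601.PNT
import Pool.Agent.Helper601.HKSieve
import Pool.Agent.Helper601.HKTwo3
import Pool.Agent.Helper601.HKa1
import Pool.Agent.Helper601.HKa2
import Pool.Agent.Helper601.HKa3
import Pool.Agent.Helper601.HKa4
import Pool.Agent.Helper601.HKa5
import Pool.Agent.Helper601.HKa6
import Pool.Agent.Helper601.HKa7
import Pool.Agent.Helper601.HKa8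
import Pool.Agent.Helper601.HKa9
import Pool.Agent.Helper601.HKa10
import Pool.Agent.Helper601.HKa11
import Pool.Agent.Helper601.HKa15

/-! The lemmas of the blueprint with all their hypotheses discharged. -/

set_option autoImplicit false

open Filter Topology

namespace Pool.Agent.Helper601.HKZ

open Pool.Agent.Helper601 Pool.Agent.Helper601.HK

theorem cheb : ∃ C : ℝ, 1 ≤ C ∧ ∀ z : ℕ, 2 ≤ z →
    (Nat.primeCounting z : ℝ) ≤ C * z / Real.log z := by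
  refine ⟨2 * Real.log 4 + 2, ?_, ?_⟩
  · have : 0 < Real.log 4 := Real.log_pos (by norm_num)
    linarith
  · intro z hz
    have hz2 : (2 : ℝ) ≤ z := by exact_mod_cast hz
    have hz0 : (0 : ℝ) < z := by linarith
    have h := Chebyshev.pi_le_log4_mul_div (x := (z : ℝ)) (by linarith)
    rw [Nat.floor_natCast] at h
    have hlog : 0 < Real.log z := Real.log_pos (by linarith)
    have hs : Real.log (Real.sqrt z) = Real.log z / 2 := Real.log_sqrt hz0.le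
    rw [hs] at h
    have h2 : Real.sqrt z ≤ 2 * z / Real.log z := by
      rw [le_div_iff₀ hlog]
      have h3 : Real.log z ≤ 2 * Real.sqrt z := by
        have h4 : Real.log (Real.sqrt z) ≤ Real.sqrt z := by
          have := Real.log_le_sub_one_of_pos (Real.sqrt_pos.mpr hz0)
          linarith
        rw [hs] at h4
        linarith
      calc Real.sqrt z * Real.log z ≤ Real.sqrt z * (2 * Real.sqrt z) := by
            gcongr
        _ = 2 * (Real.sqrt z * Real.sqrt z) := by ring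
        _ = 2 * z := by rw [Real.mul_self_sqrt hz0.le]
    refine h.trans ?_
    calc Real.log 4 * z / (Real.log z / 2) + Real.sqrt z
        ≤ Real.log 4 * z / (Real.log z / 2) + 2 * z / Real.log z := by gcongr
      _ = (2 * Real.log 4 + 2) * z / Real.log z := by field_simp

theorem avail : ∃ κ : ℝ, 0 < κ ∧ ∀ C2 : ℝ, 1 ≤ C2 → ∃ K0 X0 : ℕ, ∀ k u : ℕ,
    X0 ≤ u → u * K0 ≤ k → C2 * u / Real.log u + 2 ≤ ((Av κ k u).card : ℝ) :=
  HK.avail (fun M h z h1 h2 => HK.erdos_lemma M h z h1 h2) cheb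

theorem sparse (CA : ℝ) (hCA : 0 ≤ CA) : ∃ C2 : ℝ, 1 ≤ C2 ∧ ∀ κ η : ℝ, 0 < κ → 0 < η →
    ∃ K0 : ℕ, ∀ K : ℕ, K0 ≤ K → ∃ X0 : ℕ, ∀ X : ℕ, X0 ≤ X → ∃ k0 : ℕ, ∀ k : ℕ, k0 ≤ k →
    ∀ (A T : Finset ℕ) (τ : ℕ → ℕ) (U : ℕ), (∑ q ∈ A.filter Nat.Prime, 2 / (q : ℝ)) ≤ CA →
    U * K ≤ k → Inv κ k A X U T τ →
    (∀ u : ℕ, X ≤ u → u ≤ U → (Bn k (A ∪ T) u : ℝ) ≤ C2 * u / Real.log u) ∧
    (∑ q ∈ T, 1 / (q : ℝ)) ≤ η :=
  HK.sparse HK.Bn_le_sieve CA hCA

theorem free_primes : ∃ W : ℕ, 1 ≤ W ∧ ∀ K : ℕ, 1 ≤ K → ∃ k0 : ℕ, ∀ k : ℕ, k0 ≤ k →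
    ∀ R : Finset ℕ, R ⊆ Rng W k → (∑ r ∈ Rng W k \ R, 1 / (r : ℝ)) ≤ 1 →
    ∀ u : ℕ, k ≤ u * K → 2 * u ≤ k → (u : ℝ) / (4 * Real.log k) ≤
      (((Finset.Ioo (k - u) k).filter (fun q => q.Prime ∧ ∃ r ∈ R, r ∣ q + 1)).card : ℝ) :=
  HK.free_primes (HK.sieve_two HK.selberg_lower) (HK.pnt_interval PNT.pi_tendsto) Mertens.mertens_inv

theorem static_sum (W : ℕ) : ∃ CA : ℝ, 0 ≤ CA ∧ ∀ X : ℕ, ∃ k0 : ℕ, ∀ k : ℕ, k0 ≤ k →
    ∀ p : ℕ, p.Prime → (∑ q ∈ (insert p (Rs W X k)).filter Nat.Prime, 2 / (q : ℝ)) ≤ CA :=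
  HK.static_sum Mertens.mertens_inv W

theorem base (W X : ℕ) (κ : ℝ) : ∃ k0 : ℕ, ∀ k : ℕ, k0 ≤ k → ¬ IsPrimePow k →
    ∃ (p p' : ℕ) (T : Finset ℕ) (τ : ℕ → ℕ), p.Prime ∧ p ≠ 2 ∧ p ∣ k ∧ p'.Prime ∧ p' ∣ k ∧
      p' ≠ p ∧ Inv κ k (insert p (Rs W X k)) X X T τ := by
  obtain ⟨k1, hk1⟩ := HK.base_large W X κ
  obtain ⟨k2, hk2⟩ := HK.base_small HK.stormer W X κ
  refine ⟨max (max k1 k2) 2, fun k hk hnpp => ?_⟩
  have hk1' : k1 ≤ k := le_trans (le_trans (le_max_left _ _) (le_max_left _ _)) hk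
  have hk2' : k2 ≤ k := le_trans (le_trans (le_max_right _ _) (le_max_left _ _)) hk
  have hk3 : 2 ≤ k := le_trans (le_max_right _ _) hk
  have hk0 : k ≠ 0 := by omega
  have hne : k.primeFactors.Nonempty := by
    obtain ⟨q, hq, hqk⟩ := Nat.exists_prime_and_dvd (n := k) (by omega)
    exact ⟨q, Nat.mem_primeFactors.mpr ⟨hq, hqk, hk0⟩⟩
  set p := k.primeFactors.max' hne with hp
  have hpm : p ∈ k.primeFactors := Finset.max'_mem _ _
  have hpp : p.Prime := Nat.prime_of_mem_primeFactors hpm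
  have hpk : p ∣ k := Nat.dvd_of_mem_primeFactors hpm
  have hmax : ∀ l : ℕ, l.Prime → l ∣ k → l ≤ p := fun l hl hlk =>
    Finset.le_max' _ _ (Nat.mem_primeFactors.mpr ⟨hl, hlk, hk0⟩)
  -- another prime factor
  obtain ⟨p', hp', hp'k, hne'⟩ : ∃ p' : ℕ, p'.Prime ∧ p' ∣ k ∧ p' ≠ p := by
    by_contra hcon
    push Not at hcon
    apply hnpp
    have h1 : k.primeFactors = {p} := by
      ext q
      rw [Finset.mem_singleton]
      constructor
      · intro hq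
        exact hcon q (Nat.prime_of_mem_primeFactors hq) (Nat.dvd_of_mem_primeFactors hq)
      · rintro rfl
        exact hpm
    rw [isPrimePow_nat_iff]
    refine ⟨p, k.factorization p, hpp, ?_, ?_⟩
    · exact hpp.factorization_pos_of_dvd hk0 hpk
    · conv_rhs => rw [← Nat.prod_factorization_pow_eq_self hk0]
      rw [Finsupp.prod, Nat.support_factorization, h1, Finset.prod_singleton]
  have hp2 : p ≠ 2 := by
    intro h
    have h1 := hmax p' hp' hp'k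
    have h2 := hp'.two_le
    omega
  by_cases hX : X < p
  · exact ⟨p, p', ∅, fun _ => 0, hpp, hp2, hpk, hp', hp'k, hne', hk1 k hk1' p hpp hX hpk⟩
  · obtain ⟨T, τ, hI⟩ := hk2 k hk2' hnpp p hpp hp2 hpk hmax (by omega)
    exact ⟨p, p', T, τ, hpp, hp2, hpk, hp', hp'k, hne', hI⟩

end Pool.Agent.Helper601.HKZ
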