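import Mathlib
import Pool.Agent.Helper601.HKDefs

set_option autoImplicit false

namespace Pool.Agent.Helper601.HK



theorem j1040_large (D : ℝ) (K : ℕ) : ∃ k0 : ℕ, ∀ k : ℕ, k0 ≤ k →
    K ≤ k ∧ 3 ≤ k ∧ D * 512 ≤ (k : ℝ) ^ (1 / 8 : ℝ) := by
  have h1 : Filter.Tendsto (fun k : ℕ => (k : ℝ) ^ (1 / 8 : ℝ)) Filter.atTop Filter.atTop :=
    (tendsto_rpow_atTop (by norm_num)).comp tendsto_natCast_atTop_atTop
  have h2 := h1.eventually_ge_atTop (D * 512)
  have h3 := Filter.eventually_ge_atTop (α := ℕ) K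
  have h4 := Filter.eventually_ge_atTop (α := ℕ) 3
  obtain ⟨k0, hk0⟩ := Filter.eventually_atTop.1 (h3.and (h4.and h2))
  exact ⟨k0, hk0⟩

theorem j1040_error (C2 c kr : ℝ) (hC2 : 0 ≤ C2) (hc : 0 ≤ c) (hk : 1 ≤ kr)
    (h : (2 * C2 + c) * 512 ≤ kr ^ (1 / 8 : ℝ)) :
    (2 * C2 * Real.sqrt kr + c) * (2 * Real.log kr * Real.log kr) ≤ kr ^ (3 / 4 : ℝ) := by
  have h0 : (0 : ℝ) ≤ kr := by linarith
  have hl0 : 0 ≤ Real.log kr := Real.log_nonneg hk
  have h1 : Real.log kr ≤ kr ^ (1 / 16 : ℝ) / (1 / 16) :=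
    Real.log_le_rpow_div h0 (by norm_num)
  have h2 : Real.log kr * Real.log kr ≤ 256 * kr ^ (1 / 8 : ℝ) := by
    have h3 : Real.log kr * Real.log kr ≤
        (kr ^ (1 / 16 : ℝ) / (1 / 16)) * (kr ^ (1 / 16 : ℝ) / (1 / 16)) :=
      mul_le_mul h1 h1 hl0 (hl0.trans h1)
    have h4 : kr ^ (1 / 16 : ℝ) * kr ^ (1 / 16 : ℝ) = kr ^ (1 / 8 : ℝ) := by
      rw [← Real.rpow_add (by linarith)]
      norm_num
    calc Real.log kr * Real.log kr ≤
        (kr ^ (1 / 16 : ℝ) / (1 / 16)) * (kr ^ (1 / 16 : ℝ) / (1 / 16)) := h3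
      _ = 256 * (kr ^ (1 / 16 : ℝ) * kr ^ (1 / 16 : ℝ)) := by ring
      _ = 256 * kr ^ (1 / 8 : ℝ) := by rw [h4]
  have h5 : (1 : ℝ) ≤ kr ^ (1 / 2 : ℝ) := Real.one_le_rpow hk (by norm_num)
  have h6 : 2 * C2 * Real.sqrt kr + c ≤ (2 * C2 + c) * kr ^ (1 / 2 : ℝ) := by
    rw [Real.sqrt_eq_rpow]
    nlinarith
  have h7 : 0 ≤ kr ^ (1 / 8 : ℝ) := Real.rpow_nonneg h0 _
  have h8 : kr ^ (1 / 8 : ℝ) * kr ^ (1 / 8 : ℝ) * kr ^ (1 / 2 : ℝ) = kr ^ (3 / 4 : ℝ) := by
    rw [← Real.rpow_add (by linarith), ← Real.rpow_add (by linarith)]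
    norm_num
  calc (2 * C2 * Real.sqrt kr + c) * (2 * Real.log kr * Real.log kr)
      ≤ ((2 * C2 + c) * kr ^ (1 / 2 : ℝ)) * (512 * kr ^ (1 / 8 : ℝ)) := by
        apply mul_le_mul h6 (by nlinarith) (by positivity) (by positivity)
    _ = ((2 * C2 + c) * 512) * kr ^ (1 / 8 : ℝ) * kr ^ (1 / 2 : ℝ) := by ring
    _ ≤ kr ^ (1 / 8 : ℝ) * kr ^ (1 / 8 : ℝ) * kr ^ (1 / 2 : ℝ) := by
        apply mul_le_mul_of_nonneg_right _ (by linarith)
        exact mul_le_mul_of_nonneg_right h h7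
    _ = kr ^ (3 / 4 : ℝ) := h8

theorem j1040_div_log (m : ℕ) : (m : ℝ) / Real.log m ≤ 2 * m := by
  rcases Nat.lt_or_ge m 2 with h | h
  · interval_cases m <;> simp
  · have h1 : Real.log 2 ≤ Real.log m := Real.log_le_log (by norm_num) (by exact_mod_cast h)
    have h2 := Real.log_two_gt_d9
    rw [div_le_iff₀ (by linarith)]
    have h3 : (0 : ℝ) ≤ m := Nat.cast_nonneg m
    nlinarith

open Classical in
theorem j1040_card (κ : ℝ) (k : ℕ) (A : Finset ℕ) (X U : ℕ) (T : Finset ℕ) (τ : ℕ → ℕ)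
    (h : Inv κ k A X U T τ) (T' : Finset ℕ) (hT' : T' ⊆ T) (w : ℕ)
    (hw : ∀ q ∈ T', ht k (τ q) ≤ w) : T'.card ≤ Bn k (A ∪ T) w := by
  unfold Bn
  apply Finset.card_le_card_of_injOn τ
  · intro q hq
    have hq' : q ∈ T' := hq
    obtain ⟨h1, h2, h3, h4⟩ := h.mem q (hT' hq')
    simp only [Finset.coe_filter, Finset.mem_Ioo, Set.mem_ofPred_eq]
    exact ⟨⟨h1, h2⟩, hw q hq', h4⟩
  · intro q hq q' hq' he
    exact h.inj q (hT' hq) q' (hT' hq') he

open Classical in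
theorem count_T_nat (C2 κ : ℝ) (hC2 : 1 ≤ C2) (hκ : 0 < κ) : ∃ C3 : ℝ, 1 ≤ C3 ∧ ∀ K X : ℕ, 3 ≤ K →
    ∃ k0 : ℕ, ∀ k : ℕ, k0 ≤ k → ∀ (A T : Finset ℕ) (τ : ℕ → ℕ) (U : ℕ), U * K ≤ k →
    Inv κ k A X U T τ →
    (∀ u : ℕ, X ≤ u → u ≤ U → (Bn k (A ∪ T) u : ℝ) ≤ C2 * u / Real.log u) →
    ∀ x : ℝ, (k : ℝ) ^ (3 / 4 : ℝ) ≤ x → x ≤ k →
      ((T.filter (fun q : ℕ => (q : ℝ) ≤ x)).card : ℝ) ≤
        C3 * x / (Real.log (K + k / x) * Real.log k) := by
  refine ⟨4 * C2 / κ + 1, by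
    have : 0 ≤ 4 * C2 / κ := by positivity
    linarith, ?_⟩
  intro K X hK
  obtain ⟨k0, hk0⟩ := j1040_large (2 * C2 + ((Nat.log 2 X : ℝ) + 2)) K
  refine ⟨k0, fun k hk A T τ U hUK hinv hB x hx1 hx2 => ?_⟩
  obtain ⟨hkK, hk3, hbig⟩ := hk0 k hk
  -- real facts
  have hkr : (3 : ℝ) ≤ (k : ℝ) := by exact_mod_cast hk3
  have hKr : (3 : ℝ) ≤ (K : ℝ) := by exact_mod_cast hK
  have hKk : (K : ℝ) ≤ (k : ℝ) := by exact_mod_cast hkK
  have hx0 : (1 : ℝ) ≤ x := (Real.one_le_rpow (by linarith) (by norm_num)).trans hx1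
  have hxp : 0 < x := by linarith
  have hlk : 0 < Real.log k := Real.log_pos (by linarith)
  have hkx0 : 0 ≤ (k : ℝ) / x := by positivity
  have hL : 0 < Real.log (K + k / x) := Real.log_pos (by linarith)
  have hL2 : Real.log (K + k / x) ≤ 2 * Real.log k := by
    have h1 : (k : ℝ) / x ≤ k := div_le_self (by linarith) hx0
    have h2 : Real.log ((k : ℝ) ^ 2) = 2 * Real.log k := by
      rw [Real.log_pow]
      norm_num
    rw [← h2]
    apply Real.log_le_log (by linarith)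
    nlinarith
  set L := Real.log (K + k / x) with hLdef
  -- the error term
  have herr : 2 * C2 * Real.sqrt k + ((Nat.log 2 X : ℝ) + 2) ≤ x / (L * Real.log k) := by
    rw [le_div_iff₀ (by positivity)]
    have h1 := j1040_error C2 ((Nat.log 2 X : ℝ) + 2) k (by linarith) (by positivity)
      (by linarith) hbig
    refine le_trans ?_ (h1.trans hx1)
    apply mul_le_mul_of_nonneg_left _ (by positivity)
    exact mul_le_mul_of_nonneg_right hL2 hlk.le
  -- the three parts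
  have hsub : T.filter (fun q : ℕ => (q : ℝ) ≤ x) ⊆
      (T.filter (fun q : ℕ => ht k (τ q) ≤ X) ∪
        T.filter (fun q : ℕ => X < ht k (τ q) ∧ (ht k (τ q)) ^ 2 ≤ k)) ∪
        T.filter (fun q : ℕ => (q : ℝ) ≤ x ∧ X < ht k (τ q) ∧ k < (ht k (τ q)) ^ 2) := by
    intro q hq
    rw [Finset.mem_filter] at hq
    simp only [Finset.mem_union, Finset.mem_filter]
    rcases Nat.lt_or_ge X (ht k (τ q)) with h1 | h1
    · rcases Nat.lt_or_ge k ((ht k (τ q)) ^ 2) with h2 | h2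
      · exact Or.inr ⟨hq.1, hq.2, h1, h2⟩
      · exact Or.inl (Or.inr ⟨hq.1, h1, h2⟩)
    · exact Or.inl (Or.inl ⟨hq.1, h1⟩)
  have hT0 : ((T.filter (fun q : ℕ => ht k (τ q) ≤ X)).card : ℝ) ≤ (Nat.log 2 X : ℝ) + 2 := by
    exact_mod_cast hinv.init
  have hT1 : ((T.filter (fun q : ℕ => X < ht k (τ q) ∧ (ht k (τ q)) ^ 2 ≤ k)).card : ℝ) ≤
      2 * C2 * Real.sqrt k := by
    rcases (T.filter (fun q : ℕ => X < ht k (τ q) ∧ (ht k (τ q)) ^ 2 ≤ k)).eq_empty_or_nonempty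
      with he | ⟨q, hq⟩
    · rw [he]
      simp only [Finset.card_empty, Nat.cast_zero]
      positivity
    · have hw : ∀ q ∈ T.filter (fun q : ℕ => X < ht k (τ q) ∧ (ht k (τ q)) ^ 2 ≤ k),
          ht k (τ q) ≤ min (Nat.sqrt k) U := by
        intro q hq
        rw [Finset.mem_filter] at hq
        refine le_min ?_ (hinv.mem q hq.1).2.2.1
        rw [Nat.le_sqrt']
        exact hq.2.2
      have h1 := j1040_card κ k A X U T τ hinv _ (Finset.filter_subset _ _) _ hw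
      have h2 : X ≤ min (Nat.sqrt k) U := by
        have := hw q hq
        rw [Finset.mem_filter] at hq
        omega
      have h3 := hB _ h2 (min_le_right _ _)
      have h4 : ((min (Nat.sqrt k) U : ℕ) : ℝ) ≤ Real.sqrt k :=
        (by exact_mod_cast min_le_left _ _ : ((min (Nat.sqrt k) U : ℕ) : ℝ) ≤ (Nat.sqrt k : ℝ)).trans
          Real.nat_sqrt_le_real_sqrt
      have h5 := j1040_div_log (min (Nat.sqrt k) U)
      calc ((T.filter (fun q : ℕ => X < ht k (τ q) ∧ (ht k (τ q)) ^ 2 ≤ k)).card : ℝ)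
          ≤ (Bn k (A ∪ T) (min (Nat.sqrt k) U) : ℝ) := by exact_mod_cast h1
        _ ≤ C2 * ((min (Nat.sqrt k) U : ℕ) : ℝ) / Real.log ((min (Nat.sqrt k) U : ℕ) : ℝ) := h3
        _ = C2 * (((min (Nat.sqrt k) U : ℕ) : ℝ) / Real.log ((min (Nat.sqrt k) U : ℕ) : ℝ)) := by
            ring
        _ ≤ C2 * (2 * ((min (Nat.sqrt k) U : ℕ) : ℝ)) :=
            mul_le_mul_of_nonneg_left h5 (by linarith)
        _ ≤ 2 * C2 * Real.sqrt k := by nlinarith
  have hT2 : ((T.filter (fun q : ℕ => (q : ℝ) ≤ x ∧ X < ht k (τ q) ∧ k < (ht k (τ q)) ^ 2)).card : ℝ) ≤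
      4 * C2 / κ * (x / (L * Real.log k)) := by
    rcases (T.filter (fun q : ℕ => (q : ℝ) ≤ x ∧ X < ht k (τ q) ∧
      k < (ht k (τ q)) ^ 2)).eq_empty_or_nonempty with he | ⟨q, hq⟩
    · rw [he]
      simp only [Finset.card_empty, Nat.cast_zero]
      positivity
    · have hvs : (0 : ℝ) ≤ 2 * x / (κ * L) := by positivity
      have hw : ∀ q ∈ T.filter (fun q : ℕ => (q : ℝ) ≤ x ∧ X < ht k (τ q) ∧ k < (ht k (τ q)) ^ 2),
          ht k (τ q) ≤ min ⌊2 * x / (κ * L)⌋₊ U := by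
        intro q hq
        rw [Finset.mem_filter] at hq
        obtain ⟨hqT, hqx, hqX, hqk⟩ := hq
        have hU := (hinv.mem q hqT).2.2.1
        refine le_min ?_ hU
        rw [Nat.le_floor_iff hvs]
        set v := ht k (τ q) with hv
        have hv1 : 1 ≤ v := by
          by_contra hcon
          have : v = 0 := by omega
          rw [this] at hqk
          omega
        have hvr : (1 : ℝ) ≤ (v : ℝ) := by exact_mod_cast hv1
        have hvx : (v : ℝ) ≤ x := by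
          have : (v : ℝ) < (q : ℝ) := by exact_mod_cast hinv.lt q hqT
          linarith
        have hZ : κ * v * Real.log ((k : ℝ) / v) < q := by
          rcases hinv.big q hqT with h1 | h1
          · exact absurd h1.1 (by rw [← hv]; omega)
          · have h2 := h1.2
            rw [← hv, Zf, if_neg (by omega)] at h2
            exact h2
        have hKv : (K : ℝ) ≤ (k : ℝ) / v := by
          rw [le_div_iff₀ (by linarith)]
          have : K * v ≤ k := by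
            calc K * v ≤ K * U := Nat.mul_le_mul_left _ hU
              _ = U * K := Nat.mul_comm _ _
              _ ≤ k := hUK
          exact_mod_cast this
        have hkxv : (k : ℝ) / x ≤ (k : ℝ) / v :=
          div_le_div_of_nonneg_left (by linarith) (by linarith) hvx
        have hLv : L ≤ 2 * Real.log ((k : ℝ) / v) := by
          have h2 : Real.log (((k : ℝ) / v) ^ 2) = 2 * Real.log ((k : ℝ) / v) := by
            rw [Real.log_pow]
            norm_num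
          rw [← h2]
          apply Real.log_le_log (by linarith)
          nlinarith
        rw [le_div_iff₀ (by positivity)]
        have h3 : κ * v * L ≤ κ * v * (2 * Real.log ((k : ℝ) / v)) :=
          mul_le_mul_of_nonneg_left hLv (by positivity)
        nlinarith
      have h1 := j1040_card κ k A X U T τ hinv _ (Finset.filter_subset _ _) _ hw
      have hwq := hw q hq
      rw [Finset.mem_filter] at hq
      set w := min ⌊2 * x / (κ * L)⌋₊ U with hwdef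
      have h2 : X ≤ w := by omega
      have h3 := hB _ h2 (min_le_right _ _)
      have hw2 : k < w ^ 2 := lt_of_lt_of_le hq.2.2.2 (Nat.pow_le_pow_left hwq 2)
      have hlw : Real.log k ≤ 2 * Real.log w := by
        have h4 : Real.log ((w : ℝ) ^ 2) = 2 * Real.log w := by
          rw [Real.log_pow]
          norm_num
        rw [← h4]
        apply Real.log_le_log (by linarith)
        exact_mod_cast hw2.le
      have hwv : (w : ℝ) ≤ 2 * x / (κ * L) :=
        (by exact_mod_cast min_le_left _ _ : (w : ℝ) ≤ (⌊2 * x / (κ * L)⌋₊ : ℝ)).trans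
          (Nat.floor_le hvs)
      calc ((T.filter (fun q : ℕ => (q : ℝ) ≤ x ∧ X < ht k (τ q) ∧ k < (ht k (τ q)) ^ 2)).card : ℝ)
          ≤ (Bn k (A ∪ T) w : ℝ) := by exact_mod_cast h1
        _ ≤ C2 * w / Real.log w := h3
        _ ≤ C2 * (2 * x / (κ * L)) / (Real.log k / 2) := by
            apply div_le_div₀ (by positivity)
              (mul_le_mul_of_nonneg_left hwv (by linarith)) (by positivity) (by linarith)
        _ = 4 * C2 / κ * (x / (L * Real.log k)) := by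
            field_simp
            ring
  have hcard : ((T.filter (fun q : ℕ => (q : ℝ) ≤ x)).card : ℝ) ≤
      ((T.filter (fun q : ℕ => ht k (τ q) ≤ X)).card : ℝ) +
        ((T.filter (fun q : ℕ => X < ht k (τ q) ∧ (ht k (τ q)) ^ 2 ≤ k)).card : ℝ) +
        ((T.filter (fun q : ℕ => (q : ℝ) ≤ x ∧ X < ht k (τ q) ∧ k < (ht k (τ q)) ^ 2)).card : ℝ) := by
    have h1 := (Finset.card_le_card hsub).trans ((Finset.card_union_le _ _).trans
      (Nat.add_le_add_right (Finset.card_union_le _ _) _))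
    exact_mod_cast h1
  have hfin : (4 * C2 / κ + 1) * x / (L * Real.log k) =
      4 * C2 / κ * (x / (L * Real.log k)) + x / (L * Real.log k) := by ring
  rw [hfin]
  linarith

open Classical in
/-- In `count_T` the coercion `(q : ℝ)` makes Lean read `T` as the `Finset ℝ` of all casts; the two
readings count the same thing. -/
theorem j1040_bridge (T : Finset ℕ) (x : ℝ) :
    (T.filter (fun q => (q : ℝ) ≤ x)).card = (T.filter (fun q : ℕ => (q : ℝ) ≤ x)).card := by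
  rw [← Finset.card_image_of_injective (T.filter (fun q : ℕ => (q : ℝ) ≤ x))
    (Nat.cast_injective (R := ℝ))]
  congr 1
  ext y
  simp only [Finset.mem_filter, Finset.mem_image, Finset.bind_def, Finset.mem_sup,
    Finset.pure_def, Finset.mem_singleton]
  constructor
  · rintro ⟨⟨a, ha, rfl⟩, hy⟩
    exact ⟨a, ⟨ha, hy⟩, rfl⟩
  · rintro ⟨a, ⟨ha, hy⟩, rfl⟩
    exact ⟨⟨a, ha, rfl⟩, hy⟩

open Classical in
theorem count_T (C2 κ : ℝ) (hC2 : 1 ≤ C2) (hκ : 0 < κ) : ∃ C3 : ℝ, 1 ≤ C3 ∧ ∀ K X : ℕ, 3 ≤ K →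
    ∃ k0 : ℕ, ∀ k : ℕ, k0 ≤ k → ∀ (A T : Finset ℕ) (τ : ℕ → ℕ) (U : ℕ), U * K ≤ k →
    Inv κ k A X U T τ →
    (∀ u : ℕ, X ≤ u → u ≤ U → (Bn k (A ∪ T) u : ℝ) ≤ C2 * u / Real.log u) →
    ∀ x : ℝ, (k : ℝ) ^ (3 / 4 : ℝ) ≤ x → x ≤ k →
      ((T.filter (fun q => (q : ℝ) ≤ x)).card : ℝ) ≤
        C3 * x / (Real.log (K + k / x) * Real.log k) := by
  obtain ⟨C3, h1, h2⟩ := count_T_nat C2 κ hC2 hκ
  refine ⟨C3, h1, fun K X hK => ?_⟩
  obtain ⟨k0, h3⟩ := h2 K X hK
  refine ⟨k0, fun k hk A T τ U hUK hinv hB x hx1 hx2 => ?_⟩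
  rw [j1040_bridge]
  exact h3 k hk A T τ U hUK hinv hB x hx1 hx2

end Pool.Agent.Helper601.HK
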