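import Mathlib
import Pool.Agent.Helper601.HKDefs

set_option autoImplicit false

namespace Pool.Agent.Helper601.HK



open Classical in
theorem sum_smooth (S : Finset ℕ) (N : ℕ) :
    (∑ d ∈ (Finset.Icc 1 N).filter (fun d => Sm S d), 1 / (d : ℝ)) ≤
      Real.exp (∑ q ∈ S.filter Nat.Prime, 2 / (q : ℝ)) := by
  let f : ℕ →* ℝ :=
    { toFun := fun n => (n : ℝ)⁻¹
      map_one' := by simp
      map_mul' := fun a b => by push_cast; rw [mul_inv] }
  have hf : ∀ n, f n = (n : ℝ)⁻¹ := fun n => rfl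
  have hlt : ∀ {p : ℕ}, p.Prime → ‖f p‖ < 1 := by
    intro p hp
    rw [hf, norm_inv, Real.norm_natCast]
    exact inv_lt_one_of_one_lt₀ (by exact_mod_cast hp.one_lt)
  obtain ⟨_, hsum⟩ := EulerProduct.summable_and_hasSum_factoredNumbers_prod_filter_prime_geometric
    (f := f) hlt S
  have hsum' := hasSum_subtype_iff_indicator.mp hsum
  have h1 : (∑ d ∈ (Finset.Icc 1 N).filter (fun d => Sm S d), 1 / (d : ℝ)) =
      ∑ d ∈ (Finset.Icc 1 N).filter (fun d => Sm S d),
        (Nat.factoredNumbers S).indicator (fun n => f n) d := by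
    apply Finset.sum_congr rfl
    intro d hd
    rw [Finset.mem_filter, Finset.mem_Icc] at hd
    rw [Set.indicator_of_mem, hf, one_div]
    refine ⟨by omega, fun p hp => ?_⟩
    exact hd.2 p (Nat.prime_of_mem_primeFactorsList hp) (Nat.dvd_of_mem_primeFactorsList hp)
  rw [h1]
  refine (sum_le_hasSum _ ?_ hsum').trans ?_
  · intro i _
    apply Set.indicator_nonneg
    intro n _
    rw [hf]; positivity
  · rw [Real.exp_sum]
    apply Finset.prod_le_prod
    · intro p hp
      rw [Finset.mem_filter] at hp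
      rw [hf]
      have : ((p : ℝ))⁻¹ ≤ 1 := inv_le_one_of_one_le₀ (by exact_mod_cast hp.2.one_lt.le)
      exact inv_nonneg.mpr (by linarith)
    · intro p hp
      rw [Finset.mem_filter] at hp
      rw [hf]
      have h2 : (2 : ℝ) ≤ p := by exact_mod_cast hp.2.two_le
      have h3 : ((p : ℝ))⁻¹ ≤ 1 / 2 := by
        rw [inv_le_comm₀ (by linarith) (by norm_num)]
        linarith
      have h4 : 0 < ((p : ℝ))⁻¹ := by positivity
      have h5 : (1 - (p : ℝ)⁻¹)⁻¹ ≤ 1 + 2 * (p : ℝ)⁻¹ := by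
        rw [inv_le_iff_one_le_mul₀ (by linarith)]
        nlinarith
      refine h5.trans ?_
      have h6 := Real.add_one_le_exp (2 / (p : ℝ))
      rw [div_eq_mul_inv] at h6 ⊢
      linarith

lemma Sm.dvd {S : Finset ℕ} {t d : ℕ} (h : Sm S t) (hd : d ∣ t) : Sm S d :=
  fun l hl hld => h l hl (hld.trans hd)

/-- `log d = ∑ v_l(d) log l` for an `S`-smooth number `d`. -/
lemma log_eq (S : Finset ℕ) (d : ℕ) (hd0 : d ≠ 0) (hd : Sm S d) :
    Real.log d = ∑ l ∈ S.filter Nat.Prime, (d.factorization l : ℝ) * Real.log l := by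
  have h1 : (d : ℝ) = ∏ l ∈ S.filter Nat.Prime, (l : ℝ) ^ (d.factorization l) := by
    conv_lhs => rw [← Nat.prod_factorization_pow_eq_self hd0]
    rw [Finsupp.prod, Nat.cast_prod]
    rw [Nat.support_factorization]
    have hsub : d.primeFactors ⊆ S.filter Nat.Prime := by
      intro l hl
      rw [Nat.mem_primeFactors] at hl
      rw [Finset.mem_filter]
      exact ⟨hd l hl.1 hl.2.1, hl.1⟩
    rw [← Finset.prod_subset hsub]
    · apply Finset.prod_congr rfl
      intro l _
      push_cast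
      rfl
    · intro l _ hl
      have : d.factorization l = 0 := by
        rw [← Finsupp.notMem_support_iff, Nat.support_factorization]
        exact hl
      rw [this, pow_zero]
  conv_lhs => rw [h1]
  rw [Real.log_prod]
  · apply Finset.sum_congr rfl
    intro l _
    rw [Real.log_pow]
  · intro l hl
    rw [Finset.mem_filter] at hl
    exact pow_ne_zero _ (by exact_mod_cast hl.2.ne_zero)

open Classical in
lemma val_sum (S : Finset ℕ) (N l : ℕ) (hl : l.Prime) :
    (∑ d ∈ (Finset.Icc 1 N).filter (fun d => Sm S d), (d.factorization l : ℝ) / d) ≤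
      (∑ d ∈ (Finset.Icc 1 N).filter (fun d => Sm S d), 1 / (d : ℝ)) / (l - 1) := by
  set F := (Finset.Icc 1 N).filter (fun d => Sm S d) with hF
  set E := ∑ d ∈ F, 1 / (d : ℝ) with hE
  set T := ∑ d ∈ F, (d.factorization l : ℝ) / d with hT
  have hl1 : (1 : ℝ) < l := by exact_mod_cast hl.one_lt
  let h : ℕ → ℝ := fun e => (1 + (e.factorization l : ℝ)) / (l * e)
  have hh : ∀ e, 0 ≤ h e := fun e => by
    simp only [h]; positivity
  have h1 : T = ∑ d ∈ F.filter (fun d => l ∣ d), (d.factorization l : ℝ) / d := by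
    symm
    rw [Finset.sum_filter]
    apply Finset.sum_congr rfl
    intro d _
    split_ifs with hd
    · rfl
    · rw [Nat.factorization_eq_zero_of_not_dvd hd]
      simp
  have h2 : ∀ d ∈ F.filter (fun d => l ∣ d), (d.factorization l : ℝ) / d = h (d / l) := by
    intro d hd
    rw [Finset.mem_filter, hF, Finset.mem_filter, Finset.mem_Icc] at hd
    obtain ⟨e, rfl⟩ := hd.2
    have he : e ≠ 0 := by
      rintro rfl
      simp at hd
    rw [Nat.mul_div_cancel_left _ hl.pos, Nat.factorization_mul hl.ne_zero he]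
    simp only [h, Finsupp.add_apply, hl.factorization_self]
    push_cast
    rfl
  have h3 : T ≤ ∑ e ∈ F, h e := by
    rw [h1, Finset.sum_congr rfl h2]
    have hinj : Set.InjOn (fun d => d / l) (F.filter (fun d => l ∣ d) : Set ℕ) := by
      intro a ha b hb hab
      rw [Finset.mem_coe, Finset.mem_filter] at ha hb
      obtain ⟨a', rfl⟩ := ha.2
      obtain ⟨b', rfl⟩ := hb.2
      simp only [Nat.mul_div_cancel_left _ hl.pos] at hab
      rw [hab]
    rw [← Finset.sum_image (f := h) (s := F.filter (fun d => l ∣ d)) (g := fun d => d / l)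
      (by intro a ha b hb hab; exact hinj ha hb hab)]
    apply Finset.sum_le_sum_of_subset_of_nonneg
    · intro e he
      rw [Finset.mem_image] at he
      obtain ⟨d, hd, rfl⟩ := he
      rw [Finset.mem_filter, hF, Finset.mem_filter, Finset.mem_Icc] at hd
      obtain ⟨e, rfl⟩ := hd.2
      rw [Nat.mul_div_cancel_left _ hl.pos, hF, Finset.mem_filter, Finset.mem_Icc]
      refine ⟨⟨?_, ?_⟩, hd.1.2.dvd (Dvd.intro_left l rfl)⟩
      · rcases Nat.eq_zero_or_pos e with h0 | h0
        · rw [h0] at hd; simp at hd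
        · exact h0
      · exact le_trans (Nat.le_mul_of_pos_left e hl.pos) hd.1.1.2
    · intro e _ _
      exact hh e
  have h4 : ∑ e ∈ F, h e = (E + T) / l := by
    rw [hE, hT, ← Finset.sum_add_distrib, Finset.sum_div]
    apply Finset.sum_congr rfl
    intro e he
    rw [hF, Finset.mem_filter, Finset.mem_Icc] at he
    have : (e : ℝ) ≠ 0 := by
      have : e ≠ 0 := by omega
      exact_mod_cast this
    simp only [h]
    field_simp
  rw [h4, le_div_iff₀ (by linarith)] at h3
  rw [le_div_iff₀ (by linarith)]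
  linarith

open Classical in
theorem tail_sum (S : Finset ℕ) (N D : ℕ) (hD : 2 ≤ D) :
    (∑ d ∈ (Finset.Ioc D N).filter (fun d => Sm S d), 1 / (d : ℝ)) ≤
      (1 / Real.log D) * (∑ l ∈ S.filter Nat.Prime, Real.log l / (l - 1)) *
        Real.exp (∑ q ∈ S.filter Nat.Prime, 2 / (q : ℝ)) := by
  have hD' : (1 : ℝ) < D := by exact_mod_cast (by omega : 1 < D)
  have hlog : 0 < Real.log D := Real.log_pos hD'
  have h1 : (∑ d ∈ (Finset.Ioc D N).filter (fun d => Sm S d), 1 / (d : ℝ)) ≤
      (1 / Real.log D) * ∑ d ∈ (Finset.Icc 1 N).filter (fun d => Sm S d), Real.log d / d := by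
    rw [Finset.mul_sum]
    calc (∑ d ∈ (Finset.Ioc D N).filter (fun d => Sm S d), 1 / (d : ℝ))
        ≤ ∑ d ∈ (Finset.Ioc D N).filter (fun d => Sm S d), 1 / Real.log D * (Real.log d / d) := by
          apply Finset.sum_le_sum
          intro d hd
          rw [Finset.mem_filter, Finset.mem_Ioc] at hd
          have hdD : (D : ℝ) < d := by exact_mod_cast hd.1.1
          have h2 : Real.log D ≤ Real.log d := Real.log_le_log (by linarith) hdD.le
          have h3 : 0 < (d : ℝ) := by linarith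
          rw [← mul_div_assoc]
          apply div_le_div_of_nonneg_right _ h3.le
          rw [one_div_mul_eq_div, le_div_iff₀ hlog]
          linarith
      _ ≤ _ := by
          apply Finset.sum_le_sum_of_subset_of_nonneg
          · intro d hd
            rw [Finset.mem_filter, Finset.mem_Ioc] at hd
            rw [Finset.mem_filter, Finset.mem_Icc]
            exact ⟨⟨by omega, hd.1.2⟩, hd.2⟩
          · intro d hd _
            rw [Finset.mem_filter, Finset.mem_Icc] at hd
            have : (1 : ℝ) ≤ d := by exact_mod_cast hd.1.1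
            have := Real.log_nonneg this
            positivity
  have h2 : (∑ d ∈ (Finset.Icc 1 N).filter (fun d => Sm S d), Real.log d / d) ≤
      (∑ l ∈ S.filter Nat.Prime, Real.log l / (l - 1)) *
        (∑ d ∈ (Finset.Icc 1 N).filter (fun d => Sm S d), 1 / (d : ℝ)) := by
    have h3 : (∑ d ∈ (Finset.Icc 1 N).filter (fun d => Sm S d), Real.log d / d) =
        ∑ l ∈ S.filter Nat.Prime, Real.log l *
          ∑ d ∈ (Finset.Icc 1 N).filter (fun d => Sm S d), (d.factorization l : ℝ) / d := by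
      simp_rw [Finset.mul_sum]
      rw [Finset.sum_comm]
      apply Finset.sum_congr rfl
      intro d hd
      rw [Finset.mem_filter, Finset.mem_Icc] at hd
      rw [log_eq S d (by omega) hd.2, Finset.sum_div]
      apply Finset.sum_congr rfl
      intro l _
      ring
    rw [h3, Finset.sum_mul]
    apply Finset.sum_le_sum
    intro l hl
    rw [Finset.mem_filter] at hl
    have h4 := val_sum S N l hl.2
    have h5 : (1 : ℝ) < l := by exact_mod_cast hl.2.one_lt
    have h6 : 0 ≤ Real.log l := Real.log_nonneg h5.le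
    calc _ ≤ Real.log l *
          ((∑ d ∈ (Finset.Icc 1 N).filter (fun d => Sm S d), 1 / (d : ℝ)) / (l - 1)) :=
          mul_le_mul_of_nonneg_left h4 h6
      _ = _ := by ring
  have h3 := sum_smooth S N
  have h4 : 0 ≤ ∑ l ∈ S.filter Nat.Prime, Real.log l / ((l : ℝ) - 1) := by
    apply Finset.sum_nonneg
    intro l hl
    rw [Finset.mem_filter] at hl
    have h5 : (1 : ℝ) < l := by exact_mod_cast hl.2.one_lt
    exact div_nonneg (Real.log_nonneg h5.le) (by linarith)
  calc _ ≤ (1 / Real.log D) * ∑ d ∈ (Finset.Icc 1 N).filter (fun d => Sm S d), Real.log d / d := h1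
    _ ≤ (1 / Real.log D) * ((∑ l ∈ S.filter Nat.Prime, Real.log l / (l - 1)) *
        (∑ d ∈ (Finset.Icc 1 N).filter (fun d => Sm S d), 1 / (d : ℝ))) :=
        mul_le_mul_of_nonneg_left h2 (by positivity)
    _ ≤ (1 / Real.log D) * ((∑ l ∈ S.filter Nat.Prime, Real.log l / (l - 1)) *
        Real.exp (∑ q ∈ S.filter Nat.Prime, 2 / (q : ℝ))) := by
        apply mul_le_mul_of_nonneg_left _ (by positivity)
        exact mul_le_mul_of_nonneg_left h3 h4
    _ = _ := by ring

/-- a smooth number larger than `D` has a divisor in `(D, DY]` -/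
lemma exists_divisor (t D Y : ℕ) (hD : 1 ≤ D) (ht : D < t)
    (hY : ∀ l : ℕ, l.Prime → l ∣ t → l ≤ Y) : ∃ d, d ∣ t ∧ D < d ∧ d ≤ D * Y := by
  classical
  have hex : ∃ d, d ∣ t ∧ D < d := ⟨t, dvd_rfl, ht⟩
  let d := Nat.find hex
  obtain ⟨h1, h2⟩ := Nat.find_spec hex
  refine ⟨d, h1, h2, ?_⟩
  have hd1 : d ≠ 1 := by
    have : D < d := h2
    omega
  obtain ⟨l, hl, hld⟩ := Nat.exists_prime_and_dvd hd1
  obtain ⟨e, he⟩ := hld
  have hlY : l ≤ Y := hY l hl ((Dvd.intro e he.symm).trans h1)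
  have heD : e ≤ D := by
    by_contra hcon
    push Not at hcon
    have hlt : e < d := by
      rw [he]
      have : 0 < e := by omega
      have := hl.two_le
      nlinarith
    exact Nat.find_min hex hlt ⟨(Dvd.intro_left l he.symm).trans h1, hcon⟩
  rw [he, mul_comm]
  exact Nat.mul_le_mul heD hlY

open Classical in
/-- `sieve_smooth` is proved elsewhere. -/
theorem mid_count
    (sieve_smooth : ∃ C : ℝ, 1 ≤ C ∧ ∀ (S : Finset ℕ) (a u : ℕ), 2 ≤ u →
      (((Finset.Ioc a (a + u)).filter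
        (fun n => ∀ l : ℕ, l.Prime → l ≤ u → l ∣ n → l ∈ S)).card : ℝ)
        ≤ C * u / Real.log u * Real.exp (∑ q ∈ S.filter (fun q => q.Prime ∧ q ≤ u), 2 / (q : ℝ))) :
    ∃ C : ℝ, 1 ≤ C ∧ ∀ (S : Finset ℕ) (a u D Y : ℕ), 1 ≤ D → 1 ≤ Y → 2 * (D * Y) ≤ u →
      (((Finset.Ioc a (a + u)).filter
        (fun t => Sm S t ∧ D < t ∧ ∀ l : ℕ, l.Prime → l ∣ t → l ≤ Y)).card : ℝ) ≤
        C * Real.exp (∑ q ∈ S.filter Nat.Prime, 2 / (q : ℝ)) *
          (u / Real.log ((u : ℝ) / (D * Y))) *
          (∑ d ∈ (Finset.Ioc D (D * Y)).filter (fun d => Sm S d), 1 / (d : ℝ)) := by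
  obtain ⟨C, hC1, hC⟩ := sieve_smooth
  refine ⟨3 / 2 * C, by linarith, ?_⟩
  intro S a u D Y hD hY hu
  have hDY : 0 < D * Y := Nat.mul_pos (by omega) (by omega)
  have hDYr : (0 : ℝ) < (D : ℝ) * Y := by exact_mod_cast hDY
  have hur : 2 * ((D : ℝ) * Y) ≤ u := by exact_mod_cast hu
  have hlogpos : 0 < Real.log ((u : ℝ) / (D * Y)) := by
    apply Real.log_pos
    rw [lt_div_iff₀ hDYr]
    linarith
  set G := (Finset.Ioc D (D * Y)).filter (fun d => Sm S d) with hG
  -- the fibres
  let T : ℕ → Finset ℕ := fun d => (Finset.Ioc a (a + u)).filter (fun t => Sm S t ∧ d ∣ t)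
  have hcover : (Finset.Ioc a (a + u)).filter
      (fun t => Sm S t ∧ D < t ∧ ∀ l : ℕ, l.Prime → l ∣ t → l ≤ Y) ⊆ G.biUnion T := by
    intro t ht
    rw [Finset.mem_filter] at ht
    obtain ⟨h1, h2, h3, h4⟩ := ht
    obtain ⟨d, hd1, hd2, hd3⟩ := exists_divisor t D Y hD h3 h4
    rw [Finset.mem_biUnion]
    refine ⟨d, ?_, ?_⟩
    · rw [hG, Finset.mem_filter, Finset.mem_Ioc]
      exact ⟨⟨hd2, hd3⟩, h2.dvd hd1⟩
    · rw [Finset.mem_filter]
      exact ⟨h1, h2, hd1⟩
  have hfib : ∀ d ∈ G, ((T d).card : ℝ) ≤ 3 / 2 * C *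
      Real.exp (∑ q ∈ S.filter Nat.Prime, 2 / (q : ℝ)) * (u / Real.log ((u : ℝ) / (D * Y))) *
      (1 / (d : ℝ)) := by
    intro d hd
    rw [hG, Finset.mem_filter, Finset.mem_Ioc] at hd
    obtain ⟨⟨hd1, hd2⟩, hd3⟩ := hd
    have hd0 : 0 < d := by omega
    have hd0r : (0 : ℝ) < d := by exact_mod_cast hd0
    have hd2r : (d : ℝ) ≤ (D : ℝ) * Y := by exact_mod_cast hd2
    have hud : 2 ≤ u / d := by
      rw [Nat.le_div_iff_mul_le hd0]
      calc 2 * d ≤ 2 * (D * Y) := Nat.mul_le_mul_left 2 hd2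
        _ ≤ u := hu
    have hle : (T d).card ≤ ((Finset.Ioc (a / d) (a / d + (u / d + 1))).filter
        (fun n => ∀ l : ℕ, l.Prime → l ≤ u / d + 1 → l ∣ n → l ∈ S)).card := by
      apply Finset.card_le_card_of_injOn (fun t => t / d)
      · intro t ht
        rw [Finset.mem_coe, Finset.mem_filter, Finset.mem_Ioc] at ht
        obtain ⟨⟨h1, h2⟩, h3, h4⟩ := ht
        obtain ⟨n, rfl⟩ := h4
        simp only [Nat.mul_div_cancel_left _ hd0]
        rw [Finset.mem_coe, Finset.mem_filter, Finset.mem_Ioc]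
        refine ⟨⟨?_, ?_⟩, ?_⟩
        · rw [Nat.div_lt_iff_lt_mul hd0]
          linarith [mul_comm n d]
        · have e1 : a < d * (a / d + 1) := by
            have := Nat.lt_mul_div_succ a hd0
            exact this
          have e2 : u < d * (u / d + 1) := Nat.lt_mul_div_succ u hd0
          have e3 : d * n < d * (a / d + 1) + d * (u / d + 1) := by omega
          have e4 : d * n < d * ((a / d + 1) + (u / d + 1)) := by rw [mul_add]; exact e3
          have e5 := lt_of_mul_lt_mul_left e4 (Nat.zero_le d)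
          omega
        · intro l hl _ hln
          exact h3 l hl (hln.trans (Dvd.intro_left d rfl))
      · intro t ht t' ht' htt
        rw [Finset.mem_coe, Finset.mem_filter] at ht ht'
        obtain ⟨n, rfl⟩ := ht.2.2
        obtain ⟨n', rfl⟩ := ht'.2.2
        simp only [Nat.mul_div_cancel_left _ hd0] at htt
        rw [htt]
    have h5 := hC S (a / d) (u / d + 1) (by omega)
    have h6 : ((T d).card : ℝ) ≤ C * ((u / d + 1 : ℕ) : ℝ) / Real.log ((u / d + 1 : ℕ) : ℝ) *
        Real.exp (∑ q ∈ S.filter (fun q => q.Prime ∧ q ≤ u / d + 1), 2 / (q : ℝ)) :=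
      le_trans (by exact_mod_cast hle) h5
    have h7 : Real.exp (∑ q ∈ S.filter (fun q => q.Prime ∧ q ≤ u / d + 1), 2 / (q : ℝ)) ≤
        Real.exp (∑ q ∈ S.filter Nat.Prime, 2 / (q : ℝ)) := by
      apply Real.exp_le_exp.mpr
      apply Finset.sum_le_sum_of_subset_of_nonneg
      · intro q hq
        rw [Finset.mem_filter] at hq ⊢
        exact ⟨hq.1, hq.2.1⟩
      · intro q _ _
        positivity
    have h8 : ((u / d + 1 : ℕ) : ℝ) ≤ 3 / 2 * ((u : ℝ) / d) := by
      have e1 : ((u / d : ℕ) : ℝ) ≤ (u : ℝ) / d := Nat.cast_div_le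
      have e2 : (2 : ℝ) ≤ (u : ℝ) / d := by
        rw [le_div_iff₀ hd0r]
        linarith
      push_cast
      linarith
    have h9 : (u : ℝ) / d < ((u / d + 1 : ℕ) : ℝ) := by
      rw [div_lt_iff₀ hd0r]
      have e2 : u < d * (u / d + 1) := Nat.lt_mul_div_succ u hd0
      have e3 : ((u : ℕ) : ℝ) < ((d * (u / d + 1) : ℕ) : ℝ) := by exact_mod_cast e2
      push_cast at e3 ⊢
      linarith
    have h10 : (u : ℝ) / (D * Y) ≤ (u : ℝ) / d := by
      apply div_le_div_of_nonneg_left (by positivity) hd0r hd2r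
    have h11 : Real.log ((u : ℝ) / (D * Y)) ≤ Real.log ((u / d + 1 : ℕ) : ℝ) := by
      apply Real.log_le_log
      · have : (0 : ℝ) < u := by linarith
        positivity
      · linarith
    have h12 : C * ((u / d + 1 : ℕ) : ℝ) / Real.log ((u / d + 1 : ℕ) : ℝ) ≤
        C * (3 / 2 * ((u : ℝ) / d)) / Real.log ((u : ℝ) / (D * Y)) := by
      apply div_le_div₀ (by positivity) _ hlogpos h11
      exact mul_le_mul_of_nonneg_left h8 (by linarith)
    calc ((T d).card : ℝ) ≤ _ := h6
      _ ≤ (C * (3 / 2 * ((u : ℝ) / d)) / Real.log ((u : ℝ) / (D * Y))) *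
          Real.exp (∑ q ∈ S.filter Nat.Prime, 2 / (q : ℝ)) := by
          apply mul_le_mul h12 h7 (Real.exp_pos _).le
          positivity
      _ = _ := by ring
  calc (((Finset.Ioc a (a + u)).filter
        (fun t => Sm S t ∧ D < t ∧ ∀ l : ℕ, l.Prime → l ∣ t → l ≤ Y)).card : ℝ)
      ≤ ((G.biUnion T).card : ℝ) := by exact_mod_cast Finset.card_le_card hcover
    _ ≤ ((∑ d ∈ G, (T d).card : ℕ) : ℝ) := by exact_mod_cast Finset.card_biUnion_le
    _ = ∑ d ∈ G, ((T d).card : ℝ) := by push_cast; rfl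
    _ ≤ ∑ d ∈ G, 3 / 2 * C * Real.exp (∑ q ∈ S.filter Nat.Prime, 2 / (q : ℝ)) *
          (u / Real.log ((u : ℝ) / (D * Y))) * (1 / (d : ℝ)) := Finset.sum_le_sum hfib
    _ = _ := by rw [← Finset.mul_sum]

end Pool.Agent.Helper601.HK

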