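import Mathlib
import Pool.Agent.Helper601.HKDefs

set_option autoImplicit false
set_option maxHeartbeats 4000000

namespace Pool.Agent.Helper601.HK





/-- sums of nonnegative terms over a union -/
theorem aux_sum_union {A B : Finset ℕ} (f : ℕ → ℝ) (hf : ∀ x, 0 ≤ f x) :
    ∑ x ∈ A ∪ B, f x ≤ ∑ x ∈ A, f x + ∑ x ∈ B, f x := by
  classical
  rw [← Finset.sum_union_inter]
  have : 0 ≤ ∑ x ∈ A ∩ B, f x := Finset.sum_nonneg fun x _ => hf x
  linarith

/-- the eventual inequalities -/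
theorem aux_eventually (K W : ℕ) (CA δ η : ℝ) (hK : 1 ≤ K) (hCA : 0 ≤ CA) (hδ : 0 < δ) (hη : 0 < η) :
    ∃ k0 : ℕ, ∀ k : ℕ, k0 ≤ k → (2 * K : ℝ) ≤ (k : ℝ) ^ (1 / 16 : ℝ) ∧
      Real.log k ≤ δ / (4 * K) * (k : ℝ) ^ (7 / 8 : ℝ) ∧
      1 + 2 * W * CA * Real.log (Real.log k) ≤ η * Real.log k ∧ 1 ≤ Real.log k := by
  have hcast : Filter.Tendsto (fun k : ℕ => (k : ℝ)) Filter.atTop Filter.atTop :=
    tendsto_natCast_atTop_atTop
  have hlog : Filter.Tendsto (fun k : ℕ => Real.log (k : ℝ)) Filter.atTop Filter.atTop :=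
    Real.tendsto_log_atTop.comp hcast
  have e1 : ∀ᶠ k : ℕ in Filter.atTop, (2 * K : ℝ) ≤ (k : ℝ) ^ (1 / 16 : ℝ) :=
    ((tendsto_rpow_atTop (by norm_num : (0 : ℝ) < 1 / 16)).comp hcast).eventually_ge_atTop _
  have hKr : (0 : ℝ) < K := by exact_mod_cast hK
  have hc2 : 0 < δ / (4 * K) := by positivity
  have e2 : ∀ᶠ k : ℕ in Filter.atTop, ‖Real.log (k : ℝ)‖ ≤ δ / (4 * K) * ‖(k : ℝ) ^ (7 / 8 : ℝ)‖ :=
    hcast.eventually ((isLittleO_log_rpow_atTop (by norm_num : (0 : ℝ) < 7 / 8)).bound hc2)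
  have hW : (0 : ℝ) ≤ W := by positivity
  have hc3 : 0 < η / (2 * (2 * W * CA + 1)) := by positivity
  have e3 : ∀ᶠ k : ℕ in Filter.atTop, ‖Real.log (Real.log (k : ℝ))‖ ≤
      η / (2 * (2 * W * CA + 1)) * ‖Real.log (k : ℝ)‖ :=
    hlog.eventually (Real.isLittleO_log_id_atTop.bound hc3)
  have e4 : ∀ᶠ k : ℕ in Filter.atTop, max 1 (2 / η) ≤ Real.log (k : ℝ) := hlog.eventually_ge_atTop _
  obtain ⟨k0, hk0⟩ := Filter.eventually_atTop.1 (e1.and (e2.and (e3.and e4)))
  refine ⟨k0, fun k hk => ?_⟩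
  obtain ⟨h1, h2, h3, h4⟩ := hk0 k hk
  have h4a : 1 ≤ Real.log (k : ℝ) := (le_max_left _ _).trans h4
  have h4b : 2 / η ≤ Real.log (k : ℝ) := (le_max_right _ _).trans h4
  refine ⟨h1, ?_, ?_, h4a⟩
  · rw [Real.norm_of_nonneg (by linarith : (0 : ℝ) ≤ Real.log k),
      Real.norm_of_nonneg (by positivity)] at h2
    exact h2
  · rw [Real.norm_of_nonneg (by linarith : (0 : ℝ) ≤ Real.log k)] at h3
    have h5 : Real.log (Real.log k) ≤ η / (2 * (2 * W * CA + 1)) * Real.log k :=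
      (Real.le_norm_self _).trans h3
    have h6 : 1 ≤ η / 2 * Real.log k := by
      rw [div_le_iff₀ hη] at h4b
      linarith
    have h7 : 2 * W * CA * Real.log (Real.log k) ≤ η / 2 * Real.log k := by
      have h8 : (0 : ℝ) ≤ 2 * W * CA := by positivity
      calc 2 * W * CA * Real.log (Real.log k) ≤ 2 * W * CA * (η / (2 * (2 * W * CA + 1)) * Real.log k) :=
            mul_le_mul_of_nonneg_left h5 h8
        _ = (2 * W * CA / (2 * W * CA + 1)) * (η / 2 * Real.log k) := by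
            field_simp
        _ ≤ 1 * (η / 2 * Real.log k) := by
            apply mul_le_mul_of_nonneg_right
            · rw [div_le_one (by positivity)]; linarith
            · positivity
        _ = _ := one_mul _
    linarith

open Classical in
/-- `mid_count` and `tail_sum` are proved elsewhere. -/
theorem top_mid
    (mid_count : ∃ C : ℝ, 1 ≤ C ∧ ∀ (S : Finset ℕ) (a u D Y : ℕ), 1 ≤ D → 1 ≤ Y →
      2 * (D * Y) ≤ u →
      (((Finset.Ioc a (a + u)).filter
        (fun t => Sm S t ∧ D < t ∧ ∀ l : ℕ, l.Prime → l ∣ t → l ≤ Y)).card : ℝ) ≤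
        C * Real.exp (∑ q ∈ S.filter Nat.Prime, 2 / (q : ℝ)) *
          (u / Real.log ((u : ℝ) / (D * Y))) *
          (∑ d ∈ (Finset.Ioc D (D * Y)).filter (fun d => Sm S d), 1 / (d : ℝ)))
    (tail_sum : ∀ (S : Finset ℕ) (N D : ℕ), 2 ≤ D →
      (∑ d ∈ (Finset.Ioc D N).filter (fun d => Sm S d), 1 / (d : ℝ)) ≤
      (1 / Real.log D) * (∑ l ∈ S.filter Nat.Prime, Real.log l / (l - 1)) *
        Real.exp (∑ q ∈ S.filter Nat.Prime, 2 / (q : ℝ)))
    (CA δ : ℝ) (hCA : 0 ≤ CA) (hδ : 0 < δ) :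
    ∃ η : ℝ, 0 < η ∧ η ≤ 1 ∧ ∀ K W : ℕ, 1 ≤ K → ∃ k0 : ℕ, ∀ k : ℕ, k0 ≤ k →
    ∀ (p : ℕ) (R T : Finset ℕ), p.Prime → R ⊆ Rng W k →
    (∑ q ∈ (insert p R).filter Nat.Prime, 2 / (q : ℝ)) ≤ CA →
    (∀ q ∈ T, q.Prime ∧ q < k) → (∑ q ∈ T, 1 / (q : ℝ)) ≤ η →
    ∀ a u : ℕ, k ≤ 2 * u * K → u ≤ k →
      (((Finset.Ioc a (a + u)).filter
        (fun t => Sm (insert p R ∪ T) t ∧ 1 < t ∧
          ∀ l : ℕ, l.Prime → l ∣ t → l ≤ ⌊(k : ℝ) ^ (3 / 4 : ℝ)⌋₊)).card : ℝ) ≤
        δ * u / Real.log k := by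

  classical
  obtain ⟨C, hC1, hmid⟩ := mid_count
  set E0 := Real.exp (CA + 2) with hE0
  have hE0pos : 0 < E0 := Real.exp_pos _
  have hCpos : 0 < C := by linarith
  set η := min 1 (δ / (1536 * C * E0 ^ 2)) with hη
  have hηpos : 0 < η := lt_min one_pos (by positivity)
  have hη1 : η ≤ 1 := min_le_left _ _
  have hη2 : η ≤ δ / (1536 * C * E0 ^ 2) := min_le_right _ _
  refine ⟨η, hηpos, hη1, ?_⟩
  intro K W hK
  obtain ⟨k0, hk0⟩ := aux_eventually K W CA δ η hK hCA hδ hηpos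
  refine ⟨k0, ?_⟩
  intro k hk p R T hp hR hCAs hT hTs a u hku huk
  obtain ⟨c1, c2, c3, c4⟩ := hk0 k hk
  have hKr : (1 : ℝ) ≤ K := by exact_mod_cast hK
  have hk0' : (0 : ℝ) < k := by
    rcases Nat.eq_zero_or_pos k with h | h
    · rw [h] at c4; simp at c4; linarith
    · exact_mod_cast h
  have hk1 : (1 : ℝ) ≤ k := by
    have : 0 < k := by exact_mod_cast hk0'
    exact_mod_cast this
  have hlogpos : 0 < Real.log k := by linarith
  have hur : (k : ℝ) ≤ 2 * u * K := by exact_mod_cast hku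
  have hupos : (0 : ℝ) < u := by
    by_contra h
    have : (u : ℝ) = 0 := le_antisymm (not_lt.1 h) (by positivity)
    rw [this] at hur
    linarith
  set x := (k : ℝ) ^ (1 / 16 : ℝ) with hx
  have hx2 : 2 ≤ x := by linarith
  have hx8 : (k : ℝ) ^ (1 / 8 : ℝ) = x ^ 2 := by
    rw [hx, ← Real.rpow_natCast, ← Real.rpow_mul hk0'.le]; norm_num
  have hx34 : (k : ℝ) ^ (3 / 4 : ℝ) = x ^ 12 := by
    rw [hx, ← Real.rpow_natCast, ← Real.rpow_mul hk0'.le]; norm_num
  have hx78 : (k : ℝ) ^ (7 / 8 : ℝ) = x ^ 14 := by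
    rw [hx, ← Real.rpow_natCast, ← Real.rpow_mul hk0'.le]; norm_num
  have hx16 : (k : ℝ) = x ^ 16 := by
    rw [hx, ← Real.rpow_natCast, ← Real.rpow_mul hk0'.le]; norm_num
  have hlogx : Real.log x = 1 / 16 * Real.log k := by
    rw [hx, Real.log_rpow hk0']
  set D := ⌊(k : ℝ) ^ (1 / 8 : ℝ)⌋₊ with hD
  set Y := ⌊(k : ℝ) ^ (3 / 4 : ℝ)⌋₊ with hY
  have hDle : (D : ℝ) ≤ x ^ 2 := by
    rw [← hx8]; exact Nat.floor_le (by positivity)
  have hDge : x ≤ D := by
    have h1 : (k : ℝ) ^ (1 / 8 : ℝ) < D + 1 := Nat.lt_floor_add_one _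
    rw [hx8] at h1
    nlinarith
  have hYle : (Y : ℝ) ≤ x ^ 12 := by
    rw [← hx34]; exact Nat.floor_le (by positivity)
  have hYge : 1 ≤ Y := by
    apply Nat.le_floor
    rw [hx34]
    have : (1 : ℝ) ≤ x ^ 12 := one_le_pow₀ (by linarith)
    simpa using this
  have hD2 : 2 ≤ D := by
    have : (2 : ℝ) ≤ D := hx2.trans hDge
    exact_mod_cast this
  have hDY : (D * Y : ℝ) ≤ x ^ 14 := by
    calc (D * Y : ℝ) ≤ x ^ 2 * x ^ 12 := mul_le_mul hDle hYle (by positivity) (by positivity)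
      _ = x ^ 14 := by ring
  have hDYpos : (0 : ℝ) < D * Y := by
    have h1 : (0 : ℝ) < D := by linarith
    have h2 : (0 : ℝ) < Y := by exact_mod_cast hYge
    positivity
  -- u / (D Y) ≥ x
  have hux : x * x ^ 14 ≤ u := by
    have h1 : x ^ 16 ≤ 2 * u * K := by rw [← hx16]; exact hur
    have h2 : x * (x * x ^ 14) ≤ x * u := by
      calc x * (x * x ^ 14) = x ^ 16 := by ring
        _ ≤ 2 * (u : ℝ) * K := h1
        _ = (2 * (K : ℝ)) * u := by ring
        _ ≤ x * u := mul_le_mul_of_nonneg_right c1 hupos.le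
    exact le_of_mul_le_mul_left h2 (by linarith)
  have hdiv : x ≤ (u : ℝ) / (D * Y) := by
    rw [le_div_iff₀ hDYpos]
    calc x * (D * Y) ≤ x * x ^ 14 := mul_le_mul_of_nonneg_left hDY (by linarith)
      _ ≤ u := hux
  have h2DY : 2 * (D * Y) ≤ u := by
    have h1 : (2 * (D * Y) : ℝ) ≤ u := by
      calc (2 * (D * Y) : ℝ) ≤ x * (D * Y) := mul_le_mul_of_nonneg_right hx2 hDYpos.le
        _ ≤ u := by rw [le_div_iff₀ hDYpos] at hdiv; exact hdiv
    exact_mod_cast h1
  have hlogdiv : 1 / 16 * Real.log k ≤ Real.log ((u : ℝ) / (D * Y)) := by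
    rw [← hlogx]
    exact Real.log_le_log (by linarith) hdiv
  have hlogD : 1 / 16 * Real.log k ≤ Real.log D := by
    rw [← hlogx]
    exact Real.log_le_log (by linarith) hDge
  set S := insert p R ∪ T with hS
  -- the exponential factor
  have hTp : T.filter Nat.Prime = T := Finset.filter_true_of_mem fun q hq => (hT q hq).1
  have hSf : S.filter Nat.Prime = (insert p R).filter Nat.Prime ∪ T := by
    rw [hS, Finset.filter_union, hTp]
  have hE : Real.exp (∑ q ∈ S.filter Nat.Prime, 2 / (q : ℝ)) ≤ E0 := by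
    rw [hE0]
    apply Real.exp_le_exp.2
    rw [hSf]
    refine (aux_sum_union (fun q : ℕ => 2 / (q : ℝ)) (fun q => by positivity)).trans ?_
    have h1 : ∑ q ∈ T, 2 / (q : ℝ) = 2 * ∑ q ∈ T, 1 / (q : ℝ) := by
      rw [Finset.mul_sum]; refine Finset.sum_congr rfl fun q _ => ?_; ring
    rw [h1]
    linarith
  -- the logarithmic sum
  have hRp : ∀ l ∈ R, l.Prime := fun l hl => (Finset.mem_filter.1 (hR hl)).2
  have hinsp : (insert p R).filter Nat.Prime = insert p R := by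
    apply Finset.filter_true_of_mem
    intro l hl
    rcases Finset.mem_insert.1 hl with h | h
    · rw [h]; exact hp
    · exact hRp l h
  rw [hinsp] at hCAs
  rw [hinsp] at hSf
  have hRsum : ∑ q ∈ R, 1 / (q : ℝ) ≤ CA / 2 := by
    have h1 : ∑ q ∈ R, 2 / (q : ℝ) ≤ ∑ q ∈ insert p R, 2 / (q : ℝ) :=
      Finset.sum_le_sum_of_subset_of_nonneg (Finset.subset_insert _ _) fun q _ _ => by positivity
    have h2 : ∑ q ∈ R, 2 / (q : ℝ) = 2 * ∑ q ∈ R, 1 / (q : ℝ) := by
      rw [Finset.mul_sum]; refine Finset.sum_congr rfl fun q _ => ?_; ring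
    rw [h2] at h1
    linarith
  have hll : 0 ≤ Real.log (Real.log k) := Real.log_nonneg c4
  have hfrac : ∀ (l : ℕ) (B : ℝ), l.Prime → Real.log l ≤ B → Real.log l / (l - 1) ≤ 2 * B * (1 / (l : ℝ)) := by
    intro l B hl hB
    have hl2 : (2 : ℝ) ≤ l := by exact_mod_cast hl.two_le
    have hlog0 : 0 ≤ Real.log l := Real.log_nonneg (by linarith)
    rw [div_le_iff₀ (by linarith)]
    have h1 : 1 ≤ 2 * (1 / (l : ℝ)) * (l - 1) := by
      have : 2 * (1 / (l : ℝ)) * (l - 1) = 2 - 2 / l := by field_simp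
      rw [this]
      have : 2 / (l : ℝ) ≤ 1 := by rw [div_le_one (by linarith)]; exact hl2
      linarith
    calc Real.log l ≤ B * 1 := by linarith
      _ ≤ B * (2 * (1 / (l : ℝ)) * (l - 1)) := mul_le_mul_of_nonneg_left h1 (by linarith)
      _ = _ := by ring
  have hnn : ∀ l : ℕ, 0 ≤ Real.log l / ((l : ℝ) - 1) := by
    intro l
    rcases Nat.lt_or_ge l 2 with h | h
    · interval_cases l <;> simp
    · have h2 : (2 : ℝ) ≤ l := by exact_mod_cast h
      exact div_nonneg (Real.log_nonneg (by linarith)) (by linarith)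
  have hlogs : (∑ l ∈ S.filter Nat.Prime, Real.log l / (l - 1)) ≤ 3 * η * Real.log k := by
    rw [hSf]
    refine (aux_sum_union (fun l : ℕ => Real.log l / ((l : ℝ) - 1)) hnn).trans ?_
    have hsplit : ∑ l ∈ insert p R, Real.log l / ((l : ℝ) - 1) ≤
        Real.log p / ((p : ℝ) - 1) + ∑ l ∈ R, Real.log l / ((l : ℝ) - 1) := by
      have := aux_sum_union (A := {p}) (B := R) (fun l : ℕ => Real.log l / ((l : ℝ) - 1)) hnn
      rw [Finset.sum_singleton] at this
      rwa [← Finset.insert_eq] at this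
    have hpp : Real.log p / ((p : ℝ) - 1) ≤ 1 := by
      have hp2 : (2 : ℝ) ≤ p := by exact_mod_cast hp.two_le
      rw [div_le_one (by linarith)]
      exact Real.log_le_sub_one_of_pos (by linarith)
    have hRR : ∑ l ∈ R, Real.log l / ((l : ℝ) - 1) ≤ 2 * W * CA * Real.log (Real.log k) := by
      have hB : ∀ l ∈ R, Real.log l ≤ 2 * W * Real.log (Real.log k) := by
        intro l hl
        have h1 := Finset.mem_filter.1 (hR hl)
        have h2 := Finset.mem_Ioc.1 h1.1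
        have hz : (zz k : ℝ) ≤ (Real.log k) ^ 2 := Nat.floor_le (by positivity)
        have hz1 : 1 ≤ zz k := by
          apply Nat.le_floor
          have : (1 : ℝ) ≤ (Real.log k) ^ 2 := one_le_pow₀ c4
          simpa using this
        have hz1r : (1 : ℝ) ≤ zz k := by exact_mod_cast hz1
        have h3 : (l : ℝ) ≤ (zz k : ℝ) ^ W := by exact_mod_cast h2.2
        have hlpos : (0 : ℝ) < l := by exact_mod_cast h1.2.pos
        calc Real.log l ≤ Real.log ((zz k : ℝ) ^ W) := Real.log_le_log hlpos h3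
          _ = W * Real.log (zz k) := by rw [Real.log_pow]
          _ ≤ W * Real.log ((Real.log k) ^ 2) := by
            apply mul_le_mul_of_nonneg_left _ (by positivity)
            exact Real.log_le_log (by linarith) hz
          _ = 2 * W * Real.log (Real.log k) := by rw [Real.log_pow]; push_cast; ring
      calc ∑ l ∈ R, Real.log l / ((l : ℝ) - 1)
          ≤ ∑ l ∈ R, 2 * (2 * W * Real.log (Real.log k)) * (1 / (l : ℝ)) :=
            Finset.sum_le_sum fun l hl => hfrac l _ (hRp l hl) (hB l hl)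
        _ = 2 * (2 * W * Real.log (Real.log k)) * ∑ l ∈ R, 1 / (l : ℝ) := by rw [Finset.mul_sum]
        _ ≤ 2 * (2 * W * Real.log (Real.log k)) * (CA / 2) := by
            apply mul_le_mul_of_nonneg_left hRsum; positivity
        _ = _ := by ring
    have hTT : ∑ l ∈ T, Real.log l / ((l : ℝ) - 1) ≤ 2 * η * Real.log k := by
      calc ∑ l ∈ T, Real.log l / ((l : ℝ) - 1)
          ≤ ∑ l ∈ T, 2 * Real.log k * (1 / (l : ℝ)) := by
            refine Finset.sum_le_sum fun l hl => hfrac l _ (hT l hl).1 ?_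
            apply Real.log_le_log
            · exact_mod_cast (hT l hl).1.pos
            · exact_mod_cast (hT l hl).2.le
        _ = 2 * Real.log k * ∑ l ∈ T, 1 / (l : ℝ) := by rw [Finset.mul_sum]
        _ ≤ 2 * Real.log k * η := mul_le_mul_of_nonneg_left hTs (by positivity)
        _ = _ := by ring
    linarith
  -- the tail
  have htail : (∑ d ∈ (Finset.Ioc D (D * Y)).filter (fun d => Sm S d), 1 / (d : ℝ)) ≤ 48 * η * E0 := by
    refine (tail_sum S (D * Y) D hD2).trans ?_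
    have hlogDpos : 0 < Real.log D := lt_of_lt_of_le (by positivity) hlogD
    have h1 : 1 / Real.log D ≤ 16 / Real.log k := by
      rw [div_le_div_iff₀ hlogDpos hlogpos]
      linarith
    have h0 : 0 ≤ ∑ l ∈ S.filter Nat.Prime, Real.log l / ((l : ℝ) - 1) :=
      Finset.sum_nonneg fun l _ => hnn l
    calc _ ≤ (16 / Real.log k) * (3 * η * Real.log k) * E0 := by
          apply mul_le_mul _ hE (Real.exp_pos _).le (by positivity)
          exact mul_le_mul h1 hlogs h0 (by positivity)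
      _ = 48 * η * E0 := by field_simp; ring
  -- the big t
  have hbig : (((Finset.Ioc a (a + u)).filter
        (fun t => Sm S t ∧ D < t ∧ ∀ l : ℕ, l.Prime → l ∣ t → l ≤ Y)).card : ℝ) ≤
        δ / 2 * u / Real.log k := by
    refine (hmid S a u D Y (by omega) hYge h2DY).trans ?_
    have h1 : (u : ℝ) / Real.log ((u : ℝ) / (D * Y)) ≤ 16 * u / Real.log k := by
      have hpos : 0 < Real.log ((u : ℝ) / (D * Y)) := lt_of_lt_of_le (by positivity) hlogdiv
      rw [div_le_div_iff₀ hpos hlogpos]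
      nlinarith
    have h2 : 0 ≤ ∑ d ∈ (Finset.Ioc D (D * Y)).filter (fun d => Sm S d), 1 / (d : ℝ) :=
      Finset.sum_nonneg fun d _ => by positivity
    have h3 : 0 ≤ (u : ℝ) / Real.log ((u : ℝ) / (D * Y)) := by
      apply div_nonneg hupos.le
      exact le_trans (by positivity) hlogdiv
    calc _ ≤ C * E0 * (16 * u / Real.log k) * (48 * η * E0) := by
          apply mul_le_mul _ htail h2 (by positivity)
          apply mul_le_mul _ h1 h3 (by positivity)
          exact mul_le_mul_of_nonneg_left hE hCpos.le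
      _ = (768 * C * E0 ^ 2 * u / Real.log k) * η := by ring
      _ ≤ (768 * C * E0 ^ 2 * u / Real.log k) * (δ / (1536 * C * E0 ^ 2)) := by
          apply mul_le_mul_of_nonneg_left hη2; positivity
      _ = δ / 2 * u / Real.log k := by field_simp; ring
  -- the small t
  have hsmall : (D : ℝ) ≤ δ / 2 * u / Real.log k := by
    rw [le_div_iff₀ hlogpos]
    calc (D : ℝ) * Real.log k ≤ x ^ 2 * (δ / (4 * K) * x ^ 14) := by
          rw [← hx78]
          exact mul_le_mul hDle c2 hlogpos.le (by positivity)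
      _ = δ / (4 * K) * k := by rw [hx16]; ring
      _ ≤ δ / (4 * K) * (2 * u * K) := mul_le_mul_of_nonneg_left hur (by positivity)
      _ = δ / 2 * u := by field_simp; ring
  have hsub : (Finset.Ioc a (a + u)).filter
        (fun t => Sm S t ∧ 1 < t ∧ ∀ l : ℕ, l.Prime → l ∣ t → l ≤ Y) ⊆
      Finset.Icc 1 D ∪ (Finset.Ioc a (a + u)).filter
        (fun t => Sm S t ∧ D < t ∧ ∀ l : ℕ, l.Prime → l ∣ t → l ≤ Y) := by
    intro t ht
    rw [Finset.mem_filter] at ht
    rw [Finset.mem_union]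
    by_cases h : D < t
    · right
      exact Finset.mem_filter.2 ⟨ht.1, ht.2.1, h, ht.2.2.2⟩
    · left
      rw [Finset.mem_Icc]
      exact ⟨ht.2.2.1.le, not_lt.1 h⟩
  calc (((Finset.Ioc a (a + u)).filter
        (fun t => Sm S t ∧ 1 < t ∧ ∀ l : ℕ, l.Prime → l ∣ t → l ≤ Y)).card : ℝ)
      ≤ ((Finset.Icc 1 D ∪ (Finset.Ioc a (a + u)).filter
        (fun t => Sm S t ∧ D < t ∧ ∀ l : ℕ, l.Prime → l ∣ t → l ≤ Y)).card : ℝ) := by
        exact_mod_cast Finset.card_le_card hsub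
    _ ≤ ((Finset.Icc 1 D).card + ((Finset.Ioc a (a + u)).filter
        (fun t => Sm S t ∧ D < t ∧ ∀ l : ℕ, l.Prime → l ∣ t → l ≤ Y)).card : ℝ) := by
        exact_mod_cast Finset.card_union_le _ _
    _ ≤ δ / 2 * u / Real.log k + δ / 2 * u / Real.log k := by
        apply add_le_add _ hbig
        rw [Nat.card_Icc]
        simpa using hsmall
    _ = δ * u / Real.log k := by ring

end Pool.Agent.Helper601.HK
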