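import Mathlib
import Pool.Agent.Helper601.HKDefs

set_option autoImplicit false

namespace Pool.Agent.Helper601.HK



open Classical in
/-- `sum_smooth` is proved elsewhere. -/
theorem top_low
    (sum_smooth : ∀ (S : Finset ℕ) (N : ℕ),
      (∑ d ∈ (Finset.Icc 1 N).filter (fun d => Sm S d), 1 / (d : ℝ)) ≤
      Real.exp (∑ q ∈ S.filter Nat.Prime, 2 / (q : ℝ)))
    (S T : Finset ℕ) (k u : ℕ) (C L : ℝ) (hk : 2 ≤ k) (hu : u ≤ k) (hC : 0 ≤ C) (hL : 0 < L)
    (hT : ∀ q ∈ T, q.Prime)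
    (hcount : ∀ x : ℝ, (k : ℝ) ^ (3 / 4 : ℝ) ≤ x → x ≤ k →
      ((T.filter (fun q : ℕ => (q : ℝ) ≤ x)).card : ℝ) ≤ C * x / (L * Real.log k)) :
    (((Finset.Ioc 0 u).filter
      (fun t : ℕ => Sm S t ∧ ∃ q ∈ T, q ∣ t ∧ (k : ℝ) ^ (3 / 4 : ℝ) < q)).card : ℝ) ≤
      C * Real.exp (∑ q ∈ S.filter Nat.Prime, 2 / (q : ℝ)) * u / (L * Real.log k) := by
  have hlog : 0 < Real.log k := Real.log_pos (by exact_mod_cast hk)
  have hLk : 0 < L * Real.log k := mul_pos hL hlog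
  set M : Finset ℕ := (Finset.Icc 1 u).filter (fun d => Sm S d) with hM
  set B : ℕ → Finset ℕ := fun m =>
    T.filter (fun q : ℕ => (q : ℝ) ≤ (u : ℝ) / m ∧ (k : ℝ) ^ (3 / 4 : ℝ) < q) with hB
  have hsub : ((Finset.Ioc 0 u).filter
      (fun t : ℕ => Sm S t ∧ ∃ q ∈ T, q ∣ t ∧ (k : ℝ) ^ (3 / 4 : ℝ) < q)) ⊆
      M.biUnion (fun m => (B m).image (fun q => m * q)) := by
    intro t ht
    rw [Finset.mem_filter, Finset.mem_Ioc] at ht
    obtain ⟨⟨ht0, htu⟩, hSm, q, hqT, ⟨m, rfl⟩, hq⟩ := ht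
    have hm0 : 0 < m := Nat.pos_of_ne_zero (by rintro rfl; simp at ht0)
    have hq0 : 0 < q := (hT q hqT).pos
    have hmu : m ≤ u := le_trans (Nat.le_mul_of_pos_left m hq0) htu
    rw [Finset.mem_biUnion]
    refine ⟨m, ?_, ?_⟩
    · rw [hM, Finset.mem_filter, Finset.mem_Icc]
      exact ⟨⟨hm0, hmu⟩, fun l hl hlm => hSm l hl (hlm.mul_left q)⟩
    · rw [Finset.mem_image]
      refine ⟨q, ?_, by ring⟩
      rw [hB]
      simp only [Finset.mem_filter]
      refine ⟨hqT, ?_, hq⟩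
      rw [le_div_iff₀ (by exact_mod_cast hm0)]
      exact_mod_cast htu
  have hBm : ∀ m ∈ M, ((B m).card : ℝ) ≤ C * u / (L * Real.log k) * (1 / (m : ℝ)) := by
    intro m hm
    rw [hM, Finset.mem_filter, Finset.mem_Icc] at hm
    have hm1 : (1 : ℝ) ≤ m := by exact_mod_cast hm.1.1
    have hm0 : (0 : ℝ) < m := by linarith
    by_cases hx : (k : ℝ) ^ (3 / 4 : ℝ) ≤ (u : ℝ) / m
    · have hxk : (u : ℝ) / m ≤ k := by
        rw [div_le_iff₀ hm0]
        have h1 : (u : ℝ) ≤ k := by exact_mod_cast hu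
        have h2 : (0 : ℝ) ≤ k := Nat.cast_nonneg k
        nlinarith
      have h1 := hcount _ hx hxk
      have h2 : ((B m).card : ℝ) ≤ ((T.filter (fun q : ℕ => (q : ℝ) ≤ (u : ℝ) / m)).card : ℝ) := by
        have : (B m) ⊆ T.filter (fun q : ℕ => (q : ℝ) ≤ (u : ℝ) / m) := by
          intro q hq
          rw [hB] at hq
          simp only [Finset.mem_filter] at hq ⊢
          exact ⟨hq.1, hq.2.1⟩
        exact_mod_cast Finset.card_le_card this
      calc ((B m).card : ℝ) ≤ C * ((u : ℝ) / m) / (L * Real.log k) := h2.trans h1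
        _ = C * u / (L * Real.log k) * (1 / (m : ℝ)) := by ring
    · have : B m = ∅ := by
        rw [hB]
        simp only [Finset.filter_eq_empty_iff, not_and, not_lt]
        intro q _ hq
        exact hq.trans (not_le.1 hx).le
      rw [this]
      simp only [Finset.card_empty, Nat.cast_zero]
      positivity
  calc (((Finset.Ioc 0 u).filter
      (fun t : ℕ => Sm S t ∧ ∃ q ∈ T, q ∣ t ∧ (k : ℝ) ^ (3 / 4 : ℝ) < q)).card : ℝ)
      ≤ ((M.biUnion (fun m => (B m).image (fun q => m * q))).card : ℝ) := by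
        exact_mod_cast Finset.card_le_card hsub
    _ ≤ ∑ m ∈ M, (((B m).image (fun q => m * q)).card : ℝ) := by
        exact_mod_cast Finset.card_biUnion_le
    _ ≤ ∑ m ∈ M, ((B m).card : ℝ) := by
        apply Finset.sum_le_sum
        intro m _
        exact_mod_cast Finset.card_image_le
    _ ≤ ∑ m ∈ M, C * u / (L * Real.log k) * (1 / (m : ℝ)) := Finset.sum_le_sum hBm
    _ = C * u / (L * Real.log k) * ∑ m ∈ M, 1 / (m : ℝ) := by rw [Finset.mul_sum]
    _ ≤ C * u / (L * Real.log k) * Real.exp (∑ q ∈ S.filter Nat.Prime, 2 / (q : ℝ)) := by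
        apply mul_le_mul_of_nonneg_left (sum_smooth S u)
        positivity
    _ = C * Real.exp (∑ q ∈ S.filter Nat.Prime, 2 / (q : ℝ)) * u / (L * Real.log k) := by ring

end Pool.Agent.Helper601.HK
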