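import Mathlib
import Pool.Agent.Helper601.HKDefs

set_option autoImplicit false

namespace Pool.Agent.Helper601.HK



open Classical in
/-- geometric part -/
theorem geo_part (S : Finset ℕ) (p X k u : ℕ)
    (hu1 : 1 ≤ u)
    (hp : p.Prime) (hp3 : 3 ≤ p) (hSX : ∀ l ∈ S, l.Prime → l = p ∨ X < l)
    (Ga : Finset ℕ) (hGa : ∀ m ∈ Ga, 1 ≤ m ∧ m ≤ k ∧ Sm S m ∧ k < 2 * u * m ∧ m ≤ X) (hk : 1 ≤ k) :
    (∑ m ∈ Ga, 1 / (m : ℝ)) ≤ 3 * u / k := by
  have hex : ∃ j : ℕ, k < 2 * u * p ^ j := by
    refine ⟨k, ?_⟩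
    have h1 : k < p ^ k := Nat.lt_pow_self (by omega)
    nlinarith [Nat.zero_le (p ^ k)]
  obtain ⟨j0, hj0, hmin⟩ : ∃ j0 : ℕ, k < 2 * u * p ^ j0 ∧ ∀ j, k < 2 * u * p ^ j → j0 ≤ j :=
    ⟨Nat.find hex, Nat.find_spec hex, fun j hj => Nat.find_min' hex hj⟩
  have hsub : Ga ⊆ (Finset.range (k + 1)).image (fun i => p ^ (j0 + i)) := by
    intro m hm
    obtain ⟨h1, h2, h3, h4, h5⟩ := hGa m hm
    have hpow : m = p ^ m.primeFactorsList.length := by
      apply Nat.eq_prime_pow_of_unique_prime_dvd (by omega)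
      intro d hd hdm
      have hdS := h3 d hd hdm
      rcases hSX d hdS hd with h | h
      · exact h
      · exfalso
        have := Nat.le_of_dvd (by omega) hdm
        omega
    set j := m.primeFactorsList.length with hj
    have hjj : j0 ≤ j := by
      apply hmin
      rw [← hpow]
      exact h4
    have hjk : j < k + 1 := by
      have h6 : j < p ^ j := Nat.lt_pow_self (by omega)
      rw [← hpow] at h6
      omega
    refine Finset.mem_image.2 ⟨j - j0, Finset.mem_range.2 (by omega), ?_⟩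
    have : j0 + (j - j0) = j := by omega
    simp only [this]
    exact hpow.symm
  have hp0 : (0 : ℝ) < p := by exact_mod_cast hp.pos
  have hp3' : (3 : ℝ) ≤ p := by exact_mod_cast hp3
  have hinj : Set.InjOn (fun i => p ^ (j0 + i)) (↑(Finset.range (k + 1)) : Set ℕ) := by
    intro a _ b _ hab
    have := Nat.pow_right_injective hp.two_le hab
    omega
  have hr0 : (0 : ℝ) ≤ (p : ℝ)⁻¹ := by positivity
  have hr1 : (p : ℝ)⁻¹ ≤ 1 / 3 := by
    rw [inv_eq_one_div]
    exact one_div_le_one_div_of_le (by norm_num) hp3'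
  calc (∑ m ∈ Ga, 1 / (m : ℝ))
      ≤ ∑ m ∈ (Finset.range (k + 1)).image (fun i => p ^ (j0 + i)), 1 / (m : ℝ) := by
        apply Finset.sum_le_sum_of_subset_of_nonneg hsub
        intro i _ _
        positivity
    _ = ∑ i ∈ Finset.range (k + 1), 1 / ((p ^ (j0 + i) : ℕ) : ℝ) := by
        rw [Finset.sum_image hinj]
    _ = (1 / (p : ℝ) ^ j0) * ∑ i ∈ Finset.range (k + 1), ((p : ℝ)⁻¹) ^ i := by
        rw [Finset.mul_sum]
        apply Finset.sum_congr rfl
        intro i _
        push_cast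
        rw [pow_add, inv_pow]
        field_simp
    _ ≤ (2 * u / k) * (3 / 2) := by
        have hk0 : (0 : ℝ) < k := by exact_mod_cast hk
        have hu0 : (0 : ℝ) < u := by exact_mod_cast hu1
        have hpj : (0 : ℝ) < (p : ℝ) ^ j0 := by positivity
        apply mul_le_mul
        · rw [div_le_div_iff₀ hpj hk0]
          have : ((k : ℕ) : ℝ) < ((2 * u * p ^ j0 : ℕ) : ℝ) := by exact_mod_cast hj0
          push_cast at this
          linarith
        · have h1 : ∑ i ∈ Finset.range (k + 1), ((p : ℝ)⁻¹) ^ i ≤ ∑' i : ℕ, ((p : ℝ)⁻¹) ^ i := by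
            apply Summable.sum_le_tsum
            · intro i _
              positivity
            · exact summable_geometric_of_lt_one hr0 (by linarith)
          rw [tsum_geometric_of_lt_one hr0 (by linarith)] at h1
          refine h1.trans ?_
          rw [inv_le_comm₀ (by linarith) (by norm_num)]
          norm_num
          norm_num at hr1
          linarith
        · apply Finset.sum_nonneg
          intro i _
          positivity
        · positivity
    _ = 3 * u / k := by ring

open Classical in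
/-- `sum_smooth` is proved elsewhere. -/
theorem top_high
    (sum_smooth : ∀ (S : Finset ℕ) (N : ℕ),
      (∑ d ∈ (Finset.Icc 1 N).filter (fun d => Sm S d), 1 / (d : ℝ)) ≤
      Real.exp (∑ q ∈ S.filter Nat.Prime, 2 / (q : ℝ)))
    (S T : Finset ℕ) (p X K k u : ℕ) (C : ℝ) (hk : 2 ≤ k) (hC : 0 ≤ C)
    (hu1 : 1 ≤ u) (hu : 2 * u ≤ k) (hkK : k ≤ 2 * u * K) (hK : 2 ≤ K) (hX : 2 ≤ X)
    (hp : p.Prime) (hp3 : 3 ≤ p) (hS2 : 2 ∉ S) (hSX : ∀ l ∈ S, l.Prime → l = p ∨ X < l)
    (hT : ∀ q ∈ T, q.Prime ∧ ∃ s : ℕ, 1 ≤ s ∧ s < q ∧ s < k ∧ q ∣ k - s ∧ 2 ∣ k - s)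
    (hcount : ∀ x : ℝ, (k : ℝ) ^ (3 / 4 : ℝ) ≤ x → x ≤ k →
      ((T.filter (fun q : ℕ => (q : ℝ) ≤ x)).card : ℝ) ≤
        C * x / (Real.log (K + k / x) * Real.log k)) :
    (((Finset.Ioo 1 k).filter
      (fun t : ℕ => k - t ≤ u ∧ Sm S t ∧ ∃ q ∈ T, q ∣ t ∧ (k : ℝ) ^ (3 / 4 : ℝ) < q)).card : ℝ) ≤
      (3 * C / Real.log K +
        2 * K * C * Real.exp (∑ q ∈ S.filter Nat.Prime, 2 / (q : ℝ)) / Real.log X) *
          (u / Real.log k) := by
  have hk0 : (0 : ℝ) < k := by
    have : (0 : ℕ) < k := by omega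
    exact_mod_cast this
  have hlogk : 0 < Real.log k := Real.log_pos (by exact_mod_cast (by omega : 1 < k))
  have hlogK : 0 < Real.log K := Real.log_pos (by exact_mod_cast (by omega : 1 < K))
  have hlogX : 0 < Real.log X := Real.log_pos (by exact_mod_cast (by omega : 1 < X))
  have hK0 : (0 : ℝ) < K := by exact_mod_cast (by omega : 0 < K)
  have hX0 : (0 : ℝ) < X := by exact_mod_cast (by omega : 0 < X)
  set G : Finset ℕ := (Finset.Icc 1 k).filter
    (fun m => Sm S m ∧ k < 2 * u * m ∧ (m : ℝ) * (k : ℝ) ^ (3 / 4 : ℝ) ≤ k) with hG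
  -- step 1
  have hsub : ((Finset.Ioo 1 k).filter
      (fun t : ℕ => k - t ≤ u ∧ Sm S t ∧ ∃ q ∈ T, q ∣ t ∧ (k : ℝ) ^ (3 / 4 : ℝ) < q)) ⊆
      G.biUnion (fun m => (T.filter (fun q : ℕ => (q : ℝ) ≤ (k : ℝ) / m)).image (fun q => m * q)) := by
    intro t ht
    simp only [Finset.mem_filter, Finset.mem_Ioo] at ht
    obtain ⟨⟨ht1, htk⟩, hv, hSt, q, hqT, hqt, hqk⟩ := ht
    obtain ⟨hq, s, hs1, hsq, hsk, hqs, h2s⟩ := hT q hqT
    obtain ⟨m, hm⟩ := hqt
    have hm0 : 0 < m := by
      rcases Nat.eq_zero_or_pos m with h | h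
      · subst h; omega
      · exact h
    have hqv : q < k - t := by
      -- v ≡ s mod q
      by_contra hcon
      push Not at hcon
      -- k - t ≤ q
      obtain ⟨a, ha⟩ := hqs
      -- k - s = q * a ; t = q * m ; so q | difference
      have hne : k - t ≠ s := by
        intro h
        have h3 : k - s = t := by omega
        rw [h3] at h2s
        exact hS2 (hSt 2 Nat.prime_two h2s)
      -- k = s + q a = (k-t) + q m
      have e1 : k = s + q * a := by omega
      have e2 : k = (k - t) + q * m := by omega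
      have e3 : s + q * a = (k - t) + q * m := by omega
      have hmod : s % q = (k - t) % q := by
        have := congrArg (· % q) e3
        simpa using this
      rw [Nat.mod_eq_of_lt hsq] at hmod
      rcases Nat.lt_or_ge (k - t) q with h | h
      · rw [Nat.mod_eq_of_lt h] at hmod
        exact hne hmod.symm
      · have h5 : k - t = q := le_antisymm hcon h
        rw [h5, Nat.mod_self] at hmod
        omega
    have hqu : q < u := lt_of_lt_of_le hqv hv
    rw [Finset.mem_biUnion]
    have hm1 : 1 ≤ m := hm0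
    have hmk : m ≤ k := by
      have : m ≤ q * m := Nat.le_mul_of_pos_left m hq.pos
      omega
    have hmqk : q * m < k := by omega
    have hmR : (0 : ℝ) < m := by exact_mod_cast hm0
    have hmqR : (q : ℝ) * m < k := by exact_mod_cast hmqk
    refine ⟨m, ?_, ?_⟩
    · simp only [hG, Finset.mem_filter, Finset.mem_Icc]
      refine ⟨⟨hm1, hmk⟩, ?_, ?_, ?_⟩
      · intro l hl hlm
        apply hSt l hl
        rw [hm]
        exact Dvd.dvd.mul_left hlm q
      · have h1 : k ≤ 2 * t := by omega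
        have h2 : q * m < u * m := Nat.mul_lt_mul_of_pos_right hqu hm0
        have h3 : 2 * u * m = 2 * (u * m) := by ring
        rw [h3]
        omega
      · have h1 : (m : ℝ) * (k : ℝ) ^ (3 / 4 : ℝ) ≤ m * q := by
          apply mul_le_mul_of_nonneg_left hqk.le hmR.le
        linarith [mul_comm (m : ℝ) q]
    · refine Finset.mem_image.2 ⟨q, ?_, ?_⟩
      · simp only [Finset.mem_filter]
        refine ⟨hqT, ?_⟩
        rw [le_div_iff₀ hmR]
        exact hmqR.le
      · rw [hm, mul_comm]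
  have hcard : (((Finset.Ioo 1 k).filter
      (fun t : ℕ => k - t ≤ u ∧ Sm S t ∧ ∃ q ∈ T, q ∣ t ∧ (k : ℝ) ^ (3 / 4 : ℝ) < q)).card : ℝ) ≤
      ∑ m ∈ G, ((T.filter (fun q : ℕ => (q : ℝ) ≤ (k : ℝ) / m)).card : ℝ) := by
    have h1 := (Finset.card_le_card hsub).trans Finset.card_biUnion_le
    have h2 : ∑ m ∈ G, ((T.filter (fun q : ℕ => (q : ℝ) ≤ (k : ℝ) / m)).image
        (fun q => m * q)).card ≤ ∑ m ∈ G, (T.filter (fun q : ℕ => (q : ℝ) ≤ (k : ℝ) / m)).card :=
      Finset.sum_le_sum (fun m _ => Finset.card_image_le)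
    have h3 := h1.trans h2
    exact_mod_cast h3
  refine hcard.trans ?_
  -- step 2
  have hstep2 : ∀ m ∈ G, ((T.filter (fun q : ℕ => (q : ℝ) ≤ (k : ℝ) / m)).card : ℝ) ≤
      C * k / Real.log k * (1 / Real.log (K + m)) * (1 / m) := by
    intro m hm
    simp only [hG, Finset.mem_filter, Finset.mem_Icc] at hm
    obtain ⟨⟨hm1, hmk⟩, hSm, hkm, hmk34⟩ := hm
    have hmR : (0 : ℝ) < m := by exact_mod_cast (by omega : 0 < m)
    have h1 : (k : ℝ) ^ (3 / 4 : ℝ) ≤ (k : ℝ) / m := by
      rw [le_div_iff₀ hmR]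
      linarith [mul_comm (m : ℝ) ((k : ℝ) ^ (3 / 4 : ℝ))]
    have h2 : (k : ℝ) / m ≤ k := by
      apply div_le_self hk0.le
      exact_mod_cast hm1
    have h3 := hcount ((k : ℝ) / m) h1 h2
    have h4 : (k : ℝ) / ((k : ℝ) / m) = m := by field_simp
    rw [h4] at h3
    refine h3.trans (le_of_eq ?_)
    have hlogKm : 0 < Real.log (K + m) := by
      apply Real.log_pos
      have : (2 : ℝ) ≤ K := by exact_mod_cast hK
      linarith
    field_simp
  refine (Finset.sum_le_sum hstep2).trans ?_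
  -- split
  rw [← Finset.sum_filter_add_sum_filter_not G (fun m => m ≤ X)]
  rw [add_mul]
  have hA : (∑ m ∈ G.filter (fun m => m ≤ X), 1 / (m : ℝ)) ≤ 3 * u / k := by
    apply geo_part S p X k u hu1 hp hp3 hSX _ _ (by omega)
    intro m hm
    simp only [hG, Finset.mem_filter, Finset.mem_Icc] at hm
    obtain ⟨⟨⟨hm1, hmk⟩, hSm, hkm, hmk34⟩, hmX⟩ := hm
    exact ⟨hm1, hmk, hSm, hkm, hmX⟩
  have hB : (∑ m ∈ G.filter (fun m => ¬ m ≤ X), 1 / (m : ℝ)) ≤
      Real.exp (∑ q ∈ S.filter Nat.Prime, 2 / (q : ℝ)) := by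
    refine le_trans ?_ (sum_smooth S k)
    apply Finset.sum_le_sum_of_subset_of_nonneg
    · intro m hm
      simp only [hG, Finset.mem_filter, Finset.mem_Icc] at hm ⊢
      exact ⟨hm.1.1, hm.1.2.1⟩
    · intro i _ _
      positivity
  have hCk : 0 ≤ C * k / Real.log k := by positivity
  apply add_le_add
  · calc (∑ m ∈ G.filter (fun m => m ≤ X), C * k / Real.log k * (1 / Real.log (K + m)) * (1 / m))
        ≤ ∑ m ∈ G.filter (fun m => m ≤ X), C * k / Real.log k * (1 / Real.log K) * (1 / m) := by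
          apply Finset.sum_le_sum
          intro m _
          apply mul_le_mul_of_nonneg_right _ (by positivity)
          apply mul_le_mul_of_nonneg_left _ hCk
          apply one_div_le_one_div_of_le hlogK
          apply Real.log_le_log hK0
          have : (0 : ℝ) ≤ m := Nat.cast_nonneg m
          linarith
      _ = C * k / Real.log k * (1 / Real.log K) * ∑ m ∈ G.filter (fun m => m ≤ X), (1 / (m : ℝ)) := by
          rw [Finset.mul_sum]
      _ ≤ C * k / Real.log k * (1 / Real.log K) * (3 * u / k) := by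
          apply mul_le_mul_of_nonneg_left hA (by positivity)
      _ = 3 * C / Real.log K * (u / Real.log k) := by
          field_simp
  · calc (∑ m ∈ G.filter (fun m => ¬ m ≤ X), C * k / Real.log k * (1 / Real.log (K + m)) * (1 / m))
        ≤ ∑ m ∈ G.filter (fun m => ¬ m ≤ X), C * k / Real.log k * (1 / Real.log X) * (1 / m) := by
          apply Finset.sum_le_sum
          intro m hm
          simp only [Finset.mem_filter, not_le] at hm
          apply mul_le_mul_of_nonneg_right _ (by positivity)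
          apply mul_le_mul_of_nonneg_left _ hCk
          apply one_div_le_one_div_of_le hlogX
          apply Real.log_le_log hX0
          have : (X : ℝ) < m := by exact_mod_cast hm.2
          linarith
      _ = C * k / Real.log k * (1 / Real.log X) *
            ∑ m ∈ G.filter (fun m => ¬ m ≤ X), (1 / (m : ℝ)) := by
          rw [Finset.mul_sum]
      _ ≤ C * k / Real.log k * (1 / Real.log X) *
            Real.exp (∑ q ∈ S.filter Nat.Prime, 2 / (q : ℝ)) := by
          apply mul_le_mul_of_nonneg_left hB (by positivity)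
      _ ≤ C * (2 * u * K) / Real.log k * (1 / Real.log X) *
            Real.exp (∑ q ∈ S.filter Nat.Prime, 2 / (q : ℝ)) := by
          have hkK' : (k : ℝ) ≤ 2 * u * K := by exact_mod_cast hkK
          gcongr
      _ = 2 * K * C * Real.exp (∑ q ∈ S.filter Nat.Prime, 2 / (q : ℝ)) / Real.log X *
            (u / Real.log k) := by
          field_simp

end Pool.Agent.Helper601.HK
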