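import Mathlib
import Pool.Agent.Helper601.HKDefs

set_option autoImplicit false

namespace Pool.Agent.Helper601.HK





theorem HK8_zz (X : ℕ) : ∃ k0 : ℕ, ∀ k, k0 ≤ k → X ≤ zz k := by
  have h : Filter.Tendsto (fun k : ℕ => (Real.log k) ^ 2) Filter.atTop Filter.atTop :=
    (Filter.tendsto_pow_atTop two_ne_zero).comp
      (Real.tendsto_log_atTop.comp tendsto_natCast_atTop_atTop)
  have h2 := (tendsto_nat_floor_atTop.comp h).eventually_ge_atTop X
  exact Filter.eventually_atTop.mp h2

theorem HK8_Rs {W X k l : ℕ} (hz : X ≤ zz k) (h : l ∈ Rs W X k) :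
    X < l ∧ l.Prime ∧ ∀ j, j ≤ X + 1 → ¬ l ∣ k + 1 - j := by
  unfold Rs at h
  rw [Finset.mem_filter] at h
  unfold Rng at h
  rw [Finset.mem_filter, Finset.mem_Ioc] at h
  exact ⟨lt_of_le_of_lt hz h.1.1.1, h.1.2, h.2⟩

theorem base_large (W X : ℕ) (κ : ℝ) : ∃ k0 : ℕ, ∀ k : ℕ, k0 ≤ k → ∀ p : ℕ, p.Prime → X < p →
    p ∣ k → Inv κ k (insert p (Rs W X k)) X X ∅ (fun _ => 0) := by
  obtain ⟨k0, hk0⟩ := HK8_zz X
  refine ⟨k0, fun k hk p hp hXp hpk => ?_⟩
  have hz := hk0 k hk
  constructor
  · simp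
  · simp
  · simp
  · simp
  · simp
  · simp
  · simp
  · simp
  · intro t h1 h2 h3 h4
    exfalso
    obtain ⟨l, hl, hlt⟩ := Nat.exists_prime_and_dvd (ne_of_gt h1)
    have hmem := h4 l hl hlt
    rw [Finset.union_empty, Finset.mem_insert] at hmem
    unfold ht at h3
    rcases min_le_iff.mp h3 with h3 | h3
    · have hlX : l ≤ X := (Nat.le_of_dvd (by omega) hlt).trans h3
      rcases hmem with rfl | hmem
      · omega
      · have := (HK8_Rs hz hmem).1
        omega
    · rcases hmem with rfl | hmem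
      · have h5 : l ∣ k - t := Nat.dvd_sub hpk hlt
        have := Nat.le_of_dvd (by omega) h5
        omega
      · have h5 := (HK8_Rs hz hmem).2.2 (k - t + 1) (by omega)
        apply h5
        have : k + 1 - (k - t + 1) = t := by omega
        rw [this]; exact hlt

theorem HK8_n1 {X K : ℕ} (hX : 3 ≤ X)
    (hK : ∀ x : ℕ, K ≤ x → ∃ q : ℕ, q.Prime ∧ X < q ∧ q ∣ x ^ 2 - 1) (n : ℕ) (hn : K ≤ n) :
    ∃ q : ℕ, q.Prime ∧ X < q ∧ (q ∣ n ∨ q ∣ n + 1) := by
  obtain ⟨q, hq, hXq, hd⟩ := hK (2 * n + 1) (by omega)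
  refine ⟨q, hq, hXq, ?_⟩
  have e : (2 * n + 1) ^ 2 - 1 = 4 * (n * (n + 1)) := by
    have : (2 * n + 1) ^ 2 = 4 * (n * (n + 1)) + 1 := by ring
    omega
  rw [e] at hd
  rcases hq.dvd_mul.mp hd with h | h
  · exfalso
    have h2 : q ∣ 2 := hq.dvd_of_dvd_pow (n := 2) (by simpa using h)
    have := Nat.le_of_dvd (by norm_num) h2
    omega
  · exact hq.dvd_mul.mp h

theorem HK8_n2 {X K : ℕ}
    (hK : ∀ x : ℕ, K ≤ x → ∃ q : ℕ, q.Prime ∧ X < q ∧ q ∣ x ^ 2 - 1) (n : ℕ) (hn : K ≤ n) :
    ∃ q : ℕ, q.Prime ∧ X < q ∧ (q ∣ n ∨ q ∣ n + 2) := by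
  obtain ⟨q, hq, hXq, hd⟩ := hK (n + 1) (by omega)
  refine ⟨q, hq, hXq, ?_⟩
  have e : (n + 1) ^ 2 - 1 = n * (n + 2) := by
    have : (n + 1) ^ 2 = n * (n + 2) + 1 := by ring
    omega
  rw [e] at hd
  exact hq.dvd_mul.mp hd

theorem HK8_pow {p t : ℕ} (ht1 : 1 < t) (h : Sm {p} t) : ∃ i, 1 ≤ i ∧ t = p ^ i := by
  have e := Nat.eq_prime_pow_of_unique_prime_dvd (n := t) (p := p) (by omega)
    (fun {d} hd hdt => by simpa using h d hd hdt)
  refine ⟨_, ?_, e⟩
  by_contra h0
  have : t.primeFactorsList.length = 0 := by omega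
  rw [this, pow_zero] at e
  omega

open Classical in
/-- upper bound for the number of elements of height at most `x` -/
theorem HK8_cardE {p k X x B : ℕ} (hp : p.Prime) (hp3 : 3 ≤ p) (hx : x ≤ X) (hk : 3 * X ≤ 2 * k)
    (hB : ∀ v, 1 ≤ v → v ≤ X → v < k → 1 < k - v → Sm {p} (k - v) → B ≤ v) :
    ((Finset.Ioo 1 k).filter (fun t => ht k t ≤ x ∧ Sm {p} t)).card ≤
      Nat.log p x + (if B ≤ x then 1 else 0) := by
  have hsub : ((Finset.Ioo 1 k).filter (fun t => ht k t ≤ x ∧ Sm {p} t)) ⊆
      ((Finset.Icc 1 (Nat.log p x)).image (fun i => p ^ i)) ∪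
        ((Finset.Ioo 1 k).filter (fun t => k - t ≤ x ∧ Sm {p} t)) := by
    intro t ht'
    rw [Finset.mem_filter, Finset.mem_Ioo] at ht'
    obtain ⟨⟨h1, h2⟩, h3, h4⟩ := ht'
    unfold ht at h3
    rcases min_le_iff.mp h3 with h3 | h3
    · apply Finset.mem_union_left
      obtain ⟨i, hi, rfl⟩ := HK8_pow h1 h4
      refine Finset.mem_image.mpr ⟨i, Finset.mem_Icc.mpr ⟨hi, ?_⟩, rfl⟩
      exact (Nat.le_log_iff_pow_le hp.one_lt (by
        have : 0 < p ^ i := Nat.pow_pos hp.pos
        omega)).mpr h3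
    · apply Finset.mem_union_right
      rw [Finset.mem_filter, Finset.mem_Ioo]
      exact ⟨⟨h1, h2⟩, h3, h4⟩
  refine (Finset.card_le_card hsub).trans ((Finset.card_union_le _ _).trans ?_)
  refine Nat.add_le_add ?_ ?_
  · refine Finset.card_image_le.trans ?_
    rw [Nat.card_Icc]; omega
  · split_ifs with hBx
    · rw [Finset.card_le_one]
      have key : ∀ t t' : ℕ, 1 < t → t < k → 1 < t' → t' < k → k - t ≤ x → k - t' ≤ x →
          Sm {p} t → Sm {p} t' → t' ≤ t := by
        intro t t' h1 h2 h1' h2' h3 h3' h4 h4'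
        obtain ⟨i, hi, rfl⟩ := HK8_pow h1 h4
        obtain ⟨i', hi', rfl⟩ := HK8_pow h1' h4'
        by_contra hlt
        push Not at hlt
        have hii : i < i' := (Nat.pow_lt_pow_iff_right hp.one_lt).mp hlt
        have h5 : p ^ (i + 1) ≤ p ^ i' := Nat.pow_le_pow_right hp.pos hii
        have h6 : p ^ (i + 1) = p ^ i * p := pow_succ _ _
        have h7 : p ^ i * 3 ≤ p ^ i * p := Nat.mul_le_mul_left _ hp3
        omega
      intro t ht1 t' ht2
      rw [Finset.mem_filter, Finset.mem_Ioo] at ht1 ht2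
      exact le_antisymm
        (key t' t ht2.1.1 ht2.1.2 ht1.1.1 ht1.1.2 ht2.2.1 ht1.2.1 ht2.2.2 ht1.2.2)
        (key t t' ht1.1.1 ht1.1.2 ht2.1.1 ht2.1.2 ht1.2.1 ht2.2.1 ht1.2.2 ht2.2.2)
    · rw [Nat.le_zero, Finset.card_eq_zero, Finset.filter_eq_empty_iff]
      rintro t ht1 ⟨h3, h4⟩
      rw [Finset.mem_Ioo] at ht1
      have e : k - (k - t) = t := by omega
      have := hB (k - t) (by omega) (by omega) (by omega) (by omega) (by rw [e]; exact h4)
      omega

/-- from triples -/
theorem HK8_triples (P : ℕ → Prop) [DecidablePred P] (n : ℕ)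
    (h1 : ∀ j, j + 1 < 3 * n → P j ∨ P (j + 1)) (h2 : ∀ j, j + 2 < 3 * n → P j ∨ P (j + 2)) :
    2 * n ≤ ((Finset.range (3 * n)).filter P).card := by
  induction n with
  | zero => simp
  | succ n ih =>
    have ih' := ih (fun j hj => h1 j (by omega)) (fun j hj => h2 j (by omega))
    rw [Finset.card_filter] at ih' ⊢
    rw [show 3 * (n + 1) = 3 * n + 1 + 1 + 1 by ring, Finset.sum_range_succ, Finset.sum_range_succ,
      Finset.sum_range_succ]
    have a := h1 (3 * n) (by omega)
    have b := h1 (3 * n + 1) (by omega)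
    have c := h2 (3 * n) (by omega)
    have hc2 : 3 * n + 1 + 1 = 3 * n + 2 := rfl
    rw [hc2] at b ⊢
    by_cases p0 : P (3 * n) <;> by_cases p1 : P (3 * n + 1) <;> by_cases p2 : P (3 * n + 2) <;>
      simp only [p0, p1, p2, if_true, if_false, or_self, or_false, or_true] at a b c ⊢ <;> omega

theorem HK8_log5 {p x : ℕ} (hp : 5 ≤ p) (hx : 10 ≤ x) : Nat.log p x + 1 ≤ 2 * ((x - 1) / 6) := by
  have h : ∀ n : ℕ, 1 ≤ n → 6 * n + 6 < 5 ^ (2 * n) := by
    intro n hn
    induction n, hn using Nat.le_induction with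
    | base => norm_num
    | succ n hn ih =>
      have : 5 ^ (2 * (n + 1)) = 25 * 5 ^ (2 * n) := by
        rw [show 2 * (n + 1) = 2 * n + 2 by ring, pow_add]; ring
      rw [this]; omega
  have h1 := h ((x - 1) / 6) (by omega)
  have h2 : x < 5 ^ (2 * ((x - 1) / 6)) := by omega
  have h3 : Nat.log 5 x < 2 * ((x - 1) / 6) := Nat.log_lt_of_lt_pow (by omega) h2
  have h4 : Nat.log p x ≤ Nat.log 5 x := Nat.log_anti_left (by norm_num) hp
  omega

theorem HK8_log3 {x : ℕ} (hx : 13 ≤ x) : Nat.log 3 x + 1 ≤ 2 * ((x - 1) / 6) := by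
  have h : ∀ n : ℕ, 2 ≤ n → 6 * n + 6 < 3 ^ (2 * n) := by
    intro n hn
    induction n, hn using Nat.le_induction with
    | base => norm_num
    | succ n hn ih =>
      have : 3 ^ (2 * (n + 1)) = 9 * 3 ^ (2 * n) := by
        rw [show 2 * (n + 1) = 2 * n + 2 by ring, pow_add]; ring
      rw [this]; omega
  have h1 := h ((x - 1) / 6) (by omega)
  have h2 : x < 3 ^ (2 * ((x - 1) / 6)) := by omega
  have h3 : Nat.log 3 x < 2 * ((x - 1) / 6) := Nat.log_lt_of_lt_pow (by omega) h2
  omega

/-- `stormer` is proved in another job. -/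
theorem base_small
    (stormer : ∀ X : ℕ, ∃ K : ℕ, ∀ x : ℕ, K ≤ x → ∃ q : ℕ, q.Prime ∧ X < q ∧ q ∣ x ^ 2 - 1)
    (W X : ℕ) (κ : ℝ) : ∃ k0 : ℕ, ∀ k : ℕ, k0 ≤ k → ¬ IsPrimePow k →
    ∀ p : ℕ, p.Prime → p ≠ 2 → p ∣ k → (∀ l : ℕ, l.Prime → l ∣ k → l ≤ p) → p ≤ X →
    ∃ (T : Finset ℕ) (τ : ℕ → ℕ), Inv κ k (insert p (Rs W X k)) X X T τ := by
  classical
  obtain ⟨K, hK⟩ := stormer X
  obtain ⟨k0, hk0⟩ := HK8_zz X
  refine ⟨k0 + 10 * (K + X + 10) + (K + 1) * X, fun k hk hnpp p hp hp2 hpk hmax hpX => ?_⟩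
  have hz := hk0 k (by omega)
  have hkK : 10 * (K + X + 10) ≤ k := by omega
  have hkX : (K + 1) * X ≤ k := by omega
  have hp3 : 3 ≤ p := by
    have := hp.two_le
    omega
  have hX : 3 ≤ X := hp3.trans hpX
  have hno : ∀ q : ℕ, q.Prime → X < q → ¬ q ∣ k := by
    intro q hq hXq hqk
    have := hmax q hq hqk
    omega
  obtain ⟨M, δ, hM, hδ⟩ : ∃ M δ : ℕ, k = 2 * M + δ ∧ (δ = 1 ∨ δ = 2) :=
    ⟨(k - 1) / 2, k - 2 * ((k - 1) / 2), by omega, by omega⟩
  have hMK : K + X + 10 ≤ M := by omega
  have hX2 : ∀ q : ℕ, q.Prime → X < q → ∀ n, q ∣ 2 * n → q ∣ n := by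
    intro q hq hXq n hd
    rcases hq.dvd_mul.mp hd with h | h
    · have := Nat.le_of_dvd (by norm_num) h
      omega
    · exact h
  set NS : ℕ → Prop := fun j => ∃ q : ℕ, q.Prime ∧ X < q ∧ q ∣ M - j with hNS
  have hNS0 : NS 0 := by
    rcases hδ with hδ | hδ
    · obtain ⟨q, hq, hXq, h | h⟩ := HK8_n1 hX hK (2 * M) (by omega)
      · exact ⟨q, hq, hXq, hX2 q hq hXq _ h⟩
      · exact absurd (by rw [hM, hδ]; exact h) (hno q hq hXq)
    · obtain ⟨q, hq, hXq, h | h⟩ := HK8_n2 hK (2 * M) (by omega)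
      · exact ⟨q, hq, hXq, hX2 q hq hXq _ h⟩
      · exact absurd (by rw [hM, hδ]; exact h) (hno q hq hXq)
  have hNS1 : ∀ j, j ≤ X + 2 → NS j ∨ NS (j + 1) := by
    intro j hj
    obtain ⟨q, hq, hXq, h | h⟩ := HK8_n1 hX hK (M - (j + 1)) (by omega)
    · exact Or.inr ⟨q, hq, hXq, h⟩
    · refine Or.inl ⟨q, hq, hXq, ?_⟩
      rwa [show M - (j + 1) + 1 = M - j by omega] at h
  have hNS2 : ∀ j, j ≤ X + 2 → NS j ∨ NS (j + 2) := by
    intro j hj
    obtain ⟨q, hq, hXq, h | h⟩ := HK8_n2 hK (M - (j + 2)) (by omega)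
    · exact Or.inr ⟨q, hq, hXq, h⟩
    · refine Or.inl ⟨q, hq, hXq, ?_⟩
      rwa [show M - (j + 2) + 2 = M - j by omega] at h
  set J : ℕ → Finset ℕ := fun x => (Finset.range x).filter (fun j => 2 * j + δ < x ∧ NS j) with hJ
  have hJa : ∀ x, 3 ≤ x → 1 ≤ (J x).card := by
    intro x hx
    apply Finset.card_pos.mpr
    refine ⟨0, ?_⟩
    simp only [hJ, Finset.mem_filter, Finset.mem_range]
    exact ⟨by omega, by omega, hNS0⟩
  have hJb : ∀ x, x ≤ X → 2 * ((x - 1) / 6) ≤ (J x).card := by
    intro x hx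
    refine (HK8_triples NS ((x - 1) / 6) (fun j hj => hNS1 j (by omega))
      (fun j hj => hNS2 j (by omega))).trans (Finset.card_le_card ?_)
    intro j hj
    rw [Finset.mem_filter, Finset.mem_range] at hj
    simp only [hJ, Finset.mem_filter, Finset.mem_range]
    exact ⟨by omega, by omega, hj.2⟩
  have hJc : p = 3 → ∀ x, 9 ≤ x → 3 ≤ (J x).card := by
    intro hp3' x hx
    -- k is even
    have h2k : 2 ∣ k := by
      by_contra h2k
      apply hnpp
      have : k = p ^ k.primeFactorsList.length := by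
        refine Nat.eq_prime_pow_of_unique_prime_dvd (by omega) ?_
        intro d hd hdk
        have h1 := hmax d hd hdk
        have h2 := hd.two_le
        have h3 : d ≠ 2 := by
          rintro rfl
          exact h2k hdk
        omega
      rw [isPrimePow_nat_iff]
      refine ⟨p, k.primeFactorsList.length, hp, ?_, this.symm⟩
      by_contra h0
      have h00 : k.primeFactorsList.length = 0 := by omega
      rw [h00, pow_zero] at this
      omega
    have hδ2 : δ = 2 := by
      rcases hδ with h | h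
      · omega
      · exact h
    have h3k : 3 ∣ k := by rw [← hp3']; exact hpk
    obtain ⟨w, hw⟩ : ∃ w, k = 6 * w := ⟨k / 6, by omega⟩
    have hN2 : NS 2 := by
      obtain ⟨q, hq, hXq, h | h⟩ := HK8_n1 hX hK (w - 1) (by omega)
      · refine ⟨q, hq, hXq, ?_⟩
        rw [show M - 2 = 3 * (w - 1) by omega]
        exact h.mul_left 3
      · exfalso
        apply hno q hq hXq
        rw [hw]
        rw [show w - 1 + 1 = w by omega] at h
        exact h.mul_left 6
    have hN13 := hNS2 1 (by omega)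
    rcases hN13 with h13 | h13
    · have : ({0, 1, 2} : Finset ℕ) ⊆ J x := by
        intro j hj
        simp only [Finset.mem_insert, Finset.mem_singleton] at hj
        simp only [hJ, Finset.mem_filter, Finset.mem_range]
        rcases hj with rfl | rfl | rfl
        · exact ⟨by omega, by omega, hNS0⟩
        · exact ⟨by omega, by omega, h13⟩
        · exact ⟨by omega, by omega, hN2⟩
      exact (Finset.card_le_card this)
    · have : ({0, 2, 3} : Finset ℕ) ⊆ J x := by
        intro j hj
        simp only [Finset.mem_insert, Finset.mem_singleton] at hj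
        simp only [hJ, Finset.mem_filter, Finset.mem_range]
        rcases hj with rfl | rfl | rfl
        · exact ⟨by omega, by omega, hNS0⟩
        · exact ⟨by omega, by omega, hN2⟩
        · exact ⟨by omega, by omega, h13⟩
      exact (Finset.card_le_card this)
  -- the high element
  have hv : ∀ v, 1 ≤ v → v ≤ X → v < k → 1 < k - v → Sm {p} (k - v) →
      p ∣ v ∧ v ≠ p ∧ (2 ∣ k → ¬ 2 ∣ v) := by
    intro v hv1 hvX hvk hv2 hS
    obtain ⟨i, hi, hpi⟩ := HK8_pow hv2 hS
    have hpd : p ∣ k - v := by rw [hpi]; exact dvd_pow_self p (by omega)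
    have hpv : p ∣ v := by
      have := Nat.dvd_sub hpk hpd
      rwa [show k - (k - v) = v by omega] at this
    refine ⟨hpv, ?_, ?_⟩
    · rintro rfl
      -- v = p
      obtain ⟨m, hm⟩ := hpd
      have hmK : K ≤ m := by
        by_contra hlt
        push Not at hlt
        have h1 : v * m ≤ v * K := Nat.mul_le_mul_left _ hlt.le
        have h2 : v * m ≤ X * K := h1.trans (Nat.mul_le_mul_right _ hpX)
        have h3 : (K + 1) * X = X * K + X := by ring
        have h4 : v * m + v = k := by omega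
        have h5 : v * m < v * K := Nat.mul_lt_mul_of_pos_left hlt (by omega)
        have h6 : v * K ≤ X * K := Nat.mul_le_mul_right _ hpX
        omega
      obtain ⟨q, hq, hXq, h | h⟩ := HK8_n1 hX hK m hmK
      · have h1 : q ∣ v ^ i := by rw [← hpi, hm]; exact h.mul_left v
        have h2 := hq.dvd_of_dvd_pow h1
        have := Nat.le_of_dvd (by omega) h2
        omega
      · apply hno q hq hXq
        have : k = v * (m + 1) := by
          rw [mul_add, mul_one]; omega
        rw [this]
        exact h.mul_left v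
    · intro h2k h2v
      have h1 : 2 ∣ k - v := Nat.dvd_sub h2k h2v
      rw [hpi] at h1
      have h2 := Nat.prime_two.dvd_of_dvd_pow h1
      exact hp2 ((Nat.prime_dvd_prime_iff_eq Nat.prime_two hp).mp h2).symm
  set E : Finset ℕ := (Finset.Ioo 1 k).filter (fun t => ht k t ≤ X ∧ Sm {p} t) with hE
  have hEmem : ∀ t, t ∈ E ↔ (1 < t ∧ t < k) ∧ ht k t ≤ X ∧ Sm {p} t := by
    intro t
    rw [hE, Finset.mem_filter, Finset.mem_Ioo]
  -- heights are at least p
  have hEp : ∀ t ∈ E, p ≤ ht k t := by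
    intro t htE
    rw [hE, Finset.mem_filter, Finset.mem_Ioo] at htE
    obtain ⟨⟨h1, h2⟩, h3, h4⟩ := htE
    obtain ⟨i, hi, rfl⟩ := HK8_pow h1 h4
    have hpd : p ∣ p ^ i := dvd_pow_self p (by omega)
    unfold ht
    refine le_min (Nat.le_of_dvd (by omega) hpd) (Nat.le_of_dvd (by omega) (Nat.dvd_sub hpk hpd))
  have hEX : ∀ t ∈ E, ht k t ≤ X := by
    intro t htE
    rw [hE, Finset.mem_filter] at htE
    exact htE.2.1
  have hcount : ∀ t ∈ E, (E.filter (fun t' => ht k t' ≤ ht k t)).card ≤ (J (ht k t)).card := by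
    intro t htE
    have hpx := hEp t htE
    have hxX := hEX t htE
    set x := ht k t with hx
    have hsub : E.filter (fun t' => ht k t' ≤ x) ⊆
        (Finset.Ioo 1 k).filter (fun t' => ht k t' ≤ x ∧ Sm {p} t') := by
      intro t' ht'
      rw [Finset.mem_filter, hE, Finset.mem_filter] at ht'
      rw [Finset.mem_filter]
      exact ⟨ht'.1.1, ht'.2, ht'.1.2.2⟩
    refine (Finset.card_le_card hsub).trans ?_
    by_cases hp3' : p = 3
    · have hc := HK8_cardE (k := k) (B := 9) hp hp3 hxX (by omega) (by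
        intro v a b c d e
        obtain ⟨h1, h2, h3⟩ := hv v a b c d e
        have h2k : 2 ∣ k := by
          by_contra h2k
          apply hnpp
          have : k = p ^ k.primeFactorsList.length := by
            refine Nat.eq_prime_pow_of_unique_prime_dvd (by omega) ?_
            intro d hd hdk
            have h1 := hmax d hd hdk
            have h2 := hd.two_le
            have h3 : d ≠ 2 := by
              rintro rfl
              exact h2k hdk
            omega
          rw [isPrimePow_nat_iff]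
          refine ⟨p, k.primeFactorsList.length, hp, ?_, this.symm⟩
          by_contra h0
          have h00 : k.primeFactorsList.length = 0 := by omega
          rw [h00, pow_zero] at this
          omega
        have h4 := h3 h2k
        rw [hp3'] at h1 h2
        omega)
      refine hc.trans ?_
      rcases lt_or_ge x 9 with h9 | h9
      · rw [if_neg (by omega)]
        have h1 : Nat.log p x < 2 := Nat.log_lt_of_lt_pow (by omega) (by rw [hp3']; norm_num; exact h9)
        have := hJa x (by omega)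
        omega
      · rcases lt_or_ge x 13 with h13 | h13
        · have h1 : Nat.log p x < 3 :=
            Nat.log_lt_of_lt_pow (by omega) (by rw [hp3']; norm_num; omega)
          have := hJc hp3' x h9
          split_ifs <;> omega
        · have h1 := HK8_log3 h13
          have h2 := hJb x hxX
          rw [hp3']
          split_ifs <;> omega
    · have hp5 : 5 ≤ p := by
        have : p ≠ 4 := by rintro rfl; exact absurd hp (by norm_num)
        omega
      have hc := HK8_cardE (k := k) (B := 2 * p) hp hp3 hxX (by omega) (by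
        intro v a b c d e
        obtain ⟨h1, h2, h3⟩ := hv v a b c d e
        obtain ⟨m, rfl⟩ := h1
        have : m ≠ 0 := by rintro rfl; omega
        have : m ≠ 1 := by rintro rfl; omega
        nlinarith [show 2 ≤ m by omega])
      refine hc.trans ?_
      rcases lt_or_ge x (2 * p) with h9 | h9
      · rw [if_neg (by omega)]
        have h1 : Nat.log p x < 2 := Nat.log_lt_of_lt_pow (by omega) (by nlinarith)
        have := hJa x (by omega)
        omega
      · have h1 := HK8_log5 hp5 (x := x) (by omega)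
        have h2 := hJb x hxX
        split_ifs <;> omega
  have hEcard : E.card ≤ Nat.log 2 X + 1 := by
    rw [hE]
    refine (HK8_cardE (B := 0) hp hp3 (le_refl X) (by omega) (by omega)).trans ?_
    rw [if_pos (by omega)]
    have : Nat.log p X ≤ Nat.log 2 X := Nat.log_anti_left (by norm_num) (by omega)
    omega
  -- Hall
  obtain ⟨f, hfi, hf⟩ := (Finset.all_card_le_biUnion_card_iff_exists_injective
    (fun t : {t // t ∈ E} => J (ht k t))).mp (by
      intro S
      rcases S.eq_empty_or_nonempty with rfl | hne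
      · simp
      · obtain ⟨t0, ht0, hmx⟩ := S.exists_max_image (fun t => ht k t) hne
        calc S.card = (S.image (Subtype.val : {t // t ∈ E} → ℕ)).card :=
              (Finset.card_image_of_injective _ Subtype.val_injective).symm
          _ ≤ (E.filter (fun t' => ht k t' ≤ ht k t0)).card := by
              apply Finset.card_le_card
              intro y hy
              obtain ⟨t, ht', rfl⟩ := Finset.mem_image.mp hy
              exact Finset.mem_filter.mpr ⟨t.2, hmx t ht'⟩
          _ ≤ (J (ht k t0)).card := hcount t0 t0.2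
          _ ≤ _ := Finset.card_le_card (Finset.subset_biUnion_of_mem
              (fun t : {t // t ∈ E} => J (ht k t)) ht0))
  have hf' : ∀ t : {t // t ∈ E}, f t < ht k t ∧ 2 * f t + δ < ht k t ∧ NS (f t) := by
    intro t
    have := hf t
    simp only [hJ, Finset.mem_filter, Finset.mem_range] at this
    exact this
  choose g hg using fun t => (hf' t).2.2
  have hfX : ∀ t, f t < X := fun t => lt_of_lt_of_le (hf' t).1 (hEX t t.2)
  have hginj : Function.Injective g := by
    have key : ∀ t t', g t = g t' → f t < f t' → False := by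
      intro t t' hgg hlt
      have h1 := (hg t).2.2
      have h2 := (hg t').2.2
      rw [hgg] at h1
      have h3 : g t' ∣ (M - f t) - (M - f t') := Nat.dvd_sub h1 h2
      have h4 := Nat.le_of_dvd (by have := hfX t'; omega) h3
      have h5 := (hg t').2.1
      have := hfX t'
      omega
    intro t t' hgg
    apply hfi
    rcases lt_trichotomy (f t) (f t') with h | h | h
    · exact (key t t' hgg h).elim
    · exact h
    · exact (key t' t hgg.symm h).elim
  set τ : ℕ → ℕ := fun q => if h : ∃ t : {t // t ∈ E}, g t = q then ((h.choose : {t // t ∈ E}) : ℕ)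
    else 0 with hτdef
  have hτ : ∀ t : {t // t ∈ E}, τ (g t) = t := by
    intro t
    have h : ∃ t' : {t // t ∈ E}, g t' = g t := ⟨t, rfl⟩
    simp only [hτdef, dif_pos h]
    have := hginj h.choose_spec
    rw [this]
  have hT : ∀ q ∈ (Finset.univ.image g : Finset ℕ), ∃ t : {t // t ∈ E}, g t = q := by
    intro q hq
    obtain ⟨t, -, h⟩ := Finset.mem_image.mp hq
    exact ⟨t, h⟩
  refine ⟨Finset.univ.image g, τ, ?_, ?_, ?_, ?_, ?_, ?_, ?_, ?_, ?_⟩
  · intro q hq
    obtain ⟨t, rfl⟩ := hT q hq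
    exact (hg t).1
  · intro q hq
    obtain ⟨t, rfl⟩ := hT q hq
    have := (hg t).2.1
    omega
  · intro q hq
    obtain ⟨t, rfl⟩ := hT q hq
    rw [hτ t]
    have hfX' := hfX t
    have e : k - (2 * f t + δ) = 2 * (M - f t) := by omega
    refine ⟨2 * f t + δ, by omega, (hf' t).2.1, ?_, ?_⟩
    · rw [e]; exact (hg t).2.2.mul_left 2
    · rw [e]; exact dvd_mul_right 2 _
  · intro q hq
    obtain ⟨t, rfl⟩ := hT q hq
    rw [hτ t]
    exact lt_of_le_of_lt (hEX t t.2) (hg t).2.1
  · intro q hq q' hq' h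
    obtain ⟨t, rfl⟩ := hT q hq
    obtain ⟨t', rfl⟩ := hT q' hq'
    rw [hτ t, hτ t'] at h
    rw [Subtype.ext h]
  · intro q hq
    obtain ⟨t, rfl⟩ := hT q hq
    rw [hτ t]
    have htE := (hEmem t).mp t.2
    refine ⟨htE.1.1, htE.1.2, htE.2.1, ?_⟩
    intro l hl hlt
    have := htE.2.2 l hl hlt
    rw [Finset.mem_singleton] at this
    rw [this]
    exact Finset.mem_union_left _ (Finset.mem_insert_self _ _)
  · intro q hq
    obtain ⟨t, rfl⟩ := hT q hq
    rw [hτ t]
    exact Or.inl ⟨hEX t t.2, (hg t).2.1⟩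
  · refine (Finset.card_filter_le _ _).trans (Finset.card_image_le.trans ?_)
    rw [Finset.card_univ, Fintype.card_coe]
    omega
  · intro t h1 h2 h3 h4
    have htE : t ∈ E := by
      rw [hE, Finset.mem_filter, Finset.mem_Ioo]
      refine ⟨⟨h1, h2⟩, h3, ?_⟩
      intro l hl hlt
      rw [Finset.mem_singleton]
      have hmem := h4 l hl hlt
      rw [Finset.mem_union, Finset.mem_insert] at hmem
      rcases hmem with (hmem | hmem) | hmem
      · exact hmem
      · exfalso
        have hR := HK8_Rs hz hmem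
        unfold ht at h3
        rcases min_le_iff.mp h3 with h3 | h3
        · have := Nat.le_of_dvd (by omega) hlt
          omega
        · have h5 := hR.2.2 (k - t + 1) (by omega)
          apply h5
          rw [show k + 1 - (k - t + 1) = t by omega]; exact hlt
      · exfalso
        obtain ⟨t', rfl⟩ := hT l hmem
        have hXl := (hg t').2.1
        have hld := (hg t').2.2
        have hfX' := hfX t'
        unfold ht at h3
        rcases min_le_iff.mp h3 with h3 | h3
        · have := Nat.le_of_dvd (by omega) hlt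
          omega
        · have e : k - (2 * f t' + δ) = 2 * (M - f t') := by omega
          have hs : 2 * f t' + δ < X := lt_of_lt_of_le (hf' t').2.1 (hEX t' t'.2)
          have hd2 : g t' ∣ k - (2 * f t' + δ) := by rw [e]; exact hld.mul_left 2
          rcases lt_trichotomy (2 * f t' + δ) (k - t) with hlt' | heq | hgt
          · have h6 : g t' ∣ (k - (2 * f t' + δ)) - t := Nat.dvd_sub hd2 hlt
            have := Nat.le_of_dvd (by omega) h6
            omega
          · -- t even
            have h2t : 2 ∣ t := by omega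
            have h2m := h4 2 Nat.prime_two h2t
            rw [Finset.mem_union, Finset.mem_insert] at h2m
            rcases h2m with (h2m | h2m) | h2m
            · exact hp2 h2m.symm
            · have := (HK8_Rs hz h2m).1
              omega
            · obtain ⟨t2, h22⟩ := hT 2 h2m
              have := (hg t2).2.1
              omega
          · have h6 : g t' ∣ t - (k - (2 * f t' + δ)) := Nat.dvd_sub hlt hd2
            have := Nat.le_of_dvd (by omega) h6
            omega
    refine ⟨g ⟨t, htE⟩, Finset.mem_image.mpr ⟨⟨t, htE⟩, Finset.mem_univ _, rfl⟩, hτ _⟩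

end Pool.Agent.Helper601.HK
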