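import Mathlib
import Pool.Agent.Helper601.HKDefs
import Pool.Agent.Helper601.HKSieve
import Pool.Agent.Helper601.HKa8
import Pool.Agent.Helper601.HKa9
import Pool.Agent.Helper601.HKa12
import Pool.Agent.Helper601.HKa13
import Pool.Agent.Helper601.HKa16
import Pool.Agent.Helper601.HKa17
import Pool.Agent.Helper601.HKa18

set_option autoImplicit false

open Filter

namespace Pool.Agent.Helper601.HKZ

open Pool.Agent.Helper601.HK

theorem top_asymp (K W : ℕ) (δ : ℝ) (hδ : 0 < δ) (hK : 1 ≤ K) : ∃ k0 : ℕ, ∀ k : ℕ, k0 ≤ k →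
    ((zz k ^ W : ℕ) : ℝ) ≤ (k : ℝ) ^ (3 / 4 : ℝ) ∧
    Real.log k ≤ δ / (16 * K) * (k : ℝ) ^ (3 / 4 : ℝ) ∧ 1 < k := by
  have hKr : (1 : ℝ) ≤ K := by exact_mod_cast hK
  have h1 := (isLittleO_log_rpow_rpow_atTop (2 * W : ℝ) (by norm_num : (0 : ℝ) < 3 / 4)).bound
    (by norm_num : (0 : ℝ) < 1)
  have h2 := (isLittleO_log_rpow_atTop (by norm_num : (0 : ℝ) < 3 / 4)).bound
    (by positivity : (0 : ℝ) < δ / (16 * K))
  have h3 : ∀ᶠ x : ℝ in atTop, 1 < x ∧ ((Real.log x) ^ 2) ^ W ≤ x ^ (3 / 4 : ℝ) ∧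
      Real.log x ≤ δ / (16 * K) * x ^ (3 / 4 : ℝ) := by
    filter_upwards [h1, h2, eventually_gt_atTop 1] with x h1 h2 h3
    have hlog : 0 < Real.log x := Real.log_pos h3
    refine ⟨h3, ?_, ?_⟩
    · rw [Real.norm_of_nonneg (by positivity), Real.norm_of_nonneg (by positivity), one_mul] at h1
      have : ((Real.log x) ^ 2) ^ W = Real.log x ^ (2 * W : ℝ) := by
        rw [← pow_mul, ← Real.rpow_natCast]
        push_cast
        rfl
      rw [this]
      exact h1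
    · rw [Real.norm_of_nonneg hlog.le, Real.norm_of_nonneg (by positivity)] at h2
      exact h2
  obtain ⟨x0, hx0⟩ := eventually_atTop.mp h3
  refine ⟨⌈x0⌉₊, fun k hk => ?_⟩
  obtain ⟨g1, g2, g3⟩ := hx0 (k : ℝ) (Nat.ceil_le.mp hk)
  refine ⟨?_, g3, by exact_mod_cast g1⟩
  refine le_trans ?_ g2
  push_cast
  have : (zz k : ℝ) ≤ (Real.log k) ^ 2 := Nat.floor_le (by positivity)
  gcongr

theorem inv_lt_k {κ : ℝ} {k : ℕ} {A : Finset ℕ} {X U : ℕ} {T : Finset ℕ} {τ : ℕ → ℕ}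
    (h : Inv κ k A X U T τ) : ∀ q ∈ T, q.Prime ∧ ∃ s : ℕ, 1 ≤ s ∧ s < q ∧ s < k ∧ q ∣ k - s ∧
      2 ∣ k - s := by
  intro q hq
  refine ⟨h.prime q hq, ?_⟩
  obtain ⟨s, h1, h2, h3, h4⟩ := h.wit q hq
  refine ⟨s, h1, h2.trans (h.lt q hq), ?_, h3, h4⟩
  have : ht k (τ q) ≤ k := by
    unfold ht
    exact (min_le_right _ _).trans (Nat.sub_le _ _)
  omega

theorem inv_gt_X {κ : ℝ} {k : ℕ} {A : Finset ℕ} {X U : ℕ} {T : Finset ℕ} {τ : ℕ → ℕ}
    (h : Inv κ k A X U T τ) : ∀ q ∈ T, X < q := by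
  intro q hq
  rcases h.big q hq with h1 | h1
  · exact h1.2
  · exact h1.1.trans (h.lt q hq)

open Classical in
theorem dvd_count {k p : ℕ} (hk : 1 < k) (hp : (k : ℝ) ^ (3 / 4 : ℝ) < p) :
    (((Finset.Ioo 1 k).filter (fun t : ℕ => p ∣ t)).card : ℝ) ≤ (k : ℝ) ^ (1 / 4 : ℝ) := by
  have hk0 : (0 : ℝ) < k := by
    have : 0 < k := by omega
    exact_mod_cast this
  have h1 : ((Finset.Ioo 1 k).filter (fun t : ℕ => p ∣ t)).card ≤ k / p := by
    rw [← Nat.Ioc_filter_dvd_card_eq_div]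
    apply Finset.card_le_card
    intro t ht
    rw [Finset.mem_filter, Finset.mem_Ioo] at ht
    rw [Finset.mem_filter, Finset.mem_Ioc]
    exact ⟨⟨by omega, by omega⟩, ht.2⟩
  have h34 : 0 < (k : ℝ) ^ (3 / 4 : ℝ) := by positivity
  calc (((Finset.Ioo 1 k).filter (fun t : ℕ => p ∣ t)).card : ℝ) ≤ ((k / p : ℕ) : ℝ) := by
        exact_mod_cast h1
    _ ≤ (k : ℝ) / p := Nat.cast_div_le
    _ ≤ (k : ℝ) / (k : ℝ) ^ (3 / 4 : ℝ) := by gcongr
    _ = (k : ℝ) ^ (1 / 4 : ℝ) := by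
        rw [div_eq_iff h34.ne', ← Real.rpow_add hk0]
        norm_num

open Classical in
theorem top_split {k p u : ℕ} {R T : Finset ℕ} {Y : ℝ} (hY : 0 ≤ Y)
    (hR : ∀ r ∈ R, (r : ℝ) ≤ Y) :
    Bn k (insert p R ∪ T) u ≤
      ((Finset.Ioc 0 (0 + u)).filter (fun t => Sm (insert p R ∪ T) t ∧ 1 < t ∧
          ∀ l : ℕ, l.Prime → l ∣ t → l ≤ ⌊Y⌋₊)).card +
      ((Finset.Ioc (k - u - 1) ((k - u - 1) + u)).filter (fun t => Sm (insert p R ∪ T) t ∧ 1 < t ∧
          ∀ l : ℕ, l.Prime → l ∣ t → l ≤ ⌊Y⌋₊)).card +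
      (if Y < p then ((Finset.Ioo 1 k).filter (fun t : ℕ => p ∣ t)).card else 0) +
      ((Finset.Ioc 0 u).filter
        (fun t : ℕ => Sm (insert p R ∪ T) t ∧ ∃ q ∈ T, q ∣ t ∧ Y < (q : ℝ))).card +
      ((Finset.Ioo 1 k).filter
        (fun t : ℕ => k - t ≤ u ∧ Sm (insert p R ∪ T) t ∧ ∃ q ∈ T, q ∣ t ∧ Y < (q : ℝ))).card := by
  set S := insert p R ∪ T with hS
  set A1 := (Finset.Ioc 0 (0 + u)).filter (fun t => Sm S t ∧ 1 < t ∧
          ∀ l : ℕ, l.Prime → l ∣ t → l ≤ ⌊Y⌋₊) with hA1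
  set A2 := (Finset.Ioc (k - u - 1) ((k - u - 1) + u)).filter (fun t => Sm S t ∧ 1 < t ∧
          ∀ l : ℕ, l.Prime → l ∣ t → l ≤ ⌊Y⌋₊) with hA2
  set A3 := (if Y < p then ((Finset.Ioo 1 k).filter (fun t : ℕ => p ∣ t)) else ∅) with hA3
  set A4 := (Finset.Ioc 0 u).filter
        (fun t : ℕ => Sm S t ∧ ∃ q ∈ T, q ∣ t ∧ Y < (q : ℝ)) with hA4
  set A5 := (Finset.Ioo 1 k).filter
        (fun t : ℕ => k - t ≤ u ∧ Sm S t ∧ ∃ q ∈ T, q ∣ t ∧ Y < (q : ℝ)) with hA5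
  have e3 : (if Y < p then ((Finset.Ioo 1 k).filter (fun t : ℕ => p ∣ t)).card else 0) = A3.card := by
    rw [hA3]
    split_ifs <;> simp
  rw [e3]
  have hsub : (Finset.Ioo 1 k).filter (fun t => ht k t ≤ u ∧ Sm S t) ⊆
      (((A1 ∪ A2) ∪ A3) ∪ A4) ∪ A5 := by
    intro t ht
    rw [Finset.mem_filter, Finset.mem_Ioo] at ht
    obtain ⟨⟨ht1, ht2⟩, hht, hSm⟩ := ht
    unfold HK.ht at hht
    rw [min_le_iff] at hht
    rw [Finset.mem_union, Finset.mem_union, Finset.mem_union, Finset.mem_union]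
    by_cases hall : ∀ l : ℕ, l.Prime → l ∣ t → l ≤ ⌊Y⌋₊
    · left; left; left
      rcases hht with h | h
      · left
        rw [hA1, Finset.mem_filter, Finset.mem_Ioc]
        exact ⟨⟨by omega, by omega⟩, hSm, ht1, hall⟩
      · right
        rw [hA2, Finset.mem_filter, Finset.mem_Ioc]
        exact ⟨⟨by omega, by omega⟩, hSm, ht1, hall⟩
    · push Not at hall
      obtain ⟨l, hl, hlt, hlY⟩ := hall
      have hlY' : Y < l := (Nat.floor_lt hY).mp hlY
      have hlS := hSm l hl hlt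
      rw [hS, Finset.mem_union, Finset.mem_insert] at hlS
      rcases hlS with (h | h) | h
      · left; left; right
        rw [hA3, if_pos (by rw [← h]; exact hlY'), Finset.mem_filter, Finset.mem_Ioo]
        exact ⟨⟨ht1, ht2⟩, by rw [← h]; exact hlt⟩
      · exact absurd (hR l h) (not_le.mpr hlY')
      · rcases hht with h1 | h1
        · left; right
          rw [hA4, Finset.mem_filter, Finset.mem_Ioc]
          exact ⟨⟨by omega, by omega⟩, hSm, l, h, hlt, hlY'⟩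
        · right
          rw [hA5, Finset.mem_filter, Finset.mem_Ioo]
          exact ⟨⟨ht1, ht2⟩, h1, hSm, l, h, hlt, hlY'⟩
  unfold Bn
  have h0 := Finset.card_le_card hsub
  have h1 := Finset.card_union_le (((A1 ∪ A2) ∪ A3) ∪ A4) A5
  have h2 := Finset.card_union_le ((A1 ∪ A2) ∪ A3) A4
  have h3 := Finset.card_union_le (A1 ∪ A2) A3
  have h4 := Finset.card_union_le A1 A2
  omega

theorem top (CA C2 κ δ : ℝ) (hCA : 0 ≤ CA) (hC2 : 1 ≤ C2) (hκ : 0 < κ) (hδ : 0 < δ) :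
    ∃ η : ℝ, 0 < η ∧ ∃ K0 : ℕ, ∀ K : ℕ, K0 ≤ K → ∃ X0 : ℕ, ∀ X : ℕ, X0 ≤ X → ∀ W : ℕ,
    ∃ k0 : ℕ, ∀ k : ℕ, k0 ≤ k →
    ∀ (p : ℕ) (R T : Finset ℕ) (τ : ℕ → ℕ) (U : ℕ), p.Prime → p ≠ 2 → R ⊆ Rng W k →
    (∑ q ∈ (insert p R).filter Nat.Prime, 2 / (q : ℝ)) ≤ CA →
    U * K ≤ k → k < (U + 1) * K → Inv κ k (insert p R) X U T τ →
    (∑ q ∈ T, 1 / (q : ℝ)) ≤ η →
    (∀ u : ℕ, X ≤ u → u ≤ U → (Bn k (insert p R ∪ T) u : ℝ) ≤ C2 * u / Real.log u) →
    ∀ u : ℕ, U ≤ u → 2 * u ≤ k →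
      (Bn k (insert p R ∪ T) u : ℝ) ≤ δ * u / Real.log k := by
  classical
  obtain ⟨η, hη, hη1, hmid⟩ := HK.top_mid (HK.mid_count HK.sieve_smooth)
    (fun S N D hD => HK.tail_sum S N D hD) CA (δ / 8) hCA (by positivity)
  obtain ⟨C3, hC31, hcT⟩ := HK.count_T_nat C2 κ hC2 hκ
  have hC3 : 0 < C3 := by linarith
  set E0 := Real.exp (CA + 2) with hE0
  have hE0pos : 0 < E0 := Real.exp_pos _
  refine ⟨η, hη, max 3 ⌈Real.exp (8 * C3 * (E0 + 3) / δ)⌉₊, fun K hK => ?_⟩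
  have hK3 : 3 ≤ K := (le_max_left _ _).trans hK
  have hKr : (3 : ℝ) ≤ K := by exact_mod_cast hK3
  have hKe : Real.exp (8 * C3 * (E0 + 3) / δ) ≤ K :=
    (Nat.le_ceil _).trans (by exact_mod_cast (le_max_right _ _).trans hK)
  have hlogK : 8 * C3 * (E0 + 3) / δ ≤ Real.log K := by
    rw [← Real.log_exp (8 * C3 * (E0 + 3) / δ)]
    exact Real.log_le_log (Real.exp_pos _) hKe
  refine ⟨max 2 ⌈Real.exp (16 * K * C3 * E0 / δ)⌉₊, fun X hX W => ?_⟩
  have hX2 : 2 ≤ X := (le_max_left _ _).trans hX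
  have hXe : Real.exp (16 * K * C3 * E0 / δ) ≤ X :=
    (Nat.le_ceil _).trans (by exact_mod_cast (le_max_right _ _).trans hX)
  have hlogX : 16 * K * C3 * E0 / δ ≤ Real.log X := by
    rw [← Real.log_exp (16 * K * C3 * E0 / δ)]
    exact Real.log_le_log (Real.exp_pos _) hXe
  obtain ⟨k1, hk1⟩ := hmid K W (by omega)
  obtain ⟨k2, hk2⟩ := hcT K X hK3
  obtain ⟨k3, hk3⟩ := HK.HK8_zz X
  obtain ⟨k4, hk4⟩ := top_asymp K W δ hδ (by omega)
  refine ⟨k1 + k2 + k3 + k4 + K + 100, ?_⟩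
  intro k hk p R T τ U hp hp2 hR hCAs hUK hUK' hI hTs hBn u hUu h2u
  have g1 := hk1 k (by omega)
  have g2 := hk2 k (by omega)
  have g3 := hk3 k (by omega)
  obtain ⟨g4, g5, g6⟩ := hk4 k (by omega)
  have hk0 : (0 : ℝ) < k := by
    have : 0 < k := by omega
    exact_mod_cast this
  have hlogk : 0 < Real.log k := Real.log_pos (by exact_mod_cast g6)
  have hU1 : 1 ≤ U := by
    by_contra h
    have : U = 0 := by omega
    subst this
    omega
  have hu1 : 1 ≤ u := hU1.trans hUu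
  have hkuK : k ≤ 2 * u * K := by
    have h1 : (U + 1) * K ≤ (2 * u) * K := Nat.mul_le_mul_right K (by omega)
    omega
  have huk : u ≤ k := by omega
  have hlogKpos : 0 < Real.log K := Real.log_pos (by linarith)
  have hlogXpos : 0 < Real.log X := Real.log_pos (by
    have : (2 : ℝ) ≤ X := by exact_mod_cast hX2
    linarith)
  set S := insert p R ∪ T with hS
  set Y : ℝ := (k : ℝ) ^ (3 / 4 : ℝ) with hYdef
  have hY0 : 0 ≤ Y := by positivity
  have hRY : ∀ r ∈ R, (r : ℝ) ≤ Y := by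
    intro r hr
    have h1 := hR hr
    unfold Rng at h1
    rw [Finset.mem_filter, Finset.mem_Ioc] at h1
    exact le_trans (by exact_mod_cast h1.1.2) g4
  have hRX : ∀ r ∈ R, X < r := by
    intro r hr
    have h1 := hR hr
    unfold Rng at h1
    rw [Finset.mem_filter, Finset.mem_Ioc] at h1
    omega
  have hIT := inv_lt_k hI
  have hIX := inv_gt_X hI
  have hTk : ∀ q ∈ T, q.Prime ∧ q < k := by
    intro q hq
    obtain ⟨hqp, s, hs1, _, hs3, hs4, _⟩ := hIT q hq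
    refine ⟨hqp, ?_⟩
    have := Nat.le_of_dvd (by omega) hs4
    omega
  have hS2 : 2 ∉ S := by
    rw [hS, Finset.mem_union, Finset.mem_insert]
    rintro ((h | h) | h)
    · exact hp2 h.symm
    · exact HK.Rng_two (by omega) (hR h)
    · exact hI.odd 2 h rfl
  have hSX : ∀ l ∈ S, l.Prime → l = p ∨ X < l := by
    intro l hl _
    rw [hS, Finset.mem_union, Finset.mem_insert] at hl
    rcases hl with (h | h) | h
    · left; exact h
    · right; exact hRX l h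
    · right; exact hIX l h
  have hp3 : 3 ≤ p := by
    have := hp.two_le
    omega
  -- the sum over S
  have hSE : Real.exp (∑ q ∈ S.filter Nat.Prime, 2 / (q : ℝ)) ≤ E0 := by
    rw [hE0]
    apply Real.exp_le_exp.mpr
    have h1 : S.filter Nat.Prime ⊆ (insert p R).filter Nat.Prime ∪ T := by
      intro q hq
      rw [Finset.mem_filter, hS, Finset.mem_union] at hq
      rw [Finset.mem_union, Finset.mem_filter]
      tauto
    have h2 : (∑ q ∈ S.filter Nat.Prime, 2 / (q : ℝ)) ≤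
        ∑ q ∈ (insert p R).filter Nat.Prime ∪ T, 2 / (q : ℝ) :=
      Finset.sum_le_sum_of_subset_of_nonneg h1 (fun _ _ _ => by positivity)
    have h3 := HK.aux_sum_union (A := (insert p R).filter Nat.Prime) (B := T)
      (fun q : ℕ => 2 / (q : ℝ)) (fun q => by positivity)
    have h4 : (∑ q ∈ T, 2 / (q : ℝ)) = 2 * ∑ q ∈ T, 1 / (q : ℝ) := by
      rw [Finset.mul_sum]
      apply Finset.sum_congr rfl
      intro q _
      ring
    have h5 : (∑ q ∈ T, 2 / (q : ℝ)) ≤ 2 := by rw [h4]; linarith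
    linarith
  -- the five counts
  have hcount := g2 (insert p R) T τ U hUK hI hBn
  have hA1 := g1 p R T hp hR hCAs hTk hTs 0 u hkuK huk
  have hA2 := g1 p R T hp hR hCAs hTk hTs (k - u - 1) u hkuK huk
  have hA4 := HK.top_low (fun S N => HK.sum_smooth S N) S T k u C3 (Real.log K) (by omega) huk
    hC3.le hlogKpos hI.prime (fun x hx1 hx2 => by
      refine (hcount x hx1 hx2).trans ?_
      have hx0 : 0 < x := lt_of_lt_of_le (by positivity) hx1
      have h1 : Real.log K ≤ Real.log (K + k / x) := by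
        apply Real.log_le_log (by linarith)
        have : 0 ≤ (k : ℝ) / x := by positivity
        linarith
      gcongr)
  have hA5 := HK.top_high (fun S N => HK.sum_smooth S N) S T p X K k u C3 (by omega) hC3.le hu1 h2u
    hkuK (by omega) hX2 hp hp3 hS2 hSX hIT hcount
  have hur : (0 : ℝ) < u := by exact_mod_cast hu1
  have hkuKr : (k : ℝ) ≤ 2 * u * K := by exact_mod_cast hkuK
  have hA3 : (((if Y < p then ((Finset.Ioo 1 k).filter (fun t : ℕ => p ∣ t)).card else 0) : ℕ) : ℝ)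
      ≤ δ / 8 * u / Real.log k := by
    split_ifs with h
    · refine (dvd_count g6 h).trans ?_
      rw [le_div_iff₀ hlogk]
      have h34 : (k : ℝ) ^ (1 / 4 : ℝ) * (k : ℝ) ^ (3 / 4 : ℝ) = k := by
        rw [← Real.rpow_add hk0]; norm_num
      calc (k : ℝ) ^ (1 / 4 : ℝ) * Real.log k
          ≤ (k : ℝ) ^ (1 / 4 : ℝ) * (δ / (16 * K) * (k : ℝ) ^ (3 / 4 : ℝ)) := by gcongr
        _ = δ / (16 * K) * ((k : ℝ) ^ (1 / 4 : ℝ) * (k : ℝ) ^ (3 / 4 : ℝ)) := by ring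
        _ = δ / (16 * K) * k := by rw [h34]
        _ ≤ δ / (16 * K) * (2 * u * K) := by gcongr
        _ = δ / 8 * u := by field_simp; ring
    · push_cast
      positivity
  have hsplit := top_split (k := k) (p := p) (u := u) (R := R) (T := T) (Y := Y) hY0 hRY
  rw [← hS] at hsplit
  have hsplit' := (Nat.cast_le (α := ℝ)).mpr hsplit
  rw [Nat.cast_add, Nat.cast_add, Nat.cast_add, Nat.cast_add] at hsplit'
  rw [← hS] at hA1 hA2
  rw [← hYdef] at hA4 hA5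
  -- collect
  have hL : 0 < (u : ℝ) / Real.log k := by positivity
  have e1 : δ / 8 * (u : ℝ) / Real.log k = δ / 8 * (u / Real.log k) := by ring
  have e4 : C3 * Real.exp (∑ q ∈ S.filter Nat.Prime, 2 / (q : ℝ)) * u / (Real.log K * Real.log k) ≤
      (C3 * E0 / Real.log K) * (u / Real.log k) := by
    calc C3 * Real.exp (∑ q ∈ S.filter Nat.Prime, 2 / (q : ℝ)) * u / (Real.log K * Real.log k)
        ≤ C3 * E0 * u / (Real.log K * Real.log k) := by gcongr
      _ = (C3 * E0 / Real.log K) * (u / Real.log k) := by field_simp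
  have e5 : (3 * C3 / Real.log K +
        2 * K * C3 * Real.exp (∑ q ∈ S.filter Nat.Prime, 2 / (q : ℝ)) / Real.log X) *
          (u / Real.log k) ≤ (3 * C3 / Real.log K + 2 * K * C3 * E0 / Real.log X) *
          (u / Real.log k) := by gcongr
  have f1 : (C3 * E0 / Real.log K) + 3 * C3 / Real.log K ≤ δ / 8 := by
    rw [← add_div, div_le_iff₀ hlogKpos]
    rw [div_le_iff₀ hδ] at hlogK
    nlinarith
  have f2 : 2 * K * C3 * E0 / Real.log X ≤ δ / 8 := by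
    rw [div_le_iff₀ hlogXpos]
    rw [div_le_iff₀ hδ] at hlogX
    nlinarith
  have f3 : ((C3 * E0 / Real.log K) + (3 * C3 / Real.log K + 2 * K * C3 * E0 / Real.log X)) *
      (u / Real.log k) ≤ (δ / 4) * (u / Real.log k) := by
    have : (C3 * E0 / Real.log K) + (3 * C3 / Real.log K + 2 * K * C3 * E0 / Real.log X) ≤ δ / 4 := by
      linarith
    gcongr
  have f4 : δ * u / Real.log k = δ * (u / Real.log k) := by ring
  rw [f4]
  rw [e1] at hA1 hA2 hA3
  have f5 : 0 ≤ δ * (u / Real.log k) := by positivity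
  have f6 : (δ / 8) * ((u : ℝ) / Real.log k) = δ * (u / Real.log k) / 8 := by ring
  have f7 : (δ / 4) * ((u : ℝ) / Real.log k) = δ * (u / Real.log k) / 4 := by ring
  rw [f6] at hA1 hA2 hA3
  rw [f7, add_mul] at f3
  linarith

end Pool.Agent.Helper601.HKZ
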