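import Mathlib
import Pool.Agent.Helper601.HKDefs
import Pool.Agent.Helper601.HKLem
import Pool.Agent.Helper601.HKTop

set_option autoImplicit false

namespace Pool.Agent.Helper601.HKZ

open Pool.Agent.Helper601.HK

theorem Rs_subset (W X k : ℕ) : Rs W X k ⊆ Rng W k := Finset.filter_subset _ _

theorem Bn_mono {k : ℕ} {S : Finset ℕ} {u v : ℕ} (h : u ≤ v) : Bn k S u ≤ Bn k S v := by
  classical
  unfold Bn
  apply Finset.card_le_card
  intro t ht
  rw [Finset.mem_filter] at ht ⊢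
  exact ⟨ht.1, ht.2.1.trans h, ht.2.2⟩

/-- all stages of the greedy construction -/
theorem stages {κ : ℝ} {C2 : ℝ} {k K X0 K0 : ℕ} {A : Finset ℕ} {X : ℕ} (hX1 : 1 ≤ X) (hX0 : X0 ≤ X)
    (hK : K0 ≤ K) (hK3 : 3 ≤ K) (hA : 2 ∉ A)
    (hav : ∀ k u : ℕ, X0 ≤ u → u * K0 ≤ k → C2 * u / Real.log u + 2 ≤ ((Av κ k u).card : ℝ))
    (hC2 : 0 ≤ C2) (hX3 : 3 ≤ X)
    (hsp : ∀ (T : Finset ℕ) (τ : ℕ → ℕ) (U : ℕ), U * K ≤ k → Inv κ k A X U T τ →
      (∀ u : ℕ, X ≤ u → u ≤ U → (Bn k (A ∪ T) u : ℝ) ≤ C2 * u / Real.log u))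
    (hbase : ∃ (T : Finset ℕ) (τ : ℕ → ℕ), Inv κ k A X X T τ) :
    ∀ U : ℕ, X ≤ U → U * K ≤ k → ∃ (T : Finset ℕ) (τ : ℕ → ℕ), Inv κ k A X U T τ := by
  intro U hU
  induction U, hU using Nat.le_induction with
  | base => intro _; exact hbase
  | succ U hU ih =>
    intro hUK
    have h1 : U * K ≤ k := by
      refine le_trans ?_ hUK
      exact Nat.mul_le_mul_right K (by omega)
    obtain ⟨T, τ, hI⟩ := ih h1
    refine step κ k A X U T τ hX1 hU ?_ hA hI ?_
    · have : 3 * (U + 1) ≤ (U + 1) * K := by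
        rw [mul_comm]; exact Nat.mul_le_mul_left _ hK3
      omega
    · have h2 := hav k (U + 1) (by omega) (le_trans (Nat.mul_le_mul_left _ hK) hUK)
      have h3 := card_le_Bn hI
      have h4 := hsp T τ U h1 hI U hU le_rfl
      have hUr : (3 : ℝ) ≤ U := by exact_mod_cast hX3.trans hU
      have he : Real.exp 1 ≤ (U : ℝ) := by
        have := Real.exp_one_lt_d9
        linarith
      have h5 : C2 * (U : ℝ) / Real.log U ≤ C2 * ((U + 1 : ℕ) : ℝ) / Real.log ((U + 1 : ℕ) : ℝ) := by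
        have hanti := Real.log_div_self_antitoneOn
        have h6 : Real.log ((U + 1 : ℕ) : ℝ) / ((U + 1 : ℕ) : ℝ) ≤ Real.log (U : ℝ) / (U : ℝ) := by
          apply hanti
          · exact he
          · show Real.exp 1 ≤ _
            push_cast; linarith
          · push_cast; linarith
        have hl1 : 0 < Real.log (U : ℝ) := Real.log_pos (by linarith)
        have hl2 : 0 < Real.log ((U + 1 : ℕ) : ℝ) := Real.log_pos (by push_cast; linarith)
        have hU1 : (0 : ℝ) < ((U + 1 : ℕ) : ℝ) := by positivity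
        have hU0 : (0 : ℝ) < (U : ℝ) := by linarith
        rw [div_le_div_iff₀ hU1 hU0] at h6
        rw [div_le_div_iff₀ hl1 hl2]
        calc C2 * (U : ℝ) * Real.log ((U + 1 : ℕ) : ℝ)
            = C2 * (Real.log ((U + 1 : ℕ) : ℝ) * (U : ℝ)) := by ring
          _ ≤ C2 * (Real.log (U : ℝ) * ((U + 1 : ℕ) : ℝ)) := by gcongr
          _ = C2 * ((U + 1 : ℕ) : ℝ) * Real.log (U : ℝ) := by ring
      have h6 : (T.card : ℝ) ≤ (Bn k (A ∪ T) U : ℝ) := by exact_mod_cast h3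
      have h7 : ((T.card + 2 : ℕ) : ℝ) ≤ ((Av κ k (U + 1)).card : ℝ) := by
        push_cast at h2 ⊢
        push_cast at h5
        linarith
      exact_mod_cast h7

open Classical in
/-- The last stage, by Hall's theorem. -/
theorem last_stage {k U : ℕ} {S R T : Finset ℕ} (hk : 3 ≤ k)
    (hB : ∀ u : ℕ, U ≤ u → 2 * u ≤ k → (Bn k S u : ℝ) ≤ 1 / 8 * u / Real.log k)
    (hF : ∀ u : ℕ, U + 1 ≤ u → 2 * u ≤ k → (u : ℝ) / (4 * Real.log k) ≤
      (((Finset.Ioo (k - u) k).filter (fun q => q.Prime ∧ ∃ r ∈ R \ T, r ∣ q + 1)).card : ℝ)) :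
    ∃ (F : Finset ℕ) (σ : ℕ → ℕ),
      (∀ q ∈ F, q.Prime ∧ q < k ∧ 1 < σ q ∧ σ q < k ∧ k - q < ht k (σ q) ∧
        ∃ r ∈ R, r ∉ T ∧ r ∣ q + 1) ∧
      (∀ t : ℕ, 1 < t → t < k → U < ht k t → Sm S t → ∃ q ∈ F, σ q = t) := by
  set E : Finset ℕ := (Finset.Ioo 1 k).filter (fun t => U < ht k t ∧ Sm S t) with hE
  have hEm : ∀ t : ℕ, t ∈ E ↔ (1 < t ∧ t < k) ∧ U < ht k t ∧ Sm S t := by
    intro t
    rw [hE, Finset.mem_filter, Finset.mem_Ioo]
  set G : ℕ → Finset ℕ := fun u =>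
    (Finset.Ioo (k - u) k).filter (fun q => q.Prime ∧ ∃ r ∈ R \ T, r ∣ q + 1) with hG
  have hGmono : ∀ u v : ℕ, u ≤ v → G u ⊆ G v := by
    intro u v huv q hq
    rw [hG] at hq ⊢
    simp only [Finset.mem_filter, Finset.mem_Ioo] at hq ⊢
    exact ⟨⟨by omega, hq.1.2⟩, hq.2⟩
  have hhall : ∀ s : Finset E, s.card ≤ (s.biUnion (fun t => G (ht k t))).card := by
    intro s
    rcases s.eq_empty_or_nonempty with rfl | hs
    · simp
    · obtain ⟨m, hm, hmax⟩ := Finset.exists_max_image s (fun t => ht k (t : ℕ)) hs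
      set u := ht k (m : ℕ) with hu
      have hmE := (hEm m).mp m.2
      have h2u : 2 * u ≤ k := by
        have : u ≤ (m : ℕ) ∧ u ≤ k - (m : ℕ) := by
          rw [hu]; unfold ht; exact ⟨min_le_left _ _, min_le_right _ _⟩
        omega
      have hUu : U < u := hmE.2.1
      have h1 : s.card ≤ Bn k S u := by
        have : s.card = (s.image (fun t : E => (t : ℕ))).card := by
          rw [Finset.card_image_of_injective _ Subtype.val_injective]
        rw [this]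
        unfold Bn
        apply Finset.card_le_card
        intro t ht'
        rw [Finset.mem_image] at ht'
        obtain ⟨x, hx, rfl⟩ := ht'
        have hxE := (hEm x).mp x.2
        rw [Finset.mem_filter]
        exact ⟨Finset.mem_Ioo.mpr hxE.1, hmax x hx, hxE.2.2⟩
      have h2 : (s.card : ℝ) ≤ ((G u).card : ℝ) := by
        have h3 := hB u hUu.le h2u
        have h4 := hF u hUu h2u
        have hlog : 0 < Real.log (k : ℝ) := Real.log_pos (by
          have : (3 : ℝ) ≤ k := by exact_mod_cast hk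
          linarith)
        have h5 : (1 / 8 * (u : ℝ) / Real.log k) ≤ (u : ℝ) / (4 * Real.log k) := by
          rw [div_le_div_iff₀ hlog (by positivity)]
          have : (0 : ℝ) ≤ (u : ℝ) * Real.log k := by positivity
          nlinarith
        have h6 : (s.card : ℝ) ≤ (Bn k S u : ℝ) := by exact_mod_cast h1
        linarith
      have h3 : s.card ≤ (G u).card := by exact_mod_cast h2
      refine h3.trans (Finset.card_le_card ?_)
      intro q hq
      rw [Finset.mem_biUnion]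
      exact ⟨m, hm, hq⟩
  obtain ⟨f, hfinj, hf⟩ := (Finset.all_card_le_biUnion_card_iff_exists_injective _).mp hhall
  have hmem : ∀ t : E, ((t : ℕ) > 1 ∧ (t : ℕ) < k) ∧ U < ht k (t : ℕ) ∧ Sm S (t : ℕ) := by
    intro t
    exact (hEm t).mp t.2
  refine ⟨Finset.univ.image f, fun q => if h : ∃ t : E, f t = q then ((Classical.choose h : E) : ℕ) else 0,
    ?_, ?_⟩
  · intro q hq
    rw [Finset.mem_image] at hq
    obtain ⟨t, _, rfl⟩ := hq
    have hex : ∃ t' : E, f t' = f t := ⟨t, rfl⟩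
    have hch : Classical.choose hex = t := hfinj (Classical.choose_spec hex)
    simp only [hex, dif_pos, hch]
    have hft := hf t
    rw [hG] at hft
    simp only [Finset.mem_filter, Finset.mem_Ioo, Finset.mem_sdiff] at hft
    obtain ⟨⟨hq1, hq2⟩, hqp, r, ⟨hrR, hrT⟩, hrd⟩ := hft
    have h1 := hmem t
    have hle : ht k (t : ℕ) ≤ k - (t : ℕ) := min_le_right _ _
    refine ⟨hqp, hq2, h1.1.1, h1.1.2, by omega, r, hrR, hrT, hrd⟩
  · intro t ht1 htk htU htS
    have htE : t ∈ E := by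
      rw [hE, Finset.mem_filter, Finset.mem_Ioo]
      exact ⟨⟨ht1, htk⟩, htU, htS⟩
    refine ⟨f ⟨t, htE⟩, Finset.mem_image_of_mem _ (Finset.mem_univ _), ?_⟩
    have hex : ∃ t' : E, f t' = f ⟨t, htE⟩ := ⟨_, rfl⟩
    have hch : Classical.choose hex = ⟨t, htE⟩ := hfinj (Classical.choose_spec hex)
    simp only [hex, dif_pos, hch]

theorem main_covering : ∃ k0 : ℕ, ∀ k : ℕ, k0 ≤ k → ¬ IsPrimePow k →
    ∃ c : ℕ → ℕ, (∀ q : ℕ, q.Prime → q ≤ k → k % q < c q ∧ c q ≤ q) ∧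
      (∀ t : ℕ, 1 ≤ t → t ≤ k → ∃ q : ℕ, q.Prime ∧ q ≤ k ∧ t ≡ c q [MOD q]) := by
  obtain ⟨W, hW1, hfree⟩ := free_primes
  obtain ⟨CA, hCA0, hstat⟩ := static_sum W
  obtain ⟨C2, hC21, hsparse⟩ := sparse CA hCA0
  obtain ⟨κ, hκ, havail⟩ := avail
  obtain ⟨η, hη, K0t, htop⟩ := top CA C2 κ (1 / 8) hCA0 hC21 hκ (by norm_num)
  obtain ⟨K0s, hsparse1⟩ := hsparse κ (min η (1 / 2)) hκ (lt_min hη (by norm_num))
  obtain ⟨K0a, X0a, hav⟩ := havail C2 hC21
  set K := K0t + K0s + K0a + 3 with hKdef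
  obtain ⟨X0t, htop1⟩ := htop K (by omega)
  obtain ⟨X0s, hsparse2⟩ := hsparse1 K (by omega)
  set X := X0t + X0s + X0a + 3 with hXdef
  obtain ⟨k0t, htop2⟩ := htop1 X (by omega) W
  obtain ⟨k0s, hsparse3⟩ := hsparse2 X (by omega)
  obtain ⟨k0f, hfree1⟩ := hfree K (by omega)
  obtain ⟨k0st, hstat1⟩ := hstat X
  obtain ⟨k0c, hcompl⟩ := static_compl W X
  obtain ⟨k0b, hbase⟩ := base W X κ
  refine ⟨k0t + k0s + k0f + k0st + k0c + k0b + 100 + X * K, ?_⟩
  intro k hk hpp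
  obtain ⟨p, p', T0, τ0, hp, hp2, hpk, hp', hp'k, hpp', hI0⟩ := hbase k (by omega) hpp
  have hRA : (∑ q ∈ (insert p (Rs W X k)).filter Nat.Prime, 2 / (q : ℝ)) ≤ CA :=
    hstat1 k (by omega) p hp
  have hR2 : (2 : ℕ) ∉ insert p (Rs W X k) := by
    rw [Finset.mem_insert]
    push Not
    exact ⟨fun h => hp2 h.symm, fun h => Rng_two (W := W) (k := k) (by omega) (Rs_subset W X k h)⟩
  set U := k / K with hU
  have hKpos : 0 < K := by omega
  have hUK : U * K ≤ k := Nat.div_mul_le_self k K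
  have hUK2 : k < (U + 1) * K := by
    rw [hU]
    have := Nat.lt_div_mul_add (a := k) hKpos
    linarith [this, Nat.add_mul (k / K) 1 K]
  have hXU : X ≤ U := by
    rw [hU, Nat.le_div_iff_mul_le hKpos]; omega
  obtain ⟨T, τ, hI⟩ := stages (κ := κ) (C2 := C2) (k := k) (K := K) (X0 := X0a) (K0 := K0a)
    (A := insert p (Rs W X k)) (X := X) (by omega) (by omega) (by omega) (by omega) hR2 hav
    (by linarith) (by omega)
    (fun T τ U h1 h2 => (hsparse3 k (by omega) _ T τ U hRA h1 h2).1) ⟨T0, τ0, hI0⟩ U hXU hUK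
  obtain ⟨hBs, hTs⟩ := hsparse3 k (by omega) _ T τ U hRA hUK hI
  have hBt := htop2 k (by omega) p (Rs W X k) T τ U hp hp2 (Rs_subset W X k) hRA hUK hUK2 hI
    (hTs.trans (min_le_left _ _)) hBs
  have hcm : (∑ r ∈ Rng W k \ (Rs W X k \ T), 1 / (r : ℝ)) ≤ 1 := by
    have hsub : Rng W k \ (Rs W X k \ T) ⊆ (Rng W k \ Rs W X k) ∪ T := by
      intro r hr
      rw [Finset.mem_sdiff, Finset.mem_sdiff] at hr
      rw [Finset.mem_union, Finset.mem_sdiff]
      tauto
    calc (∑ r ∈ Rng W k \ (Rs W X k \ T), 1 / (r : ℝ))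
        ≤ ∑ r ∈ (Rng W k \ Rs W X k) ∪ T, 1 / (r : ℝ) :=
          Finset.sum_le_sum_of_subset_of_nonneg hsub (fun _ _ _ => by positivity)
      _ ≤ (∑ r ∈ Rng W k \ Rs W X k, 1 / (r : ℝ)) + ∑ r ∈ T, 1 / (r : ℝ) := by
          rw [← Finset.sum_union_inter]
          have : 0 ≤ ∑ r ∈ (Rng W k \ Rs W X k) ∩ T, 1 / (r : ℝ) :=
            Finset.sum_nonneg (fun _ _ => by positivity)
          linarith
      _ ≤ 1 / 2 + 1 / 2 := by
          have h1 := hcompl k (by omega)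
          have h2 := hTs.trans (min_le_right _ _)
          linarith
      _ = 1 := by norm_num
  obtain ⟨F, σ, hF, hFc⟩ := last_stage (k := k) (U := U) (S := insert p (Rs W X k) ∪ T)
    (R := Rs W X k) (T := T) (by omega) hBt (by
      intro u hu h2u
      have := hfree1 k (by omega) (Rs W X k \ T)
        (Finset.sdiff_subset.trans (Rs_subset W X k)) hcm u (by
          have : (U + 1) * K ≤ u * K := Nat.mul_le_mul_right K hu
          omega) h2u
      convert this using 2)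
  refine covering κ k p p' X U (Rs W X k) T F τ σ hp hp2 hpk hp' hp'k hpp' ?_ (by omega) hI hF hFc
  intro r hr
  unfold Rs at hr
  rw [Finset.mem_filter] at hr
  have hr1 := hr.1
  unfold Rng at hr1
  rw [Finset.mem_filter] at hr1
  refine ⟨hr1.2, ?_, ?_⟩
  · have := hr.2 1 (by omega)
    simpa using this
  · have := hr.2 0 (by omega)
    simpa using this

/-- Schinzel's condition fails for all large `k` that are not prime powers. -/
theorem main : ¬ (Set.Infinite {k : ℕ | ¬ IsPrimePow k ∧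
      ∀ n : ℕ, 2 * k ≤ n → ∃ i : ℕ, i < k ∧ (n - i) ∣ n.choose k}) := by
  obtain ⟨k0, h⟩ := main_covering
  intro hinf
  obtain ⟨k, hk, hkk⟩ := hinf.exists_gt (k0 + 1)
  obtain ⟨c, h1, h2⟩ := h k (by omega) hk.1
  obtain ⟨n, hn, hni⟩ := reduction k (by omega) c h1 h2
  obtain ⟨i, hi, hdvd⟩ := hk.2 n hn
  exact hni i hi hdvd

end Pool.Agent.Helper601.HKZ
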